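import Mathlib

/-!
# MP_948082_co : the definitions used in the final statement

Representability, regular matroids, exactly-one-regular matroids, triple fans, the matroids of
`±1` matrices, parallel and series extensions.
-/

open Set

namespace MP948082

universe u

/-! ### Regular matroids -/

section Regular

variable {α : Type*}

/-- `v` is a representation of the matroid `M` over the field `F`: a subset of the ground set is
independent in `M` iff the corresponding vectors are linearly independent. -/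
def IsRep (F : Type*) [Field F] {V : Type*} [AddCommGroup V] [Module F V]
    (M : Matroid α) (v : α → V) : Prop :=
  ∀ I ⊆ M.E, (M.Indep I ↔ LinearIndepOn F v I)

/-- `M` is representable over the field `F`. -/
def Representable (F : Type*) [Field F] (M : Matroid α) : Prop :=
  ∃ (n : ℕ) (v : α → (Fin n → F)), IsRep F M v

/-- A matroid is regular if it is representable over every field. -/
def IsRegular (M : Matroid α) : Prop :=
  ∀ (F : Type) [Field F], Representable F M

/-- Exactly-one-regular matroids. -/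
def ExactlyOneRegular (M : Matroid α) : Prop :=
  ¬ IsRegular M ∧ ∀ e ∈ M.E, Xor (IsRegular (M.delete {e})) (IsRegular (M.contract {e}))

/-- Simple: no loops and no two parallel elements, i.e. every subset of the ground set with at most
two elements is independent. -/
def IsSimple (M : Matroid α) : Prop :=
  ∀ e ∈ M.E, ∀ f ∈ M.E, M.Indep {e, f}

/-- `N` is the relaxation of `M` at `Y`: same ground set and the bases of `N` are the bases of `M`
together with `Y`. -/
def IsRelaxation (N M : Matroid α) (Y : Set α) : Prop :=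
  N.E = M.E ∧ ∀ B, N.IsBase B ↔ (M.IsBase B ∨ B = Y)

/-- The field with two elements. -/
abbrev F2 : Type := ZMod 2

/-! ### Triple fans -/

/-- The elements of the triple fan with arms of lengths `m 0, m 1, m 2`; `ε`, `δ` say whether the
extra elements `x0`, `y0` are present. -/
inductive FanElt (m : Fin 3 → ℕ) (ε δ : Bool) : Type
  | y (i : Fin 3) (j : Fin (m i))
  | x (i : Fin 3) (j : Fin (m i))
  | x0 (h : ε = true)
  | y0 (h : δ = true)

/-- The basis elements of the triple fan. -/
abbrev FanBasis (m : Fin 3 → ℕ) (δ : Bool) : Type := (Σ i : Fin 3, Fin (m i)) ⊕ {_u : Unit // δ = true}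

/-- The vectors of the triple fan over the two-element field: the `y`'s (with `y0`) are the standard
basis, `x i j` is the sum of all basis vectors except `y i 0, ..., y i j`, and `x0` is the sum of all
basis vectors. -/
def fanVec (m : Fin 3 → ℕ) (ε δ : Bool) : FanElt m ε δ → (FanBasis m δ → F2)
  | .y i j => Pi.single (Sum.inl ⟨i, j⟩) 1
  | .y0 h => Pi.single (Sum.inr ⟨(), h⟩) 1
  | .x0 _ => fun _ => 1
  | .x i j => fun s => match s with
      | Sum.inl ⟨i', j'⟩ => if i' = i ∧ (j' : ℕ) ≤ (j : ℕ) then 0 else 1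
      | Sum.inr _ => 1

/-- The elements `y i j`, `y0` of the triple fan. -/
def fanY (m : Fin 3 → ℕ) (ε δ : Bool) : Set (FanElt m ε δ) :=
  {e | (∃ i j, e = .y i j) ∨ ∃ h, e = .y0 h}

/-- `M` is a triple fan with arms of length at least two, and `A` is the set of its elements `y`. -/
def IsFanWith (M : Matroid α) (A : Set α) : Prop :=
  ∃ (m : Fin 3 → ℕ) (ε δ : Bool) (φ : FanElt m ε δ → α), (∀ i, 2 ≤ m i) ∧ Function.Injective φ ∧
    Set.range φ = M.E ∧ (∀ I, (M.Indep (φ '' I) ↔ LinearIndepOn F2 (fanVec m ε δ) I)) ∧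
    A = φ '' fanY m ε δ

/-- `M` is a uniform matroid of rank two (or has less than two elements). -/
def IsLine (M : Matroid α) : Prop :=
  ∀ I ⊆ M.E, (M.Indep I ↔ I.encard ≤ 2)

end Regular

/-! ### The matroids of `±1` matrices -/

/-- `W` is a `±1` matrix with rows `Y` and columns `X` and every minor of order `k + 1` is `0` or
`± 2 ^ k`. -/
structure IsPM {α : Type u} (Y X : Set α) (W : α → α → ℤ) : Prop where
  entry : ∀ y ∈ Y, ∀ x ∈ X, W y x = 1 ∨ W y x = -1
  minor : ∀ (k : ℕ) (f g : Fin (k + 1) → α), (∀ i, f i ∈ Y) → (∀ i, g i ∈ X) →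
    (Matrix.of fun i j => W (f i) (g j)).det = 0 ∨
      |(Matrix.of fun i j => W (f i) (g j)).det| = 2 ^ k

open Classical in
/-- The columns of `(I | W)` over the rationals: `I` is indexed by `Y`. -/
noncomputable def pmVec {α : Type u} (Y : Set α) (W : α → α → ℤ) (e : α) : Y → ℚ :=
  fun y => if e ∈ Y then (if e = (y : α) then 1 else 0) else (W y e : ℚ)

/-- `M` is the rational matroid of `(I | W)`. -/
def IsPMMatroid {α : Type u} (M : Matroid α) (Y : Set α) (W : α → α → ℤ) : Prop :=
  Y ⊆ M.E ∧ Y.Nonempty ∧ (M.E \ Y).Nonempty ∧ IsPM Y (M.E \ Y) W ∧ IsRep ℚ M (pmVec Y W)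

/-- `N` has the bases of the rational matroid of `(I | W)`, except `Y`. -/
def IsTightened {α : Type u} (N : Matroid α) (Y : Set α) (W : α → α → ℤ) : Prop :=
  ∃ M, IsPMMatroid M Y W ∧ IsRelaxation M N Y ∧ ¬ N.IsBase Y

/-- `W` (rows `Y`, columns `X`) has a `3 × 4` or `4 × 3` submatrix all of whose `3 × 3` minors are
nonzero. -/
def HasFano {α : Type u} (Y X : Set α) (W : α → α → ℤ) : Prop :=
  (∃ (f : Fin 3 → α) (g : Fin 4 → α), (∀ i, f i ∈ Y) ∧ (∀ j, g j ∈ X) ∧
    ∀ j : Fin 4, (Matrix.of fun a b : Fin 3 => W (f a) (g (j.succAbove b))).det ≠ 0) ∨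
  (∃ (f : Fin 4 → α) (g : Fin 3 → α), (∀ i, f i ∈ Y) ∧ (∀ j, g j ∈ X) ∧
    ∀ i : Fin 4, (Matrix.of fun a b : Fin 3 => W (f (i.succAbove a)) (g b)).det ≠ 0)

/-! ### Parallel and series extensions -/

/-- Distinct nonloops `e, f` are parallel in `M`. -/
def IsParallel {α : Type u} (M : Matroid α) (e f : α) : Prop := e ≠ f ∧ M.IsCircuit {e, f}

/-- `e, f` are in series in `M`. -/
def IsSeries {α : Type u} (M : Matroid α) (e f : α) : Prop := e ≠ f ∧ M.IsCocircuit {e, f}

/-- `M` is obtained from `M₀` by adding the elements of `D` parallel to elements of `B` and the elements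
of `C` in series with elements of `A`, such that every element of `A ∩ B` gets at least one parallel or
series partner. -/
def IsExtension {α : Type u} (M M₀ : Matroid α) (A B C D : Set α) : Prop :=
  C ⊆ M.E ∧ D ⊆ M.E ∧ Disjoint C D ∧ M₀ = (M.delete D).contract C ∧
    (∀ d ∈ D, ∃ e ∈ B, IsParallel M d e) ∧ (∀ c ∈ C, ∃ e ∈ A, IsSeries M c e) ∧
    ∀ e ∈ A ∩ B, (∃ d ∈ D, IsParallel M d e) ∨ ∃ c ∈ C, IsSeries M c e

/-! ### The list -/

/-- The list of basic matroids `M` with their label sets `A`, `B`: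
`U_{2,n}`, `n ≥ 5`; their duals; `U_{2,4}`; triple fans; the matroids of `±1` matrices; the matroids
obtained from them by tightening the identity part. -/
def Listed {α : Type u} (M : Matroid α) (A B : Set α) : Prop :=
  (IsLine M ∧ 5 ≤ M.E.encard ∧ A = ∅ ∧ B = M.E) ∨
  (IsLine M✶ ∧ 5 ≤ M.E.encard ∧ A = M.E ∧ B = ∅) ∨
  (IsLine M ∧ M.E.encard = 4 ∧ A = M.E ∧ B = M.E) ∨
  (IsFanWith M A ∧ B = M.E \ A) ∨
  (∃ Y W, IsPMMatroid M Y W ∧ 5 ≤ M.E.encard ∧ A = Y ∧ B = M.E \ Y) ∨
  (∃ Y W, IsTightened M Y W ∧ HasFano Y (M.E \ Y) W ∧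
    A = Y ∪ {x ∈ M.E \ Y | ¬ HasFano Y ((M.E \ Y) \ {x}) W} ∧
    B = (M.E \ Y) ∪ {y ∈ Y | ¬ HasFano (Y \ {y}) (M.E \ Y) W})

end MP948082
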