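import Pool.Agent.Lib.MP_948082_co.Answer

/-!
# MP_948082_co : definitions used in the proof

Circuit-hyperplanes, the two configurations (F7 and its dual).  The definitions used in the final
statement are in Answer.lean.
-/

open Set

namespace MP948082

variable {α : Type*}

/-- The class `K`: `M` is not regular and, for every element `e`, at least one of `M \ e` and `M / e`
is regular. -/
def AtLeastOneRegular (M : Matroid α) : Prop :=
  ¬ IsRegular M ∧ ∀ e ∈ M.E, IsRegular (M.delete {e}) ∨ IsRegular (M.contract {e})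

/-- `M` is (isomorphic to) the triple fan with parameters `m`, `ε`, `δ`. -/
def IsFan (m : Fin 3 → ℕ) (ε δ : Bool) (M : Matroid α) : Prop :=
  ∃ φ : FanElt m ε δ → α, Function.Injective φ ∧ Set.range φ = M.E ∧
    ∀ I : Set (FanElt m ε δ), (M.Indep (φ '' I) ↔ LinearIndepOn F2 (fanVec m ε δ) I)

/-- `M` is a triple fan with all arms of length at least `k`. -/
def IsTripleFan (k : ℕ) (M : Matroid α) : Prop :=
  ∃ (m : Fin 3 → ℕ) (ε δ : Bool), (∀ i, k ≤ m i) ∧ IsFan m ε δ M

/-- `Y` is a circuit-hyperplane of `M`. -/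
def IsCircuitHyperplane (M : Matroid α) (Y : Set α) : Prop :=
  M.IsCircuit Y ∧ M.IsCocircuit (M.E \ Y)

/-- The field with three elements. -/
abbrev F3 : Type := ZMod 3

/-- The points of the Fano plane are the nonzero vectors of `P`. -/
abbrev P : Type := Fin 3 → F2

/-- An `F7`-configuration of the vectors `v e`, `e ∈ E`: after contracting `C` the elements `z p`,
`p ≠ 0`, form a Fano plane (and `C ∪ Z` spans everything). -/
def F7Cfg {V : Type*} [AddCommGroup V] [Module F2 V] (v : α → V) (E C : Set α) (z : P → α) :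
    Prop :=
  C ⊆ E ∧ (∀ p, p ≠ 0 → z p ∈ E) ∧
    ∃ π : V →ₗ[F2] P, LinearMap.ker π = Submodule.span F2 (v '' C) ∧ ∀ p, p ≠ 0 → π (v (z p)) = p

/-- An `F7*`-configuration, standard form. -/
def F7dCfg {V : Type*} [AddCommGroup V] [Module F2 V] (v : α → V) (E C : Set α) (z : P → α) :
    Prop :=
  C ⊆ E ∧ (∀ p, p ≠ 0 → z p ∈ E) ∧
    ∃ σ : V →ₗ[F2] (P × F2), LinearMap.ker σ = Submodule.span F2 (v '' C) ∧
      ∀ p, p ≠ 0 → σ (v (z p)) = (p, 1)

/-- `M` has an `F7`-configuration in some binary representation. -/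
def HasF7 (M : Matroid α) : Prop :=
  ∃ (n : ℕ) (v : α → (Fin n → F2)) (C : Set α) (z : P → α), IsRep F2 M v ∧ F7Cfg v M.E C z

end MP948082
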