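import Pool.Agent.Lib.MP_948082_co.Spec

section
/-!
# MP_948082_co : basic API for representations of matroids
-/
open Set Submodule

namespace MP948082

universe u

variable {α : Type u} {F : Type*} [Field F] {V : Type*} [AddCommGroup V] [Module F V]
  {W : Type*} [AddCommGroup W] [Module F W] {M : Matroid α} {v : α → V}

theorem IsRep.indep_iff (h : IsRep F M v) {I : Set α} :
    M.Indep I ↔ I ⊆ M.E ∧ LinearIndepOn F v I :=
  ⟨fun hI => ⟨hI.subset_ground, (h I hI.subset_ground).1 hI⟩, fun hI => (h I hI.1).2 hI.2⟩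

theorem IsRep.linearIndepOn (h : IsRep F M v) {I : Set α} (hI : M.Indep I) :
    LinearIndepOn F v I := (h I hI.subset_ground).1 hI

/-- Linear independence of a larger set versus span, for a set `I` that need not be disjoint. -/
theorem mem_span_of_insert_dep {I : Set α} {e : α} (hI : LinearIndepOn F v I)
    (h : ¬ LinearIndepOn F v (insert e I)) : v e ∈ span F (v '' I) := by
  by_contra hc
  exact h (hI.insert hc)

theorem IsRep.span_eq_of_isBasis (h : IsRep F M v) {I X : Set α} (hI : M.IsBasis I X) :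
    span F (v '' I) = span F (v '' X) := by
  apply le_antisymm (span_mono (image_mono hI.subset))
  rw [span_le]
  rintro _ ⟨e, he, rfl⟩
  by_cases heI : e ∈ I
  · exact subset_span ⟨e, heI, rfl⟩
  have hdep := hI.insert_dep ⟨he, heI⟩
  apply mem_span_of_insert_dep (h.linearIndepOn hI.indep)
  intro hc
  exact hdep.not_indep ((h _ hdep.subset_ground).2 hc)

/-- Closure is given by spans. -/
theorem IsRep.mem_closure_iff (h : IsRep F M v) {X : Set α} {e : α} (hX : X ⊆ M.E)
    (he : e ∈ M.E) : e ∈ M.closure X ↔ v e ∈ span F (v '' X) := by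
  obtain ⟨I, hI⟩ := M.exists_isBasis X hX
  rw [← hI.closure_eq_closure, ← h.span_eq_of_isBasis hI]
  by_cases heI : e ∈ I
  · exact iff_of_true (M.mem_closure_of_mem heI hI.indep.subset_ground)
      (subset_span ⟨e, heI, rfl⟩)
  rw [hI.indep.mem_closure_iff_of_notMem heI]
  have hli := h.linearIndepOn hI.indep
  constructor
  · intro hd
    apply mem_span_of_insert_dep hli
    intro hc
    exact hd.not_indep ((h _ hd.subset_ground).2 hc)
  · intro hs
    rw [Matroid.dep_iff]
    refine ⟨fun hc => ?_, insert_subset he hI.indep.subset_ground⟩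
    have := h.linearIndepOn hc
    rw [linearIndepOn_insert heI] at this
    exact this.2 hs

theorem IsRep.comp_injective (h : IsRep F M v) (f : V →ₗ[F] W) (hf : Function.Injective f) :
    IsRep F M (f ∘ v) := by
  intro I hI
  rw [h I hI]
  constructor
  · intro hl
    exact hl.map_injOn f hf.injOn
  · intro hl
    exact hl.of_comp f

theorem IsRep.congr {v' : α → V} (h : IsRep F M v) (hv : ∀ e ∈ M.E, v e = v' e) :
    IsRep F M v' := by
  intro I hI
  rw [h I hI]
  exact linearIndepOn_congr fun e he => hv e (hI he)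

/-- Every finite matroid with a representation in some space has one in some `F^n`, and one can take
the vectors to be spanning. -/
theorem IsRep.exists_spanning [M.Finite] (h : IsRep F M v) :
    ∃ (n : ℕ) (w : α → (Fin n → F)), IsRep F M w ∧ span F (w '' M.E) = ⊤ := by
  classical
  set S := span F (v '' M.E) with hS
  have hfin : (v '' M.E).Finite := M.ground_finite.image v
  have : Module.Finite F S := Module.Finite.span_of_finite F hfin
  obtain ⟨n, ⟨e⟩⟩ : ∃ n : ℕ, Nonempty (S ≃ₗ[F] (Fin n → F)) := by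
    refine ⟨Module.finrank F S, ⟨?_⟩⟩
    exact (Module.finBasis F S).equivFun
  let w : α → (Fin n → F) := fun a => if ha : a ∈ M.E then e ⟨v a, subset_span ⟨a, ha, rfl⟩⟩ else 0
  have hw : ∀ a (ha : a ∈ M.E), w a = e ⟨v a, subset_span ⟨a, ha, rfl⟩⟩ := by
    intro a ha
    simp [w, ha]
  refine ⟨n, w, ?_, ?_⟩
  · intro I hI
    rw [h I hI]
    have key : LinearIndepOn F w I ↔ LinearIndepOn F (fun a => (S.subtype ∘ₗ e.symm.toLinearMap) (w a)) I := by
      constructor
      · intro hl
        exact hl.map_injOn (S.subtype ∘ₗ e.symm.toLinearMap)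
          (by
            apply Function.Injective.injOn
            intro a b hab
            simpa using hab)
      · intro hl
        exact LinearIndepOn.of_comp (S.subtype ∘ₗ e.symm.toLinearMap) hl
    rw [key]
    apply linearIndepOn_congr
    intro a ha
    simp [hw a (hI ha)]
  · rw [eq_top_iff]
    intro x _
    obtain ⟨y, rfl⟩ := e.surjective x
    obtain ⟨y, hy⟩ := y
    have : ∀ y (hy : y ∈ S), e ⟨y, hy⟩ ∈ span F (w '' M.E) := by
      intro y hy
      induction hy using span_induction with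
      | mem z hz =>
        obtain ⟨a, ha, rfl⟩ := hz
        exact subset_span ⟨a, ha, hw a ha⟩
      | zero =>
        have : e ⟨0, zero_mem S⟩ = 0 := by
          rw [show (⟨0, zero_mem S⟩ : S) = 0 from rfl, map_zero]
        rw [this]; exact zero_mem _
      | add a b ha hb iha ihb =>
        have : e ⟨a + b, add_mem ha hb⟩ = e ⟨a, ha⟩ + e ⟨b, hb⟩ := by
          rw [← map_add]; rfl
        rw [this]; exact add_mem iha ihb
      | smul c a ha iha =>
        have : e ⟨c • a, smul_mem S c ha⟩ = c • e ⟨a, ha⟩ := by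
          rw [← map_smul]; rfl
        rw [this]; exact smul_mem _ _ iha
    exact this y hy

theorem IsRep.representable [M.Finite] (h : IsRep F M v) : Representable F M := by
  obtain ⟨n, w, hw, -⟩ := h.exists_spanning
  exact ⟨n, w, hw⟩

theorem Representable.exists_spanning [M.Finite] (h : Representable F M) :
    ∃ (n : ℕ) (w : α → (Fin n → F)), IsRep F M w ∧ span F (w '' M.E) = ⊤ := by
  obtain ⟨n, w, hw⟩ := h
  exact hw.exists_spanning

/-! ### Deletion and contraction -/

theorem IsRep.restrict (h : IsRep F M v) {R : Set α} (hR : R ⊆ M.E) : IsRep F (M.restrict R) v := by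
  intro I hI
  rw [Matroid.restrict_indep_iff]
  have hI' : I ⊆ R := hI
  rw [h I (hI'.trans hR)]
  exact and_iff_left hI'

theorem IsRep.delete (h : IsRep F M v) (D : Set α) : IsRep F (M.delete D) v := by
  intro I hI
  rw [Matroid.delete_ground] at hI
  rw [Matroid.delete_indep_iff, h I (hI.trans sdiff_subset)]
  exact and_iff_left (disjoint_of_subset_left hI disjoint_sdiff_left)

theorem Representable.delete (h : Representable F M) (D : Set α) :
    Representable F (M.delete D) := by
  obtain ⟨n, v, hv⟩ := h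
  exact ⟨n, v, hv.delete D⟩

theorem IsRep.contract (h : IsRep F M v) {C : Set α} (hC : C ⊆ M.E) :
    IsRep F (M.contract C) ((span F (v '' C)).mkQ ∘ v) := by
  intro J hJ
  rw [Matroid.contract_ground] at hJ
  obtain ⟨I, hI⟩ := M.exists_isBasis C hC
  have hdisj : Disjoint C J := (disjoint_of_subset_left hJ disjoint_sdiff_left).symm
  rw [hI.contract_indep_iff_of_disjoint hdisj, ← h.span_eq_of_isBasis hI,
    (h.linearIndepOn hI.indep).quotient_iff_union (disjoint_of_subset_left hI.subset hdisj)]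
  rw [union_comm J I, h _ (union_subset hI.indep.subset_ground (hJ.trans sdiff_subset))]

theorem Representable.contract [M.Finite] (h : Representable F M) (C : Set α) :
    Representable F (M.contract C) := by
  obtain ⟨n, v, hv⟩ := h
  rw [← Matroid.contract_inter_ground_eq]
  exact (hv.contract (inter_subset_right : C ∩ M.E ⊆ M.E)).representable

theorem IsRegular.delete (h : IsRegular M) (D : Set α) : IsRegular (M.delete D) :=
  fun F _ => (h F).delete D

theorem IsRegular.contract [M.Finite] (h : IsRegular M) (C : Set α) : IsRegular (M.contract C) :=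
  fun F _ => (h F).contract C

/-! ### Bases and spanning sets -/

theorem IsRep.isBase_iff (h : IsRep F M v) (hs : span F (v '' M.E) = ⊤) {B : Set α} :
    M.IsBase B ↔ B ⊆ M.E ∧ LinearIndepOn F v B ∧ span F (v '' B) = ⊤ := by
  constructor
  · intro hB
    refine ⟨hB.subset_ground, h.linearIndepOn hB.indep, ?_⟩
    rw [h.span_eq_of_isBasis hB.isBasis_ground, hs]
  · rintro ⟨hE, hl, hsp⟩
    have hI : M.Indep B := (h B hE).2 hl
    rw [hI.isBase_iff_ground_subset_closure]
    intro e he
    rw [h.mem_closure_iff hE he, hsp]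
    trivial

theorem IsRep.spanning_iff (h : IsRep F M v) (hs : span F (v '' M.E) = ⊤) {S : Set α}
    (hS : S ⊆ M.E) : M.Spanning S ↔ span F (v '' S) = ⊤ := by
  rw [Matroid.spanning_iff_ground_subset_closure]
  constructor
  · intro hc
    rw [eq_top_iff, ← hs, span_le]
    rintro _ ⟨e, he, rfl⟩
    exact (h.mem_closure_iff hS he).1 (hc he)
  · intro hc e he
    rw [h.mem_closure_iff hS he, hc]
    trivial

/-! ### The matroid of a family of vectors -/

/-- The matroid of the vectors `v e`, `e ∈ E`. -/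
noncomputable def vecMatroid (F : Type*) [Field F] {V : Type*} [AddCommGroup V] [Module F V]
    (v : α → V) (E : Set α) (hE : E.Finite) : Matroid α :=
  (IndepMatroid.ofFinite hE (fun I => I ⊆ E ∧ LinearIndepOn F v I)
    ⟨empty_subset _, linearIndepOn_empty F v⟩
    (fun _ _ hJ hIJ => ⟨hIJ.trans hJ.1, hJ.2.mono hIJ⟩)
    (by
      intro I J hI hJ hlt
      by_contra hc
      push Not at hc
      have hIf : I.Finite := hE.subset hI.1
      have hJf : J.Finite := hE.subset hJ.1
      have hsub : v '' J ⊆ span F (v '' I) := by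
        rintro _ ⟨e, he, rfl⟩
        by_cases heI : e ∈ I
        · exact subset_span ⟨e, heI, rfl⟩
        · have h1 := hc e he heI
          apply mem_span_of_insert_dep hI.2
          intro hl
          exact h1 (insert_subset (hJ.1 he) hI.1) hl
      have : Fintype I := hIf.fintype
      have : Fintype J := hJf.fintype
      have : Module.Finite F (span F (v '' I)) := Module.Finite.span_of_finite F (hIf.image v)
      have hJI : span F (v '' J) ≤ span F (v '' I) := span_le.2 hsub
      have h1 := Submodule.finrank_mono hJI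
      have e1 : Module.finrank F (span F (v '' J)) = J.ncard := by
        have := finrank_span_eq_card hJ.2
        rw [← image_eq_range] at this
        rw [this, Set.ncard_eq_toFinset_card', Set.toFinset_card]
      have e2 : Module.finrank F (span F (v '' I)) = I.ncard := by
        have := finrank_span_eq_card hI.2
        rw [← image_eq_range] at this
        rw [this, Set.ncard_eq_toFinset_card', Set.toFinset_card]
      omega)
    (fun _ hI => hI.1)).matroid

@[simp] theorem vecMatroid_ground {E : Set α} {hE : E.Finite} : (vecMatroid F v E hE).E = E := rfl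

theorem vecMatroid_indep_iff {E : Set α} {hE : E.Finite} {I : Set α} :
    (vecMatroid F v E hE).Indep I ↔ I ⊆ E ∧ LinearIndepOn F v I := Iff.rfl

instance vecMatroid_finite {E : Set α} {hE : E.Finite} : (vecMatroid F v E hE).Finite := ⟨hE⟩

theorem vecMatroid_isRep {E : Set α} {hE : E.Finite} : IsRep F (vecMatroid F v E hE) v := by
  intro I hI
  rw [vecMatroid_indep_iff]
  exact and_iff_right hI

theorem vecMatroid_representable {E : Set α} {hE : E.Finite} :
    Representable F (vecMatroid F v E hE) := vecMatroid_isRep.representable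

/-- A represented matroid is the matroid of its vectors. -/
theorem IsRep.eq_vecMatroid [hM : M.Finite] (h : IsRep F M v) :
    M = vecMatroid F v M.E M.ground_finite := by
  refine Matroid.ext_indep rfl fun I hI => ?_
  rw [h I hI, vecMatroid_indep_iff]
  exact (and_iff_right hI).symm

end MP948082
end

section
/-!
# MP_948082_co : coordinates with respect to a base, uniqueness of binary representations,
# configurations of minors
-/
open Set Submodule

namespace MP948082

universe u

variable {α : Type u} {F : Type*} [Field F] {V : Type*} [AddCommGroup V] [Module F V]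
  {W : Type*} [AddCommGroup W] [Module F W] {M : Matroid α} {v : α → V}

/-- The basis of the space given by a base of the matroid. -/
noncomputable def IsRep.basis (h : IsRep F M v) (hs : span F (v '' M.E) = ⊤) {B : Set α}
    (hB : M.IsBase B) : Module.Basis B F V :=
  Module.Basis.mk (v := fun r : B => v r) (h.linearIndepOn hB.indep) (by
    rw [← image_eq_range, h.span_eq_of_isBasis hB.isBasis_ground, hs])

@[simp] theorem IsRep.basis_apply (h : IsRep F M v) (hs : span F (v '' M.E) = ⊤) {B : Set α}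
    (hB : M.IsBase B) (r : B) : h.basis hs hB r = v r := by
  simp [IsRep.basis]

theorem IsRep.basis_coord_self (h : IsRep F M v) (hs : span F (v '' M.E) = ⊤) {B : Set α}
    (hB : M.IsBase B) (r : B) : (h.basis hs hB).coord r (v r) = 1 := by
  rw [← h.basis_apply hs hB r, Module.Basis.coord_apply, Module.Basis.repr_self,
    Finsupp.single_eq_same]

theorem IsRep.basis_coord_ne (h : IsRep F M v) (hs : span F (v '' M.E) = ⊤) {B : Set α}
    (hB : M.IsBase B) (r : B) {s : α} (hs' : s ∈ B) (hrs : s ≠ r) :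
    (h.basis hs hB).coord r (v s) = 0 := by
  classical
  have : v s = h.basis hs hB ⟨s, hs'⟩ := by simp
  rw [this]
  simp only [Module.Basis.coord_apply, Module.Basis.repr_self]
  rw [Finsupp.single_apply, if_neg]
  intro hc
  exact hrs (congrArg Subtype.val hc)

/-- The span of a subset of the base. -/
theorem IsRep.mem_span_subset_base (h : IsRep F M v) (hs : span F (v '' M.E) = ⊤) {B S : Set α}
    (hB : M.IsBase B) (hS : S ⊆ B) (x : V) :
    x ∈ span F (v '' S) ↔ ∀ r (hr : r ∈ B), r ∉ S → (h.basis hs hB).coord ⟨r, hr⟩ x = 0 := by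
  have himg : v '' S = h.basis hs hB '' {r : B | (r : α) ∈ S} := by
    ext y
    constructor
    · rintro ⟨e, he, rfl⟩
      exact ⟨⟨e, hS he⟩, he, by simp⟩
    · rintro ⟨e, he, rfl⟩
      exact ⟨e, he, by simp⟩
  rw [himg, Module.Basis.mem_span_image]
  constructor
  · intro hsub r hr hrS
    by_contra hc
    exact hrS (hsub (Finsupp.mem_support_iff.2 hc))
  · intro hall r hr
    by_contra hc
    exact (Finsupp.mem_support_iff.1 hr) (hall r r.2 hc)

/-- Non-vanishing of an entry. -/
theorem IsRep.exchange_iff (h : IsRep F M v) (hs : span F (v '' M.E) = ⊤) {B : Set α}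
    (hB : M.IsBase B) {r e : α} (hr : r ∈ B) (he : e ∈ M.E) (heB : e ∉ B) :
    M.IsBase (insert e (B \ {r})) ↔ (h.basis hs hB).coord ⟨r, hr⟩ (v e) ≠ 0 := by
  have hsub : B \ {r} ⊆ M.E := sdiff_subset.trans hB.subset_ground
  have h1 : M.IsBase (insert e (B \ {r})) ↔ e ∉ M.closure (B \ {r}) := by
    constructor
    · intro hb hc
      rw [(hB.indep.sdiff {r}).mem_closure_iff_of_notMem (fun hc => heB hc.1)] at hc
      exact hc.not_indep hb.indep
    · intro hc
      exact hB.exchange_base_of_notMem_closure hr hc he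
  rw [h1, h.mem_closure_iff hsub he, h.mem_span_subset_base hs hB sdiff_subset]
  constructor
  · intro hc h0
    apply hc
    intro r' hr' hr'n
    have : r' = r := by
      by_contra hne
      exact hr'n ⟨hr', hne⟩
    subst this
    exact h0
  · intro hc hall
    exact hc (hall r hr (fun h => h.2 rfl))

theorem F2_eq_of_ne_zero_iff {x y : F2} (h : x ≠ 0 ↔ y ≠ 0) : x = y := by
  revert h
  revert x y
  decide

/-- Uniqueness of binary representations. -/
theorem IsRep.exists_equiv {V W : Type*} [AddCommGroup V] [Module F2 V] [AddCommGroup W]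
    [Module F2 W] {M : Matroid α} {v : α → V} {w : α → W} (hv : IsRep F2 M v) (hw : IsRep F2 M w)
    (hvs : span F2 (v '' M.E) = ⊤) (hws : span F2 (w '' M.E) = ⊤) :
    ∃ φ : V ≃ₗ[F2] W, ∀ e ∈ M.E, φ (v e) = w e := by
  obtain ⟨B, hB⟩ := M.exists_isBase
  refine ⟨(hv.basis hvs hB).equiv (hw.basis hws hB) (Equiv.refl B), ?_⟩
  have hb : ∀ e ∈ B, ((hv.basis hvs hB).equiv (hw.basis hws hB) (Equiv.refl B)) (v e) = w e := by
    intro e he
    have := (hv.basis hvs hB).equiv_apply ⟨e, he⟩ (hw.basis hws hB) (Equiv.refl B)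
    simpa using this
  intro e he
  by_cases heB : e ∈ B
  · exact hb e heB
  apply (hw.basis hws hB).ext_elem
  intro r
  have h1 : (hw.basis hws hB).repr (((hv.basis hvs hB).equiv (hw.basis hws hB) (Equiv.refl B)) (v e)) r
      = (hv.basis hvs hB).repr (v e) r := by
    simp [Module.Basis.equiv]
  rw [h1]
  apply F2_eq_of_ne_zero_iff
  have h2 := hv.exchange_iff hvs hB r.2 he heB
  have h3 := hw.exchange_iff hws hB r.2 he heB
  exact h2.symm.trans h3

theorem F7Cfg.span_eq_top {V : Type*} [AddCommGroup V] [Module F2 V] {v : α → V} {E C : Set α}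
    {z : P → α} (h : F7Cfg v E C z) : span F2 (v '' (C ∪ z '' {p | p ≠ 0})) = ⊤ := by
  obtain ⟨-, -, π, hk, hz⟩ := h
  rw [eq_top_iff]
  intro x _
  have hC : LinearMap.ker π ≤ span F2 (v '' (C ∪ z '' {p | p ≠ 0})) := by
    rw [hk]; exact span_mono (image_mono subset_union_left)
  by_cases hx : π x = 0
  · exact hC hx
  have hzx : v (z (π x)) ∈ span F2 (v '' (C ∪ z '' {p | p ≠ 0})) :=
    subset_span ⟨z (π x), Or.inr ⟨π x, hx, rfl⟩, rfl⟩
  have : x - v (z (π x)) ∈ LinearMap.ker π := by
    rw [LinearMap.mem_ker, map_sub, hz _ hx, sub_self]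
  have h3 := add_mem (hC this) hzx
  simpa using h3

theorem F7Cfg.ground_span_eq_top {V : Type*} [AddCommGroup V] [Module F2 V] {v : α → V}
    {E C : Set α} {z : P → α} (h : F7Cfg v E C z) : span F2 (v '' E) = ⊤ := by
  rw [eq_top_iff, ← h.span_eq_top]
  apply span_mono (image_mono (union_subset h.1 _))
  rintro _ ⟨p, hp, rfl⟩
  exact h.2.1 p hp

/-- Configurations do not depend on the (spanning) representation. -/
theorem F7Cfg.transfer {V W : Type*} [AddCommGroup V] [Module F2 V] [AddCommGroup W]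
    [Module F2 W] {M : Matroid α} {v : α → V} {w : α → W} {C : Set α} {z : P → α}
    (h : F7Cfg v M.E C z) (hv : IsRep F2 M v) (hw : IsRep F2 M w)
    (hws : span F2 (w '' M.E) = ⊤) : F7Cfg w M.E C z := by
  obtain ⟨φ, hφ⟩ := hv.exists_equiv hw h.ground_span_eq_top hws
  obtain ⟨hC, hZ, π, hk, hz⟩ := h
  refine ⟨hC, hZ, π ∘ₗ φ.symm.toLinearMap, ?_, ?_⟩
  · ext x
    have himg : w '' C = φ '' (v '' C) := by
      rw [image_image]
      exact image_congr fun e he => (hφ e (hC he)).symm
    rw [LinearMap.mem_ker, himg]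
    rw [show span F2 (φ '' (v '' C)) = (span F2 (v '' C)).map φ.toLinearMap from
      (map_span φ.toLinearMap _).symm]
    rw [← hk, mem_map]
    constructor
    · intro hx
      exact ⟨φ.symm x, hx, by simp⟩
    · rintro ⟨y, hy, rfl⟩
      simpa using hy
  · intro p hp
    rw [← hφ _ (hZ p hp)]
    simpa using hz p hp

/-- A matroid with a configuration in any spanning representation. -/
theorem HasF7.of_cfg [M.Finite] {V : Type*} [AddCommGroup V] [Module F2 V] {v : α → V}
    {C : Set α} {z : P → α} (hv : IsRep F2 M v) (h : F7Cfg v M.E C z) : HasF7 M := by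
  obtain ⟨n, w, hw, hws⟩ := hv.exists_spanning
  exact ⟨n, w, C, z, hw, h.transfer hv hw hws⟩

theorem HasF7.exists_cfg {V : Type*} [AddCommGroup V] [Module F2 V] {v : α → V} (h : HasF7 M)
    (hv : IsRep F2 M v) (hvs : span F2 (v '' M.E) = ⊤) : ∃ C z, F7Cfg v M.E C z := by
  obtain ⟨n, w, C, z, hw, hc⟩ := h
  exact ⟨C, z, hc.transfer hw hv hvs⟩

theorem HasF7.representable (h : HasF7 M) : Representable F2 M := by
  obtain ⟨n, w, C, z, hw, hc⟩ := h
  exact ⟨n, w, hw⟩

/-- Configurations of contractions. -/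
theorem HasF7.of_contract [M.Finite] {T : Set α} (hM : Representable F2 M)
    (h : HasF7 (M.contract T)) : HasF7 M := by
  rw [← Matroid.contract_inter_ground_eq] at h
  set T' := T ∩ M.E with hT'
  have hT : T' ⊆ M.E := inter_subset_right
  obtain ⟨n, v, hv, hvs⟩ := hM.exists_spanning
  have hq := hv.contract hT
  have hqs : span F2 (((span F2 (v '' T')).mkQ ∘ v) '' (M.contract T').E) = ⊤ := by
    rw [eq_top_iff]
    intro x _
    obtain ⟨y, rfl⟩ := mkQ_surjective _ x
    have hy : y ∈ span F2 (v '' M.E) := by rw [hvs]; trivial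
    induction hy using span_induction with
    | mem y hy =>
      obtain ⟨e, he, rfl⟩ := hy
      by_cases heT : e ∈ T'
      · have : (span F2 (v '' T')).mkQ (v e) = 0 := by
          simp only [mkQ_apply, Quotient.mk_eq_zero]
          exact subset_span ⟨e, heT, rfl⟩
        rw [this]
        exact zero_mem _
      · exact subset_span ⟨e, ⟨he, heT⟩, rfl⟩
    | zero => rw [map_zero]; exact zero_mem _
    | add a b _ _ iha ihb => rw [map_add]; exact add_mem (iha trivial) (ihb trivial)
    | smul c a _ iha => rw [map_smul]; exact smul_mem _ _ (iha trivial)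
  obtain ⟨C, z, hC, hZ, π, hk, hz⟩ := h.exists_cfg hq hqs
  refine HasF7.of_cfg hv (C := C ∪ T') (z := z) ⟨?_, ?_, π ∘ₗ (span F2 (v '' T')).mkQ, ?_, ?_⟩
  · exact union_subset (fun e he => (hC he).1) hT
  · exact fun p hp => (hZ p hp).1
  · rw [LinearMap.ker_comp, hk, image_comp]
    rw [show span F2 ((span F2 (v '' T')).mkQ '' (v '' C)) = (span F2 (v '' C)).map
      (span F2 (v '' T')).mkQ from (map_span _ _).symm]
    rw [comap_map_mkQ, ← span_union, ← image_union, union_comm]
  · intro p hp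
    exact hz p hp

/-- Configurations of deletions. -/
theorem HasF7.of_delete [M.Finite] {D : Set α} (hM : Representable F2 M)
    (h : HasF7 (M.delete D)) : HasF7 M := by
  obtain ⟨n, v, hv, hvs⟩ := hM.exists_spanning
  -- extend a basis of `E \ D` to a base of `M`
  obtain ⟨I, hI⟩ := M.exists_isBasis (M.E \ D)
  obtain ⟨B, hB, hIB⟩ := hI.indep.exists_isBase_superset
  set T := B \ I with hT
  have hTE : T ⊆ M.E := sdiff_subset.trans hB.subset_ground
  have hTD : T ⊆ D := by
    intro e he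
    by_contra hc
    have h1 : M.Dep (insert e I) := hI.insert_dep ⟨⟨hB.subset_ground he.1, hc⟩, he.2⟩
    exact h1.not_indep (hB.indep.subset (insert_subset he.1 hIB))
  apply HasF7.of_contract (T := T) hM
  -- `M / T` restricted to `E \ D` is `M \ D`
  have hq := hv.contract hTE
  have hrep : IsRep F2 (M.delete D) ((span F2 (v '' T)).mkQ ∘ v) := by
    intro J hJ
    rw [Matroid.delete_ground] at hJ
    have hJD : Disjoint J D := disjoint_of_subset_left hJ disjoint_sdiff_left
    have hJT : Disjoint T J := (hJD.mono_right hTD).symm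
    rw [Matroid.delete_indep_iff, and_iff_left hJD]
    have h1 := hq J (by
      rw [Matroid.contract_ground]
      exact fun e he => ⟨(hJ he).1, fun h => hJT.le_bot ⟨h, he⟩⟩)
    rw [← h1, (hB.indep.subset sdiff_subset).contract_indep_iff]
    constructor
    · intro hJi
      refine ⟨hJT.symm, ?_⟩
      -- J indep; J ∪ T indep
      rw [hv _ (union_subset hJi.subset_ground hTE)]
      refine (hv.linearIndepOn hJi).union (hv.linearIndepOn (hB.indep.subset sdiff_subset)) ?_
      have h2 : span F2 (v '' J) ≤ span F2 (v '' I) := by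
        rw [hv.span_eq_of_isBasis hI]
        exact span_mono (image_mono hJ)
      refine Disjoint.mono_left h2 ?_
      have := (hv.linearIndepOn hB.indep)
      have h3 := LinearIndependent.disjoint_span_image this (s := {r : B | (r : α) ∈ I})
        (t := {r : B | (r : α) ∈ T}) (by
          rw [Set.disjoint_left]
          intro r hr hr'
          exact hr'.2 hr)
      have e1 : (fun r : B => v r) '' {r : B | (r : α) ∈ I} = v '' I := by
        ext y
        constructor
        · rintro ⟨r, hr, rfl⟩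
          exact ⟨r, hr, rfl⟩
        · rintro ⟨r, hr, rfl⟩
          exact ⟨⟨r, hIB hr⟩, hr, rfl⟩
      have e2 : (fun r : B => v r) '' {r : B | (r : α) ∈ T} = v '' T := by
        ext y
        constructor
        · rintro ⟨r, hr, rfl⟩
          exact ⟨r, hr, rfl⟩
        · rintro ⟨r, hr, rfl⟩
          exact ⟨⟨r, hr.1⟩, hr, rfl⟩
      rw [← e1, ← e2]
      exact h3
    · intro hJi
      exact hJi.2.subset subset_union_left
  have hspan : span F2 (((span F2 (v '' T)).mkQ ∘ v) '' (M.delete D).E) = ⊤ := by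
    rw [eq_top_iff]
    intro x _
    obtain ⟨y, rfl⟩ := mkQ_surjective _ x
    have hy : y ∈ span F2 (v '' B) := by
      rw [hv.span_eq_of_isBasis hB.isBasis_ground, hvs]; trivial
    induction hy using span_induction with
    | mem y hy =>
      obtain ⟨e, he, rfl⟩ := hy
      by_cases heT : e ∈ I
      · exact subset_span ⟨e, hI.subset heT, rfl⟩
      · have : (span F2 (v '' T)).mkQ (v e) = 0 := by
          simp only [mkQ_apply, Quotient.mk_eq_zero]
          exact subset_span ⟨e, ⟨he, heT⟩, rfl⟩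
        rw [this]
        exact zero_mem _
    | zero => rw [map_zero]; exact zero_mem _
    | add a b _ _ iha ihb => rw [map_add]; exact add_mem (iha trivial) (ihb trivial)
    | smul c a _ iha => rw [map_smul]; exact smul_mem _ _ (iha trivial)
  obtain ⟨C, z, hC, hZ, π, hk, hz⟩ := h.exists_cfg hrep hspan
  refine HasF7.of_cfg hq (C := C) (z := z) ⟨?_, ?_, π, hk, hz⟩
  · intro e he
    have := hC he
    rw [Matroid.delete_ground] at this
    rw [Matroid.contract_ground]
    exact ⟨this.1, fun h => this.2 (hTD h)⟩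
  · intro p hp
    have := hZ p hp
    rw [Matroid.delete_ground] at this
    rw [Matroid.contract_ground]
    exact ⟨this.1, fun h => this.2 (hTD h)⟩

end MP948082
end

section
/-!
# MP_948082_co, CORE, part 1: linear algebra over the two element field and the basic consequences of
configurations
-/
open Set Submodule

namespace MP948082.Core

open MP948082

universe u

variable {α : Type u} {V : Type*} [AddCommGroup V] [Module F2 V]

theorem f2_cases (a : F2) : a = 0 ∨ a = 1 := by
  revert a; decide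

theorem f2_ne_zero {a : F2} (h : a ≠ 0) : a = 1 := (f2_cases a).resolve_left h

theorem f2_add_self (x : V) : x + x = 0 := by
  have : (2 : F2) • x = x + x := two_smul F2 x
  rw [← this, show (2 : F2) = 0 from rfl, zero_smul]

theorem f2_add_eq_zero {x y : V} : x + y = 0 ↔ x = y := by
  constructor
  · intro h
    have : x + y + y = y := by rw [h, zero_add]
    rwa [add_assoc, f2_add_self, add_zero] at this
  · rintro rfl
    exact f2_add_self x

theorem f2_neg (x : V) : -x = x := by
  rw [neg_eq_iff_add_eq_zero, f2_add_self]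

/-- A set of vectors spans iff no nonzero functional vanishes on it. -/
theorem span_eq_top_of_forall {K : Type*} [Field K] {U : Type*} [AddCommGroup U] [Module K U]
    (S : Set U) (h : ∀ f : U →ₗ[K] K, (∀ x ∈ S, f x = 0) → f = 0) : span K S = ⊤ := by
  by_contra hne
  obtain ⟨f, hf, hle⟩ := Submodule.exists_le_ker_of_lt_top (span K S) (lt_top_iff_ne_top.2 hne)
  exact hf (h f fun x hx => hle (subset_span hx))

theorem eq_zero_of_span_eq_top {K : Type*} [Field K] {U : Type*} [AddCommGroup U] [Module K U]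
    {S : Set U} (hS : span K S = ⊤) (f : U →ₗ[K] K) (h : ∀ x ∈ S, f x = 0) : f = 0 := by
  have hle : span K S ≤ LinearMap.ker f := span_le.2 h
  rw [hS, top_le_iff] at hle
  exact LinearMap.ker_eq_top.1 hle

/-- Adding one element to the contracted set: kernel of the new map. -/
theorem ker_insert {U U' : Type*} [AddCommGroup U] [Module F2 U] [AddCommGroup U'] [Module F2 U']
    {v : α → V} {C : Set α} (ρ : V →ₗ[F2] U) (ρ' : V →ₗ[F2] U') (e : α)
    (hρ : LinearMap.ker ρ = span F2 (v '' C)) (hle : ∀ u, ρ u = 0 → ρ' u = 0)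
    (he : ρ' (v e) = 0) (h : ∀ u, ρ' u = 0 → ρ u = 0 ∨ ρ (u + v e) = 0) :
    LinearMap.ker ρ' = span F2 (v '' (insert e C)) := by
  apply le_antisymm
  · intro u hu
    rw [LinearMap.mem_ker] at hu
    have hmono : span F2 (v '' C) ≤ span F2 (v '' (insert e C)) :=
      span_mono (image_mono (subset_insert _ _))
    rcases h u hu with h1 | h1
    · exact hmono (hρ ▸ (LinearMap.mem_ker.2 h1))
    · have h2 : u + v e ∈ span F2 (v '' (insert e C)) := hmono (hρ ▸ (LinearMap.mem_ker.2 h1))
      have h3 : v e ∈ span F2 (v '' (insert e C)) := subset_span ⟨e, mem_insert _ _, rfl⟩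
      have := add_mem h2 h3
      rwa [add_assoc, f2_add_self, add_zero] at this
  · rw [span_le]
    rintro _ ⟨a, ha, rfl⟩
    rcases ha with rfl | ha
    · exact he
    · apply hle
      have : v a ∈ LinearMap.ker ρ := hρ ▸ subset_span ⟨a, ha, rfl⟩
      exact this

/-- Removing one element `y` from the contracted set, using a functional `lam`. -/
theorem ker_remove {v : α → V} {C : Set α} {U : Type*} [AddCommGroup U] [Module F2 U]
    (π : V →ₗ[F2] U) (lam : V →ₗ[F2] F2) {y : α} (hy : y ∈ C)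
    (hπ : LinearMap.ker π = span F2 (v '' C)) (h1 : lam (v y) = 1)
    (h0 : ∀ c ∈ C, c ≠ y → lam (v c) = 0) (u : V) :
    (π u = 0 ∧ lam u = 0) ↔ u ∈ span F2 (v '' (C \ {y})) := by
  constructor
  · rintro ⟨hu, hl⟩
    have hu' : u ∈ span F2 (v '' C) := hπ ▸ (LinearMap.mem_ker.2 hu)
    have hC : C = insert y (C \ {y}) := by
      rw [insert_sdiff_singleton, insert_eq_of_mem hy]
    rw [hC, image_insert_eq, mem_span_insert] at hu'
    obtain ⟨a, w, hw, rfl⟩ := hu'
    have hlw : lam w = 0 := by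
      have : span F2 (v '' (C \ {y})) ≤ LinearMap.ker lam := by
        rw [span_le]
        rintro _ ⟨c, hc, rfl⟩
        exact h0 c hc.1 hc.2
      exact this hw
    rw [map_add, map_smul, h1, hlw, add_zero, smul_eq_mul, mul_one] at hl
    rw [hl, zero_smul, zero_add]
    exact hw
  · intro hu
    constructor
    · have : u ∈ LinearMap.ker π := by
        rw [hπ]
        exact span_mono (image_mono sdiff_subset) hu
      exact this
    · have : span F2 (v '' (C \ {y})) ≤ LinearMap.ker lam := by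
        rw [span_le]
        rintro _ ⟨c, hc, rfl⟩
        exact h0 c hc.1 hc.2
      exact this hu

/-- coordinate functional of an element of an independent set -/
theorem exists_coord {v : α → V} {C : Set α} (hC : LinearIndepOn F2 v C) {y : α} (hy : y ∈ C) :
    ∃ lam : V →ₗ[F2] F2, lam (v y) = 1 ∧ ∀ c ∈ C, c ≠ y → lam (v c) = 0 := by
  have hn : v y ∉ span F2 (v '' (C \ {y})) := hC.notMem_span hy
  obtain ⟨f, hf, hle⟩ := Submodule.exists_le_ker_of_notMem hn
  refine ⟨f, f2_ne_zero hf, fun c hc hcy => hle (subset_span ⟨c, ⟨hc, hcy⟩, rfl⟩)⟩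

/-! ### Transfer of configurations along linear equivalences and to quotients -/

theorem F7Cfg.congr_linearEquiv {V' : Type*} [AddCommGroup V'] [Module F2 V'] {v : α → V}
    {E C : Set α} {z : P → α} (h : F7Cfg v E C z) (e : V ≃ₗ[F2] V') :
    F7Cfg (e ∘ v) E C z := by
  obtain ⟨hC, hz, π, hπ, hp⟩ := h
  refine ⟨hC, hz, π ∘ₗ e.symm.toLinearMap, ?_, ?_⟩
  · rw [LinearMap.ker_comp, hπ, image_comp]
    ext u
    rw [mem_comap]
    constructor
    · intro h1
      have := Submodule.mem_map_of_mem (f := e.toLinearMap) h1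
      rw [Submodule.map_span] at this
      simpa using this
    · intro h1
      have h2 : u ∈ Submodule.map e.toLinearMap (span F2 (v '' C)) := by
        rw [Submodule.map_span]
        exact h1
      obtain ⟨w, hw, rfl⟩ := h2
      simpa using hw
  · intro p hp0
    simp [hp p hp0]

theorem F7dCfg.congr_linearEquiv {V' : Type*} [AddCommGroup V'] [Module F2 V'] {v : α → V}
    {E C : Set α} {z : P → α} (h : F7dCfg v E C z) (e : V ≃ₗ[F2] V') :
    F7dCfg (e ∘ v) E C z := by
  obtain ⟨hC, hz, π, hπ, hp⟩ := h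
  refine ⟨hC, hz, π ∘ₗ e.symm.toLinearMap, ?_, ?_⟩
  · rw [LinearMap.ker_comp, hπ, image_comp]
    ext u
    rw [mem_comap]
    constructor
    · intro h1
      have := Submodule.mem_map_of_mem (f := e.toLinearMap) h1
      rw [Submodule.map_span] at this
      simpa using this
    · intro h1
      have h2 : u ∈ Submodule.map e.toLinearMap (span F2 (v '' C)) := by
        rw [Submodule.map_span]
        exact h1
      obtain ⟨w, hw, rfl⟩ := h2
      simpa using hw
  · intro p hp0
    simp [hp p hp0]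

theorem ker_liftQ_eq {U : Type*} [AddCommGroup U] [Module F2 U] {v : α → V} {C C' : Set α}
    (π : V →ₗ[F2] U)
    (hπ : LinearMap.ker π = span F2 (v '' C)) (hle : span F2 (v '' C') ≤ LinearMap.ker π) :
    LinearMap.ker ((span F2 (v '' C')).liftQ π hle) =
      span F2 (((span F2 (v '' C')).mkQ ∘ v) '' (C \ C')) := by
  have h1 : LinearMap.ker ((span F2 (v '' C')).liftQ π hle) =
      (LinearMap.ker π).map (span F2 (v '' C')).mkQ := Submodule.ker_liftQ _ _ _
  rw [h1, hπ, Submodule.map_span, ← image_comp]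
  apply le_antisymm
  · rw [span_le]
    rintro _ ⟨c, hc, rfl⟩
    by_cases hc' : c ∈ C'
    · have : ((span F2 (v '' C')).mkQ ∘ v) c = 0 := by
        simp only [Function.comp_apply, Submodule.mkQ_apply, Submodule.Quotient.mk_eq_zero]
        exact subset_span ⟨c, hc', rfl⟩
      have h2 : ((span F2 (v '' C')).mkQ : V → _) ∘ v = (span F2 (v '' C')).mkQ ∘ v := rfl
      rw [SetLike.mem_coe]
      rw [this]
      exact zero_mem _
    · exact subset_span ⟨c, ⟨hc, hc'⟩, rfl⟩
  · exact span_mono (image_mono sdiff_subset)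

theorem F7Cfg.contract {v : α → V} {E C : Set α} {z : P → α} (h : F7Cfg v E C z) {C' : Set α}
    (hC' : C' ⊆ C) : F7Cfg ((span F2 (v '' C')).mkQ ∘ v) (E \ C') (C \ C') z := by
  obtain ⟨hC, hz, π, hπ, hp⟩ := h
  have hle : span F2 (v '' C') ≤ LinearMap.ker π := by
    rw [hπ]; exact span_mono (image_mono hC')
  refine ⟨sdiff_subset_sdiff_left hC, ?_, (span F2 (v '' C')).liftQ π hle,
    ker_liftQ_eq π hπ hle, ?_⟩
  · intro p hp0
    refine ⟨hz p hp0, fun hc => ?_⟩
    have h1 : v (z p) ∈ LinearMap.ker π := hle (subset_span ⟨z p, hc, rfl⟩)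
    rw [LinearMap.mem_ker, hp p hp0] at h1
    exact hp0 h1
  · intro p hp0
    simp [hp p hp0]

theorem F7dCfg.contract {v : α → V} {E C : Set α} {z : P → α} (h : F7dCfg v E C z) {C' : Set α}
    (hC' : C' ⊆ C) : F7dCfg ((span F2 (v '' C')).mkQ ∘ v) (E \ C') (C \ C') z := by
  obtain ⟨hC, hz, π, hπ, hp⟩ := h
  have hle : span F2 (v '' C') ≤ LinearMap.ker π := by
    rw [hπ]; exact span_mono (image_mono hC')
  refine ⟨sdiff_subset_sdiff_left hC, ?_, (span F2 (v '' C')).liftQ π hle,
    ker_liftQ_eq π hπ hle, ?_⟩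
  · intro p hp0
    refine ⟨hz p hp0, fun hc => ?_⟩
    have h1 : v (z p) ∈ LinearMap.ker π := hle (subset_span ⟨z p, hc, rfl⟩)
    rw [LinearMap.mem_ker, hp p hp0] at h1
    exact hp0 (congrArg Prod.fst h1)
  · intro p hp0
    simp [hp p hp0]

theorem F7Cfg.delete {v : α → V} {E C : Set α} {z : P → α} (h : F7Cfg v E C z) {e : α}
    (heC : e ∉ C) (hez : ∀ p, p ≠ 0 → z p ≠ e) : F7Cfg v (E \ {e}) C z := by
  obtain ⟨hC, hz, π, hπ, hp⟩ := h
  exact ⟨fun c hc => ⟨hC hc, fun hce => heC (hce ▸ hc)⟩, fun p hp0 => ⟨hz p hp0, hez p hp0⟩,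
    π, hπ, hp⟩

theorem F7dCfg.delete {v : α → V} {E C : Set α} {z : P → α} (h : F7dCfg v E C z) {e : α}
    (heC : e ∉ C) (hez : ∀ p, p ≠ 0 → z p ≠ e) : F7dCfg v (E \ {e}) C z := by
  obtain ⟨hC, hz, π, hπ, hp⟩ := h
  exact ⟨fun c hc => ⟨hC hc, fun hce => heC (hce ▸ hc)⟩, fun p hp0 => ⟨hz p hp0, hez p hp0⟩,
    π, hπ, hp⟩

/-! ### Configurations are not ternary -/

theorem not_ternary (hNT : SpecNT.{u}) {M : Matroid α} [M.Finite] [Module.Finite F2 V] {v : α → V}
    {C : Set α} {z : P → α} (hv : IsRep F2 M v) (h : F7Cfg v M.E C z) :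
    ¬ Representable F3 M := by
  let e : V ≃ₗ[F2] (Fin (Module.finrank F2 V) → F2) := (Module.finBasis F2 V).equivFun
  exact hNT α M _ (e ∘ v) C z (hv.comp_injective e.toLinearMap e.injective)
    (F7Cfg.congr_linearEquiv h e)

/-- one may choose the contracted set independent -/
theorem F7dCfg.exists_indep {v : α → V} {E C : Set α} {z : P → α} (h : F7dCfg v E C z) :
    ∃ C' ⊆ C, LinearIndepOn F2 v C' ∧ F7dCfg v E C' z := by
  obtain ⟨hC, hz, π, hπ, hp⟩ := h
  obtain ⟨C', hC'C, hspan, hli⟩ : ∃ C' ⊆ C, span F2 (v '' C') = span F2 (v '' C) ∧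
      LinearIndepOn F2 v C' := by
    have h0 : LinearIndepOn F2 v ∅ := linearIndepOn_empty F2 v
    refine ⟨h0.extend (empty_subset C), h0.extend_subset _, h0.span_image_extend_eq_span_image _,
      h0.linearIndepOn_extend _⟩
  exact ⟨C', hC'C, hli, hC'C.trans hC, hz, π, hπ.trans hspan.symm, hp⟩

theorem not_ternary_d (hNT : SpecNT.{u}) (hD : SpecDual.{u}) (hDC : SpecDualCfg.{u})
    {M : Matroid α} [M.Finite] [Module.Finite F2 V] {v : α → V}
    {C : Set α} {z : P → α} (hv : IsRep F2 M v) (h : F7dCfg v M.E C z) :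
    ¬ Representable F3 M := by
  intro hrep
  let e : V ≃ₗ[F2] (Fin (Module.finrank F2 V) → F2) := (Module.finBasis F2 V).equivFun
  obtain ⟨C', -, hli, hcfg⟩ := F7dCfg.exists_indep (F7dCfg.congr_linearEquiv h e)
  obtain ⟨n', v', hv', hcfg'⟩ := hDC α M _ (e ∘ v) C' z
    (hv.comp_injective e.toLinearMap e.injective) hcfg hli
  exact hNT α M✶ n' v' _ z hv' hcfg' (hD α F3 M hrep)

/-! ### The context: a represented matroid with a valid partition -/

/-- `Y` is a valid partition for `M` (represented by `v`): deletions of elements of `Y` and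
contractions of the other elements are ternary. -/
structure Ctx (M : Matroid α) (v : α → V) (Y : Set α) : Prop where
  rep : IsRep F2 M v
  spanning : span F2 (v '' M.E) = ⊤
  del : ∀ y ∈ Y, Representable F3 (M.delete {y})
  con : ∀ x ∈ M.E, x ∉ Y → Representable F3 (M.contract {x})

section rules

variable {M : Matroid α} [M.Finite] [Module.Finite F2 V] {v : α → V} {Y C : Set α} {z : P → α}

theorem Ctx.cfgD (hNT : SpecNT.{u}) (h : Ctx M v Y) (hc : F7Cfg v M.E C z) {e : α}
    (heC : e ∉ C) (hez : ∀ p, p ≠ 0 → z p ≠ e) : e ∉ Y := by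
  intro heY
  have h1 : IsRep F2 (M.delete {e}) v := h.rep.delete {e}
  exact not_ternary hNT h1 (F7Cfg.delete hc heC hez) (h.del e heY)

theorem Ctx.cfgC (hNT : SpecNT.{u}) (h : Ctx M v Y) (hc : F7Cfg v M.E C z) {e : α}
    (heC : e ∈ C) : e ∈ Y := by
  by_contra heY
  have heE : e ∈ M.E := hc.1 heC
  have h1 := h.rep.contract (singleton_subset_iff.2 heE)
  exact not_ternary hNT h1 (F7Cfg.contract hc (singleton_subset_iff.2 heC)) (h.con e heE heY)

theorem Ctx.dcfgD (hNT : SpecNT.{u}) (hD : SpecDual.{u}) (hDC : SpecDualCfg.{u}) (h : Ctx M v Y)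
    (hc : F7dCfg v M.E C z) {e : α}
    (heC : e ∉ C) (hez : ∀ p, p ≠ 0 → z p ≠ e) : e ∉ Y := by
  intro heY
  have h1 : IsRep F2 (M.delete {e}) v := h.rep.delete {e}
  exact not_ternary_d hNT hD hDC h1 (F7dCfg.delete hc heC hez) (h.del e heY)

theorem Ctx.dcfgC (hNT : SpecNT.{u}) (hD : SpecDual.{u}) (hDC : SpecDualCfg.{u}) (h : Ctx M v Y)
    (hc : F7dCfg v M.E C z) {e : α}
    (heC : e ∈ C) : e ∈ Y := by
  by_contra heY
  have heE : e ∈ M.E := hc.1 heC
  have h1 := h.rep.contract (singleton_subset_iff.2 heE)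
  exact not_ternary_d hNT hD hDC h1 (F7dCfg.contract hc (singleton_subset_iff.2 heC))
    (h.con e heE heY)

end rules

end MP948082.Core
end

section
/-!
# MP_948082_co, CORE, part 2: the rules F1 - F4
-/
open Set Submodule

namespace MP948082.Core

open MP948082

universe u

/-! ### Finite computations in `P` -/

/-- dot product -/
def dotv (a p : P) : F2 := a 0 * p 0 + a 1 * p 1 + a 2 * p 2

/-- the functional of `a` -/
def dotL (a : P) : P →ₗ[F2] F2 where
  toFun := dotv a
  map_add' p q := by simp only [dotv, Pi.add_apply]; ring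
  map_smul' c p := by simp only [dotv, Pi.smul_apply, smul_eq_mul, RingHom.id_apply]; ring

@[simp] theorem dotL_apply (a p : P) : dotL a p = dotv a p := rfl

/-- cross product: the functional whose kernel is the line through `w` and `p` -/
def cr (w p : P) : P := ![w 1 * p 2 + w 2 * p 1, w 0 * p 2 + w 2 * p 0, w 0 * p 1 + w 1 * p 0]

set_option maxRecDepth 100000 in
theorem cr_spec : ∀ w p : P, w ≠ 0 → p ≠ 0 → w ≠ p →
    ∀ s, (dotv (cr w p) s = 0 ↔ s = 0 ∨ s = w ∨ s = p ∨ s = w + p) := by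
  decide

def qf (b1 b2 b3 b4 : F2) (p : P) : F2 :=
  if p = ![1,1,0] then b1 else if p = ![1,0,1] then b2 else if p = ![0,1,1] then b3
  else if p = ![1,1,1] then b4 else 0

set_option maxRecDepth 100000 in
theorem q_spec : ∀ b1 b2 b3 b4 : F2, ∃ a : P, ∃ c : F2, ∃ w : P,
    ∀ p, p ≠ 0 → qf b1 b2 b3 b4 p = dotv a p + c + (if p = w then 1 else 0) := by
  decide

theorem P_cases (Q : P → Prop) (h0 : Q 0) (h1 : Q ![1,0,0]) (h2 : Q ![0,1,0]) (h3 : Q ![0,0,1])
    (h4 : Q ![1,1,0]) (h5 : Q ![1,0,1]) (h6 : Q ![0,1,1]) (h7 : Q ![1,1,1]) : ∀ p, Q p := by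
  intro p
  have hp : p = ![p 0, p 1, p 2] := by
    ext i; fin_cases i <;> rfl
  rw [hp]
  rcases f2_cases (p 0) with h | h <;> rcases f2_cases (p 1) with h' | h' <;>
    rcases f2_cases (p 2) with h'' | h'' <;> rw [h, h', h'']
  · have : (![0,0,0] : P) = 0 := by decide
    rw [this]; exact h0
  all_goals assumption

/-- every function on the Fano plane is, up to a linear functional and a constant, the indicator of a
point or zero -/
theorem q_normal (q : P → F2) : ∃ a : P, ∃ c : F2, ∃ w : P,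
    ∀ p, p ≠ 0 → q p = dotv a p + c + (if p = w then 1 else 0) := by
  set a0 : P := ![q ![1,0,0], q ![0,1,0], q ![0,0,1]] with ha0
  obtain ⟨a, c, w, h⟩ := q_spec (q ![1,1,0] + dotv a0 ![1,1,0]) (q ![1,0,1] + dotv a0 ![1,0,1])
    (q ![0,1,1] + dotv a0 ![0,1,1]) (q ![1,1,1] + dotv a0 ![1,1,1])
  refine ⟨a + a0, c, w, ?_⟩
  have key : ∀ p, p ≠ 0 → q p = dotv a0 p + qf (q ![1,1,0] + dotv a0 ![1,1,0])
      (q ![1,0,1] + dotv a0 ![1,0,1]) (q ![0,1,1] + dotv a0 ![0,1,1])
      (q ![1,1,1] + dotv a0 ![1,1,1]) p := by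
    have h2 : ∀ x y : F2, x = y + (x + y) := by decide
    apply P_cases
    · intro h; exact absurd rfl h
    · intro _
      rw [show ∀ b1 b2 b3 b4 : F2, qf b1 b2 b3 b4 ![1,0,0] = 0 by decide]
      simp [dotv, ha0]
    · intro _
      rw [show ∀ b1 b2 b3 b4 : F2, qf b1 b2 b3 b4 ![0,1,0] = 0 by decide]
      simp [dotv, ha0]
    · intro _
      rw [show ∀ b1 b2 b3 b4 : F2, qf b1 b2 b3 b4 ![0,0,1] = 0 by decide]
      simp [dotv, ha0]
    · intro _
      rw [show ∀ b1 b2 b3 b4 : F2, qf b1 b2 b3 b4 ![1,1,0] = b1 by decide]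
      exact h2 _ _
    · intro _
      rw [show ∀ b1 b2 b3 b4 : F2, qf b1 b2 b3 b4 ![1,0,1] = b2 by decide]
      exact h2 _ _
    · intro _
      rw [show ∀ b1 b2 b3 b4 : F2, qf b1 b2 b3 b4 ![0,1,1] = b3 by decide]
      exact h2 _ _
    · intro _
      rw [show ∀ b1 b2 b3 b4 : F2, qf b1 b2 b3 b4 ![1,1,1] = b4 by decide]
      exact h2 _ _
  intro p hp
  rw [key p hp, h p hp]
  simp only [dotv, Pi.add_apply]
  ring

theorem P_add_self (p : P) : p + p = 0 := by
  ext i
  have : ∀ x : F2, x + x = 0 := by decide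
  exact this _

theorem P_add_eq_zero {p q : P} : p + q = 0 ↔ p = q := f2_add_eq_zero

theorem P_add_cancel (p q : P) : p + q + q = p := by
  rw [add_assoc, P_add_self, add_zero]

/-! ### Rules -/

section rules

variable {α : Type u} {V : Type*} [AddCommGroup V] [Module F2 V] [Module.Finite F2 V]
  {M : Matroid α} [M.Finite] {v : α → V} {Y C : Set α} {z : P → α} {π : V →ₗ[F2] P}

/-- Configuration with an explicit projection. -/
structure Cf (M : Matroid α) (v : α → V) (C : Set α) (z : P → α) (π : V →ₗ[F2] P) : Prop where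
  hC : C ⊆ M.E
  hz : ∀ p, p ≠ 0 → z p ∈ M.E
  ker : LinearMap.ker π = span F2 (v '' C)
  hp : ∀ p, p ≠ 0 → π (v (z p)) = p

omit [Module.Finite F2 V] [M.Finite] in
theorem Cf.cfg (h : Cf M v C z π) : F7Cfg v M.E C z := ⟨h.hC, h.hz, π, h.ker, h.hp⟩

omit [Module.Finite F2 V] [M.Finite] in
theorem Cf.pi_zero (h : Cf M v C z π) {c : α} (hc : c ∈ C) : π (v c) = 0 := by
  have : v c ∈ LinearMap.ker π := h.ker ▸ subset_span ⟨c, hc, rfl⟩
  exact this

omit [Module.Finite F2 V] [M.Finite] in
theorem Cf.z_inj (h : Cf M v C z π) {p q : P} (hp : p ≠ 0) (hq : q ≠ 0) (hz : z p = z q) :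
    p = q := by
  rw [← h.hp p hp, ← h.hp q hq, hz]

omit [Module.Finite F2 V] [M.Finite] in
theorem Cf.z_notin (h : Cf M v C z π) {p : P} (hp : p ≠ 0) : z p ∉ C := by
  intro hc
  have := h.pi_zero hc
  rw [h.hp p hp] at this
  exact hp this

omit [Module.Finite F2 V] [M.Finite] in
theorem Cf.z_ne (h : Cf M v C z π) {p : P} (hp : p ≠ 0) {c : α} (hc : c ∈ C) : z p ≠ c := by
  rintro rfl
  exact h.z_notin hp hc

/-- `e` is an element outside the configuration -/
def Rest (M : Matroid α) (C : Set α) (z : P → α) (e : α) : Prop :=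
  e ∈ M.E ∧ e ∉ C ∧ ∀ p, p ≠ 0 → z p ≠ e

theorem Cf.restX (hNT : SpecNT.{u}) (ctx : Ctx M v Y) (h : Cf M v C z π) {e : α}
    (he : Rest M C z e) : e ∉ Y := ctx.cfgD hNT h.cfg he.2.1 he.2.2

theorem Cf.subY (hNT : SpecNT.{u}) (ctx : Ctx M v Y) (h : Cf M v C z π) {c : α}
    (hc : c ∈ C) : c ∈ Y := ctx.cfgC hNT h.cfg hc

/-- The contracted set of a configuration is independent. -/
theorem Cf.indep (hNT : SpecNT.{u}) (ctx : Ctx M v Y) (h : Cf M v C z π) :
    LinearIndepOn F2 v C := by
  rw [linearIndepOn_iff_notMem_span]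
  intro c hc hmem
  have hsp : span F2 (v '' (C \ {c})) = span F2 (v '' C) := by
    apply le_antisymm (span_mono (image_mono sdiff_subset))
    rw [span_le]
    rintro _ ⟨d, hd, rfl⟩
    by_cases hdc : d = c
    · rw [hdc]; exact hmem
    · exact subset_span ⟨d, ⟨hd, hdc⟩, rfl⟩
  have h' : Cf M v (C \ {c}) z π := ⟨sdiff_subset.trans h.hC, h.hz, h.ker.trans hsp.symm, h.hp⟩
  exact h'.restX hNT ctx ⟨h.hC hc, fun hc' => hc'.2 rfl, fun p hp => h.z_ne hp hc⟩
    (h.subY hNT ctx hc)

/-- F2, first part -/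
theorem Cf.rest_ne_zero (hNT : SpecNT.{u}) (ctx : Ctx M v Y) (h : Cf M v C z π) {x : α}
    (hx : Rest M C z x) : π (v x) ≠ 0 := by
  intro h0
  have hsp : span F2 (v '' (insert x C)) = span F2 (v '' C) := by
    apply le_antisymm _ (span_mono (image_mono (subset_insert _ _)))
    rw [span_le]
    rintro _ ⟨d, hd, rfl⟩
    rcases hd with rfl | hd
    · rw [SetLike.mem_coe, ← h.ker]; exact h0
    · exact subset_span ⟨d, hd, rfl⟩
  have h' : Cf M v (insert x C) z π :=
    ⟨insert_subset hx.1 h.hC, h.hz, h.ker.trans hsp.symm, h.hp⟩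
  exact h.restX hNT ctx hx (h'.subY hNT ctx (mem_insert _ _))

omit [Module.Finite F2 V] [M.Finite] in
open Classical in
/-- swapping a point for a parallel element (in the contraction) -/
theorem Cf.swap (h : Cf M v C z π) {x : α} (hx : x ∈ M.E) {p : P} (hxp : π (v x) = p) :
    Cf M v C (fun q => if q = p then x else z q) π := by
  refine ⟨h.hC, ?_, h.ker, ?_⟩
  · intro q hq
    by_cases hqp : q = p
    · simpa [hqp] using hx
    · simpa [hqp] using h.hz q hq
  · intro q hq
    by_cases hqp : q = p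
    · simpa [hqp] using hxp
    · simpa [hqp] using h.hp q hq

open Classical in
/-- F2: the label of an outside element belongs to `X`. -/
theorem Cf.swapX (hNT : SpecNT.{u}) (ctx : Ctx M v Y) (h : Cf M v C z π) {x : α}
    (hx : Rest M C z x) : z (π (v x)) ∉ Y := by
  have hne := h.rest_ne_zero hNT ctx hx
  have h' := h.swap hx.1 (p := π (v x)) rfl
  apply h'.restX hNT ctx
  refine ⟨h.hz _ hne, h.z_notin hne, fun q hq => ?_⟩
  by_cases hqp : q = π (v x)
  · simp only [hqp, if_true]
    exact fun h1 => hx.2.2 _ hne h1.symm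
  · simp only [hqp, if_false]
    intro h1
    exact hqp (h.z_inj hq hne h1)

/-- A functional normalised with respect to `y ∈ C`. -/
structure Fn (v : α → V) (C : Set α) (y : α) (lam : V →ₗ[F2] F2) : Prop where
  mem : y ∈ C
  one : lam (v y) = 1
  zero : ∀ c ∈ C, c ≠ y → lam (v c) = 0

omit [Module.Finite F2 V] [M.Finite] in
theorem Cf.ker2 (h : Cf M v C z π) {y : α} {lam : V →ₗ[F2] F2} (hl : Fn v C y lam) (u : V) :
    (π u = 0 ∧ lam u = 0) ↔ u ∈ span F2 (v '' (C \ {y})) :=
  ker_remove π lam hl.mem h.ker hl.one hl.zero u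

/-- q ≡ 0 is impossible. -/
theorem Cf.q0 (hNT : SpecNT.{u}) (ctx : Ctx M v Y) (h : Cf M v C z π) {y : α}
    {lam : V →ₗ[F2] F2} (hl : Fn v C y lam) (hq : ∀ p, p ≠ 0 → lam (v (z p)) = 0) : False := by
  have hyY : y ∈ Y := h.subY hNT ctx hl.mem
  have hyE : y ∈ M.E := h.hC hl.mem
  set R : Set α := (C \ {y}) ∪ z '' {p | p ≠ 0} with hR
  have hRE : R ⊆ M.E := by
    rintro e (he | ⟨p, hp, rfl⟩)
    · exact h.hC he.1
    · exact h.hz p hp
  have hlR : ∀ e ∈ R, lam (v e) = 0 := by
    rintro e (he | ⟨p, hp, rfl⟩)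
    · exact hl.zero e he.1 he.2
    · exact hq p hp
  have hyR : y ∉ R := by
    intro hy
    have := hlR y hy
    rw [hl.one] at this
    exact one_ne_zero this
  -- the restriction of `M \ y` to `R` is ternary
  have h3 : Representable F3 ((M.delete {y}).delete (M.E \ R)) := (ctx.del y hyY).delete _
  set M2 := (M.delete {y}).delete (M.E \ R) with hM2
  have hM2E : M2.E = R := by
    rw [hM2, Matroid.delete_ground, Matroid.delete_ground]
    ext e
    constructor
    · rintro ⟨⟨he, -⟩, h2⟩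
      by_contra hc
      exact h2 ⟨he, hc⟩
    · intro he
      exact ⟨⟨hRE he, fun hc => hyR (by rw [← (hc : e = y)]; exact he)⟩, fun hc => hc.2 he⟩
  have hrep0 : IsRep F2 M2 v := (ctx.rep.delete {y}).delete _
  have hker : ∀ w ∈ span F2 (v '' {y}), lam w = 0 → w = 0 := by
    intro w hw hl0
    rw [image_singleton, mem_span_singleton] at hw
    obtain ⟨a, rfl⟩ := hw
    rw [map_smul, hl.one, smul_eq_mul, mul_one] at hl0
    rw [hl0, zero_smul]
  have hrep : IsRep F2 M2 ((span F2 (v '' {y})).mkQ ∘ v) := by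
    intro I hI
    rw [hrep0 I hI]
    constructor
    · intro hli
      apply LinearIndependent.map hli
      rw [disjoint_def]
      intro w hw hw2
      rw [Submodule.ker_mkQ] at hw2
      apply hker w hw2
      have : span F2 (range fun i : I => v i) ≤ LinearMap.ker lam := by
        rw [span_le]
        rintro _ ⟨⟨e, he⟩, rfl⟩
        exact hlR e (hM2E ▸ hI he)
      exact this hw
    · intro hli
      exact hli.of_comp _
  have hcfg : F7Cfg ((span F2 (v '' {y})).mkQ ∘ v) M2.E (C \ {y}) z := by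
    have h1 := F7Cfg.contract h.cfg (singleton_subset_iff.2 hl.mem)
    obtain ⟨-, -, π', hπ', hp'⟩ := h1
    exact ⟨hM2E ▸ subset_union_left, fun p hp => hM2E ▸ Or.inr ⟨p, hp, rfl⟩, π', hπ', hp'⟩
  exact not_ternary hNT hrep hcfg h3

omit [Module.Finite F2 V] [M.Finite] in
/-- general `F7*`-configuration of the form `π + g • u`. -/
theorem Cf.dcfg (h : Cf M v C z π) {y : α} {lam : V →ₗ[F2] F2} (hl : Fn v C y lam)
    (a : P) (u : P) {z' : P → α} (hz' : ∀ p, p ≠ 0 → z' p ∈ M.E)
    (hg : ∀ p, p ≠ 0 → dotv a (π (v (z' p))) + lam (v (z' p)) = 1)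
    (hp : ∀ p, p ≠ 0 → π (v (z' p)) + u = p) :
    F7dCfg v M.E (C \ {y}) z' := by
  set g : V →ₗ[F2] F2 := dotL a ∘ₗ π + lam with hgdef
  have hgv : ∀ w, g w = dotv a (π w) + lam w := fun w => rfl
  refine ⟨sdiff_subset.trans h.hC, hz', (π + g.smulRight u).prod g, ?_, ?_⟩
  · ext w
    rw [← h.ker2 hl w, LinearMap.mem_ker]
    change ((π w + g w • u, g w) : P × F2) = 0 ↔ _
    rw [Prod.mk_eq_zero, hgv]
    constructor
    · rintro ⟨h1, h2⟩
      rw [h2, zero_smul, add_zero] at h1
      rw [h1] at h2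
      refine ⟨h1, ?_⟩
      simpa [dotv] using h2
    · rintro ⟨h1, h2⟩
      have h3 : dotv a (π w) + lam w = 0 := by rw [h1, h2]; simp [dotv]
      rw [h3]
      exact ⟨by rw [h1]; simp, rfl⟩
  · intro p hp0
    change ((π (v (z' p)) + g (v (z' p)) • u, g (v (z' p))) : P × F2) = (p, 1)
    rw [hgv, hg p hp0, one_smul, hp p hp0]

/-- q ≡ 1 is impossible. -/
theorem Cf.q1 (hNT : SpecNT.{u}) (hD : SpecDual.{u}) (hDC : SpecDualCfg.{u}) (ctx : Ctx M v Y)
    (h : Cf M v C z π) {y : α} {lam : V →ₗ[F2] F2} (hl : Fn v C y lam)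
    (hq : ∀ p, p ≠ 0 → lam (v (z p)) = 1) : False := by
  have hcfg : F7dCfg v M.E (C \ {y}) z := by
    apply h.dcfg hl 0 0 h.hz
    · intro p hp
      rw [hq p hp]; simp [dotv]
    · intro p hp
      rw [h.hp p hp, add_zero]
  exact ctx.dcfgD hNT hD hDC hcfg (fun hc => hc.2 rfl) (fun p hp => h.z_ne hp hl.mem)
    (h.subY hNT ctx hl.mem)

end rules

end MP948082.Core
end

section
/-!
# MP_948082_co, CORE, part 3: the rules F1, F3, F4
-/
open Set Submodule

namespace MP948082.Core

open MP948082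

universe u

section rules

variable {α : Type u} {V : Type*} [AddCommGroup V] [Module F2 V] [Module.Finite F2 V]
  {M : Matroid α} [M.Finite] {v : α → V} {Y C : Set α} {z : P → α} {π : V →ₗ[F2] P}

omit [Module.Finite F2 V] [M.Finite] in
/-- general new `F7`-configuration, contracting `z u` instead of `y`. -/
theorem Cf.newcf (h : Cf M v C z π) {y : α} {lam : V →ₗ[F2] F2} (hl : Fn v C y lam)
    {u : P} (hu0 : u ≠ 0) (hu : lam (v (z u)) = 1) {z' : P → α} (hz' : ∀ p, p ≠ 0 → z' p ∈ M.E)
    (hp : ∀ p, p ≠ 0 → π (v (z' p)) + lam (v (z' p)) • u = p) :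
    Cf M v (insert (z u) (C \ {y})) z' (π + lam.smulRight u) := by
  refine ⟨insert_subset (h.hz u hu0) (sdiff_subset.trans h.hC), hz', ?_, hp⟩
  apply ker_insert (π.prod lam) (π + lam.smulRight u) (z u)
  · ext w
    rw [← h.ker2 hl w, LinearMap.mem_ker]
    change ((π w, lam w) : P × F2) = 0 ↔ _
    rw [Prod.mk_eq_zero]
  · intro w hw
    have hw' : ((π w, lam w) : P × F2) = 0 := hw
    rw [Prod.mk_eq_zero] at hw'
    change π w + lam w • u = 0
    rw [hw'.1, hw'.2, zero_smul, add_zero]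
  · change π (v (z u)) + lam (v (z u)) • u = 0
    rw [h.hp u hu0, hu, one_smul, P_add_self]
  · intro w hw
    have hw' : π w + lam w • u = 0 := hw
    rcases f2_cases (lam w) with h1 | h1
    · left
      rw [h1, zero_smul, add_zero] at hw'
      change ((π w, lam w) : P × F2) = 0
      rw [hw', h1]; rfl
    · right
      rw [h1, one_smul, P_add_eq_zero] at hw'
      change ((π (w + v (z u)), lam (w + v (z u))) : P × F2) = 0
      rw [map_add, map_add, h.hp u hu0, hu, hw', h1, P_add_self]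
      rfl

open Classical in
/-- F1, series label -/
theorem Cf.ser (hNT : SpecNT.{u}) (ctx : Ctx M v Y) (h : Cf M v C z π) {y : α}
    {lam : V →ₗ[F2] F2} (hl : Fn v C y lam) {w : P} (hw : w ≠ 0)
    (hq : ∀ p, p ≠ 0 → lam (v (z p)) = if p = w then 1 else 0) : z w ∈ Y := by
  have h' := h.newcf hl hw (by rw [hq w hw, if_pos rfl])
    (z' := fun p => if p = w then y else z p) (by
      intro p hp
      by_cases hpw : p = w
      · simpa [hpw] using h.hC hl.mem
      · simpa [hpw] using h.hz p hp) (by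
      intro p hp
      by_cases hpw : p = w
      · simp [hpw, h.pi_zero hl.mem, hl.one]
      · simp [hpw, h.hp p hp, hq p hp])
  exact h'.subY hNT ctx (mem_insert _ _)

omit [Module.Finite F2 V] [M.Finite] in
open Classical in
/-- F1, S8 label: the configuration -/
theorem Cf.s8cfg (h : Cf M v C z π) {y : α}
    {lam : V →ₗ[F2] F2} (hl : Fn v C y lam) {w : P}
    (hq : ∀ p, p ≠ 0 → lam (v (z p)) = 1 + if p = w then 1 else 0) :
    F7dCfg v M.E (C \ {y}) (fun p => if p = w then y else z (p + w)) := by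
  apply h.dcfg hl 0 w
  · intro p hp
    by_cases hpw : p = w
    · simpa [hpw] using h.hC hl.mem
    · simpa [hpw] using h.hz (p + w) (fun hc => hpw (P_add_eq_zero.1 hc))
  · intro p hp
    by_cases hpw : p = w
    · simp [hpw, hl.one, dotv]
    · have h1 : p + w ≠ 0 := fun hc => hpw (P_add_eq_zero.1 hc)
      have h2 : p + w ≠ w := by
        intro hc
        apply hp
        have := congrArg (· + w) hc
        simpa [P_add_cancel, P_add_self] using this
      simp [hpw, hq _ h1, h2, dotv]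
  · intro p hp
    by_cases hpw : p = w
    · simp [hpw, h.pi_zero hl.mem]
    · have h1 : p + w ≠ 0 := fun hc => hpw (P_add_eq_zero.1 hc)
      simp [hpw, h.hp _ h1, P_add_cancel]

/-- F1, S8 label -/
theorem Cf.s8 (hNT : SpecNT.{u}) (hD : SpecDual.{u}) (hDC : SpecDualCfg.{u}) (ctx : Ctx M v Y)
    (h : Cf M v C z π) {y : α}
    {lam : V →ₗ[F2] F2} (hl : Fn v C y lam) {w : P} (hw : w ≠ 0)
    (hq : ∀ p, p ≠ 0 → lam (v (z p)) = 1 + if p = w then 1 else 0) : z w ∉ Y := by
  classical
  apply ctx.dcfgD hNT hD hDC (h.s8cfg hl (by simpa using hq)) (fun hc => h.z_notin hw hc.1)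
  intro p hp
  by_cases hpw : p = w
  · simp only [hpw, if_true]
    exact (h.z_ne hw hl.mem).symm
  · simp only [hpw, if_false]
    have h1 : p + w ≠ 0 := fun hc => hpw (P_add_eq_zero.1 hc)
    intro hc
    have h2 := h.z_inj h1 hw hc
    apply hp
    have := congrArg (· + w) h2
    simpa [P_add_cancel, P_add_self] using this

/-- **F1**: normal form of the functional of `y ∈ C`. -/
theorem Cf.F1 (hNT : SpecNT.{u}) (hD : SpecDual.{u}) (hDC : SpecDualCfg.{u}) (ctx : Ctx M v Y)
    (h : Cf M v C z π) {y : α} {lam : V →ₗ[F2] F2} (hl : Fn v C y lam) :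
    ∃ (a : P) (c : F2) (w : P), w ≠ 0 ∧
      (∀ p, p ≠ 0 → lam (v (z p)) = dotv a p + c + (if p = w then 1 else 0)) ∧
      (c = 0 → z w ∈ Y) ∧ (c = 1 → z w ∉ Y) := by
  obtain ⟨a, c, w, hq⟩ := q_normal (fun p => lam (v (z p)))
  set lam' : V →ₗ[F2] F2 := lam + dotL a ∘ₗ π with hlam'
  have hl' : Fn v C y lam' := by
    refine ⟨hl.mem, ?_, ?_⟩
    · simp [hlam', h.pi_zero hl.mem, hl.one, dotv]
    · intro c hc hcy
      simp [hlam', h.pi_zero hc, hl.zero c hc hcy, dotv]
  have hq' : ∀ p, p ≠ 0 → lam' (v (z p)) = c + (if p = w then 1 else 0) := by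
    intro p hp
    have h1 : lam (v (z p)) = _ := hq p hp
    simp only [hlam', LinearMap.add_apply, LinearMap.comp_apply, dotL_apply, h.hp p hp, h1]
    have : ∀ x y t : F2, x + y + t + x = y + t := by decide
    exact this _ _ _
  have hw : w ≠ 0 := by
    rintro rfl
    rcases f2_cases c with hc | hc
    · apply h.q0 hNT ctx hl'
      intro p hp
      rw [hq' p hp, hc, if_neg hp, add_zero]
    · apply h.q1 hNT hD hDC ctx hl'
      intro p hp
      rw [hq' p hp, hc, if_neg hp, add_zero]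
  refine ⟨a, c, w, hw, hq, ?_, ?_⟩
  · rintro rfl
    apply h.ser hNT ctx hl' hw
    intro p hp
    rw [hq' p hp, zero_add]
  · rintro rfl
    exact h.s8 hNT hD hDC ctx hl' hw hq'

/-- The normalised functional of an element of `C`. -/
theorem Cf.exists_fn (hNT : SpecNT.{u}) (hD : SpecDual.{u}) (hDC : SpecDualCfg.{u})
    (ctx : Ctx M v Y) (h : Cf M v C z π) {y : α} (hy : y ∈ C) :
    ∃ (lam : V →ₗ[F2] F2) (c : F2) (w : P), Fn v C y lam ∧ w ≠ 0 ∧
      (∀ p, p ≠ 0 → lam (v (z p)) = c + (if p = w then 1 else 0)) ∧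
      (c = 0 → z w ∈ Y) ∧ (c = 1 → z w ∉ Y) := by
  obtain ⟨lam, h1, h0⟩ := exists_coord (h.indep hNT ctx) hy
  have hl : Fn v C y lam := ⟨hy, h1, h0⟩
  obtain ⟨a, c, w, hw, hq, hc0, hc1⟩ := h.F1 hNT hD hDC ctx hl
  refine ⟨lam + dotL a ∘ₗ π, c, w, ⟨hy, ?_, ?_⟩, hw, ?_, hc0, hc1⟩
  · simp [h.pi_zero hl.mem, hl.one, dotv]
  · intro c hc hcy
    simp [h.pi_zero hc, hl.zero c hc hcy, dotv]
  · intro p hp
    simp only [LinearMap.add_apply, LinearMap.comp_apply, dotL_apply, h.hp p hp, hq p hp]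
    have : ∀ x y t : F2, x + y + t + x = y + t := by decide
    exact this _ _ _

theorem P_ne_of_add {u p : P} (hp : p ≠ 0) : p + u ≠ u := by
  intro hc
  apply hp
  have := congrArg (· + u) hc
  simpa [P_add_cancel, P_add_self] using this

omit [Module.Finite F2 V] [M.Finite] in
open Classical in
/-- F3, series: the configuration -/
theorem Cf.f3sercfg (h : Cf M v C z π) {y : α}
    {lam : V →ₗ[F2] F2} (hl : Fn v C y lam) {w : P} (hw : w ≠ 0)
    (hq : ∀ p, p ≠ 0 → lam (v (z p)) = if p = w then 1 else 0)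
    {x : α} (hx : x ∈ M.E) {p : P} (hxp : π (v x) = p) (hp0 : p ≠ 0) (hwp : w ≠ p)
    (hlx : lam (v x) = 1) :
    F7dCfg v M.E (C \ {y}) (fun r => if r = w + p then y else if r = p then z w
      else if r = w then x else z (r + (w + p))) := by
  have hu0 : w + p ≠ 0 := fun hc => hwp (P_add_eq_zero.1 hc)
  have hwu : w ≠ w + p := by
    intro hc
    exact P_ne_of_add hp0 (by rw [add_comm]; exact hc.symm)
  have hpu : p ≠ w + p := fun hc => P_ne_of_add hw hc.symm
  apply h.dcfg hl (cr w p) (w + p)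
  · intro r hr
    by_cases h1 : r = w + p
    · simpa [h1] using h.hC hl.mem
    by_cases h2 : r = p
    · simpa [h1, h2, hpu] using h.hz w hw
    by_cases h3 : r = w
    · simpa [h1, h2, h3, hwu, hwp] using hx
    · simpa [h1, h2, h3] using h.hz _ (fun hc => h1 (P_add_eq_zero.1 hc))
  · intro r hr
    by_cases h1 : r = w + p
    · simp [h1, hl.one, h.pi_zero hl.mem, dotv]
    by_cases h2 : r = p
    · have : dotv (cr w p) w = 0 := (cr_spec w p hw hp0 hwp w).2 (Or.inr (Or.inl rfl))
      simp [h2, hw, h.hp w hw, hq w hw, this]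
    by_cases h3 : r = w
    · have : dotv (cr w p) p = 0 := (cr_spec w p hw hp0 hwp p).2 (Or.inr (Or.inr (Or.inl rfl)))
      simp [h3, hwp, hp0, hxp, hlx, this]
    · have h4 : r + (w + p) ≠ 0 := fun hc => h1 (P_add_eq_zero.1 hc)
      have h5 : r + (w + p) ≠ w := by
        intro hc
        apply h2
        have := congrArg (· + (w + p)) hc
        simp only [P_add_cancel] at this
        rw [this, ← add_assoc, P_add_self, zero_add]
      have h6 : dotv (cr w p) (r + (w + p)) ≠ 0 := by
        intro hc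
        rcases (cr_spec w p hw hp0 hwp _).1 hc with h7 | h7 | h7 | h7
        · exact h4 h7
        · exact h5 h7
        · apply h3
          have := congrArg (· + (w + p)) h7
          simp only [P_add_cancel] at this
          rw [this, add_comm w p, ← add_assoc, P_add_self, zero_add]
        · exact P_ne_of_add hr h7
      simp [h1, h2, h3, h.hp _ h4, hq _ h4, h5, f2_ne_zero h6]
  · intro r hr
    by_cases h1 : r = w + p
    · simp [h1, h.pi_zero hl.mem]
    by_cases h2 : r = p
    · simp only [h2, hpu, if_false, if_true, h.hp w hw]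
      rw [← add_assoc, P_add_self, zero_add]
    by_cases h3 : r = w
    · simp only [h3, hwu, hwp, if_false, if_true, hxp]
      rw [add_comm w p, ← add_assoc, P_add_self, zero_add]
    · have h4 : r + (w + p) ≠ 0 := fun hc => h1 (P_add_eq_zero.1 hc)
      simp only [h1, h2, h3, if_false, h.hp _ h4, P_add_cancel]

/-- F3, series -/
theorem Cf.f3ser (hNT : SpecNT.{u}) (hD : SpecDual.{u}) (hDC : SpecDualCfg.{u}) (ctx : Ctx M v Y)
    (h : Cf M v C z π) {y : α}
    {lam : V →ₗ[F2] F2} (hl : Fn v C y lam) {w : P} (hw : w ≠ 0)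
    (hq : ∀ p, p ≠ 0 → lam (v (z p)) = if p = w then 1 else 0)
    {x : α} (hx : Rest M C z x) {p : P} (hxp : π (v x) = p) (hlx : lam (v x) ≠ lam (v (z p))) :
    w ≠ p ∧ lam (v x) = 1 ∧ z (w + p) ∉ Y := by
  classical
  have hp0 : p ≠ 0 := hxp ▸ h.rest_ne_zero hNT ctx hx
  have hzp : z p ∉ Y := hxp ▸ h.swapX hNT ctx hx
  have hzw : z w ∈ Y := h.ser hNT ctx hl hw hq
  have hwp : w ≠ p := by rintro rfl; exact hzp hzw
  have hlx1 : lam (v x) = 1 := by
    rw [hq p hp0, if_neg (Ne.symm hwp)] at hlx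
    exact f2_ne_zero hlx
  refine ⟨hwp, hlx1, ?_⟩
  have hu0 : w + p ≠ 0 := fun hc => hwp (P_add_eq_zero.1 hc)
  have hwu : w ≠ w + p := by
    intro hc
    exact P_ne_of_add hp0 (by rw [add_comm]; exact hc.symm)
  have hpu : p ≠ w + p := fun hc => P_ne_of_add hw hc.symm
  apply ctx.dcfgD hNT hD hDC (h.f3sercfg hl hw (by simpa using hq) hx.1 hxp hp0 hwp hlx1)
    (fun hc => h.z_notin hu0 hc.1)
  intro r hr
  by_cases h1 : r = w + p
  · simp only [h1, if_true]; exact (h.z_ne hu0 hl.mem).symm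
  by_cases h2 : r = p
  · simp only [h2, hpu, if_false, if_true]; exact fun hc => hwu (h.z_inj hw hu0 hc)
  by_cases h3 : r = w
  · simp only [h3, hwu, hwp, if_false, if_true]; exact (hx.2.2 _ hu0).symm
  · simp only [h1, h2, h3, if_false]
    have h4 : r + (w + p) ≠ 0 := fun hc => h1 (P_add_eq_zero.1 hc)
    exact fun hc => P_ne_of_add hr (h.z_inj h4 hu0 hc)

/-- F3, S8 -/
theorem Cf.f3s8 (hNT : SpecNT.{u}) (hD : SpecDual.{u}) (hDC : SpecDualCfg.{u}) (ctx : Ctx M v Y)
    (h : Cf M v C z π) {y : α}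
    {lam : V →ₗ[F2] F2} (hl : Fn v C y lam) {w : P} (hw : w ≠ 0)
    (hq : ∀ p, p ≠ 0 → lam (v (z p)) = 1 + if p = w then 1 else 0)
    {x : α} (hx : Rest M C z x) {p : P} (hxp : π (v x) = p) (hlx : lam (v x) ≠ lam (v (z p))) :
    w ≠ p ∧ z (w + p) ∈ Y := by
  classical
  have hp0 : p ≠ 0 := hxp ▸ h.rest_ne_zero hNT ctx hx
  have hwp : w ≠ p := by
    rintro rfl
    have hlx1 : lam (v x) = 1 := by
      rw [hq w hw, if_pos rfl, show (1 : F2) + 1 = 0 by decide] at hlx
      exact f2_ne_zero hlx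
    have hcfg : F7dCfg v M.E (C \ {y}) (fun r => if r = w then x else z r) := by
      apply h.dcfg hl 0 0
      · intro r hr
        by_cases h1 : r = w
        · simpa [h1] using hx.1
        · simpa [h1] using h.hz r hr
      · intro r hr
        by_cases h1 : r = w
        · simp [h1, hlx1, dotv]
        · simp [h1, hq r hr, dotv]
      · intro r hr
        by_cases h1 : r = w
        · simp [h1, hxp]
        · simp [h1, h.hp r hr]
    refine ctx.dcfgD hNT hD hDC hcfg (e := y) (fun hc => hc.2 rfl) ?_ (h.subY hNT ctx hl.mem)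
    intro r hr
    by_cases h1 : r = w
    · simp only [h1, if_true]; exact fun hc => hx.2.1 (hc ▸ hl.mem)
    · simp only [h1, if_false]; exact h.z_ne hr hl.mem
  refine ⟨hwp, ?_⟩
  have hu0 : w + p ≠ 0 := fun hc => hwp (P_add_eq_zero.1 hc)
  have hwu : w + p ≠ w := by rw [add_comm]; exact P_ne_of_add hp0
  have hpu : p ≠ w + p := fun hc => P_ne_of_add hw hc.symm
  have hlx0 : lam (v x) = 0 := by
    rw [hq p hp0, if_neg (Ne.symm hwp), add_zero] at hlx
    exact (f2_cases _).resolve_right hlx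
  have h' := h.newcf hl hu0 (by rw [hq _ hu0, if_neg hwu, add_zero])
    (z' := fun r => if r = p then x else if r = w + p then y else z (r + (w + p))) (by
      intro r hr
      by_cases h1 : r = p
      · simpa [h1] using hx.1
      by_cases h2 : r = w + p
      · simpa [h1, h2, hpu.symm, hw] using h.hC hl.mem
      · simpa [h1, h2] using h.hz _ (fun hc => h2 (P_add_eq_zero.1 hc))) (by
      intro r hr
      by_cases h1 : r = p
      · simp [h1, hxp, hlx0]
      by_cases h2 : r = w + p
      · simp [h2, hw, h.pi_zero hl.mem, hl.one]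
      · have h4 : r + (w + p) ≠ 0 := fun hc => h2 (P_add_eq_zero.1 hc)
        have h5 : r + (w + p) ≠ w := by
          intro hc
          apply h1
          have := congrArg (· + (w + p)) hc
          simp only [P_add_cancel] at this
          rw [this, ← add_assoc, P_add_self, zero_add]
        simp only [h1, h2, if_false, h.hp _ h4, hq _ h4, if_neg h5, add_zero, one_smul,
          P_add_cancel])
  exact h'.subY hNT ctx (mem_insert _ _)

/-- F4 -/
theorem Cf.f4 (hNT : SpecNT.{u}) (hD : SpecDual.{u}) (hDC : SpecDualCfg.{u}) (ctx : Ctx M v Y)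
    (h : Cf M v C z π) {y y' : α} (hyy : y ≠ y')
    {lam lam' : V →ₗ[F2] F2} (hl : Fn v C y lam) (hl' : Fn v C y' lam') {w w' : P} (hw : w ≠ 0)
    (hw' : w' ≠ 0) (hww : w ≠ w')
    (hq : ∀ p, p ≠ 0 → lam (v (z p)) = 1 + if p = w then 1 else 0)
    (hq' : ∀ p, p ≠ 0 → lam' (v (z p)) = 1 + if p = w' then 1 else 0) :
    z (w + w') ∈ Y := by
  classical
  have h11 : (1 : F2) + 1 = 0 := by decide
  have hu0 : w + w' ≠ 0 := fun hc => hww (P_add_eq_zero.1 hc)
  have huw : w + w' ≠ w := by rw [add_comm]; exact P_ne_of_add hw'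
  have huw' : w + w' ≠ w' := P_ne_of_add hw
  have hwu' : w + (w + w') = w' := by rw [← add_assoc, P_add_self, zero_add]
  set g : V →ₗ[F2] F2 := dotL (cr w w') ∘ₗ π + lam + lam' with hg
  have hgv : ∀ t, g t = dotv (cr w w') (π t) + lam t + lam' t := fun t => rfl
  set σ : V →ₗ[F2] (P × F2) := (π + lam'.smulRight (w + w') + g.smulRight w).prod g with hσ
  have hσv : ∀ t, σ t = (π t + lam' t • (w + w') + g t • w, g t) := fun t => rfl
  have hzu : lam (v (z (w + w'))) = 1 ∧ lam' (v (z (w + w'))) = 1 := by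
    rw [hq _ hu0, hq' _ hu0, if_neg huw, if_neg huw', add_zero]
    exact ⟨rfl, rfl⟩
  have hcr0 : dotv (cr w w') 0 = 0 := by simp [dotv]
  have hcru : dotv (cr w w') (w + w') = 0 :=
    (cr_spec w w' hw hw' hww _).2 (Or.inr (Or.inr (Or.inr rfl)))
  have hcrw : dotv (cr w w') w = 0 :=
    (cr_spec w w' hw hw' hww _).2 (Or.inr (Or.inl rfl))
  have hcrw' : dotv (cr w w') w' = 0 :=
    (cr_spec w w' hw hw' hww _).2 (Or.inr (Or.inr (Or.inl rfl)))
  have hlam'y : lam' (v y) = 0 := hl'.zero y hl.mem hyy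
  have hlamy' : lam (v y') = 0 := hl.zero y' hl'.mem (Ne.symm hyy)
  -- kernel of (π, lam, lam')
  have hker3 : ∀ t, ((π t = 0 ∧ lam t = 0) ∧ lam' t = 0) ↔
      t ∈ span F2 (v '' ((C \ {y}) \ {y'})) := by
    intro t
    have h1 : LinearMap.ker (π.prod lam) = span F2 (v '' (C \ {y})) := by
      ext t
      rw [← h.ker2 hl t, LinearMap.mem_ker]
      change ((π t, lam t) : P × F2) = 0 ↔ _
      rw [Prod.mk_eq_zero]
    have h2 := ker_remove (π.prod lam) lam' (C := C \ {y}) (y := y') ⟨hl'.mem, Ne.symm hyy⟩ h1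
      hl'.one (fun c hc hcy => hl'.zero c hc.1 hcy) t
    rw [← h2]
    change _ ↔ ((π t, lam t) : P × F2) = 0 ∧ _
    rw [Prod.mk_eq_zero]
  have hcfg : F7dCfg v M.E (insert (z (w + w')) ((C \ {y}) \ {y'}))
      (fun r => if r = w then y else if r = w' then y' else if r = w + w' then z w
        else z (r + w')) := by
    refine ⟨insert_subset (h.hz _ hu0) (sdiff_subset.trans (sdiff_subset.trans h.hC)), ?_, σ, ?_,
      ?_⟩
    · intro r hr
      by_cases h1 : r = w
      · simpa [h1] using h.hC hl.mem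
      by_cases h2 : r = w'
      · simpa [h2, hww.symm] using h.hC hl'.mem
      by_cases h3 : r = w + w'
      · simpa [h3, huw, huw', hw, hw'] using h.hz w hw
      · simpa [h1, h2, h3] using h.hz (r + w') (fun hc => h2 (P_add_eq_zero.1 hc))
    · apply ker_insert ((π.prod lam).prod lam') σ
      · ext t
        rw [← hker3 t, LinearMap.mem_ker]
        change (((π t, lam t), lam' t) : (P × F2) × F2) = 0 ↔ _
        rw [Prod.mk_eq_zero, Prod.mk_eq_zero]
      · intro t ht
        have ht' : (((π t, lam t), lam' t) : (P × F2) × F2) = 0 := ht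
        rw [Prod.mk_eq_zero, Prod.mk_eq_zero] at ht'
        obtain ⟨⟨h1, h2⟩, h3⟩ := ht'
        rw [hσv, hgv, h1, h2, h3, hcr0]
        simp
      · rw [hσv, hgv, h.hp _ hu0, hzu.1, hzu.2, hcru]
        rw [zero_add, h11, one_smul, P_add_self, zero_smul, add_zero]
        rfl
      · intro t ht
        rw [hσv, Prod.mk_eq_zero] at ht
        obtain ⟨h1, h2⟩ := ht
        rw [h2, zero_smul, add_zero] at h1
        rcases f2_cases (lam' t) with h3 | h3
        · left
          rw [h3, zero_smul, add_zero] at h1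
          rw [hgv, h1, h3, hcr0, zero_add, add_zero] at h2
          change (((π t, lam t), lam' t) : (P × F2) × F2) = 0
          rw [h1, h2, h3]; rfl
        · right
          rw [h3, one_smul, P_add_eq_zero] at h1
          rw [hgv, h1, h3, hcru, zero_add] at h2
          have h4 : lam t = 1 := by
            rcases f2_cases (lam t) with h5 | h5
            · rw [h5, zero_add] at h2; exact absurd h2 one_ne_zero
            · exact h5
          change (((π (t + v (z (w + w'))), lam (t + v (z (w + w')))),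
            lam' (t + v (z (w + w')))) : (P × F2) × F2) = 0
          rw [map_add, map_add, map_add, h.hp _ hu0, hzu.1, hzu.2, h1, h3, h4, P_add_self, h11]
          rfl
    · intro r hr
      rw [hσv, hgv]
      by_cases h1 : r = w
      · simp [h1, h.pi_zero hl.mem, hl.one, hlam'y, hcr0]
      by_cases h2 : r = w'
      · simp only [h2, hww.symm, if_false, if_true, h.pi_zero hl'.mem, hl'.one, hlamy', hcr0]
        rw [zero_add, zero_add, zero_add, one_smul, one_smul]
        rw [add_comm w w', add_assoc, P_add_self, add_zero]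
      by_cases h3 : r = w + w'
      · have e1 : lam (v (z w)) = 0 := by rw [hq w hw, if_pos rfl, h11]
        have e2 : lam' (v (z w)) = 1 := by rw [hq' w hw, if_neg hww, add_zero]
        simp only [h3, huw, huw', if_false, if_true, h.hp w hw, e1, e2, hcrw]
        rw [zero_add, zero_add, one_smul, one_smul, hwu', add_comm w' w]
      · have h4 : r + w' ≠ 0 := fun hc => h2 (P_add_eq_zero.1 hc)
        have h5 : r + w' ≠ w := by
          intro hc
          apply h3
          have := congrArg (· + w') hc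
          simpa only [P_add_cancel] using this
        have h6 : r + w' ≠ w' := P_ne_of_add hr
        have h7 : dotv (cr w w') (r + w') ≠ 0 := by
          intro hc
          rcases (cr_spec w w' hw hw' hww _).1 hc with h8 | h8 | h8 | h8
          · exact h4 h8
          · exact h5 h8
          · exact h6 h8
          · apply h1
            have := congrArg (· + w') h8
            simpa only [P_add_cancel] using this
        have e1 : lam (v (z (r + w'))) = 1 := by rw [hq _ h4, if_neg h5, add_zero]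
        have e2 : lam' (v (z (r + w'))) = 1 := by rw [hq' _ h4, if_neg h6, add_zero]
        simp only [h1, h2, h3, if_false, h.hp _ h4, e1, e2, f2_ne_zero h7]
        rw [h11, zero_add, one_smul, one_smul]
        have : r + w' + (w + w') + w = r := by
          have e3 : r + w' + (w + w') + w = r + (w' + w') + (w + w) := by abel
          rw [e3, P_add_self, P_add_self, add_zero, add_zero]
        rw [this]
  exact ctx.dcfgC hNT hD hDC hcfg (mem_insert _ _)

end rules

end MP948082.Core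
end

section
/-!
# MP_948082_co, CORE, part 4: D-edges, circuit-hyperplanes, the line cases
-/
open Set Submodule

set_option synthInstance.maxHeartbeats 400000
set_option synthInstance.maxSize 1000

namespace MP948082.Core

open MP948082

universe u

/-! ### finite facts -/

set_option maxRecDepth 100000 in
theorem cr_basis : ∀ a b c d : P, a ≠ 0 → b ≠ 0 → a ≠ b → dotv (cr a b) c = 1 →
    dotv d a = 0 → dotv d b = 0 → dotv d c = 0 → d = 0 := by
  decide

set_option maxRecDepth 100000 in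
theorem cr_exists : ∀ a b : P, a ≠ 0 → b ≠ 0 → a ≠ b → ∃ p, dotv (cr a b) p = 1 := by
  decide

set_option maxRecDepth 100000 in
theorem line_indep : ∀ (a b : P) (r s t : F2), a ≠ 0 → b ≠ 0 → a ≠ b →
    r • a + s • b + t • (a + b) = 0 → r = t ∧ s = t := by
  decide

set_option maxRecDepth 100000 in
theorem line_avoid : ∀ w : P, w ≠ 0 → ∃ a b : P, a ≠ 0 ∧ b ≠ 0 ∧ a ≠ b ∧
    w ≠ a ∧ w ≠ b ∧ w ≠ a + b := by
  decide

theorem dotv_add (a p q : P) : dotv a (p + q) = dotv a p + dotv a q := (dotL a).map_add p q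

section rules

variable {α : Type u} {V : Type*} [AddCommGroup V] [Module F2 V] [Module.Finite F2 V]
  {M : Matroid α} [M.Finite] {v : α → V} {Y C : Set α} {z : P → α} {π : V →ₗ[F2] P}

omit [Module.Finite F2 V] [M.Finite] in
/-- an element of the span of `C` on which all coordinate functionals vanish is zero -/
theorem eq_zero_of_fn {u : V} (hu : u ∈ span F2 (v '' C))
    (h : ∀ y ∈ C, ∃ lam, Fn v C y lam ∧ lam u = 0) : u = 0 := by
  rw [Finsupp.mem_span_image_iff_linearCombination] at hu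
  obtain ⟨l, hl, rfl⟩ := hu
  have hl0 : l = 0 := by
    ext y
    by_cases hy : y ∈ C
    · obtain ⟨lam, hlam, h0⟩ := h y hy
      rw [Finsupp.linearCombination_apply, Finsupp.sum, map_sum] at h0
      have h1 : ∑ c ∈ l.support, lam (l c • v c) = l y := by
        rw [Finset.sum_eq_single y]
        · rw [map_smul, hlam.one, smul_eq_mul, mul_one]
        · intro c hc hcy
          rw [map_smul, hlam.zero c (hl hc) hcy, smul_zero]
        · intro hyn
          rw [Finsupp.notMem_support_iff.1 hyn, zero_smul, map_zero]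
      rw [h1] at h0
      exact h0
    · by_contra hc
      exact hy (hl (Finsupp.mem_support_iff.2 hc))
  rw [hl0, map_zero]

omit [Module.Finite F2 V] [M.Finite] in
/-- two functionals normalised at `y` have the same `D`-edges -/
theorem Cf.fn_unique (h : Cf M v C z π) {y : α} {lam lam' : V →ₗ[F2] F2} (hl : Fn v C y lam)
    (hl' : Fn v C y lam') {u : V} (hu : π u = 0) : lam u = lam' u := by
  have h1 : span F2 (v '' C) ≤ LinearMap.ker (lam - lam') := by
    rw [span_le]
    rintro _ ⟨c, hc, rfl⟩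
    rw [SetLike.mem_coe, LinearMap.mem_ker, LinearMap.sub_apply, sub_eq_zero]
    by_cases hcy : c = y
    · rw [hcy, hl.one, hl'.one]
    · rw [hl.zero c hc hcy, hl'.zero c hc hcy]
  have h2 : u ∈ LinearMap.ker (lam - lam') := h1 (h.ker ▸ hu)
  rwa [LinearMap.mem_ker, LinearMap.sub_apply, sub_eq_zero] at h2

/-- `x ∉ C ∪ Z` has a `D`-edge (simplicity). -/
theorem Cf.dedge_x (hNT : SpecNT.{u}) (hsimple : IsSimple M) (ctx : Ctx M v Y)
    (h : Cf M v C z π) {x : α} (hx : Rest M C z x) :
    ∃ y ∈ C, ∀ lam, Fn v C y lam → lam (v x) ≠ lam (v (z (π (v x)))) := by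
  by_contra hcon
  push Not at hcon
  have hp0 : π (v x) ≠ 0 := h.rest_ne_zero hNT ctx hx
  have hu : v x + v (z (π (v x))) ∈ span F2 (v '' C) := by
    rw [← h.ker, LinearMap.mem_ker, map_add, h.hp _ hp0, P_add_self]
  have h0 : v x + v (z (π (v x))) = 0 := by
    apply eq_zero_of_fn hu
    intro y hy
    obtain ⟨lam, hl, he⟩ := hcon y hy
    refine ⟨lam, hl, ?_⟩
    rw [map_add, he]
    have : ∀ t : F2, t + t = 0 := by decide
    exact this _
  rw [f2_add_eq_zero] at h0
  have h1 := ctx.rep.linearIndepOn (hsimple x hx.1 (z (π (v x))) (h.hz _ hp0))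
  have h2 := h1.injOn (mem_insert _ _) (mem_insert_of_mem _ rfl) h0
  exact hx.2.2 _ hp0 h2.symm

/-- a series element has a `D`-edge (cosimplicity). -/
theorem Cf.dedge_ser (hNT : SpecNT.{u}) (hcosimple : IsSimple M✶) (ctx : Ctx M v Y)
    (h : Cf M v C z π) {y : α} {lam : V →ₗ[F2] F2} (hl : Fn v C y lam) {w : P} (hw : w ≠ 0)
    (hq : ∀ p, p ≠ 0 → lam (v (z p)) = if p = w then 1 else 0) :
    ∃ x, Rest M C z x ∧ lam (v x) ≠ lam (v (z (π (v x)))) := by
  by_contra hcon
  push Not at hcon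
  have hzw : z w ∈ Y := h.ser hNT ctx hl hw hq
  have h1 : M✶.Indep {y, z w} := hcosimple y (h.hC hl.mem) (z w) (h.hz w hw)
  have h2 : M.Spanning (M.E \ {y, z w}) := by
    rw [← Matroid.coindep_iff_compl_spanning
      (insert_subset (h.hC hl.mem) (singleton_subset_iff.2 (h.hz w hw)))]
    exact h1
  rw [ctx.rep.spanning_iff ctx.spanning sdiff_subset] at h2
  have h3 : lam = 0 := by
    apply eq_zero_of_span_eq_top h2
    rintro _ ⟨e, he, rfl⟩
    have hey : e ≠ y := fun hc => he.2 (Or.inl hc)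
    have hew : e ≠ z w := fun hc => he.2 (Or.inr hc)
    by_cases heC : e ∈ C
    · exact hl.zero e heC hey
    by_cases heZ : ∃ p, p ≠ 0 ∧ z p = e
    · obtain ⟨p, hp, rfl⟩ := heZ
      rw [hq p hp, if_neg]
      rintro rfl
      exact hew rfl
    · push Not at heZ
      have hR : Rest M C z e := ⟨he.1, heC, heZ⟩
      rw [hcon e hR, hq _ (h.rest_ne_zero hNT ctx hR), if_neg]
      intro hc
      exact h.swapX hNT ctx hR (hc ▸ hzw)
  have := hl.one
  rw [h3] at this
  exact zero_ne_one this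

omit [Module.Finite F2 V] in
/-- **Circuit-hyperplane** from a line. -/
theorem Cf.circHyp (ctx : Ctx M v Y) (h : Cf M v C z π)
    {a b : P} (ha : a ≠ 0) (hb : b ≠ 0) (hab : a ≠ b)
    (hy : ∀ y ∈ C, ∃ lam, Fn v C y lam ∧
      lam (v (z a)) + lam (v (z b)) + lam (v (z (a + b))) = 1)
    (hx : ∀ x, Rest M C z x → dotv (cr a b) (π (v x)) = 1) :
    IsCircuitHyperplane M (C ∪ {z a, z b, z (a + b)}) := by
  classical
  have hab0 : a + b ≠ 0 := fun hc => hab (P_add_eq_zero.1 hc)
  have ha' : a ≠ a + b := fun hc => P_ne_of_add hb (by rw [add_comm]; exact hc.symm)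
  have hb' : b ≠ a + b := fun hc => P_ne_of_add ha hc.symm
  have hzab : z a ≠ z b := fun hc => hab (h.z_inj ha hb hc)
  have hza' : z a ≠ z (a + b) := fun hc => ha' (h.z_inj ha hab0 hc)
  have hzb' : z b ≠ z (a + b) := fun hc => hb' (h.z_inj hb hab0 hc)
  set Y1 : Set α := C ∪ {z a, z b, z (a + b)} with hY1
  have hY1E : Y1 ⊆ M.E := by
    rintro e (he | he)
    · exact h.hC he
    · rcases he with rfl | rfl | rfl
      exacts [h.hz _ ha, h.hz _ hb, h.hz _ hab0]
  have hCfin : C.Finite := M.ground_finite.subset h.hC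
  set Cf := hCfin.toFinset with hCf
  have hCfm : ∀ e, e ∈ Cf ↔ e ∈ C := fun e => hCfin.mem_toFinset
  -- the key relation
  have hrel : v (z a) + v (z b) + v (z (a + b)) = ∑ c ∈ Cf, v c := by
    rw [← f2_add_eq_zero]
    apply eq_zero_of_fn (C := C)
    · apply add_mem
      · rw [← h.ker, LinearMap.mem_ker, map_add, map_add, h.hp a ha, h.hp b hb, h.hp _ hab0,
          P_add_self]
      · exact sum_mem fun c hc => subset_span ⟨c, (hCfm c).1 hc, rfl⟩
    · intro y hyC
      obtain ⟨lam, hl, hs⟩ := hy y hyC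
      refine ⟨lam, hl, ?_⟩
      rw [map_add, map_add, map_add, hs, map_sum, Finset.sum_eq_single y, hl.one]
      · decide
      · intro c hc hcy
        exact hl.zero c ((hCfm c).1 hc) hcy
      · intro hc
        exact absurd ((hCfm y).2 hyC) hc
  constructor
  · -- circuit
    rw [Matroid.isCircuit_iff_dep_forall_sdiff_singleton_indep]
    constructor
    · rw [Matroid.dep_iff]
      refine ⟨fun hI => ?_, hY1E⟩
      have hli := ctx.rep.linearIndepOn hI
      have hza : z a ∈ Y1 := Or.inr (Or.inl rfl)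
      apply hli.notMem_span hza
      have he : v (z a) = v (z b) + v (z (a + b)) + ∑ c ∈ Cf, v c := by
        rw [← hrel]
        have : v (z b) + v (z (a + b)) + (v (z a) + v (z b) + v (z (a + b))) =
          v (z a) + (v (z b) + v (z b)) + (v (z (a + b)) + v (z (a + b))) := by abel
        rw [this, f2_add_self, f2_add_self, add_zero, add_zero]
      rw [he]
      apply add_mem (add_mem _ _)
      · apply sum_mem
        intro c hc
        have hcC := (hCfm c).1 hc
        exact subset_span ⟨c, ⟨Or.inl hcC, fun hc' => h.z_notin ha ((hc' : c = z a) ▸ hcC)⟩, rfl⟩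
      · exact subset_span ⟨z b, ⟨Or.inr (Or.inr (Or.inl rfl)), fun hc => hzab hc.symm⟩, rfl⟩
      · exact subset_span ⟨z (a + b), ⟨Or.inr (Or.inr (Or.inr rfl)), fun hc => hza' hc.symm⟩, rfl⟩
    · intro e he
      rw [ctx.rep _ (sdiff_subset.trans hY1E), linearIndepOn_iff'']
      intro t g ht hg hsum i hi
      set Tf : Finset α := insert (z a) (insert (z b) (insert (z (a + b)) Cf)) with hTf
      have htT : t ⊆ Tf := by
        intro j hj
        have := (ht hj).1
        rw [hTf]
        rcases this with h1 | h1 | h1 | h1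
        · simp [(hCfm j).2 h1]
        · simp [h1]
        · simp [h1]
        · rw [mem_singleton_iff] at h1
          simp [h1]
      have hsum2 : ∑ j ∈ Tf, g j • v j = 0 := by
        rw [← Finset.sum_subset htT]
        · exact hsum
        · intro j _ hj
          rw [hg j hj, zero_smul]
      have hn1 : z (a + b) ∉ Cf := fun hc => h.z_notin hab0 ((hCfm _).1 hc)
      have hn2 : z b ∉ insert (z (a + b)) Cf := by
        rw [Finset.mem_insert]; rintro (hc | hc)
        · exact hzb' hc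
        · exact h.z_notin hb ((hCfm _).1 hc)
      have hn3 : z a ∉ insert (z b) (insert (z (a + b)) Cf) := by
        rw [Finset.mem_insert, Finset.mem_insert]; rintro (hc | hc | hc)
        · exact hzab hc
        · exact hza' hc
        · exact h.z_notin ha ((hCfm _).1 hc)
      rw [hTf, Finset.sum_insert hn3, Finset.sum_insert hn2, Finset.sum_insert hn1] at hsum2
      have hpi := congrArg π hsum2
      simp only [map_add, map_smul, map_sum, map_zero, h.hp a ha, h.hp b hb, h.hp _ hab0] at hpi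
      rw [Finset.sum_eq_zero (s := Cf) (fun c hc => by rw [h.pi_zero ((hCfm c).1 hc), smul_zero]),
        add_zero] at hpi
      have hpi' : g (z a) • a + g (z b) • b + g (z (a + b)) • (a + b) = 0 := by
        rw [add_assoc]; exact hpi
      obtain ⟨g1, g2⟩ := line_indep a b _ _ _ ha hb hab hpi'
      have hgC : ∀ y ∈ C, g y = g (z (a + b)) := by
        intro y hyC
        obtain ⟨lam, hl, hs⟩ := hy y hyC
        have hlam := congrArg lam hsum2
        simp only [map_add, map_smul, map_sum, map_zero, smul_eq_mul] at hlam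
        rw [Finset.sum_eq_single y (fun c hc hcy => by rw [hl.zero c ((hCfm c).1 hc) hcy, mul_zero])
          (fun hc => absurd ((hCfm y).2 hyC) hc), hl.one, mul_one, g1, g2] at hlam
        have h3 : g (z (a + b)) * (lam (v (z a)) + lam (v (z b)) + lam (v (z (a + b)))) + g y = 0 := by
          rw [← hlam]; ring
        rw [hs, mul_one] at h3
        exact (f2_add_eq_zero.1 h3).symm
      have hall : ∀ j ∈ Y1, g j = g (z (a + b)) := by
        rintro j (hj | hj)
        · exact hgC j hj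
        · rcases hj with rfl | rfl | rfl
          exacts [g1, g2, rfl]
      have hge : g e = 0 := hg e (fun hc => (ht hc).2 rfl)
      rw [hall i (ht hi).1, ← hall e he, hge]
  · -- cocircuit
    have hcompl : M.E \ (M.E \ Y1) = Y1 := by
      rw [Set.sdiff_sdiff_right_self]
      exact inter_eq_self_of_subset_right hY1E
    have hcr0 : dotv (cr a b) 0 = 0 := by simp [dotv]
    have hvan : ∀ e ∈ Y1, dotv (cr a b) (π (v e)) = 0 := by
      rintro e (he | he)
      · rw [h.pi_zero he, hcr0]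
      · rcases he with rfl | rfl | rfl
        · rw [h.hp a ha]; exact (cr_spec a b ha hb hab a).2 (Or.inr (Or.inl rfl))
        · rw [h.hp b hb]; exact (cr_spec a b ha hb hab b).2 (Or.inr (Or.inr (Or.inl rfl)))
        · rw [h.hp _ hab0]; exact (cr_spec a b ha hb hab _).2 (Or.inr (Or.inr (Or.inr rfl)))
    have hnon : ∀ e ∈ M.E, e ∉ Y1 → dotv (cr a b) (π (v e)) = 1 := by
      intro e he heY
      by_cases heZ : ∃ p, p ≠ 0 ∧ z p = e
      · obtain ⟨p, hp, rfl⟩ := heZ
        rw [h.hp p hp]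
        apply f2_ne_zero
        intro hc
        rcases (cr_spec a b ha hb hab p).1 hc with h1 | h1 | h1 | h1
        · exact hp h1
        · exact heY (Or.inr (Or.inl (by rw [h1])))
        · exact heY (Or.inr (Or.inr (Or.inl (by rw [h1]))))
        · exact heY (Or.inr (Or.inr (Or.inr (by rw [h1]; rfl))))
      · push Not at heZ
        exact hx e ⟨he, fun hc => heY (Or.inl hc), heZ⟩
    rw [Matroid.isCocircuit_iff_minimal_compl_nonspanning]
    constructor
    · change ¬ M.Spanning (M.E \ (M.E \ Y1))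
      rw [hcompl, ctx.rep.spanning_iff ctx.spanning hY1E]
      intro hsp
      have h0 : (dotL (cr a b)) ∘ₗ π = 0 := by
        apply eq_zero_of_span_eq_top hsp
        rintro _ ⟨e, he, rfl⟩
        exact hvan e he
      obtain ⟨p, hp⟩ := cr_exists a b ha hb hab
      have hp0 : p ≠ 0 := by rintro rfl; rw [hcr0] at hp; exact zero_ne_one hp
      have h1 := LinearMap.congr_fun h0 (v (z p))
      rw [LinearMap.comp_apply, h.hp p hp0, dotL_apply, hp] at h1
      exact one_ne_zero h1
    · intro X hX hXle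
      by_contra hcon
      obtain ⟨x, hxK, hxX⟩ := not_subset.1 hcon
      apply hX
      rw [ctx.rep.spanning_iff ctx.spanning sdiff_subset]
      have hY1X : ∀ e ∈ Y1, e ∈ M.E \ X := fun e he => ⟨hY1E he, fun hc => (hXle hc).2 he⟩
      apply span_eq_top_of_forall
      intro f hf
      have hfY : ∀ e ∈ Y1, f (v e) = 0 := fun e he => hf _ ⟨e, hY1X e he, rfl⟩
      have hfx : f (v x) = 0 := hf _ ⟨x, ⟨hxK.1, hxX⟩, rfl⟩
      have hker : LinearMap.ker π ≤ LinearMap.ker f := by
        rw [h.ker, span_le]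
        rintro _ ⟨c, hc, rfl⟩
        exact hfY c (Or.inl hc)
      have hsurj : Function.Surjective π := by
        intro p
        by_cases hp : p = 0
        · exact ⟨0, by rw [hp, map_zero]⟩
        · exact ⟨v (z p), h.hp p hp⟩
      obtain ⟨s, hs⟩ := LinearMap.exists_rightInverse_of_surjective π (LinearMap.range_eq_top.2 hsurj)
      have hfs : ∀ u, f u = (f ∘ₗ s) (π u) := by
        intro u
        have h1 : u - s (π u) ∈ LinearMap.ker π := by
          rw [LinearMap.mem_ker, map_sub]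
          have := LinearMap.congr_fun hs (π u)
          rw [LinearMap.comp_apply, LinearMap.id_apply] at this
          rw [this, sub_self]
        have h2 := hker h1
        rw [LinearMap.mem_ker, map_sub, sub_eq_zero] at h2
        exact h2
      set g := f ∘ₗ s with hg
      have hgd : ∀ p, g p = dotv ![g (Pi.single 0 1), g (Pi.single 1 1), g (Pi.single 2 1)] p := by
        intro p
        have hpe : p = p 0 • Pi.single 0 1 + p 1 • Pi.single 1 1 + p 2 • Pi.single 2 1 := by
          ext i; fin_cases i <;> simp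
        conv_lhs => rw [hpe]
        rw [map_add, map_add, map_smul, map_smul, map_smul]
        simp [dotv]
        ring
      have hga : g a = 0 := by
        have := hfs (v (z a)); rw [h.hp a ha, hfY _ (Or.inr (Or.inl rfl))] at this; exact this.symm
      have hgb : g b = 0 := by
        have := hfs (v (z b)); rw [h.hp b hb, hfY _ (Or.inr (Or.inr (Or.inl rfl)))] at this
        exact this.symm
      have hgx : g (π (v x)) = 0 := by rw [← hfs, hfx]
      have hd := cr_basis a b (π (v x)) _ ha hb hab (hnon x hxK.1 hxK.2)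
        (by rw [← hgd]; exact hga) (by rw [← hgd]; exact hgb) (by rw [← hgd]; exact hgx)
      ext u
      rw [hfs u, hgd, hd]
      simp [dotv]

end rules

end MP948082.Core
end

section
/-!
# MP_948082_co, CORE, part 5: the line cases
-/
open Set Submodule

set_option synthInstance.maxHeartbeats 400000
set_option synthInstance.maxSize 1000

namespace MP948082.Core

open MP948082

universe u

/-- The conclusion (W). -/
def WType {α : Type u} (M : Matroid α) : Prop :=
  ∃ Y N, IsCircuitHyperplane M Y ∧ IsRelaxation N M Y ∧ Representable F3 N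

/-- three points of a line: a functional with kernel another line does not take the value 1 three times -/
theorem meet {a b w p : P} (h1 : dotv (cr a b) w ≠ 0) (h2 : dotv (cr a b) p ≠ 0)
    (h3 : dotv (cr a b) (w + p) ≠ 0) : False := by
  rw [dotv_add, f2_ne_zero h1, f2_ne_zero h2] at h3
  exact h3 (by decide)

section rules

variable {α : Type u} {n : ℕ}
  {M : Matroid α} [M.Finite] {v : α → (Fin n → F2)} {Y C : Set α} {z : P → α}
  {π : (Fin n → F2) →ₗ[F2] P}

theorem Cf.wOfLine (hW : SpecW.{u}) (ctx : Ctx M v Y)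
    (h : Cf M v C z π) (hNT : SpecNT.{u}) {a b : P} (ha : a ≠ 0) (hb : b ≠ 0) (hab : a ≠ b)
    (hy : ∀ y ∈ C, ∃ lam, Fn v C y lam ∧
      lam (v (z a)) + lam (v (z b)) + lam (v (z (a + b))) = 1)
    (hx : ∀ x, Rest M C z x → dotv (cr a b) (π (v x)) = 1) : WType M := by
  have hch := h.circHyp ctx ha hb hab hy hx
  obtain ⟨N, hN, hN3⟩ := hW α M n v C z a b ctx.rep h.cfg ha hb hab hch
    (fun y hyC => ctx.del y (h.subY hNT ctx hyC))
    (fun x hxE hxC hxz => ctx.con x hxE (h.restX hNT ctx ⟨hxE, hxC, hxz⟩))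
  exact ⟨_, N, hch, hN, hN3⟩

/-- sum over a line of `c + [p = w]`. -/
theorem line_sum {a b w : P} {c : F2} (ha : a ≠ 0) (hb : b ≠ 0) (hab : a ≠ b)
    (h : (c = 0 ∧ (w = a ∨ w = b ∨ w = a + b)) ∨ (c = 1 ∧ w ≠ a ∧ w ≠ b ∧ w ≠ a + b)) :
    (c + (if a = w then 1 else 0)) + (c + (if b = w then 1 else 0)) +
      (c + (if a + b = w then 1 else 0)) = 1 := by
  have ha' : a + b ≠ a := by rw [add_comm]; exact P_ne_of_add hb
  have hb' : a + b ≠ b := P_ne_of_add ha
  rcases h with ⟨rfl, h | h | h⟩ | ⟨rfl, h1, h2, h3⟩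
  · subst h; simp [hab.symm, ha, hb]
  · subst h; simp [hab, ha, hb]
  · subst h; simp [ha'.symm, hb'.symm, ha, hb]
  · rw [if_neg (Ne.symm h1), if_neg (Ne.symm h2), if_neg (Ne.symm h3)]; decide

/-- **Case 1**: `S` contains a line. -/
theorem Cf.caseLine (hNT : SpecNT.{u}) (hD : SpecDual.{u}) (hDC : SpecDualCfg.{u})
    (hW : SpecW.{u}) (hcosimple : IsSimple M✶) (ctx : Ctx M v Y)
    (h : Cf M v C z π) {a b : P} (ha : a ≠ 0) (hb : b ≠ 0) (hab : a ≠ b)
    (hza : z a ∈ Y) (hzb : z b ∈ Y) (hzab : z (a + b) ∈ Y) : WType M := by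
  have hout : ∀ p, z p ∉ Y → p ≠ 0 → dotv (cr a b) p ≠ 0 := by
    intro p hp hp0 hc
    rcases (cr_spec a b ha hb hab p).1 hc with h1 | h1 | h1 | h1
    · exact hp0 h1
    · exact hp (h1 ▸ hza)
    · exact hp (h1 ▸ hzb)
    · exact hp (h1 ▸ hzab)
  apply h.wOfLine hW ctx hNT ha hb hab
  · intro y hy
    obtain ⟨lam, c, w, hl, hw, hq, hc0, hc1⟩ := h.exists_fn hNT hD hDC ctx hy
    refine ⟨lam, hl, ?_⟩
    have hab0 : a + b ≠ 0 := fun hc => hab (P_add_eq_zero.1 hc)
    rw [hq a ha, hq b hb, hq _ hab0]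
    apply line_sum ha hb hab
    rcases f2_cases c with rfl | rfl
    · left
      refine ⟨rfl, ?_⟩
      have hq' : ∀ p, p ≠ 0 → lam (v (z p)) = if p = w then 1 else 0 := by
        intro p hp; rw [hq p hp, zero_add]
      obtain ⟨x, hx, hlx⟩ := h.dedge_ser hNT hcosimple ctx hl hw hq'
      have hp0 := h.rest_ne_zero hNT ctx hx
      have hpX := h.swapX hNT ctx hx
      obtain ⟨hwp, -, huX⟩ := h.f3ser hNT hD hDC ctx hl hw hq' hx rfl hlx
      have hu0 : w + π (v x) ≠ 0 := fun hc => hwp (P_add_eq_zero.1 hc)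
      by_contra hcon
      have h1 : dotv (cr a b) w ≠ 0 := by
        intro hc
        rcases (cr_spec a b ha hb hab w).1 hc with h1 | h1
        · exact hw h1
        · exact hcon h1
      exact meet h1 (hout _ hpX hp0) (hout _ huX hu0)
    · right
      have hwX := hc1 rfl
      exact ⟨rfl, fun hc => hwX (hc ▸ hza), fun hc => hwX (hc ▸ hzb), fun hc => hwX (hc ▸ hzab)⟩
  · intro x hx
    exact f2_ne_zero (hout _ (h.swapX hNT ctx hx) (h.rest_ne_zero hNT ctx hx))

/-- **Case 2a**: `S` is the complement of a line. -/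
theorem Cf.caseCompl (hNT : SpecNT.{u}) (hD : SpecDual.{u}) (hDC : SpecDualCfg.{u})
    (hW : SpecW.{u}) (hsimple : IsSimple M) (hcosimple : IsSimple M✶) (ctx : Ctx M v Y)
    (h : Cf M v C z π) {a b : P} (ha : a ≠ 0) (hb : b ≠ 0) (hab : a ≠ b)
    (hS : ∀ p, p ≠ 0 → (z p ∈ Y ↔ dotv (cr a b) p = 1)) : WType M := by
  have hin : ∀ p, p ≠ 0 → z p ∉ Y → dotv (cr a b) p = 0 := by
    intro p hp hpY
    by_contra hc
    exact hpY ((hS p hp).2 (f2_ne_zero hc))
  -- no outside elements
  have hno : ∀ x, ¬ Rest M C z x := by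
    intro x hx
    obtain ⟨y, hy, hlam⟩ := h.dedge_x hNT hsimple ctx hx
    obtain ⟨lam, c, w, hl, hw, hq, hc0, hc1⟩ := h.exists_fn hNT hD hDC ctx hy
    have hlx := hlam lam hl
    have hp0 := h.rest_ne_zero hNT ctx hx
    have hp := hin _ hp0 (h.swapX hNT ctx hx)
    rcases f2_cases c with rfl | rfl
    · have hq' : ∀ p, p ≠ 0 → lam (v (z p)) = if p = w then 1 else 0 := by
        intro p hp; rw [hq p hp, zero_add]
      obtain ⟨hwp, -, huX⟩ := h.f3ser hNT hD hDC ctx hl hw hq' hx rfl hlx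
      have hu0 : w + π (v x) ≠ 0 := fun hc => hwp (P_add_eq_zero.1 hc)
      have h1 := (hS w hw).1 (hc0 rfl)
      have h2 := hin _ hu0 huX
      rw [dotv_add, h1, hp] at h2
      exact absurd h2 (by decide)
    · obtain ⟨hwp, huY⟩ := h.f3s8 hNT hD hDC ctx hl hw hq hx rfl hlx
      have hu0 : w + π (v x) ≠ 0 := fun hc => hwp (P_add_eq_zero.1 hc)
      have h1 := hin w hw (hc1 rfl)
      have h2 := (hS _ hu0).1 huY
      rw [dotv_add, h1, hp] at h2
      exact absurd h2 (by decide)
  -- all elements of `C` have type S8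
  have hs8 : ∀ y ∈ C, ∃ lam w, Fn v C y lam ∧ w ≠ 0 ∧ z w ∉ Y ∧
      ∀ p, p ≠ 0 → lam (v (z p)) = 1 + (if p = w then 1 else 0) := by
    intro y hy
    obtain ⟨lam, c, w, hl, hw, hq, hc0, hc1⟩ := h.exists_fn hNT hD hDC ctx hy
    rcases f2_cases c with rfl | rfl
    · exfalso
      have hq' : ∀ p, p ≠ 0 → lam (v (z p)) = if p = w then 1 else 0 := by
        intro p hp; rw [hq p hp, zero_add]
      obtain ⟨x, hx, -⟩ := h.dedge_ser hNT hcosimple ctx hl hw hq'
      exact hno x hx
    · exact ⟨lam, w, hl, hw, hc1 rfl, hq⟩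
  -- a common label
  obtain ⟨w0, hw0, hall⟩ : ∃ w0 : P, w0 ≠ 0 ∧ ∀ y ∈ C, ∃ lam, Fn v C y lam ∧
      ∀ p, p ≠ 0 → lam (v (z p)) = 1 + (if p = w0 then 1 else 0) := by
    by_cases hCe : C.Nonempty
    · obtain ⟨y0, hy0⟩ := hCe
      obtain ⟨lam0, w0, hl0, hw0, hwX0, hq0⟩ := hs8 y0 hy0
      refine ⟨w0, hw0, fun y hy => ?_⟩
      by_cases hyy : y = y0
      · subst hyy; exact ⟨lam0, hl0, hq0⟩
      obtain ⟨lam, w, hl, hw, hwX, hq⟩ := hs8 y hy
      by_cases hww : w = w0
      · subst hww; exact ⟨lam, hl, hq⟩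
      exfalso
      have h4 := h.f4 hNT hD hDC ctx hyy hl hl0 hw hw0 hww hq hq0
      have hu0 : w + w0 ≠ 0 := fun hc => hww (P_add_eq_zero.1 hc)
      have h5 := (hS _ hu0).1 h4
      rw [dotv_add, hin w hw hwX, hin w0 hw0 hwX0] at h5
      exact absurd h5 (by decide)
    · exact ⟨a, ha, fun y hy => absurd ⟨y, hy⟩ hCe⟩
  obtain ⟨a', b', ha', hb', hab', h1, h2, h3⟩ := line_avoid w0 hw0
  apply h.wOfLine hW ctx hNT ha' hb' hab'
  · intro y hy
    obtain ⟨lam, hl, hq⟩ := hall y hy
    refine ⟨lam, hl, ?_⟩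
    have hab0 : a' + b' ≠ 0 := fun hc => hab' (P_add_eq_zero.1 hc)
    rw [hq a' ha', hq b' hb', hq _ hab0]
    exact line_sum ha' hb' hab' (Or.inr ⟨rfl, h1, h2, h3⟩)
  · intro x hx
    exact absurd hx (hno x)

end rules

end MP948082.Core
end

section
/-!
# MP_948082_co, CORE, part 6: the T-case
-/
open Set Submodule

set_option synthInstance.maxHeartbeats 400000
set_option synthInstance.maxSize 1000

namespace MP948082.Core

open MP948082

universe u

/-! ### finite facts -/

set_option maxRecDepth 100000 in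
theorem three_indep : ∀ a b c d : P, a ≠ 0 → b ≠ 0 → a ≠ b → c ≠ 0 → c ≠ a → c ≠ b → c ≠ a + b →
    dotv d a = 0 → dotv d b = 0 → dotv d c = 0 → d = 0 := by
  decide

/-- labels of the points of the T-configuration -/
def xlab (i : Fin 3) : P := fun j => if j = i then 0 else 1

def ylab (i : Fin 3) : P := Pi.single i 1

def clab : P := fun _ => 1

set_option maxRecDepth 100000 in
theorem tcase_fin : ∀ (a : P) (c : F2) (w : P),
    (∀ i, dotv a (ylab i) + c + (if ylab i = w then 1 else 0) = 0) →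
    (c = 0 → ∃ i, w = ylab i) → (c = 1 → ¬ ∃ i, w = ylab i) → w ≠ 0 →
    (∀ i j, dotv a (xlab i) + c + (if xlab i = w then 1 else 0) = 0 →
      dotv a (xlab j) + c + (if xlab j = w then 1 else 0) = 0 → i = j) ∧
    (dotv a clab + c + (if clab = w then 1 else 0) = 0 →
      ∃ i, dotv a (xlab i) + c + (if xlab i = w then 1 else 0) = 0) := by
  decide

set_option maxRecDepth 100000 in
theorem lab_cases : ∀ p : P, p ≠ 0 → (∃ i, p = ylab i) ∨ (∃ i, p = xlab i) ∨ p = clab := by
  decide

theorem ylab_inj : ∀ i j, ylab i = ylab j → i = j := by decide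
theorem xlab_inj : ∀ i j, xlab i = xlab j → i = j := by decide
theorem xlab_ne_ylab : ∀ i j, xlab i ≠ ylab j := by decide
theorem clab_ne_ylab : ∀ j, clab ≠ ylab j := by decide
theorem xlab_ne_clab : ∀ i, xlab i ≠ clab := by decide
theorem ylab_ne_zero : ∀ i, ylab i ≠ 0 := by decide
theorem xlab_ne_zero : ∀ i, xlab i ≠ 0 := by decide
theorem clab_ne_zero : clab ≠ 0 := by decide

section rules

variable {α : Type u} {V : Type*} [AddCommGroup V] [Module F2 V] [Module.Finite F2 V]
  {M : Matroid α} [M.Finite] {v : α → V} {Y C : Set α} {z : P → α} {π : V →ₗ[F2] P}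

omit [Module.Finite F2 V] [M.Finite] in
/-- A functional vanishing on `C` factors through `π`. -/
theorem Cf.factor (h : Cf M v C z π) (f : V →ₗ[F2] F2) (hf : ∀ c ∈ C, f (v c) = 0) :
    ∃ d : P, ∀ u, f u = dotv d (π u) := by
  have hker : LinearMap.ker π ≤ LinearMap.ker f := by
    rw [h.ker, span_le]
    rintro _ ⟨c, hc, rfl⟩
    exact hf c hc
  have hsurj : Function.Surjective π := by
    intro p
    by_cases hp : p = 0
    · exact ⟨0, by rw [hp, map_zero]⟩
    · exact ⟨v (z p), h.hp p hp⟩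
  obtain ⟨s, hs⟩ := LinearMap.exists_rightInverse_of_surjective π (LinearMap.range_eq_top.2 hsurj)
  have hfs : ∀ u, f u = (f ∘ₗ s) (π u) := by
    intro u
    have h1 : u - s (π u) ∈ LinearMap.ker π := by
      rw [LinearMap.mem_ker, map_sub]
      have := LinearMap.congr_fun hs (π u)
      rw [LinearMap.comp_apply, LinearMap.id_apply] at this
      rw [this, sub_self]
    have h2 := hker h1
    rw [LinearMap.mem_ker, map_sub, sub_eq_zero] at h2
    exact h2
  set g := f ∘ₗ s with hg
  refine ⟨![g (Pi.single 0 1), g (Pi.single 1 1), g (Pi.single 2 1)], fun u => ?_⟩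
  rw [hfs u]
  have hpe : π u = (π u) 0 • Pi.single 0 1 + (π u) 1 • Pi.single 1 1 + (π u) 2 • Pi.single 2 1 := by
    ext i; fin_cases i <;> simp
  conv_lhs => rw [hpe]
  rw [map_add, map_add, map_smul, map_smul, map_smul]
  simp [dotv]
  ring

/-- In the T-case `Y` is a base. -/
theorem Cf.isBaseY (hNT : SpecNT.{u}) (ctx : Ctx M v Y) (hYE : Y ⊆ M.E)
    (h : Cf M v C z π) {a b c : P} (ha : a ≠ 0) (hb : b ≠ 0) (hab : a ≠ b) (hc0 : c ≠ 0)
    (hca : c ≠ a) (hcb : c ≠ b) (hcab : c ≠ a + b)
    (hS : ∀ p, p ≠ 0 → (z p ∈ Y ↔ p = a ∨ p = b ∨ p = c)) : M.IsBase Y := by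
  have hY : Y = insert (z c) (insert (z b) (insert (z a) C)) := by
    ext e
    simp only [mem_insert_iff]
    constructor
    · intro he
      by_cases heC : e ∈ C
      · exact Or.inr (Or.inr (Or.inr heC))
      by_cases heZ : ∃ p, p ≠ 0 ∧ z p = e
      · obtain ⟨p, hp, rfl⟩ := heZ
        rcases (hS p hp).1 he with rfl | rfl | rfl
        exacts [Or.inr (Or.inr (Or.inl rfl)), Or.inr (Or.inl rfl), Or.inl rfl]
      · push Not at heZ
        exact absurd he (h.restX hNT ctx ⟨hYE he, heC, heZ⟩)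
    · rintro (rfl | rfl | rfl | he)
      exacts [(hS _ hc0).2 (Or.inr (Or.inr rfl)), (hS _ hb).2 (Or.inr (Or.inl rfl)),
        (hS _ ha).2 (Or.inl rfl), h.subY hNT ctx he]
  rw [ctx.rep.isBase_iff ctx.spanning]
  refine ⟨hYE, ?_, ?_⟩
  · -- images of the spans
    have hC := h.indep hNT ctx
    have s0 : ∀ u ∈ span F2 (v '' C), π u = 0 := fun u hu => by rw [← h.ker] at hu; exact hu
    have s1 : ∀ u ∈ span F2 (v '' (insert (z a) C)), ∃ r : F2, π u = r • a := by
      intro u hu
      rw [image_insert_eq, mem_span_insert] at hu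
      obtain ⟨r, w, hw, rfl⟩ := hu
      exact ⟨r, by rw [map_add, map_smul, h.hp a ha, s0 w hw, add_zero]⟩
    have s2 : ∀ u ∈ span F2 (v '' (insert (z b) (insert (z a) C))), ∃ r s : F2,
        π u = s • b + r • a := by
      intro u hu
      rw [image_insert_eq, mem_span_insert] at hu
      obtain ⟨s, w, hw, rfl⟩ := hu
      obtain ⟨r, hr⟩ := s1 w hw
      exact ⟨r, s, by rw [map_add, map_smul, h.hp b hb, hr]⟩
    rw [hY]
    refine ((hC.insert ?_).insert ?_).insert ?_
    · intro hu
      have := s0 _ hu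
      rw [h.hp a ha] at this
      exact ha this
    · intro hu
      obtain ⟨r, hr⟩ := s1 _ hu
      rw [h.hp b hb] at hr
      rcases f2_cases r with rfl | rfl
      · rw [zero_smul] at hr; exact hb hr
      · rw [one_smul] at hr; exact hab hr.symm
    · intro hu
      obtain ⟨r, s, hr⟩ := s2 _ hu
      rw [h.hp c hc0] at hr
      rcases f2_cases r with rfl | rfl <;> rcases f2_cases s with rfl | rfl
      · simp at hr; exact hc0 hr
      · simp at hr; exact hcb hr
      · simp at hr; exact hca hr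
      · simp at hr; exact hcab (by rw [hr, add_comm])
  · apply span_eq_top_of_forall
    intro f hf
    have hfY : ∀ e ∈ Y, f (v e) = 0 := fun e he => hf _ ⟨e, he, rfl⟩
    obtain ⟨d, hd⟩ := h.factor f (fun c hc => hfY c (h.subY hNT ctx hc))
    have hda : dotv d a = 0 := by
      have := hd (v (z a)); rw [h.hp a ha, hfY _ ((hS a ha).2 (Or.inl rfl))] at this
      exact this.symm
    have hdb : dotv d b = 0 := by
      have := hd (v (z b)); rw [h.hp b hb, hfY _ ((hS b hb).2 (Or.inr (Or.inl rfl)))] at this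
      exact this.symm
    have hdc : dotv d c = 0 := by
      have := hd (v (z c)); rw [h.hp c hc0, hfY _ ((hS c hc0).2 (Or.inr (Or.inr rfl)))] at this
      exact this.symm
    have hd0 := three_indep a b c d ha hb hab hc0 hca hcb hcab hda hdb hdc
    ext u
    rw [hd u, hd0]
    simp [dotv]

/-! ### The sets `U x` -/

/-- the basis elements with zero coefficient in `v x` -/
def Uset (rep : IsRep F2 M v) (hs : span F2 (v '' M.E) = ⊤) (hB : M.IsBase Y) (x : α) : Set α :=
  {y | ∃ hy : y ∈ Y, (rep.basis hs hB).coord ⟨y, hy⟩ (v x) = 0}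

open Classical in
/-- the labelling of a T-configuration -/
noncomputable def zT (y : Fin 3 → α) (xc : α) (x : Fin 3 → α) (p : P) : α :=
  if h : ∃ i, p = ylab i then y h.choose
  else if h : ∃ i, p = xlab i then x h.choose
  else xc

theorem zT_y (y : Fin 3 → α) (xc : α) (x : Fin 3 → α) (i : Fin 3) : zT y xc x (ylab i) = y i := by
  have h : ∃ j, ylab i = ylab j := ⟨i, rfl⟩
  rw [zT, dif_pos h, ylab_inj _ _ h.choose_spec.symm]

theorem zT_x (y : Fin 3 → α) (xc : α) (x : Fin 3 → α) (i : Fin 3) : zT y xc x (xlab i) = x i := by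
  have h1 : ¬ ∃ j, xlab i = ylab j := fun ⟨j, hj⟩ => xlab_ne_ylab i j hj
  have h : ∃ j, xlab i = xlab j := ⟨i, rfl⟩
  rw [zT, dif_neg h1, dif_pos h, xlab_inj _ _ h.choose_spec.symm]

theorem zT_c (y : Fin 3 → α) (xc : α) (x : Fin 3 → α) : zT y xc x clab = xc := by
  have h1 : ¬ ∃ j, clab = ylab j := fun ⟨j, hj⟩ => clab_ne_ylab j hj
  have h2 : ¬ ∃ j, clab = xlab j := fun ⟨j, hj⟩ => xlab_ne_clab j hj.symm
  rw [zT, dif_neg h1, dif_neg h2]

/-- data of a T-configuration -/
structure TCf (Y X : Set α) (U : α → Set α) (y : Fin 3 → α) (xc : α) (x : Fin 3 → α) : Prop where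
  inj : Function.Injective y
  hy : ∀ i, y i ∈ Y
  hxc : xc ∈ X
  hx : ∀ i, x i ∈ X
  hc : ∀ i, y i ∉ U xc
  hxy : ∀ i j, y j ∈ U (x i) ↔ i = j

/-- the projection of a T-configuration -/
noncomputable def piT (rep : IsRep F2 M v) (hs : span F2 (v '' M.E) = ⊤) (hB : M.IsBase Y)
    (y : Fin 3 → α) (hy : ∀ i, y i ∈ Y) : V →ₗ[F2] P :=
  LinearMap.pi fun i => (rep.basis hs hB).coord ⟨y i, hy i⟩

omit [Module.Finite F2 V] [M.Finite] in
theorem TCf.cf (rep : IsRep F2 M v) (hs : span F2 (v '' M.E) = ⊤) (hB : M.IsBase Y)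
    {y : Fin 3 → α} {xc : α} {x : Fin 3 → α}
    (t : TCf Y (M.E \ Y) (Uset rep hs hB) y xc x) :
    Cf M v (Y \ range y) (zT y xc x) (piT rep hs hB y t.hy) := by
  refine ⟨sdiff_subset.trans hB.subset_ground, ?_, ?_, ?_⟩
  · intro p hp
    rcases lab_cases p hp with ⟨i, rfl⟩ | ⟨i, rfl⟩ | rfl
    · rw [zT_y]; exact hB.subset_ground (t.hy i)
    · rw [zT_x]; exact (t.hx i).1
    · rw [zT_c]; exact t.hxc.1
  · ext u
    rw [rep.mem_span_subset_base hs hB sdiff_subset, LinearMap.mem_ker]
    constructor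
    · intro h0 r hr hrn
      have : r ∈ range y := by
        by_contra hc
        exact hrn ⟨hr, hc⟩
      obtain ⟨i, rfl⟩ := this
      exact congrFun h0 i
    · intro h0
      ext i
      exact h0 (y i) (t.hy i) (fun hc => hc.2 ⟨i, rfl⟩)
  · intro p hp
    rcases lab_cases p hp with ⟨i, rfl⟩ | ⟨i, rfl⟩ | rfl
    · rw [zT_y]
      ext j
      change (rep.basis hs hB).coord ⟨y j, t.hy j⟩ (v (y i)) = ylab i j
      by_cases hij : i = j
      · subst hij
        rw [rep.basis_coord_self hs hB ⟨y i, t.hy i⟩]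
        simp [ylab]
      · rw [rep.basis_coord_ne hs hB ⟨y j, t.hy j⟩ (t.hy i) (fun hc => hij (t.inj hc))]
        simp [ylab, Ne.symm hij]
    · rw [zT_x]
      ext j
      change (rep.basis hs hB).coord ⟨y j, t.hy j⟩ (v (x i)) = if j = i then 0 else 1
      by_cases hij : j = i
      · rw [if_pos hij]
        obtain ⟨_, h1⟩ := (t.hxy i j).2 hij.symm
        exact h1
      · rw [if_neg hij]
        apply f2_ne_zero
        intro h0
        exact hij ((t.hxy i j).1 ⟨t.hy j, h0⟩).symm
    · rw [zT_c]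
      ext j
      change (rep.basis hs hB).coord ⟨y j, t.hy j⟩ (v xc) = 1
      apply f2_ne_zero
      intro h0
      exact t.hc j ⟨t.hy j, h0⟩

omit [Module.Finite F2 V] [M.Finite] in
theorem coord_fn (rep : IsRep F2 M v) (hs : span F2 (v '' M.E) = ⊤) (hB : M.IsBase Y)
    {y : Fin 3 → α} {w : α} (hw : w ∈ Y) (hwy : ∀ i, w ≠ y i) :
    Fn v (Y \ range y) w ((rep.basis hs hB).coord ⟨w, hw⟩) := by
  refine ⟨⟨hw, ?_⟩, rep.basis_coord_self hs hB ⟨w, hw⟩, ?_⟩
  · rintro ⟨i, hi⟩
    exact hwy i hi.symm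
  · intro c hc hcw
    exact rep.basis_coord_ne hs hB ⟨w, hw⟩ hc.1 hcw

omit [Module.Finite F2 V] [M.Finite] in
theorem mem_Uset (rep : IsRep F2 M v) (hs : span F2 (v '' M.E) = ⊤) (hB : M.IsBase Y) {w x : α}
    (hw : w ∈ Y) : w ∈ Uset rep hs hB x ↔ (rep.basis hs hB).coord ⟨w, hw⟩ (v x) = 0 :=
  ⟨fun ⟨_, h⟩ => h, fun h => ⟨hw, h⟩⟩

/-- rule (i) -/
theorem TCf.rule1 (hNT : SpecNT.{u}) (hD : SpecDual.{u}) (hDC : SpecDualCfg.{u}) (ctx : Ctx M v Y)
    (hB : M.IsBase Y) {y : Fin 3 → α} {xc : α} {x : Fin 3 → α}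
    (t : TCf Y (M.E \ Y) (Uset ctx.rep ctx.spanning hB) y xc x) {w : α} (hw : w ∈ Y)
    (hwy : ∀ i, w ≠ y i) :
    (∀ i j, w ∈ Uset ctx.rep ctx.spanning hB (x i) → w ∈ Uset ctx.rep ctx.spanning hB (x j) →
      i = j) ∧
    (w ∈ Uset ctx.rep ctx.spanning hB xc → ∃ i, w ∈ Uset ctx.rep ctx.spanning hB (x i)) := by
  have hcf := t.cf ctx.rep ctx.spanning hB
  have hfn := coord_fn ctx.rep ctx.spanning hB hw hwy
  obtain ⟨a, c, w0, hw0, hq, hc0, hc1⟩ := hcf.F1 hNT hD hDC ctx hfn
  have hfin := tcase_fin a c w0 (by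
      intro i
      have := hq (ylab i) (ylab_ne_zero i)
      rw [zT_y, ctx.rep.basis_coord_ne ctx.spanning hB ⟨w, hw⟩ (t.hy i)
        (fun hc => hwy i hc.symm)] at this
      exact this.symm) (by
      intro hc
      have h1 := hc0 hc
      rcases lab_cases w0 hw0 with ⟨i, rfl⟩ | ⟨i, rfl⟩ | rfl
      · exact ⟨i, rfl⟩
      · rw [zT_x] at h1; exact absurd h1 (t.hx i).2
      · rw [zT_c] at h1; exact absurd h1 t.hxc.2) (by
      rintro hc ⟨i, rfl⟩
      have h1 := hc1 hc
      rw [zT_y] at h1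
      exact h1 (t.hy i)) hw0
  have hx : ∀ i, w ∈ Uset ctx.rep ctx.spanning hB (x i) ↔
      dotv a (xlab i) + c + (if xlab i = w0 then 1 else 0) = 0 := by
    intro i
    rw [mem_Uset _ _ _ hw, ← hq (xlab i) (xlab_ne_zero i), zT_x]
  have hc : w ∈ Uset ctx.rep ctx.spanning hB xc ↔
      dotv a clab + c + (if clab = w0 then 1 else 0) = 0 := by
    rw [mem_Uset _ _ _ hw, ← hq clab clab_ne_zero, zT_c]
  constructor
  · intro i j hi hj
    exact hfin.1 i j ((hx i).1 hi) ((hx j).1 hj)
  · intro h1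
    obtain ⟨i, hi⟩ := hfin.2 (hc.1 h1)
    exact ⟨i, (hx i).2 hi⟩

theorem dotv_ones_y : ∀ i, dotv clab (ylab i) = 1 := by decide
theorem dotv_ones_x : ∀ i, dotv clab (xlab i) = 0 := by decide
theorem dotv_ones_c : dotv clab clab = 1 := by decide
theorem xlab_add : ∀ i j, i ≠ j → ∃ k, xlab i + xlab j = xlab k := by decide

/-- normal form of an element of `U xc` -/
theorem TCf.normal (hNT : SpecNT.{u}) (hD : SpecDual.{u}) (hDC : SpecDualCfg.{u})
    (ctx : Ctx M v Y) (hB : M.IsBase Y) {y : Fin 3 → α} {xc : α} {x : Fin 3 → α}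
    (t : TCf Y (M.E \ Y) (Uset ctx.rep ctx.spanning hB) y xc x) {w : α} (hw : w ∈ Y)
    (hwy : ∀ i, w ≠ y i) (hwc : w ∈ Uset ctx.rep ctx.spanning hB xc) {i : Fin 3}
    (hwi : w ∈ Uset ctx.rep ctx.spanning hB (x i)) :
    ∃ lam, Fn v (Y \ range y) w lam ∧
      ∀ p, p ≠ 0 → lam (v (zT y xc x p)) = 1 + if p = xlab i then 1 else 0 := by
  have hcf := t.cf ctx.rep ctx.spanning hB
  have hfn := coord_fn ctx.rep ctx.spanning hB hw hwy
  set lam := (ctx.rep.basis ctx.spanning hB).coord ⟨w, hw⟩ with hlam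
  set π := piT ctx.rep ctx.spanning hB y t.hy with hπ
  refine ⟨lam + dotL clab ∘ₗ π, ⟨hfn.mem, ?_, ?_⟩, ?_⟩
  · rw [LinearMap.add_apply, LinearMap.comp_apply, hcf.pi_zero hfn.mem, hfn.one]
    simp [dotv]
  · intro c hc hcw
    rw [LinearMap.add_apply, LinearMap.comp_apply, hcf.pi_zero hc, hfn.zero c hc hcw]
    simp [dotv]
  · intro p hp
    rw [LinearMap.add_apply, LinearMap.comp_apply, hcf.hp p hp, dotL_apply]
    rcases lab_cases p hp with ⟨j, rfl⟩ | ⟨j, rfl⟩ | rfl
    · rw [zT_y, dotv_ones_y, if_neg (xlab_ne_ylab i j).symm, hlam,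
        ctx.rep.basis_coord_ne ctx.spanning hB ⟨w, hw⟩ (t.hy j) (fun hc => hwy j hc.symm)]
      decide
    · rw [zT_x, dotv_ones_x]
      by_cases hij : j = i
      · subst hij
        rw [if_pos rfl, (mem_Uset _ _ _ hw).1 hwi]
        decide
      · rw [if_neg (fun hc => hij (xlab_inj _ _ hc))]
        have : lam (v (x j)) ≠ 0 := by
          intro h0
          exact hij ((t.rule1 hNT hD hDC ctx hB hw hwy).1 j i ((mem_Uset _ _ _ hw).2 h0) hwi)
        rw [f2_ne_zero this]
    · rw [zT_c, dotv_ones_c, if_neg (xlab_ne_clab i).symm, (mem_Uset _ _ _ hw).1 hwc,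
        zero_add, add_zero]

/-- The T-rules hold. -/
theorem tRules (hNT : SpecNT.{u}) (hD : SpecDual.{u}) (hDC : SpecDualCfg.{u}) (ctx : Ctx M v Y)
    (hB : M.IsBase Y) : TRules Y (M.E \ Y) (Uset ctx.rep ctx.spanning hB) := by
  intro y xc x hinj hy hxc hx hc hxy
  have t : TCf Y (M.E \ Y) (Uset ctx.rep ctx.spanning hB) y xc x := ⟨hinj, hy, hxc, hx, hc, hxy⟩
  have hcf := t.cf ctx.rep ctx.spanning hB
  refine ⟨fun w hw hwy => t.rule1 hNT hD hDC ctx hB hw hwy, ?_, ?_⟩
  · intro w hwc w' hwc' i j hwi hwj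
    by_contra hij
    have hw : w ∈ Y := by obtain ⟨h1, -⟩ := hwc; exact h1
    have hw' : w' ∈ Y := by obtain ⟨h1, -⟩ := hwc'; exact h1
    have hwy : ∀ k, w ≠ y k := by
      rintro k rfl; exact hc k hwc
    have hwy' : ∀ k, w' ≠ y k := by
      rintro k rfl; exact hc k hwc'
    have hww : w ≠ w' := by
      rintro rfl
      exact hij ((t.rule1 hNT hD hDC ctx hB hw hwy).1 i j hwi hwj)
    obtain ⟨lam, hl, hq⟩ := t.normal hNT hD hDC ctx hB hw hwy hwc hwi
    obtain ⟨lam', hl', hq'⟩ := t.normal hNT hD hDC ctx hB hw' hwy' hwc' hwj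
    have h4 := hcf.f4 hNT hD hDC ctx hww hl hl' (xlab_ne_zero i) (xlab_ne_zero j)
      (fun hc => hij (xlab_inj _ _ hc)) hq hq'
    obtain ⟨k, hk⟩ := xlab_add i j hij
    rw [hk, zT_x] at h4
    exact (hx k).2 h4
  · intro x' hx' i j hi hj
    by_cases h1 : x' = xc
    · subst h1; exact absurd hi (hc i)
    by_cases h2 : ∃ k, x' = x k
    · obtain ⟨k, rfl⟩ := h2
      exact ((hxy k i).1 hi).symm.trans ((hxy k j).1 hj)
    push Not at h2
    have hR : Rest M (Y \ range y) (zT y xc x) x' := by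
      refine ⟨hx'.1, fun hc => hx'.2 hc.1, fun p hp => ?_⟩
      rcases lab_cases p hp with ⟨k, rfl⟩ | ⟨k, rfl⟩ | rfl
      · rw [zT_y]; rintro rfl; exact hx'.2 (hy k)
      · rw [zT_x]; exact (h2 k).symm
      · rw [zT_c]; exact (Ne.symm h1)
    have hp0 := hcf.rest_ne_zero hNT ctx hR
    have hpX := hcf.swapX hNT ctx hR
    set p := piT ctx.rep ctx.spanning hB y t.hy (v x') with hp
    have hpi : ∀ k, y k ∈ Uset ctx.rep ctx.spanning hB x' → p k = 0 := by
      intro k hk
      exact (mem_Uset _ _ _ (hy k)).1 hk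
    by_contra hij
    rcases lab_cases p hp0 with ⟨k, hk⟩ | ⟨k, hk⟩ | hk
    · rw [hk, zT_y] at hpX
      exact hpX (hy k)
    · have e1 := hpi i hi
      have e2 := hpi j hj
      rw [hk] at e1 e2
      have : ∀ i j k, xlab k i = 0 → xlab k j = 0 → i = j := by decide
      exact hij (this i j k e1 e2)
    · have e1 := hpi i hi
      rw [hk] at e1
      exact absurd e1 (by simp [clab])

end rules

end MP948082.Core
end

section
/-!
# MP_948082_co, CORE, part 7: from the T-rules to triple fans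
-/
open Set Submodule

set_option synthInstance.maxHeartbeats 400000
set_option synthInstance.maxSize 1000

namespace MP948082.Core

open MP948082

universe u

set_option maxRecDepth 100000 in
theorem trip_fin : ∀ a b c : P, a ≠ 0 → b ≠ 0 → a ≠ b → c ≠ 0 → c ≠ a → c ≠ b → c ≠ a + b →
    (a + b + c ≠ 0 ∧ a + b + c ≠ a ∧ a + b + c ≠ b ∧ a + b + c ≠ c) ∧
    ∀ i, (a + b + c + ![a, b, c] i ≠ 0 ∧ a + b + c + ![a, b, c] i ≠ a ∧
      a + b + c + ![a, b, c] i ≠ b ∧ a + b + c + ![a, b, c] i ≠ c) := by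
  decide

set_option maxRecDepth 100000 in
theorem trip_inj : ∀ a b c : P, a ≠ b → c ≠ a → c ≠ b → ∀ i j, ![a, b, c] i = ![a, b, c] j →
    i = j := by
  decide

section

variable {α : Type u} {V : Type*} [AddCommGroup V] [Module F2 V] [Module.Finite F2 V]
  {M : Matroid α} [M.Finite] {v : α → V} {Y C : Set α} {z : P → α} {π : V →ₗ[F2] P}

omit [Module.Finite F2 V] [M.Finite] in
theorem cols_distinct (hsimple : IsSimple M) (rep : IsRep F2 M v)
    (hs : span F2 (v '' M.E) = ⊤) (hB : M.IsBase Y) {x x' : α} (hx : x ∈ M.E) (hx' : x' ∈ M.E)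
    (h : Uset rep hs hB x = Uset rep hs hB x') : x = x' := by
  by_contra hne
  have hv : v x = v x' := by
    apply (rep.basis hs hB).ext_elem
    intro r
    apply F2_eq_of_ne_zero_iff
    have h1 : (r : α) ∈ Uset rep hs hB x ↔ (r : α) ∈ Uset rep hs hB x' := by rw [h]
    rw [mem_Uset rep hs hB r.2, mem_Uset rep hs hB r.2] at h1
    exact not_congr h1
  have h1 := rep.linearIndepOn (hsimple x hx x' hx')
  exact hne (h1.injOn (mem_insert _ _) (mem_insert_of_mem _ rfl) hv)

omit [Module.Finite F2 V] [M.Finite] in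
theorem rows_distinct (hcosimple : IsSimple M✶) (rep : IsRep F2 M v)
    (hs : span F2 (v '' M.E) = ⊤) (hB : M.IsBase Y) {y y' : α} (hy : y ∈ Y) (hy' : y' ∈ Y)
    (h : ∀ x ∈ M.E \ Y, (y ∈ Uset rep hs hB x ↔ y' ∈ Uset rep hs hB x)) : y = y' := by
  by_contra hne
  have hyE := hB.subset_ground hy
  have hyE' := hB.subset_ground hy'
  have h1 : M✶.Indep {y, y'} := hcosimple y hyE y' hyE'
  have h2 : M.Spanning (M.E \ {y, y'}) := by
    rw [← Matroid.coindep_iff_compl_spanning
      (insert_subset hyE (singleton_subset_iff.2 hyE'))]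
    exact h1
  rw [rep.spanning_iff hs sdiff_subset] at h2
  set f := (rep.basis hs hB).coord ⟨y, hy⟩ + (rep.basis hs hB).coord ⟨y', hy'⟩ with hf
  have h3 : f = 0 := by
    apply eq_zero_of_span_eq_top h2
    rintro _ ⟨e, he, rfl⟩
    have hey : e ≠ y := fun hc => he.2 (Or.inl hc)
    have hey' : e ≠ y' := fun hc => he.2 (Or.inr hc)
    rw [hf, LinearMap.add_apply]
    by_cases heY : e ∈ Y
    · rw [rep.basis_coord_ne hs hB ⟨y, hy⟩ heY hey, rep.basis_coord_ne hs hB ⟨y', hy'⟩ heY hey',
        add_zero]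
    · have h4 := h e ⟨he.1, heY⟩
      rw [mem_Uset rep hs hB hy, mem_Uset rep hs hB hy'] at h4
      rw [F2_eq_of_ne_zero_iff (not_congr h4)]
      have : ∀ t : F2, t + t = 0 := by decide
      exact this _
  have h5 := LinearMap.congr_fun h3 (v y)
  rw [hf, LinearMap.add_apply, rep.basis_coord_self hs hB ⟨y, hy⟩,
    rep.basis_coord_ne hs hB ⟨y', hy'⟩ hy hne, add_zero] at h5
  exact one_ne_zero h5

/-- the original configuration gives a T-configuration -/
theorem Cf.exists_tcf (ctx : Ctx M v Y) (hNT : SpecNT.{u}) (hB : M.IsBase Y)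
    (h : Cf M v C z π) {a b c : P} (ha : a ≠ 0) (hb : b ≠ 0) (hab : a ≠ b) (hc0 : c ≠ 0)
    (hca : c ≠ a) (hcb : c ≠ b) (hcab : c ≠ a + b)
    (hS : ∀ p, p ≠ 0 → (z p ∈ Y ↔ p = a ∨ p = b ∨ p = c)) :
    ∃ y xc x, TCf Y (M.E \ Y) (Uset ctx.rep ctx.spanning hB) y xc x := by
  obtain ⟨⟨t0, t1, t2, t3⟩, tx⟩ := trip_fin a b c ha hb hab hc0 hca hcb hcab
  set s : Fin 3 → P := ![a, b, c] with hsdef
  have hs0 : ∀ i, s i ≠ 0 := by intro i; fin_cases i; exacts [ha, hb, hc0]
  have hsum : s 0 + s 1 + s 2 = a + b + c := rfl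
  have hyY : ∀ i, z (s i) ∈ Y := by
    intro i
    rw [hS _ (hs0 i)]
    fin_cases i
    exacts [Or.inl rfl, Or.inr (Or.inl rfl), Or.inr (Or.inr rfl)]
  have hcoord : ∀ j, ∃ d : P, (∀ p, p ≠ 0 → (ctx.rep.basis ctx.spanning hB).coord
      ⟨z (s j), hyY j⟩ (v (z p)) = dotv d p) ∧ ∀ k, dotv d (s k) = if k = j then 1 else 0 := by
    intro j
    obtain ⟨d, hd⟩ := h.factor ((ctx.rep.basis ctx.spanning hB).coord ⟨z (s j), hyY j⟩) (by
      intro c' hc'
      exact ctx.rep.basis_coord_ne ctx.spanning hB ⟨z (s j), hyY j⟩ (h.subY hNT ctx hc')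
        (fun hc => h.z_ne (hs0 j) hc' (show c' = z (s j) from hc).symm))
    refine ⟨d, fun p hp => by rw [hd, h.hp p hp], fun k => ?_⟩
    have h1 := hd (v (z (s k)))
    rw [h.hp _ (hs0 k)] at h1
    rw [← h1]
    by_cases hkj : k = j
    · subst hkj
      rw [if_pos rfl, ctx.rep.basis_coord_self ctx.spanning hB ⟨z (s k), hyY k⟩]
    · rw [if_neg hkj, ctx.rep.basis_coord_ne ctx.spanning hB ⟨z (s j), hyY j⟩ (hyY k)]
      intro hc
      exact hkj (trip_inj a b c hab hca hcb _ _ (h.z_inj (hs0 k) (hs0 j) hc))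
  refine ⟨fun i => z (s i), z (a + b + c), fun i => z (a + b + c + s i), ?_, hyY, ?_, ?_, ?_, ?_⟩
  · intro i j hij
    exact trip_inj a b c hab hca hcb _ _ (h.z_inj (hs0 i) (hs0 j) hij)
  · refine ⟨h.hz _ t0, fun hc => ?_⟩
    rcases (hS _ t0).1 hc with h1 | h1 | h1
    exacts [t1 h1, t2 h1, t3 h1]
  · intro i
    obtain ⟨u0, u1, u2, u3⟩ := tx i
    refine ⟨h.hz _ u0, fun hc => ?_⟩
    rcases (hS _ u0).1 hc with h1 | h1 | h1
    exacts [u1 h1, u2 h1, u3 h1]
  · intro j hc
    obtain ⟨d, hd, hdk⟩ := hcoord j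
    rw [mem_Uset _ _ _ (hyY j), hd _ t0, ← hsum, dotv_add, dotv_add, hdk, hdk, hdk] at hc
    fin_cases j <;> simp at hc
  · intro i j
    obtain ⟨d, hd, hdk⟩ := hcoord j
    obtain ⟨u0, -⟩ := tx i
    change z (s j) ∈ _ ↔ _
    rw [mem_Uset _ _ _ (hyY j), hd _ u0, dotv_add, ← hsum, dotv_add, dotv_add, hdk, hdk, hdk, hdk]
    fin_cases i <;> fin_cases j <;> simp <;> decide

omit [Module.Finite F2 V] [M.Finite] in
/-- from the combinatorial structure to `IsFan`. -/
theorem isFan_of (rep : IsRep F2 M v) (hs : span F2 (v '' M.E) = ⊤) (hB : M.IsBase Y)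
    {m : Fin 3 → ℕ} {ε δ : Bool} {φ : FanElt m ε δ → α} (hinj : Function.Injective φ)
    (hY : Y = {a | (∃ i j, φ (.y i j) = a) ∨ (∃ h, φ (.y0 h) = a)})
    (hX : M.E \ Y = {a | (∃ i j, φ (.x i j) = a) ∨ (∃ h, φ (.x0 h) = a)})
    (hU : ∀ i j, Uset rep hs hB (φ (.x i j)) =
      {a | ∃ j' : Fin (m i), (j' : ℕ) ≤ (j : ℕ) ∧ φ (.y i j') = a})
    (hU0 : ∀ h, Uset rep hs hB (φ (.x0 h)) = ∅) : IsFan m ε δ M := by
  classical
  have hyY : ∀ i j, φ (.y i j) ∈ Y := fun i j => by rw [hY]; exact Or.inl ⟨i, j, rfl⟩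
  have hy0Y : ∀ h, φ (.y0 h) ∈ Y := fun h => by rw [hY]; exact Or.inr ⟨h, rfl⟩
  have hxX : ∀ i j, φ (.x i j) ∈ M.E \ Y := fun i j => by rw [hX]; exact Or.inl ⟨i, j, rfl⟩
  have hx0X : ∀ h, φ (.x0 h) ∈ M.E \ Y := fun h => by rw [hX]; exact Or.inr ⟨h, rfl⟩
  have hrange : range φ = M.E := by
    ext e
    constructor
    · rintro ⟨f, rfl⟩
      cases f with
      | y i j => exact hB.subset_ground (hyY i j)
      | x i j => exact (hxX i j).1
      | x0 h => exact (hx0X h).1
      | y0 h => exact hB.subset_ground (hy0Y h)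
    · intro he
      by_cases heY : e ∈ Y
      · rw [hY] at heY
        rcases heY with ⟨i, j, rfl⟩ | ⟨h, rfl⟩
        exacts [⟨_, rfl⟩, ⟨_, rfl⟩]
      · have : e ∈ M.E \ Y := ⟨he, heY⟩
        rw [hX] at this
        rcases this with ⟨i, j, rfl⟩ | ⟨h, rfl⟩
        exacts [⟨_, rfl⟩, ⟨_, rfl⟩]
  refine ⟨φ, hinj, hrange, ?_⟩
  let β : FanBasis m δ → Y := fun s => match s with
    | Sum.inl ⟨i, j⟩ => ⟨φ (.y i j), hyY i j⟩
    | Sum.inr ⟨_, h⟩ => ⟨φ (.y0 h), hy0Y h⟩
  have hβl : ∀ i j, β (Sum.inl ⟨i, j⟩) = ⟨φ (.y i j), hyY i j⟩ := fun i j => rfl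
  have hβr : ∀ h, β (Sum.inr ⟨(), h⟩) = ⟨φ (.y0 h), hy0Y h⟩ := fun h => rfl
  have hβs : Function.Surjective β := by
    rintro ⟨e, he⟩
    have he' := he
    rw [hY] at he'
    rcases he' with ⟨i, j, rfl⟩ | ⟨h, rfl⟩
    · exact ⟨Sum.inl ⟨i, j⟩, rfl⟩
    · exact ⟨Sum.inr ⟨(), h⟩, rfl⟩
  let ψ : V →ₗ[F2] (FanBasis m δ → F2) := LinearMap.pi fun s => (rep.basis hs hB).coord (β s)
  have hψinj : Function.Injective ψ := by
    intro u w huw
    apply (rep.basis hs hB).ext_elem
    intro r
    obtain ⟨s, rfl⟩ := hβs r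
    exact congrFun huw s
  have hψ : ∀ e, ψ (v (φ e)) = fanVec m ε δ e := by
    intro e
    ext s
    change (rep.basis hs hB).coord (β s) (v (φ e)) = fanVec m ε δ e s
    cases e with
    | y i j =>
      rcases s with ⟨i', j'⟩ | ⟨_, h⟩
      · rw [hβl]
        by_cases hij : (⟨i, j⟩ : Σ i : Fin 3, Fin (m i)) = ⟨i', j'⟩
        · cases hij
          rw [rep.basis_coord_self hs hB ⟨φ (.y i j), hyY i j⟩]
          simp [fanVec]
        · rw [rep.basis_coord_ne hs hB ⟨φ (.y i' j'), hyY i' j'⟩ (hyY i j)]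
          · simp [fanVec, Pi.single_apply, Ne.symm hij]
          · intro hc
            have := hinj hc
            injection this with h1 h2
            subst h1
            exact hij (by rw [eq_of_heq h2])
      · have : β (Sum.inr ⟨(), h⟩) = _ := hβr h
        rw [show (⟨_, h⟩ : {_u : Unit // δ = true}) = ⟨(), h⟩ from rfl, this,
          rep.basis_coord_ne hs hB ⟨φ (.y0 h), hy0Y h⟩ (hyY i j)]
        · simp [fanVec, Pi.single_apply]
        · intro hc
          have := hinj hc
          injection this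
    | y0 h =>
      rcases s with ⟨i', j'⟩ | ⟨_, h'⟩
      · rw [hβl, rep.basis_coord_ne hs hB ⟨φ (.y i' j'), hyY i' j'⟩ (hy0Y h)]
        · simp [fanVec, Pi.single_apply]
        · intro hc
          have := hinj hc
          injection this
      · have : β (Sum.inr ⟨(), h'⟩) = _ := hβr h'
        rw [show (⟨_, h'⟩ : {_u : Unit // δ = true}) = ⟨(), h'⟩ from rfl, this,
          rep.basis_coord_self hs hB ⟨φ (.y0 h'), hy0Y h'⟩]
        simp [fanVec]
    | x0 h =>
      have h1 : (rep.basis hs hB).coord (β s) (v (φ (.x0 h))) ≠ 0 := by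
        intro hc
        have : (β s : α) ∈ Uset rep hs hB (φ (.x0 h)) := ⟨(β s).2, hc⟩
        rw [hU0] at this
        exact this
      rw [f2_ne_zero h1]
      rfl
    | x i j =>
      have key : (rep.basis hs hB).coord (β s) (v (φ (.x i j))) = 0 ↔
          (β s : α) ∈ Uset rep hs hB (φ (.x i j)) := (mem_Uset rep hs hB (β s).2).symm
      rw [hU] at key
      rcases s with ⟨i', j'⟩ | ⟨_, h'⟩
      · change _ = if i' = i ∧ (j' : ℕ) ≤ (j : ℕ) then 0 else 1
        split_ifs with hcond
        · obtain ⟨rfl, h2⟩ := hcond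
          exact key.2 ⟨j', h2, rfl⟩
        · apply f2_ne_zero
          intro hc
          obtain ⟨j'', hj'', hφ⟩ := key.1 hc
          have := hinj hφ
          injection this with h1 h2
          subst h1
          rw [eq_of_heq h2] at hj''
          exact hcond ⟨rfl, hj''⟩
      · change _ = 1
        apply f2_ne_zero
        intro hc
        obtain ⟨j'', hj'', hφ⟩ := key.1 hc
        have := hinj hφ
        injection this
  intro I
  have hIE : φ '' I ⊆ M.E := by rw [← hrange]; exact image_subset_range _ _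
  rw [rep _ hIE]
  have h1 : LinearIndepOn F2 v (φ '' I) ↔ LinearIndepOn F2 (v ∘ φ) I :=
    ⟨fun h => h.comp_of_image hinj.injOn, fun h => h.image_of_comp φ v⟩
  rw [h1]
  have h2 : LinearIndepOn F2 (v ∘ φ) I ↔ LinearIndepOn F2 (ψ ∘ (v ∘ φ)) I :=
    ⟨fun h => h.map_injOn ψ hψinj.injOn, fun h => h.of_comp ψ⟩
  rw [h2]
  exact linearIndepOn_congr fun e _ => hψ e

end

end MP948082.Core
end

section
/-!
# MP_948082_co, CORE, part 8: the T-case, conclusion, and the small case (dual)
-/
open Set Submodule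

set_option synthInstance.maxHeartbeats 400000
set_option synthInstance.maxSize 1000

namespace MP948082.Core

open MP948082

universe u

set_option maxRecDepth 100000 in
/-- two labels `ylab j, ylab k` and the third one -/
theorem third_lab : ∀ k : Fin 3, ∃ i j : Fin 3, i ≠ j ∧ i ≠ k ∧ j ≠ k ∧
    ylab i + ylab j = xlab k ∧ ylab i ≠ ylab j ∧
    ∀ p : P, p k = 1 → dotv (cr (ylab i) (ylab j)) p = 1 := by
  decide

section

variable {α : Type u} {n : ℕ}
  {M : Matroid α} [M.Finite] {v : α → (Fin n → F2)} {Y C : Set α} {z : P → α}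
  {π : (Fin n → F2) →ₗ[F2] P}

/-- A T-configuration with an arm of length one gives type W. -/
theorem TCf.wOfShort (hNT : SpecNT.{u}) (hW : SpecW.{u}) (ctx : Ctx M v Y)
    (hB : M.IsBase Y) {y : Fin 3 → α} {xc : α} {x : Fin 3 → α}
    (t : TCf Y (M.E \ Y) (Uset ctx.rep ctx.spanning hB) y xc x) (k : Fin 3)
    (hk : Uset ctx.rep ctx.spanning hB (x k) = {y k})
    (hk2 : ∀ x' ∈ M.E \ Y, y k ∈ Uset ctx.rep ctx.spanning hB x' → x' = x k) : WType M := by
  have hcf := t.cf ctx.rep ctx.spanning hB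
  obtain ⟨i, j, hij, hik, hjk, hsum, hne, hdot⟩ := third_lab k
  apply hcf.wOfLine hW ctx hNT (ylab_ne_zero i) (ylab_ne_zero j) hne
  · intro w hw
    have hwy : ∀ l, w ≠ y l := fun l hc => hw.2 ⟨l, hc.symm⟩
    refine ⟨_, coord_fn ctx.rep ctx.spanning hB hw.1 hwy, ?_⟩
    rw [hsum, zT_y, zT_y, zT_x,
      ctx.rep.basis_coord_ne ctx.spanning hB ⟨w, hw.1⟩ (t.hy i) (fun hc => hwy i hc.symm),
      ctx.rep.basis_coord_ne ctx.spanning hB ⟨w, hw.1⟩ (t.hy j) (fun hc => hwy j hc.symm),
      zero_add, zero_add]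
    apply f2_ne_zero
    intro hc
    have : w ∈ Uset ctx.rep ctx.spanning hB (x k) := ⟨hw.1, hc⟩
    rw [hk] at this
    exact hwy k this
  · intro x' hx'
    apply hdot
    apply f2_ne_zero
    intro hc
    have hx'X : x' ∈ M.E \ Y := by
      refine ⟨hx'.1, fun hY => ?_⟩
      have : x' ∈ range y := by
        by_contra hr
        exact hx'.2.1 ⟨hY, hr⟩
      obtain ⟨l, rfl⟩ := this
      exact hx'.2.2 (ylab l) (ylab_ne_zero l) (zT_y y xc x l)
    have : x' = x k := hk2 x' hx'X ⟨t.hy k, hc⟩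
    exact hx'.2.2 (xlab k) (xlab_ne_zero k) ((zT_x y xc x k).trans this.symm)

/-- **T-case**. -/
theorem Cf.caseT (hNT : SpecNT.{u}) (hD : SpecDual.{u}) (hDC : SpecDualCfg.{u})
    (hW : SpecW.{u}) (hTC : SpecTComb.{u}) (hsimple : IsSimple M) (hcosimple : IsSimple M✶)
    (ctx : Ctx M v Y) (hYE : Y ⊆ M.E)
    (h : Cf M v C z π) {a b c : P} (ha : a ≠ 0) (hb : b ≠ 0) (hab : a ≠ b) (hc0 : c ≠ 0)
    (hca : c ≠ a) (hcb : c ≠ b) (hcab : c ≠ a + b)
    (hS : ∀ p, p ≠ 0 → (z p ∈ Y ↔ p = a ∨ p = b ∨ p = c)) :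
    WType M ∨ IsTripleFan 2 M := by
  have hB := h.isBaseY hNT ctx hYE ha hb hab hc0 hca hcb hcab hS
  obtain ⟨y, xc, x, t⟩ := h.exists_tcf ctx hNT hB ha hb hab hc0 hca hcb hcab hS
  obtain ⟨m, ε, δ, φ, hm, hinj, hY, hX, hU, hU0⟩ := hTC α Y (M.E \ Y)
    (Uset ctx.rep ctx.spanning hB) (M.ground_finite.subset hYE)
    (M.ground_finite.subset sdiff_subset) disjoint_sdiff_right
    (fun x _ e he => by obtain ⟨h1, -⟩ := he; exact h1)
    (tRules hNT hD hDC ctx hB)
    (fun x hx x' hx' hxx => cols_distinct hsimple ctx.rep ctx.spanning hB hx.1 hx'.1 hxx)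
    (fun y hy y' hy' hyy => rows_distinct hcosimple ctx.rep ctx.spanning hB hy hy' hyy)
    ⟨y, xc, x, t.inj, t.hy, t.hxc, t.hx, t.hc, t.hxy⟩
  by_cases hall : ∀ i, 2 ≤ m i
  · right
    exact ⟨m, ε, δ, hall, isFan_of ctx.rep ctx.spanning hB hinj hY hX hU hU0⟩
  left
  push Not at hall
  obtain ⟨i0, hi0⟩ := hall
  have hm1 : m i0 = 1 := by have := hm i0; omega
  -- description of the `y k` and `x k`
  have hyk : ∀ k, ∃ i j, φ (.y i j) = y k := by
    intro k
    have h1 := t.hy k
    rw [hY] at h1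
    rcases h1 with ⟨i, j, hj⟩ | ⟨hh, hj⟩
    · exact ⟨i, j, hj⟩
    · exfalso
      have h2 := (t.hxy k k).2 rfl
      have h3 := t.hx k
      rw [hX] at h3
      rcases h3 with ⟨i', j', h4⟩ | ⟨h', h4⟩
      · rw [← h4, hU] at h2
        obtain ⟨j'', -, h5⟩ := h2
        rw [← hj] at h5
        have := hinj h5
        injection this
      · rw [← h4, hU0] at h2
        exact h2
  choose ai aj haj using hyk
  -- if `y k ∈ U x'` then `x'` is in the same arm, further out
  have hmem : ∀ x' ∈ M.E \ Y, ∀ i j, φ (.y i j) ∈ Uset ctx.rep ctx.spanning hB x' →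
      ∃ j' : Fin (m i), φ (.x i j') = x' ∧ (j : ℕ) ≤ j' := by
    intro x' hx' i j hin
    rw [hX] at hx'
    rcases hx' with ⟨i', j', h4⟩ | ⟨h', h4⟩
    · rw [← h4, hU] at hin
      obtain ⟨j'', hle, h5⟩ := hin
      have := hinj h5
      injection this with e1 e2
      subst e1
      rw [eq_of_heq e2] at hle
      exact ⟨j', h4, hle⟩
    · rw [← h4, hU0] at hin
      exact absurd hin (by simp)
  have hUmem : ∀ i (j j' : Fin (m i)), (j : ℕ) ≤ j' →
      φ (.y i j) ∈ Uset ctx.rep ctx.spanning hB (φ (.x i j')) := by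
    intro i j j' hle
    rw [hU]
    exact ⟨j, hle, rfl⟩
  have harm : Function.Injective ai := by
    intro k l hkl
    -- wlog by comparing positions
    have key : ∀ k l, ai k = ai l → (aj k : ℕ) ≤ (aj l : ℕ) → k = l := by
      intro k l hkl hle
      have h1 : φ (.y (ai l) (aj l)) ∈ Uset ctx.rep ctx.spanning hB (x l) := by
        rw [haj l]; exact (t.hxy l l).2 rfl
      obtain ⟨j', hj', hle'⟩ := hmem (x l) (t.hx l) _ _ h1
      have h2 : y k ∈ Uset ctx.rep ctx.spanning hB (x l) := by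
        rw [← haj k, ← hj']
        have hlt : (aj k : ℕ) < m (ai l) := by rw [← hkl]; exact (aj k).2
        have e1 : φ (.y (ai k) (aj k)) = φ (.y (ai l) ⟨aj k, hlt⟩) := by
          congr 1
          have : ∀ (i i' : Fin 3) (j : Fin (m i)) (j' : Fin (m i')), i = i' → (j : ℕ) = j' →
              (FanElt.y i j : FanElt m ε δ) = FanElt.y i' j' := by
            rintro i _ j j' rfl hj
            rw [Fin.ext hj]
          exact this _ _ _ _ hkl rfl
        rw [e1]
        apply hUmem
        exact hle.trans hle'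
      exact ((t.hxy l k).1 h2).symm
    rcases le_total (aj k : ℕ) (aj l : ℕ) with hle | hle
    · exact key k l hkl hle
    · exact (key l k hkl.symm hle).symm
  obtain ⟨k, hk⟩ := (Finite.injective_iff_surjective.1 harm) i0
  subst hk
  have hsub : ∀ j j' : Fin (m (ai k)), j = j' := by
    intro j j'
    apply Fin.ext
    have h1 := j.2; have h2 := j'.2
    omega
  apply t.wOfShort hNT hW ctx hB k
  · -- `U (x k) = {y k}`
    have h1 : φ (.y (ai k) (aj k)) ∈ Uset ctx.rep ctx.spanning hB (x k) := by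
      rw [haj k]; exact (t.hxy k k).2 rfl
    obtain ⟨j', hj', hle'⟩ := hmem (x k) (t.hx k) _ _ h1
    rw [← hj', hU]
    ext e
    constructor
    · rintro ⟨j'', -, rfl⟩
      rw [hsub j'' (aj k), haj k]; rfl
    · intro he
      rw [mem_singleton_iff] at he
      rw [he, ← haj k]
      exact ⟨aj k, hle', rfl⟩
  · intro x' hx' hin
    rw [← haj k] at hin
    obtain ⟨j1, hj1, -⟩ := hmem x' hx' _ _ hin
    have h1 : φ (.y (ai k) (aj k)) ∈ Uset ctx.rep ctx.spanning hB (x k) := by
      rw [haj k]; exact (t.hxy k k).2 rfl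
    obtain ⟨j', hj', -⟩ := hmem (x k) (t.hx k) _ _ h1
    rw [← hj1, ← hj', hsub j1 j']

end

end MP948082.Core
end

section
/-!
# MP_948082_co, CORE: the structure theorem
-/
open Set Submodule

set_option synthInstance.maxHeartbeats 400000
set_option synthInstance.maxSize 1000

namespace MP948082.Core

open MP948082

universe u

/-! ### finite facts -/

set_option maxRecDepth 100000 in
theorem four_fin : ∀ a b c p : P, a ≠ 0 → b ≠ 0 → a ≠ b → c ≠ 0 → c ≠ a → c ≠ b → c ≠ a + b →
    (dotv (cr (a + b) (a + c)) p = 1 ↔ (p = a ∨ p = b ∨ p = c ∨ p = a + b + c)) := by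
  decide

set_option maxRecDepth 100000 in
theorem seven_fin : ∀ a b c p : P, a ≠ 0 → b ≠ 0 → a ≠ b → c ≠ 0 → c ≠ a → c ≠ b → c ≠ a + b →
    p ≠ 0 → (p = a ∨ p = b ∨ p = c ∨ p = a + b ∨ p = a + c ∨ p = b + c ∨ p = a + b + c) := by
  decide

theorem no_cover (a1 a2 a3 a4 a5 a6 : P)
    (h : ∀ p : P, p ≠ 0 → p = a1 ∨ p = a2 ∨ p = a3 ∨ p = a4 ∨ p = a5 ∨ p = a6) : False := by
  have hsub : (Finset.univ.erase (0 : P)) ⊆ {a1, a2, a3, a4, a5, a6} := by
    intro p hp
    simp only [Finset.mem_insert, Finset.mem_singleton]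
    exact h p (Finset.ne_of_mem_erase hp)
  have h1 := Finset.card_le_card hsub
  have h2 : (Finset.univ.erase (0 : P)).card = 7 := by decide
  have h3 : ({a1, a2, a3, a4, a5, a6} : Finset P).card ≤ 6 := Finset.card_le_six
  omega

/-- the four cases for the set `S` -/
theorem S_cases (s : P → Prop) :
    (∃ a b, a ≠ 0 ∧ b ≠ 0 ∧ a ≠ b ∧ s a ∧ s b ∧ s (a + b)) ∨
    (∃ a b, a ≠ 0 ∧ b ≠ 0 ∧ a ≠ b ∧ ∀ p, p ≠ 0 → (s p ↔ dotv (cr a b) p = 1)) ∨
    (∃ a b c, a ≠ 0 ∧ b ≠ 0 ∧ a ≠ b ∧ c ≠ 0 ∧ c ≠ a ∧ c ≠ b ∧ c ≠ a + b ∧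
      ∀ p, p ≠ 0 → (s p ↔ p = a ∨ p = b ∨ p = c)) ∨
    (∃ s1 s2, ∀ p, p ≠ 0 → s p → p = s1 ∨ p = s2) := by
  by_cases hA : ∃ a b, a ≠ 0 ∧ b ≠ 0 ∧ a ≠ b ∧ s a ∧ s b ∧ s (a + b)
  · exact Or.inl hA
  push Not at hA
  by_cases h2 : ∃ a b, a ≠ 0 ∧ b ≠ 0 ∧ a ≠ b ∧ s a ∧ s b
  swap
  · right; right; right
    push Not at h2
    by_cases h1 : ∃ a, a ≠ 0 ∧ s a
    · obtain ⟨a, ha, hsa⟩ := h1
      refine ⟨a, a, fun p hp hsp => ?_⟩
      left
      by_contra hne
      exact h2 p a hp ha hne hsp hsa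
    · push Not at h1
      exact ⟨0, 0, fun p hp hsp => absurd hsp (h1 p hp)⟩
  obtain ⟨a, b, ha, hb, hab, hsa, hsb⟩ := h2
  have hsab := hA a b ha hb hab hsa hsb
  by_cases h3 : ∃ c, c ≠ 0 ∧ c ≠ a ∧ c ≠ b ∧ s c
  swap
  · right; right; right
    push Not at h3
    refine ⟨a, b, fun p hp hsp => ?_⟩
    by_contra hcon
    push Not at hcon
    exact h3 p hp hcon.1 hcon.2 hsp
  obtain ⟨c, hc, hca, hcb, hsc⟩ := h3
  have hcab : c ≠ a + b := by rintro rfl; exact hsab hsc
  have hsac := hA a c ha hc (Ne.symm hca) hsa hsc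
  have hsbc := hA b c hb hc (Ne.symm hcb) hsb hsc
  have hall := fun p hp => seven_fin a b c p ha hb hab hc hca hcb hcab hp
  by_cases ht : s (a + b + c)
  · right; left
    have hab0 : a + b ≠ 0 := fun h => hab (P_add_eq_zero.1 h)
    have hac0 : a + c ≠ 0 := fun h => hca (P_add_eq_zero.1 h).symm
    have hne : a + b ≠ a + c := fun h => hcb (add_left_cancel h).symm
    refine ⟨a + b, a + c, hab0, hac0, hne, fun p hp => ?_⟩
    rw [four_fin a b c p ha hb hab hc hca hcb hcab]
    constructor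
    · intro hsp
      rcases hall p hp with rfl | rfl | rfl | rfl | rfl | rfl | rfl
      · exact Or.inl rfl
      · exact Or.inr (Or.inl rfl)
      · exact Or.inr (Or.inr (Or.inl rfl))
      · exact absurd hsp hsab
      · exact absurd hsp hsac
      · exact absurd hsp hsbc
      · exact Or.inr (Or.inr (Or.inr rfl))
    · rintro (rfl | rfl | rfl | rfl)
      exacts [hsa, hsb, hsc, ht]
  · right; right; left
    refine ⟨a, b, c, ha, hb, hab, hc, hca, hcb, hcab, fun p hp => ?_⟩
    constructor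
    · intro hsp
      rcases hall p hp with rfl | rfl | rfl | rfl | rfl | rfl | rfl
      · exact Or.inl rfl
      · exact Or.inr (Or.inl rfl)
      · exact Or.inr (Or.inr rfl)
      · exact absurd hsp hsab
      · exact absurd hsp hsac
      · exact absurd hsp hsbc
      · exact absurd hsp ht
    · rintro (rfl | rfl | rfl)
      exacts [hsa, hsb, hsc]

/-! ### Duality -/

theorem WType.of_dual (hD : SpecDual.{u}) {α : Type u} {M : Matroid α} [M.Finite]
    (h : WType M✶) : WType M := by
  obtain ⟨Y, N, ⟨hYc, hYh⟩, ⟨hNE, hNB⟩, hN3⟩ := h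
  have hYE : Y ⊆ M.E := hYc.subset_ground
  haveI : N.Finite := ⟨by rw [hNE]; exact M.ground_finite⟩
  refine ⟨M.E \ Y, N✶, ⟨?_, ?_⟩, ⟨?_, ?_⟩, hD α F3 N hN3⟩
  · have h1 : M✶✶.IsCircuit (M✶.E \ Y) := hYh
    rwa [Matroid.dual_dual] at h1
  · have h1 : M.E \ (M.E \ Y) = Y := by
      rw [Set.sdiff_sdiff_right_self]; exact inter_eq_self_of_subset_right hYE
    rw [h1]
    exact hYc
  · rw [Matroid.dual_ground, hNE, Matroid.dual_ground]
  · intro B
    rw [Matroid.dual_isBase_iff', hNE, Matroid.dual_ground, hNB]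
    constructor
    · rintro ⟨h1 | h1, h2⟩
      · left
        rw [Matroid.dual_isBase_iff'] at h1
        have h3 : M.E \ (M.E \ B) = B := by
          rw [Set.sdiff_sdiff_right_self]; exact inter_eq_self_of_subset_right h2
        rw [h3] at h1
        exact h1.1
      · right
        rw [← h1, Set.sdiff_sdiff_right_self]
        exact (inter_eq_self_of_subset_right h2).symm
    · rintro (h1 | rfl)
      · refine ⟨Or.inl ?_, h1.subset_ground⟩
        rw [Matroid.dual_isBase_iff', Set.sdiff_sdiff_right_self,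
          inter_eq_self_of_subset_right h1.subset_ground]
        exact ⟨h1, sdiff_subset⟩
      · refine ⟨Or.inr ?_, sdiff_subset⟩
        rw [Set.sdiff_sdiff_right_self]
        exact inter_eq_self_of_subset_right hYE

theorem Ctx.dual (hD : SpecDual.{u}) {α : Type u} {V V' : Type*} [AddCommGroup V] [Module F2 V]
    [AddCommGroup V'] [Module F2 V'] {M : Matroid α} [M.Finite] {v : α → V} {v' : α → V'}
    {Y : Set α} (ctx : Ctx M v Y) (hv' : IsRep F2 M✶ v') (hs' : span F2 (v' '' M✶.E) = ⊤) :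
    Ctx M✶ v' (M.E \ Y) := by
  refine ⟨hv', hs', ?_, ?_⟩
  · intro y hy
    have h1 := hD α F3 _ (ctx.con y hy.1 hy.2)
    rwa [Matroid.dual_contract] at h1
  · intro x hx hxY
    have hxY' : x ∈ Y := by
      by_contra hc
      exact hxY ⟨hx, hc⟩
    have h1 := hD α F3 _ (ctx.del x hxY')
    rwa [Matroid.dual_delete] at h1

/-! ### The main case analysis -/

section

variable {α : Type u} {n : ℕ}
  {M : Matroid α} [M.Finite] {v : α → (Fin n → F2)} {Y C : Set α} {z : P → α}
  {π : (Fin n → F2) →ₗ[F2] P}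

/-- from an `F7*`-configuration with many elements outside `Y`. -/
theorem wOfDual (hNT : SpecNT.{u}) (hD : SpecDual.{u}) (hDC : SpecDualCfg.{u})
    (hW : SpecW.{u}) (hsimple : IsSimple M) (hcosimple : IsSimple M✶)
    (ctx : Ctx M v Y) (hcfg : F7dCfg v M.E C z) (hC : LinearIndepOn F2 v C) (q1 q2 q3 : P)
    (hq : ∀ p, p ≠ 0 → p ≠ q1 → p ≠ q2 → p ≠ q3 → z p ∉ Y) : WType M := by
  apply WType.of_dual hD
  obtain ⟨n', v', hv', hcfg'⟩ := hDC α M n v C z ctx.rep hcfg hC
  have hs' : span F2 (v' '' M✶.E) = ⊤ := by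
    rw [Matroid.dual_ground]
    exact F7Cfg.ground_span_eq_top hcfg'
  have ctx' := ctx.dual hD hv' hs'
  obtain ⟨hC', hz', π', hπ', hp'⟩ := hcfg'
  have hcf : Cf M✶ v' (M.E \ (C ∪ z '' {p | p ≠ 0})) z π' := ⟨hC', hz', hπ', hp'⟩
  have hmem : ∀ p, p ≠ 0 → p ≠ q1 → p ≠ q2 → p ≠ q3 → z p ∈ M.E \ Y :=
    fun p hp h1 h2 h3 => ⟨hz' p hp, hq p hp h1 h2 h3⟩
  have hcosimple' : IsSimple M✶✶ := by rwa [Matroid.dual_dual]
  rcases S_cases (fun p => z p ∈ M.E \ Y) with ⟨a, b, ha, hb, hab, h1, h2, h3⟩ |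
    ⟨a, b, ha, hb, hab, hS⟩ | ⟨a, b, c, ha, hb, hab, hc, hca, hcb, hcab, hS⟩ | ⟨s1, s2, hS⟩
  · exact hcf.caseLine hNT hD hDC hW hcosimple' ctx' ha hb hab h1 h2 h3
  · exact hcf.caseCompl hNT hD hDC hW hcosimple hcosimple' ctx' ha hb hab hS
  · exfalso
    apply no_cover q1 q2 q3 a b c
    intro p hp
    by_contra hcon
    push Not at hcon
    obtain ⟨h1, h2, h3, h4, h5, h6⟩ := hcon
    rcases (hS p hp).1 (hmem p hp h1 h2 h3) with h | h | h
    exacts [h4 h, h5 h, h6 h]
  · exfalso
    apply no_cover q1 q2 q3 s1 s2 s2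
    intro p hp
    by_contra hcon
    push Not at hcon
    obtain ⟨h1, h2, h3, h4, h5, h6⟩ := hcon
    rcases hS p hp (hmem p hp h1 h2 h3) with h | h
    exacts [h4 h, h5 h]

/-- `|S| ≤ 2`. -/
theorem Cf.caseSmall (hNT : SpecNT.{u}) (hD : SpecDual.{u}) (hDC : SpecDualCfg.{u})
    (hW : SpecW.{u}) (hsimple : IsSimple M) (hcosimple : IsSimple M✶)
    (ctx : Ctx M v Y) (h : Cf M v C z π) {s1 s2 : P}
    (hS : ∀ p, p ≠ 0 → z p ∈ Y → p = s1 ∨ p = s2) : WType M := by
  classical
  have hCi := h.indep hNT ctx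
  by_cases hCe : C.Nonempty
  swap
  · -- `M = F7`
    have hno : ∀ x, ¬ Rest M C z x := by
      intro x hx
      obtain ⟨y, hy, -⟩ := h.dedge_x hNT hsimple ctx hx
      exact hCe ⟨y, hy⟩
    exact h.wOfLine hW ctx hNT (ylab_ne_zero 0) (ylab_ne_zero 1) (by decide)
      (fun y hy => absurd ⟨y, hy⟩ hCe) (fun x hx => absurd hx (hno x))
  obtain ⟨y, hy⟩ := hCe
  obtain ⟨lam, c, w, hl, hw, hq, hc0, hc1⟩ := h.exists_fn hNT hD hDC ctx hy
  have hyY := h.subY hNT ctx hy
  rcases f2_cases c with rfl | rfl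
  · -- series
    have hq' : ∀ p, p ≠ 0 → lam (v (z p)) = if p = w then 1 else 0 := by
      intro p hp; rw [hq p hp, zero_add]
    obtain ⟨x, hx, hlx⟩ := h.dedge_ser hNT hcosimple ctx hl hw hq'
    have hp0 := h.rest_ne_zero hNT ctx hx
    obtain ⟨hwp, hlx1, -⟩ := h.f3ser hNT hD hDC ctx hl hw hq' hx rfl hlx
    have hxY := h.restX hNT ctx hx
    set p := π (v x) with hp
    have hcfg := h.f3sercfg hl hw hq' hx.1 hp.symm hp0 hwp hlx1
    have hwu : w ≠ w + p := by
      intro hc
      exact P_ne_of_add hp0 (by rw [add_comm]; exact hc.symm)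
    have hpu : p ≠ w + p := fun hc => P_ne_of_add hw hc.symm
    -- the other possible element of `S`
    obtain ⟨s', hs'⟩ : ∃ s', ∀ q, q ≠ 0 → z q ∈ Y → q = w ∨ q = s' := by
      rcases hS w hw (hc0 rfl) with h1 | h1
      · exact ⟨s2, fun q hq hqY => by rw [h1]; exact hS q hq hqY⟩
      · exact ⟨s1, fun q hq hqY => by rw [h1]; exact (hS q hq hqY).symm⟩
    apply wOfDual hNT hD hDC hW hsimple hcosimple ctx hcfg (hCi.mono sdiff_subset)
      (w + p) p (s' + (w + p))
    intro r hr h1 h2 h3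
    by_cases h4 : r = w
    · simp only [h4, hwu, hwp, if_false, if_true]
      exact hxY
    · simp only [h1, h2, h4, if_false]
      intro hc
      rcases hs' _ (fun hc => h1 (P_add_eq_zero.1 hc)) hc with h5 | h5
      · apply h2
        have := congrArg (· + (w + p)) h5
        simp only [P_add_cancel] at this
        rw [this, ← add_assoc, P_add_self, zero_add]
      · apply h3
        have := congrArg (· + (w + p)) h5
        simpa only [P_add_cancel] using this
  · -- S8
    have hcfg := h.s8cfg hl hq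
    apply wOfDual hNT hD hDC hW hsimple hcosimple ctx hcfg (hCi.mono sdiff_subset)
      w (s1 + w) (s2 + w)
    intro r hr h1 h2 h3
    simp only [h1, if_false]
    intro hc
    rcases hS _ (fun hc => h1 (P_add_eq_zero.1 hc)) hc with h5 | h5
    · apply h2
      have := congrArg (· + w) h5
      simpa only [P_add_cancel] using this
    · apply h3
      have := congrArg (· + w) h5
      simpa only [P_add_cancel] using this

theorem Cf.main (hNT : SpecNT.{u}) (hD : SpecDual.{u}) (hDC : SpecDualCfg.{u})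
    (hW : SpecW.{u}) (hTC : SpecTComb.{u}) (hsimple : IsSimple M) (hcosimple : IsSimple M✶)
    (ctx : Ctx M v Y) (hYE : Y ⊆ M.E)
    (h : Cf M v C z π) : WType M ∨ IsTripleFan 2 M := by
  rcases S_cases (fun p => z p ∈ Y) with ⟨a, b, ha, hb, hab, h1, h2, h3⟩ |
    ⟨a, b, ha, hb, hab, hS⟩ | ⟨a, b, c, ha, hb, hab, hc, hca, hcb, hcab, hS⟩ | ⟨s1, s2, hS⟩
  · exact Or.inl (h.caseLine hNT hD hDC hW hcosimple ctx ha hb hab h1 h2 h3)
  · exact Or.inl (h.caseCompl hNT hD hDC hW hsimple hcosimple ctx ha hb hab hS)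
  · exact h.caseT hNT hD hDC hW hTC hsimple hcosimple ctx hYE ha hb hab hc hca hcb hcab hS
  · exact Or.inl (h.caseSmall hNT hD hDC hW hsimple hcosimple ctx hS)

end

/-- The structure theorem with an `F7`-configuration, for ternary partitions. -/
theorem main_of_hasF7 (hNT : SpecNT.{u}) (hD : SpecDual.{u}) (hDC : SpecDualCfg.{u})
    (hW : SpecW.{u}) (hTC : SpecTComb.{u}) {α : Type u} {M : Matroid α} [M.Finite]
    (hsimple : IsSimple M) (hcosimple : IsSimple M✶) (Y : Set α) (hYE : Y ⊆ M.E)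
    (hdel : ∀ y ∈ Y, Representable F3 (M.delete {y}))
    (hcon : ∀ x ∈ M.E, x ∉ Y → Representable F3 (M.contract {x})) (h : HasF7 M) :
    WType M ∨ IsTripleFan 2 M := by
  obtain ⟨n, v, C, z, hv, hcfg⟩ := h
  have hs : span F2 (v '' M.E) = ⊤ := F7Cfg.ground_span_eq_top hcfg
  obtain ⟨hC, hz, π, hπ, hp⟩ := hcfg
  have hcf : Cf M v C z π := ⟨hC, hz, hπ, hp⟩
  exact hcf.main hNT hD hDC hW hTC hsimple hcosimple ⟨hv, hs, hdel, hcon⟩ hYE

/-- **CORE**, from the other modules. -/
theorem specCore_of (hTutte : SpecTutte.{u}) (hNT : SpecNT.{u}) (hD : SpecDual.{u})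
    (hDC : SpecDualCfg.{u}) (hW : SpecW.{u}) (hTC : SpecTComb.{u}) (hFD : SpecFanDual.{u}) :
    SpecCore.{u} := by
  intro α M _ hbin hsimple hcosimple ⟨hnr, hone⟩
  obtain ⟨F, hF, hnF⟩ : ∃ (F : Type) (_ : Field F), ¬ Representable F M := by
    by_contra hc
    push Not at hc
    exact hnr (fun F hF => hc F hF)
  set Y : Set α := {y ∈ M.E | IsRegular (M.delete {y})} with hY
  have hYE : Y ⊆ M.E := fun y hy => hy.1
  have hdel : ∀ y ∈ Y, Representable F3 (M.delete {y}) := fun y hy => hy.2 F3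
  have hcon : ∀ x ∈ M.E, x ∉ Y → Representable F3 (M.contract {x}) := by
    intro x hx hxY
    rcases hone x hx with h1 | h1
    · exact absurd ⟨hx, h1⟩ hxY
    · exact h1 F3
  rcases hTutte α M F hbin hnF with h1 | h1
  · exact main_of_hasF7 hNT hD hDC hW hTC hsimple hcosimple Y hYE hdel hcon h1
  · have hcosimple' : IsSimple M✶✶ := by rwa [Matroid.dual_dual]
    have h2 := main_of_hasF7 hNT hD hDC hW hTC hcosimple hcosimple' (M.E \ Y) sdiff_subset
      (by
        intro y hy
        have h3 := hD α F3 _ (hcon y hy.1 hy.2)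
        rwa [Matroid.dual_contract] at h3)
      (by
        intro x hx hxY
        have hxY' : x ∈ Y := by
          by_contra hc
          exact hxY ⟨hx, hc⟩
        have h3 := hD α F3 _ (hdel x hxY')
        rwa [Matroid.dual_delete] at h3) h1
    rcases h2 with h2 | ⟨m, ε, δ, hm, hfan⟩
    · exact Or.inl (WType.of_dual hD h2)
    · right
      refine ⟨m, δ, ε, hm, ?_⟩
      have h3 := hFD α m ε δ M✶ hfan
      rwa [Matroid.dual_dual] at h3

end MP948082.Core
end

section
/-!
# MP_948082_co : modules DUAL and DUALCFG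
-/
open Set Submodule

namespace MP948082

universe u

namespace DualMod

section general

variable {α : Type u} {F : Type*} [Field F] {V : Type*} [AddCommGroup V] [Module F V]

/-- the relations between the vectors `v e`, `e ∈ E` -/
def rel (F : Type*) [Field F] {V : Type*} [AddCommGroup V] [Module F V] (v : α → V) (E : Set α)
    [Fintype E] : Submodule F (E → F) :=
  LinearMap.ker (Fintype.linearCombination F (fun e : E => v e))

theorem mem_rel {v : α → V} {E : Set α} [Fintype E] {c : E → F} :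
    c ∈ rel F v E ↔ ∑ e, c e • v e = 0 := by
  rw [rel, LinearMap.mem_ker, Fintype.linearCombination_apply]

open Classical in
/-- the dual representation: `e` is sent to the coordinate `e` of the relations -/
noncomputable def dv (F : Type*) [Field F] {V : Type*} [AddCommGroup V] [Module F V] (v : α → V)
    (E : Set α) [Fintype E] (e : α) : Module.Dual F (rel F v E) :=
  if he : e ∈ E then (LinearMap.proj (⟨e, he⟩ : E) : (E → F) →ₗ[F] F) ∘ₗ (rel F v E).subtype else 0

theorem dv_apply {v : α → V} {E : Set α} [Fintype E] {e : α} (he : e ∈ E) (c : rel F v E) :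
    dv F v E e c = (c : E → F) ⟨e, he⟩ := by
  rw [dv, dif_pos he]
  rfl

/-- a vector in the span of `v '' S` gives a relation -/
theorem exists_rel {v : α → V} {E : Set α} [Fintype E] {S : Set α} (hS : S ⊆ E) {x : V}
    (hx : x ∈ span F (v '' S)) :
    ∃ c : E → F, (∀ e : E, (e : α) ∉ S → c e = 0) ∧ ∑ e, c e • v e = x := by
  classical
  induction hx using span_induction with
  | mem z hz =>
    obtain ⟨a, ha, rfl⟩ := hz
    refine ⟨Pi.single ⟨a, hS ha⟩ 1, ?_, ?_⟩
    · intro e he
      rw [Pi.single_eq_of_ne]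
      rintro rfl
      exact he ha
    · rw [Finset.sum_eq_single ⟨a, hS ha⟩]
      · simp
      · intro b _ hb
        rw [Pi.single_eq_of_ne hb, zero_smul]
      · simp
  | zero => exact ⟨0, by simp, by simp⟩
  | add a b ha hb iha ihb =>
    obtain ⟨c, hc, hc'⟩ := iha
    obtain ⟨d, hd, hd'⟩ := ihb
    refine ⟨c + d, fun e he => ?_, ?_⟩
    · rw [Pi.add_apply, hc e he, hd e he, add_zero]
    · simp only [Pi.add_apply, add_smul, Finset.sum_add_distrib, hc', hd']
  | smul t a ha iha =>
    obtain ⟨c, hc, hc'⟩ := iha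
    refine ⟨t • c, fun e he => ?_, ?_⟩
    · rw [Pi.smul_apply, hc e he, smul_zero]
    · simp only [Pi.smul_apply, smul_assoc, ← Finset.smul_sum, hc']

theorem linearIndepOn_dv_iff {v : α → V} {E : Set α} [Fintype E] {I : Set α} (hI : I ⊆ E) :
    LinearIndepOn F (dv F v E) I ↔ ∀ f ∈ I, v f ∈ span F (v '' (E \ I)) := by
  classical
  have hIf : I.Finite := (toFinite E).subset hI
  obtain ⟨I, rfl⟩ := hIf.exists_finset_coe
  rw [linearIndepOn_finset_iff]
  constructor
  · intro h f hf
    by_contra hc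
    obtain ⟨φ, hφ, hφ'⟩ := Submodule.exists_le_ker_of_notMem hc
    refine hφ (h (fun e => φ (v e)) ?_ f hf)
    ext c
    rw [LinearMap.sum_apply]
    simp only [LinearMap.smul_apply, smul_eq_mul, LinearMap.zero_apply]
    have h1 : ∑ e : E, φ (v e) * (c : E → F) e = 0 := by
      have := mem_rel.1 c.2
      have h2 := congrArg φ this
      rw [map_sum, map_zero] at h2
      rw [← h2]
      refine Finset.sum_congr rfl fun e _ => ?_
      rw [map_smul, smul_eq_mul, mul_comm]
    rw [← h1]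
    have h3 : ∑ e ∈ I, φ (v e) * dv F v E e c = ∑ e : E, if (e : α) ∈ I then φ (v e) * (c : E → F) e else 0 := by
      rw [← Finset.sum_filter]
      refine Finset.sum_bij' (fun a ha => (⟨a, hI ha⟩ : E)) (fun b _ => (b : α)) ?_ ?_ ?_ ?_ ?_
      · intro a ha; simpa using ha
      · intro b hb; simpa using hb
      · intro a ha; rfl
      · intro b hb; rfl
      · intro a ha; rw [dv_apply (hI ha)]
    rw [h3]
    refine Finset.sum_congr rfl fun e _ => ?_
    split_ifs with he
    · rfl
    · have : v e ∈ span F (v '' (E \ (I : Set α))) := subset_span ⟨e, ⟨e.2, he⟩, rfl⟩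
      have := hφ' this
      rw [LinearMap.mem_ker] at this
      rw [this, zero_mul]
  · intro h l hl f hf
    obtain ⟨c, hc, hc'⟩ := exists_rel (E := E) (S := E \ (I : Set α)) sdiff_subset (h f hf)
    set d : E → F := Pi.single ⟨f, hI hf⟩ 1 - c with hd
    have hdrel : d ∈ rel F v E := by
      rw [mem_rel]
      simp only [hd, Pi.sub_apply, sub_smul, Finset.sum_sub_distrib, hc']
      rw [Finset.sum_eq_single ⟨f, hI hf⟩]
      · simp
      · intro b _ hb
        rw [Pi.single_eq_of_ne hb, zero_smul]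
      · simp
    have h1 := congrArg (fun g : Module.Dual F (rel F v E) => g ⟨d, hdrel⟩) hl
    simp only [LinearMap.sum_apply, LinearMap.smul_apply, smul_eq_mul, LinearMap.zero_apply] at h1
    rw [Finset.sum_eq_single f] at h1
    · rw [dv_apply (hI hf)] at h1
      have h2 : c ⟨f, hI hf⟩ = 0 := hc _ (fun h => h.2 hf)
      simpa [hd, h2] using h1
    · intro g hg hgf
      rw [dv_apply (hI hg)]
      have h2 : c ⟨g, hI hg⟩ = 0 := hc _ (fun h => h.2 hg)
      have h3 : (⟨g, hI hg⟩ : E) ≠ ⟨f, hI hf⟩ := fun h => hgf (Subtype.ext_iff.1 h)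
      simp [hd, h2, Pi.single_eq_of_ne h3]
    · intro hf'; exact absurd hf hf'

theorem isRep_dual {M : Matroid α} [Fintype M.E] {v : α → V} (h : IsRep F M v) :
    IsRep F M✶ (dv F v M.E) := by
  intro I hI
  rw [Matroid.dual_ground] at hI
  rw [← Matroid.coindep_def, Matroid.coindep_iff_compl_spanning hI, linearIndepOn_dv_iff hI,
    Matroid.spanning_iff_ground_subset_closure sdiff_subset]
  constructor
  · intro hs f hf
    exact (h.mem_closure_iff sdiff_subset (hI hf)).1 (hs (hI hf))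
  · intro hs e he
    by_cases heI : e ∈ I
    · exact (h.mem_closure_iff sdiff_subset he).2 (hs e heI)
    · exact M.mem_closure_of_mem ⟨he, heI⟩ sdiff_subset

end general

end DualMod

theorem specDual : SpecDual.{u} := by
  intro α F _ M _ hM
  have : Fintype M.E := M.ground_finite.fintype
  obtain ⟨n, v, hv⟩ := hM
  exact (DualMod.isRep_dual hv).representable

end MP948082
end
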