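import Pool.Agent.Lib.MP_948082_co.Dual

/-!
# MP_948082_co : module DUALCFG
-/

open Set Submodule

namespace MP948082

universe u

namespace DualMod

/-- the points of the Fano plane -/
abbrev Q : Type := {p : P // p ≠ 0}

theorem sumQ (i : Fin 3) : ∑ p : Q, (p.1 i) • ((p.1, 1) : P × F2) = 0 := by
  revert i; decide +kernel

theorem simplex (κ : Q → F2) (h : ∑ p : Q, κ p • ((p.1, 1) : P × F2) = 0) :
    ∃ u : P, ∀ p : Q, κ p = ∑ i, u i * p.1 i := by
  revert κ; decide +kernel

variable {α : Type u} {V : Type*} [AddCommGroup V] [Module F2 V]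

/-- coordinate free form of DUALCFG -/
theorem cfg {v : α → V} {E C : Set α} [Fintype E] {z : P → α} (h : F7dCfg v E C z)
    (hC : LinearIndepOn F2 v C) :
    F7Cfg (dv F2 v E) E (E \ (C ∪ z '' {p | p ≠ 0})) z := by
  classical
  obtain ⟨hCE, hzE, σ, hσ, hσz⟩ := h
  refine ⟨sdiff_subset, hzE, ?_⟩
  set D : Set α := E \ (C ∪ z '' {p | p ≠ 0}) with hD
  let zE : Q → E := fun p => ⟨z p.1, hzE p.1 p.2⟩
  have hzinj : Function.Injective zE := by
    intro p q hpq
    have h1 : z p.1 = z q.1 := Subtype.ext_iff.1 hpq
    have h2 := hσz p.1 p.2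
    rw [h1, hσz q.1 q.2] at h2
    exact Subtype.ext (Prod.mk.inj h2).1.symm
  have hσC : ∀ c ∈ C, σ (v c) = 0 := by
    intro c hc
    have : v c ∈ LinearMap.ker σ := by
      rw [hσ]; exact subset_span ⟨c, hc, rfl⟩
    exact this
  have hzC : ∀ p : Q, z p.1 ∉ C := by
    intro p hp
    have h1 := hσC _ hp
    rw [hσz p.1 p.2] at h1
    exact one_ne_zero (Prod.mk.inj h1).2
  have hcl : ∀ e : E, (e : α) ∉ D → (e : α) ∉ C → ∃ p : Q, zE p = e := by
    intro e heD heC
    by_contra hcon
    push Not at hcon
    refine heD ⟨e.2, ?_⟩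
    rintro (h | ⟨p, hp, hpe⟩)
    · exact heC h
    · exact hcon ⟨p, hp⟩ (Subtype.ext hpe)
  -- the three relations
  have hs : ∀ i : Fin 3, ∑ p : Q, (p.1 i) • v (zE p) ∈ span F2 (v '' C) := by
    intro i
    rw [← hσ, LinearMap.mem_ker, map_sum, ← sumQ i]
    refine Finset.sum_congr rfl fun p _ => ?_
    rw [map_smul]
    congr 1
    exact hσz p.1 p.2
  choose c hc hc' using fun i => exists_rel (E := E) hCE (hs i)
  let kk : Fin 3 → E → F2 := fun i => (∑ p : Q, Pi.single (zE p) (p.1 i)) - c i
  have hkk : ∀ i, kk i ∈ rel F2 v E := by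
    intro i
    rw [mem_rel]
    simp only [kk, Pi.sub_apply, sub_smul, Finset.sum_sub_distrib, hc', Finset.sum_apply,
      Finset.sum_smul]
    rw [Finset.sum_comm, sub_eq_zero]
    refine Finset.sum_congr rfl fun p _ => ?_
    rw [Finset.sum_eq_single (zE p)]
    · rw [Pi.single_eq_same]
    · intro b _ hb
      rw [Pi.single_eq_of_ne hb, zero_smul]
    · simp
  have hkz : ∀ i (p : Q), kk i (zE p) = p.1 i := by
    intro i p
    simp only [kk, Pi.sub_apply, Finset.sum_apply]
    rw [hc i (zE p) (hzC p), sub_zero, Finset.sum_eq_single p]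
    · rw [Pi.single_eq_same]
    · intro q _ hq
      rw [Pi.single_eq_of_ne (fun h => hq (hzinj h.symm))]
    · simp
  have hkD : ∀ i (e : E), (e : α) ∈ D → kk i e = 0 := by
    intro i e he
    simp only [kk, Pi.sub_apply, Finset.sum_apply]
    rw [hc i e (fun h => he.2 (Or.inl h)), sub_zero]
    refine Finset.sum_eq_zero fun p _ => ?_
    rw [Pi.single_eq_of_ne]
    rintro rfl
    exact he.2 (Or.inr ⟨p.1, p.2, rfl⟩)
  let K : Fin 3 → rel F2 v E := fun i => ⟨kk i, hkk i⟩
  let π : Module.Dual F2 (rel F2 v E) →ₗ[F2] P :=
    LinearMap.pi fun i => Module.Dual.eval F2 (rel F2 v E) (K i)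
  have hπ : ∀ (ψ : Module.Dual F2 (rel F2 v E)) i, π ψ i = ψ (K i) := fun ψ i => rfl
  refine ⟨π, ?_, ?_⟩
  · apply le_antisymm
    · intro ψ hψ
      have hψ' : ∀ i, ψ (K i) = 0 := by
        intro i
        rw [← hπ, LinearMap.mem_ker.1 hψ]
        rfl
      have hDfin : D.Finite := (toFinite E).subset sdiff_subset
      have : Finite D := hDfin
      have key := mem_span_of_iInf_ker_le_ker (𝕜 := F2) (L := fun d : D => dv F2 v E d) (K := ψ) (by
        intro x hx
        have hx' : ∀ e : E, (e : α) ∈ D → (x : E → F2) e = 0 := by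
          intro e he
          have := (Submodule.mem_iInf _).1 hx ⟨e, he⟩
          rw [LinearMap.mem_ker, dv_apply e.2] at this
          exact this
        have hrel := mem_rel.1 x.2
        have h1 : ∑ p : Q, (x : E → F2) (zE p) • ((p.1, 1) : P × F2) = 0 := by
          have h2 := congrArg σ hrel
          rw [map_sum, map_zero] at h2
          have h3 : ∑ p : Q, (x : E → F2) (zE p) • ((p.1, 1) : P × F2) =
              ∑ e ∈ Finset.univ.image zE, (x : E → F2) e • σ (v e) := by
            rw [Finset.sum_image hzinj.injOn]
            refine Finset.sum_congr rfl fun p _ => ?_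
            congr 1
            exact (hσz p.1 p.2).symm
          rw [h3, ← h2]
          refine Finset.sum_subset_zero_on_sdiff (Finset.subset_univ _) ?_ ?_
          · intro e he
            rw [Finset.mem_sdiff, Finset.mem_image] at he
            rw [map_smul]
            by_cases heD : (e : α) ∈ D
            · rw [hx' e heD, zero_smul]
            · by_cases heC : (e : α) ∈ C
              · rw [hσC _ heC, smul_zero]
              · obtain ⟨p, hp⟩ := hcl e heD heC
                exact absurd ⟨p, Finset.mem_univ _, hp⟩ he.2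
          · intro e _
            rw [map_smul]
        obtain ⟨u, hu⟩ := simplex _ h1
        have h4 : x = ∑ i, u i • K i := by
          have h5 : (x - ∑ i, u i • K i : rel F2 v E) = 0 := by
            set y : rel F2 v E := x - ∑ i, u i • K i with hy
            have hyv : ∀ e, (y : E → F2) e = (x : E → F2) e - ∑ i, u i * kk i e := by
              intro e
              rw [hy]
              simp [K]
            have hyC : ∀ e : E, (e : α) ∉ C → (y : E → F2) e = 0 := by
              intro e heC
              rw [hyv]
              by_cases heD : (e : α) ∈ D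
              · rw [hx' e heD]
                simp [hkD _ e heD]
              · obtain ⟨p, rfl⟩ := hcl e heD heC
                rw [hu p]
                simp [hkz]
            have hyrel := mem_rel.1 y.2
            have hCfin : C.Finite := (toFinite E).subset hCE
            obtain ⟨C', rfl⟩ := hCfin.exists_finset_coe
            rw [linearIndepOn_finset_iff] at hC
            have h6 := hC (fun e => if he : e ∈ E then (y : E → F2) ⟨e, he⟩ else 0) (by
              rw [← hyrel]
              have h7 : ∀ e : E, (y : E → F2) e • v e =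
                  if (e : α) ∈ C' then (y : E → F2) e • v e else 0 := by
                intro e
                split_ifs with h
                · rfl
                · rw [hyC e h, zero_smul]
              rw [Finset.sum_congr rfl fun e _ => h7 e, ← Finset.sum_filter]
              refine Finset.sum_bij' (fun a ha => (⟨a, hCE ha⟩ : E)) (fun b _ => (b : α))
                ?_ ?_ ?_ ?_ ?_
              · intro a ha; simpa using ha
              · intro b hb; simpa using hb
              · intro a ha; rfl
              · intro b hb; rfl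
              · intro a ha; rw [dif_pos (hCE ha)])
            apply Subtype.ext
            funext e
            by_cases heC : (e : α) ∈ (C' : Set α)
            · have := h6 e heC
              rw [dif_pos e.2] at this
              exact this
            · exact hyC e heC
          exact sub_eq_zero.1 h5
        rw [LinearMap.mem_ker, h4, map_sum]
        simp [hψ'])
      rw [← image_eq_range] at key
      exact key
    · rw [span_le]
      rintro _ ⟨d, hd, rfl⟩
      change π (dv F2 v E d) = 0
      funext i
      rw [hπ, dv_apply hd.1]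
      exact hkD i ⟨d, hd.1⟩ hd
  · intro p hp
    funext i
    rw [hπ, dv_apply (hzE p hp)]
    exact hkz i ⟨p, hp⟩

theorem f7Cfg_map {α : Type u} {V W : Type*} [AddCommGroup V] [Module F2 V] [AddCommGroup W]
    [Module F2 W] {v : α → V} {E C : Set α} {z : P → α} (h : F7Cfg v E C z) (e : V ≃ₗ[F2] W) :
    F7Cfg (e ∘ v) E C z := by
  obtain ⟨h1, h2, π, h3, h4⟩ := h
  refine ⟨h1, h2, π ∘ₗ e.symm.toLinearMap, ?_, ?_⟩
  · rw [LinearMap.ker_comp, h3]
    have h5 : Submodule.comap e.symm.toLinearMap (span F2 (v '' C)) =
        Submodule.map e.toLinearMap (span F2 (v '' C)) :=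
      (Submodule.map_equiv_eq_comap_symm e _).symm
    rw [h5, Submodule.map_span, ← image_comp]
    rfl
  · intro p hp
    simp [h4 p hp]

end DualMod

theorem specDualCfg : SpecDualCfg.{u} := by
  intro α M hM n v C z hv h hC
  have : Fintype M.E := M.ground_finite.fintype
  have h1 := DualMod.cfg h hC
  have h2 := DualMod.isRep_dual hv
  let e : Module.Dual F2 (DualMod.rel F2 v M.E) ≃ₗ[F2] (Fin _ → F2) :=
    (Module.finBasis F2 (Module.Dual F2 (DualMod.rel F2 v M.E))).equivFun
  exact ⟨_, e ∘ DualMod.dv F2 v M.E, h2.comp_injective e.toLinearMap e.injective, DualMod.f7Cfg_map h1 e⟩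

end MP948082
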