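import Pool.Agent.Lib.MP_948082_co.Spec

/-!
# MP_948082_co : sub-modules of TUTTE

Paper proof of TUTTE (after Gerards, Tutte): `/team-store/MP_948082_co_TUTTE.md`.
-/

open Set

namespace MP948082

universe u

/-- `r ∈ B` and `c ∉ B` are adjacent with respect to the base `B`: `B - r + c` is a base. -/
def Adj {α : Type u} (M : Matroid α) (B : Set α) (r c : α) : Prop :=
  r ∈ B ∧ c ∈ M.E ∧ c ∉ B ∧ M.IsBase (insert c (B \ {r}))

/-- `a` and `b` (elements of the base `B`) are joined by a path of the fundamental graph of `B` whose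
column elements are not in `K`. -/
def RowConn {α : Type u} (M : Matroid α) (B K : Set α) (a b : α) : Prop :=
  Relation.ReflTransGen (fun r r' => ∃ c, c ∉ K ∧ Adj M B r c ∧ Adj M B r' c) a b

/-- PATH. `M` is binary without `F7`-configuration, `N` is any matroid which agrees with `M` on all
sets that do not contain both `x` and `y`.  Two rows `a, b` adjacent to both `x` and `y` and joined by a
path avoiding `x, y` do not distinguish `N` from `M`. -/
def SpecPath : Prop :=
  ∀ (α : Type u) (M N : Matroid α) [M.Finite] (x y : α), x ≠ y → x ∈ M.E → y ∈ M.E →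
    N.E = M.E → Representable F2 M → ¬ HasF7 M →
    (∀ I, (x ∉ I ∨ y ∉ I) → (M.Indep I ↔ N.Indep I)) →
    ∀ B, M.IsBase B → x ∉ B → y ∉ B → ∀ a b, a ≠ b →
      Adj M B a x → Adj M B a y → Adj M B b x → Adj M B b y → RowConn M B {x, y} a b →
      ¬ N.IsBase ((B \ {a, b}) ∪ {x, y})

/-- SCALE (uses PATH). Representations of `M \ x` and of `M \ y` can be glued. -/
def SpecScale : Prop :=
  ∀ (α : Type u) (M : Matroid α) [M.Finite] (F : Type) [Field F] (x y : α), x ≠ y →
    x ∈ M.E → y ∈ M.E → Representable F2 M → ¬ HasF7 M →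
    (∃ B, M.IsBase B ∧ x ∉ B ∧ y ∉ B) →
    Representable F (M.delete {x}) → Representable F (M.delete {y}) →
    ∃ (n : ℕ) (w : α → (Fin n → F)), IsRep F (M.delete {x}) w ∧ IsRep F (M.delete {y}) w

/-- LEAVES (pure graph theory). In a connected bipartite graph with a vertex of degree at least
three there are two vertices of the same colour whose removal leaves a connected graph. -/
def SpecLeaves : Prop :=
  ∀ (V : Type u) [Fintype V] (G : SimpleGraph V) (c : V → Bool), G.Connected →
    (∀ u v, G.Adj u v → c u ≠ c v) →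
    (∃ v a b d, a ≠ b ∧ a ≠ d ∧ b ≠ d ∧ G.Adj v a ∧ G.Adj v b ∧ G.Adj v d) →
    ∃ x y, x ≠ y ∧ c x = c y ∧ (G.induce {w | w ≠ x ∧ w ≠ y}).Preconnected

/-- The vectors of the edges `e = (s e, t e)` of a graph. -/
def edgeVec {α ι : Type*} [DecidableEq ι] (F : Type*) [Field F] (s t : α → ι) (e : α) : ι → F :=
  Pi.single (s e) 1 - Pi.single (t e) 1

/-- GRAPHIC. The independent sets of a graphic matroid do not depend on the field. -/
def SpecGraphic : Prop :=
  ∀ (α ι : Type u) [Finite ι] [DecidableEq ι] (F F' : Type) [Field F] [Field F'] (s t : α → ι)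
    (I : Set α), I.Finite →
    (LinearIndepOn F (edgeVec F s t) I ↔ LinearIndepOn F' (edgeVec F' s t) I)

/-- SUM. Direct sums. -/
def SpecSum : Prop :=
  ∀ (α : Type u) (M : Matroid α) [M.Finite] (F : Type) [Field F] (S : Set α),
    (∀ I ⊆ M.E, M.Indep (I ∩ S) → M.Indep (I \ S) → M.Indep I) →
    Representable F (M.delete S) → Representable F (M.delete (M.E \ S)) → Representable F M

end MP948082
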