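import Pool.Agent.Lib.MP_948082_co.Dual
import Pool.Agent.Lib.MP_948082_co.SpecTutte

set_option linter.all false

/-!
# MP_948082_co : the deletions of the basis elements of a triple fan are graphic
-/

open Set Submodule

namespace MP948082

universe u

namespace FanX

/-! ### A criterion for graphic representations -/

theorem edge_crit {T ι : Type} [Fintype ι] [DecidableEq ι] {W : Type*} [AddCommGroup W]
    [Module F2 W] (v : T → W) (k : Option ι → W) (hk0 : k none = 0)
    (hk : LinearIndependent F2 (fun i => k (some i))) (s t : T → Option ι) (D : Set T)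
    (hD : ∀ e ∈ D, v e = k (s e) - k (t e)) (I : Set T) (hI : I ⊆ D) :
    LinearIndepOn F2 v I ↔ LinearIndepOn F2 (edgeVec F2 s t) I := by
  classical
  let K : (Option ι → F2) →ₗ[F2] W := Fintype.linearCombination F2 k
  have hK : ∀ w, K w = ∑ u, w u • k u := fun w => Fintype.linearCombination_apply _ _ _
  have hKe : ∀ e ∈ I, K (edgeVec F2 s t e) = v e := by
    intro e he
    rw [hD e (hI he), edgeVec, map_sub]
    simp only [K, Fintype.linearCombination_apply_single, one_smul]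
  let Z : Submodule F2 (Option ι → F2) := LinearMap.ker (∑ u, LinearMap.proj (R := F2)
    (φ := fun _ : Option ι => F2) u)
  have hZ : ∀ w, w ∈ Z ↔ ∑ u, w u = 0 := by
    intro w
    simp [Z, LinearMap.mem_ker, LinearMap.sum_apply]
  have hinj : Set.InjOn K Z := by
    intro w hw w' hw' h
    have h1 : K (w - w') = 0 := by rw [map_sub, h, sub_self]
    have h2 : w - w' ∈ Z := Z.sub_mem hw hw'
    rw [hZ, Fintype.sum_option] at h2
    rw [hK, Fintype.sum_option, hk0, smul_zero, zero_add] at h1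
    have h3 := Fintype.linearIndependent_iff.1 hk _ h1
    have h4 : (w - w') none = 0 := by
      rw [Finset.sum_eq_zero (fun i _ => h3 i), add_zero] at h2
      exact h2
    funext u
    cases u with
    | none => exact sub_eq_zero.1 h4
    | some i => exact sub_eq_zero.1 (h3 i)
  have hedge : ∀ e, edgeVec F2 s t e ∈ Z := by
    intro e
    rw [hZ]
    simp [edgeVec, Finset.sum_sub_distrib]
  have hcongr : LinearIndepOn F2 v I ↔ LinearIndepOn F2 (fun e => K (edgeVec F2 s t e)) I :=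
    linearIndepOn_congr fun e he => (hKe e he).symm
  rw [hcongr]
  constructor
  · intro h
    exact LinearIndepOn.of_comp K h
  · intro h
    apply h.map_injOn K
    apply hinj.mono
    rw [SetLike.coe_subset_coe, span_le]
    rintro _ ⟨e, _, rfl⟩
    exact hedge e

theorem regular_of_graphic (hG : SpecGraphic.{0}) {α : Type u} {T : Type} [Finite T]
    (M : Matroid α) [M.Finite] (φ : T → α) (hφ : Function.Injective φ) (y : T)
    (hr : Set.range φ = M.E) {W : Type*} [AddCommGroup W] [Module F2 W] (v : T → W)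
    (h : ∀ I : Set T, (M.Indep (φ '' I) ↔ LinearIndepOn F2 v I))
    {ι : Type} [Fintype ι] [DecidableEq ι] (k : Option ι → W) (hk0 : k none = 0)
    (hk : LinearIndependent F2 (fun i => k (some i)))
    (hex : ∀ e, e ≠ y → ∃ a b, v e = k a - k b) : IsRegular (M.delete {φ y}) := by
  classical
  choose! s t hst using hex
  intro F _
  have hT : Nonempty T := ⟨y⟩
  let w : α → (Option ι → F) := fun a => edgeVec F s t (Function.invFun φ a)
  have hrep : IsRep F (M.delete {φ y}) w := by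
    intro J hJ
    rw [Matroid.delete_ground] at hJ
    have hJE : J ⊆ M.E := hJ.trans sdiff_subset
    obtain ⟨I, rfl⟩ : ∃ I : Set T, J = φ '' I := by
      rw [← hr] at hJE
      exact ⟨φ ⁻¹' J, (image_preimage_eq_of_subset hJE).symm⟩
    have hyI : y ∉ I := by
      intro hy
      exact (hJ ⟨y, hy, rfl⟩).2 rfl
    rw [Matroid.delete_indep_iff, h I, edge_crit v k hk0 hk s t {y}ᶜ (fun e he => hst e he) I
      (fun e he hy => hyI (hy ▸ he)), hG T (Option ι) F2 F s t I (toFinite I)]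
    have e1 : LinearIndepOn F w (φ '' I) ↔ LinearIndepOn F (edgeVec F s t) I := by
      have e2 : LinearIndepOn F (edgeVec F s t) I ↔ LinearIndepOn F (w ∘ φ) I := by
        apply linearIndepOn_congr
        intro e _
        simp [w, Function.leftInverse_invFun hφ e]
      rw [e2]
      exact ⟨fun hl => hl.comp_of_image hφ.injOn, fun hl => hl.image_of_comp⟩
    rw [e1]
    apply and_iff_left
    rw [disjoint_singleton_right]
    exact fun hc => (hJ hc).2 rfl
  have : (M.delete {φ y}).Finite := inferInstance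
  exact hrep.representable

/-! ### The triple fan: deletion of a basis element -/

variable (m : Fin 3 → ℕ) (ε δ : Bool)

instance : Finite (FanElt m ε δ) := by
  have : Function.Injective (fun e : FanElt m ε δ => (match e with
    | .y i j => Sum.inl (Sum.inl ⟨i, j⟩)
    | .x i j => Sum.inl (Sum.inr ⟨i, j⟩)
    | .x0 _ => Sum.inr false
    | .y0 _ => Sum.inr true : ((Σ i : Fin 3, Fin (m i)) ⊕ (Σ i : Fin 3, Fin (m i))) ⊕ Bool)) := by
    intro a b hab
    cases a <;> cases b <;> simp_all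
  exact Finite.of_injective _ this

/-- the indicator function of the first `n` elements of the arm `i` -/
def ind (i : Fin 3) (n : ℕ) : FanBasis m δ → F2 := fun s => match s with
  | Sum.inl ⟨i', j'⟩ => if i' = i ∧ (j' : ℕ) < n then 1 else 0
  | Sum.inr _ => 0

/-- the indicator function of the elements of the arm `i` from `n` on -/
def indge (i : Fin 3) (n : ℕ) : FanBasis m δ → F2 := fun s => match s with
  | Sum.inl ⟨i', j'⟩ => if i' = i ∧ n ≤ (j' : ℕ) then 1 else 0
  | Sum.inr _ => 0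

/-- the indicator of `y0` -/
def indy : FanBasis m δ → F2 := fun s => match s with
  | Sum.inl _ => 0
  | Sum.inr _ => 1

variable {m ε δ}

theorem single_eq (i : Fin 3) (j : Fin (m i)) :
    (Pi.single (Sum.inl ⟨i, j⟩) 1 : FanBasis m δ → F2) = ind m δ i (j + 1) - ind m δ i j := by
  funext s
  rcases s with ⟨i', j'⟩ | s
  · simp only [Pi.sub_apply, ind, Pi.single_apply, Sum.inl.injEq]
    by_cases hi : i' = i
    · subst hi
      simp only [Sigma.mk.injEq, heq_eq_eq, true_and]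
      by_cases h1 : (j' : ℕ) < j
      · rw [if_neg (by rintro rfl; omega), if_pos (by omega), if_pos h1, sub_self]
      · by_cases h2 : j' = j
        · rw [if_pos h2, if_pos (by omega), if_neg h1, sub_zero]
        · have : (j' : ℕ) ≠ j := fun h => h2 (Fin.ext h)
          rw [if_neg h2, if_neg (by omega), if_neg h1, sub_zero]
    · rw [if_neg (by rintro ⟨rfl, -⟩; exact hi rfl), if_neg (fun h => hi h.1),
        if_neg (fun h => hi h.1), sub_zero]
  · simp [Pi.sub_apply, ind, Pi.single_apply]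

theorem fanVec_x (i : Fin 3) (j : Fin (m i)) :
    fanVec m ε δ (.x i j) = 1 - ind m δ i (j + 1) := by
  funext s
  rcases s with ⟨i', j'⟩ | s
  · simp only [Pi.sub_apply, ind, fanVec, Pi.one_apply]
    by_cases h : i' = i ∧ (j' : ℕ) ≤ j
    · rw [if_pos h, if_pos ⟨h.1, by omega⟩, sub_self]
    · rw [if_neg h, if_neg (fun h' => h ⟨h'.1, by omega⟩), sub_zero]
  · simp [ind, fanVec]

theorem fanVec_y (i : Fin 3) (j : Fin (m i)) :
    fanVec m ε δ (.y i j) = ind m δ i (j + 1) - ind m δ i j := single_eq i j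

theorem fanVec_x0 (h : ε = true) : fanVec m ε δ (.x0 h) = 1 := rfl

theorem fanVec_y0 (h : δ = true) : fanVec m ε δ (.y0 h) = indy m δ := by
  funext s
  rcases s with s | ⟨s, hs⟩
  · simp [fanVec, indy]
  · have : (⟨s, hs⟩ : {_u : Unit // δ = true}) = ⟨(), h⟩ := Subsingleton.elim _ _
    rw [this]
    simp [fanVec, indy]

theorem ind_zero (i : Fin 3) : ind m δ i 0 = 0 := by
  funext s
  rcases s with ⟨i', j'⟩ | s <;> simp [ind]

theorem fin3_cases : ∀ i i' : Fin 3, i' = i ∨ i' = i + 1 ∨ i' = i + 2 := by decide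

theorem fin3_ne1 : ∀ i : Fin 3, i + 1 ≠ i := by decide

theorem fin3_ne2 : ∀ i : Fin 3, i + 2 ≠ i := by decide

theorem fin3_ne3 : ∀ i : Fin 3, i + 1 ≠ i + 2 := by decide

/-- adding up everything -/
theorem one_eq (i : Fin 3) : (1 : FanBasis m δ → F2) =
    ind m δ i (m i) + ind m δ (i + 1) (m (i + 1)) + ind m δ (i + 2) (m (i + 2)) + indy m δ := by
  funext s
  rcases s with ⟨i', j'⟩ | s
  · simp only [Pi.add_apply, ind, indy, Pi.one_apply]
    rcases fin3_cases i i' with h | h | h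
    · subst h
      rw [if_pos ⟨rfl, j'.2⟩, if_neg (fun h => fin3_ne1 i' h.1.symm),
        if_neg (fun h => fin3_ne2 i' h.1.symm)]
      simp
    · subst h
      rw [if_neg (fun h => fin3_ne1 i h.1), if_pos ⟨rfl, j'.2⟩,
        if_neg (fun h => fin3_ne3 i h.1)]
      simp
    · subst h
      rw [if_neg (fun h => fin3_ne2 i h.1), if_neg (fun h => fin3_ne3 i h.1.symm),
        if_pos ⟨rfl, j'.2⟩]
      simp
  · simp [ind, indy]

theorem neg_eq' (x : FanBasis m δ → F2) : -x = x := by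
  funext s
  exact (by decide : ∀ a : ZMod 2, -a = a) (x s)

theorem indy_false (h : δ = false) : indy m δ = 0 := by
  funext s
  rcases s with s | ⟨s, hs⟩
  · rfl
  · simp [h] at hs

theorem span_crit (S : Submodule F2 (FanBasis m δ → F2)) (h1 : ∀ i n, n ≤ m i → ind m δ i n ∈ S)
    (h2 : indy m δ ∈ S) : S = ⊤ := by
  rw [eq_top_iff, ← (Pi.basisFun F2 (FanBasis m δ)).span_eq, span_le]
  rintro _ ⟨b, rfl⟩
  rw [Pi.basisFun_apply]
  rcases b with ⟨i, j⟩ | ⟨b, hb⟩
  · rw [single_eq]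
    exact S.sub_mem (h1 i _ (by have := j.2; omega)) (h1 i _ (by have := j.2; omega))
  · have := fanVec_y0 (m := m) (ε := true) hb
    have h3 : (Pi.single (Sum.inr ⟨b, hb⟩) 1 : FanBasis m δ → F2) = indy m δ := this
    rw [h3]
    exact h2

theorem li_of_span (κ : FanBasis m δ → (FanBasis m δ → F2))
    (h : span F2 (Set.range κ) = ⊤) : LinearIndependent F2 κ := by
  apply linearIndependent_of_top_le_span_of_card_eq_finrank
  · rw [h]
  · rw [Module.finrank_fintype_fun_eq_card]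

/-- vertex potentials for the deletion of `y0` -/
def k0 (m : Fin 3 → ℕ) (δ : Bool) : Option (FanBasis m δ) → (FanBasis m δ → F2)
  | none => 0
  | some (Sum.inl ⟨i, j⟩) => ind m δ i (j + 1)
  | some (Sum.inr _) => 1

/-- vertex potentials for the deletion of `y i0 j0` -/
def k1 (m : Fin 3 → ℕ) (δ : Bool) (i0 : Fin 3) (j0 : ℕ) :
    Option (FanBasis m δ) → (FanBasis m δ → F2)
  | none => 0
  | some (Sum.inl ⟨i, j⟩) => if i = i0 then (if (j : ℕ) < j0 then 1 - ind m δ i0 (j + 1) else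
      if (j : ℕ) = j0 then 1 else ind m δ (i0 + 1) (m (i0 + 1)) + indy m δ +
        (ind m δ i0 (m i0) - ind m δ i0 j)) else ind m δ i (j + 1)
  | some (Sum.inr _) => ind m δ (i0 + 1) (m (i0 + 1)) + indy m δ

theorem k0_li (hδ : δ = true) : LinearIndependent F2 (fun i => k0 m δ (some i)) := by
  apply li_of_span
  have hone : (1 : FanBasis m δ → F2) ∈ span F2 (Set.range fun i => k0 m δ (some i)) :=
    subset_span ⟨Sum.inr ⟨(), hδ⟩, rfl⟩
  have hind : ∀ i n, n ≤ m i → ind m δ i n ∈ span F2 (Set.range fun i => k0 m δ (some i)) := by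
    intro i n hn
    rcases n with _ | n
    · rw [ind_zero]; exact zero_mem _
    · exact subset_span ⟨Sum.inl ⟨i, ⟨n, by omega⟩⟩, rfl⟩
  apply span_crit _ hind
  have h := one_eq (m := m) (δ := δ) 0
  have h2 : indy m δ = 1 - (ind m δ 0 (m 0) + ind m δ (0 + 1) (m (0 + 1)) +
      ind m δ (0 + 2) (m (0 + 2))) := by
    rw [h]; abel
  rw [h2]
  exact sub_mem hone (add_mem (add_mem (hind _ _ le_rfl) (hind _ _ le_rfl)) (hind _ _ le_rfl))

theorem k0_ex (hδ : δ = true) (e : FanElt m ε δ) (he : e ≠ .y0 hδ) :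
    ∃ a b, fanVec m ε δ e = k0 m δ a - k0 m δ b := by
  cases e with
  | y i j =>
    obtain ⟨j, hj⟩ := j
    rw [fanVec_y]
    rcases j with _ | j
    · refine ⟨some (Sum.inl ⟨i, ⟨0, hj⟩⟩), none, ?_⟩
      simp only [k0, ind_zero]
    · exact ⟨some (Sum.inl ⟨i, ⟨j + 1, hj⟩⟩), some (Sum.inl ⟨i, ⟨j, by omega⟩⟩), rfl⟩
  | x i j =>
    rw [fanVec_x]
    exact ⟨some (Sum.inr ⟨(), hδ⟩), some (Sum.inl ⟨i, j⟩), rfl⟩
  | x0 h =>
    rw [fanVec_x0]
    refine ⟨some (Sum.inr ⟨(), hδ⟩), none, ?_⟩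
    simp only [k0, sub_zero]
  | y0 h => exact absurd rfl he

theorem k1_li (hm : ∀ i, 1 ≤ m i) (i0 : Fin 3) (j0 : ℕ) (hj0 : j0 < m i0) :
    LinearIndependent F2 (fun i => k1 m δ i0 j0 (some i)) := by
  apply li_of_span
  set S := span F2 (Set.range fun i => k1 m δ i0 j0 (some i)) with hS
  have hk : ∀ b, k1 m δ i0 j0 (some b) ∈ S := fun b => subset_span ⟨b, rfl⟩
  have hone : (1 : FanBasis m δ → F2) ∈ S := by
    have := hk (Sum.inl ⟨i0, ⟨j0, hj0⟩⟩)
    simpa [k1] using this
  have hind1 : ∀ i n, i ≠ i0 → n ≤ m i → ind m δ i n ∈ S := by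
    intro i n hi hn
    rcases n with _ | n
    · rw [ind_zero]; exact zero_mem _
    · have := hk (Sum.inl ⟨i, ⟨n, by omega⟩⟩)
      simpa [k1, hi] using this
  have hindy : indy m δ ∈ S := by
    by_cases hδ : δ = true
    swap
    · rw [indy_false (by simpa using hδ)]; exact zero_mem _
    · have h1 := hk (Sum.inr ⟨(), hδ⟩)
      have h2 := hind1 (i0 + 1) (m (i0 + 1)) (fin3_ne1 i0) le_rfl
      have h3 := sub_mem h1 h2
      simpa [k1] using h3
  have hfull : ind m δ i0 (m i0) ∈ S := by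
    have h := one_eq (m := m) (δ := δ) i0
    have h2 : ind m δ i0 (m i0) = 1 - (ind m δ (i0 + 1) (m (i0 + 1)) +
        ind m δ (i0 + 2) (m (i0 + 2)) + indy m δ) := by
      rw [h]; abel
    rw [h2]
    exact sub_mem hone (add_mem (add_mem (hind1 _ _ (fin3_ne1 i0) le_rfl)
      (hind1 _ _ (fin3_ne2 i0) le_rfl)) hindy)
  apply span_crit _ _ hindy
  intro i n hn
  by_cases hi : i = i0
  · subst hi
    rcases lt_trichotomy n (j0 + 1) with h | h | h
    · rcases n with _ | n
      · rw [ind_zero]; exact zero_mem _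
      · have h1 := hk (Sum.inl ⟨i, ⟨n, by omega⟩⟩)
        simp only [k1, if_true] at h1
        rw [if_pos (show n < j0 by omega)] at h1
        have h2 := sub_mem hone h1
        rwa [sub_sub_cancel] at h2
    all_goals
      rcases Nat.lt_or_ge n (m i) with hn' | hn'
      · have h1 := hk (Sum.inl ⟨i, ⟨n, hn'⟩⟩)
        simp only [k1, if_true] at h1
        rw [if_neg (show ¬ n < j0 by omega), if_neg (show ¬ n = j0 by omega)] at h1
        have h2 := sub_mem (add_mem (add_mem (hind1 (i + 1) (m (i + 1)) (fin3_ne1 i) le_rfl) hindy)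
          hfull) h1
        have h3 : ind m δ (i + 1) (m (i + 1)) + indy m δ + ind m δ i (m i) -
            (ind m δ (i + 1) (m (i + 1)) + indy m δ + (ind m δ i (m i) - ind m δ i n)) =
            ind m δ i n := by abel
        rwa [h3] at h2
      · have : n = m i := le_antisymm hn hn'
        rw [this]; exact hfull
  · exact hind1 i n hi hn

theorem k1_top (hm : ∀ i, 1 ≤ m i) (i0 : Fin 3) (j0 : ℕ) :
    ∃ a, k1 m δ i0 j0 a = ind m δ (i0 + 1) (m (i0 + 1)) + indy m δ := by
  by_cases hδ : δ = true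
  swap
  · refine ⟨some (Sum.inl ⟨i0 + 1, ⟨m (i0 + 1) - 1, by have := hm (i0 + 1); omega⟩⟩), ?_⟩
    simp only [k1]
    rw [if_neg (fin3_ne1 i0), indy_false (by simpa using hδ), add_zero]
    congr 1
    have := hm (i0 + 1)
    omega
  · exact ⟨some (Sum.inr ⟨(), hδ⟩), rfl⟩

theorem k1_ind (i0 : Fin 3) (j0 : ℕ) (i : Fin 3) (hi : i ≠ i0) (n : ℕ) (hn : n ≤ m i) :
    ∃ a, k1 m δ i0 j0 a = ind m δ i n := by
  rcases n with _ | n
  · exact ⟨none, by rw [ind_zero]; rfl⟩
  · refine ⟨some (Sum.inl ⟨i, ⟨n, by omega⟩⟩), ?_⟩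
    simp only [k1]
    rw [if_neg hi]

theorem k1_low (i0 : Fin 3) (j0 : ℕ) (hj0 : j0 < m i0) (n : ℕ) (hn : n ≤ j0) :
    ∃ a, k1 m δ i0 j0 a = 1 - ind m δ i0 n := by
  rcases n with _ | n
  · refine ⟨some (Sum.inl ⟨i0, ⟨j0, hj0⟩⟩), ?_⟩
    simp [k1, ind_zero]
  · refine ⟨some (Sum.inl ⟨i0, ⟨n, by omega⟩⟩), ?_⟩
    simp only [k1, if_true]
    rw [if_pos (show n < j0 by omega)]

theorem k1_high (hm : ∀ i, 1 ≤ m i) (i0 : Fin 3) (j0 : ℕ) (hj0 : j0 < m i0) (n : ℕ) (hn : j0 < n)
    (hn' : n ≤ m i0) : ∃ a, k1 m δ i0 j0 a = ind m δ (i0 + 1) (m (i0 + 1)) + indy m δ +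
        (ind m δ i0 (m i0) - ind m δ i0 n) := by
  rcases Nat.lt_or_ge n (m i0) with h | h
  · refine ⟨some (Sum.inl ⟨i0, ⟨n, h⟩⟩), ?_⟩
    simp only [k1, if_true]
    rw [if_neg (show ¬ n < j0 by omega), if_neg (show ¬ n = j0 by omega)]
  · obtain rfl : n = m i0 := le_antisymm hn' h
    obtain ⟨a, ha⟩ := k1_top (δ := δ) hm i0 j0
    exact ⟨a, by rw [ha, sub_self, add_zero]⟩

theorem k1_ex (hm : ∀ i, 1 ≤ m i) (i0 : Fin 3) (j0 : Fin (m i0)) (e : FanElt m ε δ)
    (he : e ≠ .y i0 j0) :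
    ∃ a b, fanVec m ε δ e = k1 m δ i0 j0 a - k1 m δ i0 j0 b := by
  cases e with
  | y i j =>
    rw [fanVec_y]
    by_cases hi : i = i0
    · subst hi
      have hj : (j : ℕ) ≠ j0 := fun h => he (by rw [Fin.ext h])
      rcases lt_or_gt_of_ne hj with h | h
      · obtain ⟨a, ha⟩ := k1_low (m := m) (δ := δ) i j0 j0.2 j (by omega)
        obtain ⟨b, hb⟩ := k1_low (m := m) (δ := δ) i j0 j0.2 (j + 1) (by omega)
        refine ⟨a, b, ?_⟩
        rw [ha, hb]; abel
      · obtain ⟨a, ha⟩ := k1_high (m := m) (δ := δ) hm i j0 j0.2 j h (by have := j.2; omega)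
        obtain ⟨b, hb⟩ := k1_high (m := m) (δ := δ) hm i j0 j0.2 (j + 1) (by omega)
          (by have := j.2; omega)
        refine ⟨a, b, ?_⟩
        rw [ha, hb]; abel
    · obtain ⟨a, ha⟩ := k1_ind (m := m) (δ := δ) i0 j0 i hi (j + 1) (by have := j.2; omega)
      obtain ⟨b, hb⟩ := k1_ind (m := m) (δ := δ) i0 j0 i hi j (by have := j.2; omega)
      exact ⟨a, b, by rw [ha, hb]⟩
  | x i j =>
    rw [fanVec_x]
    by_cases hi : i = i0
    · subst hi
      rcases Nat.lt_or_ge j j0 with h | h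
      · obtain ⟨a, ha⟩ := k1_low (m := m) (δ := δ) i j0 j0.2 (j + 1) (by omega)
        refine ⟨a, none, ?_⟩
        rw [ha]
        simp only [k1, sub_zero]
      · obtain ⟨a, ha⟩ := k1_ind (m := m) (δ := δ) i j0 (i + 2) (fin3_ne2 i) (m (i + 2)) le_rfl
        obtain ⟨b, hb⟩ := k1_high (m := m) (δ := δ) hm i j0 j0.2 (j + 1) (by omega)
          (by have := j.2; omega)
        refine ⟨a, b, ?_⟩
        rw [ha, hb, ← neg_eq' (ind m δ (i + 1) (m (i + 1)) + indy m δ +
          (ind m δ i (m i) - ind m δ i (j + 1))), one_eq i]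
        abel
    · obtain ⟨a, ha⟩ := k1_low (m := m) (δ := δ) i0 j0 j0.2 0 (by omega)
      obtain ⟨b, hb⟩ := k1_ind (m := m) (δ := δ) i0 j0 i hi (j + 1) (by have := j.2; omega)
      exact ⟨a, b, by rw [ha, hb, ind_zero, sub_zero]⟩
  | x0 h =>
    rw [fanVec_x0]
    obtain ⟨a, ha⟩ := k1_low (m := m) (δ := δ) i0 j0 j0.2 0 (by omega)
    refine ⟨a, none, ?_⟩
    rw [ha]
    simp only [k1, sub_zero, ind_zero]
  | y0 h =>
    rw [fanVec_y0]
    obtain ⟨a, ha⟩ := k1_top (δ := δ) hm i0 j0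
    obtain ⟨b, hb⟩ := k1_ind (m := m) (δ := δ) i0 j0 (i0 + 1) (fin3_ne1 i0) (m (i0 + 1)) le_rfl
    refine ⟨a, b, ?_⟩
    rw [ha, hb]; abel

/-- the deletions of the basis elements of a triple fan are regular -/
theorem del_y_regular (hG : SpecGraphic.{0}) {α : Type u} (M : Matroid α) [M.Finite]
    (φ : FanElt m ε δ → α) (hφ : Function.Injective φ) (hr : Set.range φ = M.E)
    (h : ∀ I : Set (FanElt m ε δ), (M.Indep (φ '' I) ↔ LinearIndepOn F2 (fanVec m ε δ) I))
    (hm : ∀ i, 1 ≤ m i) (i : Fin 3) (j : Fin (m i)) : IsRegular (M.delete {φ (.y i j)}) :=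
  regular_of_graphic hG M φ hφ _ hr _ h (k1 m δ i j) rfl (k1_li hm i j j.2) (k1_ex hm i j)

theorem del_y0_regular (hG : SpecGraphic.{0}) {α : Type u} (M : Matroid α) [M.Finite]
    (φ : FanElt m ε δ → α) (hφ : Function.Injective φ) (hr : Set.range φ = M.E)
    (h : ∀ I : Set (FanElt m ε δ), (M.Indep (φ '' I) ↔ LinearIndepOn F2 (fanVec m ε δ) I))
    (hδ : δ = true) : IsRegular (M.delete {φ (.y0 hδ)}) :=
  regular_of_graphic hG M φ hφ _ hr _ h (k0 m δ) rfl (k0_li hδ) (k0_ex hδ)

end FanX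

end MP948082
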