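import Mathlib
import Pool.Agent.Lib.MP_948082_co.SpecTutte
import Pool.Agent.Lib.MP_948082_co.Dual

section
/-!
# MP_948082_co : facts on bases of finite matroids
-/
open Set

namespace MP948082

universe u

variable {α : Type u} {M N : Matroid α}

theorem isBase_iff_card [M.Finite] {B T : Set α} (hB : M.IsBase B) :
    M.IsBase T ↔ M.Indep T ∧ T.ncard = B.ncard := by
  constructor
  · intro hT
    exact ⟨hT.indep, hT.ncard_eq_ncard_of_isBase hB⟩
  · rintro ⟨hT, hc⟩
    obtain ⟨B1, hB1, hTB⟩ := hT.exists_isBase_superset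
    have hfin : B1.Finite := hB1.finite
    have : T = B1 := by
      apply eq_of_subset_of_ncard_le hTB _ hfin
      rw [hB1.ncard_eq_ncard_of_isBase hB, hc]
    rw [this]
    exact hB1

theorem exchange_iff_notMem_closure {B : Set α} (hB : M.IsBase B) {r e : α} (he : e ∈ M.E)
    (hr : r ∈ B) (heB : e ∉ B) : M.IsBase (insert e (B \ {r})) ↔ e ∉ M.closure (B \ {r}) := by
  constructor
  · intro hb hc
    rw [(hB.indep.sdiff {r}).mem_closure_iff_of_notMem (fun hc => heB hc.1)] at hc
    exact hc.not_indep hb.indep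
  · intro hc
    exact hB.exchange_base_of_notMem_closure hr hc he

/-- Double exchanges through single exchanges when one of the four single exchanges fails. -/
theorem double_exchange {B : Set α} (hB : M.IsBase B) {a b x y : α} (hab : a ≠ b) (hxy : x ≠ y)
    (ha : a ∈ B) (hb : b ∈ B) (hx : x ∉ B) (hy : y ∉ B) (hxE : x ∈ M.E) (hyE : y ∈ M.E)
    (h0 : ¬ M.IsBase (insert x (B \ {a}))) :
    M.IsBase ((B \ {a, b}) ∪ {x, y}) ↔
      M.IsBase (insert x (B \ {b})) ∧ M.IsBase (insert y (B \ {a})) := by
  have hBE := hB.subset_ground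
  have hxa : x ∈ M.closure (B \ {a}) := by
    by_contra hc
    exact h0 ((exchange_iff_notMem_closure hB hxE ha hx).2 hc)
  rw [exchange_iff_notMem_closure hB hxE hb hx, exchange_iff_notMem_closure hB hyE ha hy]
  have hinter : B \ {a, b} = (B \ {a}) ∩ (B \ {b}) := by
    ext e; simp only [mem_sdiff, mem_insert_iff, mem_singleton_iff, mem_inter_iff]; tauto
  have hTeq : (B \ {a, b}) ∪ {x, y} = insert y (insert x (B \ {a, b})) := by
    ext e; simp only [mem_union, mem_sdiff, mem_insert_iff, mem_singleton_iff]; tauto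
  have hins : insert b (B \ {a, b}) = B \ {a} := by
    ext e
    simp only [mem_insert_iff, mem_sdiff, mem_singleton_iff, not_or]
    constructor
    · rintro (rfl | h)
      · exact ⟨hb, fun h => hab h.symm⟩
      · exact ⟨h.1, h.2.1⟩
    · rintro ⟨h1, h2⟩
      by_cases heb : e = b
      · exact Or.inl heb
      · exact Or.inr ⟨h1, h2, heb⟩
  have hindU : M.Indep ((B \ {a}) ∪ (B \ {b})) :=
    hB.indep.subset (union_subset sdiff_subset sdiff_subset)
  have hsub2 : B \ {a, b} ⊆ M.E := sdiff_subset.trans hBE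
  have hind2 : M.Indep (B \ {a, b}) := hB.indep.subset sdiff_subset
  have hx2 : x ∉ B \ {a, b} := fun h => hx h.1
  have hspan : x ∉ M.closure (B \ {b}) → M.closure (insert x (B \ {a, b})) = M.closure (B \ {a}) := by
    intro hxb
    have hx3 : x ∉ M.closure (B \ {a, b}) := fun h => hxb (M.closure_subset_closure (by
      rw [hinter]; exact inter_subset_right) h)
    have hbmem : b ∈ M.closure (insert x (B \ {a, b})) := by
      apply Matroid.mem_closure_insert hx3
      rw [hins]
      exact hxa
    apply subset_antisymm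
    · apply M.closure_subset_closure_of_subset_closure
      apply insert_subset hxa
      apply (M.subset_closure (B \ {a, b}) hsub2).trans
      apply M.closure_subset_closure
      rw [hinter]; exact inter_subset_left
    · apply M.closure_subset_closure_of_subset_closure
      rw [← hins]
      apply insert_subset hbmem
      apply (M.subset_closure (B \ {a, b}) hsub2).trans
      exact M.closure_subset_closure (subset_insert _ _)
  constructor
  · intro hT
    rw [hTeq] at hT
    refine ⟨fun hc => ?_, fun hc => ?_⟩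
    · have h1 : x ∈ M.closure (B \ {a, b}) := by
        rw [hinter, hindU.closure_inter_eq_inter_closure]
        exact ⟨hxa, hc⟩
      rw [hind2.mem_closure_iff_of_notMem hx2] at h1
      exact h1.not_indep (hT.indep.subset (subset_insert _ _))
    · have h1 : insert y (insert x (B \ {a, b})) ⊆ M.closure (B \ {a}) := by
        apply insert_subset hc
        apply insert_subset hxa
        apply (M.subset_closure (B \ {a, b}) hsub2).trans
        apply M.closure_subset_closure
        rw [hinter]; exact inter_subset_left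
      have h2 := M.closure_subset_closure_of_subset_closure h1
      rw [hT.closure_eq] at h2
      exact hB.indep.notMem_closure_sdiff_of_mem ha (h2 (hBE ha))
  · rintro ⟨hxb, hya⟩
    rw [hTeq]
    have hcl := hspan hxb
    have hx3 : x ∉ M.closure (B \ {a, b}) := fun h => hxb (M.closure_subset_closure (by
      rw [hinter]; exact inter_subset_right) h)
    have hi1 : M.Indep (insert x (B \ {a, b})) := by
      by_contra hc
      apply hx3
      rw [hind2.mem_closure_iff_of_notMem hx2]
      exact ⟨hc, insert_subset hxE hsub2⟩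
    have hy3 : y ∉ insert x (B \ {a, b}) := by
      rintro (rfl | h)
      · exact hxy rfl
      · exact hy h.1
    have hi2 : M.Indep (insert y (insert x (B \ {a, b}))) := by
      by_contra hc
      apply hya
      rw [← hcl, hi1.mem_closure_iff_of_notMem hy3]
      exact ⟨hc, insert_subset hyE (insert_subset hxE hsub2)⟩
    rw [hi2.isBase_iff_ground_subset_closure]
    have hby : M.IsBase (insert y (B \ {a})) := (exchange_iff_notMem_closure hB hyE ha hy).2 hya
    rw [← hby.closure_eq]
    apply M.closure_subset_closure_of_subset_closure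
    apply insert_subset
    · exact M.mem_closure_of_mem (mem_insert _ _) (insert_subset hyE (insert_subset hxE hsub2))
    · apply (M.subset_closure (B \ {a}) (sdiff_subset.trans hBE)).trans
      rw [← hcl]
      exact M.closure_subset_closure (subset_insert _ _)

/-- Reverse (dual) exchange. -/
theorem rev_exchange {B T : Set α} (hB : M.IsBase B) (hT : M.IsBase T) {t : α} (ht : t ∈ T \ B) :
    ∃ b ∈ B \ T, M.IsBase (insert t (B \ {b})) := by
  have htE : t ∈ M.E := hT.subset_ground ht.1
  obtain ⟨b, hb, hbase⟩ := hB.compl_isBase_dual.exchange hT.compl_isBase_dual (e := t)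
    ⟨⟨htE, ht.2⟩, fun h => h.2 ht.1⟩
  have hbE : b ∈ M.E := hb.1.1
  have hbB : b ∈ B := by
    by_contra hc
    exact hb.2 ⟨hbE, hc⟩
  refine ⟨b, ⟨hbB, hb.1.2⟩, ?_⟩
  have h1 := hbase.compl_isBase_dual
  rw [Matroid.dual_dual, Matroid.dual_ground] at h1
  have e : M.E \ insert b ((M.E \ B) \ {t}) = insert t (B \ {b}) := by
    have hBE := hB.subset_ground
    ext s
    simp only [mem_sdiff, mem_insert_iff, mem_singleton_iff, not_or, not_and, not_not]
    constructor
    · rintro ⟨h1, h2, h3⟩
      by_cases hs : s ∈ B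
      · exact Or.inr ⟨hs, h2⟩
      · exact Or.inl (h3 ⟨h1, hs⟩)
    · rintro (rfl | h)
      · exact ⟨htE, fun h => ht.2 (h ▸ hbB), fun _ => rfl⟩
      · exact ⟨hBE h.1, h.2, fun h' => absurd h.1 h'.2⟩
  rwa [e] at h1

/-- If two matroids have the common base `B`, the same single exchanges in each of the four cases and
one of them fails, they have the same double exchange. -/
theorem double_exchange_agree {B : Set α} (hB : M.IsBase B) (hB' : N.IsBase B) (hE : N.E = M.E)
    {a b x y : α} (hab : a ≠ b) (hxy : x ≠ y)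
    (ha : a ∈ B) (hb : b ∈ B) (hx : x ∉ B) (hy : y ∉ B) (hxE : x ∈ M.E) (hyE : y ∈ M.E)
    (hax : M.IsBase (insert x (B \ {a})) ↔ N.IsBase (insert x (B \ {a})))
    (hay : M.IsBase (insert y (B \ {a})) ↔ N.IsBase (insert y (B \ {a})))
    (hbx : M.IsBase (insert x (B \ {b})) ↔ N.IsBase (insert x (B \ {b})))
    (hby : M.IsBase (insert y (B \ {b})) ↔ N.IsBase (insert y (B \ {b})))
    (h0 : ¬ (M.IsBase (insert x (B \ {a})) ∧ M.IsBase (insert y (B \ {a})) ∧
      M.IsBase (insert x (B \ {b})) ∧ M.IsBase (insert y (B \ {b})))) :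
    M.IsBase ((B \ {a, b}) ∪ {x, y}) ↔ N.IsBase ((B \ {a, b}) ∪ {x, y}) := by
  have hxE' : x ∈ N.E := hE ▸ hxE
  have hyE' : y ∈ N.E := hE ▸ hyE
  have pab : ({b, a} : Set α) = {a, b} := pair_comm b a
  have pxy : ({y, x} : Set α) = {x, y} := pair_comm y x
  by_cases h1 : M.IsBase (insert x (B \ {a}))
  · by_cases h2 : M.IsBase (insert y (B \ {a}))
    · by_cases h3 : M.IsBase (insert x (B \ {b}))
      · have h4 : ¬ M.IsBase (insert y (B \ {b})) := fun h => h0 ⟨h1, h2, h3, h⟩
        have e1 := double_exchange hB hab.symm hxy.symm hb ha hy hx hyE hxE h4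
        have e2 := double_exchange hB' hab.symm hxy.symm hb ha hy hx hyE' hxE' (fun h => h4 (hby.2 h))
        rw [pab, pxy] at e1 e2
        rw [e1, e2, hay, hbx]
      · have e1 := double_exchange hB hab.symm hxy hb ha hx hy hxE hyE h3
        have e2 := double_exchange hB' hab.symm hxy hb ha hx hy hxE' hyE' (fun h => h3 (hbx.2 h))
        rw [pab] at e1 e2
        rw [e1, e2, hax, hby]
    · have e1 := double_exchange hB hab hxy.symm ha hb hy hx hyE hxE h2
      have e2 := double_exchange hB' hab hxy.symm ha hb hy hx hyE' hxE' (fun h => h2 (hay.2 h))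
      rw [pxy] at e1 e2
      rw [e1, e2, hby, hax]
  · rw [double_exchange hB hab hxy ha hb hx hy hxE hyE h1,
      double_exchange hB' hab hxy ha hb hx hy hxE' hyE' (fun h => h1 (hax.2 h)), hbx, hay]

end MP948082
end

section
/-!
# MP_948082_co : ASSEMBLY, Tutte's theorem from its parts
-/
open Set Submodule

namespace MP948082

universe u

variable {α : Type u} {F : Type*} [Field F] {V : Type*} [AddCommGroup V] [Module F V]
  {M : Matroid α} {v : α → V}

theorem adj_iff (h : IsRep F M v) (hs : span F (v '' M.E) = ⊤) {B : Set α}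
    (hB : M.IsBase B) {r c : α} (hr : r ∈ B) (hc : c ∈ M.E) (hcB : c ∉ B) :
    Adj M B r c ↔ (h.basis hs hB).coord ⟨r, hr⟩ (v c) ≠ 0 := by
  rw [← h.exchange_iff hs hB hr hc hcB]
  exact ⟨fun h => h.2.2.2, fun h => ⟨hr, hc, hcB, h⟩⟩

/-- A set closed under adjacency gives a separation. -/
theorem sep_of_adj (h : IsRep F M v) (hs : span F (v '' M.E) = ⊤) {B : Set α}
    (hB : M.IsBase B) (S K : Set α)
    (hadj : ∀ r c, c ∉ K → Adj M B r c → (r ∈ S ↔ c ∈ S)) :
    Disjoint (span F (v '' ((M.E ∩ S) \ K))) (span F (v '' ((M.E \ S) \ K))) := by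
  have h1 : span F (v '' ((M.E ∩ S) \ K)) ≤ span F (v '' (B ∩ S)) := by
    rw [span_le]
    rintro _ ⟨c, ⟨⟨hcE, hcS⟩, hcK⟩, rfl⟩
    by_cases hcB : c ∈ B
    · exact subset_span ⟨c, ⟨hcB, hcS⟩, rfl⟩
    · rw [SetLike.mem_coe, h.mem_span_subset_base hs hB inter_subset_left]
      intro r hr hrS
      by_contra hne
      have := (adj_iff h hs hB hr hcE hcB).2 hne
      exact hrS ⟨hr, (hadj r c hcK this).2 hcS⟩
  have h2 : span F (v '' ((M.E \ S) \ K)) ≤ span F (v '' (B \ S)) := by
    rw [span_le]
    rintro _ ⟨c, ⟨⟨hcE, hcS⟩, hcK⟩, rfl⟩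
    by_cases hcB : c ∈ B
    · exact subset_span ⟨c, ⟨hcB, hcS⟩, rfl⟩
    · rw [SetLike.mem_coe, h.mem_span_subset_base hs hB sdiff_subset]
      intro r hr hrS
      by_contra hne
      have := (adj_iff h hs hB hr hcE hcB).2 hne
      exact hrS ⟨hr, fun hrS' => hcS ((hadj r c hcK this).1 hrS')⟩
  refine Disjoint.mono h1 h2 ?_
  rw [disjoint_def]
  intro x hx hy
  rw [h.mem_span_subset_base hs hB inter_subset_left] at hx
  rw [h.mem_span_subset_base hs hB sdiff_subset] at hy
  apply (h.basis hs hB).ext_elem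
  intro r
  rw [map_zero, Finsupp.zero_apply]
  by_cases hr : (r : α) ∈ S
  · exact hy r r.2 (fun h => h.2 hr)
  · exact hx r r.2 (fun h => hr h.2)

/-- A separation gives a set closed under adjacency, with respect to every base. -/
theorem adj_of_sep (h : IsRep F M v) (hs : span F (v '' M.E) = ⊤) {B : Set α}
    (hB : M.IsBase B) (S K : Set α) (hBK : ∀ k ∈ K, k ∉ B)
    (hd : Disjoint (span F (v '' ((M.E ∩ S) \ K))) (span F (v '' ((M.E \ S) \ K)))) :
    ∀ r c, c ∉ K → Adj M B r c → (r ∈ S ↔ c ∈ S) := by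
  intro r c hcK hadj
  obtain ⟨hr, hcE, hcB, -⟩ := id hadj
  have hBE := hB.subset_ground
  have hne := (adj_iff h hs hB hr hcE hcB).1 hadj
  have hvc : v c ∈ span F (v '' (B ∩ S)) ⊔ span F (v '' (B \ S)) := by
    rw [← span_union, ← image_union, inter_union_sdiff,
      h.span_eq_of_isBasis hB.isBasis_ground, hs]
    trivial
  obtain ⟨u1, hu1, u2, hu2, hsum⟩ := mem_sup.1 hvc
  have m1 : span F (v '' (B ∩ S)) ≤ span F (v '' ((M.E ∩ S) \ K)) :=
    span_mono (image_mono fun e he => ⟨⟨hBE he.1, he.2⟩, fun hk => hBK e hk he.1⟩)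
  have m2 : span F (v '' (B \ S)) ≤ span F (v '' ((M.E \ S) \ K)) :=
    span_mono (image_mono fun e he => ⟨⟨hBE he.1, he.2⟩, fun hk => hBK e hk he.1⟩)
  rw [disjoint_def] at hd
  constructor
  · intro hrS
    by_contra hcS
    have h3 : v c ∈ span F (v '' ((M.E \ S) \ K)) := subset_span ⟨c, ⟨⟨hcE, hcS⟩, hcK⟩, rfl⟩
    have h4 : u1 ∈ span F (v '' ((M.E \ S) \ K)) := by
      have : u1 = v c - u2 := by rw [← hsum, add_sub_cancel_right]
      rw [this]
      exact sub_mem h3 (m2 hu2)
    have h5 := hd u1 (m1 hu1) h4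
    rw [h5, zero_add] at hsum
    rw [hsum] at hu2
    rw [h.mem_span_subset_base hs hB sdiff_subset] at hu2
    exact hne (hu2 r hr (fun h => h.2 hrS))
  · intro hcS
    by_contra hrS
    have h3 : v c ∈ span F (v '' ((M.E ∩ S) \ K)) := subset_span ⟨c, ⟨⟨hcE, hcS⟩, hcK⟩, rfl⟩
    have h4 : u2 ∈ span F (v '' ((M.E ∩ S) \ K)) := by
      have : u2 = v c - u1 := by rw [← hsum, add_sub_cancel_left]
      rw [this]
      exact sub_mem h3 (m1 hu1)
    have h5 := hd u2 h4 (m2 hu2)
    rw [h5, add_zero] at hsum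
    rw [hsum] at hu1
    rw [h.mem_span_subset_base hs hB inter_subset_left] at hu1
    exact hne (hu1 r hr (fun h => hrS h.2))

/-- In a binary matroid a double exchange with all four entries nonzero is dependent. -/
theorem not_isBase_of_four (hM : Representable F2 M) [M.Finite] {B : Set α} (hB : M.IsBase B)
    {a b x y : α} (hxy : x ≠ y) (ha : a ∈ B) (hb : b ∈ B) (hx : x ∉ B)
    (hy : y ∉ B) (hxE : x ∈ M.E) (hyE : y ∈ M.E)
    (hax : M.IsBase (insert x (B \ {a}))) (hay : M.IsBase (insert y (B \ {a})))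
    (hbx : M.IsBase (insert x (B \ {b}))) (hby : M.IsBase (insert y (B \ {b}))) :
    ¬ M.IsBase ((B \ {a, b}) ∪ {x, y}) := by
  intro hT
  obtain ⟨n, v, h, hs⟩ := hM.exists_spanning
  rw [h.exchange_iff hs hB ha hxE hx] at hax
  rw [h.exchange_iff hs hB ha hyE hy] at hay
  rw [h.exchange_iff hs hB hb hxE hx] at hbx
  rw [h.exchange_iff hs hB hb hyE hy] at hby
  have ea := F2_eq_of_ne_zero_iff (iff_of_true hax hay)
  have eb := F2_eq_of_ne_zero_iff (iff_of_true hbx hby)
  have hmem : v y - v x ∈ span F2 (v '' (B \ {a, b})) := by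
    rw [h.mem_span_subset_base hs hB sdiff_subset]
    intro r hr hrn
    have : r = a ∨ r = b := by
      by_contra hc
      push Not at hc
      exact hrn ⟨hr, fun h => by
        rcases h with h | h
        · exact hc.1 h
        · exact hc.2 h⟩
    rcases this with rfl | rfl
    · rw [map_sub, ea, sub_self]
    · rw [map_sub, eb, sub_self]
  have hTeq : (B \ {a, b}) ∪ {x, y} = insert y (insert x (B \ {a, b})) := by
    ext e; simp only [mem_union, mem_sdiff, mem_insert_iff, mem_singleton_iff]; tauto
  rw [hTeq] at hT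
  have hli := h.linearIndepOn hT.indep
  have hy3 : y ∉ insert x (B \ {a, b}) := by
    rintro (rfl | h)
    · exact hxy rfl
    · exact hy h.1
  rw [linearIndepOn_insert hy3] at hli
  apply hli.2
  have h1 : v x ∈ span F2 (v '' insert x (B \ {a, b})) := subset_span ⟨x, mem_insert _ _, rfl⟩
  have h2 := span_mono (image_mono (subset_insert x (B \ {a, b}))) hmem
  have := add_mem h2 h1
  simpa using this

/-- The gluing step. -/
theorem step (hPath : SpecPath.{u}) (hScale : SpecScale.{u}) {α : Type u} (M : Matroid α)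
    [M.Finite] {F : Type} [Field F] (hbin : Representable F2 M) (h7 : ¬ HasF7 M) {B : Set α}
    (hB : M.IsBase B) {x y : α} (hxy : x ≠ y) (hx : x ∈ M.E) (hy : y ∈ M.E) (hxB : x ∉ B)
    (hyB : y ∉ B) (hdx : Representable F (M.delete {x})) (hdy : Representable F (M.delete {y}))
    (hconn : ∀ S : Set α, (∀ r c, c ∉ ({x, y} : Set α) → Adj M B r c → (r ∈ S ↔ c ∈ S)) →
      ∀ a b, a ∈ M.E → b ∈ M.E → a ∉ ({x, y} : Set α) → b ∉ ({x, y} : Set α) → a ∈ S → b ∈ S) :
    Representable F M := by
  obtain ⟨n, w, hwx, hwy⟩ := hScale α M F x y hxy hx hy hbin h7 ⟨B, hB, hxB, hyB⟩ hdx hdy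
  set N : Matroid α := vecMatroid F w M.E M.ground_finite with hN
  have hNE : N.E = M.E := rfl
  have agree : ∀ I, (x ∉ I ∨ y ∉ I) → (M.Indep I ↔ N.Indep I) := by
    intro I hI
    by_cases hIE : I ⊆ M.E
    · rw [hN, vecMatroid_indep_iff, and_iff_right hIE]
      rcases hI with hI | hI
      · have := hwx I (by
          rw [Matroid.delete_ground]
          exact fun e he => ⟨hIE he, fun h => hI (h ▸ he)⟩)
        rw [← this, Matroid.delete_indep_iff]
        rw [and_iff_left (disjoint_singleton_right.2 hI)]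
      · have := hwy I (by
          rw [Matroid.delete_ground]
          exact fun e he => ⟨hIE he, fun h => hI (h ▸ he)⟩)
        rw [← this, Matroid.delete_indep_iff]
        rw [and_iff_left (disjoint_singleton_right.2 hI)]
    · exact iff_of_false (fun h => hIE h.subset_ground) (fun h => hIE h.subset_ground)
  have hNB : N.IsBase B := by
    have hi : N.Indep B := (agree B (Or.inl hxB)).1 hB.indep
    apply hi.isBase_of_forall_insert
    intro e he hc
    have hor : x ∉ insert e B ∨ y ∉ insert e B := by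
      by_cases hex : e = x
      · right
        rintro (h | h)
        · exact hxy (hex.symm.trans h.symm)
        · exact hyB h
      · left
        rintro (h | h)
        · exact hex h.symm
        · exact hxB h
    have h1 := (agree _ hor).2 hc
    exact he.2 (hB.mem_of_insert_indep h1)
  have agreeB : ∀ T, (x ∉ T ∨ y ∉ T) → (M.IsBase T ↔ N.IsBase T) := by
    intro T hT
    rw [isBase_iff_card hB, isBase_iff_card hNB, agree T hT]
  suffices hall : ∀ T, M.IsBase T ↔ N.IsBase T by
    have : M = N := Matroid.ext_isBase rfl fun T _ => hall T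
    rw [this]
    exact vecMatroid_representable
  intro T
  by_contra hT
  have hxT : x ∈ T := by
    by_contra hc
    exact hT (agreeB T (Or.inl hc))
  have hyT : y ∈ T := by
    by_contra hc
    exact hT (agreeB T (Or.inr hc))
  obtain ⟨k, v, hv, hvs⟩ := hbin.exists_spanning
  have key : ∀ n, ∀ B', M.IsBase B' → x ∉ B' → y ∉ B' → (T \ B').ncard = n → False := by
    intro n
    induction n using Nat.strong_induction_on with
    | _ n ih =>
    intro B' hB' hxB' hyB' hcard
    have hNB' : N.IsBase B' := (agreeB B' (Or.inl hxB')).1 hB'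
    have hTfin : T.Finite := by
      by_contra hc
      apply hT
      exact iff_of_false (fun h => hc h.finite) (fun h => hc h.finite)
    by_cases hex : ∃ t ∈ T \ B', t ≠ x ∧ t ≠ y
    · obtain ⟨t, ht, htx, hty⟩ := hex
      have : ∃ b ∈ B' \ T, M.IsBase (insert t (B' \ {b})) := by
        by_cases hMT : M.IsBase T
        · exact rev_exchange hB' hMT ht
        · have hNT : N.IsBase T := by
            by_contra hc
            exact hT (iff_of_false hMT hc)
          obtain ⟨b, hb, hbb⟩ := rev_exchange hNB' hNT ht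
          refine ⟨b, hb, (agreeB _ (Or.inl ?_)).2 hbb⟩
          rintro (h | h)
          · exact htx h.symm
          · exact hxB' h.1
      obtain ⟨b, hb, hbase⟩ := this
      refine ih _ ?_ (insert t (B' \ {b})) hbase ?_ ?_ rfl
      · rw [← hcard]
        apply ncard_lt_ncard _ (hTfin.subset sdiff_subset)
        refine ⟨fun e he => ⟨he.1, fun heB => he.2 (Or.inr ⟨heB, fun h => hb.2 (h ▸ he.1)⟩)⟩, ?_⟩
        intro hc
        exact (hc ht).2 (mem_insert _ _)
      · rintro (h | h)
        · exact htx h.symm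
        · exact hxB' h.1
      · rintro (h | h)
        · exact hty h.symm
        · exact hyB' h.1
    · push Not at hex
      have hTB : T \ B' = {x, y} := by
        ext e
        constructor
        · intro he
          by_cases hex' : e = x
          · exact Or.inl hex'
          · exact Or.inr (hex e he hex')
        · rintro (rfl | h)
          · exact ⟨hxT, hxB'⟩
          · rw [mem_singleton_iff] at h
            subst h
            exact ⟨hyT, hyB'⟩
      have hBT : (B' \ T).ncard = 2 := by
        by_cases hMT : M.IsBase T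
        · rw [hB'.ncard_sdiff_comm hMT, hTB, ncard_pair hxy]
        · have hNT : N.IsBase T := by
            by_contra hc
            exact hT (iff_of_false hMT hc)
          rw [hNB'.ncard_sdiff_comm hNT, hTB, ncard_pair hxy]
      obtain ⟨a, b, hab, hBTeq⟩ := ncard_eq_two.1 hBT
      have ha : a ∈ B' \ T := by rw [hBTeq]; exact mem_insert _ _
      have hb : b ∈ B' \ T := by rw [hBTeq]; exact mem_insert_of_mem _ rfl
      have hTeq : T = (B' \ {a, b}) ∪ {x, y} := by
        rw [← hTB, ← hBTeq, sdiff_sdiff_right_self]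
        ext e
        simp only [mem_union, mem_sdiff, mem_inter_iff]
        constructor
        · intro he
          by_cases heB : e ∈ B'
          · exact Or.inl ⟨heB, he⟩
          · exact Or.inr ⟨he, heB⟩
        · rintro (h | h)
          · exact h.2
          · exact h.1
      have nx : ∀ s, y ∉ insert x (B' \ {s}) := by
        rintro s (h | h)
        · exact hxy h.symm
        · exact hyB' h.1
      have ny : ∀ s, x ∉ insert y (B' \ {s}) := by
        rintro s (h | h)
        · exact hxy h
        · exact hxB' h.1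
      by_cases h4 : M.IsBase (insert x (B' \ {a})) ∧ M.IsBase (insert y (B' \ {a})) ∧
          M.IsBase (insert x (B' \ {b})) ∧ M.IsBase (insert y (B' \ {b}))
      · have hMT : ¬ M.IsBase T := by
          rw [hTeq]
          exact not_isBase_of_four ⟨k, v, hv⟩ hB' hxy ha.1 hb.1 hxB' hyB' hx hy h4.1 h4.2.1
            h4.2.2.1 h4.2.2.2
        have hNT : N.IsBase T := by
          by_contra hc
          exact hT (iff_of_false hMT hc)
        rw [hTeq] at hNT
        refine hPath α M N x y hxy hx hy hNE ⟨k, v, hv⟩ h7 agree B' hB' hxB' hyB' a b hab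
          ⟨ha.1, hx, hxB', h4.1⟩ ⟨ha.1, hy, hyB', h4.2.1⟩ ⟨hb.1, hx, hxB', h4.2.2.1⟩
          ⟨hb.1, hy, hyB', h4.2.2.2⟩ ?_ hNT
        -- connectivity
        set K : Set α := {x, y} with hK
        have hKB' : ∀ k ∈ K, k ∉ B' := by
          rintro k (rfl | h)
          · exact hxB'
          · rw [mem_singleton_iff] at h; subst h; exact hyB'
        have hKB : ∀ k ∈ K, k ∉ B := by
          rintro k (rfl | h)
          · exact hxB
          · rw [mem_singleton_iff] at h; subst h; exact hyB
        have hrB' : ∀ e, RowConn M B' K a e → e ∈ B' := by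
          intro e he
          induction he with
          | refl => exact ha.1
          | tail _ h2 _ =>
            obtain ⟨c, -, -, h3⟩ := h2
            exact h3.1
        set S : Set α := {e | RowConn M B' K a e ∨ ∃ r, RowConn M B' K a r ∧ e ∉ K ∧ Adj M B' r e}
          with hS
        have hcl : ∀ r c, c ∉ K → Adj M B' r c → (r ∈ S ↔ c ∈ S) := by
          intro r c hcK hadj
          constructor
          · rintro (h | ⟨r', h, -, h'⟩)
            · exact Or.inr ⟨r, h, hcK, hadj⟩
            · exact absurd hadj.1 h'.2.2.1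
          · rintro (h | ⟨r', h, -, h'⟩)
            · exact absurd (hrB' c h) hadj.2.2.1
            · exact Or.inl (h.tail ⟨c, hcK, h', hadj⟩)
        have hd := sep_of_adj hv hvs hB' S K hcl
        have hcl2 := adj_of_sep hv hvs hB S K hKB hd
        have hbS := hconn S hcl2 a b (hB'.subset_ground ha.1) (hB'.subset_ground hb.1)
          (fun h => hKB' a h ha.1) (fun h => hKB' b h hb.1) (Or.inl Relation.ReflTransGen.refl)
        rcases hbS with h | ⟨r', h, -, h'⟩
        · exact h
        · exact absurd hb.1 h'.2.2.1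
      · apply hT
        rw [hTeq]
        exact double_exchange_agree hB' hNB' hNE hab hxy ha.1 hb.1 hxB' hyB' hx hy
          (agreeB _ (Or.inr (nx a))) (agreeB _ (Or.inl (ny a)))
          (agreeB _ (Or.inr (nx b))) (agreeB _ (Or.inl (ny b))) h4
  exact key _ B hB hxB hyB rfl

/-- The graphic case: all columns have at most two nonzero entries. -/
theorem graphic_case (hGraphic : SpecGraphic.{u}) {α : Type u} (M : Matroid α)
    [M.Finite] {F : Type} [Field F] (hbin : Representable F2 M) {B : Set α} (hB : M.IsBase B)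
    (hdeg : ∀ c r1 r2 r3, Adj M B r1 c → Adj M B r2 c → Adj M B r3 c →
      r1 = r2 ∨ r1 = r3 ∨ r2 = r3) : Representable F M := by
  classical
  obtain ⟨k, v, hv, hvs⟩ := hbin.exists_spanning
  have hBfin : B.Finite := hB.finite
  have : Fintype B := hBfin.fintype
  let g : Option B → (Fin k → F2) := fun i => i.elim 0 (fun r => v r)
  have hex : ∀ e ∈ M.E, ∃ i j : Option B, v e = g i - g j := by
    intro e he
    by_cases heB : e ∈ B
    · exact ⟨some ⟨e, heB⟩, none, by simp [g]⟩
    by_cases h1 : ∃ r1, Adj M B r1 e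
    · obtain ⟨r1, hr1⟩ := h1
      by_cases h2 : ∃ r2, r2 ≠ r1 ∧ Adj M B r2 e
      · obtain ⟨r2, hne, hr2⟩ := h2
        refine ⟨some ⟨r1, hr1.1⟩, some ⟨r2, hr2.1⟩, ?_⟩
        apply (hv.basis hvs hB).ext_elem
        intro r
        apply F2_eq_of_ne_zero_iff
        have e1 := adj_iff hv hvs hB r.2 he heB
        rw [Module.Basis.coord_apply] at e1
        rw [← e1]
        simp only [g, Option.elim]
        have c1 : (hv.basis hvs hB).repr (v r1 - v r2) r =
            (hv.basis hvs hB).coord r (v r1) - (hv.basis hvs hB).coord r (v r2) := by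
          rw [← map_sub, Module.Basis.coord_apply]
        rw [c1]
        by_cases hr1' : (r : α) = r1
        · have : (hv.basis hvs hB).coord r (v r1) = 1 := by
            rw [← hr1']; exact hv.basis_coord_self hvs hB r
          rw [this, hv.basis_coord_ne hvs hB r hr2.1 (by rw [hr1']; exact hne), sub_zero]
          exact iff_of_true (hr1' ▸ hr1) one_ne_zero
        · by_cases hr2' : (r : α) = r2
          · have : (hv.basis hvs hB).coord r (v r2) = 1 := by
              rw [← hr2']; exact hv.basis_coord_self hvs hB r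
            rw [this, hv.basis_coord_ne hvs hB r hr1.1 (fun h => hr1' h.symm), zero_sub]
            exact iff_of_true (hr2' ▸ hr2) (by decide)
          · rw [hv.basis_coord_ne hvs hB r hr1.1 (fun h => hr1' h.symm),
              hv.basis_coord_ne hvs hB r hr2.1 (fun h => hr2' h.symm), sub_zero]
            refine iff_of_false (fun h => ?_) (by simp)
            rcases hdeg e r r1 r2 h hr1 hr2 with h | h | h
            · exact hr1' h
            · exact hr2' h
            · exact hne h.symm
      · refine ⟨some ⟨r1, hr1.1⟩, none, ?_⟩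
        apply (hv.basis hvs hB).ext_elem
        intro r
        apply F2_eq_of_ne_zero_iff
        have e1 := adj_iff hv hvs hB r.2 he heB
        rw [Module.Basis.coord_apply] at e1
        rw [← e1]
        simp only [g, Option.elim, sub_zero]
        rw [← Module.Basis.coord_apply]
        by_cases hr1' : (r : α) = r1
        · have : (hv.basis hvs hB).coord r (v r1) = 1 := by
            rw [← hr1']; exact hv.basis_coord_self hvs hB r
          rw [this]
          exact iff_of_true (hr1' ▸ hr1) one_ne_zero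
        · rw [hv.basis_coord_ne hvs hB r hr1.1 (fun h => hr1' h.symm)]
          exact iff_of_false (fun h => h2 ⟨r, hr1', h⟩) (by simp)
    · refine ⟨none, none, ?_⟩
      apply (hv.basis hvs hB).ext_elem
      intro r
      apply F2_eq_of_ne_zero_iff
      have e1 := adj_iff hv hvs hB r.2 he heB
      rw [Module.Basis.coord_apply] at e1
      rw [← e1]
      refine iff_of_false (fun h => h1 ⟨r, h⟩) (by simp)
  choose! s t hst using hex
  let Λ : (Fin k → F2) →ₗ[F2] (Option B → F2) :=
    (hv.basis hvs hB).constr F2 (fun r => Pi.single (some r) 1 - Pi.single none 1)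
  have hΛg : ∀ i, Λ (g i) = Pi.single i 1 - Pi.single none 1 := by
    intro i
    cases i with
    | none => simp [g]
    | some r =>
      simp only [g, Option.elim]
      rw [← hv.basis_apply hvs hB r]
      exact (hv.basis hvs hB).constr_basis F2 _ r
  have hΛ : ∀ e ∈ M.E, Λ (v e) = edgeVec F2 s t e := by
    intro e he
    rw [hst e he, map_sub, hΛg, hΛg, edgeVec]
    abel
  let Ψ : (Option B → F2) →ₗ[F2] (Fin k → F2) :=
    ∑ r : B, (LinearMap.proj (some r) : (Option B → F2) →ₗ[F2] F2).smulRight (v r)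
  have hΨ : ∀ x, Ψ (Λ x) = x := by
    have : Ψ ∘ₗ Λ = LinearMap.id := by
      apply (hv.basis hvs hB).ext
      intro r
      rw [LinearMap.comp_apply]
      rw [(hv.basis hvs hB).constr_basis F2 _ r]
      simp only [Ψ, LinearMap.sum_apply, LinearMap.smulRight_apply, LinearMap.proj_apply,
        LinearMap.id_apply, IsRep.basis_apply]
      rw [Finset.sum_eq_single r]
      · simp
      · intro b _ hb
        have : (some b : Option B) ≠ some r := by simpa using hb
        simp [this]
      · simp
    intro x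
    rw [← LinearMap.comp_apply, this, LinearMap.id_apply]
  have hΛinj : Function.Injective Λ := Function.LeftInverse.injective hΨ
  have h2 : IsRep F2 M (edgeVec F2 s t) := by
    apply (hv.comp_injective Λ hΛinj).congr
    intro e he
    exact hΛ e he
  have h3 : IsRep F M (edgeVec F s t) := by
    intro I hI
    rw [h2 I hI]
    exact hGraphic α (Option B) F2 F s t I (M.ground_finite.subset hI)
  exact h3.representable

theorem adj_dual {α : Type u} {M : Matroid α} {B : Set α} (hB : M.IsBase B) {r c : α} :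
    Adj M✶ (M.E \ B) c r ↔ Adj M B r c := by
  have hBE := hB.subset_ground
  constructor
  · rintro ⟨⟨hcE, hcB⟩, hrE, hr, hb⟩
    rw [Matroid.dual_ground] at hrE
    have hrB : r ∈ B := by
      by_contra hc
      exact hr ⟨hrE, hc⟩
    refine ⟨hrB, hcE, hcB, ?_⟩
    have h1 := hb.compl_isBase_dual
    rw [Matroid.dual_dual, Matroid.dual_ground] at h1
    have e : M.E \ insert r ((M.E \ B) \ {c}) = insert c (B \ {r}) := by
      ext s
      simp only [mem_sdiff, mem_insert_iff, mem_singleton_iff, not_or, not_and, not_not]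
      constructor
      · rintro ⟨h1, h2, h3⟩
        by_cases hs : s ∈ B
        · exact Or.inr ⟨hs, h2⟩
        · exact Or.inl (h3 ⟨h1, hs⟩)
      · rintro (rfl | h)
        · exact ⟨hcE, fun h => hcB (h ▸ hrB), fun _ => rfl⟩
        · exact ⟨hBE h.1, h.2, fun h' => absurd h.1 h'.2⟩
    rwa [e] at h1
  · rintro ⟨hrB, hcE, hcB, hb⟩
    refine ⟨⟨hcE, hcB⟩, hBE hrB, fun h => h.2 hrB, ?_⟩
    have h1 := hb.compl_isBase_dual
    have e : M.E \ insert c (B \ {r}) = insert r ((M.E \ B) \ {c}) := by
      ext s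
      simp only [mem_sdiff, mem_insert_iff, mem_singleton_iff, not_or, not_and, not_not]
      constructor
      · rintro ⟨h1, h2, h3⟩
        by_cases hs : s = r
        · exact Or.inl hs
        · exact Or.inr ⟨⟨h1, fun h => hs (h3 h)⟩, h2⟩
      · rintro (rfl | h)
        · exact ⟨hBE hrB, fun h => hcB (h ▸ hrB), fun _ => rfl⟩
        · exact ⟨h.1.1, h.2, fun h' => absurd h' h.1.2⟩
    rwa [e] at h1

/-- ASSEMBLY: Tutte's theorem from its parts. -/
theorem specTutte_of (hSum : SpecSum.{u}) (hLeaves : SpecLeaves.{u}) (hGraphic : SpecGraphic.{u})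
    (hPath : SpecPath.{u}) (hScale : SpecScale.{u}) (hDual : SpecDual.{u}) : SpecTutte.{u} := by
  classical
  have main : ∀ n, ∀ (α : Type u) (M : Matroid α) [M.Finite] (F : Type) [Field F],
      M.E.ncard = n → Representable F2 M → ¬ HasF7 M → ¬ HasF7 M✶ → Representable F M := by
    intro n
    induction n using Nat.strong_induction_on with
    | _ n ih =>
    intro α M _ F _ hcard hbin h7 h7d
    have hbind : Representable F2 M✶ := hDual α F2 M hbin
    -- induction hypothesis for deletions of `M` and of its dual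
    have ihd : ∀ D : Set α, (D ∩ M.E).Nonempty → Representable F (M.delete D) := by
      intro D hD
      refine ih _ ?_ α (M.delete D) F rfl (hbin.delete D) (fun h => h7 (h.of_delete hbin)) ?_
      · rw [← hcard, Matroid.delete_ground]
        apply ncard_lt_ncard _ M.ground_finite
        refine ⟨sdiff_subset, fun hc => ?_⟩
        obtain ⟨e, he⟩ := hD
        exact (hc he.2).2 he.1
      · rw [Matroid.dual_delete]
        exact fun h => h7d (h.of_contract hbind)
    have ihd' : ∀ D : Set α, (D ∩ M.E).Nonempty → Representable F (M✶.delete D) := by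
      intro D hD
      refine ih _ ?_ α (M✶.delete D) F rfl (hbind.delete D) (fun h => h7d (h.of_delete hbind)) ?_
      · rw [← hcard, Matroid.delete_ground, Matroid.dual_ground]
        apply ncard_lt_ncard _ M.ground_finite
        refine ⟨sdiff_subset, fun hc => ?_⟩
        obtain ⟨e, he⟩ := hD
        exact (hc he.2).2 he.1
      · rw [Matroid.dual_delete, Matroid.dual_dual]
        exact fun h => h7 (h.of_contract hbin)
    obtain ⟨B, hB⟩ := M.exists_isBase
    have hBE := hB.subset_ground
    have : Fintype M.E := M.ground_finite.fintype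
    let G : SimpleGraph M.E :=
      { Adj := fun u w => Adj M B u w ∨ Adj M B w u
        symm := ⟨fun u w h => h.symm⟩
        loopless := ⟨fun u h => by
          rcases h with h | h
          · exact h.2.2.1 h.1
          · exact h.2.2.1 h.1⟩ }
    rcases M.E.eq_empty_or_nonempty with hempty | hne
    · refine ⟨0, fun _ => 0, ?_⟩
      intro I hI
      rw [hempty, subset_empty_iff] at hI
      subst hI
      exact iff_of_true M.empty_indep (linearIndepOn_empty F _)
    obtain ⟨e0, he0⟩ := hne
    by_cases hconn : G.Connected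
    · by_cases hdeg : ∃ v a b d, a ≠ b ∧ a ≠ d ∧ b ≠ d ∧ G.Adj v a ∧ G.Adj v b ∧ G.Adj v d
      · let c : M.E → Bool := fun u => decide ((u : α) ∈ B)
        have hc : ∀ u w, G.Adj u w → c u ≠ c w := by
          intro u w h
          rcases h with h | h
          · simp only [c]
            have h1 := h.1
            have h2 := h.2.2.1
            simp [h1, h2]
          · simp only [c]
            have h1 := h.1
            have h2 := h.2.2.1
            simp [h1, h2]
        obtain ⟨x, y, hxy, hcxy, hpre⟩ := hLeaves M.E G c hconn hc hdeg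
        have hxy' : (x : α) ≠ y := fun h => hxy (Subtype.ext h)
        -- connectivity in set form
        have hset : ∀ S : Set α, (∀ r c, r ∉ ({(x : α), (y : α)} : Set α) →
            c ∉ ({(x : α), (y : α)} : Set α) → Adj M B r c → (r ∈ S ↔ c ∈ S)) →
            ∀ a b, a ∈ M.E → b ∈ M.E → a ∉ ({(x : α), (y : α)} : Set α) →
              b ∉ ({(x : α), (y : α)} : Set α) → a ∈ S → b ∈ S := by
          intro S hS a b ha hb haK hbK haS
          have hmem : ∀ e (he : e ∈ M.E), e ∉ ({(x : α), (y : α)} : Set α) →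
              (⟨e, he⟩ : M.E) ∈ {w : M.E | w ≠ x ∧ w ≠ y} := by
            intro e he heK
            refine ⟨fun h => heK (Or.inl (congrArg Subtype.val h)),
              fun h => heK (Or.inr (congrArg Subtype.val h))⟩
          have hr := hpre ⟨⟨a, ha⟩, hmem a ha haK⟩ ⟨⟨b, hb⟩, hmem b hb hbK⟩
          obtain ⟨p⟩ := hr
          have hgen : ∀ u w : {w : M.E | w ≠ x ∧ w ≠ y}, (G.induce {w | w ≠ x ∧ w ≠ y}).Walk u w →
              ((u : M.E) : α) ∈ S → ((w : M.E) : α) ∈ S := by
            intro u w p
            induction p with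
            | nil => exact id
            | @cons u v w h p ih =>
              intro hu
              apply ih
              have hK : ∀ u : {w : M.E | w ≠ x ∧ w ≠ y}, ((u : M.E) : α) ∉ ({(x : α), (y : α)} : Set α) := by
                rintro u (h | h)
                · exact u.2.1 (Subtype.ext h)
                · exact u.2.2 (Subtype.ext h)
              rcases h with h | h
              · exact (hS _ _ (hK u) (hK v) h).1 hu
              · exact (hS _ _ (hK v) (hK u) h).2 hu
          exact hgen _ _ p haS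
        by_cases hxB : (x : α) ∈ B
        · -- both in `B`: pass to the dual
          have hyB : (y : α) ∈ B := by
            have : decide ((x : α) ∈ B) = decide ((y : α) ∈ B) := hcxy
            simpa [hxB] using this
          have hBd := hB.compl_isBase_dual
          have hrep : Representable F M✶ := by
            refine step hPath hScale M✶ hbind h7d hBd hxy' x.2 y.2 (fun h => h.2 hxB)
              (fun h => h.2 hyB) (ihd' _ ⟨x, rfl, x.2⟩) (ihd' _ ⟨y, rfl, y.2⟩) ?_
            intro S hS a b ha hb haK hbK haS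
            refine hset S ?_ a b ha hb haK hbK haS
            intro r c hr hc hadj
            exact (hS c r hr ((adj_dual hB).2 hadj)).symm
          have := hDual α F M✶ hrep
          rwa [Matroid.dual_dual] at this
        · have hyB : (y : α) ∉ B := by
            have : decide ((x : α) ∈ B) = decide ((y : α) ∈ B) := hcxy
            simpa [hxB] using this
          refine step hPath hScale M hbin h7 hB hxy' x.2 y.2 hxB hyB (ihd _ ⟨x, rfl, x.2⟩)
            (ihd _ ⟨y, rfl, y.2⟩) ?_
          intro S hS a b ha hb haK hbK haS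
          refine hset S ?_ a b ha hb haK hbK haS
          intro r c hr hc hadj
          exact hS r c hc hadj
      · apply graphic_case hGraphic M hbin hB
        intro c r1 r2 r3 h1 h2 h3
        by_contra hcon
        push Not at hcon
        apply hdeg
        have m1 := hBE h1.1
        have m2 := hBE h2.1
        have m3 := hBE h3.1
        refine ⟨⟨c, h1.2.1⟩, ⟨r1, m1⟩, ⟨r2, m2⟩, ⟨r3, m3⟩, ?_, ?_, ?_, Or.inr h1, Or.inr h2, Or.inr h3⟩
        · exact fun h => hcon.1 (congrArg Subtype.val h)
        · exact fun h => hcon.2.1 (congrArg Subtype.val h)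
        · exact fun h => hcon.2.2 (congrArg Subtype.val h)
    · -- disconnected
      have hpre : ¬ G.Preconnected := by
        intro h
        exact hconn (SimpleGraph.Connected.mk (preconnected := h) (nonempty := ⟨⟨e0, he0⟩⟩))
      simp only [SimpleGraph.Preconnected, not_forall] at hpre
      obtain ⟨u, w, huw⟩ := hpre
      let S : Set α := {e | ∃ he : e ∈ M.E, G.Reachable u ⟨e, he⟩}
      have hadj : ∀ r c, c ∉ (∅ : Set α) → Adj M B r c → (r ∈ S ↔ c ∈ S) := by
        intro r c _ h
        have hrE : r ∈ M.E := hBE h.1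
        have hcE : c ∈ M.E := h.2.1
        have hG : G.Adj ⟨r, hrE⟩ ⟨c, hcE⟩ := Or.inl h
        constructor
        · rintro ⟨_, hr⟩
          exact ⟨hcE, hr.trans hG.reachable⟩
        · rintro ⟨_, hr⟩
          exact ⟨hrE, hr.trans hG.symm.reachable⟩
      obtain ⟨k, v, hv, hvs⟩ := hbin.exists_spanning
      have hsep := sep_of_adj hv hvs hB S ∅ hadj
      rw [sdiff_empty, sdiff_empty] at hsep
      have hdir : ∀ I ⊆ M.E, M.Indep (I ∩ S) → M.Indep (I \ S) → M.Indep I := by
        intro I hI h1 h2
        rw [hv I hI]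
        have := (hv.linearIndepOn h1).union (hv.linearIndepOn h2) (by
          refine Disjoint.mono ?_ ?_ hsep
          · exact span_mono (image_mono fun e he => ⟨hI he.1, he.2⟩)
          · exact span_mono (image_mono fun e he => ⟨hI he.1, he.2⟩))
        rwa [inter_union_sdiff] at this
      apply hSum α M F S hdir
      · exact ihd S ⟨u, ⟨u.2, SimpleGraph.Reachable.refl _⟩, u.2⟩
      · refine ihd _ ⟨w, ⟨w.2, ?_⟩, w.2⟩
        rintro ⟨_, h⟩
        exact huw h
  intro α M _ F _ hbin hnot
  by_contra hcon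
  push Not at hcon
  exact hnot (main _ α M F rfl hbin hcon.1 hcon.2)

end MP948082
end

section
/-!
# MP_948082_co : NONBINARY, part 1: four-point line configurations
-/
open Set Submodule

namespace MP948082

universe u

variable {α : Type u} {M N : Matroid α}

/-- After contracting `C`, the four elements of `Z` form a four-point line. -/
def LCfg (M : Matroid α) (C Z : Set α) : Prop :=
  Z.ncard = 4 ∧ Disjoint C Z ∧ (∀ p ∈ Z, ∀ q ∈ Z, p ≠ q → M.Indep (C ∪ {p, q})) ∧
    ∀ p ∈ Z, ∀ q ∈ Z, ∀ s ∈ Z, p ≠ q → p ≠ s → q ≠ s → ¬ M.Indep (C ∪ {p, q, s})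

theorem four_elts {Z : Set α} (hZ : Z.ncard = 4) {w w' : α} (hw : w ∈ Z) (hw' : w' ∈ Z)
    (h : w ≠ w') : ∃ s t, s ≠ t ∧ s ≠ w ∧ s ≠ w' ∧ t ≠ w ∧ t ≠ w' ∧ Z = {w, w', s, t} := by
  have hfin : Z.Finite := finite_of_ncard_ne_zero (by omega)
  have h1 : (Z \ {w, w'}).ncard = 2 := by
    rw [ncard_sdiff (by rintro e (rfl | h); exacts [hw, (mem_singleton_iff.1 h) ▸ hw'])
      (by simp), ncard_pair h, hZ]
  obtain ⟨s, t, hst, he⟩ := ncard_eq_two.1 h1
  have hs : s ∈ Z \ {w, w'} := by rw [he]; exact mem_insert _ _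
  have ht : t ∈ Z \ {w, w'} := by rw [he]; exact mem_insert_of_mem _ rfl
  refine ⟨s, t, hst, fun h => hs.2 (Or.inl h), fun h => hs.2 (Or.inr h),
    fun h => ht.2 (Or.inl h), fun h => ht.2 (Or.inr h), ?_⟩
  rw [← sdiff_union_of_subset (show ({w, w'} : Set α) ⊆ Z by
    rintro e (rfl | h); exacts [hw, (mem_singleton_iff.1 h) ▸ hw']), he]
  ext e
  simp only [mem_union, mem_insert_iff, mem_singleton_iff]
  tauto

theorem exists_two {Z : Set α} (hZ : Z.ncard = 4) : ∃ w ∈ Z, ∃ w' ∈ Z, w ≠ w' := by
  have hfin : Z.Finite := finite_of_ncard_ne_zero (by omega)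
  have := (one_lt_ncard hfin).1 (by omega)
  obtain ⟨a, ha, b, hb, hab⟩ := this
  exact ⟨a, ha, b, hb, hab⟩

theorem four_ncard {a b c d : α} (h1 : a ≠ b) (h2 : a ≠ c) (h3 : a ≠ d) (h4 : b ≠ c) (h5 : b ≠ d)
    (h6 : c ≠ d) : ({a, b, c, d} : Set α).ncard = 4 := by
  rw [ncard_insert_of_notMem (by simp [h1, h2, h3]), ncard_insert_of_notMem (by simp [h4, h5]),
    ncard_pair h6]

/-- A matroid with a four-point line configuration is not binary. -/
theorem LCfg.not_binary {C Z : Set α} (h : LCfg M C Z) : ¬ Representable F2 M := by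
  rintro ⟨n, v, hv⟩
  obtain ⟨hZ, hd, hp, ht⟩ := h
  obtain ⟨a, ha, b, hb, hab⟩ := exists_two hZ
  obtain ⟨c, d, hcd, hca, hcb, hda, hdb, hZe⟩ := four_elts hZ ha hb hab
  have hc : c ∈ Z := by rw [hZe]; simp
  have hd' : d ∈ Z := by rw [hZe]; simp
  have hnC : ∀ e ∈ Z, e ∉ C := fun e he h => hd.le_bot ⟨h, he⟩
  -- the vectors of `c` and `d` are `v a + v b` modulo `C`
  have key : ∀ e ∈ Z, e ≠ a → e ≠ b → v e - (v a + v b) ∈ span F2 (v '' C) := by
    intro e he hea heb
    have hE : insert e (C ∪ {a, b}) ⊆ M.E := by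
      apply insert_subset
      · exact (hp e he a ha hea).subset_ground (by simp)
      · exact (hp a ha b hb hab).subset_ground
    have h1 : v e ∈ span F2 (v '' (C ∪ {a, b})) := by
      apply mem_span_of_insert_dep (hv.linearIndepOn (hp a ha b hb hab))
      intro hc
      apply ht e he a ha b hb hea heb hab
      have h2 := (hv _ hE).2 hc
      have : insert e (C ∪ {a, b}) = C ∪ {e, a, b} := by
        ext s; simp only [mem_insert_iff, mem_union, mem_singleton_iff]; tauto
      rwa [this] at h2
    have h2 : v e ∈ span F2 (v '' C) ⊔ span F2 {v a, v b} := by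
      rw [← span_union]
      have : v '' C ∪ {v a, v b} = v '' (C ∪ {a, b}) := by
        rw [image_union, image_pair]
      rwa [this]
    obtain ⟨u, hu, w, hw, huw⟩ := mem_sup.1 h2
    obtain ⟨s, t, hst⟩ := mem_span_pair.1 hw
    have hs : s ≠ 0 := by
      rintro rfl
      have h3 : v e ∈ span F2 (v '' (C ∪ {b})) := by
        rw [← huw, ← hst, zero_smul, zero_add]
        apply add_mem
        · exact span_mono (image_mono subset_union_left) hu
        · exact smul_mem _ _ (subset_span ⟨b, Or.inr rfl, rfl⟩)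
      have h4 := hv.linearIndepOn (hp e he b hb heb)
      have h5 : C ∪ {e, b} = insert e (C ∪ {b}) := by
        ext s; simp only [mem_insert_iff, mem_union, mem_singleton_iff]; tauto
      rw [h5, linearIndepOn_insert (by
        rintro (h | h)
        · exact hnC e he h
        · exact heb h)] at h4
      exact h4.2 h3
    have ht' : t ≠ 0 := by
      rintro rfl
      have h3 : v e ∈ span F2 (v '' (C ∪ {a})) := by
        rw [← huw, ← hst, zero_smul, add_zero]
        apply add_mem
        · exact span_mono (image_mono subset_union_left) hu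
        · exact smul_mem _ _ (subset_span ⟨a, Or.inr rfl, rfl⟩)
      have h4 := hv.linearIndepOn (hp e he a ha hea)
      have h5 : C ∪ {e, a} = insert e (C ∪ {a}) := by
        ext s; simp only [mem_insert_iff, mem_union, mem_singleton_iff]; tauto
      rw [h5, linearIndepOn_insert (by
        rintro (h | h)
        · exact hnC e he h
        · exact hea h)] at h4
      exact h4.2 h3
    have hs1 : s = 1 := F2_eq_of_ne_zero_iff (iff_of_true hs one_ne_zero)
    have ht1 : t = 1 := F2_eq_of_ne_zero_iff (iff_of_true ht' one_ne_zero)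
    rw [hs1, ht1, one_smul, one_smul] at hst
    rw [← huw, ← hst, add_sub_cancel_right]
    exact hu
  have h1 := key c hc hca hcb
  have h2 := key d hd' hda hdb
  have h3 := sub_mem h1 h2
  have h4 : v c ∈ span F2 (v '' (C ∪ {d})) := by
    have e : v c = (v c - (v a + v b) - (v d - (v a + v b))) + v d := by abel
    rw [e]
    apply add_mem
    · exact span_mono (image_mono subset_union_left) h3
    · exact subset_span ⟨d, Or.inr rfl, rfl⟩
  have h5 := hv.linearIndepOn (hp c hc d hd' hcd)
  have h6 : C ∪ {c, d} = insert c (C ∪ {d}) := by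
    ext s; simp only [mem_insert_iff, mem_union, mem_singleton_iff]; tauto
  rw [h6, linearIndepOn_insert (by
    rintro (h | h)
    · exact hnC c hc h
    · exact hcd h)] at h5
  exact h5.2 h4

theorem LCfg.delete {C Z : Set α} (h : LCfg M C Z) {e : α} (heC : e ∉ C) (heZ : e ∉ Z) :
    LCfg (M.delete {e}) C Z := by
  obtain ⟨hZ, hd, hp, ht⟩ := h
  refine ⟨hZ, hd, ?_, ?_⟩
  · intro p hp' q hq hpq
    rw [Matroid.deleteElem_indep_iff]
    refine ⟨hp p hp' q hq hpq, ?_⟩
    rintro (h | h | h)
    · exact heC h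
    · exact heZ (h ▸ hp')
    · rw [mem_singleton_iff] at h
      exact heZ (h ▸ hq)
  · intro p hp' q hq s hs h1 h2 h3 hc
    exact ht p hp' q hq s hs h1 h2 h3 hc.of_delete

theorem LCfg.contract {C Z : Set α} (h : LCfg M C Z) {c : α} (hc : c ∈ C) :
    LCfg (M.contract {c}) (C \ {c}) Z := by
  obtain ⟨hZ, hd, hp, ht⟩ := h
  have hcZ : c ∉ Z := fun h => hd.le_bot ⟨hc, h⟩
  obtain ⟨a, ha, b, hb, hab⟩ := exists_two hZ
  have hci : M.Indep {c} := (hp a ha b hb hab).subset (by
    rw [singleton_subset_iff]; exact Or.inl hc)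
  have hun : ∀ J : Set α, (C \ {c} ∪ J) ∪ {c} = C ∪ J := by
    intro J
    ext e
    simp only [mem_union, mem_sdiff, mem_singleton_iff]
    constructor
    · rintro ((h | h) | h)
      · exact Or.inl h.1
      · exact Or.inr h
      · exact Or.inl (h ▸ hc)
    · rintro (h | h)
      · by_cases hec : e = c
        · exact Or.inr hec
        · exact Or.inl (Or.inl ⟨h, hec⟩)
      · exact Or.inl (Or.inr h)
  refine ⟨hZ, disjoint_of_subset_left sdiff_subset hd, ?_, ?_⟩
  · intro p hp' q hq hpq
    rw [hci.contract_indep_iff, hun]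
    refine ⟨?_, hp p hp' q hq hpq⟩
    rw [disjoint_singleton_right]
    rintro (h | h | h)
    · exact h.2 rfl
    · exact hcZ (h ▸ hp')
    · rw [mem_singleton_iff] at h
      exact hcZ (h ▸ hq)
  · intro p hp' q hq s hs h1 h2 h3 hcc
    rw [hci.contract_indep_iff, hun] at hcc
    exact ht p hp' q hq s hs h1 h2 h3 hcc.2

/-! ### The class -/

/-- Hypotheses on `M` used throughout: in the class, with at most the binary consequences. -/
theorem cfg_mem {C Z : Set α} (hK : AtLeastOneRegular M) (h : LCfg M C Z) {c : α} (hc : c ∈ C) :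
    IsRegular (M.delete {c}) ∧ ¬ IsRegular (M.contract {c}) := by
  have hn : ¬ IsRegular (M.contract {c}) := fun hr => (h.contract hc).not_binary (hr F2)
  obtain ⟨a, ha, b, hb, hab⟩ := exists_two h.1
  have hcE : c ∈ M.E := (h.2.2.1 a ha b hb hab).subset_ground (Or.inl hc)
  refine ⟨?_, hn⟩
  rcases hK.2 c hcE with h1 | h1
  · exact h1
  · exact absurd h1 hn

theorem cfg_out {C Z : Set α} (hK : AtLeastOneRegular M) (h : LCfg M C Z) {e : α} (heE : e ∈ M.E)
    (heC : e ∉ C) (heZ : e ∉ Z) :
    IsRegular (M.contract {e}) ∧ ¬ IsRegular (M.delete {e}) := by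
  have hn : ¬ IsRegular (M.delete {e}) := fun hr => (h.delete heC heZ).not_binary (hr F2)
  refine ⟨?_, hn⟩
  rcases hK.2 e heE with h1 | h1
  · exact absurd h1 hn
  · exact h1

/-- All elements of `Z` are in the closure of `C` and two of them. -/
theorem LCfg.subset_closure {C Z : Set α} (h : LCfg M C Z) {p q : α} (hp : p ∈ Z) (hq : q ∈ Z)
    (hpq : p ≠ q) : C ∪ Z ⊆ M.closure (C ∪ {p, q}) := by
  have hi := h.2.2.1 p hp q hq hpq
  have hE := hi.subset_ground
  rintro e (he | he)
  · exact M.mem_closure_of_mem (Or.inl he) hE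
  · by_cases hep : e = p
    · exact M.mem_closure_of_mem (Or.inr (Or.inl hep)) hE
    by_cases heq : e = q
    · exact M.mem_closure_of_mem (Or.inr (Or.inr heq)) hE
    have heE : e ∈ M.E := (h.2.2.1 e he p hp hep).subset_ground (Or.inr (Or.inl rfl))
    rw [hi.mem_closure_iff_of_notMem (by
      rintro (h' | h' | h')
      · exact h.2.1.le_bot ⟨h', he⟩
      · exact hep h'
      · exact heq h')]
    refine ⟨fun hc => ?_, insert_subset heE hE⟩
    apply h.2.2.2 e he p hp q hq hep heq hpq
    have : C ∪ {e, p, q} = insert e (C ∪ {p, q}) := by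
      ext s; simp only [mem_insert_iff, mem_union, mem_singleton_iff]; tauto
    rwa [this]

/-- In the class every configuration is spanning. -/
theorem LCfg.isBase {C Z : Set α} (hK : AtLeastOneRegular M) (h : LCfg M C Z) {p q : α}
    (hp : p ∈ Z) (hq : q ∈ Z) (hpq : p ≠ q) : M.IsBase (C ∪ {p, q}) := by
  have hi := h.2.2.1 p hp q hq hpq
  have hE := hi.subset_ground
  rw [hi.isBase_iff_ground_subset_closure]
  intro e he
  by_contra hc
  have heC : e ∉ C := fun h' => hc (M.mem_closure_of_mem (Or.inl h') hE)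
  have heZ : e ∉ Z := fun h' => hc (h.subset_closure hp hq hpq (Or.inr h'))
  have h1 := (cfg_out hK h he heC heZ).2
  apply h1
  have hcfg : LCfg M (insert e C) Z := by
    refine ⟨h.1, ?_, ?_, ?_⟩
    · rw [disjoint_left]
      rintro s (rfl | hs) hsZ
      · exact heZ hsZ
      · exact h.2.1.le_bot ⟨hs, hsZ⟩
    · intro r hr s hs hrs
      have hi2 := h.2.2.1 r hr s hs hrs
      have h3 : M.closure (C ∪ {r, s}) ⊆ M.closure (C ∪ {p, q}) := by
        apply M.closure_subset_closure_of_subset_closure
        refine Subset.trans ?_ (h.subset_closure hp hq hpq)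
        apply union_subset_union_right
        rintro x (rfl | hx)
        · exact hr
        · rw [mem_singleton_iff] at hx; subst hx; exact hs
      rw [insert_union]
      by_contra hdep
      apply hc
      apply h3
      rw [hi2.mem_closure_iff_of_notMem (by
        rintro (h' | h' | h')
        · exact heC h'
        · exact heZ (h' ▸ hr)
        · rw [mem_singleton_iff] at h'; exact heZ (h' ▸ hs))]
      exact ⟨hdep, insert_subset he hi2.subset_ground⟩
    · intro r hr s hs t ht h1 h2 h3 hcc
      rw [insert_union] at hcc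
      exact h.2.2.2 r hr s hs t ht h1 h2 h3 (hcc.subset (subset_insert _ _))
  exact (cfg_mem hK hcfg (mem_insert _ _)).1

end MP948082
end

section
/-!
# MP_948082_co : NONBINARY, part 2: exchanges for four-point line configurations
-/
open Set Submodule

namespace MP948082

universe u

variable {α : Type u} {M N : Matroid α}

theorem three_ncard {a b c : α} (h1 : a ≠ b) (h2 : a ≠ c) (h3 : b ≠ c) :
    ({a, b, c} : Set α).ncard = 3 := by
  rw [ncard_insert_of_notMem (by simp [h1, h2]), ncard_pair h3]

theorem LCfg.ground_finite [M.Finite] {C Z : Set α} (h : LCfg M C Z) : C.Finite := by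
  obtain ⟨a, ha, b, hb, hab⟩ := exists_two h.1
  exact M.ground_finite.subset (subset_union_left.trans (h.2.2.1 a ha b hb hab).subset_ground)

theorem LCfg.card_base [M.Finite] {C Z B : Set α} (hK : AtLeastOneRegular M) (h : LCfg M C Z)
    (hB : M.IsBase B) : C.ncard + 2 = B.ncard := by
  obtain ⟨a, ha, b, hb, hab⟩ := exists_two h.1
  have h1 := h.isBase hK ha hb hab
  have hf := h.ground_finite
  rw [← h1.ncard_eq_ncard_of_isBase hB, ncard_union_eq _ hf (by simp), ncard_pair hab]
  rw [disjoint_left]
  rintro e he (h' | h')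
  · exact h.2.1.le_bot ⟨he, h' ▸ ha⟩
  · rw [mem_singleton_iff] at h'
    exact h.2.1.le_bot ⟨he, h' ▸ hb⟩

theorem indep_card_le [M.Finite] {I B : Set α} (hI : M.Indep I) (hB : M.IsBase B) :
    I.ncard ≤ B.ncard := by
  obtain ⟨B', hB', hIB⟩ := hI.exists_isBase_superset
  rw [← hB'.ncard_eq_ncard_of_isBase hB]
  exact ncard_le_ncard hIB hB'.finite

/-- Constructor for configurations when `C` has two elements less than a base. -/
theorem LCfg.mk_card [M.Finite] {C Z B : Set α} (hB : M.IsBase B) (hZ : Z.ncard = 4)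
    (hd : Disjoint C Z) (hp : ∀ p ∈ Z, ∀ q ∈ Z, p ≠ q → M.Indep (C ∪ {p, q}))
    (hc : C.ncard + 2 = B.ncard) : LCfg M C Z := by
  refine ⟨hZ, hd, hp, ?_⟩
  intro p hp' q hq s hs h1 h2 h3 hi
  have hCf : C.Finite := M.ground_finite.subset (subset_union_left.trans hi.subset_ground)
  have h4 := indep_card_le hi hB
  rw [ncard_union_eq _ hCf (by simp), three_ncard h1 h2 h3] at h4
  · omega
  · rw [disjoint_left]
    rintro e he (h' | h' | h')
    · exact hd.le_bot ⟨he, h' ▸ hp'⟩
    · exact hd.le_bot ⟨he, h' ▸ hq⟩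
    · rw [mem_singleton_iff] at h'
      exact hd.le_bot ⟨he, h' ▸ hs⟩

/-- Two dependent triples after removing `y` from `C` are impossible. -/
theorem LCfg.not_two [M.Finite] {C Z : Set α} (hK : AtLeastOneRegular M) (h : LCfg M C Z) {y : α}
    (hy : y ∈ C) {w w' : α} (hw : w ∈ Z) (hw' : w' ∈ Z) (hne : w ≠ w')
    (h1 : ¬ M.Indep (C \ {y} ∪ (Z \ {w}))) (h2 : ¬ M.Indep (C \ {y} ∪ (Z \ {w'}))) : False := by
  obtain ⟨s, t, hst, hsw, hsw', htw, htw', hZ⟩ := four_elts h.1 hw hw' hne
  have hs : s ∈ Z := by rw [hZ]; simp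
  have ht : t ∈ Z := by rw [hZ]; simp
  have hZC : ∀ e ∈ Z, e ∉ C := fun e he h' => h.2.1.le_bot ⟨h', he⟩
  have hi0 : M.Indep (C \ {y} ∪ {s, t}) :=
    (h.2.2.1 s hs t ht hst).subset (union_subset_union_left _ sdiff_subset)
  have hZw : Z \ {w} = {w', s, t} := by
    rw [hZ]; ext e
    simp only [mem_sdiff, mem_insert_iff, mem_singleton_iff]
    constructor
    · rintro ⟨h, h'⟩; tauto
    · rintro (rfl | rfl | rfl)
      · exact ⟨by tauto, hne.symm⟩
      · exact ⟨by tauto, hsw⟩
      · exact ⟨by tauto, htw⟩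
  have hZw' : Z \ {w'} = {w, s, t} := by
    rw [hZ]; ext e
    simp only [mem_sdiff, mem_insert_iff, mem_singleton_iff]
    constructor
    · rintro ⟨h, h'⟩; tauto
    · rintro (rfl | rfl | rfl)
      · exact ⟨by tauto, hne⟩
      · exact ⟨by tauto, hsw'⟩
      · exact ⟨by tauto, htw'⟩
  have hE0 := hi0.subset_ground
  have hZE : ∀ e ∈ Z, e ∈ M.E := by
    intro e he
    by_cases hes : e = s
    · exact hE0 (Or.inr (Or.inl hes))
    · exact (h.2.2.1 e he s hs hes).subset_ground (Or.inr (Or.inl rfl))
  have hcl : ∀ u ∈ Z, u ≠ s → u ≠ t → ¬ M.Indep (C \ {y} ∪ {u, s, t}) →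
      u ∈ M.closure (C \ {y} ∪ {s, t}) := by
    intro u hu hus hut hdep
    rw [hi0.mem_closure_iff_of_notMem (by
      rintro (h' | h' | h')
      · exact hZC u hu h'.1
      · exact hus h'
      · exact hut h')]
    refine ⟨fun hc => hdep ?_, insert_subset (hZE u hu) hE0⟩
    have : C \ {y} ∪ {u, s, t} = insert u (C \ {y} ∪ {s, t}) := by
      ext e; simp only [mem_insert_iff, mem_union, mem_singleton_iff]; tauto
    rwa [this]
  have hw'cl := hcl w' hw' (fun h => hsw' h.symm) (fun h => htw' h.symm) (hZw ▸ h1)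
  have hwcl := hcl w hw (fun h => hsw h.symm) (fun h => htw h.symm) (hZw' ▸ h2)
  have hZcl : Z ⊆ M.closure (C \ {y} ∪ {s, t}) := by
    rw [hZ]
    rintro e (rfl | rfl | rfl | h')
    · exact hwcl
    · exact hw'cl
    · exact M.mem_closure_of_mem (Or.inr (Or.inl rfl)) hE0
    · rw [mem_singleton_iff] at h'; subst h'
      exact M.mem_closure_of_mem (Or.inr (Or.inr rfl)) hE0
  have hCf := h.ground_finite
  have hcfg : LCfg M (C \ {y}) Z := by
    refine ⟨h.1, disjoint_of_subset_left sdiff_subset h.2.1, ?_, ?_⟩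
    · intro p hp q hq hpq
      exact (h.2.2.1 p hp q hq hpq).subset (union_subset_union_left _ sdiff_subset)
    · intro p hp q hq r hr hpq hpr hqr hi
      have hsub : C \ {y} ∪ {p, q, r} ⊆ M.closure (C \ {y} ∪ {s, t}) := by
        apply union_subset
        · exact (subset_union_left.trans (M.subset_closure _ hE0))
        · rintro e (rfl | rfl | h')
          · exact hZcl hp
          · exact hZcl hq
          · rw [mem_singleton_iff] at h'; subst h'; exact hZcl hr
      have hle := hi.encard_le_eRk_of_subset hsub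
      rw [M.eRk_closure_eq, hi0.eRk_eq_encard] at hle
      have hCyf : (C \ {y}).Finite := hCf.subset sdiff_subset
      rw [encard_union_eq, encard_union_eq] at hle
      · rw [encard_pair hst] at hle
        have h3 : ({p, q, r} : Set α).encard = 3 := by
          rw [← (toFinite ({p, q, r} : Set α)).cast_ncard_eq, three_ncard hpq hpr hqr]
          rfl
        rw [h3, ← hCyf.cast_ncard_eq] at hle
        have hle' : (C \ {y}).ncard + 3 ≤ (C \ {y}).ncard + 2 := by exact_mod_cast hle
        omega
      · rw [disjoint_left]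
        rintro e he (h' | h')
        · exact hZC e (h' ▸ hs) he.1
        · rw [mem_singleton_iff] at h'; exact hZC e (h' ▸ ht) he.1
      · rw [disjoint_left]
        rintro e he (h' | h' | h')
        · exact hZC e (h' ▸ hp) he.1
        · exact hZC e (h' ▸ hq) he.1
        · rw [mem_singleton_iff] at h'; exact hZC e (h' ▸ hr) he.1
  have hb1 := h.isBase hK hs ht hst
  have hb2 := hcfg.isBase hK hs ht hst
  have := hb2.eq_of_subset_isBase hb1 (union_subset_union_left _ sdiff_subset)
  have hyin : y ∈ C ∪ {s, t} := Or.inl hy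
  rw [← this] at hyin
  rcases hyin with h' | h' | h'
  · exact h'.2 rfl
  · exact hZC s hs (h' ▸ hy)
  · rw [mem_singleton_iff] at h'; exact hZC t ht (h' ▸ hy)

/-- Exchange of `y ∈ C` and `w ∈ Z`. -/
theorem LCfg.swap_C [M.Finite] {C Z : Set α} (hK : AtLeastOneRegular M) (h : LCfg M C Z) {y w : α}
    (hy : y ∈ C) (hw : w ∈ Z) (hI : ∀ s ∈ Z, s ≠ w → M.Indep (C \ {y} ∪ (Z \ {s}))) :
    LCfg M (insert w (C \ {y})) (insert y (Z \ {w})) := by
  have hZC : ∀ e ∈ Z, e ∉ C := fun e he h' => h.2.1.le_bot ⟨h', he⟩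
  have hCf := h.ground_finite
  have hZf : Z.Finite := finite_of_ncard_ne_zero (by rw [h.1]; omega)
  obtain ⟨B, hB⟩ := M.exists_isBase
  have hyw : y ≠ w := fun h' => hZC w hw (h' ▸ hy)
  apply LCfg.mk_card hB
  · rw [ncard_insert_of_notMem (fun h' => hZC y h'.1 hy) (hZf.subset sdiff_subset),
      ncard_sdiff_singleton_of_mem hw, h.1]
  · rw [disjoint_left]
    rintro e (rfl | he) (h' | h')
    · exact hyw h'.symm
    · exact h'.2 rfl
    · exact he.2 h'
    · exact hZC e h'.1 he.1
  · have main : ∀ q ∈ Z, q ≠ w → M.Indep (insert w (C \ {y}) ∪ {y, q}) := by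
      intro q hq hqw
      have : insert w (C \ {y}) ∪ {y, q} = C ∪ {w, q} := by
        ext e
        simp only [mem_union, mem_insert_iff, mem_sdiff, mem_singleton_iff]
        constructor
        · rintro ((h | h) | h | h)
          · exact Or.inr (Or.inl h)
          · exact Or.inl h.1
          · exact Or.inl (h ▸ hy)
          · exact Or.inr (Or.inr h)
        · rintro (h | h | h)
          · by_cases hey : e = y
            · exact Or.inr (Or.inl hey)
            · exact Or.inl (Or.inr ⟨h, hey⟩)
          · exact Or.inl (Or.inl h)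
          · exact Or.inr (Or.inr h)
      rw [this]
      exact h.2.2.1 w hw q hq hqw.symm
    rintro p (rfl | hp) q (rfl | hq) hpq
    · exact absurd rfl hpq
    · exact main q hq.1 hq.2
    · rw [pair_comm]
      exact main p hp.1 hp.2
    · -- both in `Z \ {w}`
      obtain ⟨s, t, hst, hsp, hsq, htp, htq, hZ⟩ := four_elts h.1 hp.1 hq.1 hpq
      have hs : s ∈ Z := by rw [hZ]; simp
      have ht : t ∈ Z := by rw [hZ]; simp
      have hwst : w = s ∨ w = t := by
        have := hw
        rw [hZ] at this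
        rcases this with h' | h' | h' | h'
        · exact absurd h'.symm hp.2
        · exact absurd h'.symm hq.2
        · exact Or.inl h'
        · exact Or.inr h'
      rcases hwst with rfl | rfl
      · refine (hI t ht hst.symm).subset ?_
        rintro e ((rfl | he) | rfl | he)
        · exact Or.inr ⟨hw, hst⟩
        · exact Or.inl he
        · exact Or.inr ⟨hp.1, htp.symm⟩
        · rw [mem_singleton_iff] at he; subst he
          exact Or.inr ⟨hq.1, htq.symm⟩
      · refine (hI s hs hst).subset ?_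
        rintro e ((rfl | he) | rfl | he)
        · exact Or.inr ⟨hw, hst.symm⟩
        · exact Or.inl he
        · exact Or.inr ⟨hp.1, hsp.symm⟩
        · rw [mem_singleton_iff] at he; subst he
          exact Or.inr ⟨hq.1, hsq.symm⟩
  · rw [ncard_insert_of_notMem (fun h' => hZC w hw h'.1) (hCf.subset sdiff_subset),
      ncard_sdiff_singleton_of_mem hy]
    have := h.card_base hK hB
    have : 0 < C.ncard := (ncard_pos hCf).2 ⟨y, hy⟩
    omega

/-- Exchange of `x ∉ C ∪ Z` and `p ∈ Z`. -/
theorem LCfg.swap_X [M.Finite] {C Z : Set α} (hK : AtLeastOneRegular M) (h : LCfg M C Z) {x p : α}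
    (hxC : x ∉ C) (hxZ : x ∉ Z) (hp : p ∈ Z) (hI : ∀ q ∈ Z, q ≠ p → M.Indep (C ∪ {x, q})) :
    LCfg M C (insert x (Z \ {p})) := by
  have hZf : Z.Finite := finite_of_ncard_ne_zero (by rw [h.1]; omega)
  obtain ⟨B, hB⟩ := M.exists_isBase
  apply LCfg.mk_card hB
  · rw [ncard_insert_of_notMem (fun h' => hxZ h'.1) (hZf.subset sdiff_subset),
      ncard_sdiff_singleton_of_mem hp, h.1]
  · rw [disjoint_left]
    rintro e he (h' | h')
    · exact hxC (h' ▸ he)
    · exact h.2.1.le_bot ⟨he, h'.1⟩
  · rintro q (rfl | hq) r (rfl | hr) hqr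
    · exact absurd rfl hqr
    · exact hI r hr.1 hr.2
    · rw [pair_comm]
      exact hI q hq.1 hq.2
    · exact h.2.2.1 q hq.1 r hr.1 hqr
  · exact h.card_base hK hB

theorem not_mem_closure_C [M.Finite] {C Z : Set α} (hK : AtLeastOneRegular M) (hS : IsSimple M)
    (h : LCfg M C Z) {x : α} (hxE : x ∈ M.E) (hxC : x ∉ C) (hxZ : x ∉ Z) : x ∉ M.closure C := by
  intro hx
  obtain ⟨a, ha, b, hb, hab⟩ := exists_two h.1
  have hCi : M.Indep C := (h.2.2.1 a ha b hb hab).subset subset_union_left
  have hxi : M.Indep {x} := by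
    have := hS x hxE x hxE
    simpa using this
  have hins : insert x C ⊆ M.E := insert_subset hxE hCi.subset_ground
  obtain ⟨I, hI, hxI⟩ := hxi.subset_isBasis_of_subset (singleton_subset_iff.2 (mem_insert x C)) hins
  have hCb : M.IsBasis C (insert x C) := hCi.isBasis_insert_iff.2 (Or.inl (by
    by_contra hc
    have h1 : M.Indep (insert x C) := by
      by_contra h2
      exact hc ⟨h2, hins⟩
    exact ((hCi.mem_closure_iff_of_notMem hxC).1 hx).not_indep h1))
  have hxI' : x ∈ I := hxI rfl
  obtain ⟨B, hB⟩ := M.exists_isBase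
  have hCf := h.ground_finite
  have hIC : I.ncard = C.ncard := by
    have := hI.encard_eq_eRk.trans hCb.encard_eq_eRk.symm
    rw [ncard_def, this, ← ncard_def]
  have hIf : I.Finite := (hCf.insert x).subset hI.subset
  have hcfg : LCfg M I Z := by
    apply LCfg.mk_card hB h.1
    · rw [disjoint_left]
      intro e he heZ
      rcases hI.subset he with h' | h'
      · exact hxZ (h' ▸ heZ)
      · exact h.2.1.le_bot ⟨h', heZ⟩
    · intro p hp q hq hpq
      have hi := h.2.2.1 p hp q hq hpq
      have h1 : M.eRk (I ∪ {p, q}) = M.eRk (C ∪ {p, q}) := by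
        rw [hI.eRk_eq_eRk_union, hCb.eRk_eq_eRk_union]
      have hdC : Disjoint C {p, q} := by
        rw [disjoint_left]
        rintro e he (h' | h')
        · exact h.2.1.le_bot ⟨he, h' ▸ hp⟩
        · rw [mem_singleton_iff] at h'
          exact h.2.1.le_bot ⟨he, h' ▸ hq⟩
      have hf : (I ∪ {p, q}).Finite := hIf.union (by simp)
      have h2 : (I ∪ {p, q}).encard ≤ (C ∪ {p, q}).encard := by
        rw [encard_union_eq hdC]
        refine (encard_union_le _ _).trans ?_
        have := hI.encard_eq_eRk.trans hCb.encard_eq_eRk.symm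
        rw [this]
      rw [M.indep_iff_eRk_eq_encard_of_finite hf]
      apply le_antisymm (M.eRk_le_encard _)
      rw [h1, hi.eRk_eq_encard]
      exact h2
    · rw [hIC]
      exact h.card_base hK hB
  exact (cfg_out hK h hxE hxC hxZ).2 (cfg_mem hK hcfg hxI').1

/-- The label of `x` is unique. -/
theorem label_X_unique [M.Finite] {C Z : Set α} (hK : AtLeastOneRegular M) (hS : IsSimple M)
    (h : LCfg M C Z) {x : α} (hxE : x ∈ M.E) (hxC : x ∉ C) (hxZ : x ∉ Z) {p q : α} (hp : p ∈ Z)
    (hq : q ∈ Z) (h1 : ¬ M.Indep (C ∪ {x, p})) (h2 : ¬ M.Indep (C ∪ {x, q})) : p = q := by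
  by_contra hpq
  apply not_mem_closure_C hK hS h hxE hxC hxZ
  have hZC : ∀ e ∈ Z, e ∉ C := fun e he h' => h.2.1.le_bot ⟨h', he⟩
  have hi := h.2.2.1 p hp q hq hpq
  have hcl : ∀ r ∈ Z, M.Indep (C ∪ {r}) → ¬ M.Indep (C ∪ {x, r}) → x ∈ M.closure (C ∪ {r}) := by
    intro r hr hir hdep
    rw [hir.mem_closure_iff_of_notMem (by
      rintro (h' | h')
      · exact hxC h'
      · exact hxZ (h' ▸ hr))]
    refine ⟨fun hc => hdep ?_, insert_subset hxE hir.subset_ground⟩
    have : C ∪ {x, r} = insert x (C ∪ {r}) := by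
      ext e; simp only [mem_insert_iff, mem_union, mem_singleton_iff]; tauto
    rwa [this]
  have hip : M.Indep (C ∪ {p}) := hi.subset (union_subset_union_right _ (by simp))
  have hiq : M.Indep (C ∪ {q}) := hi.subset (union_subset_union_right _ (by simp))
  have e1 : (C ∪ {p}) ∩ (C ∪ {q}) = C := by
    ext e
    simp only [mem_inter_iff, mem_union, mem_singleton_iff]
    constructor
    · rintro ⟨h1 | h1, h2 | h2⟩
      · exact h1
      · exact h1
      · exact h2
      · exact absurd (h1.symm.trans h2) hpq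
    · intro h; exact ⟨Or.inl h, Or.inl h⟩
  have e2 : M.Indep ((C ∪ {p}) ∪ (C ∪ {q})) := by
    have : (C ∪ {p}) ∪ (C ∪ {q}) = C ∪ {p, q} := by
      ext e; simp only [mem_insert_iff, mem_union, mem_singleton_iff]; tauto
    rwa [this]
  rw [← e1, e2.closure_inter_eq_inter_closure]
  exact ⟨hcl p hp hip h1, hcl q hq hiq h2⟩

/-- Label of `y ∈ C`. -/
theorem exists_label_C [M.Finite] {C Z : Set α} (hK : AtLeastOneRegular M) (h : LCfg M C Z) {y : α}
    (hy : y ∈ C) : ∃ w ∈ Z, (∀ s ∈ Z, s ≠ w → M.Indep (C \ {y} ∪ (Z \ {s}))) ∧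
      LCfg M (insert w (C \ {y})) (insert y (Z \ {w})) ∧
      IsRegular (M.delete {w}) ∧ ¬ IsRegular (M.contract {w}) ∧
      (¬ M.Indep (C \ {y} ∪ (Z \ {w})) ∨ ∀ z ∈ Z, IsRegular (M.delete {z})) := by
  by_cases hex : ∃ w ∈ Z, ¬ M.Indep (C \ {y} ∪ (Z \ {w}))
  · obtain ⟨w, hw, hdep⟩ := hex
    have hall : ∀ s ∈ Z, s ≠ w → M.Indep (C \ {y} ∪ (Z \ {s})) := by
      intro s hs hsw
      by_contra hc
      exact h.not_two hK hy hw hs hsw.symm hdep hc
    have hcfg := h.swap_C hK hy hw hall
    have hr := cfg_mem hK hcfg (mem_insert _ _)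
    exact ⟨w, hw, hall, hcfg, hr.1, hr.2, Or.inl hdep⟩
  · push Not at hex
    have hreg : ∀ w ∈ Z, IsRegular (M.delete {w}) ∧ ¬ IsRegular (M.contract {w}) := by
      intro w hw
      exact cfg_mem hK (h.swap_C hK hy hw (fun s hs _ => hex s hs)) (mem_insert _ _)
    obtain ⟨a, ha, b, hb, hab⟩ := exists_two h.1
    exact ⟨a, ha, fun s hs _ => hex s hs, h.swap_C hK hy ha (fun s hs _ => hex s hs),
      (hreg a ha).1, (hreg a ha).2, Or.inr fun z hz => (hreg z hz).1⟩

/-- Label of `x ∉ C ∪ Z`. -/
theorem exists_label_X [M.Finite] {C Z : Set α} (hK : AtLeastOneRegular M) (hS : IsSimple M)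
    (h : LCfg M C Z) {x : α} (hxE : x ∈ M.E) (hxC : x ∉ C) (hxZ : x ∉ Z) :
    ∃ p ∈ Z, (∀ q ∈ Z, q ≠ p → M.Indep (C ∪ {x, q})) ∧ LCfg M C (insert x (Z \ {p})) ∧
      IsRegular (M.contract {p}) ∧ ¬ IsRegular (M.delete {p}) ∧
      (¬ M.Indep (C ∪ {x, p}) ∨ ∀ z ∈ Z, ¬ IsRegular (M.delete {z})) := by
  have hZE : ∀ e ∈ Z, e ∈ M.E := by
    intro e he
    obtain ⟨a, ha, b, hb, hab⟩ := exists_two h.1
    by_cases hea : e = a
    · subst hea
      exact (h.2.2.1 e ha b hb hab).subset_ground (Or.inr (Or.inl rfl))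
    · exact (h.2.2.1 e he a ha hea).subset_ground (Or.inr (Or.inl rfl))
  have hZC : ∀ e ∈ Z, e ∉ C := fun e he h' => h.2.1.le_bot ⟨h', he⟩
  have hout : ∀ p ∈ Z, LCfg M C (insert x (Z \ {p})) →
      IsRegular (M.contract {p}) ∧ ¬ IsRegular (M.delete {p}) := by
    intro p hp hcfg
    refine cfg_out hK hcfg (hZE p hp) (hZC p hp) ?_
    rintro (h' | h')
    · exact hxZ (h' ▸ hp)
    · exact h'.2 rfl
  by_cases hex : ∃ p ∈ Z, ¬ M.Indep (C ∪ {x, p})
  · obtain ⟨p, hp, hdep⟩ := hex
    have hall : ∀ q ∈ Z, q ≠ p → M.Indep (C ∪ {x, q}) := by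
      intro q hq hqp
      by_contra hc
      exact hqp (label_X_unique hK hS h hxE hxC hxZ hq hp hc hdep)
    have hcfg := h.swap_X hK hxC hxZ hp hall
    have hr := hout p hp hcfg
    exact ⟨p, hp, hall, hcfg, hr.1, hr.2, Or.inl hdep⟩
  · push Not at hex
    have hcf : ∀ p ∈ Z, LCfg M C (insert x (Z \ {p})) := fun p hp =>
      h.swap_X hK hxC hxZ hp (fun q hq _ => hex q hq)
    obtain ⟨a, ha, b, hb, hab⟩ := exists_two h.1
    exact ⟨a, ha, fun q hq _ => hex q hq, hcf a ha, (hout a ha (hcf a ha)).1,
      (hout a ha (hcf a ha)).2, Or.inr fun z hz => (hout z hz (hcf z hz)).2⟩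

end MP948082
end

section
/-!
# MP_948082_co : NONBINARY, part 3: existence of four-point line configurations
-/
open Set Submodule

namespace MP948082

universe u

variable {α : Type u} {M N : Matroid α}

/-- Two binary matroids with a common base and the same single exchanges are equal. -/
theorem binary_ext [M.Finite] [N.Finite] (hM : Representable F2 M) (hN : Representable F2 N)
    (hE : N.E = M.E) {B : Set α} (hB : M.IsBase B) (hB' : N.IsBase B)
    (hex : ∀ r ∈ B, ∀ c ∈ M.E, c ∉ B →
      (M.IsBase (insert c (B \ {r})) ↔ N.IsBase (insert c (B \ {r})))) : M = N := by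
  obtain ⟨n, v, hv, hvs⟩ := hM.exists_spanning
  obtain ⟨m, w, hw, hws⟩ := hN.exists_spanning
  let φ := (hv.basis hvs hB).equiv (hw.basis hws hB') (Equiv.refl B)
  have hb : ∀ e ∈ B, φ (v e) = w e := by
    intro e he
    have := (hv.basis hvs hB).equiv_apply ⟨e, he⟩ (hw.basis hws hB') (Equiv.refl B)
    simpa using this
  have hφ : ∀ e ∈ M.E, φ (v e) = w e := by
    intro e he
    by_cases heB : e ∈ B
    · exact hb e heB
    apply (hw.basis hws hB').ext_elem
    intro r
    have h1 : (hw.basis hws hB').repr (φ (v e)) r = (hv.basis hvs hB).repr (v e) r := by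
      simp [φ, Module.Basis.equiv]
    rw [h1]
    apply F2_eq_of_ne_zero_iff
    have h2 := hv.exchange_iff hvs hB r.2 he heB
    have h3 := hw.exchange_iff hws hB' r.2 (hE ▸ he) heB
    exact h2.symm.trans ((hex r r.2 e he heB).trans h3)
  refine Matroid.ext_indep hE.symm fun I hI => ?_
  rw [hv I hI, hw I (hE ▸ hI)]
  have e1 : LinearIndepOn F2 w I ↔ LinearIndepOn F2 (fun a => φ.toLinearMap (v a)) I :=
    linearIndepOn_congr fun a ha => (hφ a (hI ha)).symm
  rw [e1]
  constructor
  · intro hl
    exact hl.map_injOn φ.toLinearMap φ.injective.injOn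
  · intro hl
    exact LinearIndepOn.of_comp φ.toLinearMap hl

/-- The binary matroid with given single exchanges. -/
theorem exists_binary [M.Finite] {B : Set α} (hB : M.IsBase B) :
    ∃ N : Matroid α, N.E = M.E ∧ N.Finite ∧ N.IsBase B ∧ Representable F2 N ∧
      ∀ r ∈ B, ∀ c ∈ M.E, c ∉ B →
        (M.IsBase (insert c (B \ {r})) ↔ N.IsBase (insert c (B \ {r}))) := by
  classical
  have hBE := hB.subset_ground
  have : Fintype B := hB.finite.fintype
  let v : α → (B → F2) := fun e =>
    if he : e ∈ B then Pi.single ⟨e, he⟩ 1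
    else fun r => if M.IsBase (insert e (B \ {(r : α)})) then 1 else 0
  have hvB : ∀ r : B, v r = Pi.single r 1 := by
    intro r
    simp [v]
  set N := vecMatroid F2 v M.E M.ground_finite with hN
  have hrep : IsRep F2 N v := vecMatroid_isRep
  have hliB : LinearIndepOn F2 v B := by
    have h1 := Pi.linearIndependent_single_one B F2
    have h2 : (fun r : B => v r) = fun r => (Pi.single r 1 : B → F2) := funext hvB
    rw [LinearIndepOn, h2]
    exact h1
  have himg : v '' B = range (fun r : B => (Pi.single r 1 : B → F2)) := by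
    rw [image_eq_range]
    exact congrArg range (funext hvB)
  have hspB : span F2 (v '' B) = ⊤ := by
    rw [himg]
    have := (Pi.basisFun F2 B).span_eq
    have h2 : (⇑(Pi.basisFun F2 B) : B → (B → F2)) = fun r => (Pi.single r 1 : B → F2) :=
      funext fun r => Pi.basisFun_apply F2 B r
    rwa [h2] at this
  have hNE : N.E = M.E := rfl
  have hvs : span F2 (v '' N.E) = ⊤ := by
    rw [eq_top_iff, ← hspB]
    exact span_mono (image_mono hBE)
  have hNB : N.IsBase B := (hrep.isBase_iff hvs).2 ⟨hBE, hliB, hspB⟩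
  refine ⟨N, rfl, vecMatroid_finite, hNB, vecMatroid_representable, ?_⟩
  intro r hr c hc hcB
  rw [hrep.exchange_iff hvs hNB hr hc hcB]
  have hcoord : (hrep.basis hvs hNB).coord ⟨r, hr⟩ = LinearMap.proj ⟨r, hr⟩ := by
    apply (hrep.basis hvs hNB).ext
    intro i
    rw [hrep.basis_apply, hvB, LinearMap.proj_apply]
    by_cases hi : i = ⟨r, hr⟩
    · subst hi
      rw [Pi.single_eq_same, ← hvB]
      exact hrep.basis_coord_self hvs hNB _
    · rw [Pi.single_eq_of_ne (fun h => hi h.symm), ← hvB]
      exact hrep.basis_coord_ne hvs hNB _ i.2 (fun h => hi (Subtype.ext h))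
  rw [hcoord, LinearMap.proj_apply]
  simp only [v, dif_neg hcB]
  by_cases h : M.IsBase (insert c (B \ {r}))
  · simp [h]
  · simp [h]

theorem pairs_of_six {P : α → α → Prop} (hsymm : ∀ a b, P a b → P b a) {a b c d : α}
    (h1 : P a b) (h2 : P a c) (h3 : P a d) (h4 : P b c) (h5 : P b d) (h6 : P c d) :
    ∀ p ∈ ({a, b, c, d} : Set α), ∀ q ∈ ({a, b, c, d} : Set α), p ≠ q → P p q := by
  rintro p (rfl | rfl | rfl | hp) q (rfl | rfl | rfl | hq) hpq <;>
  first
  | (exact absurd rfl hpq)
  | (rw [mem_singleton_iff] at hp hq; exact absurd (hp.trans hq.symm) hpq)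
  | skip
  · exact h1
  · exact h2
  · rw [mem_singleton_iff] at hq; rw [hq]; exact h3
  · exact hsymm _ _ h1
  · exact h4
  · rw [mem_singleton_iff] at hq; rw [hq]; exact h5
  · exact hsymm _ _ h2
  · exact hsymm _ _ h4
  · rw [mem_singleton_iff] at hq; rw [hq]; exact h6
  · rw [mem_singleton_iff] at hp; rw [hp]; exact hsymm _ _ h3
  · rw [mem_singleton_iff] at hp; rw [hp]; exact hsymm _ _ h5
  · rw [mem_singleton_iff] at hp; rw [hp]; exact hsymm _ _ h6

/-- A configuration from a base and a double exchange with all exchanges bases. -/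
theorem lcfg_of_base [M.Finite] {B : Set α} (hB : M.IsBase B) {a b x y : α} (hab : a ≠ b)
    (hxy : x ≠ y) (ha : a ∈ B) (hb : b ∈ B) (hx : x ∉ B) (hy : y ∉ B)
    (hax : M.IsBase (insert x (B \ {a}))) (hay : M.IsBase (insert y (B \ {a})))
    (hbx : M.IsBase (insert x (B \ {b}))) (hby : M.IsBase (insert y (B \ {b})))
    (hT : M.IsBase ((B \ {a, b}) ∪ {x, y})) : LCfg M (B \ {a, b}) {a, b, x, y} := by
  have hne : ∀ {s t : α}, s ∈ B → t ∉ B → s ≠ t := fun hs ht h => ht (h ▸ hs)
  have e1 : ∀ {s t u : α}, s ∈ B → t ∈ B → s ≠ t → B \ {s, t} ∪ {s, u} = insert u (B \ {t}) := by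
    intro s t u hs ht hst
    ext e
    simp only [mem_union, mem_sdiff, mem_insert_iff, mem_singleton_iff, not_or]
    constructor
    · rintro (⟨h1, h2, h3⟩ | h | h)
      · exact Or.inr ⟨h1, h3⟩
      · exact Or.inr ⟨h ▸ hs, h ▸ hst⟩
      · exact Or.inl h
    · rintro (h | ⟨h1, h2⟩)
      · exact Or.inr (Or.inr h)
      · by_cases hes : e = s
        · exact Or.inr (Or.inl hes)
        · exact Or.inl ⟨h1, hes, h2⟩
  have hset : B \ {b, a} = B \ {a, b} := by rw [pair_comm]
  apply LCfg.mk_card hB (four_ncard hab (hne ha hx) (hne ha hy) (hne hb hx) (hne hb hy) hxy)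
  · rw [disjoint_left]
    rintro e he (h | h | h | h)
    · exact he.2 (Or.inl h)
    · exact he.2 (Or.inr h)
    · exact hx (h ▸ he.1)
    · exact hy ((mem_singleton_iff.1 h) ▸ he.1)
  · apply pairs_of_six (P := fun p q => M.Indep (B \ {a, b} ∪ {p, q}))
    · intro p q h
      rwa [pair_comm q p]
    · have : B \ {a, b} ∪ {a, b} = B := sdiff_union_of_subset (by
        rintro e (h | h)
        · exact h ▸ ha
        · exact (mem_singleton_iff.1 h) ▸ hb)
      rw [this]
      exact hB.indep
    · rw [e1 ha hb hab]; exact hbx.indep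
    · rw [e1 ha hb hab]; exact hby.indep
    · rw [← hset, e1 hb ha hab.symm]; exact hax.indep
    · rw [← hset, e1 hb ha hab.symm]; exact hay.indep
    · exact hT.indep
  · have hsub : ({a, b} : Set α) ⊆ B := by
      rintro e (h | h)
      · exact h ▸ ha
      · exact (mem_singleton_iff.1 h) ▸ hb
    have h1 := ncard_sdiff hsub (toFinite _)
    have h2 := ncard_le_ncard hsub hB.finite
    rw [ncard_pair hab] at h1 h2
    omega

/-- A non-binary matroid has a four-point line configuration. -/
theorem exists_lcfg [M.Finite] (hM : ¬ Representable F2 M) : ∃ C Z, LCfg M C Z := by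
  by_contra hno
  push Not at hno
  apply hM
  obtain ⟨B, hB⟩ := M.exists_isBase
  obtain ⟨N, hNE, hNfin, hNB, hNrep, hex⟩ := exists_binary hB
  let Good : Set α → Prop := fun B' => M.IsBase B' ∧ N.IsBase B' ∧
    ∀ r ∈ B', ∀ c ∈ M.E, c ∉ B' →
      (M.IsBase (insert c (B' \ {r})) ↔ N.IsBase (insert c (B' \ {r})))
  have hGB : Good B := ⟨hB, hNB, hex⟩
  have hdouble : ∀ B', Good B' → ∀ a b x y, a ≠ b → x ≠ y → a ∈ B' → b ∈ B' → x ∉ B' → y ∉ B' →
      x ∈ M.E → y ∈ M.E →
      (M.IsBase ((B' \ {a, b}) ∪ {x, y}) ↔ N.IsBase ((B' \ {a, b}) ∪ {x, y})) := by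
    rintro B' ⟨hB', hNB', hex'⟩ a b x y hab hxy ha hb hx hy hxE hyE
    by_cases h4 : M.IsBase (insert x (B' \ {a})) ∧ M.IsBase (insert y (B' \ {a})) ∧
        M.IsBase (insert x (B' \ {b})) ∧ M.IsBase (insert y (B' \ {b}))
    · apply iff_of_false
      · intro hT
        exact hno _ _ (lcfg_of_base hB' hab hxy ha hb hx hy h4.1 h4.2.1 h4.2.2.1 h4.2.2.2 hT)
      · exact not_isBase_of_four hNrep hNB' hxy ha hb hx hy (hNE ▸ hxE) (hNE ▸ hyE)
          ((hex' a ha x hxE hx).1 h4.1) ((hex' a ha y hyE hy).1 h4.2.1)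
          ((hex' b hb x hxE hx).1 h4.2.2.1) ((hex' b hb y hyE hy).1 h4.2.2.2)
    · exact double_exchange_agree hB' hNB' hNE hab hxy ha hb hx hy hxE hyE
        (hex' a ha x hxE hx) (hex' a ha y hyE hy) (hex' b hb x hxE hx) (hex' b hb y hyE hy) h4
  have hprop : ∀ B', Good B' → ∀ r ∈ B', ∀ c ∈ M.E, c ∉ B' → M.IsBase (insert c (B' \ {r})) →
      Good (insert c (B' \ {r})) := by
    rintro B' hG r hr c hc hcB hbase
    obtain ⟨hB', hNB', hex'⟩ := id hG
    refine ⟨hbase, (hex' r hr c hc hcB).1 hbase, ?_⟩
    intro s hs d hd hdB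
    have hdc : d ≠ c := fun h => hdB (Or.inl h)
    rcases hs with hs | hs
    · -- `s = c`
      have e1 : insert d (insert c (B' \ {r}) \ {s}) = insert d (B' \ {r}) := by
        rw [hs]
        congr 1
        ext e
        simp only [mem_sdiff, mem_insert_iff, mem_singleton_iff]
        constructor
        · rintro ⟨h | h, h'⟩
          · exact absurd h h'
          · exact h
        · intro h
          exact ⟨Or.inr h, fun h' => hcB (h' ▸ h.1)⟩
      rw [e1]
      by_cases hdr : d = r
      · have : insert d (B' \ {r}) = B' := by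
          rw [hdr, insert_sdiff_singleton, insert_eq_of_mem hr]
        rw [this]
        exact iff_of_true hB' hNB'
      · exact hex' r hr d hd (fun h => hdB (Or.inr ⟨h, hdr⟩))
    · by_cases hdr : d = r
      · have e1 : insert d (insert c (B' \ {r}) \ {s}) = insert c (B' \ {s}) := by
          rw [hdr]
          ext e
          simp only [mem_sdiff, mem_insert_iff, mem_singleton_iff]
          constructor
          · rintro (h | ⟨h | h, h'⟩)
            · exact Or.inr ⟨h ▸ hr, fun h' => hs.2 (h'.symm.trans h)⟩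
            · exact Or.inl h
            · exact Or.inr ⟨h.1, h'⟩
          · rintro (h | ⟨h, h'⟩)
            · exact Or.inr ⟨Or.inl h, fun h' => hcB (h.symm.trans h' ▸ hs.1)⟩
            · by_cases her : e = r
              · exact Or.inl her
              · exact Or.inr ⟨Or.inr ⟨h, her⟩, h'⟩
        rw [e1]
        exact hex' s hs.1 c hc hcB
      · have hdB' : d ∉ B' := fun h => hdB (Or.inr ⟨h, hdr⟩)
        have e1 : insert d (insert c (B' \ {r}) \ {s}) = (B' \ {r, s}) ∪ {c, d} := by
          ext e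
          simp only [mem_union, mem_sdiff, mem_insert_iff, mem_singleton_iff, not_or]
          constructor
          · rintro (h | ⟨h | h, h'⟩)
            · exact Or.inr (Or.inr h)
            · exact Or.inr (Or.inl h)
            · exact Or.inl ⟨h.1, h.2, h'⟩
          · rintro (⟨h1, h2, h3⟩ | h | h)
            · exact Or.inr ⟨Or.inr ⟨h1, h2⟩, h3⟩
            · exact Or.inr ⟨Or.inl h, fun h' => hcB (h.symm.trans h' ▸ hs.1)⟩
            · exact Or.inl h
        rw [e1]
        exact hdouble B' hG r s c d (fun h => hs.2 h.symm) hdc.symm hr hs.1 hcB hdB' hc hd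
  have hall : ∀ n, ∀ B' T, Good B' → (M.IsBase T ∨ N.IsBase T) → (T \ B').ncard = n → Good T := by
    intro n
    induction n with
    | zero =>
      intro B' T hG hT hcard
      have hTfin : T.Finite := by
        rcases hT with h | h
        · exact h.finite
        · exact h.finite
      rw [ncard_eq_zero (hTfin.subset sdiff_subset), sdiff_eq_empty] at hcard
      have : T = B' := by
        rcases hT with h | h
        · exact h.eq_of_subset_isBase hG.1 hcard
        · exact h.eq_of_subset_isBase hG.2.1 hcard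
      rw [this]
      exact hG
    | succ n ih =>
      intro B' T hG hT hcard
      have hTfin : T.Finite := by
        rcases hT with h | h
        · exact h.finite
        · exact h.finite
      have hne : (T \ B').Nonempty := nonempty_of_ncard_ne_zero (by omega)
      obtain ⟨t, ht⟩ := hne
      have htE : t ∈ M.E := by
        rcases hT with h | h
        · exact h.subset_ground ht.1
        · exact hNE ▸ h.subset_ground ht.1
      have hb : ∃ b ∈ B' \ T, M.IsBase (insert t (B' \ {b})) := by
        rcases hT with h | h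
        · exact rev_exchange hG.1 h ht
        · obtain ⟨b, hb, hbb⟩ := rev_exchange hG.2.1 h ht
          exact ⟨b, hb, (hG.2.2 b hb.1 t htE ht.2).2 hbb⟩
      obtain ⟨b, hb, hbase⟩ := hb
      refine ih (insert t (B' \ {b})) T (hprop B' hG b hb.1 t htE ht.2 hbase) hT ?_
      have e1 : T \ insert t (B' \ {b}) = (T \ B') \ {t} := by
        ext e
        simp only [mem_sdiff, mem_insert_iff, mem_singleton_iff, not_or, not_and, not_not]
        constructor
        · rintro ⟨h1, h2, h3⟩
          exact ⟨⟨h1, fun h => hb.2 ((h3 h) ▸ h1)⟩, h2⟩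
        · rintro ⟨⟨h1, h2⟩, h3⟩
          exact ⟨h1, h3, fun h => absurd h h2⟩
      rw [e1, ncard_sdiff_singleton_of_mem ht]
      omega
  have : M = N := by
    apply Matroid.ext_isBase hNE.symm
    intro T _
    constructor
    · intro h
      exact (hall _ B T hGB (Or.inl h) rfl).2.1
    · intro h
      exact (hall _ B T hGB (Or.inr h) rfl).1
  rw [this]
  exact hNrep

end MP948082
end

section
/-!
# MP_948082_co : NONBINARY, part 4: recognising relaxations (Lemma R)
-/
open Set Submodule

namespace MP948082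

universe u

variable {α : Type u} {M N K : Matroid α}

/-- Transitivity. -/
theorem rel_trans {Y : Set α}
    (hex : ∀ y ∈ Y, ∀ x ∈ K.E, x ∉ Y → K.IsBase (insert x (Y \ {y}))) {x0 x : α}
    (hxE : x ∈ K.E) (hxY : x ∉ Y) (hx0Y : x0 ∉ Y) {y y' y'' : α} (hy : y ∈ Y) (hy' : y' ∈ Y)
    (hy'' : y'' ∈ Y) (h12 : y ≠ y') (h23 : y' ≠ y'') (h13 : y ≠ y'')
    (h1 : ¬ K.IsBase (Y \ {y, y'} ∪ {x0, x})) (h2 : ¬ K.IsBase (Y \ {y', y''} ∪ {x0, x})) :
    ¬ K.IsBase (Y \ {y, y''} ∪ {x0, x}) := by
  intro hb
  have hne : ∀ {s t : α}, s ∈ Y → t ∉ Y → s ≠ t := fun hs ht h => ht (h ▸ hs)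
  set J : Set α := (Y \ {y, y', y''}) ∪ {x0, x} with hJ
  have hyJ : y ∉ J := by
    rintro (h | h | h)
    · exact h.2 (Or.inl rfl)
    · exact hne hy hx0Y h
    · exact hne hy hxY h
  have hy'J : y' ∉ J := by
    rintro (h | h | h)
    · exact h.2 (Or.inr (Or.inl rfl))
    · exact hne hy' hx0Y h
    · exact hne hy' hxY h
  have hy''J : y'' ∉ J := by
    rintro (h | h | h)
    · exact h.2 (Or.inr (Or.inr rfl))
    · exact hne hy'' hx0Y h
    · exact hne hy'' hxY h
  have hset : ∀ a b c : α, c ∈ Y → c ≠ a → c ≠ b → ({a, b, c} : Set α) = {y, y', y''} →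
      Y \ {a, b} ∪ {x0, x} = insert c J := by
    intro a b c hc hca hcb habc
    rw [hJ, ← habc]
    ext e
    simp only [mem_union, mem_sdiff, mem_insert_iff, mem_singleton_iff, not_or]
    constructor
    · rintro (⟨h1, h2, h3⟩ | h)
      · by_cases hec : e = c
        · exact Or.inl hec
        · exact Or.inr (Or.inl ⟨h1, h2, h3, hec⟩)
      · exact Or.inr (Or.inr h)
    · rintro (h | ⟨h1, h2, h3, h4⟩ | h)
      · exact Or.inl ⟨h ▸ hc, fun h' => hca (h.symm.trans h'), fun h' => hcb (h.symm.trans h')⟩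
      · exact Or.inl ⟨h1, h2, h3⟩
      · exact Or.inr h
  rw [hset y y'' y' hy' h12.symm h23 (by ext e; simp only [mem_insert_iff, mem_singleton_iff]; tauto)]
    at hb
  rw [hset y y' y'' hy'' h13.symm h23.symm rfl] at h1
  rw [hset y' y'' y hy h12 h13 (by ext e; simp only [mem_insert_iff, mem_singleton_iff]; tauto)]
    at h2
  have hJi : K.Indep J := hb.indep.subset (subset_insert _ _)
  have hJE := hJi.subset_ground
  have hYE : ∀ s ∈ Y, s ∈ K.E := by
    intro s hs
    by_cases hsy : s = y
    · rw [hsy]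
      exact (hex y' hy' x hxE hxY).subset_ground (Or.inr ⟨hy, fun h => h12 h⟩)
    · exact (hex y hy x hxE hxY).subset_ground (Or.inr ⟨hs, hsy⟩)
  have hcl : ∀ u ∈ Y, u ∉ J → ¬ K.IsBase (insert u J) → u ∈ K.closure J := by
    intro u hu huJ hnb
    rw [hJi.mem_closure_iff_of_notMem huJ]
    exact ⟨fun hi => hnb (Matroid.insert_isBase_of_insert_indep hy'J huJ hb hi),
      insert_subset (hYE u hu) hJE⟩
  have hb2 := hex y' hy' x hxE hxY
  have hsub : insert x (Y \ {y'}) ⊆ K.closure J := by
    rintro e (h | h)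
    · rw [h]
      exact K.mem_closure_of_mem (Or.inr (Or.inr rfl)) hJE
    · by_cases hey : e = y
      · rw [hey]; exact hcl y hy hyJ h2
      by_cases hey'' : e = y''
      · rw [hey'']; exact hcl y'' hy'' hy''J h1
      apply K.mem_closure_of_mem _ hJE
      left
      refine ⟨h.1, ?_⟩
      rintro (h' | h' | h')
      · exact hey h'
      · exact h.2 h'
      · exact hey'' h'
  have hJb : K.IsBase J := by
    rw [hJi.isBase_iff_ground_subset_closure, ← hb2.closure_eq]
    exact K.closure_subset_closure_of_subset_closure hsub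
  exact hJb.insert_not_isBase hy'J hb

/-- At most two classes. -/
theorem rel_two [K.Finite] {Y : Set α}
    (hex : ∀ y ∈ Y, ∀ x ∈ K.E, x ∉ Y → K.IsBase (insert x (Y \ {y}))) {x0 x : α}
    (hx0x : x0 ≠ x)
    (hxE : x ∈ K.E) (hxY : x ∉ Y) (hx0Y : x0 ∉ Y) {y y' y'' : α} (hy : y ∈ Y) (hy' : y' ∈ Y)
    (hy'' : y'' ∈ Y) (h12 : y ≠ y') (h23 : y' ≠ y'') (h13 : y ≠ y'')
    (hbin : Representable F2 (K.contract {x}))
    (h1 : K.IsBase (Y \ {y, y'} ∪ {x0, x})) (h2 : K.IsBase (Y \ {y', y''} ∪ {x0, x}))
    (h3 : K.IsBase (Y \ {y, y''} ∪ {x0, x})) : False := by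
  have hne : ∀ {s t : α}, s ∈ Y → t ∉ Y → s ≠ t := fun hs ht h => ht (h ▸ hs)
  have hxi : K.Indep {x} := h1.indep.subset (by
    rw [singleton_subset_iff]; exact Or.inr (Or.inr rfl))
  set C : Set α := Y \ {y, y', y''} with hC
  have hCY : C ⊆ Y := sdiff_subset
  have hYE : ∀ s ∈ Y, s ∈ K.E := by
    intro s hs
    by_cases hsy : s = y
    · rw [hsy]
      exact (hex y' hy' x hxE hxY).subset_ground (Or.inr ⟨hy, fun h => h12 h⟩)
    · exact (hex y hy x hxE hxY).subset_ground (Or.inr ⟨hs, hsy⟩)
  have hYf : Y.Finite := K.ground_finite.subset hYE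
  -- bases containing `x`: `C ∪ {a, b} ∪ {x}`
  have hset1 : ∀ a b c : α, a ∈ Y → b ∈ Y → c ≠ a → c ≠ b → ({a, b, c} : Set α) = {y, y', y''} →
      C ∪ {a, b} ∪ {x} = insert x (Y \ {c}) := by
    intro a b c ha hb hca hcb habc
    rw [hC, ← habc]
    ext e
    simp only [mem_union, mem_sdiff, mem_insert_iff, mem_singleton_iff, not_or]
    constructor
    · rintro ((⟨h1, h2, h3, h4⟩ | h | h) | h)
      · exact Or.inr ⟨h1, h4⟩
      · exact Or.inr ⟨h ▸ ha, fun h' => hca (h'.symm.trans h)⟩
      · exact Or.inr ⟨h ▸ hb, fun h' => hcb (h'.symm.trans h)⟩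
      · exact Or.inl h
    · rintro (h | ⟨h1, h2⟩)
      · exact Or.inr h
      · by_cases hea : e = a
        · exact Or.inl (Or.inr (Or.inl hea))
        by_cases heb : e = b
        · exact Or.inl (Or.inr (Or.inr heb))
        exact Or.inl (Or.inl ⟨h1, hea, heb, h2⟩)
  have hset2 : ∀ a b c : α, c ∈ Y → c ≠ a → c ≠ b → ({a, b, c} : Set α) = {y, y', y''} →
      C ∪ {c, x0} ∪ {x} = Y \ {a, b} ∪ {x0, x} := by
    intro a b c hc hca hcb habc
    rw [hC, ← habc]
    ext e
    simp only [mem_union, mem_sdiff, mem_insert_iff, mem_singleton_iff, not_or]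
    constructor
    · rintro ((⟨h1, h2, h3, h4⟩ | h | h) | h)
      · exact Or.inl ⟨h1, h2, h3⟩
      · exact Or.inl ⟨h ▸ hc, fun h' => hca (h.symm.trans h'), fun h' => hcb (h.symm.trans h')⟩
      · exact Or.inr (Or.inl h)
      · exact Or.inr (Or.inr h)
    · rintro (⟨h1, h2, h3⟩ | h | h)
      · by_cases hec : e = c
        · exact Or.inl (Or.inr (Or.inl hec))
        · exact Or.inl (Or.inl ⟨h1, h2, h3, hec⟩)
      · exact Or.inl (Or.inr (Or.inr h))
      · exact Or.inr h
  have hxC : ∀ p q : α, p ≠ x → q ≠ x → Disjoint (C ∪ {p, q}) {x} := by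
    intro p q hp hq
    rw [disjoint_singleton_right]
    rintro (h | h | h)
    · exact hxY (hCY h)
    · exact hp h.symm
    · exact hq (mem_singleton_iff.1 h).symm
  have e123 : ({y, y'', y'} : Set α) = {y, y', y''} := by
    ext e; simp only [mem_insert_iff, mem_singleton_iff]; tauto
  have e231 : ({y', y'', y} : Set α) = {y, y', y''} := by
    ext e; simp only [mem_insert_iff, mem_singleton_iff]; tauto
  have hcfg : LCfg (K.contract {x}) C {y, y', y'', x0} := by
    refine ⟨four_ncard h12 h13 (hne hy hx0Y) h23 (hne hy' hx0Y) (hne hy'' hx0Y), ?_, ?_, ?_⟩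
    · rw [disjoint_left]
      rintro e he (h | h | h | h)
      · exact he.2 (Or.inl h)
      · exact he.2 (Or.inr (Or.inl h))
      · exact he.2 (Or.inr (Or.inr h))
      · exact hx0Y ((mem_singleton_iff.1 h) ▸ he.1)
    · apply pairs_of_six (P := fun p q => (K.contract {x}).Indep (C ∪ {p, q}))
      · intro p q h
        rwa [pair_comm q p]
      · rw [hxi.contract_indep_iff, hset1 y y' y'' hy hy' h13.symm h23.symm rfl]
        exact ⟨hxC _ _ (hne hy hxY) (hne hy' hxY), (hex y'' hy'' x hxE hxY).indep⟩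
      · rw [hxi.contract_indep_iff, hset1 y y'' y' hy hy'' h12.symm h23 e123]
        exact ⟨hxC _ _ (hne hy hxY) (hne hy'' hxY), (hex y' hy' x hxE hxY).indep⟩
      · rw [hxi.contract_indep_iff, hset2 y' y'' y hy h12 h13 e231]
        exact ⟨hxC _ _ (hne hy hxY) hx0x, h2.indep⟩
      · rw [hxi.contract_indep_iff, hset1 y' y'' y hy' hy'' h12 h13 e231]
        exact ⟨hxC _ _ (hne hy' hxY) (hne hy'' hxY), (hex y hy x hxE hxY).indep⟩
      · rw [hxi.contract_indep_iff, hset2 y y'' y' hy' h12.symm h23 e123]
        exact ⟨hxC _ _ (hne hy' hxY) hx0x, h3.indep⟩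
      · rw [hxi.contract_indep_iff, hset2 y y' y'' hy'' h13.symm h23.symm rfl]
        exact ⟨hxC _ _ (hne hy'' hxY) hx0x, h1.indep⟩
    · intro p hp q hq s hs hpq hps hqs hi
      rw [hxi.contract_indep_iff] at hi
      have hb := hex y hy x hxE hxY
      have h4 := indep_card_le hi.2 hb
      have hCf : C.Finite := hYf.subset hCY
      have hZx : ∀ r ∈ ({y, y', y'', x0} : Set α), r ≠ x := by
        rintro r (h | h | h | h)
        · exact h ▸ hne hy hxY
        · exact h ▸ hne hy' hxY
        · exact h ▸ hne hy'' hxY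
        · exact (mem_singleton_iff.1 h) ▸ hx0x
      have hZC : ∀ r ∈ ({y, y', y'', x0} : Set α), r ∉ C := by
        rintro r (h | h | h | h) he
        · exact he.2 (Or.inl h)
        · exact he.2 (Or.inr (Or.inl h))
        · exact he.2 (Or.inr (Or.inr h))
        · exact hx0Y ((mem_singleton_iff.1 h) ▸ he.1)
      rw [ncard_union_eq _ (hCf.union (toFinite _)) (finite_singleton x),
        ncard_union_eq _ hCf (toFinite _), three_ncard hpq hps hqs, ncard_singleton,
        ncard_insert_of_notMem (fun h => hxY h.1) (hYf.subset sdiff_subset),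
        ncard_sdiff_singleton_of_mem hy] at h4
      · have h5 : C.ncard + 3 = Y.ncard := by
          have hsub : ({y, y', y''} : Set α) ⊆ Y := by
            rintro e (h | h | h)
            · exact h ▸ hy
            · exact h ▸ hy'
            · exact (mem_singleton_iff.1 h) ▸ hy''
          have h6 := ncard_sdiff hsub (toFinite _)
          have h7 := ncard_le_ncard hsub hYf
          rw [three_ncard h12 h13 h23] at h6 h7
          rw [← hC] at h6
          omega
        omega
      · rw [disjoint_left]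
        rintro e he (h' | h' | h')
        · exact hZC p hp (h' ▸ he)
        · exact hZC q hq (h' ▸ he)
        · exact hZC s hs ((mem_singleton_iff.1 h') ▸ he)
      · rw [disjoint_singleton_right]
        rintro (h | h | h | h)
        · exact hxY (hCY h)
        · exact hZx p hp h.symm
        · exact hZx q hq h.symm
        · exact hZx s hs (mem_singleton_iff.1 h).symm
  exact hcfg.not_binary hbin

/-- Parity: the three double exchanges determine each other. -/
theorem rel_parity [K.Finite] {Y : Set α}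
    (hex : ∀ y ∈ Y, ∀ x ∈ K.E, x ∉ Y → K.IsBase (insert x (Y \ {y}))) {x0 x : α}
    (hx0x : x0 ≠ x)
    (hxE : x ∈ K.E) (hxY : x ∉ Y) (hx0Y : x0 ∉ Y) {y y' y'' : α} (hy : y ∈ Y) (hy' : y' ∈ Y)
    (hy'' : y'' ∈ Y) (h12 : y ≠ y') (h23 : y' ≠ y'') (h13 : y ≠ y'')
    (hbin : Representable F2 (K.contract {x})) :
    K.IsBase (Y \ {y, y'} ∪ {x0, x}) ↔
      ¬ (K.IsBase (Y \ {y', y''} ∪ {x0, x}) ↔ K.IsBase (Y \ {y, y''} ∪ {x0, x})) := by
  have t1 := rel_trans hex hxE hxY hx0Y hy hy' hy'' h12 h23 h13
  have t2 := rel_trans hex hxE hxY hx0Y hy hy'' hy' h13 h23.symm h12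
  have t3 := rel_trans hex hxE hxY hx0Y hy' hy hy'' h12.symm h13 h23
  have h0 := rel_two hex hx0x hxE hxY hx0Y hy hy' hy'' h12 h23 h13 hbin
  rw [pair_comm y'' y'] at t2
  rw [pair_comm y' y] at t3
  clear hex hbin
  generalize K.IsBase (Y \ {y, y'} ∪ {x0, x}) = A at *
  generalize K.IsBase (Y \ {y', y''} ∪ {x0, x}) = B at *
  generalize K.IsBase (Y \ {y, y''} ∪ {x0, x}) = C at *
  clear hy hy' hy'' h12 h23 h13 hxE hxY hx0Y hx0x
  tauto

end MP948082
end

section
/-!
# MP_948082_co : NONBINARY, part 5: Lemma R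
-/
open Set Submodule

namespace MP948082

universe u

theorem delete_isBase_iff' {α : Type u} {M : Matroid α} {y : α} {B T : Set α} (hyE : y ∈ M.E)
    (hB : M.IsBase B) (hyB : y ∉ B) : (M.delete {y}).IsBase T ↔ M.IsBase T ∧ y ∉ T := by
  have hco : M.Coindep {y} := by
    rw [Matroid.coindep_iff_subset_compl_isBase]
    exact ⟨B, hB, by rw [singleton_subset_iff]; exact ⟨hyE, hyB⟩⟩
  rw [hco.delete_isBase_iff, disjoint_singleton_right]

theorem lemmaR (hW1 : SpecW1.{u}) {α : Type u} {M : Matroid α} [M.Finite] {Y : Set α}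
    (hY : M.IsBase Y)
    (hex : ∀ y ∈ Y, ∀ x ∈ M.E, x ∉ Y → M.IsBase (insert x (Y \ {y})))
    (hD2 : ∀ y ∈ Y, Representable F2 (M.delete {y}))
    (hD3 : ∀ y ∈ Y, Representable F3 (M.delete {y}))
    (hC2 : ∀ x ∈ M.E, x ∉ Y → Representable F2 (M.contract {x})) {y1 x0 : α} (hy1 : y1 ∈ Y)
    (hx0E : x0 ∈ M.E) (hx0Y : x0 ∉ Y) :
    ∃ Y N, IsCircuitHyperplane N Y ∧ IsRelaxation M N Y ∧ Representable F2 N ∧
      Representable F3 M := by
  classical
  have hYE := hY.subset_ground
  have hYf : Y.Finite := hY.finite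
  have hne : ∀ {s t : α}, s ∈ Y → t ∉ Y → s ≠ t := fun hs ht h => ht (h ▸ hs)
  set B1 : Set α := insert x0 (Y \ {y1}) with hB1def
  have hB1 : M.IsBase B1 := hex y1 hy1 x0 hx0E hx0Y
  have hy1B1 : y1 ∉ B1 := by
    rintro (h | h)
    · exact hne hy1 hx0Y h
    · exact h.2 rfl
  have hM1B : (M.delete {y1}).IsBase B1 :=
    (delete_isBase_iff' (hYE hy1) hB1 hy1B1).2 ⟨hB1, hy1B1⟩
  obtain ⟨n, v, hv, hvs⟩ := (hD2 y1 hy1).exists_spanning
  have : Fintype B1 := hB1.finite.fintype
  let b := hv.basis hvs hM1B
  let u : Fin n → F2 := b.equivFun.symm (fun r => if (r : α) = x0 then 0 else 1)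
  have hu : ∀ r : B1, b.coord r u = if (r : α) = x0 then 0 else 1 := by
    intro r
    have := b.equivFun_apply u
    rw [Module.Basis.coord_apply]
    rw [← this]
    simp only [u, LinearEquiv.apply_symm_apply]
  let v' : α → (Fin n → F2) := Function.update v y1 u
  have hv'1 : v' y1 = u := Function.update_self _ _ _
  have hv'2 : ∀ e, e ≠ y1 → v' e = v e := fun e he => Function.update_of_ne he _ _
  set N : Matroid α := vecMatroid F2 v' M.E M.ground_finite with hN
  have hNE : N.E = M.E := rfl
  have hrep : IsRep F2 N v' := vecMatroid_isRep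
  have hNbin : Representable F2 N := vecMatroid_representable
  have agree : ∀ I ⊆ M.E, y1 ∉ I → (N.Indep I ↔ M.Indep I) := by
    intro I hI hyI
    rw [hrep I hI]
    have e1 : LinearIndepOn F2 v' I ↔ LinearIndepOn F2 v I :=
      linearIndepOn_congr fun a ha => hv'2 a (fun h => hyI (h ▸ ha))
    rw [e1, ← hv I (by
      rw [Matroid.delete_ground]
      exact fun e he => ⟨hI he, fun h => hyI (h ▸ he)⟩), Matroid.deleteElem_indep_iff,
      and_iff_left hyI]
  have himg : ∀ S ⊆ B1, v' '' S = v '' S := by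
    intro S hS
    exact image_congr fun e he => hv'2 e (fun h => hy1B1 (h ▸ hS he))
  have hspB1 : span F2 (v' '' B1) = ⊤ := by
    rw [himg B1 (Subset.refl _), hv.span_eq_of_isBasis hM1B.isBasis_ground, hvs]
  have hvs' : span F2 (v' '' N.E) = ⊤ := by
    rw [eq_top_iff, ← hspB1]
    exact span_mono (image_mono hB1.subset_ground)
  have hNB1 : N.IsBase B1 := by
    rw [hrep.isBase_iff hvs']
    refine ⟨hB1.subset_ground, ?_, hspB1⟩
    exact hrep.linearIndepOn ((agree B1 hB1.subset_ground hy1B1).2 hB1.indep)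
  let b' := hrep.basis hvs' hNB1
  have hbb : ∀ r, b'.coord r = b.coord r := by
    intro r
    apply b'.ext
    intro i
    have h1 : b' i = b i := by
      simp only [b', b, IsRep.basis_apply]
      exact hv'2 _ (fun h => hy1B1 (h ▸ i.2))
    have h2 : b'.coord r (b' i) = (if i = r then 1 else 0) := by
      rw [Module.Basis.coord_apply, Module.Basis.repr_self, Finsupp.single_apply]
    have h3 : b.coord r (b i) = (if i = r then 1 else 0) := by
      rw [Module.Basis.coord_apply, Module.Basis.repr_self, Finsupp.single_apply]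
    rw [h2, h1, h3]
  have hu' : ∀ r : B1, b'.coord r (v' y1) = if (r : α) = x0 then 0 else 1 := by
    intro r
    rw [hbb, hv'1, hu]
  have hYB1 : Y \ {y1} ⊆ B1 := subset_insert _ _
  have hy1span : v' y1 ∈ span F2 (v' '' (Y \ {y1})) := by
    rw [hrep.mem_span_subset_base hvs' hNB1 hYB1]
    intro r hr hrn
    have : r = x0 := by
      rcases hr with h | h
      · exact h
      · exact absurd h hrn
    have h1 := hu' ⟨r, hr⟩
    rw [if_pos this] at h1
    exact h1
  have hY1i : N.Indep (Y \ {y1}) := hNB1.indep.subset hYB1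
  have hYi : ∀ y ∈ Y, N.Indep (Y \ {y}) := by
    intro y hy
    by_cases hyy : y = y1
    · rw [hyy]; exact hY1i
    have hset : Y \ {y} = insert y1 (Y \ {y1, y}) := by
      ext e
      simp only [mem_sdiff, mem_insert_iff, mem_singleton_iff, not_or]
      constructor
      · rintro ⟨h1, h2⟩
        by_cases he : e = y1
        · exact Or.inl he
        · exact Or.inr ⟨h1, he, h2⟩
      · rintro (h | ⟨h1, h2, h3⟩)
        · exact ⟨h ▸ hy1, fun h' => hyy (h'.symm.trans h)⟩
        · exact ⟨h1, h3⟩
    have hsub : Y \ {y1, y} ⊆ B1 := by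
      refine Subset.trans ?_ hYB1
      exact fun e he => ⟨he.1, fun h => he.2 (Or.inl h)⟩
    rw [hrep _ (sdiff_subset.trans hYE), hset, linearIndepOn_insert (fun h => h.2 (Or.inl rfl))]
    refine ⟨hrep.linearIndepOn (hNB1.indep.subset hsub), ?_⟩
    rw [hrep.mem_span_subset_base hvs' hNB1 hsub]
    intro hall
    have hyB1 : y ∈ B1 := hYB1 ⟨hy, hyy⟩
    have h1 := hall y hyB1 (fun h => h.2 (Or.inr rfl))
    have h2 := hu' ⟨y, hyB1⟩
    rw [if_neg (hne hy hx0Y)] at h2
    exact one_ne_zero (h2.symm.trans h1)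
  have hYdep : ¬ N.Indep Y := by
    intro hc
    have h1 := hrep.linearIndepOn hc
    have hset : Y = insert y1 (Y \ {y1}) := by
      rw [insert_sdiff_singleton, insert_eq_of_mem hy1]
    rw [hset, linearIndepOn_insert (fun h => h.2 rfl)] at h1
    exact h1.2 hy1span
  have hcard : ∀ y ∈ Y, ∀ x, x ∉ Y → (insert x (Y \ {y})).ncard = Y.ncard := by
    intro y hy x hx
    rw [ncard_insert_of_notMem (fun h => hx h.1) (hYf.subset sdiff_subset),
      ncard_sdiff_singleton_of_mem hy]
    have : 0 < Y.ncard := (ncard_pos hYf).2 ⟨y, hy⟩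
    omega
  have hB1card : B1.ncard = Y.ncard := hcard y1 hy1 x0 hx0Y
  have hexN : ∀ y ∈ Y, ∀ x ∈ N.E, x ∉ Y → N.IsBase (insert x (Y \ {y})) := by
    intro y hy x hx hxY
    rw [isBase_iff_card hNB1, hcard y hy x hxY, hB1card]
    refine ⟨?_, rfl⟩
    rw [hrep _ (insert_subset hx (sdiff_subset.trans hYE)),
      linearIndepOn_insert (fun h => hxY h.1)]
    refine ⟨hrep.linearIndepOn (hYi y hy), fun hc => ?_⟩
    have hle : span F2 (v' '' (Y \ {y})) ≤ span F2 (v' '' (Y \ {y1})) := by
      rw [span_le]
      rintro _ ⟨e, he, rfl⟩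
      by_cases hee : e = y1
      · rw [hee]; exact hy1span
      · exact subset_span ⟨e, ⟨he.1, hee⟩, rfl⟩
    have h1 := hex y1 hy1 x hx hxY
    have h2 : N.Indep (insert x (Y \ {y1})) := by
      rw [agree _ h1.subset_ground]
      · exact h1.indep
      · rintro (h | h)
        · exact hne hy1 hxY h
        · exact h.2 rfl
    have h3 := hrep.linearIndepOn h2
    rw [linearIndepOn_insert (fun h => hxY h.1)] at h3
    exact h3.2 (hle hc)
  have agreeB : ∀ T, y1 ∉ T → (M.IsBase T ↔ N.IsBase T) := by
    intro T hT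
    rw [isBase_iff_card hB1, isBase_iff_card hNB1]
    by_cases hTE : T ⊆ M.E
    · rw [agree T hTE hT]
    · exact iff_of_false (fun h => hTE h.1.subset_ground) (fun h => hTE h.1.subset_ground)
  -- deletions agree
  have hdel : ∀ y0 ∈ Y, M.delete {y0} = N.delete {y0} := by
    intro y0 hy0
    have hMB0 : M.IsBase (insert x0 (Y \ {y0})) := hex y0 hy0 x0 hx0E hx0Y
    have hNB0 : N.IsBase (insert x0 (Y \ {y0})) := hexN y0 hy0 x0 hx0E hx0Y
    have hy0n : y0 ∉ insert x0 (Y \ {y0}) := by
      rintro (h | h)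
      · exact hne hy0 hx0Y h
      · exact h.2 rfl
    have hdM : ∀ T, (M.delete {y0}).IsBase T ↔ M.IsBase T ∧ y0 ∉ T := fun T =>
      delete_isBase_iff' (hYE hy0) hMB0 hy0n
    have hdN : ∀ T, (N.delete {y0}).IsBase T ↔ N.IsBase T ∧ y0 ∉ T := fun T =>
      delete_isBase_iff' (hNE ▸ hYE hy0) hNB0 hy0n
    refine binary_ext (hD2 y0 hy0) (hNbin.delete _) rfl ((hdM _).2 ⟨hMB0, hy0n⟩)
      ((hdN _).2 ⟨hNB0, hy0n⟩) ?_
    intro r hr c hc hcB
    rw [hdM, hdN]
    rw [Matroid.delete_ground] at hc
    have hcE : c ∈ M.E := hc.1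
    have hcy0 : c ≠ y0 := hc.2
    have hcY : c ∉ Y := fun h => hcB (Or.inr ⟨h, hcy0⟩)
    have hcx0 : c ≠ x0 := fun h => hcB (Or.inl h)
    apply and_congr_left
    intro _
    rcases hr with hr | hr
    · have hset : insert c (insert x0 (Y \ {y0}) \ {r}) = insert c (Y \ {y0}) := by
        rw [hr]
        congr 1
        ext e
        simp only [mem_sdiff, mem_insert_iff, mem_singleton_iff]
        constructor
        · rintro ⟨h | h, h'⟩
          · exact absurd h h'
          · exact h
        · intro h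
          exact ⟨Or.inr h, fun h' => hx0Y (h' ▸ h.1)⟩
      rw [hset]
      exact iff_of_true (hex y0 hy0 c hcE hcY) (hexN y0 hy0 c hcE hcY)
    · have hset : insert c (insert x0 (Y \ {y0}) \ {r}) = Y \ {y0, r} ∪ {x0, c} := by
        ext e
        simp only [mem_union, mem_sdiff, mem_insert_iff, mem_singleton_iff, not_or]
        constructor
        · rintro (h | ⟨h | h, h'⟩)
          · exact Or.inr (Or.inr h)
          · exact Or.inr (Or.inl h)
          · exact Or.inl ⟨h.1, h.2, h'⟩
        · rintro (⟨h1, h2, h3⟩ | h | h)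
          · exact Or.inr ⟨Or.inr ⟨h1, h2⟩, h3⟩
          · exact Or.inr ⟨Or.inl h, fun h' => hx0Y (h.symm.trans h' ▸ hr.1)⟩
          · exact Or.inl h
      rw [hset]
      have hnotin : ∀ a b : α, y1 = a ∨ y1 = b → y1 ∉ Y \ {a, b} ∪ {x0, c} := by
        rintro a b hab (h | h | h)
        · exact h.2 (by rcases hab with h' | h'
                        · exact Or.inl h'
                        · exact Or.inr h')
        · exact hne hy1 hx0Y h
        · exact hne hy1 hcY h
      by_cases h1 : y1 = y0
      · exact agreeB _ (hnotin _ _ (Or.inl h1))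
      by_cases h2 : y1 = r
      · exact agreeB _ (hnotin _ _ (Or.inr h2))
      have hr0 : y0 ≠ r := fun h => hr.2 h.symm
      have pM := rel_parity hex hcx0.symm hcE hcY hx0Y hy0 hr.1 hy1 hr0
        (fun h => h2 h.symm) (fun h => h1 h.symm) (hC2 c hcE hcY)
      have pN := rel_parity hexN hcx0.symm hcE hcY hx0Y hy0 hr.1 hy1 hr0
        (fun h => h2 h.symm) (fun h => h1 h.symm) (hNbin.contract _)
      rw [pM, pN, agreeB _ (hnotin _ _ (Or.inr rfl)), agreeB _ (hnotin _ _ (Or.inr rfl))]
  have hdelB : ∀ T, T ≠ Y → T.ncard = Y.ncard → T.Finite → (M.IsBase T ↔ N.IsBase T) := by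
    intro T hTY hc hTf
    have : ∃ y0 ∈ Y, y0 ∉ T := by
      by_contra hcon
      push Not at hcon
      exact hTY (eq_of_subset_of_ncard_le hcon (by rw [hc]) hTf).symm
    obtain ⟨y0, hy0, hy0T⟩ := this
    have hy0n : y0 ∉ insert x0 (Y \ {y0}) := by
      rintro (h | h)
      · exact hne hy0 hx0Y h
      · exact h.2 rfl
    have h1 := delete_isBase_iff' (T := T) (hYE hy0) (hex y0 hy0 x0 hx0E hx0Y) hy0n
    have h2 := delete_isBase_iff' (T := T) (hNE ▸ hYE hy0) (hexN y0 hy0 x0 hx0E hx0Y) hy0n
    rw [and_iff_left hy0T] at h1 h2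
    rw [← h1, ← h2, hdel y0 hy0]
  have hcirc : N.IsCircuit Y := by
    rw [Matroid.isCircuit_iff_dep_forall_sdiff_singleton_indep]
    exact ⟨⟨hYdep, hYE⟩, hYi⟩
  have hcocirc : N.IsCocircuit (N.E \ Y) := by
    rw [Matroid.isCocircuit_iff_minimal]
    constructor
    · intro B hB
      by_contra hc
      rw [not_nonempty_iff_eq_empty] at hc
      have hBY : B ⊆ Y := by
        intro e he
        by_contra heY
        have : e ∈ (N.E \ Y) ∩ B := ⟨⟨hB.subset_ground he, heY⟩, he⟩
        rw [hc] at this
        exact this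
      have h1 := hB.ncard_eq_ncard_of_isBase hNB1
      have h2 := eq_of_subset_of_ncard_le hBY (by rw [h1, hB1card]) hYf
      exact hYdep (h2 ▸ hB.indep)
    · intro S hS hSE x hx
      obtain ⟨e, heS, heB⟩ := hS _ (hexN y1 hy1 x hx.1 hx.2)
      rcases heB with h | h
      · exact h ▸ heS
      · exact absurd h.1 (hSE heS).2
  have hrel : IsRelaxation M N Y := by
    refine ⟨rfl, fun B => ?_⟩
    by_cases hBY : B = Y
    · rw [hBY]
      exact iff_of_true hY (Or.inr rfl)
    rw [or_iff_left hBY]
    by_cases hBc : B.ncard = Y.ncard ∧ B.Finite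
    · exact hdelB B hBY hBc.1 hBc.2
    · refine iff_of_false (fun h => hBc ⟨h.ncard_eq_ncard_of_isBase hY, h.finite⟩)
        (fun h => hBc ⟨(h.ncard_eq_ncard_of_isBase hNB1).trans hB1card, h.finite⟩)
  have hch : IsCircuitHyperplane N Y := ⟨hcirc, hcocirc⟩
  obtain ⟨N', hN', hN'3⟩ := hW1 α N Y hNbin hch (fun y hy => (hdel y hy) ▸ hD3 y hy)
  have hMN' : M = N' := by
    apply Matroid.ext_isBase (hrel.1.trans hN'.1.symm)
    intro B _
    rw [hrel.2 B, hN'.2 B]
  exact ⟨Y, N, hch, hrel, hNbin, hMN' ▸ hN'3⟩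

end MP948082
end

section
/-!
# MP_948082_co : NONBINARY, part 6: uniform matroids of rank two, the case of three labels
-/
open Set Submodule

namespace MP948082

universe u

variable {α : Type u} {M N : Matroid α}

theorem uniform2_of [M.Finite] (hS : IsSimple M) {B : Set α} (hB : M.IsBase B)
    (hB2 : B.ncard = 2) : ∀ I ⊆ M.E, (M.Indep I ↔ I.encard ≤ 2) := by
  intro I hI
  have hIf : I.Finite := M.ground_finite.subset hI
  constructor
  · intro h
    have := indep_card_le h hB
    rw [hB2] at this
    rw [← hIf.cast_ncard_eq]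
    exact_mod_cast this
  · intro h
    rcases I.eq_empty_or_nonempty with rfl | ⟨e, he⟩
    · exact M.empty_indep
    have h1 : (I \ {e}).encard ≤ 1 := by
      have h2 := encard_sdiff_singleton_add_one he
      have h3 : (I \ {e}).encard + 1 ≤ 1 + 1 := by
        rw [h2]; exact h
      exact (ENat.add_le_add_iff_right (by simp)).1 h3
    rw [encard_le_one_iff] at h1
    by_cases hex : ∃ f ∈ I, f ≠ e
    · obtain ⟨f, hf, hfe⟩ := hex
      have hIe : I ⊆ {e, f} := by
        intro g hg
        by_cases hge : g = e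
        · exact Or.inl hge
        · exact Or.inr (h1 g f ⟨hg, hge⟩ ⟨hf, hfe⟩)
      exact (hS e (hI he) f (hI hf)).subset hIe
    · push Not at hex
      have hIe : I ⊆ {e, e} := by
        intro g hg
        exact Or.inl (hex g hg)
      exact (hS e (hI he) e (hI he)).subset hIe

theorem regular_contract_of_uniform2 [M.Finite] (h : ∀ I ⊆ M.E, (M.Indep I ↔ I.encard ≤ 2))
    {e : α} (he : e ∈ M.E) : IsRegular (M.contract {e}) := by
  intro F _
  refine ⟨1, fun _ _ => 1, ?_⟩
  intro I hI
  rw [Matroid.contract_ground] at hI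
  have hei : M.Indep {e} := by
    rw [h _ (singleton_subset_iff.2 he), encard_singleton]
    exact one_le_two
  have hdis : Disjoint I {e} := by
    rw [disjoint_singleton_right]
    exact fun h' => (hI h').2 rfl
  rw [hei.contract_indep_iff, and_iff_right hdis,
    h _ (union_subset (hI.trans sdiff_subset) (singleton_subset_iff.2 he)),
    encard_union_eq hdis, encard_singleton]
  constructor
  · intro h1
    have h2 : I.encard ≤ 1 := by
      have h3 : I.encard + 1 ≤ 1 + 1 := h1
      exact (ENat.add_le_add_iff_right (by simp)).1 h3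
    rw [encard_le_one_iff_subsingleton] at h2
    rcases h2.eq_empty_or_singleton with rfl | ⟨a, rfl⟩
    · exact linearIndepOn_empty F _
    · rw [linearIndepOn_singleton_iff]
      intro hc
      have := congrFun hc 0
      exact one_ne_zero this
  · intro h1
    have h2 : I.encard ≤ 1 := by
      rw [encard_le_one_iff]
      intro a b ha hb
      exact h1.injOn ha hb rfl
    calc I.encard + 1 ≤ 1 + 1 := add_le_add_left h2 1
      _ = 2 := by norm_num

theorem regular_dual (hDual : SpecDual.{u}) [M.Finite] (h : IsRegular M) : IsRegular M✶ :=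
  fun F _ => hDual α F M (h F)

theorem regular_delete_dual (hDual : SpecDual.{u}) [M.Finite] {e : α} :
    IsRegular (M✶.delete {e}) ↔ IsRegular (M.contract {e}) := by
  constructor
  · intro h
    have := regular_dual hDual h
    rwa [Matroid.dual_delete, Matroid.dual_dual] at this
  · intro h
    have := regular_dual hDual h
    rwa [Matroid.dual_contract] at this

theorem regular_contract_dual (hDual : SpecDual.{u}) [M.Finite] {e : α} :
    IsRegular (M✶.contract {e}) ↔ IsRegular (M.delete {e}) := by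
  constructor
  · intro h
    have := regular_dual hDual h
    rwa [Matroid.dual_contract, Matroid.dual_dual] at this
  · intro h
    have := regular_dual hDual h
    rwa [Matroid.dual_delete] at this

theorem class_dual (hDual : SpecDual.{u}) [M.Finite] (hK : AtLeastOneRegular M) :
    AtLeastOneRegular M✶ := by
  refine ⟨fun h => hK.1 ?_, fun e he => ?_⟩
  · have := regular_dual hDual h
    rwa [Matroid.dual_dual] at this
  · rw [Matroid.dual_ground] at he
    rw [regular_delete_dual hDual, regular_contract_dual hDual]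
    exact (hK.2 e he).symm

theorem LCfg.subset_ground {C Z : Set α} (h : LCfg M C Z) : C ∪ Z ⊆ M.E := by
  obtain ⟨a, ha, b, hb, hab⟩ := exists_two h.1
  rintro e (he | he)
  · exact (h.2.2.1 a ha b hb hab).subset_ground (Or.inl he)
  · by_cases hea : e = a
    · rw [hea]
      exact (h.2.2.1 a ha b hb hab).subset_ground (Or.inr (Or.inl rfl))
    · exact (h.2.2.1 e he a ha hea).subset_ground (Or.inr (Or.inl rfl))

theorem LCfg.dual [M.Finite] {C Z : Set α} (hK : AtLeastOneRegular M) (h : LCfg M C Z) :
    LCfg M✶ (M.E \ (C ∪ Z)) Z := by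
  have hE := h.subset_ground
  have hZC : ∀ e ∈ Z, e ∉ C := fun e he h' => h.2.1.le_bot ⟨h', he⟩
  have hbase : ∀ p ∈ Z, ∀ q ∈ Z, p ≠ q → M✶.IsBase (M.E \ (C ∪ Z) ∪ {p, q}) := by
    intro p hp q hq hpq
    obtain ⟨s, t, hst, hsp, hsq, htp, htq, hZ⟩ := four_elts h.1 hp hq hpq
    have hs : s ∈ Z := by rw [hZ]; simp
    have ht : t ∈ Z := by rw [hZ]; simp
    have hb := (h.isBase hK hs ht hst).compl_isBase_dual
    have hset : M.E \ (C ∪ {s, t}) = M.E \ (C ∪ Z) ∪ {p, q} := by
      ext e
      constructor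
      · rintro ⟨he, hn⟩
        by_cases heZ : e ∈ Z
        · right
          rw [hZ] at heZ
          rcases heZ with h' | h' | h' | h'
          · exact Or.inl h'
          · exact Or.inr h'
          · exact absurd (Or.inr (Or.inl h')) hn
          · exact absurd (Or.inr (Or.inr h')) hn
        · left
          refine ⟨he, ?_⟩
          rintro (h' | h')
          · exact hn (Or.inl h')
          · exact heZ h'
      · rintro (⟨he, hn⟩ | h' | h')
        · refine ⟨he, ?_⟩
          rintro (h' | h' | h')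
          · exact hn (Or.inl h')
          · exact hn (Or.inr (h' ▸ hs))
          · exact hn (Or.inr ((mem_singleton_iff.1 h') ▸ ht))
        · refine ⟨h' ▸ hE (Or.inr hp), ?_⟩
          rintro (h'' | h'' | h'')
          · exact hZC p hp (h' ▸ h'')
          · exact hsp (h''.symm.trans h')
          · exact htp (h''.symm.trans h')
        · rw [mem_singleton_iff] at h'
          refine ⟨h' ▸ hE (Or.inr hq), ?_⟩
          rintro (h'' | h'' | h'')
          · exact hZC q hq (h' ▸ h'')
          · exact hsq (h''.symm.trans h')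
          · exact htq (h''.symm.trans h')
    rwa [hset] at hb
  obtain ⟨a, ha, b, hb, hab⟩ := exists_two h.1
  have hdis : Disjoint (M.E \ (C ∪ Z)) Z := by
    rw [disjoint_left]
    intro e he heZ
    exact he.2 (Or.inr heZ)
  apply LCfg.mk_card (hbase a ha b hb hab) h.1 hdis
  · intro p hp q hq hpq
    exact (hbase p hp q hq hpq).indep
  · rw [ncard_union_eq _ (M.ground_finite.subset sdiff_subset) (toFinite _), ncard_pair hab]
    rw [disjoint_left]
    rintro e he (h' | h')
    · exact he.2 (Or.inr (h' ▸ ha))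
    · exact he.2 (Or.inr ((mem_singleton_iff.1 h') ▸ hb))

theorem union_triple (A : Set α) (u a b : α) : A ∪ {u, a, b} = insert u (A ∪ {a, b}) :=
  union_insert

theorem union_pair' (A : Set α) (u a : α) : A ∪ {u, a} = insert u (A ∪ {a}) :=
  union_insert

theorem set_aux3 (p w w' b : α) : ({w, w', p, b} : Set α) = {w, w', b, p} := by
  rw [pair_comm]

theorem set_aux1 {p w a b : α} (h1 : w ≠ p) (h2 : a ≠ w) (h3 : b ≠ w) :
    ({p, w, a, b} : Set α) \ {w} = {p, a, b} := by
  ext e
  simp only [mem_sdiff, mem_insert_iff, mem_singleton_iff]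
  constructor
  · rintro ⟨h | h | h | h, h'⟩
    · exact Or.inl h
    · exact absurd h h'
    · exact Or.inr (Or.inl h)
    · exact Or.inr (Or.inr h)
  · rintro (h | h | h)
    · exact ⟨Or.inl h, fun h' => h1 (h'.symm.trans h)⟩
    · exact ⟨Or.inr (Or.inr (Or.inl h)), fun h' => h2 (h.symm.trans h')⟩
    · exact ⟨Or.inr (Or.inr (Or.inr h)), fun h' => h3 (h.symm.trans h')⟩

theorem set_aux2 {x p w a b : α} (h0 : w ≠ x) (h2 : a ≠ w) (h3 : b ≠ w) (h4 : a ≠ p)
    (h5 : b ≠ p) : insert x (({p, w, a, b} : Set α) \ {p}) \ {w} = {x, a, b} := by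
  ext e
  simp only [mem_sdiff, mem_insert_iff, mem_singleton_iff]
  constructor
  · rintro ⟨h | ⟨h | h | h | h, h''⟩, h'⟩
    · exact Or.inl h
    · exact absurd h h''
    · exact absurd h h'
    · exact Or.inr (Or.inl h)
    · exact Or.inr (Or.inr h)
  · rintro (h | h | h)
    · exact ⟨Or.inl h, fun h' => h0 (h'.symm.trans h)⟩
    · exact ⟨Or.inr ⟨Or.inr (Or.inr (Or.inl h)), fun h' => h4 (h.symm.trans h')⟩,
        fun h' => h2 (h.symm.trans h')⟩
    · exact ⟨Or.inr ⟨Or.inr (Or.inr (Or.inr h)), fun h' => h5 (h.symm.trans h')⟩,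
        fun h' => h3 (h.symm.trans h')⟩

/-- Step 4: three labels on the side of `C` are impossible. -/
theorem not_three [M.Finite] (hK : AtLeastOneRegular M) (hS : IsSimple M) {C Z : Set α}
    (h : LCfg M C Z) (hCne : C.Nonempty) {x : α} (hxE : x ∈ M.E) (hxC : x ∉ C) (hxZ : x ∉ Z)
    {t : α} (ht : t ∈ Z) (htr : ¬ IsRegular (M.delete {t}))
    (hall : ∀ z ∈ Z, z ≠ t → IsRegular (M.delete {z})) : False := by
  have hxr := (cfg_out hK h hxE hxC hxZ).2
  have hE := h.subset_ground
  have hZC : ∀ e ∈ Z, e ∉ C := fun e he h' => h.2.1.le_bot ⟨h', he⟩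
  obtain ⟨p, hp, hIx, hcfg2, -, hpr, hpd⟩ := exists_label_X hK hS h hxE hxC hxZ
  have hpt : p = t := by
    by_contra hc
    exact hpr (hall p hp hc)
  subst hpt
  obtain ⟨y0, hy0⟩ := id hCne
  have hdxt : ¬ M.Indep (C ∪ {x, p}) := by
    rcases hpd with h1 | h1
    · exact h1
    · exfalso
      obtain ⟨w, hw, -, -, hwr, -⟩ := exists_label_C hK h hy0
      exact h1 w hw hwr
  have hCf := h.ground_finite
  -- the claim
  have claim : ∀ y ∈ C, ¬ M.Indep (C \ {y} ∪ {x, p}) := by
    intro y hy hi
    obtain ⟨w, hw, hwI, hcfg3, hwr, -, hwd⟩ := exists_label_C hK h hy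
    have hwd' : ¬ M.Indep (C \ {y} ∪ (Z \ {w})) := by
      rcases hwd with h1 | h1
      · exact h1
      · exact absurd (h1 p hp) htr
    have hwp : w ≠ p := fun h' => htr (h' ▸ hwr)
    obtain ⟨w', hw', -, -, hwr', -, hwd2⟩ := exists_label_C hK hcfg2 hy
    have hw'x : w' ≠ x := fun h' => hxr (h' ▸ hwr')
    have hw'Z : w' ∈ Z \ {p} := by
      rcases hw' with h' | h'
      · exact absurd h' hw'x
      · exact h'
    have hwd2' : ¬ M.Indep (C \ {y} ∪ (insert x (Z \ {p}) \ {w'})) := by
      rcases hwd2 with h1 | h1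
      · exact h1
      · exact absurd (h1 x (mem_insert _ _)) hxr
    by_cases hww : w' = w
    · subst hww
      obtain ⟨a, b, hab, hap, haw, hbp, hbw, hZ⟩ := four_elts h.1 hp hw hwp.symm
      have ha : a ∈ Z := by rw [hZ]; simp
      have hb : b ∈ Z := by rw [hZ]; simp
      have e1 : Z \ {w'} = {p, a, b} := by
        rw [hZ]; exact set_aux1 hwp haw hbw
      have e2 : insert x (Z \ {p}) \ {w'} = {x, a, b} := by
        rw [hZ]; exact set_aux2 hw'x haw hbw hap hbp
      rw [e1] at hwd'
      rw [e2] at hwd2'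
      have hiab : M.Indep (C ∪ {a, b}) := h.2.2.1 a ha b hb hab
      set I0 : Set α := C \ {y} ∪ {a, b} with hI0
      have hi0 : M.Indep I0 := hiab.subset (union_subset_union_left _ sdiff_subset)
      have hI0E := hi0.subset_ground
      have hcl : ∀ u ∈ M.E, u ∉ I0 → ¬ M.Indep (C \ {y} ∪ {u, a, b}) → u ∈ M.closure I0 := by
        intro u hu huI hd
        rw [hi0.mem_closure_iff_of_notMem huI]
        refine ⟨fun hc => hd ?_, insert_subset hu hI0E⟩
        rw [union_triple]
        exact hc
      have hxcl : x ∈ M.closure I0 := by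
        apply hcl x hxE _ hwd2'
        rintro (h' | h' | h')
        · exact hxC h'.1
        · exact hxZ (h' ▸ ha)
        · exact hxZ ((mem_singleton_iff.1 h') ▸ hb)
      have hpcl : p ∈ M.closure I0 := by
        apply hcl p (hE (Or.inr hp)) _ hwd'
        rintro (h' | h' | h')
        · exact hZC p hp h'.1
        · exact hap h'.symm
        · exact hbp (mem_singleton_iff.1 h').symm
      set J : Set α := C \ {y} ∪ {x, p} with hJ
      have hJE := hi.subset_ground
      have hJcl : J ⊆ M.closure I0 := by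
        rintro e (h' | h' | h')
        · exact M.mem_closure_of_mem (Or.inl h') hI0E
        · exact h' ▸ hxcl
        · exact (mem_singleton_iff.1 h') ▸ hpcl
      have hxp : x ≠ p := fun h' => hxZ (h' ▸ hp)
      have hCyf : (C \ {y}).Finite := hCf.subset sdiff_subset
      have hJcard : J.encard = I0.encard := by
        rw [hJ, hI0, encard_union_eq, encard_union_eq, encard_pair hxp, encard_pair hab]
        · rw [disjoint_left]
          rintro e he (h' | h')
          · exact hZC a ha (h' ▸ he.1)
          · exact hZC b hb ((mem_singleton_iff.1 h') ▸ he.1)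
        · rw [disjoint_left]
          rintro e he (h' | h')
          · exact hxC (h' ▸ he.1)
          · exact hZC p hp ((mem_singleton_iff.1 h') ▸ he.1)
      have hX : M.eRk (I0 ∪ J) ≤ M.eRk J := by
        have h1 : M.eRk (I0 ∪ J) ≤ M.eRk (M.closure I0) :=
          M.eRk_mono (union_subset (M.subset_closure I0 hI0E) hJcl)
        rw [M.eRk_closure_eq, hi0.eRk_eq_encard] at h1
        rwa [hi.eRk_eq_encard, hJcard]
      have hJf : J.Finite := hCyf.union (toFinite _)
      have hbJ : M.IsBasis J (I0 ∪ J) :=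
        hi.isBasis_of_eRk_ge hJf subset_union_right hX (union_subset hI0E hJE)
      have hyJ : y ∉ J := by
        rintro (h' | h' | h')
        · exact h'.2 rfl
        · exact hxC (h' ▸ hy)
        · exact hZC p hp ((mem_singleton_iff.1 h') ▸ hy)
      have hins : insert y J = C ∪ {x, p} := by
        rw [hJ]
        ext e
        simp only [mem_insert_iff, mem_union, mem_sdiff, mem_singleton_iff]
        constructor
        · rintro (h' | ⟨h1, -⟩ | h')
          · exact Or.inl (h' ▸ hy)
          · exact Or.inl h1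
          · exact Or.inr h'
        · rintro (h' | h')
          · by_cases hey : e = y
            · exact Or.inl hey
            · exact Or.inr (Or.inl ⟨h', hey⟩)
          · exact Or.inr (Or.inr h')
      have hycl : y ∈ M.closure J := by
        rw [hi.mem_closure_iff_of_notMem hyJ]
        refine ⟨fun hc => hdxt ?_, insert_subset (hE (Or.inl hy)) hJE⟩
        rwa [hins] at hc
      have hycl0 : y ∈ M.closure I0 := M.closure_subset_closure_of_subset_closure hJcl hycl
      have hyI0 : y ∉ I0 := by
        rintro (h' | h' | h')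
        · exact h'.2 rfl
        · exact hZC a ha (h' ▸ hy)
        · exact hZC b hb ((mem_singleton_iff.1 h') ▸ hy)
      rw [hi0.mem_closure_iff_of_notMem hyI0] at hycl0
      apply hycl0.not_indep
      refine hiab.subset ?_
      rintro e (h' | h' | h')
      · exact Or.inl (h' ▸ hy)
      · exact Or.inl h'.1
      · exact Or.inr h'
    · obtain ⟨a, b, hab, haw, haw', hbw, hbw', hZ⟩ := four_elts h.1 hw hw'Z.1 (fun h' => hww h'.symm)
      -- one of `a, b` is `p`
      have hmain : ∀ a, a ∈ Z → a ≠ w → a ≠ w' → a ≠ p → Z = {w, w', a, p} → False := by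
        intro a ha haw haw' hap hZ
        have e2 : C \ {y} ∪ (insert x (Z \ {p}) \ {w'}) = insert w (C \ {y}) ∪ {x, a} := by
          rw [hZ]; ext e
          simp only [mem_union, mem_sdiff, mem_insert_iff, mem_singleton_iff]
          constructor
          · rintro (h' | ⟨h' | ⟨h' | h' | h' | h', h3⟩, h4⟩)
            · exact Or.inl (Or.inr h')
            · exact Or.inr (Or.inl h')
            · exact Or.inl (Or.inl h')
            · exact absurd h' h4
            · exact Or.inr (Or.inr h')
            · exact absurd h' h3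
          · rintro ((h' | h') | h' | h')
            · exact Or.inr ⟨Or.inr ⟨Or.inl h', fun h'' => hwp (h'.symm.trans h'')⟩,
                fun h'' => hww (h''.symm.trans h')⟩
            · exact Or.inl h'
            · exact Or.inr ⟨Or.inl h', fun h'' => hw'x (h''.symm.trans h')⟩
            · exact Or.inr ⟨Or.inr ⟨Or.inr (Or.inr (Or.inl h')), fun h'' => hap (h'.symm.trans h'')⟩,
                fun h'' => haw' (h'.symm.trans h'')⟩
        rw [e2] at hwd2'
        have hxC3 : x ∉ insert w (C \ {y}) := by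
          rintro (h' | h')
          · exact hxZ (h' ▸ hw)
          · exact hxC h'.1
        have hxZ3 : x ∉ insert y (Z \ {w}) := by
          rintro (h' | h')
          · exact hxC (h' ▸ hy)
          · exact hxZ h'.1
        have haZ3 : a ∈ insert y (Z \ {w}) := Or.inr ⟨ha, haw⟩
        obtain ⟨p3, hp3, hI3, -, -, hp3r, -⟩ := exists_label_X hK hS hcfg3 hxE hxC3 hxZ3
        have : a = p3 := by
          by_contra hc
          exact hwd2' (hI3 a haZ3 hc)
        exact hp3r (this ▸ hall a ha hap)
      have hpab : p = a ∨ p = b := by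
        have := hp
        rw [hZ] at this
        rcases this with h' | h' | h' | h'
        · exact absurd h'.symm hwp
        · exact absurd h'.symm hw'Z.2
        · exact Or.inl h'
        · exact Or.inr h'
      rcases hpab with hpa | hpb
      · refine hmain b (by rw [hZ]; simp) hbw hbw' (fun h' => hab (hpa.symm.trans h'.symm)) ?_
        rw [hZ, hpa]
        exact set_aux3 a w w' b
      · refine hmain a (by rw [hZ]; simp) haw haw' (fun h' => hab (h'.trans hpb)) ?_
        rw [hpb]
        exact hZ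
  -- intersection of the closures
  have hCp : M.Indep (C ∪ {p}) := by
    obtain ⟨a, ha, b, hb, hab⟩ := exists_two h.1
    by_cases hpa : p = a
    · exact (h.2.2.1 p hp b hb (hpa ▸ hab)).subset (union_subset_union_right _ (by simp))
    · exact (h.2.2.1 p hp a ha hpa).subset (union_subset_union_right _ (by simp))
  have hin : ∀ y ∈ C, x ∈ M.closure (C \ {y} ∪ {p}) := by
    intro y hy
    have hi : M.Indep (C \ {y} ∪ {p}) := hCp.subset (union_subset_union_left _ sdiff_subset)
    rw [hi.mem_closure_iff_of_notMem (by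
      rintro (h' | h')
      · exact hxC h'.1
      · exact hxZ ((mem_singleton_iff.1 h') ▸ hp))]
    refine ⟨fun hc => claim y hy ?_, insert_subset hxE hi.subset_ground⟩
    rw [union_pair']
    exact hc
  have hbi := M.closure_biInter_eq_biInter_closure_of_biUnion_indep hCne
    (I := fun y => C \ {y} ∪ {p}) (hCp.subset (by
      apply iUnion₂_subset
      intro y _
      exact union_subset_union_left _ sdiff_subset))
  have hxmem : x ∈ M.closure (⋂ y ∈ C, (C \ {y} ∪ {p})) := by
    rw [hbi]
    simp only [mem_iInter]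
    exact hin
  have hsub : (⋂ y ∈ C, (C \ {y} ∪ {p})) ⊆ {p} := by
    intro e he
    simp only [mem_iInter] at he
    by_contra hep
    have h1 := he y0 hy0
    rcases h1 with h1 | h1
    · rcases he e h1.1 with h2 | h2
      · exact h2.2 rfl
      · exact hep h2
    · exact hep h1
  have hx2 := M.closure_subset_closure hsub hxmem
  have hpi : M.Indep {p} := hCp.subset subset_union_right
  have hxp : x ∉ ({p} : Set α) := fun h' => by
    rw [mem_singleton_iff] at h'
    exact hxZ (h' ▸ hp)
  rw [hpi.mem_closure_iff_of_notMem hxp] at hx2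
  exact hx2.not_indep (hS x hxE p (hE (Or.inr hp)))

end MP948082
end

section
/-!
# MP_948082_co : NONBINARY, the non-binary members of the class
-/
open Set Submodule

namespace MP948082

universe u

/-- Step 5: two labels on each side. -/
theorem two_two (hW1 : SpecW1.{u}) {α : Type u} {M : Matroid α} [M.Finite]
    (hK : AtLeastOneRegular M) (hS : IsSimple M) {C Z : Set α} (h : LCfg M C Z)
    {a b t t' : α} (hab : a ≠ b) (hta : t ≠ a) (htb : t ≠ b) (hZ : Z = {a, b, t, t'}) (hra : IsRegular (M.delete {a}))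
    (hrb : IsRegular (M.delete {b})) (hrt : ¬ IsRegular (M.delete {t}))
    (hrt' : ¬ IsRegular (M.delete {t'})) :
    ∃ Y N, IsCircuitHyperplane N Y ∧ IsRelaxation M N Y ∧ Representable F2 N ∧
      Representable F3 M := by
  have hE := h.subset_ground
  have hZC : ∀ e ∈ Z, e ∉ C := fun e he h' => h.2.1.le_bot ⟨h', he⟩
  have ha : a ∈ Z := by rw [hZ]; simp
  have hb : b ∈ Z := by rw [hZ]; simp
  have ht : t ∈ Z := by rw [hZ]; simp
  have ht' : t' ∈ Z := by rw [hZ]; simp
  have hY : M.IsBase (C ∪ {a, b}) := h.isBase hK ha hb hab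
  have hYf : (C ∪ {a, b}).Finite := hY.finite
  -- elements outside `Y` have non-regular deletions
  have hout : ∀ x ∈ M.E, x ∉ C ∪ {a, b} → ¬ IsRegular (M.delete {x}) := by
    intro x hx hxY
    by_cases hxZ : x ∈ Z
    · rw [hZ] at hxZ
      rcases hxZ with h' | h' | h' | h'
      · exact absurd (Or.inr (Or.inl h')) hxY
      · exact absurd (Or.inr (Or.inr h')) hxY
      · rw [h']; exact hrt
      · rw [mem_singleton_iff] at h'
        rw [h']; exact hrt'
    · exact (cfg_out hK h hx (fun h' => hxY (Or.inl h')) hxZ).2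
  have houtC : ∀ x ∈ M.E, x ∉ C ∪ {a, b} → IsRegular (M.contract {x}) := by
    intro x hx hxY
    rcases hK.2 x hx with h' | h'
    · exact absurd h' (hout x hx hxY)
    · exact h'
  have hin : ∀ y ∈ C ∪ {a, b}, IsRegular (M.delete {y}) := by
    rintro y (h' | h' | h')
    · exact (cfg_mem hK h h').1
    · rw [h']; exact hra
    · rw [mem_singleton_iff] at h'
      rw [h']; exact hrb
  -- a configuration containing `a, b` and `x`
  have hcfgx : ∀ x ∈ M.E, x ∉ C ∪ {a, b} → ∃ Z', LCfg M C Z' ∧ a ∈ Z' ∧ b ∈ Z' ∧ x ∈ Z' ∧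
      ∀ z ∈ Z', z ≠ a → z ≠ b → ¬ IsRegular (M.delete {z}) := by
    intro x hx hxY
    by_cases hxZ : x ∈ Z
    · refine ⟨Z, h, ha, hb, hxZ, ?_⟩
      intro z hz hza hzb
      refine hout z (hE (Or.inr hz)) ?_
      rintro (h' | h' | h')
      · exact hZC z hz h'
      · exact hza h'
      · exact hzb h'
    · obtain ⟨p, hp, hI, hcfg, -, hpr, -⟩ := exists_label_X hK hS h hx
        (fun h' => hxY (Or.inl h')) hxZ
      have hpa : a ≠ p := fun h' => hpr (h' ▸ hra)
      have hpb : b ≠ p := fun h' => hpr (h' ▸ hrb)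
      refine ⟨_, hcfg, Or.inr ⟨ha, hpa⟩, Or.inr ⟨hb, hpb⟩, mem_insert _ _, ?_⟩
      rintro z (hz | hz) hza hzb
      · rw [hz]; exact hout x hx hxY
      · refine hout z (hE (Or.inr hz.1)) ?_
        rintro (h' | h' | h')
        · exact hZC z hz.1 h'
        · exact hza h'
        · exact hzb h'
  have hex : ∀ y ∈ C ∪ {a, b}, ∀ x ∈ M.E, x ∉ C ∪ {a, b} →
      M.IsBase (insert x ((C ∪ {a, b}) \ {y})) := by
    intro y hy x hx hxY
    rw [isBase_iff_card hY]
    constructor
    · obtain ⟨Z', hcfg, haZ', hbZ', hxZ', hZ'r⟩ := hcfgx x hx hxY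
      have hxa : x ≠ a := fun h' => hxY (Or.inr (Or.inl h'))
      have hxb : x ≠ b := fun h' => hxY (Or.inr (Or.inr h'))
      have hZC' : ∀ e ∈ Z', e ∉ C := fun e he h' => hcfg.2.1.le_bot ⟨h', he⟩
      rcases hy with hy | hy | hy
      · obtain ⟨w, hw, hwI, -, hwr, -, -⟩ := exists_label_C hK hcfg hy
        have hwab : w = a ∨ w = b := by
          by_contra hc
          push Not at hc
          exact hZ'r w hw hc.1 hc.2 hwr
        -- the fourth element
        obtain ⟨s, s', hss', hsa, hsb, hsa', hsb', hZ'e⟩ := four_elts hcfg.1 haZ' hbZ' hab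
        have hxss : x = s ∨ x = s' := by
          rw [hZ'e] at hxZ'
          rcases hxZ' with h' | h' | h' | h'
          · exact absurd h' hxa
          · exact absurd h' hxb
          · exact Or.inl h'
          · exact Or.inr h'
        have hfour : ∃ s ∈ Z', s ≠ a ∧ s ≠ b ∧ s ≠ x := by
          rcases hxss with h' | h'
          · exact ⟨s', by rw [hZ'e]; simp, hsa', hsb', fun h'' => hss' (h'.symm.trans h''.symm)⟩
          · exact ⟨s, by rw [hZ'e]; simp, hsa, hsb, fun h'' => hss' (h''.trans h')⟩
        obtain ⟨s, hsZ', hsa, hsb, hsx⟩ := hfour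
        have hsw : s ≠ w := by
          rcases hwab with h' | h'
          · rw [h']; exact hsa
          · rw [h']; exact hsb
        refine (hwI s hsZ' hsw).subset ?_
        rintro e (he | ⟨he | he | he, hey⟩)
        · rw [he]; exact Or.inr ⟨hxZ', fun h' => hsx h'.symm⟩
        · exact Or.inl ⟨he, hey⟩
        · rw [he]; exact Or.inr ⟨haZ', fun h' => hsa h'.symm⟩
        · rw [mem_singleton_iff] at he
          rw [he]; exact Or.inr ⟨hbZ', fun h' => hsb h'.symm⟩
      · refine (hcfg.2.2.1 x hxZ' b hbZ' hxb).subset ?_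
        rintro e (he | ⟨he | he | he, hey⟩)
        · exact Or.inr (Or.inl he)
        · exact Or.inl he
        · exact absurd (he.trans hy.symm) hey
        · exact Or.inr (Or.inr he)
      · rw [mem_singleton_iff] at hy
        refine (hcfg.2.2.1 x hxZ' a haZ' hxa).subset ?_
        rintro e (he | ⟨he | he | he, hey⟩)
        · exact Or.inr (Or.inl he)
        · exact Or.inl he
        · exact Or.inr (Or.inr he)
        · exact absurd (he.trans hy.symm) hey
    · rw [ncard_insert_of_notMem (fun h' => hxY h'.1) (hYf.subset sdiff_subset),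
        ncard_sdiff_singleton_of_mem hy]
      have : 0 < (C ∪ {a, b}).ncard := (ncard_pos hYf).2 ⟨y, hy⟩
      omega
  exact lemmaR hW1 hY hex (fun y hy => hin y hy F2) (fun y hy => hin y hy F3)
    (fun x hx hxY => houtC x hx hxY F2) (Or.inr (Or.inl rfl)) (hE (Or.inr ht)) (by
      rintro (h' | h' | h')
      · exact hZC t ht h'
      · exact hta h'
      · exact htb h')

theorem ncard_eq_two_base {α : Type u} {M : Matroid α} [M.Finite] {Z : Set α}
    (hK : AtLeastOneRegular M) (h : LCfg M ∅ Z) {a b : α} (ha : a ∈ Z) (hb : b ∈ Z)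
    (hab : a ≠ b) : M.IsBase {a, b} := by
  have := h.isBase hK ha hb hab
  rwa [empty_union] at this

/-- A uniform matroid of rank two. -/
theorem isU2_of_empty {α : Type u} {M : Matroid α} [M.Finite] (hK : AtLeastOneRegular M)
    (hS : IsSimple M) {Z : Set α} (h : LCfg M ∅ Z) {x : α} (hxE : x ∈ M.E) (hxZ : x ∉ Z) :
    IsU2 M := by
  obtain ⟨a, ha, b, hb, hab⟩ := exists_two h.1
  have hB := ncard_eq_two_base hK h ha hb hab
  refine ⟨?_, uniform2_of hS hB (ncard_pair hab)⟩
  have hZf : Z.Finite := finite_of_ncard_ne_zero (by rw [h.1]; omega)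
  have h1 : (insert x Z).ncard = 5 := by
    rw [ncard_insert_of_notMem hxZ hZf, h.1]
  have hsub : insert x Z ⊆ M.E :=
    insert_subset hxE (subset_union_right.trans h.subset_ground)
  calc (5 : ℕ∞) = ((insert x Z).ncard : ℕ∞) := by rw [h1]; rfl
    _ = (insert x Z).encard := (hZf.insert x).cast_ncard_eq
    _ ≤ M.E.encard := encard_le_encard hsub

/-- The case of `U_{2,4}`. -/
theorem u24_case (hW1 : SpecW1.{u}) (hDual : SpecDual.{u}) {α : Type u} {M : Matroid α}
    [M.Finite] (hK : AtLeastOneRegular M) (hS : IsSimple M) (hSd : IsSimple M✶) {Z : Set α}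
    (h : LCfg M ∅ Z) (hE : M.E = Z) :
    ∃ Y N, IsCircuitHyperplane N Y ∧ IsRelaxation M N Y ∧ Representable F2 N ∧
      Representable F3 M := by
  obtain ⟨a, ha, b, hb, hab⟩ := exists_two h.1
  obtain ⟨s, t, hst, hsa, hsb, hta, htb, hZ⟩ := four_elts h.1 ha hb hab
  have hs : s ∈ Z := by rw [hZ]; simp
  have hbase : ∀ p ∈ Z, ∀ q ∈ Z, p ≠ q → M.IsBase {p, q} := fun p hp q hq hpq =>
    ncard_eq_two_base hK h hp hq hpq
  have hB := hbase a ha b hb hab
  have hun := uniform2_of hS hB (ncard_pair hab)
  have hKd := class_dual hDual hK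
  have hd := h.dual hK
  have hempty : M.E \ (∅ ∪ Z) = ∅ := by
    rw [empty_union, hE, sdiff_self]
  rw [hempty] at hd
  have hBd := ncard_eq_two_base hKd hd ha hb hab
  have hund := uniform2_of hSd hBd (ncard_pair hab)
  have hcon : ∀ e ∈ M.E, IsRegular (M.contract {e}) := fun e he =>
    regular_contract_of_uniform2 hun he
  have hdel : ∀ e ∈ M.E, IsRegular (M.delete {e}) := by
    intro e he
    rw [← regular_contract_dual hDual]
    exact regular_contract_of_uniform2 hund he
  refine lemmaR hW1 hB ?_ (fun y hy => hdel y (hB.subset_ground hy) F2)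
    (fun y hy => hdel y (hB.subset_ground hy) F3) (fun x hx _ => hcon x hx F2)
    (y1 := a) (x0 := s) (Or.inl rfl) (hE ▸ hs) (by
      rintro (h' | h')
      · exact hsa h'
      · exact hsb h')
  intro y hy x hx hxY
  have hxZ : x ∈ Z := hE ▸ hx
  have hxa : x ≠ a := fun h' => hxY (Or.inl h')
  have hxb : x ≠ b := fun h' => hxY (Or.inr h')
  rcases hy with hy | hy
  · have : insert x (({a, b} : Set α) \ {y}) = {x, b} := by
      rw [hy]
      congr 1
      ext e
      simp only [mem_sdiff, mem_insert_iff, mem_singleton_iff]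
      constructor
      · rintro ⟨h1 | h1, h2⟩
        · exact absurd h1 h2
        · exact h1
      · intro h1
        exact ⟨Or.inr h1, fun h2 => hab (h2.symm.trans h1)⟩
    rw [this]
    exact hbase x hxZ b hb hxb
  · rw [mem_singleton_iff] at hy
    have : insert x (({a, b} : Set α) \ {y}) = {x, a} := by
      rw [hy]
      congr 1
      ext e
      simp only [mem_sdiff, mem_insert_iff, mem_singleton_iff]
      constructor
      · rintro ⟨h1 | h1, h2⟩
        · exact h1
        · exact absurd h1 h2
      · intro h1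
        exact ⟨Or.inl h1, fun h2 => hab (h1.symm.trans h2)⟩
    rw [this]
    exact hbase x hxZ a ha hxa

/-- The non-binary members of the class, forward direction. -/
theorem nonbinary_forward (hW1 : SpecW1.{u}) (hDual : SpecDual.{u}) {α : Type u} {M : Matroid α}
    [M.Finite] (hbin : ¬ Representable F2 M) (hS : IsSimple M) (hSd : IsSimple M✶)
    (hK : AtLeastOneRegular M) :
    IsU2 M ∨ IsU2 M✶ ∨
      ∃ Y N, IsCircuitHyperplane N Y ∧ IsRelaxation M N Y ∧ Representable F2 N ∧
        Representable F3 M := by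
  obtain ⟨C, Z, h⟩ := exists_lcfg hbin
  have hE := h.subset_ground
  have hKd := class_dual hDual hK
  have hd := h.dual hK
  have hZC : ∀ e ∈ Z, e ∉ C := fun e he h' => h.2.1.le_bot ⟨h', he⟩
  rcases C.eq_empty_or_nonempty with hC | hC
  · subst hC
    rcases (M.E \ Z).eq_empty_or_nonempty with hX | ⟨x, hx⟩
    · refine Or.inr (Or.inr (u24_case hW1 hDual hK hS hSd h ?_))
      apply Subset.antisymm (sdiff_eq_empty.1 hX)
      exact subset_union_right.trans hE
    · exact Or.inl (isU2_of_empty hK hS h hx.1 hx.2)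
  rcases (M.E \ (C ∪ Z)).eq_empty_or_nonempty with hX | ⟨x, hx⟩
  · rw [hX] at hd
    obtain ⟨y, hy⟩ := hC
    exact Or.inr (Or.inl (isU2_of_empty hKd hSd hd (hE (Or.inl hy)) (fun h' => hZC y h' hy)))
  right; right
  have hxC : x ∉ C := fun h' => hx.2 (Or.inl h')
  have hxZ : x ∉ Z := fun h' => hx.2 (Or.inr h')
  obtain ⟨p, hp, -, -, -, hpr, -⟩ := exists_label_X hK hS h hx.1 hxC hxZ
  obtain ⟨y, hy⟩ := id hC
  obtain ⟨w, hw, -, -, hwr, hwc, -⟩ := exists_label_C hK h hy
  have hpw : p ≠ w := fun h' => hpr (h' ▸ hwr)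
  obtain ⟨s, t, hst, hsp, hsw, htp, htw, hZ⟩ := four_elts h.1 hp hw hpw
  have hs : s ∈ Z := by rw [hZ]; simp
  have ht : t ∈ Z := by rw [hZ]; simp
  by_cases hsr : IsRegular (M.delete {s})
  · by_cases htr : IsRegular (M.delete {t})
    · exfalso
      refine not_three hK hS h hC hx.1 hxC hxZ hp hpr ?_
      intro z hz hzp
      rw [hZ] at hz
      rcases hz with h' | h' | h' | h'
      · exact absurd h' hzp
      · rw [h']; exact hwr
      · rw [h']; exact hsr
      · rw [mem_singleton_iff] at h'
        rw [h']; exact htr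
    · refine two_two hW1 hK hS h (a := w) (b := s) (t := p) (t' := t) hsw.symm hpw
        hsp.symm ?_ hwr hsr hpr htr
      rw [hZ]
      ext e; simp only [mem_insert_iff, mem_singleton_iff]; clear hZ; tauto
  · by_cases htr : IsRegular (M.delete {t})
    · refine two_two hW1 hK hS h (a := w) (b := t) (t := p) (t' := s) htw.symm hpw
        htp.symm ?_ hwr htr hpr hsr
      rw [hZ]
      ext e; simp only [mem_insert_iff, mem_singleton_iff]; clear hZ; tauto
    · exfalso
      have hrc : ∀ z ∈ Z, ¬ IsRegular (M.delete {z}) → IsRegular (M.contract {z}) := by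
        intro z hz hzr
        rcases hK.2 z (hE (Or.inr hz)) with h' | h'
        · exact absurd h' hzr
        · exact h'
      have hyd : y ∉ M.E \ (C ∪ Z) := fun h' => h'.2 (Or.inl hy)
      refine not_three hKd hSd hd ⟨x, hx⟩ (x := y) (hE (Or.inl hy)) hyd
        (fun h' => hZC y h' hy) (t := w) hw ?_ ?_
      · rw [regular_delete_dual hDual]
        exact hwc
      · intro z hz hzw
        rw [regular_delete_dual hDual]
        rw [hZ] at hz
        rcases hz with h' | h' | h' | h'
        · rw [h']; exact hrc p hp hpr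
        · exact absurd h' hzw
        · rw [h']; exact hrc s hs hsr
        · rw [mem_singleton_iff] at h'
          rw [h']; exact hrc t ht htr

/-- NONBINARY. -/
theorem specNonBinary_of (hRelax : SpecRelax.{u}) (hW1 : SpecW1.{u}) (hDual : SpecDual.{u}) :
    SpecNonBinary.{u} := by
  intro α M _ hbin hS hSd
  have hnr : ¬ IsRegular M := fun h => hbin (h F2)
  constructor
  · intro hK
    exact nonbinary_forward hW1 hDual hbin hS hSd hK
  · rintro (hU | hU | ⟨Y, N, hch, hrel, hN2, hM3⟩)
    · exact ⟨hnr, fun e he => Or.inr (regular_contract_of_uniform2 hU.2 he)⟩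
    · refine ⟨hnr, fun e he => Or.inl ?_⟩
      rw [← regular_contract_dual hDual]
      exact regular_contract_of_uniform2 hU.2 he
    · have hNf : N.Finite := ⟨by rw [← hrel.1]; exact M.ground_finite⟩
      have hr := hRelax α N M Y hN2 hch hrel hM3
      refine ⟨hnr, fun e he => ?_⟩
      by_cases heY : e ∈ Y
      · exact Or.inl (hr.1 e heY).2
      · exact Or.inr (hr.2 e ⟨hrel.1 ▸ he, heY⟩).2

end MP948082
end
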