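import Pool.Agent.Lib.MP_948082_co.Dual

section
open Set Submodule

namespace MP948082

universe u

namespace FanDual

/-- Linear duality for the representations `[I | A]` and `[Aᵀ | I]`. -/
theorem duality {F : Type*} [Field F] {b c : Type*} [Fintype b] [Fintype c] [DecidableEq b]
    [DecidableEq c] (A : b → c → F) (v : b ⊕ c → (b → F)) (v' : b ⊕ c → (c → F))
    (hv1 : ∀ r, v (Sum.inl r) = Pi.single r 1) (hv2 : ∀ s r, v (Sum.inr s) r = A r s)
    (hw1 : ∀ r s, v' (Sum.inl r) s = A r s) (hw2 : ∀ s, v' (Sum.inr s) = Pi.single s 1)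
    (J : Set (b ⊕ c)) : LinearIndepOn F v' J ↔ span F (v '' Jᶜ) = ⊤ := by
  classical
  constructor
  · intro h
    by_contra hne
    obtain ⟨ℓ, hℓ0, hℓ⟩ := Submodule.exists_le_ker_of_lt_top _ (lt_top_iff_ne_top.2 hne)
    have hz : ∀ e ∉ J, ℓ (v e) = 0 := fun e he => hℓ (subset_span ⟨e, he, rfl⟩)
    set lam : b ⊕ c → F := Sum.elim (fun r => ℓ (Pi.single r 1)) (fun s => -ℓ (v (Sum.inr s)))
      with hlam
    have hsupp : ∀ e ∉ J, lam e = 0 := by
      rintro (r | s) he
      · simp only [hlam, Sum.elim_inl, ← hv1]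
        exact hz _ he
      · simp only [hlam, Sum.elim_inr]
        rw [hz _ he, neg_zero]
    have hexp : ∀ x : b → F, ℓ x = ∑ r, x r * ℓ (Pi.single r 1) := by
      intro x
      conv_lhs => rw [← Finset.univ_sum_single x]
      rw [map_sum]
      refine Finset.sum_congr rfl fun r _ => ?_
      have : (Pi.single r (x r) : b → F) = x r • Pi.single r 1 := by
        rw [← Pi.single_smul, smul_eq_mul, mul_one]
      rw [this, map_smul, smul_eq_mul]
    have hsum : ∑ e : b ⊕ c, lam e • v' e = 0 := by
      rw [Fintype.sum_sum_type]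
      funext s
      simp only [Pi.add_apply, Finset.sum_apply, Pi.smul_apply, smul_eq_mul, Pi.zero_apply, hw1, hw2,
        hlam, Sum.elim_inl, Sum.elim_inr, Pi.single_apply]
      rw [Finset.sum_eq_single s]
      · rw [if_pos rfl, mul_one, hexp (v (Sum.inr s))]
        simp only [hv2]
        rw [add_neg_eq_zero]
        refine Finset.sum_congr rfl fun r _ => ?_
        ring
      · intro t _ ht
        rw [if_neg (Ne.symm ht), mul_zero]
      · intro h; exact absurd (Finset.mem_univ _) h
    have hJ : LinearIndepOn F v' (J.toFinset : Set (b ⊕ c)) := by rwa [Set.coe_toFinset]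
    rw [linearIndepOn_finset_iff] at hJ
    have hall : ∀ e, lam e = 0 := by
      intro e
      by_cases he : e ∈ J
      · refine hJ lam ?_ e (by simpa using he)
        rw [← hsum]
        refine Finset.sum_subset (Finset.subset_univ _) fun x _ hx => ?_
        rw [hsupp x (by simpa using hx), zero_smul]
      · exact hsupp e he
    apply hℓ0
    ext x
    rw [LinearMap.zero_comp]
    simp only [LinearMap.coe_comp, Function.comp_apply, LinearMap.coe_single, LinearMap.zero_apply]
    exact hall (Sum.inl x)
  · intro h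
    have hJ : LinearIndepOn F v' (J.toFinset : Set (b ⊕ c)) := by
      rw [linearIndepOn_finset_iff]
      intro g hg
      set lam : b ⊕ c → F := fun e => if e ∈ J then g e else 0 with hlam
      have hsum : ∑ e : b ⊕ c, lam e • v' e = 0 := by
        rw [← hg]
        symm
        refine (Finset.sum_congr rfl fun x hx => ?_).trans
          (Finset.sum_subset (Finset.subset_univ J.toFinset) fun x _ hx => ?_)
        · simp only [hlam]
          rw [if_pos (by simpa using hx)]
        · simp only [hlam]
          rw [if_neg (by simpa using hx), zero_smul]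
      -- the functional
      let ℓ : (b → F) →ₗ[F] F := ∑ r, lam (Sum.inl r) • LinearMap.proj r
      have hℓ : ∀ x, ℓ x = ∑ r, lam (Sum.inl r) * x r := by
        intro x
        simp [ℓ, LinearMap.sum_apply]
      have hrel : ∀ s, ∑ r, lam (Sum.inl r) * A r s + lam (Sum.inr s) = 0 := by
        intro s
        have := congrFun hsum s
        rw [Fintype.sum_sum_type] at this
        simp only [Pi.add_apply, Finset.sum_apply, Pi.smul_apply, smul_eq_mul, Pi.zero_apply, hw1,
          hw2, Pi.single_apply] at this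
        rw [← this]
        congr 1
        rw [Finset.sum_eq_single s]
        · rw [if_pos rfl, mul_one]
        · intro t _ ht
          rw [if_neg (Ne.symm ht), mul_zero]
        · intro h; exact absurd (Finset.mem_univ _) h
      have hker : span F (v '' Jᶜ) ≤ LinearMap.ker ℓ := by
        rw [span_le]
        rintro _ ⟨(r | s), he, rfl⟩
        · rw [SetLike.mem_coe, LinearMap.mem_ker, hv1, hℓ, Finset.sum_eq_single r]
          · rw [Pi.single_eq_same, mul_one]
            simp only [hlam]
            rw [if_neg he]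
          · intro t _ ht
            rw [Pi.single_eq_of_ne ht, mul_zero]
          · intro h; exact absurd (Finset.mem_univ _) h
        · rw [SetLike.mem_coe, LinearMap.mem_ker, hℓ]
          simp only [hv2]
          have h1 := hrel s
          have h2 : lam (Sum.inr s) = 0 := by
            simp only [hlam]
            rw [if_neg he]
          rw [h2, add_zero] at h1
          exact h1
      rw [h, top_le_iff] at hker
      have hl0 : ∀ r, lam (Sum.inl r) = 0 := by
        intro r
        have h1 : ℓ (Pi.single r 1) = 0 := by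
          rw [← LinearMap.mem_ker, hker]; trivial
        rw [hℓ, Finset.sum_eq_single r] at h1
        · rwa [Pi.single_eq_same, mul_one] at h1
        · intro t _ ht
          rw [Pi.single_eq_of_ne ht, mul_zero]
        · intro h; exact absurd (Finset.mem_univ _) h
      have hl1 : ∀ s, lam (Sum.inr s) = 0 := by
        intro s
        have := hrel s
        simpa [hl0] using this
      intro e he
      have he' : e ∈ J := by simpa using he
      have : lam e = 0 := by
        rcases e with r | s
        · exact hl0 r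
        · exact hl1 s
      simp only [hlam] at this
      rwa [if_pos he'] at this
    rwa [Set.coe_toFinset] at hJ

section

variable {m : Fin 3 → ℕ} {ε δ : Bool}

def toSum : FanElt m ε δ → FanBasis m δ ⊕ FanBasis m ε
  | .y i j => Sum.inl (Sum.inl ⟨i, j⟩)
  | .y0 h => Sum.inl (Sum.inr ⟨(), h⟩)
  | .x i j => Sum.inr (Sum.inl ⟨i, j⟩)
  | .x0 h => Sum.inr (Sum.inr ⟨(), h⟩)

def ofSum : FanBasis m δ ⊕ FanBasis m ε → FanElt m ε δ
  | Sum.inl (Sum.inl ⟨i, j⟩) => .y i j
  | Sum.inl (Sum.inr h) => .y0 h.2
  | Sum.inr (Sum.inl ⟨i, j⟩) => .x i j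
  | Sum.inr (Sum.inr h) => .x0 h.2

theorem ofSum_toSum (e : FanElt m ε δ) : ofSum (toSum e) = e := by
  cases e <;> rfl

theorem toSum_ofSum (e : FanBasis m δ ⊕ FanBasis m ε) : toSum (ofSum e) = e := by
  rcases e with ((⟨i, j⟩ | ⟨⟨⟩, h⟩) | (⟨i, j⟩ | ⟨⟨⟩, h⟩)) <;> rfl

/-- the equivalence -/
def sumEquiv : FanElt m ε δ ≃ FanBasis m δ ⊕ FanBasis m ε :=
  ⟨toSum, ofSum, ofSum_toSum, toSum_ofSum⟩

/-- the matrix -/
def mat (m : Fin 3 → ℕ) (ε δ : Bool) : FanBasis m δ → FanBasis m ε → F2
  | Sum.inl ⟨i', j'⟩, Sum.inl ⟨i, j⟩ => if i' = i ∧ (j' : ℕ) ≤ (j : ℕ) then 0 else 1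
  | _, _ => 1

/-- the exchange of the two kinds of elements -/
def psi : FanElt m δ ε → FanElt m ε δ
  | .y i j => .x i j.rev
  | .x i j => .y i j.rev
  | .x0 h => .y0 h
  | .y0 h => .x0 h

def psiInv : FanElt m ε δ → FanElt m δ ε
  | .y i j => .x i j.rev
  | .x i j => .y i j.rev
  | .x0 h => .y0 h
  | .y0 h => .x0 h

theorem psi_left (e : FanElt m δ ε) : psiInv (psi e) = e := by
  cases e <;> simp [psi, psiInv]

theorem psi_right (e : FanElt m ε δ) : psi (psiInv e) = e := by
  cases e <;> simp [psi, psiInv]

/-- reversal of the coordinates -/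
def rho : FanBasis m ε → FanBasis m ε
  | Sum.inl ⟨i, j⟩ => Sum.inl ⟨i, j.rev⟩
  | Sum.inr h => Sum.inr h

theorem rho_rho (s : FanBasis m ε) : rho (rho s) = s := by
  rcases s with ⟨i, j⟩ | h <;> simp [rho]

/-- the dual vectors -/
def dvec (m : Fin 3 → ℕ) (ε δ : Bool) : FanBasis m δ ⊕ FanBasis m ε → (FanBasis m ε → F2)
  | Sum.inl r => fun s => mat m ε δ r s
  | Sum.inr s => Pi.single s 1

theorem fanVec_dual (e : FanElt m δ ε) (s : FanBasis m ε) :
    fanVec m δ ε e s = dvec m ε δ (toSum (psi e)) (rho s) := by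
  rcases e with ⟨i, j⟩ | ⟨i, j⟩ | h | h
  · rcases s with ⟨i', j'⟩ | ⟨⟨⟩, h'⟩
    · simp only [fanVec, psi, toSum, dvec, rho, Pi.single_apply, Sum.inl.injEq, Sigma.mk.injEq]
      by_cases hi : i' = i
      · subst hi
        simp [Fin.rev_inj]
      · simp [hi]
    · simp [fanVec, psi, toSum, dvec, rho]
  · rcases s with ⟨i', j'⟩ | ⟨⟨⟩, h'⟩
    · simp only [fanVec, psi, toSum, dvec, rho, mat]
      by_cases hi : i' = i
      · subst hi
        have h1 := j.2
        have h2 := j'.2
        have : ((j' : ℕ) ≤ j) ↔ ((j.rev : ℕ) ≤ j'.rev) := by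
          rw [Fin.val_rev, Fin.val_rev]
          omega
        simp [this]
      · simp [hi, Ne.symm hi]
    · simp [fanVec, psi, toSum, dvec, rho, mat]
  · rcases s with ⟨i', j'⟩ | ⟨⟨⟩, h'⟩
    · simp [fanVec, psi, toSum, dvec, rho, mat]
    · simp [fanVec, psi, toSum, dvec, rho, mat]
  · rcases s with ⟨i', j'⟩ | ⟨⟨⟩, h'⟩
    · simp [fanVec, psi, toSum, dvec, rho]
    · simp [fanVec, psi, toSum, dvec, rho]

theorem fanVec_ofSum_inl (r : FanBasis m δ) :
    fanVec m ε δ (ofSum (Sum.inl r)) = Pi.single r 1 := by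
  rcases r with ⟨i, j⟩ | ⟨⟨⟩, h⟩ <;> rfl

theorem fanVec_ofSum_inr (s : FanBasis m ε) (r : FanBasis m δ) :
    fanVec m ε δ (ofSum (Sum.inr s)) r = mat m ε δ r s := by
  rcases s with ⟨i, j⟩ | ⟨⟨⟩, h⟩ <;> rcases r with ⟨i', j'⟩ | ⟨⟨⟩, h'⟩ <;> rfl

theorem fanVec_span : span F2 (Set.range (fanVec m ε δ)) = ⊤ := by
  rw [eq_top_iff]
  intro x _
  rw [← Finset.univ_sum_single x]
  refine sum_mem fun r _ => ?_
  have : (Pi.single r (x r) : FanBasis m δ → F2) = x r • Pi.single r 1 := by
    rw [← Pi.single_smul, smul_eq_mul, mul_one]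
  rw [this, ← fanVec_ofSum_inl (ε := ε)]
  exact smul_mem _ _ (subset_span ⟨_, rfl⟩)

/-- Independence of the dual fan vectors. -/
theorem fan_indep_dual (I : Set (FanElt m δ ε)) :
    LinearIndepOn F2 (fanVec m δ ε) I ↔ span F2 (fanVec m ε δ '' (psi '' I)ᶜ) = ⊤ := by
  have h1 : fanVec m δ ε = fun e => LinearMap.funLeft F2 F2 rho (dvec m ε δ (toSum (psi e))) := by
    funext e s
    rw [fanVec_dual]
    rfl
  have hinj : Function.Injective (LinearMap.funLeft F2 F2 (rho (m := m) (ε := ε))) :=
    LinearMap.funLeft_injective_of_surjective _ _ _ fun s => ⟨rho s, rho_rho s⟩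
  have hpsi : Function.Injective (psi : FanElt m δ ε → FanElt m ε δ) :=
    Function.LeftInverse.injective psi_left
  have hinj2 : Function.Injective (fun e : FanElt m δ ε => toSum (psi e)) := by
    intro a b hab
    exact hpsi (sumEquiv.injective hab)
  rw [h1]
  have e1 : LinearIndepOn F2 (fun e => LinearMap.funLeft F2 F2 rho (dvec m ε δ (toSum (psi e)))) I ↔
      LinearIndepOn F2 (fun e => dvec m ε δ (toSum (psi e))) I := by
    constructor
    · intro h
      exact LinearIndepOn.of_comp (LinearMap.funLeft F2 F2 rho) h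
    · intro h
      exact h.map_injOn (LinearMap.funLeft F2 F2 rho) hinj.injOn
  have e2 : LinearIndepOn F2 (fun e => dvec m ε δ (toSum (psi e))) I ↔
      LinearIndepOn F2 (dvec m ε δ) ((fun e => toSum (psi e)) '' I) := by
    constructor
    · intro h
      exact LinearIndepOn.image_of_comp (fun e : FanElt m δ ε => toSum (psi e)) _ h
    · intro h
      exact h.comp_of_image hinj2.injOn
  rw [e1, e2, duality (mat m ε δ) (fun e => fanVec m ε δ (ofSum e)) (dvec m ε δ) fanVec_ofSum_inl
    fanVec_ofSum_inr (fun _ _ => rfl) (fun _ => rfl)]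
  have e3 : (fun e => fanVec m ε δ (ofSum e)) '' ((fun e => toSum (psi e)) '' I)ᶜ =
      fanVec m ε δ '' (psi '' I)ᶜ := by
    ext x
    constructor
    · rintro ⟨e, he, rfl⟩
      refine ⟨ofSum e, ?_, rfl⟩
      rintro ⟨a, ha, hae⟩
      apply he
      refine ⟨a, ha, ?_⟩
      simp only
      rw [hae, toSum_ofSum]
    · rintro ⟨e, he, rfl⟩
      refine ⟨toSum e, ?_, by simp only [ofSum_toSum]⟩
      rintro ⟨a, ha, hae⟩
      apply he
      refine ⟨a, ha, ?_⟩
      have := congrArg ofSum hae
      simpa only [ofSum_toSum] using this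
  rw [e3]

end

end FanDual

/-- The exchange of the two kinds of elements of a triple fan. -/
def fanSwap (m : Fin 3 → ℕ) (ε δ : Bool) : FanElt m δ ε → FanElt m ε δ
  | .y i j => .x i j.rev
  | .x i j => .y i j.rev
  | .x0 h => .y0 h
  | .y0 h => .x0 h

theorem fanSwap_eq_psi (m : Fin 3 → ℕ) (ε δ : Bool) (e : FanElt m δ ε) :
    fanSwap m ε δ e = FanDual.psi e := by
  cases e <;> rfl

open FanDual in
/-- The dual of a triple fan, with the explicit labelling of its elements. -/
theorem fanDual_swap {α : Type u} (m : Fin 3 → ℕ) (ε δ : Bool) (M : Matroid α)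
    (φ : FanElt m ε δ → α) (hφ : Function.Injective φ) (hr : Set.range φ = M.E)
    (hI : ∀ I, (M.Indep (φ '' I) ↔ LinearIndepOn F2 (fanVec m ε δ) I)) :
    Function.Injective (φ ∘ fanSwap m ε δ) ∧ Set.range (φ ∘ fanSwap m ε δ) = M✶.E ∧
      ∀ I, (M✶.Indep ((φ ∘ fanSwap m ε δ) '' I) ↔ LinearIndepOn F2 (fanVec m δ ε) I) := by
  classical
  have hswap : φ ∘ fanSwap m ε δ = fun e => φ (psi e) := by
    funext e
    rw [Function.comp_apply, fanSwap_eq_psi]
  rw [hswap]
  -- a representation of `M`
  set w : α → (FanBasis m δ → F2) := fun a =>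
    if h : ∃ e, φ e = a then fanVec m ε δ h.choose else 0 with hw
  have hwφ : ∀ e, w (φ e) = fanVec m ε δ e := by
    intro e
    have h : ∃ e', φ e' = φ e := ⟨e, rfl⟩
    simp only [hw]
    rw [dif_pos h, hφ h.choose_spec]
  have hrep : IsRep F2 M w := by
    intro X hX
    obtain ⟨I, rfl⟩ : ∃ I, φ '' I = X := by
      rw [← hr] at hX
      exact Set.subset_range_iff_exists_image_eq.1 hX
    rw [hI]
    constructor
    · intro h
      apply LinearIndepOn.image_of_comp
      exact (linearIndepOn_congr fun e _ => (hwφ e).symm).1 h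
    · intro h
      have := h.comp_of_image hφ.injOn
      exact (linearIndepOn_congr fun e _ => hwφ e).1 this
  have hspan : span F2 (w '' M.E) = ⊤ := by
    rw [← hr, ← Set.range_comp]
    have : w ∘ φ = fanVec m ε δ := funext hwφ
    rw [this, fanVec_span]
  have hpsi : Function.Injective (psi : FanElt m δ ε → FanElt m ε δ) :=
    Function.LeftInverse.injective psi_left
  refine ⟨fun a b hab => hpsi (hφ hab), ?_, fun I => ?_⟩
  · rw [Matroid.dual_ground, ← hr]
    ext x
    constructor
    · rintro ⟨e, rfl⟩; exact ⟨psi e, rfl⟩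
    · rintro ⟨e, rfl⟩; exact ⟨psiInv e, by simp only [psi_right]⟩
  · have hsub : (fun e => φ (psi e)) '' I ⊆ M.E := by
      rw [← hr]
      rintro _ ⟨e, _, rfl⟩
      exact ⟨_, rfl⟩
    rw [← Matroid.coindep_def, Matroid.coindep_iff_compl_spanning hsub,
      hrep.spanning_iff hspan sdiff_subset, fan_indep_dual]
    have e1 : w '' (M.E \ (fun e => φ (psi e)) '' I) = fanVec m ε δ '' (psi '' I)ᶜ := by
      rw [← hr]
      ext x
      constructor
      · rintro ⟨_, ⟨⟨e, rfl⟩, he⟩, rfl⟩
        refine ⟨e, ?_, (hwφ e).symm⟩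
        rintro ⟨a, ha, rfl⟩
        exact he ⟨a, ha, rfl⟩
      · rintro ⟨e, he, rfl⟩
        refine ⟨φ e, ⟨⟨e, rfl⟩, ?_⟩, hwφ e⟩
        rintro ⟨a, ha, hae⟩
        exact he ⟨a, ha, hφ hae⟩
    rw [e1]

theorem specFanDual : SpecFanDual.{u} := by
  intro α m ε δ M hM
  obtain ⟨φ, hφ, hr, hI⟩ := hM
  exact ⟨φ ∘ fanSwap m ε δ, fanDual_swap m ε δ M φ hφ hr hI⟩

end MP948082
end

section
/-!
# MP_948082_co : module RELAX
-/
open Set

namespace MP948082

universe u

variable {α : Type u}

/-- A binary and ternary matroid is regular. -/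
theorem isRegular_of_binary_of_ternary (hT : SpecTutte.{u}) (hNT : SpecNT.{u}) (hD : SpecDual.{u})
    {M : Matroid α} [M.Finite] (h2 : Representable F2 M) (h3 : Representable F3 M) :
    IsRegular M := by
  intro F _
  by_contra hF
  rcases hT α M F h2 hF with ⟨n, v, C, z, hv, hc⟩ | ⟨n, v, C, z, hv, hc⟩
  · exact hNT α M n v C z hv hc h3
  · exact hNT α M✶ n v C z hv hc (hD α F3 M h3)

theorem IsRelaxation.indep_iff {M N : Matroid α} {Y : Set α} (h : IsRelaxation N M Y) {I : Set α} :
    N.Indep I ↔ M.Indep I ∨ I ⊆ Y := by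
  rw [Matroid.indep_iff, Matroid.indep_iff]
  constructor
  · rintro ⟨B, hB, hIB⟩
    rcases (h.2 B).1 hB with hB | rfl
    · exact Or.inl ⟨B, hB, hIB⟩
    · exact Or.inr hIB
  · rintro (⟨B, hB, hIB⟩ | hIY)
    · exact ⟨B, (h.2 B).2 (Or.inl hB), hIB⟩
    · exact ⟨Y, (h.2 Y).2 (Or.inr rfl), hIY⟩

theorem IsRelaxation.delete_eq {M N : Matroid α} {Y : Set α} (h : IsRelaxation N M Y)
    (hY : M.IsCircuit Y) {y : α} (hy : y ∈ Y) : N.delete {y} = M.delete {y} := by
  apply Matroid.ext_indep
  · simp [h.1]
  intro I hI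
  rw [Matroid.deleteElem_indep_iff, Matroid.deleteElem_indep_iff, h.indep_iff]
  constructor
  · rintro ⟨hI | hI, hyI⟩
    · exact ⟨hI, hyI⟩
    · refine ⟨hY.ssubset_indep ⟨hI, fun hc => hyI (hc hy)⟩, hyI⟩
  · rintro ⟨hI, hyI⟩
    exact ⟨Or.inl hI, hyI⟩

theorem IsRelaxation.contract_eq {M N : Matroid α} {Y : Set α} (h : IsRelaxation N M Y)
    (hY : M.IsCocircuit (M.E \ Y)) {x : α} (hx : x ∈ M.E \ Y) :
    N.contract {x} = M.contract {x} := by
  have hM : M.IsNonloop x := hY.isNonloop_of_mem hx
  have hN : N.IsNonloop x := by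
    rw [← Matroid.indep_singleton, h.indep_iff]
    exact Or.inl (Matroid.indep_singleton.2 hM)
  apply Matroid.ext_indep
  · simp [h.1]
  intro I hI
  rw [hM.contractElem_indep_iff, hN.contractElem_indep_iff, h.indep_iff]
  constructor
  · rintro ⟨hxI, hi | hi⟩
    · exact ⟨hxI, hi⟩
    · exact absurd (hi (mem_insert x I)) hx.2
  · rintro ⟨hxI, hi⟩
    exact ⟨hxI, Or.inl hi⟩

/-- RELAX. -/
theorem specRelax (hT : SpecTutte.{u}) (hNT : SpecNT.{u}) (hD : SpecDual.{u}) : SpecRelax.{u} := by
  intro α M N _ Y h2 hY hN h3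
  have hfin : N.Finite := ⟨by rw [hN.1]; exact M.ground_finite⟩
  refine ⟨fun y hy => ?_, fun x hx => ?_⟩
  · have he := hN.delete_eq hY.1 hy
    have h : IsRegular (M.delete {y}) :=
      isRegular_of_binary_of_ternary hT hNT hD (h2.delete _) (he ▸ h3.delete _)
    exact ⟨h, he ▸ h⟩
  · have he := hN.contract_eq hY.2 hx
    have h : IsRegular (M.contract {x}) :=
      isRegular_of_binary_of_ternary hT hNT hD (h2.contract _) (he ▸ h3.contract _)
    exact ⟨h, he ▸ h⟩

end MP948082
end

section
/-!
# MP_948082_co : module SP (reduction to simple cosimple matroids)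
-/
open Set Matroid

namespace MP948082

universe u

variable {α : Type u}

/-! ### Adding loops, parallel elements -/

theorem representable_of_loop {F : Type*} [Field F] {M : Matroid α} {d : α} (hd : M.IsLoop d)
    (h : Representable F (M.delete {d})) : Representable F M := by
  classical
  obtain ⟨n, v, hv⟩ := h
  refine ⟨n, Function.update v d 0, fun I hI => ?_⟩
  by_cases hdI : d ∈ I
  · refine iff_of_false (fun hi => hd.notMem_of_indep hi hdI) (fun hl => ?_)
    exact hl.ne_zero hdI (by simp)
  · have h1 := hv I (subset_sdiff_singleton hI hdI)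
    rw [deleteElem_indep_iff, and_iff_left hdI] at h1
    rw [h1]
    apply linearIndepOn_congr
    intro a ha
    have : a ≠ d := fun hc => hdI (hc ▸ ha)
    simp [this]

theorem representable_of_parallel {F : Type*} [Field F] {M : Matroid α} {d f : α}
    (hcl : M.closure {d} = M.closure {f}) (hne : d ≠ f) (hdE : d ∈ M.E) (hfE : f ∈ M.E)
    (h : Representable F (M.delete {d})) : Representable F M := by
  classical
  obtain ⟨n, v, hv⟩ := h
  have hmem : ∀ J : Set α, J ⊆ M.E → (d ∈ M.closure J ↔ f ∈ M.closure J) := by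
    intro J hJ
    have aux : ∀ a b : α, a ∈ M.E → b ∈ M.E → M.closure {a} = M.closure {b} →
        a ∈ M.closure J → b ∈ M.closure J := by
      intro a b ha hb hab haJ
      have h1 : M.closure {a} ⊆ M.closure J :=
        M.closure_subset_closure_of_subset_closure (by simpa using haJ)
      exact h1 (hab ▸ M.mem_closure_self b hb)
    exact ⟨aux d f hdE hfE hcl, aux f d hfE hdE hcl.symm⟩
  refine ⟨n, Function.update v d (v f), fun I hI => ?_⟩
  have hcongr : ∀ J : Set α, d ∉ J →
      (LinearIndepOn F (Function.update v d (v f)) J ↔ LinearIndepOn F v J) := by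
    intro J hJ
    apply linearIndepOn_congr
    intro a ha
    have : a ≠ d := fun hc => hJ (hc ▸ ha)
    simp [this]
  by_cases hdI : d ∈ I
  · obtain ⟨J, hdJ, rfl⟩ : ∃ J, d ∉ J ∧ insert d J = I :=
      ⟨I \ {d}, by simp, by simp [insert_eq_of_mem hdI]⟩
    have hJE : J ⊆ M.E := (subset_insert d J).trans hI
    by_cases hfJ : f ∈ J
    · refine iff_of_false (fun hi => ?_) (fun hl => ?_)
      · have hi2 := hi.subset (insert_subset_insert (singleton_subset_iff.2 hfJ))
        have hnl : M.IsNonloop d := hi.isNonloop_of_mem (mem_insert d J)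
        exact ((hnl.closure_eq_closure_iff_isCircuit_of_ne hne).1 hcl).not_indep hi2
      · have := hl.injOn (mem_insert d J) (mem_insert_of_mem d hfJ)
        simp only [Function.update_self, Function.update_of_ne hne.symm] at this
        exact hne (this trivial)
    · have h1 := hv (insert f J)
        (subset_sdiff_singleton (insert_subset hfE hJE) (by
          rw [mem_insert_iff]; rintro (h | h)
          · exact hne h
          · exact hdJ h))
      rw [deleteElem_indep_iff, and_iff_left (by
          rw [mem_insert_iff]; rintro (h | h)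
          · exact hne h
          · exact hdJ h)] at h1
      have h2 : M.Indep (insert d J) ↔ M.Indep (insert f J) := by
        rw [insert_indep_iff, insert_indep_iff]
        simp only [mem_sdiff, hdE, hfE, true_and, hdJ, hfJ, not_false_eq_true, forall_const,
          hmem J hJE]
      rw [h2, h1, linearIndepOn_insert hdJ, linearIndepOn_insert hfJ, hcongr J hdJ]
      have h3 : (Function.update v d (v f)) '' J = v '' J := by
        apply image_congr
        intro a ha
        have : a ≠ d := fun hc => hdJ (hc ▸ ha)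
        simp [this]
      rw [h3, Function.update_self]
  · have h1 := hv I (subset_sdiff_singleton hI hdI)
    rw [deleteElem_indep_iff, and_iff_left hdI] at h1
    rw [h1, hcongr I hdI]

theorem representable_of_mem_closure {F : Type*} [Field F] {M : Matroid α} {d f : α}
    (hcl : d ∈ M.closure {f}) (hne : d ≠ f) (hf : f ∈ M.E)
    (h : Representable F (M.delete {d})) : Representable F M := by
  have hdE : d ∈ M.E := M.mem_ground_of_mem_closure hcl
  by_cases hd : M.IsLoop d
  · exact representable_of_loop hd h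
  · have hnl : M.IsNonloop d := (M.not_isLoop_iff hdE).1 hd
    exact representable_of_parallel (hnl.closure_eq_of_mem_closure hcl) hne hdE hf h

/-- Deleting a set of elements which are loops or parallel to remaining elements. -/
theorem representable_of_delete {F : Type*} [Field F] {D : Set α} (hDf : D.Finite) :
    ∀ M : Matroid α, (∀ d ∈ D, M.IsLoop d ∨ ∃ f ∈ M.E \ D, d ∈ M.closure {f}) →
      Representable F (M.delete D) → Representable F M := by
  induction D, hDf using Set.Finite.induction_on with
  | empty =>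
    intro M _ h
    simpa using h
  | @insert a D ha _ ih =>
    intro M hM h
    apply ih M
    · intro d hd
      rcases hM d (mem_insert_of_mem a hd) with h1 | ⟨f, hf, h1⟩
      · exact Or.inl h1
      · exact Or.inr ⟨f, ⟨hf.1, fun hc => hf.2 (mem_insert_of_mem a hc)⟩, h1⟩
    · have h' : Representable F ((M.delete D).delete {a}) := by
        rw [delete_delete, union_singleton]; exact h
      rcases hM a (mem_insert a D) with h1 | ⟨f, hf, h1⟩
      · exact representable_of_loop (delete_isLoop_iff.2 ⟨h1, ha⟩) h'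
      · have hfD : f ∉ D := fun hc => hf.2 (mem_insert_of_mem a hc)
        refine representable_of_mem_closure (f := f) ?_ ?_ ⟨hf.1, hfD⟩ h'
        · rw [delete_closure_eq_of_disjoint _ (by simpa using hfD)]
          exact ⟨h1, ha⟩
        · rintro rfl
          exact hf.2 (mem_insert _ _)

theorem isRegular_of_delete {D : Set α} {M : Matroid α} [M.Finite]
    (hM : ∀ d ∈ D, M.IsLoop d ∨ ∃ f ∈ M.E \ D, d ∈ M.closure {f})
    (h : IsRegular (M.delete D)) : IsRegular M := by
  have hD : D ⊆ M.E := by
    intro d hd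
    rcases hM d hd with h1 | ⟨f, _, h1⟩
    · exact h1.mem_ground
    · exact M.mem_ground_of_mem_closure h1
  intro F _
  exact representable_of_delete (M.ground_finite.subset hD) M hM (h F)

theorem IsRegular.dual (hD : SpecDual.{u}) {M : Matroid α} [M.Finite] (h : IsRegular M) :
    IsRegular M✶ := fun F _ => hD α F M (h F)

theorem IsRegular.of_dual (hD : SpecDual.{u}) {M : Matroid α} [M.Finite] (h : IsRegular M✶) :
    IsRegular M := by
  have := h.dual hD
  rwa [dual_dual] at this

theorem isRegular_dual_iff (hD : SpecDual.{u}) {M : Matroid α} [M.Finite] :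
    IsRegular M✶ ↔ IsRegular M := ⟨fun h => h.of_dual hD, fun h => h.dual hD⟩

theorem isRegular_of_contract (hD : SpecDual.{u}) {C : Set α} {M : Matroid α} [M.Finite]
    (hM : ∀ c ∈ C, M.IsColoop c ∨ ∃ g ∈ M.E \ C, c ∈ M✶.closure {g})
    (h : IsRegular (M.contract C)) : IsRegular M := by
  apply IsRegular.of_dual hD
  apply isRegular_of_delete (D := C)
  · intro c hc
    rcases hM c hc with h1 | ⟨g, hg, h1⟩
    · exact Or.inl h1.dual_isLoop
    · exact Or.inr ⟨g, hg, h1⟩
  · have := h.dual hD
    rwa [dual_contract] at this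

/-! ### Duality for the classes -/

theorem AtLeastOneRegular.dual (hD : SpecDual.{u}) {M : Matroid α} [M.Finite]
    (h : AtLeastOneRegular M) : AtLeastOneRegular M✶ := by
  refine ⟨fun hc => h.1 (hc.of_dual hD), fun e he => ?_⟩
  rcases h.2 e he with h1 | h1
  · right
    have := h1.dual hD
    rwa [dual_delete] at this
  · left
    have := h1.dual hD
    rwa [dual_contract] at this

theorem IsParallel.dual {M : Matroid α} {e f : α} (h : IsParallel M e f) : IsSeries M✶ e f :=
  ⟨h.1, by rw [dual_isCocircuit_iff]; exact h.2⟩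

theorem IsSeries.dual {M : Matroid α} {e f : α} (h : IsSeries M e f) : IsParallel M✶ e f :=
  ⟨h.1, h.2⟩

theorem IsParallel.symm {M : Matroid α} {e f : α} (h : IsParallel M e f) : IsParallel M f e :=
  ⟨h.1.symm, by rw [pair_comm]; exact h.2⟩

theorem IsSeries.symm {M : Matroid α} {e f : α} (h : IsSeries M e f) : IsSeries M f e :=
  ⟨h.1.symm, by rw [pair_comm]; exact h.2⟩

theorem isSeries_dual_iff {M : Matroid α} {e f : α} : IsSeries M✶ e f ↔ IsParallel M e f :=
  ⟨fun h => by have := h.dual; rwa [dual_dual] at this, fun h => h.dual⟩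

theorem isParallel_dual_iff {M : Matroid α} {e f : α} : IsParallel M✶ e f ↔ IsSeries M e f :=
  ⟨fun h => by have := h.dual; rwa [dual_dual] at this, fun h => h.dual⟩

theorem IsRegularExtension.dual (hD : SpecDual.{u}) {M M₀ : Matroid α} [M.Finite] {C D : Set α}
    (h : IsRegularExtension M M₀ C D) : IsRegularExtension M✶ M₀✶ D C := by
  obtain ⟨hC, hDE, hdj, hM₀, hDm, hCm⟩ := h
  have hfin : M₀.Finite := ⟨by
    rw [hM₀]
    exact M.ground_finite.subset (show (M.E \ D) \ C ⊆ M.E from sdiff_subset.trans sdiff_subset)⟩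
  refine ⟨hDE, hC, hdj.symm, ?_, ?_, ?_⟩
  · rw [hM₀, dual_delete_contract]
    exact contract_delete_comm _ hdj.symm
  · intro c hc
    obtain ⟨e, he, hs, hr⟩ := hCm c hc
    refine ⟨e, he, hs.dual, ?_⟩
    have := hr.dual hD
    rwa [dual_delete] at this
  · intro d hd
    obtain ⟨e, he, hs, hr⟩ := hDm d hd
    refine ⟨e, he, hs.dual, ?_⟩
    have := hr.dual hD
    rwa [dual_contract] at this

theorem IsParallel.mem_closure {M : Matroid α} {d f : α} (h : IsParallel M d f) :
    d ∈ M.closure {f} := by
  have := h.2.mem_closure_sdiff_singleton_of_mem (mem_insert d {f})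
  rwa [pair_sdiff_left h.1] at this

theorem IsParallel.left_mem {M : Matroid α} {d f : α} (h : IsParallel M d f) : d ∈ M.E :=
  h.2.subset_ground (mem_insert d {f})

theorem IsParallel.right_mem {M : Matroid α} {d f : α} (h : IsParallel M d f) : f ∈ M.E :=
  h.symm.left_mem

theorem IsParallel.isNonloop {M : Matroid α} {d f : α} (h : IsParallel M d f) : M.IsNonloop d :=
  h.2.isNonloop_of_mem (nontrivial_pair h.1) (mem_insert d {f})

theorem IsParallel.trans {M : Matroid α} {d e f : α} (h : IsParallel M d e)
    (h' : IsParallel M e f) (hne : d ≠ f) : IsParallel M d f := by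
  refine ⟨hne, ?_⟩
  rw [← h.isNonloop.closure_eq_closure_iff_isCircuit_of_ne hne,
    (h.isNonloop.closure_eq_closure_iff_isCircuit_of_ne h.1).2 h.2,
    (h'.isNonloop.closure_eq_closure_iff_isCircuit_of_ne h'.1).2 h'.2]

theorem IsParallel.not_isSeries {M : Matroid α} {c d e : α} (h : IsParallel M d e)
    (h' : IsSeries M c e) (hne : c ≠ d) : False := by
  have := h.2.inter_isCocircuit_ne_singleton (e := e) h'.2
  apply this
  ext x
  simp only [mem_inter_iff, mem_insert_iff, mem_singleton_iff]
  constructor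
  · rintro ⟨rfl | rfl, rfl | h2⟩
    · exact absurd rfl hne
    · exact absurd h2 h.1
    · rfl
    · rfl
  · rintro rfl
    exact ⟨Or.inr rfl, Or.inr rfl⟩

/-! ### Loops and parallel pairs in the class -/

theorem AtLeastOneRegular.not_isLoop {M : Matroid α} [M.Finite] (h : AtLeastOneRegular M) (e : α) :
    ¬ M.IsLoop e := by
  intro he
  have h1 : IsRegular (M.delete {e}) := by
    rcases h.2 e he.mem_ground with h1 | h1
    · exact h1
    · rwa [contract_eq_delete_of_subset_loops (singleton_subset_iff.2 he)] at h1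
  exact h.1 (isRegular_of_delete (D := {e}) (by rintro d rfl; exact Or.inl he) h1)

theorem not_isRegular_delete_of_isParallel {M : Matroid α} [M.Finite] (h : ¬ IsRegular M) {d e : α}
    (hp : IsParallel M d e) : ¬ IsRegular (M.delete {d}) := by
  intro h1
  apply h
  apply isRegular_of_delete (D := {d}) _ h1
  rintro d' rfl
  exact Or.inr ⟨e, ⟨hp.right_mem, fun hc => hp.1 hc.symm⟩, hp.mem_closure⟩

theorem not_isRegular_contract_of_isSeries (hD : SpecDual.{u}) {M : Matroid α} [M.Finite]
    (h : ¬ IsRegular M) {d e : α} (hp : IsSeries M d e) : ¬ IsRegular (M.contract {d}) := by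
  intro h1
  have h2 := h1.dual hD
  rw [dual_contract] at h2
  exact not_isRegular_delete_of_isParallel (fun hc => h (hc.of_dual hD)) hp.dual h2

theorem AtLeastOneRegular.contract_of_isParallel {M : Matroid α} [M.Finite]
    (h : AtLeastOneRegular M) {d e : α} (hp : IsParallel M d e) : IsRegular (M.contract {d}) :=
  (h.2 d hp.left_mem).resolve_left (not_isRegular_delete_of_isParallel h.1 hp)

theorem AtLeastOneRegular.delete_of_isParallel {M : Matroid α} [M.Finite]
    (h : AtLeastOneRegular M) {d e : α} (hp : IsParallel M d e) :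
    AtLeastOneRegular (M.delete {d}) := by
  refine ⟨not_isRegular_delete_of_isParallel h.1 hp, fun f hf => ?_⟩
  rw [delete_ground] at hf
  rcases h.2 f hf.1 with h1 | h1
  · left
    rw [delete_comm]
    exact h1.delete _
  · right
    rw [← contract_delete_comm _ (by simpa using hf.2)]
    exact h1.delete _

theorem IsRegularExtension.ground {M M₀ : Matroid α} {C D : Set α}
    (h : IsRegularExtension M M₀ C D) : M₀.E = (M.E \ D) \ C := by
  rw [h.2.2.2.1]; rfl

theorem IsRegularExtension.finite {M M₀ : Matroid α} [M.Finite] {C D : Set α}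
    (h : IsRegularExtension M M₀ C D) : M₀.Finite :=
  ⟨by rw [h.ground]; exact M.ground_finite.subset (sdiff_subset.trans sdiff_subset)⟩

theorem IsRegularExtension.contract_eq {M M₀ : Matroid α} {C D : Set α}
    (h : IsRegularExtension M M₀ C D) {e : α} (he : e ∈ M₀.E) :
    M₀.contract {e} = ((M.contract {e}).delete D).contract C := by
  rw [h.ground] at he
  rw [h.2.2.2.1, contract_comm, ← contract_delete_comm _ (by simpa using he.1.2)]

theorem IsRegularExtension.delete_eq {M M₀ : Matroid α} {C D : Set α}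
    (h : IsRegularExtension M M₀ C D) {e : α} (he : e ∈ M₀.E) :
    M₀.delete {e} = ((M.delete {e}).delete D).contract C := by
  rw [h.ground] at he
  rw [h.2.2.2.1, contract_delete_comm _ (by simpa using he.2), delete_comm]

/-- The induction step for a parallel pair. -/
theorem IsRegularExtension.extend_parallel (hDu : SpecDual.{u}) {M M₀ : Matroid α} [M.Finite]
    (hM : AtLeastOneRegular M) {d e : α} (hp : IsParallel M d e) {C D : Set α}
    (h : IsRegularExtension (M.delete {d}) M₀ C D) :
    IsRegularExtension M M₀ C (insert d D) := by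
  have hKd : AtLeastOneRegular (M.delete {d}) := hM.delete_of_isParallel hp
  have hMe : IsRegular (M.contract {e}) := hM.contract_of_isParallel hp.symm
  have hMde : IsRegular ((M.delete {d}).contract {e}) := by
    rw [← contract_delete_comm _ (by simpa using hp.1.symm)]
    exact hMe.delete _
  obtain ⟨hC, hDE, hdj, hM₀, hDm, hCm⟩ := h
  rw [delete_ground] at hC hDE
  have hground : M₀.E = (M.E \ insert d D) \ C := by
    rw [hM₀]
    simp only [contract_ground, delete_ground]
    ext x
    simp only [mem_sdiff, mem_insert_iff, mem_singleton_iff]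
    tauto
  have hdM₀ : d ∉ M₀.E := by
    rw [hground]
    rintro ⟨⟨_, h1⟩, _⟩
    exact h1 (mem_insert d D)
  have hnoC : ∀ c ∈ C, ∀ g, IsSeries (M.delete {d}) c g → c ≠ e ∧ g ≠ e := by
    intro c hc g hg
    constructor
    · rintro rfl
      exact not_isRegular_contract_of_isSeries hDu hKd.1 hg hMde
    · rintro rfl
      exact not_isRegular_contract_of_isSeries hDu hKd.1 hg.symm hMde
  have hM₀' : M₀ = (M.delete (insert d D)).contract C := by
    rw [hM₀, delete_delete, singleton_union]
  refine ⟨hC.trans sdiff_subset, insert_subset hp.left_mem (hDE.trans sdiff_subset), ?_, hM₀',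
    ?_, ?_⟩
  · rw [disjoint_comm, ← union_singleton, disjoint_union_left]
    refine ⟨hdj.symm, ?_⟩
    rw [disjoint_singleton_left]
    exact fun hc => (hC hc).2 rfl
  · intro d₁ hd₁
    rcases mem_insert_iff.1 hd₁ with rfl | hd₁
    · -- the new element
      by_cases heM : e ∈ M₀.E
      · refine ⟨e, heM, hp, ?_⟩
        have he2 := heM
        rw [hground] at he2
        rw [hM₀', contract_comm, ← contract_delete_comm _ (by simpa using he2.1.2)]
        exact (hMe.delete _).contract _
      · rw [hground] at heM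
        by_cases heC : e ∈ C
        · obtain ⟨g, _, hg, _⟩ := hCm e heC
          exact absurd rfl (hnoC e heC g hg).1
        · have heD : e ∈ D := by
            by_contra heD
            apply heM
            refine ⟨⟨hp.right_mem, ?_⟩, heC⟩
            rw [mem_insert_iff]
            rintro (h1 | h1)
            · exact hp.1 h1.symm
            · exact heD h1
          obtain ⟨f, hf, hpf, hrf⟩ := hDm e heD
          refine ⟨f, hf, ?_, hrf⟩
          refine hp.trans (f := f) ⟨hpf.1, hpf.2.of_delete⟩ ?_
          rintro rfl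
          exact hdM₀ hf
    · obtain ⟨f, hf, hpf, hrf⟩ := hDm d₁ hd₁
      exact ⟨f, hf, ⟨hpf.1, hpf.2.of_delete⟩, hrf⟩
  · intro c hc
    obtain ⟨g, hg, hsg, hrg⟩ := hCm c hc
    refine ⟨g, hg, ⟨hsg.1, ?_⟩, hrg⟩
    have hne := hnoC c hc g hsg
    have h1 := hsg.2
    rw [isCocircuit_def, dual_delete] at h1
    obtain ⟨K, hK, hK1, hK2⟩ := h1.exists_subset_isCircuit_of_contract
    by_cases hdK : d ∈ K
    · exfalso
      have h3 := hp.2.inter_isCocircuit_ne_singleton (e := d) (K := K) hK
      apply h3
      ext x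
      simp only [mem_inter_iff, mem_insert_iff, mem_singleton_iff]
      constructor
      · rintro ⟨rfl | rfl, h4⟩
        · rfl
        · have := hK2 h4
          simp only [mem_union, mem_insert_iff, mem_singleton_iff] at this
          rcases this with (h5 | h5) | h5
          · exact absurd h5.symm hne.1
          · exact absurd h5.symm hne.2
          · exact h5
      · rintro rfl
        exact ⟨Or.inl rfl, hdK⟩
    · have : K = {c, g} := by
        apply Subset.antisymm _ hK1
        intro x hx
        rcases hK2 hx with h4 | h4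
        · exact h4
        · rw [mem_singleton_iff] at h4
          exact absurd (h4 ▸ hx) hdK
      rw [← this]
      exact hK

/-- A non-simple member of the class has a parallel pair. -/
theorem AtLeastOneRegular.exists_parallel {M : Matroid α} [M.Finite] (h : AtLeastOneRegular M)
    (hs : ¬ IsSimple M) : ∃ d e, IsParallel M d e := by
  unfold IsSimple at hs
  push Not at hs
  obtain ⟨e, he, f, hf, hef⟩ := hs
  have hne : e ≠ f := by
    rintro rfl
    simp only [mem_singleton_iff, insert_eq_of_mem] at hef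
    exact h.not_isLoop e ((M.singleton_not_indep he).1 hef)
  refine ⟨e, f, hne, ?_⟩
  have h1 : M.IsNonloop e := (M.not_isLoop_iff he).1 (h.not_isLoop e)
  have h2 : M.IsNonloop f := (M.not_isLoop_iff hf).1 (h.not_isLoop f)
  rw [← h1.closure_eq_closure_iff_isCircuit_of_ne hne,
    h1.closure_eq_closure_iff_eq_or_dep h2]
  exact Or.inr hef

theorem exists_extension (hDu : SpecDual.{u}) (k : ℕ) : ∀ (M : Matroid α) [M.Finite],
    M.E.ncard = k → AtLeastOneRegular M →
    ∃ M₀ C D, IsRegularExtension M M₀ C D ∧ IsSimple M₀ ∧ IsSimple M₀✶ ∧ AtLeastOneRegular M₀ := by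
  induction k using Nat.strong_induction_on with
  | _ k ih =>
    -- the parallel step
    have key : ∀ (M : Matroid α) [M.Finite], M.E.ncard = k → AtLeastOneRegular M → ¬ IsSimple M →
        ∃ M₀ C D, IsRegularExtension M M₀ C D ∧ IsSimple M₀ ∧ IsSimple M₀✶ ∧
          AtLeastOneRegular M₀ := by
      intro M _ hk hM hs
      obtain ⟨d, e, hp⟩ := hM.exists_parallel hs
      have hlt : (M.delete {d}).E.ncard < k := by
        rw [delete_ground, ← hk]
        exact ncard_sdiff_singleton_lt_of_mem hp.left_mem M.ground_finite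
      obtain ⟨M₀, C, D, h, h1, h2, h3⟩ := ih _ hlt (M.delete {d}) rfl (hM.delete_of_isParallel hp)
      exact ⟨M₀, C, insert d D, h.extend_parallel hDu hM hp, h1, h2, h3⟩
    intro M _ hk hM
    by_cases hs : IsSimple M
    · by_cases hs' : IsSimple M✶
      · refine ⟨M, ∅, ∅, ⟨empty_subset _, empty_subset _, disjoint_empty _, by simp, by simp,
          by simp⟩, hs, hs', hM⟩
      · obtain ⟨M₀, C, D, h, h1, h2, h3⟩ := key M✶ hk (hM.dual hDu) hs'
        have hf := h.finite
        refine ⟨M₀✶, D, C, ?_, h2, by rwa [dual_dual], h3.dual hDu⟩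
        have := h.dual hDu
        rwa [dual_dual] at this
    · exact key M hk hM hs

/-! ### The converse -/

/-- Lemma R. -/
theorem IsRegularExtension.isRegular_contract (hDu : SpecDual.{u}) {M M₀ : Matroid α} [M.Finite]
    {C D : Set α} (h : IsRegularExtension M M₀ C D) {e : α} (he : e ∈ M₀.E)
    (hr : IsRegular (M₀.contract {e})) (hC : ∀ c ∈ C, ¬ IsSeries M c e) :
    IsRegular (M.contract {e}) := by
  have he' := he
  rw [h.ground] at he'
  obtain ⟨hCE, hDE, hdj, hM₀, hDm, hCm⟩ := h
  have heC : e ∉ C := he'.2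
  have heD : e ∉ D := he'.1.2
  -- contract `C` first
  apply isRegular_of_contract hDu (C := C)
  · intro c hc
    right
    obtain ⟨g, hg, hs, _⟩ := hCm c hc
    have hgM : g ∈ M.E := by
      have : g ∈ (M.E \ D) \ C := by rw [hM₀] at hg; exact hg
      exact this.1.1
    have hgC : g ∉ C := by
      have : g ∈ (M.E \ D) \ C := by rw [hM₀] at hg; exact hg
      exact this.2
    have hge : g ≠ e := by
      rintro rfl
      exact hC c hc hs
    refine ⟨g, ⟨⟨hgM, hge⟩, hgC⟩, ?_⟩
    rw [dual_contract, delete_closure_eq_of_disjoint _ (by simpa using hge)]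
    exact ⟨hs.dual.mem_closure, fun hce => heC (by rw [mem_singleton_iff] at hce; exact hce ▸ hc)⟩
  · apply isRegular_of_delete (D := D)
    · intro d hd
      obtain ⟨f, hf, hp, _⟩ := hDm d hd
      have hf' : f ∈ (M.E \ D) \ C := by rw [hM₀] at hf; exact hf
      have hdC : d ∉ C := fun hc => (disjoint_left.1 hdj hc) hd
      have hde : d ≠ e := fun hc => heD (hc ▸ hd)
      rw [contract_contract]
      by_cases hfe : f = e
      · left
        rw [contract_isLoop_iff_mem_closure]
        subst hfe
        refine ⟨M.closure_subset_closure (singleton_subset_iff.2 (Or.inl rfl)) hp.mem_closure, ?_⟩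
        rintro (h1 | h1)
        · exact hde h1
        · exact hdC h1
      · right
        refine ⟨f, ⟨⟨hf'.1.1, ?_⟩, hf'.1.2⟩, ?_⟩
        · rintro (h1 | h1)
          · exact hfe h1
          · exact hf'.2 h1
        · rw [contract_closure_eq]
          refine ⟨M.closure_subset_closure subset_union_left hp.mem_closure, ?_⟩
          rintro (h1 | h1)
          · exact hde h1
          · exact hdC h1
    · rw [hM₀, contract_contract] at hr
      rw [contract_contract, contract_delete_comm, union_comm]
      · exact hr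
      · rw [disjoint_union_left]
        exact ⟨by simpa using heD, hdj⟩

/-- Lemma R, dual form. -/
theorem IsRegularExtension.isRegular_delete (hDu : SpecDual.{u}) {M M₀ : Matroid α} [M.Finite]
    {C D : Set α} (h : IsRegularExtension M M₀ C D) {e : α} (he : e ∈ M₀.E)
    (hr : IsRegular (M₀.delete {e})) (hD : ∀ d ∈ D, ¬ IsParallel M d e) :
    IsRegular (M.delete {e}) := by
  have hf := h.finite
  have h1 := (h.dual hDu).isRegular_contract hDu (e := e) he
    (by have := hr.dual hDu; rwa [dual_delete] at this)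
    (fun d hd hs => hD d hd (isSeries_dual_iff.1 hs))
  have h2 := h1.dual hDu
  rwa [dual_contract_dual] at h2

/-- In the simple cosimple case the mate in the core is unique. -/
theorem IsRegularExtension.series_mate {M M₀ : Matroid α} [M.Finite]
    {C D : Set α} (h : IsRegularExtension M M₀ C D) (hs : IsSimple M₀✶) {c e : α} (he : e ∈ M₀.E)
    (hc : c ∈ C) (hce : IsSeries M c e) : IsRegular (M₀.delete {e}) := by
  obtain ⟨hCE, hDE, hdj, hM₀, hDm, hCm⟩ := h
  obtain ⟨g, hg, hsg, hrg⟩ := hCm c hc
  by_cases hge : g = e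
  · rw [← hge]; exact hrg
  exfalso
  have h1 : IsSeries M e g := isParallel_dual_iff.1
    (hce.symm.dual.trans hsg.dual (Ne.symm hge))
  have he' : e ∈ (M.E \ D) \ C := by rw [hM₀] at he; exact he
  have hg' : g ∈ (M.E \ D) \ C := by rw [hM₀] at hg; exact hg
  have h2 : M₀✶.Dep {e, g} := by
    rw [hM₀, dual_delete_contract, delete_dep_iff]
    refine ⟨IsCircuit.contract_dep h1.2 ?_, ?_⟩
    · rw [disjoint_comm]
      rw [disjoint_left]
      rintro x (rfl | rfl)
      · exact he'.1.2
      · exact hg'.1.2
    · rw [disjoint_left]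
      rintro x (rfl | rfl)
      · exact he'.2
      · exact hg'.2
  exact h2.not_indep (hs e he g hg)

theorem IsRegularExtension.parallel_mate (hDu : SpecDual.{u}) {M M₀ : Matroid α} [M.Finite]
    {C D : Set α} (h : IsRegularExtension M M₀ C D) (hs : IsSimple M₀) {d e : α} (he : e ∈ M₀.E)
    (hd : d ∈ D) (hde : IsParallel M d e) : IsRegular (M₀.contract {e}) := by
  have hf := h.finite
  have h1 := (h.dual hDu).series_mate (by rwa [dual_dual]) (e := e) he hd hde.dual
  have h2 := h1.dual hDu
  rwa [dual_delete, dual_dual] at h2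

theorem IsRegularExtension.contract_of_mem (hDu : SpecDual.{u}) {M M₀ : Matroid α} [M.Finite]
    {C D : Set α} (h : IsRegularExtension M M₀ C D) {d : α} (hd : d ∈ D) :
    IsRegular (M.contract {d}) := by
  obtain ⟨f, hf, hp, hr⟩ := h.2.2.2.2.1 d hd
  have hdC : ∀ c ∈ C, c ≠ d := fun c hc hcd => disjoint_left.1 h.2.2.1 hc (hcd ▸ hd)
  have h1 : IsRegular (M.contract {f}) :=
    h.isRegular_contract hDu hf hr (fun c hc hs => hp.not_isSeries hs (hdC c hc))
  have hfE : f ∈ M.E := hp.right_mem
  apply isRegular_of_delete (D := {f})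
  · rintro f' rfl
    left
    rw [contract_isLoop_iff_mem_closure]
    exact ⟨hp.symm.mem_closure, fun hc => hp.1 (by rw [mem_singleton_iff] at hc; exact hc.symm)⟩
  · -- `M / d \ f = M / f \ d`
    have : (M.contract {d}).delete {f} = (M.contract {f}).delete {d} := by
      apply Matroid.ext_indep
      · simp only [delete_ground, contract_ground]
        rw [sdiff_sdiff, sdiff_sdiff, union_comm]
      intro I hI
      rw [deleteElem_indep_iff, deleteElem_indep_iff, hp.isNonloop.contractElem_indep_iff,
        hp.symm.isNonloop.contractElem_indep_iff]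
      have hcl : M.closure {d} = M.closure {f} :=
        (hp.isNonloop.closure_eq_closure_iff_isCircuit_of_ne hp.1).2 hp.2
      have hmem : ∀ J : Set α, (d ∈ M.closure J ↔ f ∈ M.closure J) := by
        intro J
        have aux : ∀ a b : α, b ∈ M.E → M.closure {a} = M.closure {b} →
            a ∈ M.closure J → b ∈ M.closure J := by
          intro a b hb hab haJ
          have h1 : M.closure {a} ⊆ M.closure J :=
            M.closure_subset_closure_of_subset_closure (by simpa using haJ)
          exact h1 (hab ▸ M.mem_closure_self b hb)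
        exact ⟨aux d f hfE hcl, aux f d hp.left_mem hcl.symm⟩
      have hdI : d ∉ I := fun hc => (hI hc).1.2 rfl
      have hfI : f ∉ I := fun hc => (hI hc).2 rfl
      rw [insert_indep_iff, insert_indep_iff]
      simp only [mem_sdiff, hp.left_mem, hfE, true_and, hdI, hfI, not_false_eq_true, forall_const,
        hmem I, and_true]
    rw [this]
    exact h1.delete _

/-- The core is a minor. -/
theorem IsRegularExtension.not_isRegular {M M₀ : Matroid α} [M.Finite]
    {C D : Set α} (h : IsRegularExtension M M₀ C D) (h₀ : ¬ IsRegular M₀) : ¬ IsRegular M := by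
  intro hr
  apply h₀
  rw [h.2.2.2.1]
  exact (hr.delete _).contract _

theorem IsRegularExtension.atLeastOneRegular (hDu : SpecDual.{u}) {M M₀ : Matroid α} [M.Finite]
    {C D : Set α} (h : IsRegularExtension M M₀ C D) (hs : IsSimple M₀) (hs' : IsSimple M₀✶)
    (h₀ : AtLeastOneRegular M₀) : AtLeastOneRegular M := by
  refine ⟨h.not_isRegular h₀.1, fun e he => ?_⟩
  by_cases heD : e ∈ D
  · exact Or.inr (h.contract_of_mem hDu heD)
  by_cases heC : e ∈ C
  · left
    have h1 := ((h.dual hDu).contract_of_mem hDu heC).dual hDu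
    rwa [dual_contract_dual] at h1
  have he₀ : e ∈ M₀.E := by rw [h.ground]; exact ⟨⟨he, heD⟩, heC⟩
  by_cases hc : ∃ c ∈ C, IsSeries M c e
  · obtain ⟨c, hc, hce⟩ := hc
    left
    apply h.isRegular_delete hDu he₀ (h.series_mate hs' he₀ hc hce)
    intro d hd hde
    exact hde.not_isSeries hce (fun hcd => disjoint_left.1 h.2.2.1 hc (hcd ▸ hd))
  by_cases hd : ∃ d ∈ D, IsParallel M d e
  · obtain ⟨d, hd, hde⟩ := hd
    right
    apply h.isRegular_contract hDu he₀ (h.parallel_mate hDu hs he₀ hd hde)
    intro c hc hce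
    exact hde.not_isSeries hce (fun hcd => disjoint_left.1 h.2.2.1 hc (hcd ▸ hd))
  push Not at hc hd
  rcases h₀.2 e he₀ with h1 | h1
  · exact Or.inl (h.isRegular_delete hDu he₀ h1 hd)
  · exact Or.inr (h.isRegular_contract hDu he₀ h1 hc)

theorem ExactlyOneRegular.atLeastOneRegular {M : Matroid α} (h : ExactlyOneRegular M) :
    AtLeastOneRegular M :=
  ⟨h.1, fun e he => ((xor_iff_or_and_not_and _ _).1 (h.2 e he)).1⟩

/-- SP. -/
theorem specSP (hDu : SpecDual.{u}) : SpecSP.{u} := by
  intro α M _
  have h1 : AtLeastOneRegular M ↔ ∃ M₀ C D, IsRegularExtension M M₀ C D ∧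
        IsSimple M₀ ∧ IsSimple M₀✶ ∧ AtLeastOneRegular M₀ := by
    constructor
    · intro h
      exact exists_extension hDu _ M rfl h
    · rintro ⟨M₀, C, D, h, hs, hs', h₀⟩
      exact h.atLeastOneRegular hDu hs hs' h₀
  refine ⟨h1, ?_⟩
  constructor
  · intro h
    obtain ⟨M₀, C, D, hx, hs, hs', h₀⟩ := h1.1 h.atLeastOneRegular
    refine ⟨M₀, C, D, hx, hs, hs', h₀, fun e he hr1 hr2 => ?_⟩
    by_contra hc
    push Not at hc
    have he' : e ∈ M.E := by
      have := he
      rw [hx.ground] at this
      exact this.1.1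
    exact ((xor_iff_or_and_not_and _ _).1 (h.2 e he')).2
      ⟨hx.isRegular_delete hDu he hr1 hc.1, hx.isRegular_contract hDu he hr2 hc.2⟩
  · rintro ⟨M₀, C, D, hx, hs, hs', h₀, hb⟩
    have hM := hx.atLeastOneRegular hDu hs hs' h₀
    refine ⟨hM.1, fun e he => ?_⟩
    rw [xor_iff_or_and_not_and]
    refine ⟨hM.2 e he, fun hboth => ?_⟩
    have hnoP : ∀ d, ¬ IsParallel M e d := fun d hd =>
      not_isRegular_delete_of_isParallel hM.1 hd hboth.1
    have hnoS : ∀ d, ¬ IsSeries M e d := fun d hd =>
      not_isRegular_contract_of_isSeries hDu hM.1 hd hboth.2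
    by_cases heD : e ∈ D
    · obtain ⟨f, _, hp, _⟩ := hx.2.2.2.2.1 e heD
      exact hnoP f hp
    by_cases heC : e ∈ C
    · obtain ⟨f, _, hp, _⟩ := hx.2.2.2.2.2 e heC
      exact hnoS f hp
    have he₀ : e ∈ M₀.E := by rw [hx.ground]; exact ⟨⟨he, heD⟩, heC⟩
    have hr1 : IsRegular (M₀.delete {e}) := by
      rw [hx.delete_eq he₀]
      exact (hboth.1.delete _).contract _
    have hr2 : IsRegular (M₀.contract {e}) := by
      rw [hx.contract_eq he₀]
      exact (hboth.2.delete _).contract _
    rcases hb e he₀ hr1 hr2 with ⟨d, _, hd⟩ | ⟨c, _, hc⟩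
    · exact hnoP d hd.symm
    · exact hnoS c hc.symm

end MP948082
end
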