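import Pool.Agent.Lib.MP_948082_co.Spec

/-!
# MP_948082_co : specifications, second part: the explicit description by ±1 matrices

The circuit-hyperplane/relaxation pairs `(N, M)` (`N` binary, `M` ternary) are exactly the pairs given
by matrices `W` with entries `±1` all of whose minors of order `k + 1` are `0` or `±2 ^ k`:
`M` is the rational matroid of `(I | W)` and `N` has the same bases except the base `Y` of the
identity part.
-/

open Set

namespace MP948082

universe u

/-- PMA. -/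
def SpecPMA : Prop :=
  ∀ (α : Type u) (N M : Matroid α) [N.Finite] (Y : Set α), Representable F2 N →
    IsCircuitHyperplane N Y → IsRelaxation M N Y → Representable F3 M →
    ∃ W, IsPMMatroid M Y W

/-- PMB. -/
def SpecPMB : Prop :=
  ∀ (α : Type u) (N M : Matroid α) [N.Finite] (Y : Set α) (W : α → α → ℤ), IsPMMatroid M Y W →
    IsRelaxation M N Y → ¬ N.IsBase Y →
    Representable F2 N ∧ IsCircuitHyperplane N Y ∧ Representable F3 M

/-- PMEXISTS. Every matrix gives such a pair. -/
def SpecPMExists : Prop :=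
  ∀ (α : Type u) (Y X : Set α) (W : α → α → ℤ), Y.Finite → X.Finite → Disjoint Y X →
    Y.Nonempty → X.Nonempty → IsPM Y X W →
    ∃ M N : Matroid α, M.E = Y ∪ X ∧ IsPMMatroid M Y W ∧ IsRelaxation M N Y ∧ ¬ N.IsBase Y

/-- FANOSUB. -/
def SpecFanoSub : Prop :=
  ∀ (α : Type u) (N : Matroid α) [N.Finite] (Y : Set α) (W : α → α → ℤ), IsTightened N Y W →
    (¬ IsRegular N ↔ HasFano Y (N.E \ Y) W)

/-- PMREMOVE. -/
def SpecPMRemove : Prop :=
  ∀ (α : Type u) (N : Matroid α) [N.Finite] (Y : Set α) (W : α → α → ℤ), IsTightened N Y W →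
    (∀ y ∈ Y, (¬ IsRegular (N.contract {y}) ↔ HasFano (Y \ {y}) (N.E \ Y) W)) ∧
    (∀ x ∈ N.E \ Y, (¬ IsRegular (N.delete {x}) ↔ HasFano Y ((N.E \ Y) \ {x}) W))

/-- PMNONBIN. -/
def SpecPMNonBin : Prop :=
  ∀ (α : Type u) (M : Matroid α) [M.Finite] (Y : Set α) (W : α → α → ℤ), IsPMMatroid M Y W →
    IsSimple M → IsSimple M✶ →
    ¬ Representable F2 M ∧ (ExactlyOneRegular M ↔ 5 ≤ M.E.encard)

end MP948082
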