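import Pool.Agent.Lib.MP_948082_co.Dual
import Pool.Agent.Lib.MP_948082_co.SpecTutte

section
/-!
# MP_948082_co : coordinates with respect to a base, pivoting
-/
open Set Submodule

namespace MP948082

namespace COORD

universe u

variable {α : Type u} {M : Matroid α} {B I X Y : Set α} {e r r' c c' : α}

/-! ### Closure of intersections, pivoting (all matroids) -/

lemma mem_closure_inter (hI : M.Indep I) (hX : X ⊆ I) (hY : Y ⊆ I) (h1 : e ∈ M.closure X)
    (h2 : e ∈ M.closure Y) : e ∈ M.closure (X ∩ Y) := by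
  rw [(hI.subset (union_subset hX hY)).closure_inter_eq_inter_closure]
  exact ⟨h1, h2⟩

lemma adj_iff (hB : M.IsBase B) :
    Adj M B r c ↔ r ∈ B ∧ c ∈ M.E ∧ c ∉ B ∧ c ∉ M.closure (B \ {r}) := by
  constructor
  · rintro ⟨h1, h2, h3, h4⟩
    refine ⟨h1, h2, h3, ?_⟩
    have h5 : M.Indep (B \ {r}) := hB.indep.sdiff _
    have h6 : c ∉ B \ {r} := fun h => h3 h.1
    have h7 := (h5.insert_indep_iff_of_notMem h6).1 h4.indep
    exact h7.2
  · rintro ⟨h1, h2, h3, h4⟩
    exact ⟨h1, h2, h3, hB.exchange_base_of_notMem_closure h1 h4 h2⟩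

lemma adj_iff_indep (hB : M.IsBase B) :
    Adj M B r c ↔ r ∈ B ∧ c ∈ M.E ∧ c ∉ B ∧ M.Indep (insert c (B \ {r})) := by
  constructor
  · rintro ⟨h1, h2, h3, h4⟩
    exact ⟨h1, h2, h3, h4.indep⟩
  · rintro ⟨h1, h2, h3, h4⟩
    exact ⟨h1, h2, h3, hB.exchange_isBase_of_indep h3 h4⟩

lemma not_adj_iff (hB : M.IsBase B) (hr : r ∈ B) (hc : c ∈ M.E) (hcB : c ∉ B) :
    ¬ Adj M B r c ↔ c ∈ M.closure (B \ {r}) := by
  rw [adj_iff hB]
  constructor
  · intro h
    by_contra h2
    exact h ⟨hr, hc, hcB, h2⟩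
  · rintro h ⟨-, -, -, h2⟩
    exact h2 h

lemma pivot_base (h1 : Adj M B r c) : M.IsBase (insert c (B \ {r})) := h1.2.2.2

lemma pivot_row (h1 : Adj M B r c) (hr' : r' ∈ B) (hne : r' ≠ r) : r' ∈ insert c (B \ {r}) :=
  mem_insert_of_mem _ ⟨hr', hne⟩

lemma pivot_notMem (hcB : c' ∉ B) (hne : c' ≠ c) : c' ∉ insert c (B \ {r}) := by
  rintro (h | h)
  · exact hne h
  · exact hcB h.1

lemma pivot_diff (h1 : Adj M B r c) (hr' : r' ∈ B) (hne : r' ≠ r) :
    insert c (B \ {r}) \ {r'} = insert c (B \ {r, r'}) := by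
  have hcr : c ≠ r' := fun h => h1.2.2.1 (h ▸ hr')
  ext e
  simp only [mem_sdiff, mem_insert_iff, mem_singleton_iff]
  constructor
  · rintro ⟨h | h, h2⟩
    · exact Or.inl h
    · exact Or.inr ⟨h.1, by rintro (h3 | h3); exacts [h.2 h3, h2 h3]⟩
  · rintro (h | h)
    · exact ⟨Or.inl h, by rw [h]; exact hcr⟩
    · exact ⟨Or.inr ⟨h.1, fun h3 => h.2 (Or.inl h3)⟩, fun h3 => h.2 (Or.inr h3)⟩

/-- the pivot entry is unchanged if the entry `(r', c)` is zero -/
lemma pivot_adj (hB : M.IsBase B) (h1 : Adj M B r c) (h2 : Adj M B r' c')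
    (h3 : ¬ Adj M B r' c) (hr : r' ≠ r) (hc : c' ≠ c) : Adj M (insert c (B \ {r})) r' c' := by
  rw [adj_iff (pivot_base h1)]
  refine ⟨pivot_row h1 h2.1 hr, h2.2.1, pivot_notMem h2.2.2.1 hc, ?_⟩
  rw [pivot_diff h1 h2.1 hr]
  have h4 : c ∈ M.closure (B \ {r'}) := (not_adj_iff hB h2.1 h1.2.1 h1.2.2.1).1 h3
  have h5 : insert c (B \ {r, r'}) ⊆ M.closure (B \ {r'}) := by
    apply insert_subset h4
    refine Subset.trans ?_ (M.subset_closure (B \ {r'}) (sdiff_subset.trans hB.subset_ground))
    intro e he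
    exact ⟨he.1, fun h => he.2 (Or.inr h)⟩
  intro h6
  exact ((adj_iff hB).1 h2).2.2.2 (M.closure_subset_closure_of_subset_closure h5 h6)

/-- the pivot entry is unchanged if the entry `(r, c')` is zero -/
lemma pivot_adj' (hB : M.IsBase B) (h1 : Adj M B r c) (h2 : Adj M B r' c')
    (h3 : ¬ Adj M B r c') (hr : r' ≠ r) (hc : c' ≠ c) : Adj M (insert c (B \ {r})) r' c' := by
  rw [adj_iff (pivot_base h1)]
  refine ⟨pivot_row h1 h2.1 hr, h2.2.1, pivot_notMem h2.2.2.1 hc, ?_⟩
  rw [pivot_diff h1 h2.1 hr]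
  have h4 : c' ∈ M.closure (B \ {r}) := (not_adj_iff hB h1.1 h2.2.1 h2.2.2.1).1 h3
  intro h6
  have h7 := mem_closure_inter (pivot_base h1).indep
    (X := insert c (B \ {r, r'})) (Y := B \ {r})
    (insert_subset_insert (sdiff_subset_sdiff_right (by intro e he; exact Or.inl he)))
    (subset_insert _ _) h6 h4
  have h8 : insert c (B \ {r, r'}) ∩ (B \ {r}) ⊆ B \ {r'} := by
    rintro e ⟨he | he, he2⟩
    · exact absurd he2.1 (he ▸ h1.2.2.1)
    · exact ⟨he.1, fun h => he.2 (Or.inr h)⟩
  exact ((adj_iff hB).1 h2).2.2.2 (M.closure_subset_closure h8 h7)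

/-- the pivot entry is nonzero if the other three entries are nonzero and it is zero -/
lemma pivot_adj'' (hB : M.IsBase B) (h1 : Adj M B r c) (h2 : Adj M B r' c)
    (h3 : Adj M B r c') (h4 : ¬ Adj M B r' c') (hr : r' ≠ r) (hc : c' ≠ c) :
    Adj M (insert c (B \ {r})) r' c' := by
  rw [adj_iff (pivot_base h1)]
  refine ⟨pivot_row h1 h2.1 hr, h3.2.1, pivot_notMem h3.2.2.1 hc, ?_⟩
  rw [pivot_diff h1 h2.1 hr]
  have h5 : c' ∈ M.closure (B \ {r'}) := (not_adj_iff hB h2.1 h3.2.1 h3.2.2.1).1 h4
  intro h6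
  have h7 := mem_closure_inter (pivot_base h2).indep
    (X := insert c (B \ {r, r'})) (Y := B \ {r'})
    (insert_subset_insert (sdiff_subset_sdiff_right (by intro e he; exact Or.inr he)))
    (subset_insert _ _) h6 h5
  have h8 : insert c (B \ {r, r'}) ∩ (B \ {r'}) ⊆ B \ {r} := by
    rintro e ⟨he | he, he2⟩
    · exact absurd he2.1 (he ▸ h1.2.2.1)
    · exact ⟨he.1, fun h => he.2 (Or.inl h)⟩
  exact ((adj_iff hB).1 h3).2.2.2 (M.closure_subset_closure h8 h7)

/-! ### Coordinates -/

variable {F : Type*} [Field F] {V : Type*} [AddCommGroup V] [Module F V] {v : α → V}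

/-- the basis of `V` given by a base of the matroid -/
noncomputable def bs (h : IsRep F M v) (hs : span F (v '' M.E) = ⊤) (hB : M.IsBase B) :
    Module.Basis B F V :=
  Module.Basis.mk (v := fun i : B => v i) ((h.isBase_iff hs).1 hB).2.1
    (by rw [← ((h.isBase_iff hs).1 hB).2.2, image_eq_range])

lemma bs_apply (h : IsRep F M v) (hs : span F (v '' M.E) = ⊤) (hB : M.IsBase B) (i : B) :
    bs h hs hB i = v i := by
  simp [bs]

lemma mem_span_iff (h : IsRep F M v) (hs : span F (v '' M.E) = ⊤) (hB : M.IsBase B)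
    (hX : X ⊆ B) (w : V) :
    w ∈ span F (v '' X) ↔ ∀ i : B, (i : α) ∉ X → (bs h hs hB).repr w i = 0 := by
  have e : v '' X = (bs h hs hB) '' {i : B | (i : α) ∈ X} := by
    ext y
    constructor
    · rintro ⟨a, ha, rfl⟩
      exact ⟨⟨a, hX ha⟩, ha, bs_apply h hs hB _⟩
    · rintro ⟨i, hi, rfl⟩
      exact ⟨i, hi, (bs_apply h hs hB _).symm⟩
  rw [e, Module.Basis.mem_span_image]
  constructor
  · intro h1 i hi
    by_contra h2
    exact hi (h1 (Finsupp.mem_support_iff.2 h2))
  · intro h1 i hi
    by_contra h2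
    exact (Finsupp.mem_support_iff.1 hi) (h1 i h2)

lemma adj_iff_repr (h : IsRep F M v) (hs : span F (v '' M.E) = ⊤) (hB : M.IsBase B)
    (hr : r ∈ B) (hc : c ∈ M.E) (hcB : c ∉ B) :
    Adj M B r c ↔ (bs h hs hB).repr (v c) ⟨r, hr⟩ ≠ 0 := by
  rw [← not_iff_not, not_adj_iff hB hr hc hcB,
    h.mem_closure_iff (sdiff_subset.trans hB.subset_ground) hc,
    mem_span_iff h hs hB sdiff_subset]
  rw [not_not]
  constructor
  · intro h1
    exact h1 ⟨r, hr⟩ (by simp)
  · intro h1 i hi
    have : i = ⟨r, hr⟩ := by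
      ext
      by_contra h2
      exact hi ⟨i.2, h2⟩
    rw [this]
    exact h1

lemma F2_eq_one {a : F2} (h : a ≠ 0) : a = 1 := by
  revert a; decide

/-- the two by two block of ones is singular over the field with two elements -/
lemma bin_mem_closure (hM : M.Finite) (hrep : Representable F2 M) (hB : M.IsBase B)
    (h1 : Adj M B r c) (h2 : Adj M B r' c) (h3 : Adj M B r c') (h4 : Adj M B r' c') :
    c' ∈ M.closure (insert c (B \ {r, r'})) := by
  obtain ⟨n, v, h, hs⟩ := hrep.exists_spanning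
  have hsub : insert c (B \ {r, r'}) ⊆ M.E :=
    insert_subset h1.2.1 (sdiff_subset.trans hB.subset_ground)
  rw [h.mem_closure_iff hsub h3.2.1]
  have e1 := F2_eq_one ((adj_iff_repr h hs hB h1.1 h1.2.1 h1.2.2.1).1 h1)
  have e2 := F2_eq_one ((adj_iff_repr h hs hB h2.1 h2.2.1 h2.2.2.1).1 h2)
  have e3 := F2_eq_one ((adj_iff_repr h hs hB h3.1 h3.2.1 h3.2.2.1).1 h3)
  have e4 := F2_eq_one ((adj_iff_repr h hs hB h4.1 h4.2.1 h4.2.2.1).1 h4)
  have h5 : v c' - v c ∈ span F2 (v '' (B \ {r, r'})) := by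
    rw [mem_span_iff h hs hB sdiff_subset]
    intro i hi
    rw [map_sub, Finsupp.sub_apply]
    by_cases hir : (i : α) = r
    · have : i = ⟨r, h1.1⟩ := Subtype.ext hir
      rw [this, e1, e3, sub_self]
    · by_cases hir' : (i : α) = r'
      · have : i = ⟨r', h2.1⟩ := Subtype.ext hir'
        rw [this, e2, e4, sub_self]
      · exact absurd ⟨i.2, by rintro (h | h); exacts [hir h, hir' h]⟩ hi
  have h6 : v c' = (v c' - v c) + v c := by abel
  rw [h6]
  refine add_mem (span_mono (image_mono (subset_insert _ _)) h5) (subset_span ?_)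
  exact ⟨c, mem_insert _ _, rfl⟩

end COORD

end MP948082
end

section
/-!
# MP_948082_co : module PATH
-/
open Set Submodule

namespace MP948082

universe u

namespace PATH

open COORD

variable {α : Type u} {M N : Matroid α} {B I X Y : Set α} {a b e r r' c c' x y : α}

/-- the situation of PATH -/
structure Cfg (M N : Matroid α) (x y : α) : Prop where
  ne : x ≠ y
  hx : x ∈ M.E
  hy : y ∈ M.E
  ground : N.E = M.E
  agree : ∀ I, (x ∉ I ∨ y ∉ I) → (M.Indep I ↔ N.Indep I)

lemma Cfg.symm (h : Cfg M N x y) : Cfg M N y x :=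
  ⟨h.ne.symm, h.hy, h.hx, h.ground, fun I hI => h.agree I hI.symm⟩

lemma notMem_insert_or (h : x ≠ y) (hx : x ∉ I) (hy : y ∉ I) : x ∉ insert e I ∨ y ∉ insert e I := by
  by_cases hex : e = x
  · right
    rintro (h1 | h1)
    · exact h (hex.symm.trans h1.symm)
    · exact hy h1
  · left
    rintro (h1 | h1)
    · exact hex h1.symm
    · exact hx h1

lemma Cfg.mem_closure (h : Cfg M N x y) (hI : M.Indep I) (hx : x ∉ I) (hy : y ∉ I)
    (he : e ∈ M.E) : e ∈ M.closure I ↔ e ∈ N.closure I := by
  have hIN : N.Indep I := (h.agree I (Or.inl hx)).1 hI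
  have heN : e ∈ N.E := h.ground ▸ he
  rw [← not_iff_not, hI.notMem_closure_iff he, hIN.notMem_closure_iff heN,
    h.agree _ (notMem_insert_or h.ne hx hy)]

lemma Cfg.base (h : Cfg M N x y) (hB : M.IsBase B) (hx : x ∉ B) (hy : y ∉ B) : N.IsBase B := by
  have hIN : N.Indep B := (h.agree B (Or.inl hx)).1 hB.indep
  rw [hIN.isBase_iff_ground_subset_closure]
  intro e he
  have he' : e ∈ M.E := h.ground ▸ he
  rw [← h.mem_closure hB.indep hx hy he', hB.closure_eq]
  exact he'

lemma Cfg.adj (h : Cfg M N x y) (hB : M.IsBase B) (hx : x ∉ B) (hy : y ∉ B) :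
    Adj M B r c ↔ Adj N B r c := by
  rw [adj_iff_indep hB, adj_iff_indep (h.base hB hx hy), h.ground,
    h.agree _ (notMem_insert_or h.ne (fun h => hx h.1) (fun h => hy h.1))]

/-- pivoting keeps the set `T` independent -/
lemma T_of_pivot (hT : N.Indep (insert x (insert y (B \ {a, b})))) (hrx : r ≠ x) (hry : r ≠ y)
    (hca : c ≠ a) (hcb : c ≠ b) (hcE : c ∈ N.E)
    (hcl : c ∉ N.closure ((insert x (insert y (B \ {a, b}))) \ {r})) :
    N.Indep (insert x (insert y ((insert c (B \ {r})) \ {a, b}))) := by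
  have h1 := ((hT.sdiff {r}).notMem_closure_iff hcE).1 hcl
  refine h1.1.subset ?_
  intro e he
  simp only [mem_insert_iff, mem_sdiff, mem_singleton_iff] at he ⊢
  rcases he with he | he | he
  · right; exact ⟨Or.inl he, by rw [he]; exact fun h => hrx h.symm⟩
  · right; exact ⟨Or.inr (Or.inl he), by rw [he]; exact fun h => hry h.symm⟩
  · rcases he.1 with h2 | h2
    · left; exact h2
    · right; exact ⟨Or.inr (Or.inr ⟨h2.1, he.2⟩), h2.2⟩

/-- path of length one -/
lemma case1 (h : Cfg M N x y) [hf : M.Finite] (hrep : Representable F2 M) (hB : M.IsBase B)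
    (hx : x ∉ B) (hy : y ∉ B) (hab : a ≠ b) (hcx : c ≠ x) (hcy : c ≠ y)
    (ax : Adj M B a x) (ay : Adj M B a y) (bx : Adj M B b x) (by' : Adj M B b y)
    (ac : Adj M B a c) (bc : Adj M B b c) :
    ¬ N.Indep (insert x (insert y (B \ {a, b}))) := by
  intro hT
  have hx1 : x ∈ M.closure (insert c (B \ {a, b})) := bin_mem_closure hf hrep hB ac bc ax bx
  have hy1 : y ∈ M.closure (insert c (B \ {a, b})) := bin_mem_closure hf hrep hB ac bc ay by'
  have hJ : M.Indep (insert c (B \ {a, b})) := by
    refine (pivot_base ac).indep.subset (insert_subset_insert ?_)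
    intro e he
    exact ⟨he.1, fun h => he.2 (Or.inl h)⟩
  have hxJ : x ∉ insert c (B \ {a, b}) := by
    rintro (h1 | h1)
    · exact hcx h1.symm
    · exact hx h1.1
  have hyJ : y ∉ insert c (B \ {a, b}) := by
    rintro (h1 | h1)
    · exact hcy h1.symm
    · exact hy h1.1
  rw [h.mem_closure hJ hxJ hyJ h.hx] at hx1
  rw [h.mem_closure hJ hxJ hyJ h.hy] at hy1
  have hNB := h.base hB hx hy
  have ax' := ((adj_iff hNB).1 ((h.adj hB hx hy).1 ax)).2.2.2
  have hsub : B \ {a, b} ⊆ B \ {a} := by
    intro e he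
    exact ⟨he.1, fun h => he.2 (Or.inl h)⟩
  have hx2 : x ∉ N.closure (B \ {a, b}) := fun h1 => ax' (N.closure_subset_closure hsub h1)
  have hc : c ∈ N.closure (insert x (B \ {a, b})) := Matroid.mem_closure_insert hx2 hx1
  have hy2 : y ∈ N.closure (insert x (B \ {a, b})) := by
    refine N.closure_subset_closure_of_subset_closure ?_ hy1
    apply insert_subset hc
    refine (subset_insert x _).trans (N.subset_closure _ ?_)
    exact insert_subset (h.ground ▸ h.hx) (sdiff_subset.trans hNB.subset_ground)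
  rw [insert_comm] at hT
  have hyT : y ∉ insert x (B \ {a, b}) := by
    rintro (h1 | h1)
    · exact h.ne h1.symm
    · exact hy h1.1
  exact (((hT.subset (subset_insert _ _)).insert_indep_iff_of_notMem hyT).1 hT).2 hy2

/-- an interior row adjacent to both `x` and `y` -/
lemma caseBoth (h : Cfg M N x y) (hB : M.IsBase B)
    (hx : x ∉ B) (hy : y ∉ B) (hab : a ≠ b) (hra : r ≠ a) (hrb : r ≠ b)
    (ha : a ∈ B) (hb : b ∈ B) (rx : Adj M B r x)
    (h1 : ¬ N.Indep (insert x (insert y (B \ {a, r}))))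
    (h2 : ¬ N.Indep (insert x (insert y (B \ {r, b})))) :
    ¬ N.Indep (insert x (insert y (B \ {a, b}))) := by
  intro hT
  have hNB := h.base hB hx hy
  have hr : r ∈ B := rx.1
  have hxE : x ∈ N.E := h.ground ▸ h.hx
  have hyE : y ∈ N.E := h.ground ▸ h.hy
  set J := B \ {a, b, r} with hJ
  have hJB : J ⊆ B := sdiff_subset
  have hJE : J ⊆ N.E := hJB.trans hNB.subset_ground
  have hI : N.Indep (insert x (insert y J)) := by
    refine hT.subset (insert_subset_insert (insert_subset_insert ?_))
    intro e he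
    exact ⟨he.1, fun h => he.2 (by rcases h with h | h; exacts [Or.inl h, Or.inr (Or.inl h)])⟩
  have haJ : a ∉ J := fun h => h.2 (Or.inl rfl)
  have hbJ : b ∉ J := fun h => h.2 (Or.inr (Or.inl rfl))
  have hax : a ≠ x := fun h => hx (h ▸ ha)
  have hay : a ≠ y := fun h => hy (h ▸ ha)
  have hbx : b ≠ x := fun h => hx (h ▸ hb)
  have hby : b ≠ y := fun h => hy (h ▸ hb)
  have e1 : insert x (insert y (B \ {a, r})) = insert b (insert x (insert y J)) := by
    ext e
    simp only [hJ, mem_insert_iff, mem_sdiff, mem_singleton_iff]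
    constructor
    · rintro (h | h | h)
      · tauto
      · tauto
      · by_cases heb : e = b
        · tauto
        · tauto
    · rintro (h | h | h | h)
      · subst h
        right; right
        exact ⟨hb, by rintro (h | h); exacts [hab h.symm, hrb h.symm]⟩
      · tauto
      · tauto
      · tauto
  have e2 : insert x (insert y (B \ {r, b})) = insert a (insert x (insert y J)) := by
    ext e
    simp only [hJ, mem_insert_iff, mem_sdiff, mem_singleton_iff]
    constructor
    · rintro (h | h | h)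
      · tauto
      · tauto
      · by_cases heb : e = a
        · tauto
        · tauto
    · rintro (h | h | h | h)
      · subst h
        right; right
        exact ⟨ha, by rintro (h | h); exacts [hra h.symm, hab h]⟩
      · tauto
      · tauto
      · tauto
  have hbI : b ∈ N.closure (insert x (insert y J)) := by
    by_contra hc
    rw [e1] at h1
    exact h1 ((hI.notMem_closure_iff (hNB.subset_ground hb)).1 hc).1
  have haI : a ∈ N.closure (insert x (insert y J)) := by
    by_contra hc
    rw [e2] at h2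
    exact h2 ((hI.notMem_closure_iff (hNB.subset_ground ha)).1 hc).1
  have hxr : x ∉ N.closure (B \ {r}) := ((adj_iff hNB).1 ((h.adj hB hx hy).1 rx)).2.2.2
  have s1 : insert b J ⊆ B \ {r} := by
    rintro e (he | he)
    · subst he; exact ⟨hb, fun h => hrb h.symm⟩
    · exact ⟨he.1, fun h => he.2 (Or.inr (Or.inr h))⟩
  have s2 : insert a (insert b J) ⊆ B \ {r} := by
    rintro e (he | he)
    · subst he; exact ⟨ha, fun h => hra h.symm⟩
    · exact s1 he
  have hbJc : b ∉ N.closure J := by
    intro hc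
    have : J ⊆ B \ {b} := fun e he => ⟨he.1, fun h => he.2 (Or.inr (Or.inl h))⟩
    exact hNB.indep.notMem_closure_sdiff_of_mem hb (N.closure_subset_closure this hc)
  have hbx : b ∉ N.closure (insert x J) := by
    intro hc
    have := Matroid.mem_closure_insert hbJc hc
    exact hxr (N.closure_subset_closure s1 this)
  have hyx : y ∈ N.closure (insert b (insert x J)) := by
    apply Matroid.mem_closure_insert hbx
    rwa [insert_comm y x J]
  have haa : a ∈ N.closure (insert x (insert b J)) := by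
    refine N.closure_subset_closure_of_subset_closure ?_ haI
    have s3 : insert x (insert b J) ⊆ N.closure (insert x (insert b J)) :=
      N.subset_closure _ (insert_subset hxE (insert_subset (hNB.subset_ground hb) hJE))
    apply insert_subset (s3 (mem_insert _ _))
    apply insert_subset
    · rw [insert_comm x b J]; exact hyx
    · exact fun e he => s3 (mem_insert_of_mem _ (mem_insert_of_mem _ he))
  have haJc : a ∉ N.closure (insert b J) := by
    intro hc
    have : insert b J ⊆ B \ {a} := by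
      rintro e (he | he)
      · subst he; exact ⟨hb, fun h => hab h.symm⟩
      · exact ⟨he.1, fun h => he.2 (Or.inl h)⟩
    exact hNB.indep.notMem_closure_sdiff_of_mem ha (N.closure_subset_closure this hc)
  have := Matroid.mem_closure_insert haJc haa
  exact hxr (N.closure_subset_closure s2 this)

/-- the seven points -/
lemma P_cases : ∀ p : P, p ≠ 0 → p = ![1, 0, 0] ∨ p = ![0, 1, 0] ∨ p = ![0, 0, 1] ∨
    p = ![1, 1, 1] ∨ p = ![1, 0, 1] ∨ p = ![1, 1, 0] ∨ p = ![0, 1, 1] := by
  decide

/-- the Fano configuration -/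
lemma caseF7 [M.Finite] (hrep : Representable F2 M) (hB : M.IsBase B) (hab : a ≠ b)
    (hra : r ≠ a) (hrb : r ≠ b) {c₁ c₂ : α}
    (a1 : Adj M B a c₁) (r1 : Adj M B r c₁) (b1 : ¬ Adj M B b c₁)
    (a2 : ¬ Adj M B a c₂) (r2 : Adj M B r c₂) (b2 : Adj M B b c₂)
    (ax : Adj M B a x) (rx : Adj M B r x) (bx : Adj M B b x)
    (ay : Adj M B a y) (ry : ¬ Adj M B r y) (by' : Adj M B b y) : HasF7 M := by
  classical
  obtain ⟨n, v, h, hs⟩ := hrep.exists_spanning
  have ha := a1.1
  have hb := b2.1
  have hr := r1.1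
  set β := bs h hs hB with hβ
  set π : (Fin n → F2) →ₗ[F2] P :=
    LinearMap.pi ![β.coord ⟨a, ha⟩, β.coord ⟨r, hr⟩, β.coord ⟨b, hb⟩] with hπ
  have hπ0 : ∀ w, π w 0 = β.repr w ⟨a, ha⟩ := fun w => rfl
  have hπ1 : ∀ w, π w 1 = β.repr w ⟨r, hr⟩ := fun w => rfl
  have hπ2 : ∀ w, π w 2 = β.repr w ⟨b, hb⟩ := fun w => rfl
  set z : P → α := fun p => if p = ![1, 0, 0] then a else if p = ![0, 1, 0] then r else
    if p = ![0, 0, 1] then b else if p = ![1, 1, 1] then x else if p = ![1, 0, 1] then y else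
    if p = ![1, 1, 0] then c₁ else c₂ with hz
  have hz1 : z ![1, 0, 0] = a := by simp [hz]
  have hz2 : z ![0, 1, 0] = r := by
    simp only [hz]; rw [if_neg (by decide), if_pos trivial]
  have hz3 : z ![0, 0, 1] = b := by
    simp only [hz]; rw [if_neg (by decide), if_neg (by decide), if_pos trivial]
  have hz4 : z ![1, 1, 1] = x := by
    simp only [hz]; rw [if_neg (by decide), if_neg (by decide), if_neg (by decide), if_pos trivial]
  have hz5 : z ![1, 0, 1] = y := by
    simp only [hz]; rw [if_neg (by decide), if_neg (by decide), if_neg (by decide),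
      if_neg (by decide), if_pos trivial]
  have hz6 : z ![1, 1, 0] = c₁ := by
    simp only [hz]; rw [if_neg (by decide), if_neg (by decide), if_neg (by decide),
      if_neg (by decide), if_neg (by decide), if_pos trivial]
  have hz7 : z ![0, 1, 1] = c₂ := by
    simp only [hz]; rw [if_neg (by decide), if_neg (by decide), if_neg (by decide),
      if_neg (by decide), if_neg (by decide), if_neg (by decide)]
  have one : ∀ {s d : α} (hsd : Adj M B s d) (hs' : s ∈ B), β.repr (v d) ⟨s, hs'⟩ = 1 :=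
    fun hsd hs' => F2_eq_one ((adj_iff_repr h hs hB hs' hsd.2.1 hsd.2.2.1).1 hsd)
  have zero : ∀ {s d : α} (hsd : ¬ Adj M B s d) (hs' : s ∈ B) (hd : d ∈ M.E) (hdB : d ∉ B),
      β.repr (v d) ⟨s, hs'⟩ = 0 := by
    intro s d hsd hs' hd hdB
    by_contra hne
    exact hsd ((adj_iff_repr h hs hB hs' hd hdB).2 hne)
  have bas : ∀ {s d : α} (hs' : s ∈ B) (hd : d ∈ B), β.repr (v d) ⟨s, hs'⟩ = if s = d then 1 else 0 := by
    intro s d hs' hd
    have : v d = β ⟨d, hd⟩ := (bs_apply h hs hB ⟨d, hd⟩).symm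
    rw [this, Module.Basis.repr_self, Finsupp.single_apply]
    by_cases hsd : s = d
    · subst hsd; simp
    · rw [if_neg, if_neg hsd]
      intro h3
      exact hsd (congrArg Subtype.val h3).symm
  refine ⟨n, v, B \ {a, r, b}, z, h, sdiff_subset.trans hB.subset_ground, ?_, π, ?_, ?_⟩
  · intro p hp
    rcases P_cases p hp with rfl | rfl | rfl | rfl | rfl | rfl | rfl
    · rw [hz1]; exact hB.subset_ground ha
    · rw [hz2]; exact hB.subset_ground hr
    · rw [hz3]; exact hB.subset_ground hb
    · rw [hz4]; exact ax.2.1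
    · rw [hz5]; exact ay.2.1
    · rw [hz6]; exact a1.2.1
    · rw [hz7]; exact b2.2.1
  · ext w
    rw [LinearMap.mem_ker, mem_span_iff h hs hB sdiff_subset]
    constructor
    · intro hw i hi
      by_cases h1 : (i : α) = a
      · have : i = ⟨a, ha⟩ := Subtype.ext h1
        rw [this]; exact (hπ0 w).symm.trans (congrFun hw 0)
      · by_cases h2 : (i : α) = r
        · have : i = ⟨r, hr⟩ := Subtype.ext h2
          rw [this]; exact (hπ1 w).symm.trans (congrFun hw 1)
        · by_cases h3 : (i : α) = b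
          · have : i = ⟨b, hb⟩ := Subtype.ext h3
            rw [this]; exact (hπ2 w).symm.trans (congrFun hw 2)
          · exact absurd ⟨i.2, by rintro (h | h | h); exacts [h1 h, h2 h, h3 h]⟩ hi
    · intro hw
      ext i
      fin_cases i
      · exact (hπ0 w).trans (hw ⟨a, ha⟩ (fun h => h.2 (Or.inl rfl)))
      · exact (hπ1 w).trans (hw ⟨r, hr⟩ (fun h => h.2 (Or.inr (Or.inl rfl))))
      · exact (hπ2 w).trans (hw ⟨b, hb⟩ (fun h => h.2 (Or.inr (Or.inr rfl))))
  · intro p hp
    have key : ∀ (w : Fin n → F2) (p0 p1 p2 : F2), β.repr w ⟨a, ha⟩ = p0 → β.repr w ⟨r, hr⟩ = p1 →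
        β.repr w ⟨b, hb⟩ = p2 → π w = ![p0, p1, p2] := by
      intro w p0 p1 p2 e0 e1 e2
      ext i
      fin_cases i
      · exact (hπ0 w).trans e0
      · exact (hπ1 w).trans e1
      · exact (hπ2 w).trans e2
    rcases P_cases p hp with rfl | rfl | rfl | rfl | rfl | rfl | rfl
    · rw [hz1]
      apply key
      · rw [bas ha ha, if_pos rfl]
      · rw [bas hr ha, if_neg hra]
      · rw [bas hb ha, if_neg hab.symm]
    · rw [hz2]
      apply key
      · rw [bas ha hr, if_neg hra.symm]
      · rw [bas hr hr, if_pos rfl]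
      · rw [bas hb hr, if_neg hrb.symm]
    · rw [hz3]
      apply key
      · rw [bas ha hb, if_neg hab]
      · rw [bas hr hb, if_neg hrb]
      · rw [bas hb hb, if_pos rfl]
    · rw [hz4]
      exact key _ _ _ _ (one ax ha) (one rx hr) (one bx hb)
    · rw [hz5]
      exact key _ _ _ _ (one ay ha) (zero ry hr ay.2.1 ay.2.2.1) (one by' hb)
    · rw [hz6]
      exact key _ _ _ _ (one a1 ha) (one r1 hr) (zero b1 hb a1.2.1 a1.2.2.1)
    · rw [hz7]
      exact key _ _ _ _ (zero a2 ha b2.2.1 b2.2.2.1) (one r2 hr) (one b2 hb)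

/-- paths of length `n` with columns outside `K` -/
def Pth (M : Matroid α) (B K : Set α) : ℕ → α → α → Prop
  | 0, a, b => a = b
  | n + 1, a, b => ∃ r c, c ∉ K ∧ Adj M B a c ∧ Adj M B r c ∧ Pth M B K n r b

lemma transfer {K : Set α} (hB : M.IsBase B) {s d : α} (hsd : Adj M B s d) {b : α} :
    ∀ (n : ℕ) (a : α), a ≠ s → Pth M B K n a b →
      Pth M (insert d (B \ {s})) K n a b ∨ ∃ m ≤ n, Pth M B K m s b := by
  intro n
  induction n with
  | zero =>
    intro a _ h
    exact Or.inl h
  | succ n ih =>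
    rintro a ha ⟨r, c, hc, h1, h2, h3⟩
    by_cases hs : Adj M B s c
    · exact Or.inr ⟨n + 1, le_rfl, r, c, hc, hs, h2, h3⟩
    by_cases hr : r = s
    · subst hr
      exact Or.inr ⟨n, Nat.le_succ n, h3⟩
    have hcd : c ≠ d := fun h => hs (h ▸ hsd)
    rcases ih r hr h3 with h4 | ⟨m, hm, h4⟩
    · exact Or.inl ⟨r, c, hc, pivot_adj' hB hsd h1 hs ha hcd, pivot_adj' hB hsd h2 hs hr hcd, h4⟩
    · exact Or.inr ⟨m, hm.trans (Nat.le_succ n), h4⟩

theorem main (h : Cfg M N x y) [hf : M.Finite] (hrep : Representable F2 M) (hF7 : ¬ HasF7 M) :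
    ∀ (n : ℕ) (B : Set α) (a b : α), M.IsBase B → x ∉ B → y ∉ B → a ≠ b →
      Adj M B a x → Adj M B a y → Adj M B b x → Adj M B b y → Pth M B {x, y} n a b →
      ¬ N.Indep (insert x (insert y (B \ {a, b}))) := by
  intro n
  induction n using Nat.strong_induction_on with
  | _ n ih =>
  intro B a b hB hx hy hab ax ay bx by' hp
  match n, ih, hp with
  | 0, _, hp => exact absurd hp hab
  | 1, _, ⟨r, c, hc, ac, rc, hrb⟩ =>
    have hrb' : r = b := hrb
    subst hrb'
    have hcx : c ≠ x := fun h => hc (Or.inl h)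
    have hcy : c ≠ y := fun h => hc (Or.inr h)
    exact case1 h hrep hB hx hy hab hcx hcy ax ay bx by' ac rc
  | k + 2, ih, ⟨r1, c1, hc1, ac1, rc1, r2, c2, hc2, rc2, sc2, hp'⟩ =>
    have hc1x : c1 ≠ x := fun h => hc1 (Or.inl h)
    have hc1y : c1 ≠ y := fun h => hc1 (Or.inr h)
    have hc2x : c2 ≠ x := fun h => hc2 (Or.inl h)
    have hc2y : c2 ≠ y := fun h => hc2 (Or.inr h)
    have hNB := h.base hB hx hy
    have ha := ax.1
    have hb := bx.1
    by_cases e1 : r1 = a
    · subst e1
      exact ih (k + 1) (by omega) B r1 b hB hx hy hab ax ay bx by' ⟨r2, c2, hc2, rc2, sc2, hp'⟩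
    by_cases e2 : Adj M B b c1
    · exact case1 h hrep hB hx hy hab hc1x hc1y ax ay bx by' ac1 e2
    have e3 : r1 ≠ b := fun h => e2 (h ▸ rc1)
    by_cases e4 : Adj M B a c2
    · exact ih (k + 1) (by omega) B a b hB hx hy hab ax ay bx by' ⟨r2, c2, hc2, e4, sc2, hp'⟩
    have hc12 : c1 ≠ c2 := fun h => e4 (h ▸ ac1)
    have hr1x : r1 ≠ x := fun h => hx (h ▸ rc1.1)
    have hr1y : r1 ≠ y := fun h => hy (h ▸ rc1.1)
    have hxa : x ≠ a := fun h => hx (h ▸ ha)
    by_cases e5 : r2 = b
    · subst e5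
      by_cases rx : Adj M B r1 x
      · by_cases ry : Adj M B r1 y
        · apply caseBoth h hB hx hy hab e1 e3 ha hb rx
          · exact ih 1 (by omega) B a r1 hB hx hy (Ne.symm e1) ax ay rx ry
              ⟨r1, c1, hc1, ac1, rc1, rfl⟩
          · exact ih 1 (by omega) B r1 r2 hB hx hy e3 rx ry bx by'
              ⟨r2, c2, hc2, rc2, sc2, rfl⟩
        · exact absurd (caseF7 hrep hB hab e1 e3 ac1 rc1 e2 e4 rc2 sc2 ax rx bx ay ry by') hF7
      · by_cases ry : Adj M B r1 y
        · exact absurd (caseF7 hrep hB hab e1 e3 ac1 rc1 e2 e4 rc2 sc2 ay ry by' ax rx bx) hF7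
        · intro hT
          have hB' := pivot_base rc1
          have hcl : c1 ∉ N.closure ((insert x (insert y (B \ {a, r2}))) \ {r1}) := by
            have hsub : (insert x (insert y (B \ {a, r2}))) \ {r1} ⊆ N.closure (B \ {r1}) := by
              rintro e ⟨he | he | he, he2⟩
              · subst he
                by_contra hc
                exact rx ((h.adj hB hx hy).2 ((adj_iff hNB).2 ⟨rc1.1, h.ground ▸ h.hx, hx, hc⟩))
              · subst he
                by_contra hc
                exact ry ((h.adj hB hx hy).2 ((adj_iff hNB).2 ⟨rc1.1, h.ground ▸ h.hy, hy, hc⟩))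
              · exact N.subset_closure _ (sdiff_subset.trans hNB.subset_ground) ⟨he.1, he2⟩
            intro hc
            have := ((adj_iff hNB).1 ((h.adj hB hx hy).1 rc1)).2.2.2
            exact this (N.closure_subset_closure_of_subset_closure hsub hc)
          have hc1E : c1 ∈ N.E := h.ground ▸ ac1.2.1
          have hc1a : c1 ≠ a := fun h => ac1.2.2.1 (h ▸ ha)
          have hc1b : c1 ≠ r2 := fun h => ac1.2.2.1 (h ▸ hb)
          have hT' := T_of_pivot hT hr1x hr1y hc1a hc1b hc1E hcl
          refine case1 h hrep hB' (pivot_notMem hx hc1x.symm) (pivot_notMem hy hc1y.symm) hab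
            hc2x hc2y ?_ ?_ ?_ ?_ ?_ ?_ hT'
          · exact pivot_adj' hB rc1 ax rx (Ne.symm e1) hc1x.symm
          · exact pivot_adj' hB rc1 ay ry (Ne.symm e1) hc1y.symm
          · exact pivot_adj' hB rc1 bx rx (Ne.symm e3) hc1x.symm
          · exact pivot_adj' hB rc1 by' ry (Ne.symm e3) hc1y.symm
          · exact pivot_adj'' hB rc1 ac1 rc2 e4 (Ne.symm e1) hc12.symm
          · exact pivot_adj hB rc1 sc2 e2 (Ne.symm e3) hc12.symm
    · have hk : k ≠ 0 := by
        rintro rfl
        exact e5 hp'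
      by_cases e6 : Adj M B b c2
      · exact ih 2 (by omega) B a b hB hx hy hab ax ay bx by'
          ⟨r1, c1, hc1, ac1, rc1, b, c2, hc2, rc2, e6, rfl⟩
      by_cases e7 : r2 = r1
      · subst e7
        exact ih (k + 1) (by omega) B a b hB hx hy hab ax ay bx by' ⟨r2, c1, hc1, ac1, rc1, hp'⟩
      by_cases e8 : Adj M B r2 c1
      · exact ih (k + 1) (by omega) B a b hB hx hy hab ax ay bx by' ⟨r2, c1, hc1, ac1, e8, hp'⟩
      rcases transfer hB rc2 k r2 e7 hp' with h4 | ⟨m, hm, h4⟩
      · intro hT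
        have hB' := pivot_base rc2
        have hc2E : c2 ∈ N.E := h.ground ▸ rc2.2.1
        have hc2B := rc2.2.2.1
        have hc2a : c2 ≠ a := fun h => hc2B (h ▸ ha)
        have hc2b : c2 ≠ b := fun h => hc2B (h ▸ hb)
        have hcl : c2 ∉ N.closure ((insert x (insert y (B \ {a, b}))) \ {r1}) := by
          intro hc
          have m1 : c2 ∈ N.closure (B \ {a}) := by
            rw [h.adj hB hx hy, not_adj_iff hNB ha hc2E hc2B] at e4
            exact e4
          have m2 : c2 ∈ N.closure (B \ {b}) := by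
            rw [h.adj hB hx hy, not_adj_iff hNB hb hc2E hc2B] at e6
            exact e6
          have m3 := mem_closure_inter hNB.indep sdiff_subset sdiff_subset m1 m2
          have m4 : c2 ∈ N.closure (B \ {a, b}) := by
            refine N.closure_subset_closure ?_ m3
            rintro e ⟨he1, he2⟩
            exact ⟨he1.1, by rintro (h | h); exacts [he1.2 h, he2.2 h]⟩
          have m5 := mem_closure_inter hT sdiff_subset
            ((subset_insert _ _).trans (subset_insert _ _)) hc m4
          have m6 := ((adj_iff hNB).1 ((h.adj hB hx hy).1 rc2)).2.2.2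
          apply m6
          refine N.closure_subset_closure ?_ m5
          rintro e ⟨he1, he2⟩
          exact ⟨he2.1, he1.2⟩
        have hT' := T_of_pivot hT hr1x hr1y hc2a hc2b hc2E hcl
        refine ih (k + 1) (by omega) _ a b hB' (pivot_notMem hx hc2x.symm)
          (pivot_notMem hy hc2y.symm) hab ?_ ?_ ?_ ?_ ⟨r2, c1, hc1, ?_, ?_, h4⟩ hT'
        · exact pivot_adj hB rc2 ax e4 (Ne.symm e1) hc2x.symm
        · exact pivot_adj hB rc2 ay e4 (Ne.symm e1) hc2y.symm
        · exact pivot_adj hB rc2 bx e6 (Ne.symm e3) hc2x.symm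
        · exact pivot_adj hB rc2 by' e6 (Ne.symm e3) hc2y.symm
        · exact pivot_adj hB rc2 ac1 e4 (Ne.symm e1) hc12
        · exact pivot_adj'' hB rc2 sc2 rc1 e8 e7 hc12
      · exact ih (m + 1) (by omega) B a b hB hx hy hab ax ay bx by' ⟨r1, c1, hc1, ac1, rc1, h4⟩

lemma exists_pth {K : Set α} {a b : α} (h : RowConn M B K a b) : ∃ n, Pth M B K n a b := by
  unfold RowConn at h
  induction h using Relation.ReflTransGen.head_induction_on with
  | refl => exact ⟨0, rfl⟩
  | head h1 _ ih =>
    obtain ⟨n, hn⟩ := ih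
    obtain ⟨c, hc, h2, h3⟩ := h1
    exact ⟨n + 1, _, c, hc, h2, h3, hn⟩

end PATH

/-- PATH -/
theorem specPath : SpecPath.{u} := by
  intro α M N _ x y hxy hx hy hE hrep hF7 hag B hB hxB hyB a b hab ax ay bx by' hc hT
  have h : PATH.Cfg M N x y := ⟨hxy, hx, hy, hE, hag⟩
  obtain ⟨n, hn⟩ := PATH.exists_pth hc
  apply PATH.main h hrep hF7 n B a b hB hxB hyB hab ax ay bx by' hn
  have e : insert x (insert y (B \ {a, b})) = (B \ {a, b}) ∪ {x, y} := by
    ext e
    simp only [mem_insert_iff, mem_union, mem_singleton_iff]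
    tauto
  rw [e]
  exact hT.indep

end MP948082
end

section
/-!
# MP_948082_co : module SCALE
-/
open Set Submodule

namespace MP948082

universe u

namespace SCALE

open COORD

variable {α : Type u} {F : Type*} [Field F] {M : Matroid α} {B I X : Set α} {a b c e : α}

/-- the vectors of the matrix `[1 | A]`, rows indexed by `B` -/
noncomputable def mv (B : Set α) (A : α → α → F) (e : α) : B → F := by
  classical exact if h : e ∈ B then Pi.single ⟨e, h⟩ 1 else fun b : B => A b e

lemma mv_mem [DecidableEq B] (A : α → α → F) (h : e ∈ B) : mv B A e = Pi.single ⟨e, h⟩ 1 := by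
  unfold mv
  rw [dif_pos h]
  have hd : ∀ (i1 i2 : DecidableEq B), @Pi.single B (fun _ => F) (fun _ => inferInstance) i1 ⟨e, h⟩ 1 =
      @Pi.single B (fun _ => F) (fun _ => inferInstance) i2 ⟨e, h⟩ 1 := by
    intro i1 i2
    rw [Subsingleton.elim i1 i2]
  exact hd _ _

lemma mv_notMem (A : α → α → F) (h : e ∉ B) : mv B A e = fun b : B => A b e := by
  unfold mv
  rw [dif_neg h]

lemma mv_row [DecidableEq α] (A : α → α → F) (h : e ∈ B) (i : B) :
    mv B A e i = if (i : α) = e then 1 else 0 := by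
  rw [mv_mem A h, Pi.single_apply]
  by_cases hi : (i : α) = e
  · rw [if_pos (Subtype.ext hi), if_pos hi]
  · rw [if_neg (fun h => hi (congrArg Subtype.val h)), if_neg hi]

lemma mem_span_mv [Finite B] (A : α → α → F) (hX : X ⊆ B) (w : B → F) :
    w ∈ span F (mv B A '' X) ↔ ∀ i : B, (i : α) ∉ X → w i = 0 := by
  classical
  have : Fintype B := Fintype.ofFinite B
  have e : mv B A '' X = (Pi.basisFun F B) '' {i : B | (i : α) ∈ X} := by
    ext y
    constructor
    · rintro ⟨a, ha, rfl⟩
      refine ⟨⟨a, hX ha⟩, ha, ?_⟩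
      rw [Pi.basisFun_apply, mv_mem A (hX ha)]
    · rintro ⟨i, hi, rfl⟩
      refine ⟨i, hi, ?_⟩
      rw [Pi.basisFun_apply, mv_mem A i.2]
  rw [e, Module.Basis.mem_span_image]
  constructor
  · intro h1 i hi
    by_contra h2
    exact hi (h1 (Finsupp.mem_support_iff.2 (by rwa [Pi.basisFun_repr])))
  · intro h1 i hi
    by_contra h2
    have := Finsupp.mem_support_iff.1 hi
    rw [Pi.basisFun_repr] at this
    exact this (h1 i h2)

lemma linearIndepOn_mv [Finite B] (A : α → α → F) (hX : X ⊆ B) : LinearIndepOn F (mv B A) X := by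
  classical
  have : Fintype B := Fintype.ofFinite B
  have h1 : LinearIndependent F (Pi.basisFun F B) := (Pi.basisFun F B).linearIndependent
  have h2 : LinearIndependent F (fun i : X => Pi.basisFun F B ⟨i, hX i.2⟩) :=
    h1.comp (fun i : X => (⟨i, hX i.2⟩ : B))
      (fun i j hij => Subtype.ext (congrArg (fun k : B => (k : α)) hij))
  have h3 : (fun i : X => Pi.basisFun F B ⟨i, hX i.2⟩) = fun i : X => mv B A i := by
    ext1 i
    rw [Pi.basisFun_apply, mv_mem A (hX i.2)]
  rw [h3] at h2
  exact h2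

/-- scaling of vectors -/
lemma linearIndepOn_smul {V : Type*} [AddCommGroup V] [Module F V] {v : α → V} {k : α → F}
    (hk : ∀ e, k e ≠ 0) : LinearIndepOn F (fun e => k e • v e) I ↔ LinearIndepOn F v I :=
  LinearIndependent.units_smul_iff (fun e : I => v e) (fun e : I => Units.mk0 (k e) (hk e))

/-- scaling of the rows and columns of a matrix -/
lemma mv_scale [Finite B] (A : α → α → F) {ρ κ : α → F} (hρ : ∀ b, ρ b ≠ 0) (hκ : ∀ c, κ c ≠ 0) :
    LinearIndepOn F (mv B (fun b c => ρ b * κ c * A b c)) I ↔ LinearIndepOn F (mv B A) I := by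
  classical
  set D : (B → F) →ₗ[F] (B → F) := LinearMap.pi (fun i => ρ i • LinearMap.proj i) with hD
  have hDapp : ∀ w i, D w i = ρ i * w i := fun w i => rfl
  have hDinj : Function.Injective D := by
    intro w w' h
    ext i
    have := congrFun h i
    rw [hDapp, hDapp] at this
    exact mul_left_cancel₀ (hρ i) this
  set k : α → F := fun e => if e ∈ B then (ρ e)⁻¹ else κ e with hk
  have hk0 : ∀ e, k e ≠ 0 := by
    intro e
    simp only [hk]
    split_ifs
    · exact inv_ne_zero (hρ e)
    · exact hκ e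
  have e1 : mv B (fun b c => ρ b * κ c * A b c) = fun e => k e • (D ∘ mv B A) e := by
    ext e i
    rw [Pi.smul_apply, Function.comp_apply, hDapp, smul_eq_mul]
    by_cases he : e ∈ B
    · rw [mv_row (fun b c => ρ b * κ c * A b c) he, mv_row A he]
      simp only [hk, if_pos he]
      by_cases hi : (i : α) = e
      · rw [if_pos hi, hi, mul_one, inv_mul_cancel₀ (hρ e)]
      · rw [if_neg hi, mul_zero, mul_zero]
    · rw [mv_notMem (fun b c => ρ b * κ c * A b c) he, mv_notMem A he]
      simp only [hk, if_neg he]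
      ring
  rw [e1, linearIndepOn_smul hk0]
  constructor
  · intro h
    exact LinearIndepOn.of_comp D h
  · intro h
    exact h.map_injOn D hDinj.injOn

/-- the matrix of a representation -/
lemma exists_matrix [M.Finite] (h : Representable F M) (hB : M.IsBase B) :
    ∃ A : α → α → F, IsRep F M (mv B A) := by
  classical
  obtain ⟨n, v, hv, hs⟩ := h.exists_spanning
  have hfin : Finite B := (M.ground_finite.subset hB.subset_ground).to_subtype
  have : Fintype B := Fintype.ofFinite B
  set β := bs hv hs hB with hβ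
  refine ⟨fun b c => if hb : b ∈ B then β.repr (v c) ⟨b, hb⟩ else 0, ?_⟩
  have key : IsRep F M (β.equivFun.toLinearMap ∘ v) :=
    hv.comp_injective _ β.equivFun.injective
  apply key.congr
  intro e he
  ext i
  by_cases heB : e ∈ B
  · rw [mv_row (fun b c => if hb : b ∈ B then β.repr (v c) ⟨b, hb⟩ else 0) heB]
    have : v e = β ⟨e, heB⟩ := (bs_apply hv hs hB ⟨e, heB⟩).symm
    simp only [Function.comp, LinearEquiv.coe_coe]
    rw [this, Module.Basis.equivFun_self]
    by_cases hi : (i : α) = e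
    · rw [if_pos hi, if_pos]
      exact Subtype.ext hi.symm
    · rw [if_neg hi, if_neg]
      intro h3
      exact hi (congrArg Subtype.val h3).symm
  · rw [mv_notMem (fun b c => if hb : b ∈ B then β.repr (v c) ⟨b, hb⟩ else 0) heB]
    simp only [Function.comp, LinearEquiv.coe_coe]
    rw [dif_pos i.2]
    rfl

/-! ### Uniqueness of binary representations, transfer of configurations -/

lemma F2_eq {a b : F2} (h : a ≠ 0 ↔ b ≠ 0) : a = b := by
  revert a b; decide

lemma bin_unique {V V' : Type*} [AddCommGroup V] [Module F2 V] [AddCommGroup V'] [Module F2 V']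
    {v : α → V} {v' : α → V'} (h : IsRep F2 M v) (hs : span F2 (v '' M.E) = ⊤)
    (h' : IsRep F2 M v') (hs' : span F2 (v' '' M.E) = ⊤) (hB : M.IsBase B) :
    ∃ φ : V' ≃ₗ[F2] V, ∀ e ∈ M.E, φ (v' e) = v e := by
  set β := bs h hs hB with hβ
  set β' := bs h' hs' hB with hβ'
  refine ⟨β'.equiv β (Equiv.refl B), fun e he => ?_⟩
  by_cases heB : e ∈ B
  · have e1 : v' e = β' ⟨e, heB⟩ := (bs_apply h' hs' hB ⟨e, heB⟩).symm
    rw [e1, Module.Basis.equiv_apply]
    exact bs_apply h hs hB ⟨e, heB⟩
  · apply β.ext_elem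
    intro i
    have e2 : β.repr ((β'.equiv β (Equiv.refl B)) (v' e)) i = β'.repr (v' e) i := by
      simp [Module.Basis.equiv]
    rw [e2]
    apply F2_eq
    rw [← adj_iff_repr h' hs' hB i.2 he heB, ← adj_iff_repr h hs hB i.2 he heB]

lemma cfg_span {V : Type*} [AddCommGroup V] [Module F2 V] {v : α → V} {E C : Set α} {z : P → α}
    (h : F7Cfg v E C z) : span F2 (v '' E) = ⊤ := by
  obtain ⟨hC, hz, π, hker, hπ⟩ := h
  rw [eq_top_iff]
  intro w _
  have h1 : ∀ w, π w = 0 → w ∈ span F2 (v '' E) := by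
    intro w hw
    have : w ∈ LinearMap.ker π := hw
    rw [hker] at this
    exact span_mono (image_mono hC) this
  by_cases hw : π w = 0
  · exact h1 w hw
  · have h2 : π (w - v (z (π w))) = 0 := by
      rw [map_sub, hπ _ hw, sub_self]
    have h3 : w = (w - v (z (π w))) + v (z (π w)) := by abel
    rw [h3]
    exact add_mem (h1 _ h2) (subset_span ⟨_, hz _ hw, rfl⟩)

lemma F7_transfer {n : ℕ} {v : α → (Fin n → F2)} (h : IsRep F2 M v)
    (hs : span F2 (v '' M.E) = ⊤) {f : α → α} {E' : Set α} (hE' : E'.Finite)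
    (hf : ∀ e ∈ E', f e ∈ M.E) (hB : M.IsBase B) (hBE : B ⊆ E') (hfB : ∀ e ∈ B, f e = e)
    (hF7 : HasF7 (vecMatroid F2 (v ∘ f) E' hE')) : HasF7 M := by
  obtain ⟨n', v', C, z, hv', hcfg⟩ := hF7
  have hs' := cfg_span hcfg
  obtain ⟨hC, hz, π, hker, hπ⟩ := hcfg
  have hrep : IsRep F2 (vecMatroid F2 (v ∘ f) E' hE') (v ∘ f) := vecMatroid_isRep
  have himB : (v ∘ f) '' B = v '' B := by
    apply image_congr
    intro e he
    simp only [Function.comp, hfB e he]
  obtain ⟨hB1, hB2, hB3⟩ := (h.isBase_iff hs).1 hB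
  have hs2 : span F2 ((v ∘ f) '' (vecMatroid F2 (v ∘ f) E' hE').E) = ⊤ := by
    rw [eq_top_iff, ← hB3, ← himB]
    exact span_mono (image_mono hBE)
  have hB' : (vecMatroid F2 (v ∘ f) E' hE').IsBase B := by
    rw [hrep.isBase_iff hs2]
    refine ⟨hBE, ?_, ?_⟩
    · exact hB2.congr (fun e he => by simp only [Function.comp, hfB e he])
    · rw [himB, hB3]
  obtain ⟨φ, hφ⟩ := bin_unique hrep hs2 hv' hs' hB'
  refine ⟨n, v, f '' C, f ∘ z, h, ?_, ?_, π ∘ₗ φ.symm.toLinearMap, ?_, ?_⟩
  · rintro _ ⟨e, he, rfl⟩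
    exact hf e (hC he)
  · intro p hp
    exact hf _ (hz p hp)
  · have e1 : v '' (f '' C) = φ '' (v' '' C) := by
      rw [image_image, image_image]
      apply image_congr
      intro e he
      exact (hφ e (hC he)).symm
    rw [e1]
    ext w
    rw [LinearMap.mem_ker, LinearMap.comp_apply, LinearEquiv.coe_coe]
    have e2 : span F2 (φ '' (v' '' C)) = (span F2 (v' '' C)).map φ.toLinearMap :=
      (Submodule.map_span φ.toLinearMap (v' '' C)).symm
    rw [e2, ← hker]
    constructor
    · intro hw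
      exact ⟨φ.symm w, hw, by simp⟩
    · rintro ⟨u, hu, rfl⟩
      simpa using hu
  · intro p hp
    rw [LinearMap.comp_apply, LinearEquiv.coe_coe]
    have e3 : v ((f ∘ z) p) = φ (v' (z p)) := (hφ _ (hz p hp)).symm
    rw [e3, LinearEquiv.symm_apply_apply]
    exact hπ p hp

/-! ### The entries of two representations -/

/-- two matrices representing `M` on `E₀` which agree on the columns `J`: the ratio of the entries of
a further column is constant along paths with columns in `J` -/
lemma ratio_eq [M.Finite] (hrep : Representable F2 M) (hF7 : ¬ HasF7 M) (hB : M.IsBase B)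
    {E₀ J : Set α} (hE₀ : E₀ ⊆ M.E) (hBE : B ⊆ E₀) {x z : α} (hx : x ∉ E₀) (hJ : J ⊆ E₀ \ B)
    (hz : z ∈ E₀ \ B) (hzJ : z ∉ J) {A₁ A₂ : α → α → F}
    (h1 : ∀ I ⊆ E₀, (M.Indep I ↔ LinearIndepOn F (mv B A₁) I))
    (h2 : ∀ I ⊆ E₀, (M.Indep I ↔ LinearIndepOn F (mv B A₂) I))
    (heq : ∀ b ∈ B, ∀ c ∈ J, A₁ b c = A₂ b c) {a b : α} (ha : Adj M B a z) (hb : Adj M B b z)
    (hconn : Relation.ReflTransGen (fun r r' => ∃ c ∈ J, Adj M B r c ∧ Adj M B r' c) a b)
    (ha1 : A₁ a z ≠ 0) :
    A₂ a z * A₁ b z = A₂ b z * A₁ a z := by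
  classical
  by_cases hab : a = b
  · subst hab; rfl
  by_contra hne
  obtain ⟨n, v, hv, hs⟩ := hrep.exists_spanning
  have hBfin : Finite B := (M.ground_finite.subset hB.subset_ground).to_subtype
  set f : α → α := fun e => if e = x then z else e with hf
  have hfx : f x = z := by simp [hf]
  have hfne : ∀ e, e ≠ x → f e = e := fun e he => by simp [hf, he]
  set E' : Set α := insert x (insert z (B ∪ J)) with hE'
  have hJE : J ⊆ E₀ := hJ.trans sdiff_subset
  have hsub : insert z (B ∪ J) ⊆ E₀ := insert_subset hz.1 (union_subset hBE hJE)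
  have hE'fin : E'.Finite := (M.ground_finite.subset (hsub.trans hE₀)).insert x
  have hnex : ∀ e ∈ insert z (B ∪ J), e ≠ x := fun e he h => hx (h ▸ hsub he)
  have hfE : ∀ e ∈ E', f e ∈ M.E := by
    rintro e (he | he)
    · rw [he, hfx]; exact hE₀ hz.1
    · rw [hfne e (hnex e he)]; exact hE₀ (hsub he)
  have hxB : x ∉ B := fun h => hx (hBE h)
  have hfB : ∀ e ∈ B, f e = e := fun e he => hfne e (fun h => hxB (h ▸ he))
  have hBE' : B ⊆ E' := fun e he => Or.inr (Or.inr (Or.inl he))
  set u : α → (B → F) := fun e => if e = x then mv B A₁ z else mv B A₂ e with hu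
  have hux : u x = mv B A₁ z := by simp [hu]
  have hune : ∀ e, e ≠ x → u e = mv B A₂ e := fun e he => by simp [hu, he]
  set M' := vecMatroid F2 (v ∘ f) E' hE'fin with hM'
  set N' := vecMatroid F u E' hE'fin with hN'
  have hzx : z ≠ x := fun h => hx (h ▸ hz.1)
  have hrepv : IsRep F2 M' (v ∘ f) := vecMatroid_isRep
  have hcfg : PATH.Cfg M' N' z x := by
    refine ⟨hzx, Or.inr (Or.inl rfl), Or.inl rfl, rfl, ?_⟩
    intro I hI
    rw [hM', hN', vecMatroid_indep_iff, vecMatroid_indep_iff]
    apply and_congr_right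
    intro hIE
    rcases hI with hI | hI
    · -- `z ∉ I`
      have hinj : InjOn f I := by
        intro s hs' t ht hst
        by_cases e1 : s = x
        · by_cases e2 : t = x
          · rw [e1, e2]
          · rw [e1, hfx, hfne t e2] at hst
            exact absurd (hst ▸ ht) hI
        · by_cases e2 : t = x
          · rw [e2, hfx, hfne s e1] at hst
            exact absurd (hst ▸ hs') hI
          · rw [hfne s e1, hfne t e2] at hst
            exact hst
      have hfI : f '' I ⊆ E₀ := by
        rintro _ ⟨e, he, rfl⟩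
        rcases hIE he with h | h
        · rw [h, hfx]; exact hz.1
        · rw [hfne e (hnex e h)]; exact hsub h
      have k1 : LinearIndepOn F2 (v ∘ f) I ↔ LinearIndepOn F2 v (f '' I) :=
        ⟨fun h => h.image_of_comp f v, fun h => h.comp_of_image hinj⟩
      have k2 : LinearIndepOn F u I ↔ LinearIndepOn F (mv B A₁) (f '' I) := by
        have k3 : LinearIndepOn F u I ↔ LinearIndepOn F (mv B A₁ ∘ f) I := by
          apply linearIndepOn_congr
          intro e he
          by_cases hex : e = x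
          · rw [hex, hux, Function.comp_apply, hfx]
          · rw [hune e hex, Function.comp_apply, hfne e hex]
            rcases hIE he with h | h | h | h
            · exact absurd h hex
            · exact absurd (h ▸ he) hI
            · rw [mv_mem A₁ h, mv_mem A₂ h]
            · have heB : e ∉ B := (hJ h).2
              rw [mv_notMem A₁ heB, mv_notMem A₂ heB]
              ext i
              exact (heq i i.2 e h).symm
        rw [k3]
        exact ⟨fun h => h.image_of_comp f _, fun h => h.comp_of_image hinj⟩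
      rw [k1, k2, ← h1 _ hfI, ← hv _ (hfI.trans hE₀)]
    · -- `x ∉ I`
      have hI0 : I ⊆ E₀ := by
        intro e he
        rcases hIE he with h | h
        · exact absurd (h ▸ he) hI
        · exact hsub h
      have hnx : ∀ e ∈ I, e ≠ x := fun e he h => hI (h ▸ he)
      have k1 : LinearIndepOn F2 (v ∘ f) I ↔ LinearIndepOn F2 v I := by
        apply linearIndepOn_congr
        intro e he
        rw [Function.comp_apply, hfne e (hnx e he)]
      have k2 : LinearIndepOn F u I ↔ LinearIndepOn F (mv B A₂) I := by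
        apply linearIndepOn_congr
        intro e he
        exact hune e (hnx e he)
      rw [k1, k2, ← h2 _ hI0, ← hv _ (hI0.trans hE₀)]
  have hF7' : ¬ HasF7 M' := fun h => hF7 (F7_transfer hv hs hE'fin hfE hB hBE' hfB h)
  have himB : ∀ X ⊆ B, (v ∘ f) '' X = v '' X := by
    intro X hX
    apply image_congr
    intro e he
    rw [Function.comp_apply, hfB e (hX he)]
  obtain ⟨hB1, hB2, hB3⟩ := (hv.isBase_iff hs).1 hB
  have hs2 : span F2 ((v ∘ f) '' M'.E) = ⊤ := by
    rw [eq_top_iff, ← hB3, ← himB B Subset.rfl]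
    exact span_mono (image_mono hBE')
  have hB' : M'.IsBase B := by
    rw [hrepv.isBase_iff hs2]
    refine ⟨hBE', ?_, ?_⟩
    · exact hB2.congr (fun e he => by rw [Function.comp_apply, hfB e he])
    · rw [himB B Subset.rfl, hB3]
  have hadj : ∀ r c, c ∈ E' → c ∉ B → f c ∉ B → Adj M B r (f c) → Adj M' B r c := by
    intro r c hc hcB hfcB hr
    rw [adj_iff hB']
    refine ⟨hr.1, hc, hcB, ?_⟩
    have h3 := ((adj_iff hB).1 hr).2.2.2
    rw [hrepv.mem_closure_iff (sdiff_subset.trans hBE') hc, himB _ sdiff_subset]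
    rw [hv.mem_closure_iff (sdiff_subset.trans hB.subset_ground) hr.2.1] at h3
    exact h3
  have hzB : z ∉ B := hz.2
  have hzE' : z ∈ E' := Or.inr (Or.inl rfl)
  have hxE' : x ∈ E' := Or.inl rfl
  have hfz : f z = z := hfne z hzx
  have az : Adj M' B a z := hadj a z hzE' hzB (by rw [hfz]; exact hzB) (by rw [hfz]; exact ha)
  have bz : Adj M' B b z := hadj b z hzE' hzB (by rw [hfz]; exact hzB) (by rw [hfz]; exact hb)
  have ax : Adj M' B a x := hadj a x hxE' hxB (by rw [hfx]; exact hzB) (by rw [hfx]; exact ha)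
  have bx : Adj M' B b x := hadj b x hxE' hxB (by rw [hfx]; exact hzB) (by rw [hfx]; exact hb)
  have hconn' : RowConn M' B {z, x} a b := by
    refine Relation.ReflTransGen.mono ?_ a b hconn
    rintro r r' ⟨c, hc, h3, h4⟩
    have hcx : c ≠ x := fun h => hx (h ▸ hJE hc)
    have hcz : c ≠ z := fun h => hzJ (h ▸ hc)
    have hcE' : c ∈ E' := Or.inr (Or.inr (Or.inr hc))
    have hfc : f c = c := hfne c hcx
    refine ⟨c, by rintro (h | h); exacts [hcz h, hcx h], ?_, ?_⟩
    · exact hadj r c hcE' h3.2.2.1 (by rw [hfc]; exact h3.2.2.1) (by rw [hfc]; exact h3)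
    · exact hadj r' c hcE' h3.2.2.1 (by rw [hfc]; exact h3.2.2.1) (by rw [hfc]; exact h4)
  obtain ⟨m, hm⟩ := PATH.exists_pth hconn'
  have hnot := PATH.main hcfg vecMatroid_representable hF7' m B a b hB' hzB hxB hab az ax bz bx hm
  apply hnot
  rw [hN', vecMatroid_indep_iff]
  have haB := ha.1
  have hbB := hb.1
  refine ⟨insert_subset hzE' (insert_subset hxE' (sdiff_subset.trans hBE')), ?_⟩
  have hJB : B \ {a, b} ⊆ B := sdiff_subset
  have himu : u '' (B \ {a, b}) = mv B A₂ '' (B \ {a, b}) := by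
    apply image_congr
    intro e he
    exact hune e (fun h => hxB (h ▸ he.1))
  have l1 : LinearIndepOn F u (B \ {a, b}) := by
    refine (linearIndepOn_mv A₂ hJB).congr ?_
    intro e he
    exact (hune e (fun h => hxB (h ▸ he.1))).symm
  have uxa : u x ⟨a, haB⟩ = A₁ a z := by rw [hux, mv_notMem A₁ hzB]
  have uxb : u x ⟨b, hbB⟩ = A₁ b z := by rw [hux, mv_notMem A₁ hzB]
  have uza : u z ⟨a, haB⟩ = A₂ a z := by rw [hune z hzx, mv_notMem A₂ hzB]
  have uzb : u z ⟨b, hbB⟩ = A₂ b z := by rw [hune z hzx, mv_notMem A₂ hzB]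
  have hxJ : x ∉ B \ {a, b} := fun h => hxB h.1
  have hzJ' : z ∉ insert x (B \ {a, b}) := by
    rintro (h | h)
    · exact hzx h
    · exact hzB h.1
  rw [linearIndepOn_insert hzJ', linearIndepOn_insert hxJ]
  refine ⟨⟨l1, ?_⟩, ?_⟩
  · rw [himu, mem_span_mv A₂ hJB]
    intro h
    apply ha1
    rw [← uxa]
    exact h ⟨a, haB⟩ (fun h => h.2 (Or.inl rfl))
  · rw [image_insert_eq, mem_span_insert]
    rintro ⟨t, w, hw, e1⟩
    rw [himu, mem_span_mv A₂ hJB] at hw
    have wa := hw ⟨a, haB⟩ (fun h => h.2 (Or.inl rfl))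
    have wb := hw ⟨b, hbB⟩ (fun h => h.2 (Or.inr rfl))
    have ea := congrFun e1 ⟨a, haB⟩
    have eb := congrFun e1 ⟨b, hbB⟩
    rw [Pi.add_apply, Pi.smul_apply, wa, uza, uxa, add_zero, smul_eq_mul] at ea
    rw [Pi.add_apply, Pi.smul_apply, wb, uzb, uxb, add_zero, smul_eq_mul] at eb
    apply hne
    rw [ea, eb]
    ring

/-- two matrices which represent the same binary matroid without `F7`-configuration are equal up to
row and column factors -/
lemma exists_factors [M.Finite] (hrep : Representable F2 M) (hF7 : ¬ HasF7 M) (hB : M.IsBase B)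
    {E₀ : Set α} (hE₀ : E₀ ⊆ M.E) (hBE : B ⊆ E₀) {x : α} (hx : x ∉ E₀) {A₁ A₂ : α → α → F}
    (h1 : ∀ I ⊆ E₀, (M.Indep I ↔ LinearIndepOn F (mv B A₁) I))
    (h2 : ∀ I ⊆ E₀, (M.Indep I ↔ LinearIndepOn F (mv B A₂) I)) (J : Finset α) :
    (↑J ⊆ E₀ \ B) → ∃ ρ κ : α → F, (∀ b, ρ b ≠ 0) ∧ (∀ c, κ c ≠ 0) ∧
      ∀ b ∈ B, ∀ c ∈ J, ρ b * κ c * A₁ b c = A₂ b c := by
  classical
  have hBfin : Finite B := (M.ground_finite.subset hB.subset_ground).to_subtype
  -- adjacency and entries
  have hadj : ∀ A : α → α → F, (∀ I ⊆ E₀, (M.Indep I ↔ LinearIndepOn F (mv B A) I)) →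
      ∀ b ∈ B, ∀ c ∈ E₀ \ B, (Adj M B b c ↔ A b c ≠ 0) := by
    intro A hA b hb c hc
    rw [adj_iff_indep hB]
    have hsub : insert c (B \ {b}) ⊆ E₀ := insert_subset hc.1 (sdiff_subset.trans hBE)
    rw [hA _ hsub, linearIndepOn_insert (fun h => hc.2 h.1)]
    constructor
    · rintro ⟨-, -, -, -, h⟩ h0
      apply h
      rw [mem_span_mv A sdiff_subset]
      intro i hi
      have hib : (i : α) = b := by
        by_contra h3
        exact hi ⟨i.2, h3⟩
      rw [mv_notMem A hc.2]
      change A (i : α) c = 0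
      rw [hib]
      exact h0
    · intro h
      refine ⟨hb, hE₀ hc.1, hc.2, linearIndepOn_mv A sdiff_subset, fun h3 => h ?_⟩
      rw [mem_span_mv A sdiff_subset] at h3
      have := h3 ⟨b, hb⟩ (fun h => h.2 rfl)
      rwa [mv_notMem A hc.2] at this
  induction J using Finset.induction_on with
  | empty => exact fun _ => ⟨fun _ => 1, fun _ => 1, by simp, by simp, by simp⟩
  | insert z J hzJ ih =>
    intro hsub
    have hJ : (↑J : Set α) ⊆ E₀ \ B := fun e he => hsub (Finset.mem_insert_of_mem he)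
    have hz : z ∈ E₀ \ B := hsub (Finset.mem_insert_self z J)
    obtain ⟨ρ, κ, hρ, hκ, heq⟩ := ih hJ
    set A₁' : α → α → F := fun b c => ρ b * κ c * A₁ b c with hA₁'
    have h1' : ∀ I ⊆ E₀, (M.Indep I ↔ LinearIndepOn F (mv B A₁') I) := by
      intro I hI
      rw [h1 I hI, hA₁', mv_scale A₁ hρ hκ]
    set R : α → F := fun b => A₂ b z * (A₁' b z)⁻¹ with hR
    set Rel : α → α → Prop := fun r r' => ∃ c ∈ (↑J : Set α), Adj M B r c ∧ Adj M B r' c with hRel
    have hRsymm : ∀ {r r'}, Relation.ReflTransGen Rel r r' → Relation.ReflTransGen Rel r' r := by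
      intro r r' h
      induction h with
      | refl => exact Relation.ReflTransGen.refl
      | tail _ h2 ih =>
        obtain ⟨c, hc, h3, h4⟩ := h2
        exact Relation.ReflTransGen.head ⟨c, hc, h4, h3⟩ ih
    have hRne : ∀ b, Adj M B b z → R b ≠ 0 := by
      intro b hb
      exact mul_ne_zero ((hadj A₂ h2 b hb.1 z hz).1 hb)
        (inv_ne_zero ((hadj A₁' h1' b hb.1 z hz).1 hb))
    have hReq : ∀ a b, Adj M B a z → Adj M B b z → Relation.ReflTransGen Rel a b → R a = R b := by
      intro a b ha hb hab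
      have ha1 := (hadj A₁' h1' a ha.1 z hz).1 ha
      have hb1 := (hadj A₁' h1' b hb.1 z hz).1 hb
      have key := ratio_eq hrep hF7 hB hE₀ hBE hx hJ hz (by exact_mod_cast hzJ) h1' h2
        (fun b hb c hc => heq b hb c hc) ha hb hab ha1
      simp only [hR]
      field_simp
      rw [key, mul_comm]
    set t : α → F := fun b => if h : ∃ a, Relation.ReflTransGen Rel b a ∧ Adj M B a z then
      R h.choose else 1 with ht
    have ht1 : ∀ b a, Relation.ReflTransGen Rel b a → Adj M B a z → t b = R a := by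
      intro b a hba ha
      have h : ∃ a, Relation.ReflTransGen Rel b a ∧ Adj M B a z := ⟨a, hba, ha⟩
      simp only [ht]
      rw [dif_pos h]
      exact hReq _ _ h.choose_spec.2 ha ((hRsymm h.choose_spec.1).trans hba)
    have ht0 : ∀ b, t b ≠ 0 := by
      intro b
      by_cases h : ∃ a, Relation.ReflTransGen Rel b a ∧ Adj M B a z
      · obtain ⟨a, h3, h4⟩ := h
        rw [ht1 b a h3 h4]
        exact hRne a h4
      · simp only [ht]
        rw [dif_neg h]
        exact one_ne_zero
    have ht2 : ∀ b b', Relation.ReflTransGen Rel b b' → t b = t b' := by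
      intro b b' hbb
      by_cases h : ∃ a, Relation.ReflTransGen Rel b a ∧ Adj M B a z
      · obtain ⟨a, h3, h4⟩ := h
        rw [ht1 b a h3 h4, ht1 b' a ((hRsymm hbb).trans h3) h4]
      · have h' : ¬ ∃ a, Relation.ReflTransGen Rel b' a ∧ Adj M B a z := by
          rintro ⟨a, h3, h4⟩
          exact h ⟨a, hbb.trans h3, h4⟩
        simp only [ht]
        rw [dif_neg h, dif_neg h']
    refine ⟨fun b => ρ b * t b, fun c => if c = z then κ z else
      if h : ∃ b, Adj M B b c then κ c * (t h.choose)⁻¹ else κ c, ?_, ?_, ?_⟩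
    · intro b
      exact mul_ne_zero (hρ b) (ht0 b)
    · intro c
      simp only
      split_ifs
      · exact hκ z
      · exact mul_ne_zero (hκ c) (inv_ne_zero (ht0 _))
      · exact hκ c
    · intro b hb c hc
      simp only
      rcases Finset.mem_insert.1 hc with hcz | hcJ
      · subst hcz
        rw [if_pos rfl]
        by_cases hbz : Adj M B b c
        · rw [ht1 b b Relation.ReflTransGen.refl hbz]
          have hb1 := (hadj A₁' h1' b hb c hz).1 hbz
          simp only [hR, hA₁'] at hb1 ⊢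
          have n1 := hρ b
          have n2 := hκ c
          have n3 : A₁ b c ≠ 0 := fun h => hb1 (by rw [h, mul_zero])
          field_simp
        · have e1 : A₁ b c = 0 := by
            by_contra h
            exact hbz ((hadj A₁ h1 b hb c hz).2 h)
          have e2 : A₂ b c = 0 := by
            by_contra h
            exact hbz ((hadj A₂ h2 b hb c hz).2 h)
          rw [e1, e2, mul_zero]
      · have hcz : c ≠ z := fun h => hzJ (h ▸ hcJ)
        rw [if_neg hcz]
        by_cases hbc : Adj M B b c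
        · have hex : ∃ b, Adj M B b c := ⟨b, hbc⟩
          rw [dif_pos hex]
          have e1 : t b = t hex.choose :=
            ht2 b _ (Relation.ReflTransGen.single ⟨c, hcJ, hbc, hex.choose_spec⟩)
          rw [← e1, ← heq b hb c hcJ]
          have := ht0 b
          field_simp
        · have e1 : A₁ b c = 0 := by
            by_contra h
            exact hbc ((hadj A₁ h1 b hb c (hJ hcJ)).2 h)
          have e2 : A₂ b c = 0 := by
            by_contra h
            exact hbc ((hadj A₂ h2 b hb c (hJ hcJ)).2 h)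
          rw [e1, e2, mul_zero]

end SCALE

open COORD SCALE in
/-- SCALE -/
theorem specScale : SpecScale.{u} := by
  intro α M _ F _ x y hxy hx hy hrep hF7 ⟨B, hB, hxB, hyB⟩ hr1 hr2
  classical
  have hBfin : Finite B := (M.ground_finite.subset hB.subset_ground).to_subtype
  have hdel : ∀ s ∉ B, (M.delete {s}).IsBase B := by
    intro s hs
    rw [Matroid.delete_isBase_iff]
    exact hB.isBasis_ground.isBasis_subset
      (subset_sdiff.2 ⟨hB.subset_ground, by simpa using hs⟩) sdiff_subset
  obtain ⟨A₁, hA₁⟩ := exists_matrix hr1 (hdel x hxB)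
  obtain ⟨A₂, hA₂⟩ := exists_matrix hr2 (hdel y hyB)
  set E₀ : Set α := M.E \ {x, y} with hE₀
  have hBE : B ⊆ E₀ := by
    intro b hb
    refine ⟨hB.subset_ground hb, ?_⟩
    rintro (h | h)
    · exact hxB (h ▸ hb)
    · exact hyB (h ▸ hb)
  have h1 : ∀ I ⊆ E₀, (M.Indep I ↔ LinearIndepOn F (mv B A₁) I) := by
    intro I hI
    rw [← hA₁ I (by
      rw [Matroid.delete_ground]
      exact fun e he => ⟨(hI he).1, fun h => (hI he).2 (Or.inl h)⟩), Matroid.delete_indep_iff]
    refine ⟨fun h => ⟨h, ?_⟩, fun h => h.1⟩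
    rw [disjoint_singleton_right]
    exact fun h => (hI h).2 (Or.inl rfl)
  have h2 : ∀ I ⊆ E₀, (M.Indep I ↔ LinearIndepOn F (mv B A₂) I) := by
    intro I hI
    rw [← hA₂ I (by
      rw [Matroid.delete_ground]
      exact fun e he => ⟨(hI he).1, fun h => (hI he).2 (Or.inr h)⟩), Matroid.delete_indep_iff]
    refine ⟨fun h => ⟨h, ?_⟩, fun h => h.1⟩
    rw [disjoint_singleton_right]
    exact fun h => (hI h).2 (Or.inr rfl)
  have hJfin : (E₀ \ B).Finite := M.ground_finite.subset (sdiff_subset.trans sdiff_subset)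
  obtain ⟨ρ, κ, hρ, hκ, heq⟩ := exists_factors hrep hF7 hB (sdiff_subset : E₀ ⊆ M.E) hBE
    (x := x) (fun h => h.2 (Or.inl rfl)) h1 h2 hJfin.toFinset (by rw [Finite.coe_toFinset])
  set A : α → α → F := fun b c => if c = y then ρ b * A₁ b y else A₂ b c with hA
  set κ' : α → F := fun c => if c = y then 1 else κ c with hκ'
  have hκ'0 : ∀ c, κ' c ≠ 0 := by
    intro c
    simp only [hκ']
    split_ifs
    · exact one_ne_zero
    · exact hκ c
  have r1 : IsRep F (M.delete {x}) (mv B A) := by
    have r1' : IsRep F (M.delete {x}) (mv B (fun b c => ρ b * κ' c * A₁ b c)) := by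
      intro I hI
      rw [hA₁ I hI, mv_scale A₁ hρ hκ'0]
    apply r1'.congr
    intro e he
    by_cases heB : e ∈ B
    · rw [mv_mem _ heB, mv_mem _ heB]
    · rw [mv_notMem _ heB, mv_notMem _ heB]
      ext i
      simp only [hA, hκ']
      by_cases hey : e = y
      · rw [if_pos hey, if_pos hey, hey, mul_one]
      · rw [if_neg hey, if_neg hey]
        apply heq i i.2
        rw [Finite.mem_toFinset]
        exact ⟨⟨he.1, by rintro (h | h); exacts [he.2 h, hey h]⟩, heB⟩
  have r2 : IsRep F (M.delete {y}) (mv B A) := by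
    apply hA₂.congr
    intro e he
    by_cases heB : e ∈ B
    · rw [mv_mem _ heB, mv_mem _ heB]
    · rw [mv_notMem _ heB, mv_notMem _ heB]
      ext i
      simp only [hA]
      have hey : e ≠ y := fun h => he.2 h
      rw [if_neg hey]
  obtain ⟨n, ⟨g⟩⟩ := Finite.exists_equiv_fin B
  set L : (B → F) ≃ₗ[F] (Fin n → F) := LinearEquiv.funCongrLeft F F g.symm
  exact ⟨n, L.toLinearMap ∘ mv B A, r1.comp_injective _ L.injective,
    r2.comp_injective _ L.injective⟩

end MP948082
end

section
/-!
# MP_948082_co : SUM, direct sums of representations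
-/
open Set Submodule

namespace MP948082

universe u

theorem specSum : SpecSum.{u} := by
  classical
  intro α M _ F _ S hM h1 h2
  obtain ⟨n, v, hv⟩ := h1
  obtain ⟨m, w, hw⟩ := h2
  let u : α → (Fin n → F) × (Fin m → F) := fun e => if e ∈ S then (0, w e) else (v e, 0)
  have hu : IsRep F M u := by
    intro I hI
    have hI1 : I \ S ⊆ (M.delete S).E := by
      rw [Matroid.delete_ground]; exact sdiff_subset_sdiff_left hI
    have hI2 : I ∩ S ⊆ (M.delete (M.E \ S)).E := by
      rw [Matroid.delete_ground]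
      intro e he
      exact ⟨hI he.1, fun h => h.2 he.2⟩
    have e1 : M.Indep (I \ S) ↔ LinearIndepOn F u (I \ S) := by
      have := hv (I \ S) hI1
      rw [Matroid.delete_indep_iff, and_iff_left disjoint_sdiff_left] at this
      rw [this]
      constructor
      · intro hl
        have h3 : LinearIndepOn F (fun e => LinearMap.inl F (Fin n → F) (Fin m → F) (v e)) (I \ S) :=
          hl.map_injOn (LinearMap.inl F (Fin n → F) (Fin m → F)) (LinearMap.inl_injective.injOn)
        refine (linearIndepOn_congr ?_).1 h3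
        intro e he
        simp [u, he.2]
      · intro hl
        have h3 : LinearIndepOn F (fun e => LinearMap.inl F (Fin n → F) (Fin m → F) (v e)) (I \ S) := by
          refine (linearIndepOn_congr ?_).1 hl
          intro e he
          simp [u, he.2]
        exact LinearIndepOn.of_comp (LinearMap.inl F (Fin n → F) (Fin m → F)) h3
    have e2 : M.Indep (I ∩ S) ↔ LinearIndepOn F u (I ∩ S) := by
      have := hw (I ∩ S) hI2
      rw [Matroid.delete_indep_iff, and_iff_left ((disjoint_sdiff_left).symm.mono_left inter_subset_right)] at this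
      rw [this]
      constructor
      · intro hl
        have h3 : LinearIndepOn F (fun e => LinearMap.inr F (Fin n → F) (Fin m → F) (w e)) (I ∩ S) :=
          hl.map_injOn (LinearMap.inr F (Fin n → F) (Fin m → F)) (LinearMap.inr_injective.injOn)
        refine (linearIndepOn_congr ?_).1 h3
        intro e he
        simp [u, he.2]
      · intro hl
        have h3 : LinearIndepOn F (fun e => LinearMap.inr F (Fin n → F) (Fin m → F) (w e)) (I ∩ S) := by
          refine (linearIndepOn_congr ?_).1 hl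
          intro e he
          simp [u, he.2]
        exact LinearIndepOn.of_comp (LinearMap.inr F (Fin n → F) (Fin m → F)) h3
    constructor
    · intro h
      have hA := e1.1 (h.subset sdiff_subset)
      have hB := e2.1 (h.subset inter_subset_left)
      have hd : Disjoint (span F (u '' (I \ S))) (span F (u '' (I ∩ S))) := by
        have s1 : span F (u '' (I \ S)) ≤ LinearMap.ker (LinearMap.snd F (Fin n → F) (Fin m → F)) := by
          rw [span_le]
          rintro _ ⟨e, he, rfl⟩
          simp [u, he.2]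
        have s2 : span F (u '' (I ∩ S)) ≤ LinearMap.ker (LinearMap.fst F (Fin n → F) (Fin m → F)) := by
          rw [span_le]
          rintro _ ⟨e, he, rfl⟩
          simp [u, he.2]
        refine Disjoint.mono s1 s2 ?_
        rw [disjoint_def]
        intro x hx hy
        simp only [LinearMap.mem_ker, LinearMap.snd_apply, LinearMap.fst_apply] at hx hy
        exact Prod.ext hy hx
      have := hA.union hB hd
      rwa [sdiff_union_inter] at this
    · intro h
      exact hM I hI (e2.2 (h.mono inter_subset_left)) (e1.2 (h.mono sdiff_subset))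
  exact hu.representable

end MP948082
end
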