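import Pool.Agent.Lib.MP_948082_co.Dual

/-!
# MP_948082_co : module W (SpecW), the relaxation is ternary
-/

set_option linter.all false

open Set Submodule

namespace MP948082

universe u

namespace W

variable {α : Type u}

section General

variable {F : Type*} [Field F] {V : Type*} [AddCommGroup V] [Module F V]
  {U : Type*} [AddCommGroup U] [Module F U] {M : Matroid α} {v : α → V}

theorem exists_coeff (h : IsRep F M v) {C : Finset α} (hC : M.IsCircuit (C : Set α)) :
    ∃ c : α → F, (∀ e ∈ C, c e ≠ 0) ∧ ∑ e ∈ C, c e • v e = 0 := by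
  classical
  have h1 : ¬ LinearIndepOn F v (C : Set α) := fun hc => hC.not_indep ((h _ hC.subset_ground).2 hc)
  rw [linearIndepOn_finset_iff] at h1
  push Not at h1
  obtain ⟨c, hc, e₀, he₀, hc₀⟩ := h1
  refine ⟨c, fun e he hce => hc₀ ?_, hc⟩
  have h2 : LinearIndepOn F v ((C.erase e : Finset α) : Set α) := by
    rw [Finset.coe_erase]; exact h.linearIndepOn (hC.sdiff_singleton_indep he)
  rw [linearIndepOn_finset_iff] at h2
  by_cases hee : e₀ = e
  · rw [hee]; exact hce
  · apply h2 c _ e₀ (Finset.mem_erase.2 ⟨hee, he₀⟩)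
    rw [← hc, ← Finset.sum_erase_add _ _ he, hce, zero_smul, add_zero]

/-- coordinates are unique -/
theorem coord_unique {B : Finset α} (hB : LinearIndepOn F v (B : Set α)) {p q : α → F}
    (h : ∑ b ∈ B, p b • v b = ∑ b ∈ B, q b • v b) : ∀ b ∈ B, p b = q b := by
  rw [linearIndepOn_finset_iff] at hB
  intro b hb
  have := hB (fun b => p b - q b) (by
    simp only [sub_smul, Finset.sum_sub_distrib, h, sub_self]) b hb
  exact sub_eq_zero.1 this

theorem mem_span_fin {B : Finset α} {x : V} (hx : x ∈ span F (v '' (B : Set α))) :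
    ∃ c : α → F, ∑ b ∈ B, c b • v b = x := by
  classical
  rw [Submodule.mem_span_image_finset_iff_exists_fun] at hx
  obtain ⟨c, hc⟩ := hx
  refine ⟨fun e => if h : e ∈ B then c ⟨e, h⟩ else 0, ?_⟩
  rw [← hc, ← Finset.sum_coe_sort]
  refine Finset.sum_congr rfl fun e _ => ?_
  simp only [e.2, dif_pos]

theorem entry_iff [DecidableEq α] {B : Finset α} (hB : LinearIndepOn F v (B : Set α)) {x b : α}
    (hb : b ∈ B) (hx : x ∉ B) {m : α → F} (hm : v x = ∑ b ∈ B, m b • v b) :
    LinearIndepOn F v ((insert x (B.erase b) : Finset α) : Set α) ↔ m b ≠ 0 := by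
  constructor
  · intro h hmb
    rw [Finset.coe_insert, linearIndepOn_insert (by simp [hx])] at h
    apply h.2
    rw [hm, ← Finset.add_sum_erase _ _ hb, hmb, zero_smul, zero_add]
    refine Submodule.sum_mem _ fun c hc => Submodule.smul_mem _ _ (subset_span ⟨c, hc, rfl⟩)
  · intro hmb
    rw [Finset.coe_insert, linearIndepOn_insert (by simp [hx])]
    refine ⟨hB.mono (by simp), fun hs => hmb ?_⟩
    obtain ⟨c, hc⟩ := mem_span_fin hs
    have h2 : ∑ e ∈ B, (if e = b then 0 else c e) • v e = ∑ e ∈ B, m e • v e := by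
      rw [← hm, ← hc, ← Finset.add_sum_erase _ _ hb, if_pos rfl, zero_smul, zero_add]
      exact Finset.sum_congr rfl fun e he => by rw [if_neg (Finset.ne_of_mem_erase he)]
    have := coord_unique hB h2 b hb
    rw [if_pos rfl] at this
    exact this.symm

theorem two_indep [DecidableEq α] {B : Finset α} (hB : LinearIndepOn F v (B : Set α))
    {x x' b b' : α} (hb : b ∈ B) (hb' : b' ∈ B) (hbb : b ≠ b') (hx : x ∉ B) (hx' : x' ∉ B)
    (hxx : x ≠ x') {m m' : α → F} (hm : v x = ∑ b ∈ B, m b • v b)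
    (hm' : v x' = ∑ b ∈ B, m' b • v b) (hd : m b * m' b' - m b' * m' b ≠ 0) :
    LinearIndepOn F v ((insert x (insert x' ((B.erase b).erase b')) : Finset α) : Set α) := by
  rw [linearIndepOn_finset_iff]
  intro g hg
  have hx1 : x' ∉ (B.erase b).erase b' := fun h => hx' (Finset.mem_of_mem_erase (Finset.mem_of_mem_erase h))
  have hx2 : x ∉ insert x' ((B.erase b).erase b') := by
    rw [Finset.mem_insert, not_or]
    exact ⟨hxx, fun h => hx (Finset.mem_of_mem_erase (Finset.mem_of_mem_erase h))⟩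
  rw [Finset.sum_insert hx2, Finset.sum_insert hx1, hm, hm', Finset.smul_sum, Finset.smul_sum] at hg
  have h2 : ∑ e ∈ B, (g x * m e + g x' * m' e + if e = b ∨ e = b' then 0 else g e) • v e =
      ∑ e ∈ B, (0 : F) • v e := by
    simp only [add_smul, Finset.sum_add_distrib, zero_smul, Finset.sum_const_zero]
    rw [← hg, add_assoc]
    congr 1
    · exact Finset.sum_congr rfl fun e _ => mul_smul _ _ _
    congr 1
    · exact Finset.sum_congr rfl fun e _ => mul_smul _ _ _
    rw [← Finset.add_sum_erase _ _ hb, if_pos (Or.inl rfl), zero_smul, zero_add,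
      ← Finset.add_sum_erase _ _ (Finset.mem_erase.2 ⟨hbb.symm, hb'⟩), if_pos (Or.inr rfl), zero_smul,
      zero_add]
    refine Finset.sum_congr rfl fun e he => ?_
    rw [if_neg]
    rw [not_or]
    exact ⟨Finset.ne_of_mem_erase (Finset.mem_of_mem_erase he), Finset.ne_of_mem_erase he⟩
  have h3 := coord_unique hB h2
  have hb1 := h3 b hb
  have hb2 := h3 b' hb'
  rw [if_pos (Or.inl rfl), add_zero] at hb1
  rw [if_pos (Or.inr rfl), add_zero] at hb2
  have e1 : g x = 0 := by
    have : g x * (m b * m' b' - m b' * m' b) = 0 := by linear_combination m' b' * hb1 - m' b * hb2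
    rcases mul_eq_zero.1 this with h | h
    · exact h
    · exact absurd h hd
  have e2 : g x' = 0 := by
    have : g x' * (m b * m' b' - m b' * m' b) = 0 := by linear_combination m b * hb2 - m b' * hb1
    rcases mul_eq_zero.1 this with h | h
    · exact h
    · exact absurd h hd
  intro e he
  rcases Finset.mem_insert.1 he with rfl | he
  · exact e1
  rcases Finset.mem_insert.1 he with rfl | he
  · exact e2
  have h4 := h3 e (Finset.mem_of_mem_erase (Finset.mem_of_mem_erase he))
  rw [e1, e2, zero_mul, zero_mul, zero_add, zero_add, if_neg] at h4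
  · exact h4
  rw [not_or]
  exact ⟨Finset.ne_of_mem_erase (Finset.mem_of_mem_erase he), Finset.ne_of_mem_erase he⟩

theorem two_dep [DecidableEq α] {B : Finset α}
    {x x' b b' : α} (hb : b ∈ B) (hb' : b' ∈ B) (hbb : b ≠ b') (hx : x ∉ B) (hx' : x' ∉ B)
    (hxx : x ≠ x') {m m' : α → F} (hm : v x = ∑ b ∈ B, m b • v b)
    (hm' : v x' = ∑ b ∈ B, m' b • v b) (h1 : m b = m' b) (h2 : m b' = m' b') :
    ¬ LinearIndepOn F v ((insert x (insert x' ((B.erase b).erase b')) : Finset α) : Set α) := by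
  intro hl
  have hx1 : x' ∉ (B.erase b).erase b' := fun h => hx' (Finset.mem_of_mem_erase (Finset.mem_of_mem_erase h))
  have hx2 : x ∉ insert x' ((B.erase b).erase b') := by
    rw [Finset.mem_insert, not_or]
    exact ⟨hxx, fun h => hx (Finset.mem_of_mem_erase (Finset.mem_of_mem_erase h))⟩
  rw [Finset.coe_insert, linearIndepOn_insert (by exact_mod_cast hx2)] at hl
  apply hl.2
  have h3 : v x = v x' + ∑ e ∈ (B.erase b).erase b', (m e - m' e) • v e := by
    have h4 : v x - v x' = ∑ e ∈ B, (m e - m' e) • v e := by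
      simp only [sub_smul, Finset.sum_sub_distrib, hm, hm']
    rw [← Finset.add_sum_erase _ _ hb, h1, sub_self, zero_smul, zero_add,
      ← Finset.add_sum_erase _ _ (Finset.mem_erase.2 ⟨hbb.symm, hb'⟩), h2, sub_self, zero_smul,
      zero_add] at h4
    rw [← h4]; abel
  rw [h3]
  refine Submodule.add_mem _ (subset_span ⟨x', by simp, rfl⟩) (Submodule.sum_mem _ fun c hc =>
    Submodule.smul_mem _ _ (subset_span ⟨c, ?_, rfl⟩))
  rw [Finset.coe_insert]
  exact Or.inr hc

open Classical in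
/-- the standard family with support `n` -/
noncomputable def qf (F : Type*) [Field F] (B : Finset α) (n : α → α → Prop) (a : α) : α → F :=
  if a ∈ B then Pi.single a 1 else fun b => if b ∈ B ∧ n a b then 1 else 0

/-- scaling -/
theorem scale {B : Finset α} (hB : LinearIndepOn F v (B : Set α)) {X : Set α} {n : α → α → Prop}
    {c d : α → F} (hd : ∀ b ∈ B, d b ≠ 0) (hc : ∀ x ∈ X, c x ≠ 0) (hXB : ∀ x ∈ X, x ∉ B)
    (hx : ∀ x ∈ X, c x • v x = ∑ b ∈ B, (d b * qf F B n x b) • v b) {T : Set α}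
    (hT : T ⊆ X ∪ (B : Set α)) : LinearIndepOn F v T ↔ LinearIndepOn F (qf F B n) T := by
  classical
  let Φ : (α → F) →ₗ[F] V :=
    { toFun := fun f => ∑ b ∈ B, (d b * f b) • v b
      map_add' := fun f g => by simp only [Pi.add_apply, mul_add, add_smul, Finset.sum_add_distrib]
      map_smul' := fun r f => by
        simp only [Pi.smul_apply, smul_eq_mul, RingHom.id_apply, Finset.smul_sum, smul_smul]
        exact Finset.sum_congr rfl fun b _ => by ring_nf }
  have hΦB : ∀ b ∈ B, Φ (qf F B n b) = d b • v b := by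
    intro b hb
    change ∑ b' ∈ B, (d b' * qf F B n b b') • v b' = _
    rw [Finset.sum_eq_single b]
    · rw [qf, if_pos hb, Pi.single_eq_same, mul_one]
    · intro b' _ hbb
      rw [qf, if_pos hb, Pi.single_eq_of_ne hbb, mul_zero, zero_smul]
    · intro h; exact absurd hb h
  have hΦX : ∀ x ∈ X, Φ (qf F B n x) = c x • v x := fun x hx' => (hx x hx').symm
  have hsupp : ∀ f ∈ span F (qf F B n '' T), ∀ b ∉ B, f b = 0 := by
    intro f hf b hb
    induction hf using span_induction with
    | mem f hf =>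
      obtain ⟨a, ha, rfl⟩ := hf
      rw [qf]
      split_ifs with h
      · rw [Pi.single_eq_of_ne]; rintro rfl; exact hb h
      · simp only [hb, false_and, if_false]
    | zero => rfl
    | add f g _ _ hf hg => rw [Pi.add_apply, hf, hg, add_zero]
    | smul r f _ hf => rw [Pi.smul_apply, hf, smul_zero]
  have hinj : Set.InjOn Φ (span F (qf F B n '' T)) := by
    intro f hf g hg hfg
    have h1 := coord_unique hB (p := fun b => d b * f b) (q := fun b => d b * g b) hfg
    ext b
    by_cases hb : b ∈ B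
    · exact mul_left_cancel₀ (hd b hb) (h1 b hb)
    · rw [hsupp f hf b hb, hsupp g hg b hb]
  let e : α → F := fun a => if a ∈ B then d a else c a
  have he : ∀ a ∈ T, e a ≠ 0 := by
    intro a ha
    by_cases hb : a ∈ B
    · simp only [e, if_pos hb]; exact hd a hb
    · simp only [e, if_neg hb]
      rcases hT ha with h | h
      · exact hc a h
      · exact absurd h hb
  have hΦ : ∀ a ∈ T, (Φ ∘ qf F B n) a = e a • v a := by
    intro a ha
    by_cases hb : a ∈ B
    · simp only [e, if_pos hb, Function.comp]; exact hΦB a hb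
    · simp only [e, if_neg hb, Function.comp]
      rcases hT ha with h | h
      · exact hΦX a h
      · exact absurd h hb
  have h1 : LinearIndepOn F (qf F B n) T ↔ LinearIndepOn F (Φ ∘ qf F B n) T :=
    ⟨fun h => h.map_injOn Φ hinj, fun h => h.of_comp Φ⟩
  rw [h1, linearIndepOn_congr hΦ]
  have h2 : LinearIndepOn F (fun a => e a • v a) T ↔ LinearIndepOn F v T := by
    let w : T → Fˣ := fun a => Units.mk0 (e a) (he a a.2)
    constructor
    · intro h
      have := LinearIndependent.units_smul h (fun a => (w a)⁻¹)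
      have h3 : ((fun a => (w a)⁻¹) • fun x : T => (fun a => e a • v a) (x : α)) = fun x : T => v x := by
        funext a
        change ((w a)⁻¹ : Fˣ) • (e a • v a) = v a
        rw [Units.smul_def, smul_smul]
        have : (((w a)⁻¹ : Fˣ) : F) * e a = 1 := by
          rw [Units.val_inv_eq_inv_val]
          exact inv_mul_cancel₀ (he a a.2)
        rw [this, one_smul]
      rw [h3] at this
      exact this
    · intro h
      exact LinearIndependent.units_smul h w
  exact h2.symm

/-- quotients -/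
theorem quot_iff {V' : Type*} [AddCommGroup V'] [Module F V'] (f : V →ₗ[F] V') {C J : Set α}
    (hC : LinearIndepOn F v C) (hCJ : Disjoint C J) (h0 : ∀ c ∈ C, f (v c) = 0)
    (hk : ∀ x ∈ span F (v '' (C ∪ J)), f x = 0 → x ∈ span F (v '' C)) :
    LinearIndepOn F v (C ∪ J) ↔ LinearIndepOn F (f ∘ v) J := by
  constructor
  · intro h
    have hJ : LinearIndepOn F v J := h.mono subset_union_right
    have hd : Disjoint (span F (v '' C)) (span F (v '' J)) :=
      ((linearIndepOn_union_iff hCJ).1 h).2.2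
    apply hJ.map_injOn f
    intro x hx y hy hxy
    have h1 : x - y ∈ span F (v '' J) := Submodule.sub_mem _ hx hy
    have h2 : x - y ∈ span F (v '' C) := by
      apply hk _ (span_mono (image_mono subset_union_right) h1)
      rw [map_sub, hxy, sub_self]
    exact sub_eq_zero.1 (Submodule.disjoint_def.1 hd _ h2 h1)
  · intro h
    have hJ : LinearIndepOn F v J := h.of_comp f
    refine hC.union hJ ?_
    rw [Submodule.disjoint_def]
    intro x hx hx'
    have h1 : f x = 0 := by
      have : span F (v '' C) ≤ LinearMap.ker f := by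
        rw [span_le]; rintro _ ⟨c, hc, rfl⟩; exact h0 c hc
      exact this hx
    rw [Finsupp.mem_span_image_iff_linearCombination] at hx'
    obtain ⟨g, hg, rfl⟩ := hx'
    rw [linearIndepOn_iff] at h
    rw [Finsupp.apply_linearCombination] at h1
    rw [h g hg h1, map_zero]

end General

section Tern

variable {V U W : Type*} [AddCommGroup V] [Module F2 V] [AddCommGroup U] [Module F3 U]
  [AddCommGroup W] [Module F3 W] {v : α → V} {u : α → U} {w : α → W}

theorem f2_one {t : F2} (h : t ≠ 0) : t = 1 := by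
  revert h; revert t; decide

theorem coords {E : Set α} (hvu : ∀ T ⊆ E, (LinearIndepOn F2 v T ↔ LinearIndepOn F3 u T))
    {B : Finset α} (hBE : (B : Set α) ⊆ E) (hB : LinearIndepOn F2 v (B : Set α)) {X : Set α}
    (hXE : X ⊆ E) (hXB : ∀ x ∈ X, x ∉ B) {m : α → α → F2}
    (hm : ∀ x ∈ X, v x = ∑ b ∈ B, m x b • v b) :
    ∃ m' : α → α → F3, (∀ x ∈ X, u x = ∑ b ∈ B, m' x b • u b) ∧
      (∀ x ∈ X, ∀ b ∈ B, (m' x b ≠ 0 ↔ m x b ≠ 0)) ∧
      (∀ x ∈ X, ∀ x' ∈ X, ∀ b ∈ B, ∀ b' ∈ B, m x b ≠ 0 → m x b' ≠ 0 → m x' b ≠ 0 → m x' b' ≠ 0 →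
        m' x b * m' x' b' = m' x b' * m' x' b) := by
  classical
  have hBu : LinearIndepOn F3 u (B : Set α) := (hvu _ hBE).1 hB
  have h1 : ∀ x ∈ X, ∃ c : α → F3, ∑ b ∈ B, c b • u b = u x := by
    intro x hx
    apply mem_span_fin
    by_contra hc
    have h2 : LinearIndepOn F3 u (insert x (B : Set α)) := hBu.insert hc
    rw [← hvu _ (insert_subset (hXE hx) hBE), linearIndepOn_insert (by exact_mod_cast hXB x hx)] at h2
    apply h2.2
    rw [hm x hx]
    exact Submodule.sum_mem _ fun c hc => Submodule.smul_mem _ _ (subset_span ⟨c, hc, rfl⟩)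
  choose! m' hm' using h1
  have hsub : ∀ x ∈ X, ∀ b, ((insert x (B.erase b) : Finset α) : Set α) ⊆ E := by
    intro x hx b
    rw [Finset.coe_insert]
    refine insert_subset (hXE hx) (subset_trans ?_ hBE)
    exact_mod_cast Finset.erase_subset _ _
  refine ⟨m', fun x hx => (hm' x hx).symm, fun x hx b hb => ?_, ?_⟩
  · rw [← entry_iff hB hb (hXB x hx) (hm x hx), hvu _ (hsub x hx b),
      entry_iff hBu hb (hXB x hx) (hm' x hx).symm]
  · intro x hx x' hx' b hb b' hb' h1 h2 h3 h4
    by_cases hxx : x = x'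
    · subst hxx; ring
    by_cases hbb : b = b'
    · subst hbb; ring
    by_contra hne
    have h5 := two_indep hBu hb hb' hbb (hXB x hx) (hXB x' hx') hxx (hm' x hx).symm (hm' x' hx').symm
      (sub_ne_zero.2 hne)
    rw [← hvu] at h5
    · exact two_dep hb hb' hbb (hXB x hx) (hXB x' hx') hxx (hm x hx) (hm x' hx')
        ((f2_one h1).trans (f2_one h3).symm) ((f2_one h2).trans (f2_one h4).symm) h5
    · rw [Finset.coe_insert, Finset.coe_insert]
      refine insert_subset (hXE hx) (insert_subset (hXE hx') (subset_trans ?_ hBE))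
      exact_mod_cast (Finset.erase_subset _ _).trans (Finset.erase_subset _ _)

theorem gen_iff {E : Set α} (hvu : ∀ T ⊆ E, (LinearIndepOn F2 v T ↔ LinearIndepOn F3 u T))
    {B : Finset α} (hBE : (B : Set α) ⊆ E) (hB : LinearIndepOn F2 v (B : Set α)) {X : Set α}
    (hXE : X ⊆ E) (hXB : ∀ x ∈ X, x ∉ B) {m : α → α → F2}
    (hm : ∀ x ∈ X, v x = ∑ b ∈ B, m x b • v b)
    (hrc : (∃ b₀ ∈ B, ∀ x ∈ X, m x b₀ ≠ 0) ∨ (∃ y₀ ∈ X, ∀ b ∈ B, m y₀ b ≠ 0))
    (hwB : LinearIndepOn F3 w (B : Set α)) {c d : α → F3} (hc : ∀ x ∈ X, c x ≠ 0)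
    (hd : ∀ b ∈ B, d b ≠ 0)
    (hw : ∀ x ∈ X, c x • w x = ∑ b ∈ B, (d b * qf F3 B (fun x b => m x b ≠ 0) x b) • w b)
    {T : Set α} (hT : T ⊆ X ∪ (B : Set α)) : LinearIndepOn F2 v T ↔ LinearIndepOn F3 w T := by
  classical
  obtain ⟨m', hm', he, h2⟩ := coords hvu hBE hB hXE hXB hm
  have hBu : LinearIndepOn F3 u (B : Set α) := (hvu _ hBE).1 hB
  rw [hvu T (hT.trans (union_subset hXE hBE)), scale hwB hd hc hXB hw hT]
  -- `u` is a scaling of the standard family
  have key : ∃ c' d' : α → F3, (∀ b ∈ B, d' b ≠ 0) ∧ (∀ x ∈ X, c' x ≠ 0) ∧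
      ∀ x ∈ X, ∀ b ∈ B, c' x * m' x b = d' b * qf F3 B (fun x b => m x b ≠ 0) x b := by
    have hq : ∀ x ∈ X, ∀ b ∈ B, qf F3 B (fun x b => m x b ≠ 0) x b = if m x b ≠ 0 then 1 else 0 := by
      intro x hx b hb
      rw [qf, if_neg (hXB x hx)]
      simp only [hb, true_and]
    rcases hrc with ⟨b₀, hb₀, hr⟩ | ⟨y₀, hy₀, hr⟩
    · let d' : α → F3 := fun b => if h : ∃ x ∈ X, m x b ≠ 0 then m' h.choose b / m' h.choose b₀ else 1
      refine ⟨fun x => (m' x b₀)⁻¹, d', fun b hb => ?_, fun x hx => inv_ne_zero ((he x hx b₀ hb₀).2 (hr x hx)),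
        fun x hx b hb => ?_⟩
      · simp only [d']
        split_ifs with h
        · exact div_ne_zero ((he _ h.choose_spec.1 b hb).2 h.choose_spec.2)
            ((he _ h.choose_spec.1 b₀ hb₀).2 (hr _ h.choose_spec.1))
        · exact one_ne_zero
      · rw [hq x hx b hb]
        by_cases h : m x b ≠ 0
        · have hex : ∃ x ∈ X, m x b ≠ 0 := ⟨x, hx, h⟩
          simp only [d', dif_pos hex, if_pos h, mul_one]
          have h3 := h2 x hx _ hex.choose_spec.1 b hb b₀ hb₀ h (hr x hx) hex.choose_spec.2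
            (hr _ hex.choose_spec.1)
          have n1 := (he x hx b₀ hb₀).2 (hr x hx)
          have n2 := (he _ hex.choose_spec.1 b₀ hb₀).2 (hr _ hex.choose_spec.1)
          rw [inv_mul_eq_div, div_eq_div_iff n1 n2, h3]
          ring
        · have : m' x b = 0 := by
            by_contra hne; exact h ((he x hx b hb).1 hne)
          rw [this, mul_zero, if_neg h, mul_zero]
    · let c' : α → F3 := fun x => if h : ∃ b ∈ B, m x b ≠ 0 then m' y₀ h.choose / m' x h.choose else 1
      refine ⟨c', fun b => m' y₀ b, fun b hb => (he y₀ hy₀ b hb).2 (hr b hb), fun x hx => ?_,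
        fun x hx b hb => ?_⟩
      · simp only [c']
        split_ifs with h
        · exact div_ne_zero ((he _ hy₀ _ h.choose_spec.1).2 (hr _ h.choose_spec.1))
            ((he _ hx _ h.choose_spec.1).2 h.choose_spec.2)
        · exact one_ne_zero
      · rw [hq x hx b hb]
        by_cases h : m x b ≠ 0
        · have hex : ∃ b ∈ B, m x b ≠ 0 := ⟨b, hb, h⟩
          simp only [c', dif_pos hex, if_pos h, mul_one]
          have h3 := h2 x hx y₀ hy₀ b hb _ hex.choose_spec.1 h hex.choose_spec.2 (hr _ hb)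
            (hr _ hex.choose_spec.1)
          have n1 := (he x hx _ hex.choose_spec.1).2 hex.choose_spec.2
          rw [div_mul_eq_mul_div, div_eq_iff n1]
          linear_combination h3
        · have : m' x b = 0 := by
            by_contra hne; exact h ((he x hx b hb).1 hne)
          rw [this, mul_zero, if_neg h, mul_zero]
  obtain ⟨c', d', hd', hc', hk⟩ := key
  refine scale hBu hd' hc' hXB (fun x hx => ?_) hT
  rw [hm' x hx, Finset.smul_sum]
  refine Finset.sum_congr rfl fun b hb => ?_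
  rw [smul_smul, hk x hx b hb]

end Tern

/-! ### The standard ternary family -/

/-- signs -/
def sg (t : F2) : F3 := if t = 0 then 1 else -1

theorem sg_mul (s t : F2) : sg s * sg t = sg (s + t) := by revert s t; decide

theorem sg_ne (t : F2) : sg t ≠ 0 := by revert t; decide

theorem sg_eq (t : F2) : sg t = 1 + (if t ≠ 0 then 1 else 0) := by revert t; decide

theorem sg_sq (t : F2) : sg t * sg t = 1 := by revert t; decide

open Classical in
/-- the ternary family of the relaxation -/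
noncomputable def wv (Y : Finset α) (s : α → α → F2) (a : α) : α → F3 :=
  if a ∈ Y then Pi.single a 1 else fun y => if y ∈ Y then sg (s a y) else 0

open Classical in
theorem single_sum (S : Finset α) (f : α → F3) (y : α) :
    (∑ b ∈ S, f b • (Pi.single b 1 : α → F3)) y = if y ∈ S then f y else 0 := by
  rw [Finset.sum_apply]
  have : ∀ b ∈ S, (f b • (Pi.single b 1 : α → F3)) y = if y = b then f b else 0 := by
    intro b _
    rw [Pi.smul_apply, smul_eq_mul, Pi.single_apply]
    split_ifs <;> simp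
  rw [Finset.sum_congr rfl this, Finset.sum_ite_eq]

open Classical in
theorem wv_sum {Y S : Finset α} (hS : S ⊆ Y) (s : α → α → F2) (f : α → F3) (y : α) :
    (∑ b ∈ S, f b • wv Y s b) y = if y ∈ S then f y else 0 := by
  rw [← single_sum]
  have : ∑ b ∈ S, f b • wv Y s b = ∑ b ∈ S, f b • (Pi.single b 1 : α → F3) :=
    Finset.sum_congr rfl fun b hb => by rw [wv, if_pos (hS hb)]
  rw [this]

theorem wv_out {Y : Finset α} {s : α → α → F2} {x y : α} (hx : x ∉ Y) (hy : y ∈ Y) :
    wv Y s x y = sg (s x y) := by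
  rw [wv, if_neg hx, if_pos hy]

theorem wv_zero {Y : Finset α} {s : α → α → F2} {x y : α} (hy : y ∉ Y) :
    wv Y s x y = 0 := by
  classical
  rw [wv]
  by_cases h : x ∈ Y
  · rw [if_pos h, Pi.single_eq_of_ne]; rintro rfl; exact hy h
  · rw [if_neg h]
    beta_reduce
    rw [if_neg hy]

theorem wv_indep_Y (Y : Finset α) (s : α → α → F2) : LinearIndepOn F3 (wv Y s) (Y : Set α) := by
  classical
  rw [linearIndepOn_finset_iff]
  intro g hg b hb
  have := congrFun hg b
  rw [wv_sum (Finset.Subset.refl Y), if_pos hb] at this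
  exact this

theorem wv_indep [DecidableEq α] {Y : Finset α} (s : α → α → F2) {x y₀ : α} (hx : x ∉ Y) (hy₀ : y₀ ∈ Y) :
    LinearIndepOn F3 (wv Y s) ((insert x (Y.erase y₀) : Finset α) : Set α) := by
  classical
  rw [linearIndepOn_finset_iff]
  intro g hg
  have hx' : x ∉ Y.erase y₀ := fun h => hx (Finset.mem_of_mem_erase h)
  rw [Finset.sum_insert hx'] at hg
  have h1 := congrFun hg y₀
  rw [Pi.add_apply, Pi.smul_apply, wv_out hx hy₀, wv_sum (Finset.erase_subset _ _),
    if_neg (Finset.notMem_erase _ _), add_zero, smul_eq_mul, Pi.zero_apply] at h1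
  have hgx : g x = 0 := by
    rcases mul_eq_zero.1 h1 with h | h
    · exact h
    · exact absurd h (sg_ne _)
  intro e he
  rcases Finset.mem_insert.1 he with rfl | he
  · exact hgx
  have h2 := congrFun hg e
  rw [hgx, zero_smul, zero_add, wv_sum (Finset.erase_subset _ _), if_pos he] at h2
  exact h2

section Cases

variable {V : Type*} [AddCommGroup V] [Module F2 V] {M : Matroid α} {v : α → V}

theorem char2 (x : V) : x + x = 0 := by
  have h : (1 + 1 : F2) = 0 := by decide
  have := add_smul (1 : F2) 1 x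
  rw [h, zero_smul, one_smul] at this
  exact this.symm

theorem shift {Y : Finset α} (hsum : ∑ y ∈ Y, v y = 0) (f : α → F2) (t : F2) :
    ∑ y ∈ Y, f y • v y = ∑ y ∈ Y, (f y + t) • v y := by
  simp only [add_smul, Finset.sum_add_distrib, ← Finset.smul_sum, hsum, smul_zero, add_zero]

theorem shift_erase [DecidableEq α] {Y : Finset α} (hsum : ∑ y ∈ Y, v y = 0) (f : α → F2) {y₀ : α}
    (hy₀ : y₀ ∈ Y) : ∑ y ∈ Y, f y • v y = ∑ y ∈ Y.erase y₀, (f y + f y₀) • v y := by
  rw [shift hsum f (f y₀), ← Finset.add_sum_erase _ _ hy₀]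
  have : f y₀ + f y₀ = 0 := char2 (V := F2) (f y₀)
  rw [this, zero_smul, zero_add]

theorem del_case (hv : IsRep F2 M v) {Y : Finset α} (hYE : (Y : Set α) ⊆ M.E)
    (hsum : ∑ y ∈ Y, v y = 0)
    (hind : ∀ y ∈ Y, ∀ x ∈ M.E, x ∉ Y → M.Indep (insert x ((Y : Set α) \ {y})))
    {x₀ : α} (hx₀ : x₀ ∈ M.E) (hx₀Y : x₀ ∉ Y) {s : α → α → F2} (hs0 : ∀ y, s x₀ y = 0)
    (hs : ∀ x ∈ M.E, x ∉ Y → v x = v x₀ + ∑ y ∈ Y, s x y • v y)
    {y₀ : α} (hy₀ : y₀ ∈ Y) (hdel : Representable F3 (M.delete {y₀})) {T : Set α} (hT : T ⊆ M.E)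
    (hyT : y₀ ∉ T) : M.Indep T ↔ LinearIndepOn F3 (wv Y s) T := by
  classical
  obtain ⟨n, u, hu⟩ := hdel
  rw [hv T hT]
  have hx₀e : x₀ ∉ Y.erase y₀ := fun h => hx₀Y (Finset.mem_of_mem_erase h)
  have hvu : ∀ T ⊆ M.E \ {y₀}, (LinearIndepOn F2 v T ↔ LinearIndepOn F3 u T) := by
    intro T hT
    rw [← hu T hT, ← hv T (hT.trans sdiff_subset), Matroid.delete_indep_iff]
    exact (and_iff_left (disjoint_of_subset_left hT disjoint_sdiff_left)).symm
  let B : Finset α := insert x₀ (Y.erase y₀)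
  let X : Set α := {x | x ∈ M.E ∧ x ∉ Y ∧ x ≠ x₀}
  let m : α → α → F2 := fun x b => if b = x₀ then 1 else s x b + s x y₀
  have hBE : (B : Set α) ⊆ M.E \ {y₀} := by
    intro b hb
    rcases Finset.mem_insert.1 hb with rfl | hb
    · exact ⟨hx₀, fun h => hx₀Y (by rw [h]; exact hy₀)⟩
    · exact ⟨hYE (Finset.mem_of_mem_erase hb), Finset.ne_of_mem_erase hb⟩
  have hB : LinearIndepOn F2 v (B : Set α) := by
    have := hv.linearIndepOn (hind y₀ hy₀ x₀ hx₀ hx₀Y)
    rwa [← Finset.coe_erase, ← Finset.coe_insert] at this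
  have hXE : X ⊆ M.E \ {y₀} := fun x hx => ⟨hx.1, fun h => hx.2.1 (by rw [h]; exact hy₀)⟩
  have hXB : ∀ x ∈ X, x ∉ B := by
    intro x hx hxB
    rcases Finset.mem_insert.1 hxB with h | h
    · exact hx.2.2 h
    · exact hx.2.1 (Finset.mem_of_mem_erase h)
  have hm1 : ∀ x, ∀ b ∈ Y.erase y₀, m x b = s x b + s x y₀ := by
    intro x b hb
    simp only [m]
    rw [if_neg]
    rintro rfl
    exact hx₀e hb
  have hm : ∀ x ∈ X, v x = ∑ b ∈ B, m x b • v b := by
    intro x hx
    rw [Finset.sum_insert hx₀e, hs x hx.1 hx.2.1, shift_erase hsum _ hy₀]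
    congr 1
    · simp only [m, if_true, one_smul]
    · exact Finset.sum_congr rfl fun b hb => by rw [hm1 x b hb]
  have hrc : (∃ b₀ ∈ B, ∀ x ∈ X, m x b₀ ≠ 0) ∨ (∃ y₀ ∈ X, ∀ b ∈ B, m y₀ b ≠ 0) := by
    refine Or.inl ⟨x₀, Finset.mem_insert_self _ _, fun x _ => ?_⟩
    simp only [m, if_true]
    exact one_ne_zero
  have hwB : LinearIndepOn F3 (wv Y s) (B : Set α) := wv_indep s hx₀Y hy₀
  refine gen_iff (c := fun x => sg (s x y₀)) (d := fun _ => 1) hvu hBE hB hXE hXB hm hrc hwB
    (fun x _ => sg_ne _) (fun b _ => one_ne_zero) ?_ ?_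
  · intro x hx
    have hq0 : qf F3 B (fun x b => m x b ≠ 0) x x₀ = 1 := by
      rw [qf, if_neg (hXB x hx), if_pos]
      refine ⟨Finset.mem_insert_self _ _, ?_⟩
      simp only [m, if_true]
      exact one_ne_zero
    have hq1 : ∀ b ∈ Y.erase y₀, qf F3 B (fun x b => m x b ≠ 0) x b =
        if s x b + s x y₀ ≠ 0 then 1 else 0 := by
      intro b hb
      rw [qf, if_neg (hXB x hx)]
      simp only [hm1 x b hb, B, Finset.mem_insert_of_mem hb, true_and]
    rw [Finset.sum_insert hx₀e, hq0]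
    funext y
    rw [Pi.add_apply, Pi.smul_apply, Pi.smul_apply]
    simp only [one_mul, smul_eq_mul]
    rw [wv_sum (Finset.erase_subset _ _)]
    by_cases hy : y ∈ Y
    · rw [wv_out hx.2.1 hy, wv_out hx₀Y hy, hs0, sg_mul]
      by_cases hyy : y = y₀
      · subst hyy
        rw [if_neg (Finset.notMem_erase _ _), char2 (V := F2)]
        simp
      · rw [if_pos (Finset.mem_erase.2 ⟨hyy, hy⟩), hq1 y (Finset.mem_erase.2 ⟨hyy, hy⟩), sg_eq,
          add_comm (s x y₀)]
        simp [sg]
    · rw [wv_zero hy, wv_zero hy, if_neg (fun h => hy (Finset.mem_of_mem_erase h))]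
      simp
  · intro t ht
    by_cases htY : t ∈ Y
    · refine Or.inr (Finset.mem_insert_of_mem (Finset.mem_erase.2 ⟨?_, htY⟩))
      rintro rfl; exact hyT ht
    · by_cases htx : t = x₀
      · rw [htx]; exact Or.inr (Finset.mem_insert_self _ _)
      · exact Or.inl ⟨hT ht, htY, htx⟩

theorem con_case (hv : IsRep F2 M v) {Y : Finset α} (hYE : (Y : Set α) ⊆ M.E)
    (hsum : ∑ y ∈ Y, v y = 0)
    (hind : ∀ y ∈ Y, ∀ x ∈ M.E, x ∉ Y → M.Indep (insert x ((Y : Set α) \ {y})))
    {x₀ : α} {s : α → α → F2}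
    (hs : ∀ x ∈ M.E, x ∉ Y → v x = v x₀ + ∑ y ∈ Y, s x y • v y)
    {y₀ x₁ : α} (hy₀ : y₀ ∈ Y) (hx₁ : x₁ ∈ M.E) (hx₁Y : x₁ ∉ Y)
    (hcon : Representable F3 (M.contract {x₁})) {T : Set α} (hT : T ⊆ M.E)
    (hxT : x₁ ∈ T) : M.Indep T ↔ LinearIndepOn F3 (wv Y s) T := by
  classical
  obtain ⟨n, u, hu⟩ := hcon
  have hv' := hv.contract (singleton_subset_iff.2 hx₁)
  set v' := (span F2 (v '' {x₁})).mkQ ∘ v with hv'def
  let w' := (span F3 (wv Y s '' {x₁})).mkQ ∘ wv Y s
  have hvx : LinearIndepOn F2 v {x₁} := (hv.linearIndepOn (hind y₀ hy₀ x₁ hx₁ hx₁Y)).mono (by simp)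
  have hwx : LinearIndepOn F3 (wv Y s) {x₁} := (wv_indep s hx₁Y hy₀).mono (by simp)
  have hTe : T = {x₁} ∪ (T \ {x₁}) := by
    rw [union_sdiff_self, union_eq_self_of_subset_left (singleton_subset_iff.2 hxT)]
  have hdisj : Disjoint {x₁} (T \ {x₁}) := disjoint_sdiff_right
  rw [hv T hT, hTe, ← hvx.quotient_iff_union hdisj, ← hwx.quotient_iff_union hdisj]
  change LinearIndepOn F2 v' _ ↔ LinearIndepOn F3 w' _
  have hvu : ∀ T ⊆ M.E \ {x₁}, (LinearIndepOn F2 v' T ↔ LinearIndepOn F3 u T) := by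
    intro T hT
    rw [← hu T hT, ← hv' T hT]
  have hxe : x₁ ∉ Y.erase y₀ := fun h => hx₁Y (Finset.mem_of_mem_erase h)
  have hy₀x : y₀ ≠ x₁ := by rintro rfl; exact hx₁Y hy₀
  let B : Finset α := Y.erase y₀
  let X : Set α := {x | (x = y₀ ∨ (x ∈ M.E ∧ x ∉ Y)) ∧ x ≠ x₁}
  let m : α → α → F2 := fun x b => if x = y₀ then 1 else s x b + s x₁ b + (s x y₀ + s x₁ y₀)
  have hBE : (B : Set α) ⊆ M.E \ {x₁} := by
    intro b hb
    refine ⟨hYE (Finset.mem_of_mem_erase hb), ?_⟩
    rintro rfl
    exact hxe hb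
  have hd1 : Disjoint {x₁} (B : Set α) := by
    rw [Set.disjoint_singleton_left]; exact_mod_cast hxe
  have hB : LinearIndepOn F2 v' (B : Set α) := by
    have := hv.linearIndepOn (hind y₀ hy₀ x₁ hx₁ hx₁Y)
    rw [← Finset.coe_erase, ← singleton_union] at this
    exact (hvx.quotient_iff_union hd1).2 this
  have hXE : X ⊆ M.E \ {x₁} := by
    rintro x ⟨rfl | h, h2⟩
    · exact ⟨hYE hy₀, h2⟩
    · exact ⟨h.1, h2⟩
  have hXB : ∀ x ∈ X, x ∉ B := by
    rintro x ⟨rfl | h, h2⟩ hxB
    · exact Finset.notMem_erase _ _ hxB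
    · exact h.2 (Finset.mem_of_mem_erase hxB)
  have hv1 : v' x₁ = 0 := by
    rw [hv'def, Function.comp, Submodule.mkQ_apply, Submodule.Quotient.mk_eq_zero]
    exact subset_span ⟨x₁, rfl, rfl⟩
  have hw1 : w' x₁ = 0 := by
    change (span F3 (wv Y s '' {x₁})).mkQ (wv Y s x₁) = 0
    rw [Submodule.mkQ_apply, Submodule.Quotient.mk_eq_zero]
    exact subset_span ⟨x₁, rfl, rfl⟩
  have hm : ∀ x ∈ X, v' x = ∑ b ∈ B, m x b • v' b := by
    rintro x ⟨hx, hxx⟩
    by_cases hxy : x = y₀
    · subst hxy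
      simp only [m, if_true, one_smul]
      have h1 : v x = ∑ b ∈ B, v b := by
        have := hsum
        rw [← Finset.add_sum_erase _ _ hy₀] at this
        have h3 := char2 (∑ b ∈ Y.erase x, v b)
        exact add_right_cancel (this.trans h3.symm)
      simp only [hv'def, Function.comp, h1, map_sum]
    · have hx' : x ∈ M.E ∧ x ∉ Y := by
        rcases hx with h | h
        · exact absurd h hxy
        · exact h
      have h1 : v x = v x₁ + ∑ b ∈ B, m x b • v b := by
        have h2 := hs x hx'.1 hx'.2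
        have h3 := hs x₁ hx₁ hx₁Y
        have h4 : v x + v x₁ = ∑ y ∈ Y, (s x y + s x₁ y) • v y := by
          simp only [add_smul, Finset.sum_add_distrib]
          have := char2 (v x₀)
          rw [h2, h3]
          calc _ = (v x₀ + v x₀) + (∑ y ∈ Y, s x y • v y + ∑ y ∈ Y, s x₁ y • v y) := by abel
            _ = _ := by rw [this, zero_add]
        rw [shift_erase hsum _ hy₀] at h4
        have h5 : ∑ b ∈ B, m x b • v b = v x + v x₁ := by
          rw [h4]
          refine Finset.sum_congr rfl fun b _ => ?_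
          simp only [m, if_neg hxy]
        rw [h5]
        have := char2 (v x₁)
        calc v x = v x + (v x₁ + v x₁) := by rw [this, add_zero]
          _ = _ := by abel
      have h2 : v' x = v' x₁ + ∑ b ∈ B, m x b • v' b := by
        simp only [hv'def, Function.comp]
        rw [h1, map_add, map_sum]
        simp only [map_smul]
      rw [h2, hv1, zero_add]
  have hrc : (∃ b₀ ∈ B, ∀ x ∈ X, m x b₀ ≠ 0) ∨ (∃ y₀ ∈ X, ∀ b ∈ B, m y₀ b ≠ 0) := by
    refine Or.inr ⟨y₀, ⟨Or.inl rfl, hy₀x⟩, fun b _ => ?_⟩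
    simp only [m, if_true]
    exact one_ne_zero
  have hwB : LinearIndepOn F3 w' (B : Set α) := by
    have := wv_indep s hx₁Y hy₀
    rw [Finset.coe_insert, ← singleton_union] at this
    exact (hwx.quotient_iff_union hd1).2 this
  have hBY : B ⊆ Y := Finset.erase_subset _ _
  refine gen_iff (c := fun x => if x = y₀ then - sg (s x₁ y₀) else sg (s x y₀ + s x₁ y₀))
    (d := fun b => sg (s x₁ b)) hvu hBE hB hXE hXB hm hrc hwB
    (fun x _ => ?_) (fun b _ => sg_ne _) ?_ ?_
  · beta_reduce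
    split_ifs
    · exact neg_ne_zero.2 (sg_ne _)
    · exact sg_ne _
  · rintro x ⟨hx, hxx⟩
    by_cases hxy : x = y₀
    · subst hxy
      have hq : ∀ b ∈ B, qf F3 B (fun x b => m x b ≠ 0) x b = 1 := by
        intro b hb
        rw [qf, if_neg (Finset.notMem_erase _ _), if_pos]
        refine ⟨hb, ?_⟩
        simp only [m, if_true]
        exact one_ne_zero
      have h1 : wv Y s x₁ = sg (s x₁ x) • wv Y s x + ∑ b ∈ B, sg (s x₁ b) • wv Y s b := by
        funext y
        rw [Pi.add_apply, Pi.smul_apply, wv_sum hBY]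
        by_cases hy : y ∈ Y
        · rw [wv_out hx₁Y hy, wv, if_pos hy₀]
          by_cases hyy : y = x
          · subst hyy
            rw [if_neg (Finset.notMem_erase _ _), Pi.single_eq_same]
            simp
          · rw [if_pos (Finset.mem_erase.2 ⟨hyy, hy⟩), Pi.single_eq_of_ne hyy]
            simp
        · rw [wv_zero hy, wv_zero hy, if_neg (fun h => hy (Finset.mem_of_mem_erase h))]
          simp
      have h2 : w' x₁ = sg (s x₁ x) • w' x + ∑ b ∈ B, sg (s x₁ b) • w' b := by
        simp only [w', Function.comp]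
        rw [h1, map_add, map_sum]
        simp only [map_smul]
      rw [hw1] at h2
      simp only [if_true]
      rw [neg_smul, neg_eq_iff_add_eq_zero, h2]
      congr 1
      exact Finset.sum_congr rfl fun b hb => by rw [hq b hb, mul_one]
    · have hx' : x ∈ M.E ∧ x ∉ Y := by
        rcases hx with h | h
        · exact absurd h hxy
        · exact h
      have hq : ∀ b ∈ B, qf F3 B (fun x b => m x b ≠ 0) x b =
          if s x b + s x₁ b + (s x y₀ + s x₁ y₀) ≠ 0 then 1 else 0 := by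
        intro b hb
        rw [qf, if_neg (hXB x ⟨hx, hxx⟩)]
        simp only [hb, true_and, m, if_neg hxy]
      have h1 : sg (s x y₀ + s x₁ y₀) • wv Y s x = wv Y s x₁ +
          ∑ b ∈ B, (sg (s x₁ b) * qf F3 B (fun x b => m x b ≠ 0) x b) • wv Y s b := by
        funext y
        rw [Pi.add_apply, Pi.smul_apply, wv_sum hBY]
        by_cases hy : y ∈ Y
        · rw [wv_out hx'.2 hy, wv_out hx₁Y hy, smul_eq_mul]
          by_cases hyy : y = y₀
          · subst hyy
            rw [if_neg (Finset.notMem_erase _ _), sg_mul, add_right_comm, char2 (V := F2), zero_add,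
              add_zero]
          · rw [if_pos (Finset.mem_erase.2 ⟨hyy, hy⟩), hq y (Finset.mem_erase.2 ⟨hyy, hy⟩), sg_mul]
            generalize s x y₀ = t1
            generalize s x₁ y₀ = t2
            generalize s x y = t3
            generalize s x₁ y = t4
            revert t1 t2 t3 t4
            decide
        · rw [wv_zero hy, wv_zero hy, if_neg (fun h => hy (Finset.mem_of_mem_erase h))]
          simp
      have h2 : sg (s x y₀ + s x₁ y₀) • w' x = w' x₁ +
          ∑ b ∈ B, (sg (s x₁ b) * qf F3 B (fun x b => m x b ≠ 0) x b) • w' b := by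
        simp only [w', Function.comp]
        rw [← map_smul, h1, map_add, map_sum]
        simp only [map_smul]
      rw [hw1, zero_add] at h2
      simp only [if_neg hxy]
      exact h2
  · rintro t ⟨ht, htx⟩
    have htx' : t ≠ x₁ := htx
    by_cases htY : t ∈ Y
    · by_cases hty : t = y₀
      · exact Or.inl ⟨Or.inl hty, htx'⟩
      · exact Or.inr (Finset.mem_erase.2 ⟨hty, htY⟩)
    · exact Or.inl ⟨Or.inr ⟨hT ht, htY⟩, htx'⟩

end Cases

/-! ### The seven points -/

/-- the line -/
def Ln : Fin 3 → P := ![![1, 0, 0], ![0, 1, 0], ![1, 1, 0]]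

/-- the standard ternary vectors -/
def std (p : P) (i : Fin 3) : F3 :=
  if p 2 = 0 then (if Ln i = p then 1 else 0) else (![1, sg (p 0 + p 1), sg (p 0)] : Fin 3 → F3) i

/-- independent triple of vectors of length three, in coordinates -/
def tri (F : Type) [Field F] (x y z : Fin 3 → F) : Prop :=
  ∀ a b c : F, a * x 0 + b * y 0 + c * z 0 = 0 → a * x 1 + b * y 1 + c * z 1 = 0 →
    a * x 2 + b * y 2 + c * z 2 = 0 → a = 0 ∧ b = 0 ∧ c = 0

instance (x y z : Fin 3 → F2) : Decidable (tri F2 x y z) := by unfold tri; infer_instance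
instance (x y z : Fin 3 → F3) : Decidable (tri F3 x y z) := by unfold tri; infer_instance

/-- distinct points, not the line -/
def good (p q r : P) : Prop :=
  (p ≠ 0 ∧ q ≠ 0 ∧ r ≠ 0) ∧ (p ≠ q ∧ p ≠ r ∧ q ≠ r) ∧ ¬ (p 2 = 0 ∧ q 2 = 0 ∧ r 2 = 0)

instance (p q r : P) : Decidable (good p q r) := by unfold good; infer_instance

theorem check0 : ∀ p q r : P, good p q r → (tri F2 p q r ↔ tri F3 (std p) (std q) (std r)) := by
  decide +kernel

theorem triple_iff {F : Type} [Field F] (f : α → (Fin 3 → F)) {i j k : α} (hij : i ≠ j)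
    (hik : i ≠ k) (hjk : j ≠ k) :
    LinearIndepOn F f {i, j, k} ↔ tri F (f i) (f j) (f k) := by
  classical
  have hset : ({i, j, k} : Set α) = (({i, j, k} : Finset α) : Set α) := by simp
  have h1 : i ∉ ({j, k} : Finset α) := by simp [hij, hik]
  have h2 : j ∉ ({k} : Finset α) := by simp [hjk]
  have hs : ∀ g : α → F, ∑ e ∈ ({i, j, k} : Finset α), g e • f e = g i • f i + (g j • f j + g k • f k) := by
    intro g
    rw [Finset.sum_insert h1, Finset.sum_insert h2, Finset.sum_singleton]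
  rw [hset, linearIndepOn_finset_iff]
  constructor
  · intro h a b c e0 e1 e2
    let g : α → F := fun e => if e = i then a else if e = j then b else c
    have gi : g i = a := by simp [g]
    have gj : g j = b := by simp [g, hij.symm]
    have gk : g k = c := by simp [g, hik.symm, hjk.symm]
    have h3 := h g (by
      rw [hs, gi, gj, gk]
      funext t
      simp only [Pi.add_apply, Pi.smul_apply, smul_eq_mul, Pi.zero_apply]
      fin_cases t
      · rw [← add_assoc]; exact e0
      · rw [← add_assoc]; exact e1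
      · rw [← add_assoc]; exact e2)
    refine ⟨?_, ?_, ?_⟩
    · rw [← gi]; exact h3 i (by simp)
    · rw [← gj]; exact h3 j (by simp)
    · rw [← gk]; exact h3 k (by simp)
  · intro h g hg
    rw [hs] at hg
    have h3 := h (g i) (g j) (g k)
      (by have := congrFun hg 0; simpa [← add_assoc] using this)
      (by have := congrFun hg 1; simpa [← add_assoc] using this)
      (by have := congrFun hg 2; simpa [← add_assoc] using this)
    intro e he
    simp only [Finset.mem_insert, Finset.mem_singleton] at he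
    rcases he with rfl | rfl | rfl
    · exact h3.1
    · exact h3.2.1
    · exact h3.2.2

section Fin

variable {V : Type*} [AddCommGroup V] [Module F2 V] {M : Matroid α} {v : α → V}

theorem line_cases {p : P} (hp : p ≠ 0) (h2 : p 2 = 0) : ∃ i, Ln i = p := by
  revert p; decide

theorem Ln_two (i : Fin 3) : Ln i 2 = 0 := by revert i; decide

theorem Ln_ne (i : Fin 3) : Ln i ≠ 0 := by revert i; decide

theorem Ln_inj {i j : Fin 3} (h : Ln i = Ln j) : i = j := by revert i j; decide

theorem sg_aux (p : P) (t : Fin 3 → F2) (h0 : t 0 = 0)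
    (h3 : p = ![0, 0, 1] + (t 1 • Ln 1 + t 2 • Ln 2)) (i : Fin 3) :
    sg (t i) = (![1, sg (p 0 + p 1), sg (p 0)] : Fin 3 → F3) i := by
  subst h3
  revert t i
  decide

theorem fin_case (hv : IsRep F2 M v) {C : Set α} {z : P → α} (π : V →ₗ[F2] P)
    (hker : LinearMap.ker π = span F2 (v '' C)) (hπ : ∀ p, p ≠ 0 → π (v (z p)) = p)
    {Y : Finset α} (hY : ∀ y, y ∈ Y ↔ (y ∈ C ∨ ∃ i, y = z (Ln i))) (hYE : (Y : Set α) ⊆ M.E)
    (hCi : LinearIndepOn F2 v C) (hzE : ∀ p, p ≠ 0 → z p ∈ M.E) {s : α → α → F2}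
    (hs : ∀ x ∈ M.E, x ∉ Y → v x = v (z ![0, 0, 1]) + ∑ y ∈ Y, s x y • v y)
    (hsa : ∀ x ∈ M.E, x ∉ Y → s x (z (Ln 0)) = 0) {p q r : P} (hg : good p q r) :
    M.Indep (C ∪ {z p, z q, z r}) ↔ LinearIndepOn F3 (wv Y s) (C ∪ {z p, z q, z r}) := by
  classical
  obtain ⟨⟨hp, hq, hr⟩, ⟨hpq, hpr, hqr⟩, -⟩ := id hg
  have hzi : ∀ p q, p ≠ 0 → q ≠ 0 → z p = z q → p = q := by
    intro p q hp hq h
    rw [← hπ p hp, ← hπ q hq, h]
  have hπC : ∀ c ∈ C, π (v c) = 0 := by
    intro c hc
    have : v c ∈ LinearMap.ker π := by rw [hker]; exact subset_span ⟨c, hc, rfl⟩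
    exact this
  have hzC : ∀ p, p ≠ 0 → z p ∉ C := by
    intro p hp hc
    exact hp ((hπ p hp).symm.trans (hπC _ hc))
  have hzY : ∀ p, p ≠ 0 → p 2 ≠ 0 → z p ∉ Y := by
    intro p hp h2 hc
    rcases (hY _).1 hc with h | ⟨i, hi⟩
    · exact hzC p hp h
    · have := hzi p (Ln i) hp (Ln_ne i) hi
      rw [this] at h2
      exact h2 (Ln_two i)
  have hE : C ∪ {z p, z q, z r} ⊆ M.E := by
    refine union_subset (fun c hc => hYE ((hY c).2 (Or.inl hc))) ?_
    rintro _ (rfl | rfl | rfl)
    · exact hzE p hp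
    · exact hzE q hq
    · exact hzE r hr
  have hdisj : Disjoint C {z p, z q, z r} := by
    rw [Set.disjoint_right]
    rintro _ (rfl | rfl | rfl)
    · exact hzC p hp
    · exact hzC q hq
    · exact hzC r hr
  have n1 : z p ≠ z q := fun h => hpq (hzi p q hp hq h)
  have n2 : z p ≠ z r := fun h => hpr (hzi p r hp hr h)
  have n3 : z q ≠ z r := fun h => hqr (hzi q r hq hr h)
  rw [hv _ hE, quot_iff π hCi hdisj hπC (fun x _ hx => by rw [← hker]; exact hx),
    triple_iff _ n1 n2 n3]
  simp only [Function.comp]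
  rw [hπ p hp, hπ q hq, hπ r hr, check0 p q r hg]
  -- the ternary side
  let ρ : (α → F3) →ₗ[F3] (Fin 3 → F3) := LinearMap.pi fun i => LinearMap.proj (z (Ln i))
  have hρ : ∀ f i, ρ f i = f (z (Ln i)) := fun f i => rfl
  have hCY : C ⊆ (Y : Set α) := fun c hc => (hY c).2 (Or.inl hc)
  have hwC : LinearIndepOn F3 (wv Y s) C := (wv_indep_Y Y s).mono hCY
  have h0 : ∀ c ∈ C, ρ (wv Y s c) = 0 := by
    intro c hc
    funext i
    rw [hρ, wv, if_pos (show c ∈ Y from hCY hc), Pi.single_eq_of_ne]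
    · rfl
    · rintro rfl
      exact hzC _ (Ln_ne i) hc
  have hsup0 : ∀ x ∈ span F3 (wv Y s '' (C ∪ {z p, z q, z r})), ∀ y ∉ Y, x y = 0 := by
    intro x hx y hy
    induction hx using span_induction with
    | mem f hf => obtain ⟨a, ha, rfl⟩ := hf; exact wv_zero hy
    | zero => rfl
    | add f g _ _ hf hg => rw [Pi.add_apply, hf, hg, add_zero]
    | smul c f _ hf => rw [Pi.smul_apply, hf, smul_zero]
  have hk : ∀ x ∈ span F3 (wv Y s '' (C ∪ {z p, z q, z r})), ρ x = 0 →
      x ∈ span F3 (wv Y s '' C) := by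
    intro x hx hρx
    have hsup : ∀ y ∉ Y, x y = 0 := hsup0 x hx
    have hx1 : x = ∑ y ∈ Y, x y • wv Y s y := by
      funext y
      rw [wv_sum (Finset.Subset.refl Y)]
      split_ifs with h
      · rfl
      · exact hsup y h
    rw [hx1]
    refine Submodule.sum_mem _ fun y hy => ?_
    rcases (hY y).1 hy with h | ⟨i, rfl⟩
    · exact Submodule.smul_mem _ _ (subset_span ⟨y, h, rfl⟩)
    · have : x (z (Ln i)) = 0 := congrFun hρx i
      rw [this, zero_smul]
      exact Submodule.zero_mem _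
  rw [quot_iff ρ hwC hdisj h0 hk, triple_iff _ n1 n2 n3]
  have hstd : ∀ p, p ≠ 0 → ρ (wv Y s (z p)) = std p := by
    intro p hp
    by_cases h2 : p 2 = 0
    · obtain ⟨i, rfl⟩ := line_cases hp h2
      funext j
      rw [hρ, wv, if_pos ((hY _).2 (Or.inr ⟨i, rfl⟩)), std, if_pos h2]
      by_cases hij : i = j
      · subst hij; simp
      · rw [Pi.single_eq_of_ne, if_neg]
        · intro h; exact hij (Ln_inj h).symm
        · intro h; exact hij (Ln_inj (hzi _ _ (Ln_ne j) (Ln_ne i) h)).symm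
    · have hzp := hzY p hp h2
      have h3 := congrArg π (hs (z p) (hzE p hp) hzp)
      rw [map_add, hπ p hp, hπ ![0, 0, 1] (by decide), map_sum] at h3
      have h4 : ∑ y ∈ Y, π (s (z p) y • v y) =
          ∑ i : Fin 3, s (z p) (z (Ln i)) • Ln i := by
        have h5 : ∑ y ∈ Finset.univ.image (fun i : Fin 3 => z (Ln i)), π (s (z p) y • v y) =
            ∑ y ∈ Y, π (s (z p) y • v y) := by
          apply Finset.sum_subset
          · intro y hy
            obtain ⟨i, -, rfl⟩ := Finset.mem_image.1 hy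
            exact (hY _).2 (Or.inr ⟨i, rfl⟩)
          · intro y hy hyn
            rcases (hY y).1 hy with h | ⟨i, rfl⟩
            · rw [map_smul, hπC y h, smul_zero]
            · exact absurd (Finset.mem_image.2 ⟨i, Finset.mem_univ _, rfl⟩) hyn
        rw [← h5, Finset.sum_image]
        · refine Finset.sum_congr rfl fun i _ => ?_
          rw [map_smul, hπ _ (Ln_ne i)]
        · intro i _ j _ hij
          exact Ln_inj (hzi _ _ (Ln_ne i) (Ln_ne j) hij)
      rw [h4, Fin.sum_univ_three, hsa (z p) (hzE p hp) hzp, zero_smul, zero_add] at h3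
      have hw : ∀ i, ρ (wv Y s (z p)) i = sg (s (z p) (z (Ln i))) := by
        intro i
        rw [hρ, wv_out hzp ((hY _).2 (Or.inr ⟨i, rfl⟩))]
      funext i
      rw [hw, std, if_neg h2]
      exact sg_aux p (fun i => s (z p) (z (Ln i))) (hsa (z p) (hzE p hp) hzp) h3 i
  simp only [Function.comp]
  rw [hstd p hp, hstd q hq, hstd r hr]

theorem isBase_iff_ncard [M.Finite] {B₀ B : Set α} (hB₀ : M.IsBase B₀) :
    M.IsBase B ↔ M.Indep B ∧ B.ncard = B₀.ncard := by
  constructor
  · intro h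
    exact ⟨h.indep, h.ncard_eq_ncard_of_isBase hB₀⟩
  · rintro ⟨hi, hc⟩
    obtain ⟨B', hB', hBB⟩ := hi.exists_isBase_superset
    have h1 := hB'.ncard_eq_ncard_of_isBase hB₀
    have h2 : B = B' := Set.eq_of_subset_of_ncard_le hBB (by rw [h1, hc])
      (M.ground_finite.subset hB'.subset_ground)
    rw [h2]
    exact hB'

theorem std_case {n : ℕ} {v : α → (Fin n → F2)} [M.Finite] (hv : IsRep F2 M v) {C : Set α}
    {z : P → α} (hcfg : F7Cfg v M.E C z)
    (hCH : IsCircuitHyperplane M (C ∪ {y | ∃ i, y = z (Ln i)}))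
    (hdel : ∀ y ∈ C, Representable F3 (M.delete {y}))
    (hcon : ∀ x ∈ M.E, x ∉ C → (∀ p, p ≠ 0 → z p ≠ x) → Representable F3 (M.contract {x})) :
    ∃ N, IsRelaxation N M (C ∪ {y | ∃ i, y = z (Ln i)}) ∧ Representable F3 N := by
  classical
  obtain ⟨hCE, hzE, π, hker, hπ⟩ := hcfg
  obtain ⟨hcirc, hcoc⟩ := hCH
  have hfin : (C ∪ {y | ∃ i, y = z (Ln i)}).Finite := M.ground_finite.subset hcirc.subset_ground
  obtain ⟨Y, hYeq⟩ : ∃ Y : Finset α, (Y : Set α) = C ∪ {y | ∃ i, y = z (Ln i)} :=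
    ⟨hfin.toFinset, hfin.coe_toFinset⟩
  rw [← hYeq] at hcirc hcoc ⊢
  have hY : ∀ y, y ∈ Y ↔ (y ∈ C ∨ ∃ i, y = z (Ln i)) := by
    intro y
    have : y ∈ (Y : Set α) ↔ y ∈ C ∪ {y | ∃ i, y = z (Ln i)} := by rw [hYeq]
    exact this
  have hYE : (Y : Set α) ⊆ M.E := hcirc.subset_ground
  have hzi : ∀ p q, p ≠ 0 → q ≠ 0 → z p = z q → p = q := by
    intro p q hp hq h
    rw [← hπ p hp, ← hπ q hq, h]
  have hπC : ∀ c ∈ C, π (v c) = 0 := by
    intro c hc
    have : v c ∈ LinearMap.ker π := by rw [hker]; exact subset_span ⟨c, hc, rfl⟩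
    exact this
  have hzC : ∀ p, p ≠ 0 → z p ∉ C := by
    intro p hp hc
    exact hp ((hπ p hp).symm.trans (hπC _ hc))
  have hzY : ∀ p, p ≠ 0 → p 2 ≠ 0 → z p ∉ Y := by
    intro p hp h2 hc
    rcases (hY _).1 hc with h | ⟨i, hi⟩
    · exact hzC p hp h
    · have := hzi p (Ln i) hp (Ln_ne i) hi
      rw [this] at h2
      exact h2 (Ln_two i)
  -- the sum over the circuit
  have hsum : ∑ y ∈ Y, v y = 0 := by
    obtain ⟨c, hc0, hc⟩ := exists_coeff hv hcirc
    rw [← hc]
    exact Finset.sum_congr rfl fun y hy => by rw [f2_one (hc0 y hy), one_smul]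
  -- independence
  have hind : ∀ y ∈ Y, ∀ x ∈ M.E, x ∉ Y → M.Indep (insert x ((Y : Set α) \ {y})) := by
    intro y hy x hx hxY
    have h1 : M.Indep ((Y : Set α) \ {y}) := hcirc.sdiff_singleton_indep hy
    by_contra hni
    have hdep : M.Dep (insert x ((Y : Set α) \ {y})) :=
      ⟨hni, insert_subset hx (sdiff_subset.trans hYE)⟩
    obtain ⟨C', hC', hcC'⟩ := hdep.exists_isCircuit_subset
    apply hcC'.inter_isCocircuit_ne_singleton hcoc (e := x)
    have hxC' : x ∈ C' := by
      by_contra hx'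
      apply hcC'.not_indep
      apply h1.subset
      intro e he
      rcases hC' he with h | h
      · exact absurd (h ▸ he) hx'
      · exact h
    ext e
    constructor
    · rintro ⟨he, he2⟩
      rcases hC' he with h | h
      · exact h
      · exact absurd h.1 he2.2
    · rintro rfl
      exact ⟨hxC', hx, hxY⟩
  have hx₀Y : z ![0, 0, 1] ∉ Y := hzY _ (by decide) (by decide)
  have hx₀E : z ![0, 0, 1] ∈ M.E := hzE _ (by decide)
  set x₀ := z ![0, 0, 1] with hx₀
  have haY : z (Ln 0) ∈ Y := (hY _).2 (Or.inr ⟨0, rfl⟩)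
  -- differences
  have hs1 : ∀ x ∈ M.E, x ∉ Y → ∃ c : α → F2, v x = v x₀ + ∑ y ∈ Y, c y • v y ∧
      c (z (Ln 0)) = 0 := by
    intro x hx hxY
    have hsp : M.Spanning (insert x₀ (Y : Set α)) := by
      rw [Matroid.isCocircuit_iff_minimal_compl_nonspanning] at hcoc
      have h2 := hcoc.not_prop_of_ssubset (t := (M.E \ Y) \ {x₀})
        (sdiff_singleton_ssubset.2 ⟨hx₀E, hx₀Y⟩)
      rw [not_not] at h2
      have h3 : M.E \ ((M.E \ Y) \ {x₀}) = insert x₀ (Y : Set α) := by
        ext e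
        simp only [mem_sdiff, mem_singleton_iff, mem_insert_iff, not_and, not_not]
        constructor
        · rintro ⟨he, h4⟩
          by_cases heY : e ∈ (Y : Set α)
          · exact Or.inr heY
          · exact Or.inl (h4 ⟨he, heY⟩)
        · rintro (rfl | h)
          · exact ⟨hx₀E, fun _ => rfl⟩
          · exact ⟨hYE h, fun h4 => absurd h h4.2⟩
      rwa [h3] at h2
    have hcl : x ∈ M.closure (insert x₀ (Y : Set α)) := by
      rw [hsp.closure_eq]; exact hx
    rw [hv.mem_closure_iff (insert_subset hx₀E hYE) hx] at hcl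
    rw [← Finset.coe_insert] at hcl
    obtain ⟨c, hc⟩ := mem_span_fin hcl
    rw [Finset.sum_insert hx₀Y] at hc
    have hc0 : c x₀ = 1 := by
      apply f2_one
      intro h0
      rw [h0, zero_smul, zero_add, shift_erase hsum _ haY] at hc
      have h5 := hv.linearIndepOn (hind _ haY x hx hxY)
      rw [← Finset.coe_erase, linearIndepOn_insert (by
        rw [Finset.coe_erase]; exact fun h => hxY h.1)] at h5
      apply h5.2
      rw [← hc]
      exact Submodule.sum_mem _ fun b hb => Submodule.smul_mem _ _ (subset_span ⟨b, hb, rfl⟩)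
    refine ⟨fun y => c y + c (z (Ln 0)), ?_, char2 (V := F2) _⟩
    rw [← shift hsum c (c (z (Ln 0))), ← hc, hc0, one_smul]
  choose! s0 hs0 using hs1
  let s : α → α → F2 := fun x y => if x = x₀ then 0 else s0 x y
  have hs : ∀ x ∈ M.E, x ∉ Y → v x = v x₀ + ∑ y ∈ Y, s x y • v y := by
    intro x hx hxY
    by_cases h : x = x₀
    · subst h
      simp [s]
    · simp only [s, if_neg h]
      exact (hs0 x hx hxY).1
  have hsa : ∀ x ∈ M.E, x ∉ Y → s x (z (Ln 0)) = 0 := by
    intro x hx hxY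
    by_cases h : x = x₀
    · simp [s, h]
    · simp only [s, if_neg h]
      exact (hs0 x hx hxY).2
  have hsx₀ : ∀ y, s x₀ y = 0 := fun y => by simp [s]
  -- linear independence of `C`
  have hCi : LinearIndepOn F2 v C := by
    apply hv.linearIndepOn
    apply (hcirc.sdiff_singleton_indep haY).subset
    intro c hc
    refine ⟨(hY c).2 (Or.inl hc), ?_⟩
    rintro rfl
    exact hzC _ (Ln_ne 0) hc
  -- the relaxation
  let N := vecMatroid F3 (wv Y s) M.E M.ground_finite
  have hNE : N.E = M.E := rfl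
  -- agreement
  have hagree : ∀ T ⊆ M.E, T.ncard = Y.card → T ≠ Y → (M.Indep T ↔ N.Indep T) := by
    intro T hT hcard hTY
    have hNT : N.Indep T ↔ LinearIndepOn F3 (wv Y s) T := by
      rw [vecMatroid_indep_iff]; exact and_iff_right hT
    rw [hNT]
    by_cases h1 : ∃ y ∈ C, y ∉ T
    · obtain ⟨y, hyC, hyT⟩ := h1
      exact del_case hv hYE hsum hind hx₀E hx₀Y hsx₀ hs ((hY y).2 (Or.inl hyC)) (hdel y hyC) hT hyT
    by_cases h2 : ∃ x ∈ T, x ∉ C ∧ ∀ p, p ≠ 0 → z p ≠ x
    · obtain ⟨x, hxT, hxC, hxz⟩ := h2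
      refine con_case hv hYE hsum hind hs haY (hT hxT) ?_ (hcon x (hT hxT) hxC hxz) hT hxT
      intro hxY
      rcases (hY x).1 hxY with h | ⟨i, hi⟩
      · exact hxC h
      · exact hxz _ (Ln_ne i) hi.symm
    push Not at h1 h2
    -- `T = C ∪ {z p, z q, z r}`
    have hTf : T.Finite := M.ground_finite.subset hT
    have hCT : C ⊆ T := h1
    have hCf : C.Finite := hTf.subset hCT
    have hYcard : Y.card = C.ncard + 3 := by
      have e1 : Y.card = (Y : Set α).ncard := (Set.ncard_coe_finset Y).symm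
      have e2 : {y | ∃ i, y = z (Ln i)} = ((Finset.univ.image fun i : Fin 3 => z (Ln i) : Finset α) : Set α) := by
        ext y
        simp [eq_comm]
      have e3 : ({y | ∃ i, y = z (Ln i)} : Set α).ncard = 3 := by
        rw [e2, Set.ncard_coe_finset, Finset.card_image_of_injective]
        · simp
        · intro i j hij
          exact Ln_inj (hzi _ _ (Ln_ne i) (Ln_ne j) hij)
      rw [e1, hYeq, Set.ncard_union_eq ?_ hCf ?_, e3]
      · rw [Set.disjoint_left]
        rintro c hc ⟨i, rfl⟩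
        exact hzC _ (Ln_ne i) hc
      · rw [e2]; exact Finset.finite_toSet _
    have hdiff : (T \ C).ncard = 3 := by
      have := Set.ncard_sdiff_add_ncard_of_subset hCT hTf
      omega
    rw [Set.ncard_eq_three] at hdiff
    obtain ⟨a, b, c, hab, hac, hbc, hTC⟩ := hdiff
    have hz : ∀ x ∈ T \ C, ∃ p, p ≠ 0 ∧ z p = x := by
      intro x hx
      exact h2 x hx.1 hx.2
    obtain ⟨p, hp, rfl⟩ := hz a (by rw [hTC]; simp)
    obtain ⟨q, hq, rfl⟩ := hz b (by rw [hTC]; simp)
    obtain ⟨r, hr, rfl⟩ := hz c (by rw [hTC]; simp)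
    have hTe : T = C ∪ {z p, z q, z r} := by
      rw [← hTC, union_sdiff_self, union_eq_self_of_subset_left hCT]
    have hgood : good p q r := by
      refine ⟨⟨hp, hq, hr⟩, ⟨fun h => hab (by rw [h]), fun h => hac (by rw [h]),
        fun h => hbc (by rw [h])⟩, ?_⟩
      rintro ⟨hp2, hq2, hr2⟩
      apply hTY
      have hsub : T ⊆ (Y : Set α) := by
        rw [hTe]
        refine union_subset (fun c hc => (hY c).2 (Or.inl hc)) ?_
        rintro _ (rfl | rfl | rfl)
        · obtain ⟨i, hi⟩ := line_cases hp hp2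
          exact (hY _).2 (Or.inr ⟨i, by rw [hi]⟩)
        · obtain ⟨i, hi⟩ := line_cases hq hq2
          exact (hY _).2 (Or.inr ⟨i, by rw [hi]⟩)
        · obtain ⟨i, hi⟩ := line_cases hr hr2
          exact (hY _).2 (Or.inr ⟨i, by rw [hi]⟩)
      exact Set.eq_of_subset_of_ncard_le hsub (by rw [hcard, Set.ncard_coe_finset])
        (Finset.finite_toSet Y)
    rw [hTe]
    exact fin_case hv π hker hπ hY hYE hCi hzE hs hsa hgood
  -- bases
  have hB₀i : M.Indep (insert x₀ ((Y : Set α) \ {z (Ln 0)})) := hind _ haY x₀ hx₀E hx₀Y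
  have hB₀ : M.IsBase (insert x₀ ((Y : Set α) \ {z (Ln 0)})) := by
    rw [hB₀i.isBase_iff_ground_subset_closure]
    intro e he
    rw [hv.mem_closure_iff hB₀i.subset_ground he]
    have hYs : ∀ f : α → F2, ∑ y ∈ Y, f y • v y ∈
        span F2 (v '' insert x₀ ((Y : Set α) \ {z (Ln 0)})) := by
      intro f
      rw [shift_erase hsum _ haY]
      refine Submodule.sum_mem _ fun b hb => Submodule.smul_mem _ _ (subset_span ⟨b, ?_, rfl⟩)
      exact Or.inr ⟨Finset.mem_of_mem_erase hb, Finset.ne_of_mem_erase hb⟩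
    by_cases heY : e ∈ Y
    · have := hYs (fun y => if y = e then 1 else 0)
      simpa [heY] using this
    · rw [hs e he heY]
      exact Submodule.add_mem _ (subset_span ⟨x₀, Or.inl rfl, rfl⟩) (hYs _)
  have hcB₀ : (insert x₀ ((Y : Set α) \ {z (Ln 0)})).ncard = Y.card := by
    rw [← Finset.coe_erase, ← Finset.coe_insert, Set.ncard_coe_finset, Finset.card_insert_of_notMem
      (fun h => hx₀Y (Finset.mem_of_mem_erase h)), Finset.card_erase_of_mem haY]
    have : 0 < Y.card := Finset.card_pos.2 ⟨_, haY⟩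
    omega
  have hNY : N.IsBase (Y : Set α) := by
    have hNi : N.Indep (Y : Set α) := by
      rw [vecMatroid_indep_iff]; exact ⟨hYE, wv_indep_Y Y s⟩
    rw [hNi.isBase_iff_ground_subset_closure]
    intro e he
    rw [(vecMatroid_isRep (F := F3) (v := wv Y s) (hE := M.ground_finite)).mem_closure_iff hYE he]
    have : wv Y s e = ∑ y ∈ Y, wv Y s e y • wv Y s y := by
      funext y
      rw [wv_sum (Finset.Subset.refl Y)]
      split_ifs with h
      · rfl
      · exact wv_zero h
    rw [this]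
    exact Submodule.sum_mem _ fun b hb => Submodule.smul_mem _ _ (subset_span ⟨b, hb, rfl⟩)
  refine ⟨N, ⟨rfl, fun B => ?_⟩, vecMatroid_representable⟩
  have iM : M.IsBase B ↔ M.Indep B ∧ B.ncard = Y.card := by
    rw [isBase_iff_ncard hB₀, hcB₀]
  have iN : N.IsBase B ↔ N.Indep B ∧ B.ncard = Y.card := by
    rw [isBase_iff_ncard hNY, Set.ncard_coe_finset]
  by_cases hBY : B = Y
  · rw [hBY]
    exact iff_of_true hNY (Or.inr rfl)
  · rw [iM, iN, or_iff_left hBY]
    constructor
    · rintro ⟨h1, h2⟩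
      exact ⟨(hagree B h1.subset_ground h2 hBY).2 h1, h2⟩
    · rintro ⟨h1, h2⟩
      exact ⟨(hagree B h1.subset_ground h2 hBY).1 h1, h2⟩

end Fin

theorem exists_third : ∀ a b : P, (a ≠ 0 ∧ b ≠ 0 ∧ a ≠ b) →
    ∃ c : P, ∀ t : P, t 0 • a + t 1 • b + t 2 • c = 0 → t = 0 := by
  decide +kernel

end W

/-- Module W. -/
theorem specW : SpecW.{u} := by
  intro α M _ n v C z a b hv hcfg ha hb hab hCH hdel hcon
  obtain ⟨c, hc⟩ := W.exists_third a b ⟨ha, hb, hab⟩
  let gl : P →ₗ[F2] P :=
    { toFun := fun t => t 0 • a + t 1 • b + t 2 • c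
      map_add' := fun x y => by simp only [Pi.add_apply, add_smul]; abel
      map_smul' := fun r x => by
        simp only [Pi.smul_apply, smul_eq_mul, mul_smul, smul_add, RingHom.id_apply] }
  have hinj : Function.Injective gl := by
    rw [injective_iff_map_eq_zero]
    exact fun t ht => hc t ht
  let g : P ≃ₗ[F2] P := LinearEquiv.ofInjectiveEndo gl hinj
  have hgl : ∀ t, g t = t 0 • a + t 1 • b + t 2 • c := fun t => rfl
  have g0 : g (W.Ln 0) = a := by rw [hgl]; simp [W.Ln]
  have g1 : g (W.Ln 1) = b := by rw [hgl]; simp [W.Ln]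
  have g2 : g (W.Ln 2) = a + b := by rw [hgl]; simp [W.Ln]
  have hgne : ∀ p, p ≠ 0 → g p ≠ 0 := fun p hp h => hp (g.injective (h.trans (map_zero g).symm))
  have hset : (C ∪ {z a, z b, z (a + b)} : Set α) = C ∪ {y | ∃ i, y = (z ∘ g) (W.Ln i)} := by
    congr 1
    ext y
    simp only [mem_insert_iff, mem_singleton_iff, mem_setOf_eq, Function.comp, Fin.exists_fin_succ,
      Fin.succ_zero_eq_one, Fin.succ_one_eq_two, g0, g1, g2, IsEmpty.exists_iff, or_false]
  rw [hset] at hCH ⊢
  refine W.std_case hv (z := z ∘ g) ?_ hCH hdel ?_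
  · obtain ⟨hCE, hzE, π, hker, hπ⟩ := hcfg
    refine ⟨hCE, fun p hp => hzE _ (hgne p hp), g.symm.toLinearMap ∘ₗ π, ?_, fun p hp => ?_⟩
    · rw [← hker]
      ext x
      simp
    · change g.symm (π (v (z (g p)))) = p
      rw [hπ _ (hgne p hp), g.symm_apply_apply]
  · intro x hx hxC hxz
    refine hcon x hx hxC fun p hp h => ?_
    apply hxz (g.symm p)
    · intro h0
      apply hp
      rw [← g.apply_symm_apply p, h0, map_zero]
    · change z (g (g.symm p)) = x
      rw [g.apply_symm_apply]; exact h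

end MP948082
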