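import Pool.Agent.Lib.MP_948082_co.Dual
import Pool.Agent.Lib.MP_948082_co.SpecTutte
import Pool.Agent.Lib.MP_948082_co.FanDel
import Pool.Agent.Lib.MP_948082_co.SP
import Pool.Agent.Lib.MP_948082_co.Spec2
import Pool.Agent.Lib.MP_948082_co.Sum
import Pool.Agent.Lib.MP_948082_co.NonBinary
import Pool.Agent.Lib.MP_948082_co.W

section
open Set Submodule

namespace MP948082

universe u

namespace Graphic

variable {α : Type u} {F : Type*} [Field F] {V : Type*} [AddCommGroup V] [Module F V]
  {W : Type*} [AddCommGroup W] [Module F W]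

/-- Independence modulo the kernel of a linear map. -/
theorem indepOn_union_iff_of_ker {v : α → V} {s t : Set α} (hs : LinearIndepOn F v s)
    (hst : Disjoint s t) (π : V →ₗ[F] W) (hπ : LinearMap.ker π = span F (v '' s)) :
    LinearIndepOn F v (s ∪ t) ↔ LinearIndepOn F (π ∘ v) t := by
  rw [← hs.quotient_iff_union hst]
  have hle : span F (v '' s) ≤ LinearMap.ker π := hπ.ge
  set ρ := (span F (v '' s)).liftQ π hle with hρ
  have hinj : Function.Injective ρ := by
    rw [← LinearMap.ker_eq_bot, hρ, Submodule.ker_liftQ_eq_bot]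
    exact hπ.le
  have hcomp : π ∘ v = ρ ∘ ((span F (v '' s)).mkQ ∘ v) := by
    funext a
    simp [hρ]
  constructor
  · intro h
    rw [hcomp]
    exact h.map_injOn ρ hinj.injOn
  · intro h
    rw [hcomp] at h
    exact LinearIndepOn.of_comp ρ h

variable {ι : Type u} [DecidableEq ι]

/-- merging the coordinate `a` into `b` -/
def merge (F : Type*) [Field F] {ι : Type*} [DecidableEq ι] (a b : ι) : (ι → F) →ₗ[F] (ι → F) where
  toFun x j := if j = a then 0 else if j = b then x a + x b else x j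
  map_add' x y := by
    funext j
    simp only [Pi.add_apply]
    split_ifs
    · simp
    · ring
    · rfl
  map_smul' c x := by
    funext j
    simp only [Pi.smul_apply, smul_eq_mul, RingHom.id_apply]
    split_ifs
    · simp
    · ring
    · rfl

theorem merge_single {a b : ι} (hab : a ≠ b) (i : ι) :
    merge F a b (Pi.single i 1) = Pi.single (if i = a then b else i) 1 := by
  funext j
  simp only [merge, LinearMap.coe_mk, AddHom.coe_mk, Pi.single_apply]
  by_cases hi : i = a
  · subst hi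
    by_cases hj : j = i
    · subst hj
      simp [hab]
    · by_cases hj2 : j = b
      · subst hj2
        simp [hj]
      · simp [hj, hj2]
  · by_cases hj : j = a
    · subst hj
      simp [hi, Ne.symm hi]
    · by_cases hj2 : j = b
      · subst hj2
        simp [hj, hi, Ne.symm hi]
      · simp [hj, hj2, hi]

theorem merge_ker {a b : ι} (hab : a ≠ b) :
    LinearMap.ker (merge F a b) = span F {Pi.single a 1 - Pi.single b 1} := by
  ext x
  rw [LinearMap.mem_ker, mem_span_singleton]
  constructor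
  · intro h
    refine ⟨x a, ?_⟩
    funext j
    have hj := congrFun h j
    simp only [merge, LinearMap.coe_mk, AddHom.coe_mk, Pi.zero_apply] at hj
    simp only [Pi.smul_apply, Pi.sub_apply, Pi.single_apply, smul_eq_mul]
    by_cases h1 : j = a
    · subst h1
      simp [hab]
    · by_cases h2 : j = b
      · subst h2
        simp only [h1, if_false, if_true] at hj
        simp only [h1, if_false, if_true]
        linear_combination -hj
      · simp only [h1, h2, if_false] at hj
        simp [h1, h2, hj]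
  · rintro ⟨c, rfl⟩
    rw [map_smul, map_sub, merge_single hab, merge_single hab]
    simp [hab.symm]

end Graphic

open Graphic in
theorem specGraphic : SpecGraphic.{u} := by
  intro α ι _ _ F F' _ _ s t I hI
  induction I, hI using Set.Finite.induction_on generalizing s t with
  | empty => simp
  | @insert e J heJ hJ ih =>
    by_cases hst : s e = t e
    · have h1 : ∀ (K : Type) [Field K], ¬ LinearIndepOn K (edgeVec K s t) (insert e J) := by
        intro K _ h
        apply h.ne_zero (mem_insert e J)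
        simp [edgeVec, hst]
      exact iff_of_false (h1 F) (h1 F')
    · have key : ∀ (K : Type) [Field K], LinearIndepOn K (edgeVec K s t) (insert e J) ↔
          LinearIndepOn K (edgeVec K (fun c => if s c = s e then t e else s c)
            (fun c => if t c = s e then t e else t c)) J := by
        intro K _
        have hne : edgeVec K s t e ≠ 0 := by
          intro h
          have := congrFun h (s e)
          simp [edgeVec, hst] at this
        have h1 : LinearIndepOn K (edgeVec K s t) {e} := (linearIndepOn_singleton_iff K).2 hne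
        rw [insert_eq, indepOn_union_iff_of_ker h1 (disjoint_singleton_left.2 heJ)
          (merge K (s e) (t e)) (by rw [merge_ker hst, image_singleton]; rfl)]
        apply linearIndepOn_congr
        intro c _
        simp only [Function.comp_apply, edgeVec, map_sub, merge_single hst]
      rw [key F, key F']
      exact ih _ _

end MP948082
end

section
set_option linter.all false

/-!
# MP_948082_co : every element of a triple fan has a regular deletion or contraction
-/

open Set Submodule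

namespace MP948082

universe u

namespace FanX

theorem regular_dual (hD : SpecDual.{u}) {α : Type u} {M : Matroid α} [M.Finite]
    (h : IsRegular M) : IsRegular M✶ := fun F _ => hD α F M (h F)

variable {m : Fin 3 → ℕ} {ε δ : Bool}

/-- the elements `y` have regular deletions -/
theorem del_regular {α : Type u} (M : Matroid α) [M.Finite]
    (φ : FanElt m ε δ → α) (hφ : Function.Injective φ) (hr : Set.range φ = M.E)
    (h : ∀ I : Set (FanElt m ε δ), (M.Indep (φ '' I) ↔ LinearIndepOn F2 (fanVec m ε δ) I))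
    (hm : ∀ i, 1 ≤ m i) (b : FanElt m ε δ) (hb : (∃ i j, b = .y i j) ∨ ∃ hδ, b = .y0 hδ) :
    IsRegular (M.delete {φ b}) := by
  rcases hb with ⟨i, j, rfl⟩ | ⟨hδ, rfl⟩
  · exact del_y_regular specGraphic M φ hφ hr h hm i j
  · exact del_y0_regular specGraphic M φ hφ hr h hδ

/-- the elements `x` have regular contractions -/
theorem con_regular (hD : SpecDual.{u}) {α : Type u} (M : Matroid α) [M.Finite]
    (φ : FanElt m ε δ → α) (hφ : Function.Injective φ) (hr : Set.range φ = M.E)
    (h : ∀ I : Set (FanElt m ε δ), (M.Indep (φ '' I) ↔ LinearIndepOn F2 (fanVec m ε δ) I))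
    (hm : ∀ i, 1 ≤ m i) (b : FanElt m ε δ) (hb : (∃ i j, b = .x i j) ∨ ∃ hε, b = .x0 hε) :
    IsRegular (M.contract {φ b}) := by
  obtain ⟨h1, h2, h3⟩ := fanDual_swap m ε δ M φ hφ hr h
  have key : ∀ b' : FanElt m δ ε, ((∃ i j, b' = .y i j) ∨ ∃ hδ, b' = .y0 hδ) →
      IsRegular (M.contract {φ (fanSwap m ε δ b')}) := by
    intro b' hb'
    have h4 : IsRegular (M✶.delete {(φ ∘ fanSwap m ε δ) b'}) :=
      del_regular M✶ (φ ∘ fanSwap m ε δ) h1 h2 h3 hm b' hb'
    have h5 := regular_dual hD h4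
    rwa [Matroid.dual_delete_dual] at h5
  rcases hb with ⟨i, j, rfl⟩ | ⟨hε, rfl⟩
  · have := key (.y i j.rev) (Or.inl ⟨i, j.rev, rfl⟩)
    simpa [fanSwap] using this
  · have := key (.y0 hε) (Or.inr ⟨hε, rfl⟩)
    simpa [fanSwap] using this

end FanX

/-- FAN. -/
theorem specFan (hD : SpecDual.{u}) : SpecFan.{u} := by
  intro α M _ hM e he
  obtain ⟨m, ε, δ, hm, φ, hφ, hr, h⟩ := hM
  rw [← hr] at he
  obtain ⟨b, rfl⟩ := he
  cases b with
  | y i j => exact Or.inl (FanX.del_regular M φ hφ hr h hm _ (Or.inl ⟨i, j, rfl⟩))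
  | y0 hδ => exact Or.inl (FanX.del_regular M φ hφ hr h hm _ (Or.inr ⟨hδ, rfl⟩))
  | x i j => exact Or.inr (FanX.con_regular hD M φ hφ hr h hm _ (Or.inl ⟨i, j, rfl⟩))
  | x0 hε => exact Or.inr (FanX.con_regular hD M φ hφ hr h hm _ (Or.inr ⟨hε, rfl⟩))

end MP948082
end

section
open Set Submodule

namespace MP948082

universe u w

namespace NT

theorem f2_span_singleton (q x : P) : x ∈ span F2 {q} ↔ x = 0 ∨ x = q := by
  rw [mem_span_singleton]
  constructor
  · rintro ⟨c, rfl⟩
    have : c = 0 ∨ c = 1 := by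
      revert c; decide
    rcases this with h | h
    · left; rw [h, zero_smul]
    · right; rw [h, one_smul]
  · rintro (h | h)
    · exact ⟨0, by rw [h, zero_smul]⟩
    · exact ⟨1, by rw [h, one_smul]⟩

theorem indep_pair {p q : P} (hp : p ≠ 0) (hq : q ≠ 0) (hpq : p ≠ q) :
    LinearIndepOn F2 (id : P → P) {p, q} := by
  rw [linearIndepOn_insert (by simpa using hpq)]
  refine ⟨(linearIndepOn_singleton_iff F2).2 hq, ?_⟩
  rw [image_id, f2_span_singleton]
  rintro (h | h)
  · exact hp h
  · exact hpq h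

theorem dep_triple {p q : P} (hp : p ≠ 0) (hq : q ≠ 0) :
    ¬ LinearIndepOn F2 (id : P → P) (insert (p + q) {p, q}) := by
  intro h
  rw [linearIndepOn_insert] at h
  · apply h.2
    rw [image_id]
    exact add_mem (subset_span (by simp)) (subset_span (by simp))
  · simp [hp, hq]

theorem indep_basis : LinearIndepOn F2 (id : P → P)
    (({![1, 0, 0], ![0, 1, 0], ![0, 0, 1]} : Finset P) : Set P) := by
  rw [linearIndepOn_finset_iff]
  intro g hg
  rw [Finset.sum_insert (by decide), Finset.sum_insert (by decide), Finset.sum_singleton] at hg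
  have h0 := congrFun hg 0
  have h1 := congrFun hg 1
  have h2 := congrFun hg 2
  simp at h0 h1 h2
  intro i hi
  simp only [Finset.mem_insert, Finset.mem_singleton] at hi
  rcases hi with rfl | rfl | rfl
  · exact h0
  · exact h1
  · exact h2

variable {α : Type u} {M : Matroid α}

/-- The seven vectors over another field. -/
theorem transfer {K : Type*} [Field K] {V : Type*} {W : Type w} [AddCommGroup V] [Module F2 V]
    [AddCommGroup W] [Module K W] {v : α → V} {w : α → W} {C : Set α} {z : P → α}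
    (hv : IsRep F2 M v) (hc : F7Cfg v M.E C z) (hw : IsRep K M w) :
    ∃ (W' : Type w) (_ : AddCommGroup W') (_ : Module K W') (u : P → W'),
      ∀ T : Set P, (∀ p ∈ T, p ≠ 0) → (LinearIndepOn K u T ↔ LinearIndepOn F2 (id : P → P) T) := by
  obtain ⟨hC, hz, π, hker, hπ⟩ := hc
  obtain ⟨I, hI⟩ := M.exists_isBasis C hC
  refine ⟨W ⧸ span K (w '' I), inferInstance, inferInstance,
    fun p => (span K (w '' I)).mkQ (w (z p)), fun T hT => ?_⟩
  have hdisj : Disjoint I (z '' T) := by
    rw [Set.disjoint_left]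
    rintro _ hi ⟨p, hp, rfl⟩
    have h1 : v (z p) ∈ LinearMap.ker π := by
      rw [hker]
      exact subset_span ⟨z p, hI.subset hi, rfl⟩
    rw [LinearMap.mem_ker, hπ p (hT p hp)] at h1
    exact hT p hp h1
  have hinj : Set.InjOn z T := by
    intro p hp q hq hpq
    rw [← hπ p (hT p hp), ← hπ q (hT q hq), hpq]
  have hsub : I ∪ z '' T ⊆ M.E := by
    apply union_subset hI.indep.subset_ground
    rintro _ ⟨p, hp, rfl⟩
    exact hz p (hT p hp)
  have e1 : LinearIndepOn F2 v (I ∪ z '' T) ↔ LinearIndepOn F2 (id : P → P) T := by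
    rw [Graphic.indepOn_union_iff_of_ker (hv.linearIndepOn hI.indep) hdisj π
      (by rw [hker, hv.span_eq_of_isBasis hI])]
    constructor
    · intro h
      have := h.comp_of_image hinj
      exact (linearIndepOn_congr fun p hp => (hπ p (hT p hp)).symm).2 this
    · intro h
      apply LinearIndepOn.image_of_comp
      exact (linearIndepOn_congr fun p hp => (hπ p (hT p hp)).symm).1 h
  have e2 : LinearIndepOn K w (I ∪ z '' T) ↔
      LinearIndepOn K (fun p => (span K (w '' I)).mkQ (w (z p))) T := by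
    rw [← (hw.linearIndepOn hI.indep).quotient_iff_union hdisj]
    constructor
    · intro h
      exact h.comp_of_image hinj
    · intro h
      apply LinearIndepOn.image_of_comp
      exact h
  rw [← e1, ← e2, ← hv _ hsub, ← hw _ hsub]

/-- The Fano plane is not representable in characteristic different from two. -/
theorem no_fano {K : Type*} [Field K] (h2 : (2 : K) ≠ 0) {W : Type*} [AddCommGroup W] [Module K W]
    (u : P → W) (h : ∀ T : Set P, (∀ p ∈ T, p ≠ 0) →
      (LinearIndepOn K u T ↔ LinearIndepOn F2 (id : P → P) T)) : False := by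
  -- line relations
  have line : ∀ p q : P, p ≠ 0 → q ≠ 0 → p ≠ q → ∃ a b : K, a ≠ 0 ∧ b ≠ 0 ∧
      u (p + q) = a • u p + b • u q := by
    intro p q hp hq hpq
    have hpq0 : p + q ≠ 0 := by
      intro h0
      apply hpq
      have : p = -q := eq_neg_of_add_eq_zero_left h0
      rw [this]
      funext i
      exact ZMod.neg_eq_self_mod_two _
    have hpp : p + q ≠ p := by simpa using hq
    have hqq : p + q ≠ q := by simpa using hp
    have s1 : LinearIndepOn K u {p, q} := (h _ (by
      intro r hr; rcases hr with rfl | rfl <;> assumption)).2 (indep_pair hp hq hpq)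
    have s2 : ¬ LinearIndepOn K u (insert (p + q) {p, q}) := by
      rw [h _ (by intro r hr; rcases hr with rfl | rfl | rfl <;> assumption)]
      exact dep_triple hp hq
    have s3 := mem_span_of_insert_dep s1 s2
    rw [image_pair, mem_span_pair] at s3
    obtain ⟨a, b, hab⟩ := s3
    refine ⟨a, b, ?_, ?_, hab.symm⟩
    · rintro rfl
      have s4 : LinearIndepOn K u {p + q, q} := (h _ (by
        intro r hr; rcases hr with rfl | rfl <;> assumption)).2 (indep_pair hpq0 hq hqq)
      rw [linearIndepOn_insert (by simpa using hqq)] at s4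
      apply s4.2
      rw [image_singleton, mem_span_singleton]
      exact ⟨b, by rw [← hab, zero_smul, zero_add]⟩
    · rintro rfl
      have s4 : LinearIndepOn K u {p + q, p} := (h _ (by
        intro r hr; rcases hr with rfl | rfl <;> assumption)).2 (indep_pair hpq0 hp hpp)
      rw [linearIndepOn_insert (by simpa using hpp)] at s4
      apply s4.2
      rw [image_singleton, mem_span_singleton]
      exact ⟨a, by rw [← hab, zero_smul, add_zero]⟩
  have hABC : ∀ a b c : K, a • u ![1, 0, 0] + b • u ![0, 1, 0] + c • u ![0, 0, 1] = 0 →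
      a = 0 ∧ b = 0 ∧ c = 0 := by
    have hI := (h (({![1, 0, 0], ![0, 1, 0], ![0, 0, 1]} : Finset P) : Set P) (by
      decide)).2 indep_basis
    rw [linearIndepOn_finset_iff] at hI
    intro a b c habc
    have := hI (fun p => if p = ![1, 0, 0] then a else if p = ![0, 1, 0] then b else c) (by
      rw [Finset.sum_insert (by decide), Finset.sum_insert (by decide), Finset.sum_singleton]
      rw [if_pos rfl, if_neg (by decide), if_pos rfl, if_neg (by decide), if_neg (by decide),
        ← add_assoc]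
      exact habc)
    refine ⟨?_, ?_, ?_⟩
    · have h1 := this ![1, 0, 0] (by decide)
      rwa [if_pos rfl] at h1
    · have h1 := this ![0, 1, 0] (by decide)
      rwa [if_neg (by decide), if_pos rfl] at h1
    · have h1 := this ![0, 0, 1] (by decide)
      rwa [if_neg (by decide), if_neg (by decide)] at h1
  obtain ⟨x1, x2, hx1, hx2, hX⟩ := line ![1, 0, 0] ![0, 1, 0] (by decide) (by decide) (by decide)
  obtain ⟨y1, y3, hy1, hy3, hY⟩ := line ![1, 0, 0] ![0, 0, 1] (by decide) (by decide) (by decide)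
  obtain ⟨z2, z3, hz2, hz3, hZ⟩ := line ![0, 1, 0] ![0, 0, 1] (by decide) (by decide) (by decide)
  obtain ⟨d, d', hd, hd', hD1⟩ := line (![1, 0, 0] + ![0, 1, 0]) ![0, 0, 1] (by decide) (by decide)
    (by decide)
  obtain ⟨e, e', he, he', hD2⟩ := line (![1, 0, 0] + ![0, 0, 1]) ![0, 1, 0] (by decide) (by decide)
    (by decide)
  obtain ⟨f, f', hf, hf', hD3⟩ := line (![0, 1, 0] + ![0, 0, 1]) ![1, 0, 0] (by decide) (by decide)
    (by decide)
  obtain ⟨g, g', hg, hg', hS⟩ := line (![1, 0, 0] + ![0, 1, 0]) (![1, 0, 0] + ![0, 0, 1])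
    (by decide) (by decide) (by decide)
  have r1 : (![1, 0, 0] + ![0, 0, 1] + ![0, 1, 0] : P) = ![1, 0, 0] + ![0, 1, 0] + ![0, 0, 1] := by
    decide
  have r2 : (![0, 1, 0] + ![0, 0, 1] + ![1, 0, 0] : P) = ![1, 0, 0] + ![0, 1, 0] + ![0, 0, 1] := by
    decide
  have r3 : (![1, 0, 0] + ![0, 1, 0] + (![1, 0, 0] + ![0, 0, 1]) : P) = ![0, 1, 0] + ![0, 0, 1] := by
    decide
  rw [r1] at hD2
  rw [r2] at hD3
  rw [r3] at hS
  have c1 := hABC (d * x1 - e * y1) (d * x2 - e') (d' - e * y3) (by
    have := hD1.symm.trans hD2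
    rw [hX, hY] at this
    linear_combination (norm := module) this)
  have c2 := hABC (d * x1 - f') (d * x2 - f * z2) (d' - f * z3) (by
    have := hD1.symm.trans hD3
    rw [hX, hZ] at this
    linear_combination (norm := module) this)
  have c3 := hABC (g * x1 + g' * y1) (g * x2 - z2) (g' * y3 - z3) (by
    have := hS
    rw [hX, hY, hZ] at this
    linear_combination (norm := module) -this)
  obtain ⟨c11, -, c13⟩ := c1
  obtain ⟨-, c22, c23⟩ := c2
  obtain ⟨c31, c32, c33⟩ := c3
  -- `2 * (e * y1) * ... = 0`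
  have k1 : f * g = d := by
    have : (f * g - d) * x2 = 0 := by linear_combination f * c32 - c22
    have := (mul_eq_zero.1 this).resolve_right hx2
    linear_combination this
  have k2 : f * g' = e := by
    have : (f * g' - e) * y3 = 0 := by linear_combination f * c33 - c23 + c13
    have := (mul_eq_zero.1 this).resolve_right hy3
    linear_combination this
  have k3 : 2 * (e * y1) = 0 := by
    have h1 : f * (g * x1 + g' * y1) = 0 := by rw [c31, mul_zero]
    linear_combination h1 - x1 * k1 - y1 * k2 - c11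
  exact (mul_ne_zero h2 (mul_ne_zero he hy1)) k3

end NT

/-- NT, for every field of characteristic different from two. -/
theorem not_representable_of_F7 {α : Type u} {M : Matroid α} {V : Type*} [AddCommGroup V]
    [Module F2 V] {v : α → V} {C : Set α} {z : P → α} (hv : IsRep F2 M v) (hc : F7Cfg v M.E C z)
    (K : Type) [Field K] (h2 : (2 : K) ≠ 0) : ¬ Representable K M := by
  rintro ⟨n, w, hw⟩
  obtain ⟨W', _, _, u, hu⟩ := NT.transfer hv hc hw
  exact NT.no_fano h2 u hu

theorem specNT : SpecNT.{u} := by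
  intro α M _ n v C z hv hc
  exact not_representable_of_F7 hv hc F3 (by decide)

end MP948082
end

section
set_option linter.all false

/-!
# MP_948082_co : triple fans with all arms of length at least two are exactly-one-regular
-/

open Set Submodule

namespace MP948082

universe u

namespace FanEOR

/-- An `F7`-configuration after the contraction of an element of `C`. -/
theorem cfg_contract {α : Type u} {V : Type*} [AddCommGroup V] [Module F2 V] {v : α → V}
    {E C : Set α} {z : P → α} (hc : F7Cfg v E C z) {y : α} (hy : y ∈ C) :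
    F7Cfg ((span F2 (v '' {y})).mkQ ∘ v) (E \ {y}) (C \ {y}) z := by
  obtain ⟨hC, hz, π, hker, hπ⟩ := hc
  have hvy : v y ∈ LinearMap.ker π := by
    rw [hker]; exact subset_span ⟨y, hy, rfl⟩
  have hle : span F2 (v '' {y}) ≤ LinearMap.ker π := by
    rw [span_le, image_singleton, singleton_subset_iff]
    exact hvy
  refine ⟨sdiff_subset_sdiff_left hC, ?_, (span F2 (v '' {y})).liftQ π hle, ?_, ?_⟩
  · intro p hp
    refine ⟨hz p hp, ?_⟩
    intro hzy
    rw [mem_singleton_iff] at hzy
    have := hπ p hp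
    rw [hzy, LinearMap.mem_ker.1 hvy] at this
    exact hp this.symm
  · rw [Submodule.ker_liftQ, hker, map_span]
    apply le_antisymm
    · rw [span_le]
      rintro _ ⟨_, ⟨e, he, rfl⟩, rfl⟩
      by_cases hey : e = y
      · subst hey
        have : (span F2 (v '' {e})).mkQ (v e) = 0 := by
          rw [mkQ_apply, Submodule.Quotient.mk_eq_zero]
          exact subset_span ⟨e, rfl, rfl⟩
        rw [this]
        exact zero_mem _
      · exact subset_span ⟨e, ⟨he, hey⟩, rfl⟩
    · rw [span_le]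
      rintro _ ⟨e, he, rfl⟩
      exact subset_span ⟨v e, ⟨e, he.1, rfl⟩, rfl⟩
  · intro p hp
    rw [Function.comp_apply, mkQ_apply, liftQ_apply]
    exact hπ p hp

theorem not_ternary_contract {α : Type u} {M : Matroid α} [M.Finite] {V : Type*} [AddCommGroup V]
    [Module F2 V] {v : α → V} {C : Set α} {z : P → α} (hv : IsRep F2 M v) (hc : F7Cfg v M.E C z)
    {y : α} (hy : y ∈ C) : ¬ Representable F3 (M.contract {y}) := by
  have h1 : ({y} : Set α) ⊆ M.E := singleton_subset_iff.2 (hc.1 hy)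
  have h2 := cfg_contract hc hy
  have h3 := hv.contract h1
  exact not_representable_of_F7 h3 h2 F3 (by decide)

theorem f2_cases : ∀ c : F2, c = 0 ∨ c = 1 := by decide

/-- Two vectors over the field with two elements. -/
theorem indep_pair {ι : Type*} {V : Type*} [AddCommGroup V] [Module F2 V] {v : ι → V} {a b : ι}
    (ha : v a ≠ 0) (hb : v b ≠ 0) (hab : a ≠ b → v a ≠ v b) : LinearIndepOn F2 v {a, b} := by
  by_cases h : a = b
  · subst h
    rw [pair_eq_singleton]
    exact (linearIndepOn_singleton_iff F2).2 ha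
  · rw [linearIndepOn_insert (by simpa using h)]
    refine ⟨(linearIndepOn_singleton_iff F2).2 hb, ?_⟩
    rw [image_singleton, mem_span_singleton]
    rintro ⟨c, hc⟩
    rcases f2_cases c with h1 | h1
    · rw [h1, zero_smul] at hc
      exact ha hc.symm
    · rw [h1, one_smul] at hc
      exact hab h hc.symm

theorem add_one_ne : ∀ i : Fin 3, i + 1 ≠ i := by decide

section

variable {m : Fin 3 → ℕ} {ε δ : Bool}

theorem fanVec_ne_zero (hm : ∀ i, 2 ≤ m i) (e : FanElt m ε δ) : fanVec m ε δ e ≠ 0 := by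
  intro h
  rcases e with ⟨i, j⟩ | ⟨i, j⟩ | h' | h'
  · have := congrFun h (Sum.inl ⟨i, j⟩)
    simp [fanVec] at this
  · have := congrFun h (Sum.inl ⟨i + 1, ⟨0, lt_of_lt_of_le (by norm_num) (hm _)⟩⟩)
    simp [fanVec, add_one_ne i] at this
  · have := congrFun h (Sum.inl ⟨0, ⟨0, lt_of_lt_of_le (by norm_num) (hm _)⟩⟩)
    simp [fanVec] at this
  · have := congrFun h (Sum.inr ⟨(), h'⟩)
    simp [fanVec] at this

theorem inl_ne (hm : ∀ i, 2 ≤ m i) (i : Fin 3) :
    (Sum.inl ⟨i, ⟨0, lt_of_lt_of_le (by norm_num) (hm _)⟩⟩ : FanBasis m δ) ≠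
      Sum.inl ⟨i, ⟨1, lt_of_lt_of_le (by norm_num) (hm _)⟩⟩ := by
  intro h
  simp at h

/-- a vector with two ones is not a unit vector -/
theorem two_ones {ι : Type*} [DecidableEq ι] {f : ι → F2} {s a b : ι} (hab : a ≠ b) (ha : f a = 1)
    (hb : f b = 1) (h : Pi.single s 1 = f) : False := by
  rw [← h] at ha hb
  rw [Pi.single_apply] at ha hb
  split_ifs at ha hb with h1 h2
  · exact hab (h1.trans h2.symm)
  all_goals simp at ha hb

theorem y_ne_x (hm : ∀ i, 2 ≤ m i) (s : FanBasis m δ) (i : Fin 3) (j : Fin (m i)) :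
    (Pi.single s 1 : FanBasis m δ → F2) ≠ fanVec m ε δ (.x i j) := by
  intro h
  refine two_ones (inl_ne hm (i + 1)) ?_ ?_ h
  · simp [fanVec, add_one_ne i]
  · simp [fanVec, add_one_ne i]

theorem y_ne_x0 (hm : ∀ i, 2 ≤ m i) (s : FanBasis m δ) (h0 : ε = true) :
    (Pi.single s 1 : FanBasis m δ → F2) ≠ fanVec m ε δ (.x0 h0) := by
  intro h
  refine two_ones (inl_ne hm 0) ?_ ?_ h
  · simp [fanVec]
  · simp [fanVec]

theorem fanVec_inj (hm : ∀ i, 2 ≤ m i) : Function.Injective (fanVec m ε δ) := by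
  intro a b h
  rcases a with ⟨i, j⟩ | ⟨i, j⟩ | h' | h' <;> rcases b with ⟨i2, j2⟩ | ⟨i2, j2⟩ | h2 | h2
  · have := congrFun h (Sum.inl ⟨i, j⟩)
    simp only [fanVec, Pi.single_apply] at this
    simp only [if_true] at this
    split_ifs at this with h1
    · simp only [Sum.inl.injEq, Sigma.mk.injEq] at h1
      obtain ⟨rfl, h1⟩ := h1
      rw [heq_iff_eq] at h1
      rw [h1]
    · simp at this
  · exact absurd h (y_ne_x hm _ _ _)
  · exact absurd h (y_ne_x0 hm _ _)
  · have := congrFun h (Sum.inr ⟨(), h2⟩)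
    simp [fanVec] at this
  · exact absurd h.symm (y_ne_x hm _ _ _)
  · have e1 := congrFun h (Sum.inl ⟨i, j⟩)
    have e2 := congrFun h (Sum.inl ⟨i2, j2⟩)
    simp only [fanVec] at e1 e2
    simp only [le_refl, and_self, if_true] at e1 e2
    split_ifs at e1 with h1
    · obtain ⟨rfl, h1⟩ := h1
      split_ifs at e2 with h3
      · have : j = j2 := Fin.ext (le_antisymm h1 h3.2)
        rw [this]
      · simp at e2
    · simp at e1
  · have e1 := congrFun h (Sum.inl ⟨i, j⟩)
    simp [fanVec] at e1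
  · exact absurd h.symm (y_ne_x hm _ _ _)
  · exact absurd h.symm (y_ne_x0 hm _ _)
  · have e1 := congrFun h (Sum.inl ⟨i2, j2⟩)
    simp [fanVec] at e1
  · rfl
  · exact absurd h.symm (y_ne_x0 hm _ _)
  · have := congrFun h (Sum.inr ⟨(), h'⟩)
    simp [fanVec] at this
  · exact absurd h (y_ne_x hm _ _ _)
  · exact absurd h (y_ne_x0 hm _ _)
  · rfl

theorem isSimple_of_fan (hm : ∀ i, 2 ≤ m i) {α : Type u} {M : Matroid α}
    (h : IsFan m ε δ M) : IsSimple M := by
  obtain ⟨φ, hφ, hr, hI⟩ := h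
  intro e he f hf
  rw [← hr] at he hf
  obtain ⟨a, rfl⟩ := he
  obtain ⟨b, rfl⟩ := hf
  rw [← image_pair, hI]
  exact indep_pair (fanVec_ne_zero hm a) (fanVec_ne_zero hm b)
    (fun hab h => hab (fanVec_inj hm h))

/-- the representation of a fan -/
theorem exists_rep {α : Type u} {M : Matroid α} (φ : FanElt m ε δ → α)
    (hφ : Function.Injective φ) (hr : Set.range φ = M.E)
    (hI : ∀ I, (M.Indep (φ '' I) ↔ LinearIndepOn F2 (fanVec m ε δ) I)) :
    ∃ w : α → (FanBasis m δ → F2), (∀ e, w (φ e) = fanVec m ε δ e) ∧ IsRep F2 M w := by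
  classical
  set w : α → (FanBasis m δ → F2) := fun a =>
    if h : ∃ e, φ e = a then fanVec m ε δ h.choose else 0 with hw
  have hwφ : ∀ e, w (φ e) = fanVec m ε δ e := by
    intro e
    have h : ∃ e', φ e' = φ e := ⟨e, rfl⟩
    simp only [hw]
    rw [dif_pos h, hφ h.choose_spec]
  refine ⟨w, hwφ, ?_⟩
  intro X hX
  obtain ⟨I, rfl⟩ : ∃ I, φ '' I = X := by
    rw [← hr] at hX
    exact Set.subset_range_iff_exists_image_eq.1 hX
  rw [hI]
  constructor
  · intro h
    apply LinearIndepOn.image_of_comp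
    exact (linearIndepOn_congr fun e _ => (hwφ e).symm).1 h
  · intro h
    have := h.comp_of_image hφ.injOn
    exact (linearIndepOn_congr fun e _ => hwφ e).1 this

/-- the basis element with a given coordinate -/
def elt : FanBasis m δ → FanElt m ε δ
  | Sum.inl ⟨i, j⟩ => .y i j
  | Sum.inr h => .y0 h.2

theorem fanVec_elt (s : FanBasis m δ) : fanVec m ε δ (elt s) = Pi.single s 1 := by
  rcases s with ⟨i, j⟩ | ⟨⟨⟩, h⟩ <;> rfl

/-- the coordinate in arm `i` at position `l` -/
def co (hm : ∀ i, 2 ≤ m i) (i : Fin 3) (l : Fin 2) : FanBasis m δ :=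
  Sum.inl ⟨i, ⟨l, lt_of_lt_of_le l.2 (hm i)⟩⟩

/-- the three coordinates -/
def cs (hm : ∀ i, 2 ≤ m i) (a b c : Fin 3) (l : Fin 2) : Fin 3 → FanBasis m δ :=
  ![co hm a 1, co hm b l, co hm c 0]

theorem proj_surj (hm : ∀ i, 2 ≤ m i) {a b c : Fin 3} (hab : a ≠ b) (hac : a ≠ c) (hbc : b ≠ c)
    (l : Fin 2) (p : P) :
    ∃ e : FanElt m ε δ, p ≠ 0 → fanVec m ε δ e ∘ cs hm a b c l = p := by
  have key : ∀ p : P, p = 0 ∨ p = ![1, 0, 0] ∨ p = ![0, 1, 0] ∨ p = ![0, 0, 1] ∨ p = ![1, 1, 1] ∨
      p = ![0, 1, 1] ∨ p = ![1, 0, 1] ∨ p = ![1, 1, 0] := by decide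
  have hl := l.2
  rcases key p with rfl | rfl | rfl | rfl | rfl | rfl | rfl | rfl
  · exact ⟨elt (co hm 0 0), fun h => absurd rfl h⟩
  · refine ⟨elt (co hm a 1), fun _ => ?_⟩
    rw [fanVec_elt]
    funext k
    fin_cases k <;> simp [cs, co, hab, hac, hbc, hab.symm, hac.symm, hbc.symm]
  · refine ⟨elt (co hm b l), fun _ => ?_⟩
    rw [fanVec_elt]
    funext k
    fin_cases k <;> simp [cs, co, hab, hac, hbc, hab.symm, hac.symm, hbc.symm]
  · refine ⟨elt (co hm c 0), fun _ => ?_⟩
    rw [fanVec_elt]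
    funext k
    fin_cases k <;> simp [cs, co, hab, hac, hbc, hab.symm, hac.symm, hbc.symm]
  · refine ⟨.x a ⟨0, lt_of_lt_of_le (by norm_num) (hm a)⟩, fun _ => ?_⟩
    funext k
    fin_cases k <;> simp [cs, co, hab, hac, hbc, hab.symm, hac.symm, hbc.symm, fanVec]
  · refine ⟨.x a ⟨1, lt_of_lt_of_le (by norm_num) (hm a)⟩, fun _ => ?_⟩
    funext k
    fin_cases k <;> simp [cs, co, hab, hac, hbc, hab.symm, hac.symm, hbc.symm, fanVec]
  · refine ⟨.x b ⟨l, lt_of_lt_of_le l.2 (hm b)⟩, fun _ => ?_⟩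
    funext k
    fin_cases k <;> simp [cs, co, hab, hac, hbc, hab.symm, hac.symm, hbc.symm, fanVec]
  · refine ⟨.x c ⟨0, lt_of_lt_of_le (by norm_num) (hm c)⟩, fun _ => ?_⟩
    funext k
    fin_cases k <;> simp [cs, co, hab, hac, hbc, hab.symm, hac.symm, hbc.symm, fanVec]

/-- The `F7`-configuration of a triple fan. -/
theorem exists_cfg (hm : ∀ i, 2 ≤ m i) {a b c : Fin 3} (hab : a ≠ b) (hac : a ≠ c) (hbc : b ≠ c)
    (l : Fin 2) {α : Type u} {M : Matroid α} (φ : FanElt m ε δ → α)
    (hr : Set.range φ = M.E) {w : α → (FanBasis m δ → F2)}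
    (hw : ∀ e, w (φ e) = fanVec m ε δ e) :
    ∃ z : P → α, F7Cfg w M.E {e | ∃ s, s ∉ Set.range (cs hm a b c l) ∧ φ (elt s) = e} z := by
  choose z hz using proj_surj (m := m) (ε := ε) (δ := δ) hm hab hac hbc l
  refine ⟨fun p => φ (z p), ?_, ?_, LinearMap.funLeft F2 F2 (cs hm a b c l), ?_, ?_⟩
  · rintro e ⟨s, _, rfl⟩
    rw [← hr]; exact ⟨_, rfl⟩
  · intro p _
    rw [← hr]; exact ⟨_, rfl⟩
  · apply le_antisymm
    · intro x hx
      rw [LinearMap.mem_ker] at hx
      rw [← Finset.univ_sum_single x]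
      refine sum_mem fun s _ => ?_
      by_cases hs : s ∈ Set.range (cs hm a b c l)
      · obtain ⟨k, rfl⟩ := hs
        have : x (cs hm a b c l k) = 0 := congrFun hx k
        rw [this, Pi.single_zero]
        exact zero_mem _
      · have : (Pi.single s (x s) : FanBasis m δ → F2) = x s • Pi.single s 1 := by
          rw [← Pi.single_smul, smul_eq_mul, mul_one]
        rw [this, ← fanVec_elt (ε := ε), ← hw]
        exact smul_mem _ _ (subset_span ⟨_, ⟨s, hs, rfl⟩, rfl⟩)
    · rw [span_le]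
      rintro _ ⟨_, ⟨s, hs, rfl⟩, rfl⟩
      rw [SetLike.mem_coe, LinearMap.mem_ker, hw, fanVec_elt]
      funext k
      rw [LinearMap.funLeft_apply, Pi.single_apply, if_neg]
      · rfl
      · intro h
        exact hs ⟨k, h⟩
  · intro p hp
    rw [hw]
    exact hz p hp

/-- contraction of a basis element -/
theorem contract_elt (hm : ∀ i, 2 ≤ m i) {α : Type u} {M : Matroid α} [M.Finite]
    (φ : FanElt m ε δ → α) (hφ : Function.Injective φ) (hr : Set.range φ = M.E)
    (hI : ∀ I, (M.Indep (φ '' I) ↔ LinearIndepOn F2 (fanVec m ε δ) I)) (s : FanBasis m δ) :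
    ¬ IsRegular (M.contract {φ (elt s)}) := by
  obtain ⟨w, hw, hrep⟩ := exists_rep φ hφ hr hI
  obtain ⟨a, b, c, l, hab, hac, hbc, hs⟩ : ∃ (a b c : Fin 3) (l : Fin 2), a ≠ b ∧ a ≠ c ∧ b ≠ c ∧
      s ∉ Set.range (cs hm a b c l) := by
    rcases s with ⟨i, j⟩ | h
    · refine ⟨i + 1, i, i + 2, if (j : ℕ) = 0 then 1 else 0, ?_, ?_, ?_, ?_⟩
      · revert i; intro i j; clear j; revert i; decide
      · revert i; intro i j; clear j; revert i; decide
      · revert i; intro i j; clear j; revert i; decide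
      · rintro ⟨k, hk⟩
        fin_cases k
        · simp [cs, co] at hk
        · simp only [cs, co] at hk
          split_ifs at hk with h0
          · simp at hk
            have := congrArg Fin.val hk
            simp at this
            omega
          · simp at hk
            have := congrArg Fin.val hk
            simp at this
            omega
        · simp [cs, co] at hk
    · refine ⟨0, 1, 2, 0, by decide, by decide, by decide, ?_⟩
      rintro ⟨k, hk⟩
      fin_cases k <;> simp [cs, co] at hk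
  obtain ⟨z, hz⟩ := exists_cfg hm hab hac hbc l φ hr hw
  intro hreg
  exact not_ternary_contract hrep hz (y := φ (elt s)) ⟨s, hs, rfl⟩ (hreg F3)

/-- a basis element: the deletion is regular, the contraction is not -/
theorem elt_del (hm : ∀ i, 2 ≤ m i) {α : Type u} {M : Matroid α} [M.Finite]
    (φ : FanElt m ε δ → α) (hφ : Function.Injective φ) (hr : Set.range φ = M.E)
    (hI : ∀ I, (M.Indep (φ '' I) ↔ LinearIndepOn F2 (fanVec m ε δ) I)) (s : FanBasis m δ) :
    IsRegular (M.delete {φ (elt s)}) := by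
  have hm1 : ∀ i, 1 ≤ m i := fun i => le_trans (by norm_num) (hm i)
  rcases s with ⟨i, j⟩ | ⟨u, h⟩
  · exact FanX.del_regular M φ hφ hr hI hm1 _ (Or.inl ⟨i, j, rfl⟩)
  · exact FanX.del_regular M φ hφ hr hI hm1 _ (Or.inr ⟨h, rfl⟩)

/-- the other elements: the contraction is regular, the deletion is not -/
theorem swap_elt (hm : ∀ i, 2 ≤ m i) {α : Type u} {M : Matroid α} [M.Finite]
    (φ : FanElt m ε δ → α) (hφ : Function.Injective φ) (hr : Set.range φ = M.E)
    (hI : ∀ I, (M.Indep (φ '' I) ↔ LinearIndepOn F2 (fanVec m ε δ) I)) (s : FanBasis m ε) :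
    IsRegular (M.contract {φ (fanSwap m ε δ (elt s))}) ∧
      ¬ IsRegular (M.delete {φ (fanSwap m ε δ (elt s))}) := by
  obtain ⟨h1, h2, h3⟩ := fanDual_swap m ε δ M φ hφ hr hI
  constructor
  · have h4 : IsRegular (M✶.delete {(φ ∘ fanSwap m ε δ) (elt s)}) := elt_del hm _ h1 h2 h3 s
    have h5 := FanX.regular_dual specDual h4
    rwa [Matroid.dual_delete_dual] at h5
  · intro h
    have h4 : ¬ IsRegular (M✶.contract {(φ ∘ fanSwap m ε δ) (elt s)}) :=
      contract_elt hm _ h1 h2 h3 s
    apply h4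
    have h5 := FanX.regular_dual specDual h
    rwa [Matroid.dual_delete] at h5

end

end FanEOR

open FanEOR in
/-- FANEOR. -/
theorem specFanEOR : SpecFanEOR.{u} := by
  intro α M _ hM
  obtain ⟨m, ε, δ, hm, hfan⟩ := hM
  refine ⟨isSimple_of_fan hm hfan, isSimple_of_fan hm (specFanDual α m ε δ M hfan), ?_, ?_⟩
  · obtain ⟨φ, hφ, hr, hI⟩ := hfan
    intro h
    exact contract_elt hm φ hφ hr hI (Sum.inl ⟨0, ⟨0, lt_of_lt_of_le (by norm_num) (hm 0)⟩⟩)
      (h.contract _)
  · obtain ⟨φ, hφ, hr, hI⟩ := hfan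
    intro e he
    rw [← hr] at he
    obtain ⟨a, rfl⟩ := he
    have basis : ∀ s : FanBasis m δ, Xor (IsRegular (M.delete {φ (elt s)}))
        (IsRegular (M.contract {φ (elt s)})) := fun s =>
      Or.inl ⟨elt_del hm φ hφ hr hI s, contract_elt hm φ hφ hr hI s⟩
    have cobasis : ∀ s : FanBasis m ε, Xor (IsRegular (M.delete {φ (fanSwap m ε δ (elt s))}))
        (IsRegular (M.contract {φ (fanSwap m ε δ (elt s))})) := fun s =>
      Or.inr (swap_elt hm φ hφ hr hI s)
    cases a with
    | y i j => exact basis (Sum.inl ⟨i, j⟩)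
    | y0 h => exact basis (Sum.inr ⟨(), h⟩)
    | x i j =>
      have := cobasis (Sum.inl ⟨i, j.rev⟩)
      simpa [elt, fanSwap] using this
    | x0 h => exact cobasis (Sum.inr ⟨(), h⟩)

end MP948082
end

section
/-!
# MP_948082_co : minors of a matrix and independence, the determinant of a ±1 matrix
-/
open Set Submodule

namespace MP948082

universe u

namespace MINOR

variable {α : Type u} {F : Type*} [Field F] {V : Type*} [AddCommGroup V] [Module F V] {v : α → V}

/-- Combinations of independent vectors. -/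
theorem linComb_indep_iff {k : ℕ} {w : Fin k → V} (hw : LinearIndependent F w)
    (A : Matrix (Fin k) (Fin k) F) :
    LinearIndependent F (fun j => ∑ i, A i j • w i) ↔ A.det ≠ 0 := by
  have h1 : (fun j => ∑ i, A i j • w i) = (Fintype.linearCombination F w) ∘ A.col := by
    funext j
    change _ = Fintype.linearCombination F w (A.col j)
    rw [Fintype.linearCombination_apply]
    rfl
  have h2 : Function.Injective (Fintype.linearCombination F w) :=
    linearIndependent_iff_injective_fintypeLinearCombination.1 hw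
  rw [h1, ← isUnit_iff_ne_zero, ← Matrix.isUnit_iff_isUnit_det,
    ← Matrix.linearIndependent_cols_iff_isUnit]
  constructor
  · intro h
    exact LinearIndependent.of_comp _ h
  · intro h
    exact h.map' _ (LinearMap.ker_eq_bot.2 h2)

/-- Independence and minors, vector version. -/
theorem vec_iff {k : ℕ} {R : Set α} {f g : Fin k → α} (hf : Function.Injective f)
    (hg : Function.Injective g) (hRf : Disjoint R (range f)) (hRg : Disjoint R (range g))
    (hB : LinearIndepOn F v (R ∪ range f)) (A : Matrix (Fin k) (Fin k) F)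
    (hA : ∀ j, v (g j) - ∑ i, A i j • v (f i) ∈ span F (v '' R)) :
    LinearIndepOn F v (R ∪ range g) ↔ A.det ≠ 0 := by
  have hR : LinearIndepOn F v R := hB.mono subset_union_left
  have h1 := Graphic.indepOn_union_iff_of_ker hR hRf (span F (v '' R)).mkQ (Submodule.ker_mkQ _)
  have h2 := Graphic.indepOn_union_iff_of_ker hR hRg (span F (v '' R)).mkQ (Submodule.ker_mkQ _)
  rw [h2]
  have h3 : LinearIndependent F (fun i => (span F (v '' R)).mkQ (v (f i))) := by
    have := h1.1 hB
    have := (linearIndepOn_range_iff hf _).1 this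
    exact this
  have h4 : LinearIndepOn F ((span F (v '' R)).mkQ ∘ v) (range g) ↔
      LinearIndependent F (fun j => (span F (v '' R)).mkQ (v (g j))) :=
    linearIndepOn_range_iff hg _
  rw [h4, ← linComb_indep_iff h3 A]
  have h5 : (fun j => (span F (v '' R)).mkQ (v (g j))) =
      fun j => ∑ i, A i j • (span F (v '' R)).mkQ (v (f i)) := by
    funext j
    have := (Submodule.Quotient.mk_eq_zero _).2 (hA j)
    rw [← Submodule.mkQ_apply, map_sub, sub_eq_zero, map_sum] at this
    simpa using this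
  rw [h5]

/-- Sets of the same size as a given finite set. -/
theorem exists_fg {Y T : Set α} (hY : Y.Finite) (hT : T.Finite) (h : T.ncard = Y.ncard) :
    ∃ (k : ℕ) (f g : Fin k → α), Function.Injective f ∧ Function.Injective g ∧
      range f = Y \ T ∧ range g = T \ Y := by
  classical
  have h1 : (Y \ T).ncard = (T \ Y).ncard := by
    have e1 := Set.ncard_inter_add_ncard_sdiff_eq_ncard Y T hY
    have e2 := Set.ncard_inter_add_ncard_sdiff_eq_ncard T Y hT
    rw [inter_comm] at e2
    omega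
  have hYT : (Y \ T).Finite := hY.subset sdiff_subset
  have hTY : (T \ Y).Finite := hT.subset sdiff_subset
  have : Fintype (Y \ T : Set α) := hYT.fintype
  have : Fintype (T \ Y : Set α) := hTY.fintype
  have c1 : Fintype.card (Y \ T : Set α) = (Y \ T).ncard := by
    rw [Set.ncard_eq_toFinset_card', Set.toFinset_card]
  have c2 : Fintype.card (T \ Y : Set α) = (Y \ T).ncard := by
    rw [h1, Set.ncard_eq_toFinset_card', Set.toFinset_card]
  let e1 := (Fintype.equivFinOfCardEq c1).symm
  let e2 := (Fintype.equivFinOfCardEq c2).symm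
  refine ⟨(Y \ T).ncard, fun i => (e1 i : α), fun i => (e2 i : α), ?_, ?_, ?_, ?_⟩
  · exact Subtype.val_injective.comp e1.injective
  · exact Subtype.val_injective.comp e2.injective
  · rw [show (fun i => (e1 i : α)) = Subtype.val ∘ e1 from rfl, e1.surjective.range_comp,
      Subtype.range_coe]
  · rw [show (fun i => (e2 i : α)) = Subtype.val ∘ e2 from rfl, e2.surjective.range_comp,
      Subtype.range_coe]

/-- The `0/1` matrix of order `k` associated with a `±1` matrix of order `k + 1`. -/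
def Dm {k : ℕ} (W : Fin (k + 1) → Fin (k + 1) → ℤ) : Matrix (Fin k) (Fin k) ℤ :=
  Matrix.of fun i j => if W 0 0 * W 0 j.succ * W i.succ 0 * W i.succ j.succ = 1 then 0 else 1

theorem pm_mul {a b : ℤ} (ha : a = 1 ∨ a = -1) (hb : b = 1 ∨ b = -1) : a * b = 1 ∨ a * b = -1 := by
  rcases ha with rfl | rfl <;> rcases hb with rfl | rfl <;> simp

theorem pm_abs {a : ℤ} (ha : a = 1 ∨ a = -1) : |a| = 1 := by
  rcases ha with rfl | rfl <;> simp

/-- The determinant of a `±1` matrix. -/
theorem det_pm {k : ℕ} (W : Fin (k + 1) → Fin (k + 1) → ℤ) (hW : ∀ i j, W i j = 1 ∨ W i j = -1) :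
    |(Matrix.of W).det| = 2 ^ k * |(Dm W).det| := by
  -- scale
  set W' : Matrix (Fin (k + 1)) (Fin (k + 1)) ℤ :=
    Matrix.of fun i j => W i 0 * ((W 0 0 * W 0 j) * W i j) with hW'
  have h1 : |W'.det| = |(Matrix.of W).det| := by
    have e1 : W'.det = (∏ i, W i 0) * (Matrix.of fun i j => (W 0 0 * W 0 j) * W i j).det := by
      rw [← Matrix.det_mul_column]
      rfl
    have e2 : (Matrix.of fun i j => (W 0 0 * W 0 j) * W i j).det =
        (∏ j, (W 0 0 * W 0 j)) * (Matrix.of W).det := by
      rw [← Matrix.det_mul_row]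
      rfl
    rw [e1, e2, abs_mul, abs_mul, Finset.abs_prod, Finset.abs_prod,
      Finset.prod_eq_one fun i _ => pm_abs (hW i 0),
      Finset.prod_eq_one fun j _ => pm_abs (pm_mul (hW 0 0) (hW 0 j)), one_mul, one_mul]
  have hsq : ∀ i j, W i j * W i j = 1 := by
    intro i j
    rcases hW i j with h | h <;> rw [h] <;> norm_num
  have hrow : ∀ j, W' 0 j = 1 := by
    intro j
    simp only [hW', Matrix.of_apply]
    linear_combination (W 0 j * W 0 j) * hsq 0 0 + hsq 0 j
  have hcol : ∀ i, W' i 0 = 1 := by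
    intro i
    simp only [hW', Matrix.of_apply]
    linear_combination (W i 0 * W i 0) * hsq 0 0 + hsq i 0
  set Bm : Matrix (Fin (k + 1)) (Fin (k + 1)) ℤ :=
    Matrix.of fun i j => if i = 0 then 1 else W' i j - 1 with hBm
  have h2 : W'.det = Bm.det := by
    refine Matrix.det_eq_of_forall_row_eq_smul_add_const (fun i => if i = 0 then 0 else 1) 0
      (by simp) (fun i j => ?_)
    simp only [hBm, Matrix.of_apply]
    by_cases hi : i = 0
    · subst hi
      simp [hrow]
    · simp [hi]
  have h3 : Bm.det = (-2) ^ k * (Dm W).det := by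
    rw [Matrix.det_succ_column_zero, Fin.sum_univ_succ]
    have hz : ∀ i : Fin k, (-1 : ℤ) ^ ((i.succ : Fin (k + 1)) : ℕ) * Bm i.succ 0 *
        (Bm.submatrix i.succ.succAbove Fin.succ).det = 0 := by
      intro i
      have : Bm i.succ 0 = 0 := by
        simp [hBm, hcol, Fin.succ_ne_zero]
      rw [this]
      ring
    rw [Finset.sum_eq_zero fun i _ => hz i, add_zero]
    have h00 : Bm 0 0 = 1 := by simp [hBm]
    rw [h00, Fin.val_zero, pow_zero, one_mul, one_mul]
    have hsub : Bm.submatrix (Fin.succAbove 0) Fin.succ = (-2 : ℤ) • Dm W := by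
      ext i j
      simp only [Matrix.submatrix_apply, Fin.succAbove_zero, hBm, Matrix.of_apply,
        Fin.succ_ne_zero, if_false, Matrix.smul_apply, Dm, smul_eq_mul, hW']
      have hcomm : W i.succ 0 * (W 0 0 * W 0 j.succ * W i.succ j.succ) =
        W 0 0 * W 0 j.succ * W i.succ 0 * W i.succ j.succ := by ring
      rw [hcomm]
      have hpm : W 0 0 * W 0 j.succ * W i.succ 0 * W i.succ j.succ = 1 ∨
          W 0 0 * W 0 j.succ * W i.succ 0 * W i.succ j.succ = -1 :=
        pm_mul (pm_mul (pm_mul (hW _ _) (hW _ _)) (hW _ _)) (hW _ _)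
      rcases hpm with h | h
      · rw [h]; norm_num
      · rw [h]; norm_num
    rw [hsub, Matrix.det_smul, Fintype.card_fin]
  rw [← h1, h2, h3, abs_mul, abs_pow]
  norm_num

end MINOR

end MP948082
end

section
/-!
# MP_948082_co : standard binary families and ±1 matrices
-/
open Set Submodule

namespace MP948082

universe u

namespace PM

open MINOR

variable {α : Type u}

/-- The parity matrix entry: the rows `y` in which the columns `x`, `x'` differ. -/
def df (W : α → α → ℤ) (x x' y : α) : F2 := if W y x = W y x' then 0 else 1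

/-- `v` is a binary standard family for the sign matrix `W`. -/
structure IsStd {V : Type*} [AddCommGroup V] [Module F2 V] (v : α → V) (Y : Finset α) (X : Set α)
    (W : α → α → ℤ) : Prop where
  sum_zero : ∑ y ∈ Y, v y = 0
  indep : ∀ y ∈ Y, LinearIndepOn F2 v ((Y : Set α) \ {y})
  notMem : ∀ x ∈ X, v x ∉ span F2 (v '' (Y : Set α))
  diff : ∀ x ∈ X, ∀ x' ∈ X, v x' = v x + ∑ y ∈ Y, df W x x' y • v y

theorem add_self {V : Type*} [AddCommGroup V] [Module F2 V] (x : V) : x + x = 0 := by
  have : (1 + 1 : F2) • x = 0 := by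
    rw [show (1 + 1 : F2) = 0 by decide, zero_smul]
  rwa [add_smul, one_smul] at this

/-- the cross sign -/
theorem df_add {W : α → α → ℤ} {x x' y y' : α} (h1 : W y x = 1 ∨ W y x = -1)
    (h2 : W y x' = 1 ∨ W y x' = -1) (h3 : W y' x = 1 ∨ W y' x = -1)
    (h4 : W y' x' = 1 ∨ W y' x' = -1) :
    df W x x' y + df W x x' y' =
      if W y' x * W y' x' * W y x * W y x' = 1 then 0 else 1 := by
  rcases h1 with h1 | h1 <;> rcases h2 with h2 | h2 <;> rcases h3 with h3 | h3 <;>
    rcases h4 with h4 | h4 <;> simp only [df, h1, h2, h3, h4] <;> norm_num <;> decide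

variable {V : Type*} [AddCommGroup V] [Module F2 V] {v : α → V} {Y : Finset α} {X : Set α}
  {W : α → α → ℤ}

/-- Bases of a standard family and minors. -/
theorem IsStd.minor (h : IsStd v Y X W) (hYX : Disjoint (Y : Set α) X)
    (hW : ∀ y ∈ Y, ∀ x ∈ X, W y x = 1 ∨ W y x = -1) {k : ℕ} {f g : Fin (k + 1) → α}
    (hf : Function.Injective f) (hg : Function.Injective g) (hfY : ∀ i, f i ∈ Y)
    (hgX : ∀ i, g i ∈ X) :
    LinearIndepOn F2 v (((Y : Set α) \ range f) ∪ range g) ↔
      (((Dm fun i j => W (f i) (g j)).det : ℤ) : F2) ≠ 0 := by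
  classical
  set R : Set α := ((Y : Set α) \ range f) ∪ {g 0} with hR
  set f' : Fin k → α := fun i => f i.succ with hf'
  set g' : Fin k → α := fun i => g i.succ with hg'
  have hf'i : Function.Injective f' := fun i j hij => Fin.succ_injective _ (hf hij)
  have hg'i : Function.Injective g' := fun i j hij => Fin.succ_injective _ (hg hij)
  have hgY : ∀ i, g i ∉ (Y : Set α) := fun i hi => hYX.le_bot ⟨hi, hgX i⟩
  have hRf : Disjoint R (range f') := by
    rw [Set.disjoint_left]
    rintro a (⟨-, ha⟩ | ha) ⟨i, rfl⟩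
    · exact ha ⟨i.succ, rfl⟩
    · rw [mem_singleton_iff] at ha
      exact hgY 0 (ha ▸ (hfY i.succ))
  have hRg : Disjoint R (range g') := by
    rw [Set.disjoint_left]
    rintro a (⟨haY, -⟩ | ha) ⟨i, rfl⟩
    · exact hgY _ haY
    · rw [mem_singleton_iff] at ha
      exact (Fin.succ_ne_zero i) (hg ha)
  have hB : LinearIndepOn F2 v (R ∪ range f') := by
    have hsub : R ∪ range f' = insert (g 0) ((Y : Set α) \ {f 0}) := by
      ext a
      simp only [hR, mem_union, mem_sdiff, mem_range, mem_singleton_iff, mem_insert_iff, hf']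
      constructor
      · rintro ((⟨ha, hn⟩ | ha) | ⟨i, rfl⟩)
        · exact Or.inr ⟨ha, fun hc => hn ⟨0, hc.symm⟩⟩
        · exact Or.inl ha
        · exact Or.inr ⟨hfY _, fun hc => Fin.succ_ne_zero i (hf hc)⟩
      · rintro (ha | ⟨ha, hn⟩)
        · exact Or.inl (Or.inr ha)
        · by_cases hr : ∃ i, f i = a
          · obtain ⟨i, rfl⟩ := hr
            obtain ⟨j, rfl⟩ : ∃ j, i = Fin.succ j := by
              refine ⟨i.pred fun hc => hn (by rw [hc]), (Fin.succ_pred _ _).symm⟩
            exact Or.inr ⟨j, rfl⟩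
          · exact Or.inl (Or.inl ⟨ha, hr⟩)
    rw [hsub]
    refine (h.indep (f 0) (hfY 0)).insert fun hc => ?_
    exact h.notMem (g 0) (hgX 0) (span_mono (image_mono sdiff_subset) hc)
  have key := vec_iff (v := v) hf'i hg'i hRf hRg hB
    ((Dm fun i j => W (f i) (g j)).map (Int.cast : ℤ → F2)) (by
      intro j
      have h1 := h.diff (g 0) (hgX 0) (g j.succ) (hgX j.succ)
      have h2 : v (g j.succ) = v (g 0) +
          ∑ y ∈ Y, (df W (g 0) (g j.succ) y + df W (g 0) (g j.succ) (f 0)) • v y := by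
        simp only [add_smul, Finset.sum_add_distrib]
        rw [← Finset.smul_sum, h.sum_zero, smul_zero, add_zero]
        exact h1
      have h3 : ∑ y ∈ Y, (df W (g 0) (g j.succ) y + df W (g 0) (g j.succ) (f 0)) • v y =
          ∑ y ∈ Y \ (Finset.univ.image f),
            (df W (g 0) (g j.succ) y + df W (g 0) (g j.succ) (f 0)) • v y +
          ∑ i, (df W (g 0) (g j.succ) (f i) + df W (g 0) (g j.succ) (f 0)) • v (f i) := by
        rw [← Finset.sum_sdiff (s₁ := Finset.univ.image f) (s₂ := Y)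
          (by intro a ha; obtain ⟨i, -, rfl⟩ := Finset.mem_image.1 ha; exact hfY i),
          Finset.sum_image (fun i _ j _ hij => hf hij)]
      rw [Fin.sum_univ_succ] at h3
      rw [show (df W (g 0) (g j.succ) (f 0) + df W (g 0) (g j.succ) (f 0) : F2) = 0 from by
        generalize df W (g 0) (g j.succ) (f 0) = t; revert t; decide, zero_smul, zero_add] at h3
      have h4 : ∑ i : Fin k, (df W (g 0) (g j.succ) (f i.succ) + df W (g 0) (g j.succ) (f 0)) •
            v (f i.succ) =
          ∑ i, ((Dm fun i j => W (f i) (g j)).map (Int.cast : ℤ → F2)) i j • v (f' i) := by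
        refine Finset.sum_congr rfl fun i _ => ?_
        rw [df_add (hW _ (hfY _) _ (hgX _)) (hW _ (hfY _) _ (hgX _)) (hW _ (hfY _) _ (hgX _))
          (hW _ (hfY _) _ (hgX _))]
        simp only [Dm, Matrix.map_apply, Matrix.of_apply]
        split_ifs <;> simp [hf']
      rw [hg']
      simp only
      rw [h2, h3, h4, ← add_assoc, add_sub_cancel_right]
      refine add_mem (subset_span ⟨g 0, Or.inr rfl, rfl⟩) (Submodule.sum_mem _ fun y hy => ?_)
      refine Submodule.smul_mem _ _ (subset_span ⟨y, Or.inl ?_, rfl⟩)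
      rw [Finset.mem_sdiff] at hy
      refine ⟨hy.1, fun ⟨i, hi⟩ => hy.2 (Finset.mem_image.2 ⟨i, Finset.mem_univ _, hi⟩)⟩)
  have hset : R ∪ range g' = ((Y : Set α) \ range f) ∪ range g := by
    ext a
    simp only [hR, mem_union, mem_range, mem_singleton_iff, hg']
    constructor
    · rintro ((ha | ha) | ⟨i, rfl⟩)
      · exact Or.inl ha
      · exact Or.inr ⟨0, ha.symm⟩
      · exact Or.inr ⟨_, rfl⟩
    · rintro (ha | ⟨i, rfl⟩)
      · exact Or.inl (Or.inl ha)
      · by_cases hi : i = 0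
        · subst hi; exact Or.inl (Or.inr rfl)
        · exact Or.inr ⟨i.pred hi, by rw [Fin.succ_pred]⟩
  rw [hset] at key
  rw [key]
  have hdet : ((Dm fun i j => W (f i) (g j)).map (Int.cast : ℤ → F2)).det =
      (((Dm fun i j => W (f i) (g j)).det : ℤ) : F2) := by
    have := RingHom.map_det (Int.castRingHom F2) (Dm fun i j => W (f i) (g j))
    rw [eq_intCast] at this
    rw [this]
    rfl
  rw [hdet]

open Classical in
/-- The columns of `(I | W)` over the field `F`. -/
noncomputable def pmv (F : Type*) [Field F] (Y : Set α) (W : α → α → ℤ) (e : α) : Y → F :=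
  fun y => if e ∈ Y then (if e = (y : α) then 1 else 0) else (W y e : F)

theorem pmVec_eq (Y : Set α) (W : α → α → ℤ) : pmVec Y W = pmv ℚ Y W := rfl

theorem pmv_eq_mv (F : Type*) [Field F] (Y : Set α) (W : α → α → ℤ) :
    pmv F Y W = SCALE.mv Y (fun a b => (W a b : F)) := by
  classical
  funext e y
  by_cases he : e ∈ Y
  · rw [SCALE.mv_row _ he, pmv, if_pos he]
    by_cases h : e = (y : α)
    · rw [if_pos h, if_pos h.symm]
    · rw [if_neg h, if_neg fun h' => h h'.symm]
  · rw [SCALE.mv_notMem _ he, pmv, if_neg he]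

section Field

variable {F : Type*} [Field F]

theorem pmv_indep_Y {Y : Set α} (hY : Y.Finite) (W : α → α → ℤ) :
    LinearIndepOn F (pmv F Y W) Y := by
  have := hY.to_subtype
  rw [pmv_eq_mv]
  exact SCALE.linearIndepOn_mv _ subset_rfl

theorem pmv_span_Y {Y : Set α} (hY : Y.Finite) (W : α → α → ℤ) :
    span F (pmv F Y W '' Y) = ⊤ := by
  have := hY.to_subtype
  rw [pmv_eq_mv, eq_top_iff]
  intro w _
  rw [SCALE.mem_span_mv _ subset_rfl]
  intro i hi
  exact absurd i.2 hi

theorem pmv_minor {Y : Set α} (hY : Y.Finite) (W : α → α → ℤ) {k : ℕ} {f g : Fin k → α}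
    (hf : Function.Injective f) (hg : Function.Injective g) (hfY : ∀ i, f i ∈ Y)
    (hgY : ∀ i, g i ∉ Y) :
    LinearIndepOn F (pmv F Y W) ((Y \ range f) ∪ range g) ↔
      (((Matrix.of fun i j => W (f i) (g j)).det : ℤ) : F) ≠ 0 := by
  classical
  have := hY.to_subtype
  have hset : (Y \ range f) ∪ range f = Y := by
    rw [sdiff_union_self, union_eq_left]
    rintro _ ⟨i, rfl⟩
    exact hfY i
  have key := vec_iff (v := pmv F Y W) (R := Y \ range f) hf hg disjoint_sdiff_left
    (by
      rw [Set.disjoint_left]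
      rintro a ⟨ha, -⟩ ⟨i, rfl⟩
      exact hgY i ha)
    (by rw [hset]; exact pmv_indep_Y hY W)
    ((Matrix.of fun i j => W (f i) (g j)).map (Int.cast : ℤ → F)) (by
      intro j
      rw [pmv_eq_mv, SCALE.mem_span_mv _ sdiff_subset]
      intro y hy
      have hy' : (y : α) ∈ range f := by
        by_contra hc
        exact hy ⟨y.2, hc⟩
      obtain ⟨i₀, hi₀⟩ := hy'
      rw [Pi.sub_apply, SCALE.mv_notMem _ (hgY j), Finset.sum_apply,
        Finset.sum_eq_single i₀]
      · rw [Pi.smul_apply, SCALE.mv_row _ (hfY i₀), if_pos hi₀.symm, smul_eq_mul, mul_one,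
          Matrix.map_apply, Matrix.of_apply, hi₀, sub_self]
      · intro i _ hi
        rw [Pi.smul_apply, SCALE.mv_row _ (hfY i), if_neg, smul_zero]
        rw [← hi₀]
        exact fun hc => hi (hf hc).symm
      · intro hc
        exact absurd (Finset.mem_univ _) hc)
  rw [key]
  have hdet : ((Matrix.of fun i j => W (f i) (g j)).map (Int.cast : ℤ → F)).det =
      (((Matrix.of fun i j => W (f i) (g j)).det : ℤ) : F) := by
    have := RingHom.map_det (Int.castRingHom F) (Matrix.of fun i j => W (f i) (g j))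
    rw [eq_intCast] at this
    rw [this]
    rfl
  rw [hdet]

end Field

end PM

end MP948082
end

section
/-!
# MP_948082_co : modules PMB and PMEXISTS
-/
open Set Submodule

namespace MP948082

universe u

namespace PM

open MINOR

variable {α : Type u} {V : Type*} [AddCommGroup V] [Module F2 V] {v : α → V} {Y : Finset α}
  {X : Set α} {W : α → α → ℤ}

/-- The value of a minor of a PM matrix. -/
theorem minor_val {Y X : Set α} (hPM : IsPM Y X W) {k : ℕ} (f g : Fin (k + 1) → α)
    (hf : ∀ i, f i ∈ Y) (hg : ∀ i, g i ∈ X) :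
    ((Matrix.of fun i j => W (f i) (g j)).det = 0 ∧ (Dm fun i j => W (f i) (g j)).det = 0) ∨
    (|(Matrix.of fun i j => W (f i) (g j)).det| = 2 ^ k ∧
      |(Dm fun i j => W (f i) (g j)).det| = 1) := by
  have h1 := det_pm (fun i j => W (f i) (g j)) (fun i j => hPM.entry _ (hf i) _ (hg j))
  have h2 : (2 : ℤ) ^ k ≠ 0 := pow_ne_zero _ (by norm_num)
  rcases hPM.minor k f g hf hg with h | h
  · refine Or.inl ⟨h, ?_⟩
    rw [h, abs_zero] at h1
    have := (mul_eq_zero.1 h1.symm).resolve_left h2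
    exact abs_eq_zero.1 this
  · refine Or.inr ⟨h, ?_⟩
    rw [h] at h1
    have : (2 : ℤ) ^ k * 1 = 2 ^ k * |(Dm fun i j => W (f i) (g j)).det| := by rw [mul_one]; exact h1
    exact (mul_left_cancel₀ h2 this).symm

theorem cast_ne_zero_of_abs {F : Type*} [Field F] (h2 : (2 : F) ≠ 0) {k : ℕ} {z : ℤ}
    (h : |z| = 2 ^ k) : (z : F) ≠ 0 := by
  rcases abs_eq (by positivity) |>.1 h with h | h <;> rw [h] <;> push_cast
  · exact pow_ne_zero _ h2
  · exact neg_ne_zero.2 (pow_ne_zero _ h2)

theorem cast_one_ne {z : ℤ} (h : |z| = 1) : (z : F2) ≠ 0 := by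
  rcases abs_eq (by norm_num) |>.1 h with h | h <;> rw [h] <;> decide

/-- The key comparison. -/
theorem key {F : Type*} [Field F] (h2 : (2 : F) ≠ 0) (hYX : Disjoint (Y : Set α) X)
    (hX : X.Finite) (hPM : IsPM (Y : Set α) X W) (h : IsStd v Y X W) {T : Set α}
    (hT : T ⊆ (Y : Set α) ∪ X) (hc : T.ncard = (Y : Set α).ncard) (hne : T ≠ Y) :
    (LinearIndepOn F2 v T ↔ LinearIndepOn F (pmv F (Y : Set α) W) T) := by
  have hTf : T.Finite := (Y.finite_toSet.union hX).subset hT
  obtain ⟨k, f, g, hf, hg, hfr, hgr⟩ := exists_fg Y.finite_toSet hTf hc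
  have hTe : T = ((Y : Set α) \ range f) ∪ range g := by
    rw [hfr, hgr]
    ext a
    by_cases ha : a ∈ T <;> by_cases hb : a ∈ (Y : Set α) <;> simp [ha, hb]
  have hfY : ∀ i, f i ∈ (Y : Set α) := fun i => (hfr ▸ mem_range_self i : f i ∈ (Y : Set α) \ T).1
  have hgT : ∀ i, g i ∈ T \ (Y : Set α) := fun i => hgr ▸ mem_range_self i
  have hgX : ∀ i, g i ∈ X := fun i => (hT (hgT i).1).resolve_left (hgT i).2
  cases k with
  | zero =>
    exfalso
    apply hne
    rw [hTe]
    simp [Set.range_eq_empty]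
  | succ k =>
    rw [hTe, h.minor hYX hPM.entry hf hg hfY hgX,
      pmv_minor Y.finite_toSet W hf hg hfY (fun i => (hgT i).2)]
    rcases minor_val hPM f g hfY hgX with ⟨h3, h4⟩ | ⟨h3, h4⟩
    · simp [h3, h4]
    · exact iff_of_true (cast_one_ne h4) (cast_ne_zero_of_abs h2 h3)

/-! ### existence of a standard family -/

section Exists

variable (Y W)

/-- the space of the standard family -/
abbrev SV : Type u := ((Y → F2) × F2) ⧸ span F2 {(((fun _ : Y => 1), 0) : (Y → F2) × F2)}

open Classical in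
/-- lifts of the vectors of the standard family -/
noncomputable def sv0 (e : α) : (Y → F2) × F2 :=
  if h : e ∈ Y then (Pi.single ⟨e, h⟩ 1, 0) else ((fun y => if W y e = 1 then 0 else 1), 1)

/-- the vectors of the standard family -/
noncomputable def sv (e : α) : SV Y :=
  (span F2 {(((fun _ : Y => 1), 0) : (Y → F2) × F2)}).mkQ (sv0 Y W e)

theorem sv_isStd {X : Set α} (hYX : Disjoint (Y : Set α) X)
    (hW : ∀ y ∈ Y, ∀ x ∈ X, W y x = 1 ∨ W y x = -1) : IsStd (sv Y W) Y X W := by
  classical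
  have hXY : ∀ x ∈ X, x ∉ Y := fun x hx hy => hYX.le_bot ⟨hy, hx⟩
  have hfst : ∀ e (h : e ∈ Y), sv0 Y W e = (Pi.single ⟨e, h⟩ 1, 0) := by
    intro e h
    simp only [sv0, dif_pos h]
  have hsnd : ∀ e, e ∉ Y →
      sv0 Y W e = ((fun y : Y => if W y e = 1 then 0 else 1), 1) := by
    intro e h
    simp only [sv0, dif_neg h]
  have hsum : ∀ c : α → F2, ∑ y ∈ Y, c y • sv0 Y W y = ((fun y : Y => c y), 0) := by
    intro c
    have h1 : ∑ y ∈ Y, c y • sv0 Y W y = ∑ y : Y, c y • sv0 Y W y := by
      rw [← Finset.sum_coe_sort]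
    rw [h1]
    have h2 : ∀ y : Y, c y • sv0 Y W (y : α) = (Pi.single y (c y), 0) := by
      intro y
      rw [hfst y y.2, Prod.smul_mk, smul_zero]
      congr 1
      funext z
      simp only [Pi.smul_apply, Pi.single_apply, smul_eq_mul, mul_ite, mul_one, mul_zero]
    rw [Finset.sum_congr rfl fun y _ => h2 y]
    ext1
    · rw [Prod.fst_sum]
      funext z
      rw [Finset.sum_apply, Finset.sum_eq_single z]
      · exact Pi.single_eq_same _ _
      · intro b _ hb
        exact Pi.single_eq_of_ne hb.symm _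
      · intro hc
        exact absurd (Finset.mem_univ _) hc
    · rw [Prod.snd_sum]
      exact Finset.sum_eq_zero fun _ _ => rfl
  set K := span F2 {(((fun _ : Y => 1), 0) : (Y → F2) × F2)} with hK
  have hKmem : ∀ p : (Y → F2) × F2, p ∈ K ↔ ∃ c : F2, c • ((fun _ : Y => 1), 0) = p := by
    intro p
    rw [hK, mem_span_singleton]
  refine ⟨?_, ?_, ?_, ?_⟩
  · have h1 := hsum fun _ => 1
    have h2 : ∑ y ∈ Y, sv Y W y = K.mkQ (∑ y ∈ Y, (1 : F2) • sv0 Y W y) := by
      rw [map_sum]
      exact Finset.sum_congr rfl fun y _ => by rw [one_smul]; rfl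
    rw [h2, h1, Submodule.mkQ_apply, Submodule.Quotient.mk_eq_zero]
    exact mem_span_singleton_self _
  · intro y₀ hy₀
    rw [show ((Y : Set α) \ {y₀}) = ((Y.erase y₀ : Finset α) : Set α) by simp,
      linearIndepOn_finset_iff]
    intro c hc
    have h1 : ∑ y ∈ Y, (if y = y₀ then 0 else c y) • sv Y W y = 0 := by
      rw [← hc, ← Finset.add_sum_erase _ _ hy₀, if_pos rfl, zero_smul, zero_add]
      exact Finset.sum_congr rfl fun y hy => by rw [if_neg (Finset.ne_of_mem_erase hy)]
    have h2 : K.mkQ (∑ y ∈ Y, (if y = y₀ then 0 else c y) • sv0 Y W y) = 0 := by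
      rw [← h1, map_sum]
      exact Finset.sum_congr rfl fun y _ => by rw [map_smul]; rfl
    rw [hsum fun y => if y = y₀ then 0 else c y, Submodule.mkQ_apply,
      Submodule.Quotient.mk_eq_zero, hKmem] at h2
    obtain ⟨d, hd⟩ := h2
    have h3 := congrArg Prod.fst hd
    have h4 := congrFun h3 ⟨y₀, hy₀⟩
    simp only [Prod.smul_fst, Pi.smul_apply, smul_eq_mul, mul_one, if_true] at h4
    intro y hy
    have h5 := congrFun h3 ⟨y, Finset.mem_of_mem_erase hy⟩
    simp only [Prod.smul_fst, Pi.smul_apply, smul_eq_mul, mul_one,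
      if_neg (Finset.ne_of_mem_erase hy)] at h5
    rw [← h5, h4]
  · intro x hx hc
    let ℓ : SV Y →ₗ[F2] F2 := K.liftQ (LinearMap.snd F2 _ _) (by
      rw [hK, span_le]
      rintro _ rfl
      rfl)
    have hℓ : ∀ e, ℓ (sv Y W e) = (sv0 Y W e).2 := fun e => rfl
    have h1 : span F2 (sv Y W '' (Y : Set α)) ≤ LinearMap.ker ℓ := by
      rw [span_le]
      rintro _ ⟨y, hy, rfl⟩
      change ℓ (sv Y W y) = 0
      rw [hℓ, hfst y hy]
    have h2 : ℓ (sv Y W x) = 0 := h1 hc
    rw [hℓ, hsnd x (hXY x hx)] at h2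
    exact absurd (show (1 : F2) = 0 from h2) (by decide)
  · intro x hx x' hx'
    have h1 := hsum fun y => df W x x' y
    have h2 : ∑ y ∈ Y, df W x x' y • sv Y W y = K.mkQ (∑ y ∈ Y, df W x x' y • sv0 Y W y) := by
      rw [map_sum]
      exact Finset.sum_congr rfl fun y _ => by rw [map_smul]; rfl
    rw [h2, h1]
    change K.mkQ _ = K.mkQ _ + _
    rw [← map_add, hsnd x (hXY x hx), hsnd x' (hXY x' hx'), Prod.mk_add_mk, add_zero]
    congr 1
    ext1
    · funext y
      simp only [Pi.add_apply, df]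
      rcases hW y y.2 x hx with h3 | h3 <;> rcases hW y y.2 x' hx' with h4 | h4 <;>
        rw [h3, h4] <;> simp <;> decide
    · rfl

end Exists

/-! ### bases -/

/-- Bases of a matroid represented by a standard family. -/
theorem IsStd.isBase_iff (h : IsStd v Y X W) {N : Matroid α} [N.Finite] (hE : N.E = (Y : Set α) ∪ X)
    (hv : IsRep F2 N v) (hX : X.Nonempty) (hY : Y.Nonempty) (hYX : Disjoint (Y : Set α) X)
    {T : Set α} :
    N.IsBase T ↔ T ⊆ N.E ∧ T.ncard = (Y : Set α).ncard ∧ LinearIndepOn F2 v T := by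
  classical
  obtain ⟨x, hx⟩ := hX
  obtain ⟨y, hy⟩ := hY
  have hxY : x ∉ (Y : Set α) := fun hc => hYX.le_bot ⟨hc, hx⟩
  have hBE : insert x ((Y : Set α) \ {y}) ⊆ N.E := by
    rw [hE]
    exact insert_subset (Or.inr hx) (sdiff_subset.trans subset_union_left)
  have hli : LinearIndepOn F2 v (insert x ((Y : Set α) \ {y})) := by
    refine (h.indep y hy).insert fun hc => ?_
    exact h.notMem x hx (span_mono (image_mono sdiff_subset) hc)
  have hI : N.Indep (insert x ((Y : Set α) \ {y})) := (hv _ hBE).2 hli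
  have hYs : ∀ z ∈ (Y : Set α), v z ∈ span F2 (v '' (insert x ((Y : Set α) \ {y}))) := by
    intro z hz
    by_cases hzy : z = y
    · subst hzy
      have h1 : v z + ∑ w ∈ Y.erase z, v w = 0 := by
        rw [Finset.add_sum_erase _ _ hz, h.sum_zero]
      have h2 : v z = ∑ w ∈ Y.erase z, v w := by
        have := add_self (∑ w ∈ Y.erase z, v w)
        exact add_right_cancel (h1.trans this.symm)
      rw [h2]
      refine Submodule.sum_mem _ fun w hw => subset_span ⟨w, Or.inr ?_, rfl⟩
      exact ⟨Finset.mem_of_mem_erase hw, Finset.ne_of_mem_erase hw⟩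
    · exact subset_span ⟨z, Or.inr ⟨hz, hzy⟩, rfl⟩
  have hB : N.IsBase (insert x ((Y : Set α) \ {y})) := by
    rw [hI.isBase_iff_ground_subset_closure]
    intro e he
    rw [hv.mem_closure_iff hBE he]
    rw [hE] at he
    rcases he with he | he
    · exact hYs e he
    · rw [h.diff x hx e he]
      refine add_mem (subset_span ⟨x, Or.inl rfl, rfl⟩) (Submodule.sum_mem _ fun w hw => ?_)
      exact Submodule.smul_mem _ _ (hYs w hw)
  have hcard : (insert x ((Y : Set α) \ {y})).ncard = (Y : Set α).ncard := by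
    rw [Set.ncard_insert_of_notMem (fun hc => hxY hc.1) (Y.finite_toSet.subset sdiff_subset),
      Set.ncard_sdiff_singleton_add_one (show y ∈ (Y : Set α) from hy) Y.finite_toSet]
  rw [isBase_iff_card hB, hcard]
  constructor
  · rintro ⟨h1, h2⟩
    exact ⟨h1.subset_ground, h2, hv.linearIndepOn h1⟩
  · rintro ⟨h1, h2, h3⟩
    exact ⟨(hv _ h1).2 h3, h2⟩

theorem IsStd.not_indep (h : IsStd v Y X W) (hY : Y.Nonempty) : ¬ LinearIndepOn F2 v (Y : Set α) := by
  intro hc
  rw [linearIndepOn_finset_iff] at hc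
  obtain ⟨y, hy⟩ := hY
  have := hc (fun _ => 1) (by simpa using h.sum_zero) y hy
  exact absurd this (by decide)

/-- Bases of the matroid of `(I | W)`. -/
theorem pm_isBase_iff {F : Type*} [Field F] {Y : Set α} {M : Matroid α} [M.Finite]
    (hM : IsRep F M (pmv F Y W)) (hY : Y ⊆ M.E) {T : Set α} :
    M.IsBase T ↔ T ⊆ M.E ∧ T.ncard = Y.ncard ∧ LinearIndepOn F (pmv F Y W) T := by
  have hYf : Y.Finite := M.ground_finite.subset hY
  have hI : M.Indep Y := (hM _ hY).2 (pmv_indep_Y hYf W)
  have hB : M.IsBase Y := by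
    rw [hI.isBase_iff_ground_subset_closure]
    intro e he
    rw [hM.mem_closure_iff hY he, pmv_span_Y hYf]
    trivial
  rw [isBase_iff_card hB]
  constructor
  · rintro ⟨h1, h2⟩
    exact ⟨h1.subset_ground, h2, hM.linearIndepOn h1⟩
  · rintro ⟨h1, h2, h3⟩
    exact ⟨(hM _ h1).2 h3, h2⟩

/-- comparison of the bases, with the binary matroid -/
theorem base_iff {F : Type*} [Field F] (h2 : (2 : F) ≠ 0) {M N : Matroid α} [M.Finite] [N.Finite]
    (hYX : Disjoint (Y : Set α) X) (hPM : IsPM (Y : Set α) X W) (h : IsStd v Y X W)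
    (hX : X.Nonempty) (hY : Y.Nonempty) (hME : M.E = (Y : Set α) ∪ X) (hNE : N.E = (Y : Set α) ∪ X)
    (hM : IsRep F M (pmv F (Y : Set α) W)) (hN : IsRep F2 N v) (T : Set α) :
    N.IsBase T ↔ M.IsBase T ∧ T ≠ Y := by
  have hYM : (Y : Set α) ⊆ M.E := by rw [hME]; exact subset_union_left
  have hXf : X.Finite := N.ground_finite.subset (by rw [hNE]; exact subset_union_right)
  rw [h.isBase_iff hNE hN hX hY hYX, pm_isBase_iff hM hYM, hME, hNE]
  constructor
  · rintro ⟨h1, h3, h4⟩
    have hne : T ≠ Y := by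
      rintro rfl
      exact h.not_indep hY h4
    exact ⟨⟨h1, h3, (key h2 hYX hXf hPM h h1 h3 hne).1 h4⟩, hne⟩
  · rintro ⟨⟨h1, h3, h4⟩, hne⟩
    exact ⟨h1, h3, (key h2 hYX hXf hPM h h1 h3 hne).2 h4⟩

theorem two_ne_F3 : (2 : F3) ≠ 0 := by decide

theorem pm_isBase_Y {F : Type*} [Field F] {Y : Set α} {M : Matroid α} [M.Finite]
    (hM : IsRep F M (pmv F Y W)) (hY : Y ⊆ M.E) : M.IsBase Y :=
  (pm_isBase_iff hM hY).2 ⟨hY, rfl, pmv_indep_Y (M.ground_finite.subset hY) W⟩

end PM

open PM in
/-- PMEXISTS. -/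
theorem specPMExists : SpecPMExists.{u} := by
  intro α Y X W hY hX hYX hYn hXn hPM
  obtain ⟨Y, rfl⟩ := hY.exists_finset_coe
  have hE : ((Y : Set α) ∪ X).Finite := hY.union hX
  have hstd := sv_isStd Y W hYX (fun y hy x hx => hPM.entry y hy x hx)
  have hdiff : ((Y : Set α) ∪ X) \ (Y : Set α) = X := by
    rw [union_sdiff_left, sdiff_eq_left]
    exact hYX.symm
  have hb := base_iff (F := ℚ) two_ne_zero hYX hPM hstd hXn
    (Finset.coe_nonempty.1 hYn)
    (M := vecMatroid ℚ (pmVec (Y : Set α) W) _ hE) (N := vecMatroid F2 (sv Y W) _ hE) rfl rfl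
    vecMatroid_isRep vecMatroid_isRep
  refine ⟨vecMatroid ℚ (pmVec (Y : Set α) W) _ hE, vecMatroid F2 (sv Y W) _ hE, rfl, ?_, ?_, ?_⟩
  · refine ⟨subset_union_left, hYn, ?_, ?_, vecMatroid_isRep⟩
    · rw [vecMatroid_ground, hdiff]; exact hXn
    · rw [vecMatroid_ground, hdiff]; exact hPM
  · refine ⟨rfl, fun B => ?_⟩
    rw [hb]
    constructor
    · intro hB
      by_cases h : B = Y
      · exact Or.inr h
      · exact Or.inl ⟨hB, h⟩
    · rintro (h | rfl)
      · exact h.1
      · exact pm_isBase_Y (F := ℚ) vecMatroid_isRep subset_union_left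
  · rw [hb]
    exact fun h => h.2 rfl

namespace PM

/-- The binary partner of a PM matroid. -/
theorem partner_binary {α : Type u} {N M : Matroid α} [N.Finite] {Y : Finset α} {W : α → α → ℤ}
    (h : IsPMMatroid M (Y : Set α) W) (hr : IsRelaxation M N Y) (hNY : ¬ N.IsBase (Y : Set α)) :
    IsRep F2 N (sv Y W) ∧ IsStd (sv Y W) Y (N.E \ Y) W := by
  obtain ⟨hYE, hYn, hXn, hPM, hM⟩ := h
  have hME : M.E = N.E := hr.1
  have : M.Finite := ⟨by rw [hME]; exact N.ground_finite⟩
  rw [hME] at hYE hXn hPM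
  have hstd := sv_isStd Y W (X := N.E \ Y) disjoint_sdiff_right
    (fun y hy x hx => hPM.entry y hy x hx)
  have hEE : (Y : Set α) ∪ (N.E \ Y) = N.E := union_sdiff_cancel hYE
  have hb := base_iff (F := ℚ) two_ne_zero disjoint_sdiff_right hPM hstd hXn
    (Finset.coe_nonempty.1 hYn) (M := M) (N := vecMatroid F2 (sv Y W) _ N.ground_finite)
    (by rw [hEE, hME]) (by rw [hEE]; rfl) hM vecMatroid_isRep
  have heq : N = vecMatroid F2 (sv Y W) _ N.ground_finite := by
    refine Matroid.ext_isBase rfl fun B hB => ?_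
    rw [hb, hr.2]
    constructor
    · intro h
      refine ⟨Or.inl h, ?_⟩
      rintro rfl
      exact hNY h
    · rintro ⟨h | h, hne⟩
      · exact h
      · exact absurd h hne
  refine ⟨?_, hstd⟩
  rw [heq]
  exact vecMatroid_isRep

/-- All fields in which two is not zero. -/
theorem isRep_of_field {α : Type u} {M : Matroid α} [M.Finite] {Y : Finset α} {W : α → α → ℤ}
    (h : IsPMMatroid M (Y : Set α) W) (F : Type*) [Field F] (h2 : (2 : F) ≠ 0) :
    IsRep F M (pmv F (Y : Set α) W) := by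
  obtain ⟨hYE, hYn, hXn, hPM, hM⟩ := h
  have hstd := sv_isStd Y W (X := M.E \ Y) disjoint_sdiff_right
    (fun y hy x hx => hPM.entry y hy x hx)
  have hEE : (Y : Set α) ∪ (M.E \ Y) = M.E := union_sdiff_cancel hYE
  have hb := base_iff (F := ℚ) two_ne_zero disjoint_sdiff_right hPM hstd hXn
    (Finset.coe_nonempty.1 hYn) (M := M) (N := vecMatroid F2 (sv Y W) _ M.ground_finite)
    (by rw [hEE]) (by rw [hEE]; rfl) hM vecMatroid_isRep
  have hb' := base_iff (F := F) h2 disjoint_sdiff_right hPM hstd hXn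
    (Finset.coe_nonempty.1 hYn) (M := vecMatroid F (pmv F (Y : Set α) W) _ M.ground_finite)
    (N := vecMatroid F2 (sv Y W) _ M.ground_finite)
    (by rw [hEE]; rfl) (by rw [hEE]; rfl) vecMatroid_isRep vecMatroid_isRep
  have heq : M = vecMatroid F (pmv F (Y : Set α) W) _ M.ground_finite := by
    refine Matroid.ext_isBase rfl fun B hB => ?_
    by_cases hBY : B = Y
    · subst hBY
      exact iff_of_true (pm_isBase_Y hM hYE) (pm_isBase_Y vecMatroid_isRep hYE)
    · have h1 := hb B
      rw [hb' B] at h1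
      constructor
      · intro h
        exact (h1.2 ⟨h, hBY⟩).1
      · intro h
        exact (h1.1 ⟨h, hBY⟩).1
  rw [heq]
  exact vecMatroid_isRep

theorem circuit_of_exchange {α : Type u} {N : Matroid α} [N.Finite] {Y : Set α} (hYE : Y ⊆ N.E)
    (hYn : Y.Nonempty) (hXn : (N.E \ Y).Nonempty) (hN : ¬ N.IsBase Y)
    (hall : ∀ y ∈ Y, ∀ x ∈ N.E \ Y, N.IsBase (insert x (Y \ {y}))) : N.IsCircuit Y := by
  obtain ⟨x, hx⟩ := hXn
  have hYf : Y.Finite := N.ground_finite.subset hYE
  rw [Matroid.isCircuit_iff_dep_forall_sdiff_singleton_indep]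
  refine ⟨⟨fun hI => hN ?_, hYE⟩, fun y hy => (hall y hy x hx).indep.subset (subset_insert _ _)⟩
  obtain ⟨y, hy⟩ := hYn
  rw [isBase_iff_card (hall y hy x hx)]
  refine ⟨hI, ?_⟩
  rw [Set.ncard_insert_of_notMem (fun hc => hx.2 hc.1) (hYf.subset sdiff_subset),
    Set.ncard_sdiff_singleton_add_one hy hYf]

theorem CH_of_exchange {α : Type u} {N : Matroid α} [N.Finite] {Y : Set α} (hYE : Y ⊆ N.E)
    (hYn : Y.Nonempty) (hXn : (N.E \ Y).Nonempty) (hN : ¬ N.IsBase Y)
    (hall : ∀ y ∈ Y, ∀ x ∈ N.E \ Y, N.IsBase (insert x (Y \ {y}))) :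
    IsCircuitHyperplane N Y := by
  refine ⟨circuit_of_exchange hYE hYn hXn hN hall, ?_⟩
  rw [Matroid.isCocircuit_def]
  have hYY : N.E \ (N.E \ Y) = Y := by
    rw [Set.sdiff_sdiff_right_self]; exact inter_eq_self_of_subset_right hYE
  refine circuit_of_exchange (N := N✶) sdiff_subset hXn ?_ ?_ ?_
  · rw [Matroid.dual_ground, hYY]; exact hYn
  · rw [Matroid.dual_isBase_iff, hYY]; exact hN
  · intro x hx y hy
    rw [Matroid.dual_ground, hYY] at hy
    rw [Matroid.dual_isBase_iff (insert_subset (hYE hy) (sdiff_subset.trans sdiff_subset))]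
    have : N.E \ insert y ((N.E \ Y) \ {x}) = insert x (Y \ {y}) := by
      ext a
      simp only [mem_sdiff, mem_insert_iff, mem_singleton_iff, not_or, not_and, not_not]
      constructor
      · rintro ⟨haE, hay, h⟩
        by_cases haY : a ∈ Y
        · exact Or.inr ⟨haY, hay⟩
        · exact Or.inl (h ⟨haE, haY⟩)
      · rintro (rfl | ⟨haY, hay⟩)
        · exact ⟨hx.1, fun hc => hx.2 (hc ▸ hy), fun _ => rfl⟩
        · exact ⟨hYE haY, hay, fun hc => absurd haY hc.2⟩
    rw [this]
    exact hall y hy x hx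

/-- exchanges of PM matroids -/
theorem pm_exchange {α : Type u} {M : Matroid α} [M.Finite] {Y : Set α} {W : α → α → ℤ}
    (h : IsPMMatroid M Y W) {y x : α} (hy : y ∈ Y) (hx : x ∈ M.E \ Y) :
    M.IsBase (insert x (Y \ {y})) := by
  obtain ⟨hYE, hYn, hXn, hPM, hM⟩ := h
  have hYf : Y.Finite := M.ground_finite.subset hYE
  rw [pm_isBase_iff (F := ℚ) hM hYE]
  refine ⟨insert_subset hx.1 (sdiff_subset.trans hYE), ?_, ?_⟩
  · rw [Set.ncard_insert_of_notMem (fun hc => hx.2 hc.1) (hYf.subset sdiff_subset),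
      Set.ncard_sdiff_singleton_add_one hy hYf]
  · have := (pmv_minor (F := ℚ) hYf W (f := fun _ : Fin 1 => y) (g := fun _ : Fin 1 => x)
      (fun i j _ => Subsingleton.elim i j) (fun i j _ => Subsingleton.elim i j) (fun _ => hy)
      (fun _ => hx.2)).2 (by
        rw [Matrix.det_fin_one, Matrix.of_apply]
        rcases hPM.entry y hy x hx with h | h <;> rw [h] <;> norm_num)
    have hset : (Y \ range fun _ : Fin 1 => y) ∪ range (fun _ : Fin 1 => x) =
        insert x (Y \ {y}) := by
      rw [Set.range_const, Set.range_const, union_comm]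
      rfl
    rw [hset] at this
    exact this

end PM

open PM in
/-- PMB. -/
theorem specPMB : SpecPMB.{u} := by
  intro α N M _ Y W h hr hNY
  have hME : M.E = N.E := hr.1
  have : M.Finite := ⟨by rw [hME]; exact N.ground_finite⟩
  have hYf : Y.Finite := M.ground_finite.subset h.1
  obtain ⟨Y, rfl⟩ := hYf.exists_finset_coe
  refine ⟨(partner_binary h hr hNY).1.representable, ?_,
    (isRep_of_field h F3 two_ne_F3).representable⟩
  refine CH_of_exchange (hME ▸ h.1) h.2.1 (hME ▸ h.2.2.1) hNY fun y hy x hx => ?_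
  rcases (hr.2 _).1 (pm_exchange h hy (hME ▸ hx)) with h1 | h1
  · exact h1
  · exfalso
    exact hx.2 (h1 ▸ mem_insert _ _)

end MP948082
end

section
/-!
# MP_948082_co : module PMA
-/
set_option linter.all false

open Set Submodule

namespace MP948082

universe u

namespace PMA

open MINOR PM W

variable {α : Type u}

section Gen

variable {F : Type*} [Field F] {V U W : Type*} [AddCommGroup V] [Module F2 V] [AddCommGroup U]
  [Module F U] [AddCommGroup W] [Module F W] {v : α → V} {u : α → U} {w : α → W}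

theorem coords {E : Set α} (hvu : ∀ T ⊆ E, (LinearIndepOn F2 v T ↔ LinearIndepOn F u T))
    {B : Finset α} (hBE : (B : Set α) ⊆ E) (hB : LinearIndepOn F2 v (B : Set α)) {X : Set α}
    (hXE : X ⊆ E) (hXB : ∀ x ∈ X, x ∉ B) {m : α → α → F2}
    (hm : ∀ x ∈ X, v x = ∑ b ∈ B, m x b • v b) :
    ∃ m' : α → α → F, (∀ x ∈ X, u x = ∑ b ∈ B, m' x b • u b) ∧
      (∀ x ∈ X, ∀ b ∈ B, (m' x b ≠ 0 ↔ m x b ≠ 0)) ∧
      (∀ x ∈ X, ∀ x' ∈ X, ∀ b ∈ B, ∀ b' ∈ B, m x b ≠ 0 → m x b' ≠ 0 → m x' b ≠ 0 → m x' b' ≠ 0 →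
        m' x b * m' x' b' = m' x b' * m' x' b) := by
  classical
  have hBu : LinearIndepOn F u (B : Set α) := (hvu _ hBE).1 hB
  have h1 : ∀ x ∈ X, ∃ c : α → F, ∑ b ∈ B, c b • u b = u x := by
    intro x hx
    apply mem_span_fin
    by_contra hc
    have h2 : LinearIndepOn F u (insert x (B : Set α)) := hBu.insert hc
    rw [← hvu _ (insert_subset (hXE hx) hBE), linearIndepOn_insert (by exact_mod_cast hXB x hx)] at h2
    apply h2.2
    rw [hm x hx]
    exact Submodule.sum_mem _ fun c hc => Submodule.smul_mem _ _ (subset_span ⟨c, hc, rfl⟩)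
  choose! m' hm' using h1
  have hsub : ∀ x ∈ X, ∀ b, ((insert x (B.erase b) : Finset α) : Set α) ⊆ E := by
    intro x hx b
    rw [Finset.coe_insert]
    refine insert_subset (hXE hx) (subset_trans ?_ hBE)
    exact_mod_cast Finset.erase_subset _ _
  refine ⟨m', fun x hx => (hm' x hx).symm, fun x hx b hb => ?_, ?_⟩
  · rw [← entry_iff hB hb (hXB x hx) (hm x hx), hvu _ (hsub x hx b),
      entry_iff hBu hb (hXB x hx) (hm' x hx).symm]
  · intro x hx x' hx' b hb b' hb' h1 h2 h3 h4
    by_cases hxx : x = x'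
    · subst hxx; ring
    by_cases hbb : b = b'
    · subst hbb; ring
    by_contra hne
    have h5 := two_indep hBu hb hb' hbb (hXB x hx) (hXB x' hx') hxx (hm' x hx).symm (hm' x' hx').symm
      (sub_ne_zero.2 hne)
    rw [← hvu] at h5
    · exact two_dep hb hb' hbb (hXB x hx) (hXB x' hx') hxx (hm x hx) (hm x' hx')
        ((f2_one h1).trans (f2_one h3).symm) ((f2_one h2).trans (f2_one h4).symm) h5
    · rw [Finset.coe_insert, Finset.coe_insert]
      refine insert_subset (hXE hx) (insert_subset (hXE hx') (subset_trans ?_ hBE))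
      exact_mod_cast (Finset.erase_subset _ _).trans (Finset.erase_subset _ _)

theorem gen_iff {E : Set α} (hvu : ∀ T ⊆ E, (LinearIndepOn F2 v T ↔ LinearIndepOn F u T))
    {B : Finset α} (hBE : (B : Set α) ⊆ E) (hB : LinearIndepOn F2 v (B : Set α)) {X : Set α}
    (hXE : X ⊆ E) (hXB : ∀ x ∈ X, x ∉ B) {m : α → α → F2}
    (hm : ∀ x ∈ X, v x = ∑ b ∈ B, m x b • v b)
    (hrc : (∃ b₀ ∈ B, ∀ x ∈ X, m x b₀ ≠ 0) ∨ (∃ y₀ ∈ X, ∀ b ∈ B, m y₀ b ≠ 0))
    (hwB : LinearIndepOn F w (B : Set α)) {c d : α → F} (hc : ∀ x ∈ X, c x ≠ 0)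
    (hd : ∀ b ∈ B, d b ≠ 0)
    (hw : ∀ x ∈ X, c x • w x = ∑ b ∈ B, (d b * qf F B (fun x b => m x b ≠ 0) x b) • w b)
    {T : Set α} (hT : T ⊆ X ∪ (B : Set α)) : LinearIndepOn F2 v T ↔ LinearIndepOn F w T := by
  classical
  obtain ⟨m', hm', he, h2⟩ := coords hvu hBE hB hXE hXB hm
  have hBu : LinearIndepOn F u (B : Set α) := (hvu _ hBE).1 hB
  rw [hvu T (hT.trans (union_subset hXE hBE)), scale hwB hd hc hXB hw hT]
  -- `u` is a scaling of the standard family
  have key : ∃ c' d' : α → F, (∀ b ∈ B, d' b ≠ 0) ∧ (∀ x ∈ X, c' x ≠ 0) ∧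
      ∀ x ∈ X, ∀ b ∈ B, c' x * m' x b = d' b * qf F B (fun x b => m x b ≠ 0) x b := by
    have hq : ∀ x ∈ X, ∀ b ∈ B, qf F B (fun x b => m x b ≠ 0) x b = if m x b ≠ 0 then 1 else 0 := by
      intro x hx b hb
      rw [qf, if_neg (hXB x hx)]
      simp only [hb, true_and]
    rcases hrc with ⟨b₀, hb₀, hr⟩ | ⟨y₀, hy₀, hr⟩
    · let d' : α → F := fun b => if h : ∃ x ∈ X, m x b ≠ 0 then m' h.choose b / m' h.choose b₀ else 1
      refine ⟨fun x => (m' x b₀)⁻¹, d', fun b hb => ?_, fun x hx => inv_ne_zero ((he x hx b₀ hb₀).2 (hr x hx)),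
        fun x hx b hb => ?_⟩
      · simp only [d']
        split_ifs with h
        · exact div_ne_zero ((he _ h.choose_spec.1 b hb).2 h.choose_spec.2)
            ((he _ h.choose_spec.1 b₀ hb₀).2 (hr _ h.choose_spec.1))
        · exact one_ne_zero
      · rw [hq x hx b hb]
        by_cases h : m x b ≠ 0
        · have hex : ∃ x ∈ X, m x b ≠ 0 := ⟨x, hx, h⟩
          simp only [d', dif_pos hex, if_pos h, mul_one]
          have h3 := h2 x hx _ hex.choose_spec.1 b hb b₀ hb₀ h (hr x hx) hex.choose_spec.2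
            (hr _ hex.choose_spec.1)
          have n1 := (he x hx b₀ hb₀).2 (hr x hx)
          have n2 := (he _ hex.choose_spec.1 b₀ hb₀).2 (hr _ hex.choose_spec.1)
          rw [inv_mul_eq_div, div_eq_div_iff n1 n2, h3]
          ring
        · have : m' x b = 0 := by
            by_contra hne; exact h ((he x hx b hb).1 hne)
          rw [this, mul_zero, if_neg h, mul_zero]
    · let c' : α → F := fun x => if h : ∃ b ∈ B, m x b ≠ 0 then m' y₀ h.choose / m' x h.choose else 1
      refine ⟨c', fun b => m' y₀ b, fun b hb => (he y₀ hy₀ b hb).2 (hr b hb), fun x hx => ?_,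
        fun x hx b hb => ?_⟩
      · simp only [c']
        split_ifs with h
        · exact div_ne_zero ((he _ hy₀ _ h.choose_spec.1).2 (hr _ h.choose_spec.1))
            ((he _ hx _ h.choose_spec.1).2 h.choose_spec.2)
        · exact one_ne_zero
      · rw [hq x hx b hb]
        by_cases h : m x b ≠ 0
        · have hex : ∃ b ∈ B, m x b ≠ 0 := ⟨b, hb, h⟩
          simp only [c', dif_pos hex, if_pos h, mul_one]
          have h3 := h2 x hx y₀ hy₀ b hb _ hex.choose_spec.1 h hex.choose_spec.2 (hr _ hb)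
            (hr _ hex.choose_spec.1)
          have n1 := (he x hx _ hex.choose_spec.1).2 hex.choose_spec.2
          rw [div_mul_eq_mul_div, div_eq_iff n1]
          linear_combination h3
        · have : m' x b = 0 := by
            by_contra hne; exact h ((he x hx b hb).1 hne)
          rw [this, mul_zero, if_neg h, mul_zero]
  obtain ⟨c', d', hd', hc', hk⟩ := key
  refine scale hBu hd' hc' hXB (fun x hx => ?_) hT
  rw [hm' x hx, Finset.smul_sum]
  refine Finset.sum_congr rfl fun b hb => ?_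
  rw [smul_smul, hk x hx b hb]

end Gen

/-- The standard family of a row-full binary matrix, over any field. -/
theorem full_row {F : Type*} [Field F] {V U : Type*} [AddCommGroup V] [Module F2 V]
    [AddCommGroup U] [Module F U] {v : α → V} {u : α → U} {E : Set α}
    (hvu : ∀ T ⊆ E, (LinearIndepOn F2 v T ↔ LinearIndepOn F u T))
    {B : Finset α} (hBE : (B : Set α) ⊆ E) (hB : LinearIndepOn F2 v (B : Set α)) {X : Set α}
    (hXE : X ⊆ E) (hXB : ∀ x ∈ X, x ∉ B) {m : α → α → F2}
    (hm : ∀ x ∈ X, v x = ∑ b ∈ B, m x b • v b) (hrow : ∃ b₀ ∈ B, ∀ x ∈ X, m x b₀ ≠ 0)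
    {T : Set α} (hT : T ⊆ X ∪ (B : Set α)) :
    LinearIndepOn F2 v T ↔ LinearIndepOn F (qf F B fun x b => m x b ≠ 0) T := by
  classical
  have hwB : LinearIndepOn F (qf F B fun x b => m x b ≠ 0) (B : Set α) := by
    rw [linearIndepOn_finset_iff]
    intro c hc b hb
    have h1 := congrFun hc b
    rw [Finset.sum_apply, Finset.sum_eq_single b] at h1
    · rw [Pi.smul_apply, qf, if_pos hb, Pi.single_eq_same, smul_eq_mul, mul_one] at h1
      exact h1
    · intro b' hb' hne
      rw [Pi.smul_apply, qf, if_pos hb', Pi.single_eq_of_ne hne.symm, smul_zero]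
    · intro h; exact absurd hb h
  refine gen_iff hvu hBE hB hXE hXB hm (Or.inl hrow) hwB (c := fun _ => 1) (d := fun _ => 1)
    (fun _ _ => one_ne_zero) (fun _ _ => one_ne_zero) (fun x hx => ?_) hT
  rw [one_smul]
  funext a
  rw [Finset.sum_apply]
  simp only [one_mul]
  by_cases ha : a ∈ B
  · rw [Finset.sum_eq_single a]
    · rw [Pi.smul_apply]
      rw [show qf F B (fun x b => m x b ≠ 0) a = Pi.single a 1 by rw [qf, if_pos ha],
        Pi.single_eq_same, smul_eq_mul, mul_one]
    · intro b hb hne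
      rw [Pi.smul_apply, show qf F B (fun x b => m x b ≠ 0) b = Pi.single b 1 by rw [qf, if_pos hb],
        Pi.single_eq_of_ne hne.symm, smul_zero]
    · intro h; exact absurd ha h
  · rw [Finset.sum_eq_zero]
    · rw [qf, if_neg (hXB x hx)]
      simp [ha]
    · intro b hb
      rw [Pi.smul_apply, show qf F B (fun x b => m x b ≠ 0) b = Pi.single b 1 by rw [qf, if_pos hb],
        Pi.single_eq_of_ne (by rintro rfl; exact ha hb), smul_zero]

/-- minors of the standard family -/
theorem qf_minor {F : Type*} [Field F] {B : Finset α} {n : α → α → Prop} {k : ℕ} {f g : Fin k → α}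
    (hf : Function.Injective f) (hg : Function.Injective g) (hfB : ∀ i, f i ∈ B)
    (hgB : ∀ i, g i ∉ B) (D : Matrix (Fin k) (Fin k) ℤ)
    (hD : ∀ i j, (D i j = 0 ∧ ¬ n (g j) (f i)) ∨ (D i j = 1 ∧ n (g j) (f i))) :
    LinearIndepOn F (qf F B n) (((B : Set α) \ range f) ∪ range g) ↔ ((D.det : ℤ) : F) ≠ 0 := by
  classical
  have hset : ((B : Set α) \ range f) ∪ range f = B := by
    rw [sdiff_union_self, union_eq_left]
    rintro _ ⟨i, rfl⟩
    exact hfB i
  have hqB : ∀ b ∈ B, qf F B n b = Pi.single b 1 := fun b hb => by rw [qf, if_pos hb]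
  have hwB : LinearIndepOn F (qf F B n) (B : Set α) := by
    rw [linearIndepOn_finset_iff]
    intro c hc b hb
    have h1 := congrFun hc b
    rw [Finset.sum_apply, Finset.sum_eq_single b] at h1
    · rw [Pi.smul_apply, qf, if_pos hb, Pi.single_eq_same, smul_eq_mul, mul_one] at h1
      exact h1
    · intro b' hb' hne
      rw [Pi.smul_apply, qf, if_pos hb', Pi.single_eq_of_ne hne.symm, smul_zero]
    · intro h; exact absurd hb h
  have key := vec_iff (v := qf F B n) (R := (B : Set α) \ range f) hf hg disjoint_sdiff_left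
    (by
      rw [Set.disjoint_left]
      rintro a ⟨ha, -⟩ ⟨i, rfl⟩
      exact hgB i ha)
    (by rw [hset]; exact hwB)
    (D.map (Int.cast : ℤ → F)) (by
      intro j
      have h1 : qf F B n (g j) - ∑ i, (D.map (Int.cast : ℤ → F)) i j • qf F B n (f i) =
          ∑ b ∈ B \ (Finset.univ.image f), (if n (g j) b then (1 : F) else 0) • qf F B n b := by
        funext a
        rw [Pi.sub_apply, Finset.sum_apply, Finset.sum_apply]
        have e1 : ∀ i, ((D.map (Int.cast : ℤ → F)) i j • qf F B n (f i)) a =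
            if a = f i then ((D i j : ℤ) : F) else 0 := by
          intro i
          rw [Pi.smul_apply, hqB _ (hfB i), smul_eq_mul, Pi.single_apply, Matrix.map_apply]
          split_ifs <;> simp
        have e2 : ∀ b ∈ B \ (Finset.univ.image f),
            ((if n (g j) b then (1 : F) else 0) • qf F B n b) a =
            if a = b then (if n (g j) b then (1 : F) else 0) else 0 := by
          intro b hb
          rw [Pi.smul_apply, hqB _ (Finset.mem_sdiff.1 hb).1, smul_eq_mul, Pi.single_apply]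
          by_cases hab : a = b
          · rw [if_pos hab, if_pos hab, mul_one]
          · rw [if_neg hab, if_neg hab, mul_zero]
        rw [Finset.sum_congr rfl fun i _ => e1 i, Finset.sum_congr rfl e2,
          Finset.sum_ite_eq]
        have e3 : qf F B n (g j) a = if a ∈ B ∧ n (g j) a then 1 else 0 := by
          rw [qf, if_neg (hgB j)]
        rw [e3]
        by_cases haf : ∃ i, f i = a
        · obtain ⟨i, rfl⟩ := haf
          rw [Finset.sum_eq_single i]
          · rw [if_pos rfl, if_neg (show ¬ (f i ∈ B \ (Finset.univ.image f)) from by simp)]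
            rcases hD i j with ⟨h2, h3⟩ | ⟨h2, h3⟩
            · rw [h2, if_neg (show ¬ (f i ∈ B ∧ n (g j) (f i)) from fun h => h3 h.2)]; simp
            · rw [h2, if_pos (show f i ∈ B ∧ n (g j) (f i) from ⟨hfB i, h3⟩)]; simp
          · intro i' _ hne
            rw [if_neg fun h => hne (hf h).symm]
          · intro h; exact absurd (Finset.mem_univ _) h
        · rw [Finset.sum_eq_zero fun i _ => if_neg fun h => haf ⟨i, h.symm⟩, sub_zero]
          by_cases haB : a ∈ B
          · rw [if_pos (show a ∈ B \ (Finset.univ.image f) from by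
              rw [Finset.mem_sdiff]
              refine ⟨haB, fun h => haf ?_⟩
              obtain ⟨i, -, hi⟩ := Finset.mem_image.1 h
              exact ⟨i, hi⟩)]
            simp [haB]
          · rw [if_neg (fun h => haB h.1), if_neg (fun h => haB (Finset.mem_sdiff.1 h).1)]
      rw [h1]
      refine Submodule.sum_mem _ fun b hb => Submodule.smul_mem _ _ (subset_span ⟨b, ?_, rfl⟩)
      rw [Finset.mem_sdiff] at hb
      exact ⟨hb.1, fun ⟨i, hi⟩ => hb.2 (Finset.mem_image.2 ⟨i, Finset.mem_univ _, hi⟩)⟩)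
  rw [key]
  have hdet : (D.map (Int.cast : ℤ → F)).det = ((D.det : ℤ) : F) := by
    have := RingHom.map_det (Int.castRingHom F) D
    rw [eq_intCast] at this
    rw [this]
    rfl
  rw [hdet]

theorem unit_of_fields {z : ℤ} {Q : Prop} (h : ∀ (F : Type) [Field F], Q ↔ (z : F) ≠ 0) :
    z = 0 ∨ |z| = 1 := by
  by_cases hz : z = 0
  · exact Or.inl hz
  right
  have hQ : Q := (h ℚ).2 (by exact_mod_cast hz)
  by_contra hne
  have h1 : z.natAbs ≠ 1 := by
    intro h1
    apply hne
    rw [Int.abs_eq_natAbs, h1]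
    rfl
  obtain ⟨p, hp, hpz⟩ := Nat.exists_prime_and_dvd h1
  have := Fact.mk hp
  apply (h (ZMod p)).1 hQ
  rw [ZMod.intCast_zmod_eq_zero_iff_dvd]
  exact Int.natCast_dvd.2 hpz

theorem dm_unit {V : Type*} [AddCommGroup V] [Module F2 V] {v : α → V} {Y : Finset α} {X : Set α}
    {W : α → α → ℤ} {N : Matroid α} (hN : IsRep F2 N v) (hstd : IsStd v Y X W)
    (hE : N.E = (Y : Set α) ∪ X) (hYX : Disjoint (Y : Set α) X)
    (hW : ∀ y ∈ Y, ∀ x ∈ X, W y x = 1 ∨ W y x = -1) {k : ℕ} {f g : Fin (k + 1) → α}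
    (hf : Function.Injective f) (hg : Function.Injective g) (hfY : ∀ i, f i ∈ Y)
    (hgX : ∀ i, g i ∈ X) (hreg : IsRegular (N.delete {f 0})) :
    (Dm fun i j => W (f i) (g j)).det = 0 ∨ |(Dm fun i j => W (f i) (g j)).det| = 1 := by
  classical
  have hgY : ∀ i, g i ∉ Y := fun i hi => hYX.le_bot ⟨hi, hgX i⟩
  set B : Finset α := insert (g 0) (Y.erase (f 0)) with hBdef
  set E' : Set α := N.E \ {f 0} with hE'
  have hgf : ∀ i j, g i ≠ f j := fun i j h => hgY i (h ▸ hfY j)
  have hBE : (B : Set α) ⊆ E' := by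
    rw [hBdef, Finset.coe_insert, Finset.coe_erase, hE', hE]
    rintro a (rfl | ⟨ha, hne⟩)
    · exact ⟨Or.inr (hgX 0), hgf 0 0⟩
    · exact ⟨Or.inl ha, hne⟩
  have hB : LinearIndepOn F2 v (B : Set α) := by
    rw [hBdef, Finset.coe_insert, Finset.coe_erase]
    refine (hstd.indep (f 0) (hfY 0)).insert fun hc => ?_
    exact hstd.notMem (g 0) (hgX 0) (span_mono (image_mono sdiff_subset) hc)
  set m : α → α → F2 := fun x b =>
    if b = g 0 then 1 else df W (g 0) x b + df W (g 0) x (f 0) with hm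
  have hX' : ∀ x ∈ E' \ (B : Set α), x ∈ X := by
    rintro x ⟨⟨hxE, hx0⟩, hxB⟩
    rw [hE] at hxE
    rcases hxE with h | h
    · exfalso
      apply hxB
      rw [hBdef, Finset.coe_insert, Finset.coe_erase]
      exact Or.inr ⟨h, hx0⟩
    · exact h
  have hmx : ∀ x ∈ E' \ (B : Set α), v x = ∑ b ∈ B, m x b • v b := by
    intro x hx
    have h1 := hstd.diff (g 0) (hgX 0) x (hX' x hx)
    rw [hBdef, Finset.sum_insert (fun h => hgY 0 (Finset.mem_of_mem_erase h))]
    simp only [hm, if_pos rfl, one_smul]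
    rw [h1]
    congr 1
    have h2 : ∑ y ∈ Y, df W (g 0) x y • v y =
        ∑ y ∈ Y, (df W (g 0) x y + df W (g 0) x (f 0)) • v y := by
      simp only [add_smul, Finset.sum_add_distrib]
      rw [← Finset.smul_sum, hstd.sum_zero, smul_zero, add_zero]
    rw [h2, ← Finset.add_sum_erase _ _ (hfY 0),
      show (df W (g 0) x (f 0) + df W (g 0) x (f 0) : F2) = 0 from by
        generalize df W (g 0) x (f 0) = t; revert t; decide, zero_smul, zero_add]
    refine Finset.sum_congr rfl fun y hy => ?_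
    rw [if_neg (fun h : y = g 0 => hgY 0 (h ▸ Finset.mem_of_mem_erase hy))]
  set f' : Fin k → α := fun i => f i.succ with hf'
  set g' : Fin k → α := fun i => g i.succ with hg'
  have hf'i : Function.Injective f' := fun i j hij => Fin.succ_injective _ (hf hij)
  have hg'i : Function.Injective g' := fun i j hij => Fin.succ_injective _ (hg hij)
  have hfB : ∀ i, f' i ∈ B := fun i => Finset.mem_insert_of_mem
    (Finset.mem_erase.2 ⟨fun hc => Fin.succ_ne_zero i (hf hc), hfY _⟩)
  have hgB : ∀ i, g' i ∉ B := by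
    intro i hc
    rcases Finset.mem_insert.1 hc with h | h
    · exact Fin.succ_ne_zero i (hg h)
    · exact hgY _ (Finset.mem_of_mem_erase h)
  refine unit_of_fields (Q := LinearIndepOn F2 v (((B : Set α) \ range f') ∪ range g'))
    fun F _ => ?_
  obtain ⟨n, u, hu⟩ := hreg F
  have hvu : ∀ T ⊆ E', (LinearIndepOn F2 v T ↔ LinearIndepOn F u T) := by
    intro T hT
    rw [← hu T hT]
    exact ((hN.delete {f 0}) T hT).symm
  rw [full_row hvu hBE hB sdiff_subset (fun x hx => by exact_mod_cast hx.2) hmx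
    ⟨g 0, Finset.mem_insert_self _ _, fun x hx => by simp only [hm, if_pos rfl]; decide⟩]
  · refine qf_minor hf'i hg'i hfB hgB (Dm fun i j => W (f i) (g j)) fun i j => ?_
    have h1 : m (g' j) (f' i) = df W (g 0) (g j.succ) (f i.succ) + df W (g 0) (g j.succ) (f 0) := by
      simp only [hm, hf', hg']
      rw [if_neg (fun h => hgf 0 i.succ h.symm)]
    have h2 := df_add (hW _ (hfY i.succ) _ (hgX 0)) (hW _ (hfY i.succ) _ (hgX j.succ))
      (hW _ (hfY 0) _ (hgX 0)) (hW _ (hfY 0) _ (hgX j.succ))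
    rw [h2] at h1
    simp only [Dm, Matrix.of_apply]
    by_cases hc : W (f 0) (g 0) * W (f 0) (g j.succ) * W (f i.succ) (g 0) *
        W (f i.succ) (g j.succ) = 1
    · rw [if_pos hc] at h1 ⊢
      exact Or.inl ⟨rfl, fun h => h h1⟩
    · rw [if_neg hc] at h1 ⊢
      exact Or.inr ⟨rfl, by rw [h1]; decide⟩
  · rintro a (⟨ha, -⟩ | ⟨i, rfl⟩)
    · exact Or.inr ha
    · refine Or.inl ⟨⟨?_, fun h => hgf _ _ h⟩, fun h => hgB i h⟩
      rw [hE]
      exact Or.inr (hgX _)

end PMA

open PMA PM MINOR in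
/-- PMA. -/
theorem specPMA_of (hR : SpecRelax.{u}) : SpecPMA.{u} := by
  classical
  intro α N M _ Y h2 hCH hr h3
  have hME : M.E = N.E := hr.1
  have : M.Finite := ⟨by rw [hME]; exact N.ground_finite⟩
  have hYE : Y ⊆ N.E := hCH.1.subset_ground
  have hYf : Y.Finite := N.ground_finite.subset hYE
  obtain ⟨Y, rfl⟩ := hYf.exists_finset_coe
  obtain ⟨n, v, hv, hs⟩ := h2.exists_spanning
  have hYn : (Y : Set α).Nonempty := hCH.1.nonempty
  have hXn : (N.E \ (Y : Set α)).Nonempty := hCH.2.nonempty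
  -- the vectors
  have hsum : ∑ y ∈ Y, v y = 0 := by
    obtain ⟨c, hc, hc0⟩ := W.exists_coeff hv hCH.1
    rw [← hc0]
    refine Finset.sum_congr rfl fun y hy => ?_
    rw [W.f2_one (hc y hy), one_smul]
  have hind : ∀ y ∈ Y, LinearIndepOn F2 v ((Y : Set α) \ {y}) := fun y hy =>
    hv.linearIndepOn (hCH.1.sdiff_singleton_indep hy)
  have hYY : N.E \ (N.E \ (Y : Set α)) = Y := by
    rw [Set.sdiff_sdiff_right_self]; exact inter_eq_self_of_subset_right hYE
  have hns : span F2 (v '' (Y : Set α)) ≠ ⊤ := by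
    intro hc
    have h1 := (Matroid.isCocircuit_iff_minimal_compl_nonspanning.1 hCH.2).prop
    rw [hYY] at h1
    exact h1 ((hv.spanning_iff hs hYE).2 hc)
  have hsp : ∀ x ∈ N.E \ (Y : Set α), span F2 (v '' insert x (Y : Set α)) = ⊤ := by
    intro x hx
    have h1 := (minimal_iff_forall_ssubset.1
      (Matroid.isCocircuit_iff_minimal_compl_nonspanning.1 hCH.2)).2
      (t := (N.E \ (Y : Set α)) \ {x}) (sdiff_singleton_ssubset.2 hx)
    rw [not_not] at h1
    have h2 : N.E \ ((N.E \ (Y : Set α)) \ {x}) = insert x (Y : Set α) := by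
      ext a
      simp only [mem_sdiff, mem_singleton_iff, mem_insert_iff, not_and, not_not]
      constructor
      · rintro ⟨haE, h⟩
        by_cases haY : a ∈ (Y : Set α)
        · exact Or.inr haY
        · exact Or.inl (h ⟨haE, haY⟩)
      · rintro (rfl | haY)
        · exact ⟨hx.1, fun _ => rfl⟩
        · exact ⟨hYE haY, fun h => absurd haY h.2⟩
    rw [h2] at h1
    exact (hv.spanning_iff hs (insert_subset hx.1 hYE)).1 h1
  have hnot : ∀ x ∈ N.E \ (Y : Set α), v x ∉ span F2 (v '' (Y : Set α)) := by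
    intro x hx hc
    apply hns
    rw [← hsp x hx, image_insert_eq, span_insert_eq_span hc]
  obtain ⟨x₀, hx₀⟩ := hXn
  have hex : ∀ x ∈ N.E \ (Y : Set α), ∃ c : α → F2, v x = v x₀ + ∑ y ∈ Y, c y • v y := by
    intro x hx
    have h1 : v x ∈ span F2 (v '' insert x₀ (Y : Set α)) := by rw [hsp x₀ hx₀]; trivial
    rw [image_insert_eq, mem_span_insert] at h1
    obtain ⟨t, z, hz, hxz⟩ := h1
    have ht : t = 1 := by
      apply W.f2_one
      rintro rfl
      rw [zero_smul, zero_add] at hxz
      exact hnot x hx (hxz ▸ hz)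
    obtain ⟨c, hc⟩ := W.mem_span_fin hz
    exact ⟨c, by rw [hxz, ht, one_smul, hc]⟩
  choose! c hc using hex
  set Wm : α → α → ℤ := fun y x => if c x y = 0 then 1 else -1 with hWm
  have hW : ∀ y ∈ Y, ∀ x ∈ N.E \ (Y : Set α), Wm y x = 1 ∨ Wm y x = -1 := by
    intro y _ x _
    simp only [hWm]
    split_ifs
    · exact Or.inl rfl
    · exact Or.inr rfl
  have hstd : IsStd v Y (N.E \ (Y : Set α)) Wm := by
    refine ⟨hsum, hind, hnot, fun x hx x' hx' => ?_⟩
    rw [hc x hx, hc x' hx', add_assoc, ← Finset.sum_add_distrib]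
    congr 1
    refine Finset.sum_congr rfl fun y _ => ?_
    rw [← add_smul]
    congr 1
    simp only [df, hWm]
    generalize c x y = a
    generalize c x' y = b
    revert a b
    decide
  have hEE : (Y : Set α) ∪ (N.E \ (Y : Set α)) = N.E := union_sdiff_cancel hYE
  have hdel := fun y hy => ((hR α N M (Y : Set α) h2 hCH hr h3).1 y hy).1
  have hPM : IsPM (Y : Set α) (N.E \ (Y : Set α)) Wm := by
    refine ⟨hW, fun k f g hfY hgX => ?_⟩
    by_cases hf : Function.Injective f
    · by_cases hg : Function.Injective g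
      · have h4 := det_pm (fun i j => Wm (f i) (g j)) (fun i j => hW _ (hfY i) _ (hgX j))
        rcases dm_unit hv hstd hEE.symm disjoint_sdiff_right hW hf hg hfY hgX
          (hdel _ (hfY 0)) with h5 | h5
        · left
          rw [h5, abs_zero, mul_zero] at h4
          exact abs_eq_zero.1 h4
        · right
          rw [h4, h5, mul_one]
      · left
        rw [Function.Injective] at hg
        push Not at hg
        obtain ⟨i, j, hij, hne⟩ := hg
        exact Matrix.det_zero_of_column_eq hne fun a => by simp only [Matrix.of_apply, hij]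
    · left
      rw [Function.Injective] at hf
      push Not at hf
      obtain ⟨i, j, hij, hne⟩ := hf
      exact Matrix.det_zero_of_row_eq hne (by funext a; simp only [Matrix.of_apply, hij])
  refine ⟨Wm, hME ▸ hYE, hYn, hME ▸ ⟨x₀, hx₀⟩, hME ▸ hPM, ?_⟩
  have hb := base_iff (F := ℚ) two_ne_zero disjoint_sdiff_right hPM hstd ⟨x₀, hx₀⟩
    (Finset.coe_nonempty.1 hYn) (M := vecMatroid ℚ (pmVec (Y : Set α) Wm) _ N.ground_finite)
    (N := N) (by rw [hEE]; rfl) hEE.symm vecMatroid_isRep hv
  have heq : M = vecMatroid ℚ (pmVec (Y : Set α) Wm) _ N.ground_finite := by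
    refine Matroid.ext_isBase hME fun B hB => ?_
    rw [hr.2, hb]
    constructor
    · rintro (h | rfl)
      · exact h.1
      · exact pm_isBase_Y (F := ℚ) vecMatroid_isRep hYE
    · intro h
      by_cases hBY : B = Y
      · exact Or.inr hBY
      · exact Or.inl ⟨h, hBY⟩
  rw [heq]
  exact vecMatroid_isRep

end MP948082
end

section
/-!
# MP_948082_co : module PMNONBIN

A simple and cosimple matroid of a PM matrix is not binary, and it is exactly-one-regular iff it has
at least five elements.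
-/
open Set Submodule

namespace MP948082

universe u

namespace PMNONBIN

variable {α : Type u}

/-- A matroid of rank one is regular. -/
theorem isRegular_of_rank_one {N : Matroid α} {b : α} (hB : N.IsBase {b}) : IsRegular N := by
  classical
  intro F _
  refine ⟨1, fun e _ => if N.IsNonloop e then 1 else 0, fun I hI => ?_⟩
  have hne : ∀ e, (fun _ : Fin 1 => if N.IsNonloop e then (1 : F) else 0) ≠ 0 ↔ N.IsNonloop e := by
    intro e
    rw [Ne, funext_iff]
    by_cases h : N.IsNonloop e
    · simp [h]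
    · simp [h]
  constructor
  · intro hind
    have h1 : I.encard ≤ 1 := by
      obtain ⟨B', hB', hIB'⟩ := hind.exists_isBase_superset
      calc I.encard ≤ B'.encard := encard_le_encard hIB'
        _ = ({b} : Set α).encard := hB'.encard_eq_encard_of_isBase hB
        _ = 1 := encard_singleton b
    rcases (encard_le_one_iff_subsingleton.1 h1).eq_empty_or_singleton with rfl | ⟨e, rfl⟩
    · exact linearIndepOn_empty _ _
    · rw [linearIndepOn_singleton_iff]
      exact (hne e).2 (Matroid.indep_singleton.1 hind)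
  · intro hli
    have hs : I.Subsingleton := by
      intro e he f hf
      by_contra hef
      have h1 : (fun _ : Fin 1 => if N.IsNonloop e then (1 : F) else 0) ≠ 0 := hli.ne_zero he
      have h2 : (fun _ : Fin 1 => if N.IsNonloop f then (1 : F) else 0) ≠ 0 := hli.ne_zero hf
      apply hef
      apply hli.injOn he hf
      simp only [if_pos ((hne e).1 h1), if_pos ((hne f).1 h2)]
    rcases hs.eq_empty_or_singleton with rfl | ⟨e, rfl⟩
    · exact N.empty_indep
    · rw [Matroid.indep_singleton]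
      exact (hne e).1 ((linearIndepOn_singleton_iff F).1 hli)

/-- Two elements outside a base of a binary matroid all whose exchanges are bases have the same
vector. -/
theorem vec_eq {V : Type*} [AddCommGroup V] [Module F2 V] {N : Matroid α} {v : α → V}
    (hv : IsRep F2 N v) (hs : span F2 (v '' N.E) = ⊤) {B : Set α} (hB : N.IsBase B) {x x' : α}
    (hx : x ∈ N.E \ B) (hx' : x' ∈ N.E \ B) (h : ∀ b ∈ B, N.IsBase (insert x (B \ {b})))
    (h' : ∀ b ∈ B, N.IsBase (insert x' (B \ {b}))) : v x = v x' := by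
  apply (hv.basis hs hB).ext_elem
  intro r
  have h1 := (hv.exchange_iff hs hB r.2 hx.1 hx.2).1 (h r r.2)
  have h2 := (hv.exchange_iff hs hB r.2 hx'.1 hx'.2).1 (h' r r.2)
  exact F2_eq_of_ne_zero_iff (iff_of_true h1 h2)

/-- A pair of distinct elements with equal vectors is dependent. -/
theorem not_indep_pair {V : Type*} [AddCommGroup V] [Module F2 V] {N : Matroid α} {v : α → V}
    (hv : IsRep F2 N v) {x x' : α} (hne : x ≠ x') (h : v x = v x') (hind : N.Indep {x, x'}) :
    False := by
  have h1 := hv.linearIndepOn hind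
  exact hne (h1.injOn (mem_insert _ _) (mem_insert_of_mem _ rfl) h)

section

variable {M : Matroid α} [M.Finite] {Y : Set α} {W : α → α → ℤ}

theorem isBase_Y (h : IsPMMatroid M Y W) : M.IsBase Y :=
  PM.pm_isBase_Y (F := ℚ) h.2.2.2.2 h.1

omit [M.Finite] in
/-- Rows: no two rows are proportional. -/
theorem rows (h : IsPMMatroid M Y W) (hcs : IsSimple M✶) {y₁ y₂ : α} (h1 : y₁ ∈ Y) (h2 : y₂ ∈ Y)
    (hne : y₁ ≠ y₂) (s : ℚ) (hs : ∀ x ∈ M.E \ Y, (W y₁ x : ℚ) = s * W y₂ x) : False := by
  classical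
  obtain ⟨hYE, hYn, hXn, hPM, hM⟩ := h
  have hco : M.Coindep {y₁, y₂} := by
    have := hcs y₁ (hYE h1) y₂ (hYE h2)
    exact this
  have hcl := hco.closure_compl
  have hy1 : y₁ ∈ M.closure (M.E \ {y₁, y₂}) := by rw [hcl]; exact hYE h1
  rw [hM.mem_closure_iff sdiff_subset (hYE h1)] at hy1
  let ℓ : (Y → ℚ) →ₗ[ℚ] ℚ :=
    LinearMap.proj (⟨y₁, h1⟩ : Y) - s • LinearMap.proj (⟨y₂, h2⟩ : Y)
  have hℓ : ∀ w : Y → ℚ, ℓ w = w ⟨y₁, h1⟩ - s * w ⟨y₂, h2⟩ := by
    intro w
    simp [ℓ]
  have hle : span ℚ (pmVec Y W '' (M.E \ {y₁, y₂})) ≤ LinearMap.ker ℓ := by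
    rw [span_le]
    rintro _ ⟨e, ⟨heE, hen⟩, rfl⟩
    rw [SetLike.mem_coe, LinearMap.mem_ker, hℓ]
    have hen1 : e ≠ y₁ := fun hc => hen (Or.inl hc)
    have hen2 : e ≠ y₂ := fun hc => hen (Or.inr hc)
    by_cases heY : e ∈ Y
    · simp [pmVec, heY, hen1, hen2]
    · simp only [pmVec, if_neg heY]
      rw [hs e ⟨heE, heY⟩, sub_self]
  have hk := hle hy1
  rw [LinearMap.mem_ker, hℓ] at hk
  simp [pmVec, h1, hne] at hk

omit [M.Finite] in
/-- Columns: no two columns are proportional. -/
theorem columns (h : IsPMMatroid M Y W) (hsi : IsSimple M) {x₁ x₂ : α} (h1 : x₁ ∈ M.E \ Y)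
    (h2 : x₂ ∈ M.E \ Y) (hne : x₁ ≠ x₂) (s : ℚ) (hs : ∀ y ∈ Y, (W y x₁ : ℚ) = s * W y x₂) :
    False := by
  classical
  obtain ⟨hYE, hYn, hXn, hPM, hM⟩ := h
  have hli := hM.linearIndepOn (hsi x₁ h1.1 x₂ h2.1)
  rw [linearIndepOn_insert (by simpa using hne)] at hli
  apply hli.2
  rw [image_singleton, mem_span_singleton]
  refine ⟨s, ?_⟩
  funext y
  simp only [Pi.smul_apply, smul_eq_mul, pmVec, if_neg h1.2, if_neg h2.2]
  exact (hs y y.2).symm

theorem pm_eq_mul {a b s : ℤ} (hb : b = 1 ∨ b = -1) (h : a * b = s) :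
    a = s * b := by
  rcases hb with rfl | rfl
  · linarith
  · linarith

/-- If `Y` has at most two elements, then `X` has at most two elements. -/
theorem small_Y (h : IsPMMatroid M Y W) (hsi : IsSimple M) {a b : α} (ha : a ∈ Y) (hb : b ∈ Y)
    (hY : Y ⊆ {a, b}) : (M.E \ Y).ncard ≤ 2 := by
  by_contra hc
  push Not at hc
  have hf : (M.E \ Y).Finite := M.ground_finite.subset sdiff_subset
  rw [two_lt_ncard_iff hf] at hc
  obtain ⟨x₁, x₂, x₃, h1, h2, h3, h12, h13, h23⟩ := hc
  have hpm := h.2.2.2.1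
  have key : ∀ x x', x ∈ M.E \ Y → x' ∈ M.E \ Y → x ≠ x' →
      W a x * W b x ≠ W a x' * W b x' := by
    intro x x' hx hx' hxx heq
    refine columns h hsi hx hx' hxx ((W a x * W a x' : ℤ) : ℚ) fun y hy => ?_
    have e1 := hpm.entry a ha x hx
    have e2 := hpm.entry a ha x' hx'
    have e3 := hpm.entry b hb x hx
    have e4 := hpm.entry b hb x' hx'
    rcases hY hy with rfl | hyb
    · rcases e1 with e1 | e1 <;> rcases e2 with e2 | e2 <;> rw [e1, e2] <;> norm_num
    · rw [mem_singleton_iff] at hyb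
      subst hyb
      rcases e1 with e1 | e1 <;> rcases e2 with e2 | e2 <;> rcases e3 with e3 | e3 <;>
        rcases e4 with e4 | e4 <;> rw [e1, e2, e3, e4] at heq <;>
        first | (exfalso; norm_num at heq; done) | (rw [e1, e2, e3, e4]; norm_num)
  have k1 := key x₁ x₂ h1 h2 h12
  have k2 := key x₁ x₃ h1 h3 h13
  have k3 := key x₂ x₃ h2 h3 h23
  have p1 := MINOR.pm_mul (hpm.entry a ha x₁ h1) (hpm.entry b hb x₁ h1)
  have p2 := MINOR.pm_mul (hpm.entry a ha x₂ h2) (hpm.entry b hb x₂ h2)
  have p3 := MINOR.pm_mul (hpm.entry a ha x₃ h3) (hpm.entry b hb x₃ h3)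
  omega

/-- If `X` has at most two elements, then `Y` has at most two elements. -/
theorem small_X (h : IsPMMatroid M Y W) (hcs : IsSimple M✶) {a b : α} (ha : a ∈ M.E \ Y)
    (hb : b ∈ M.E \ Y) (hX : M.E \ Y ⊆ {a, b}) : Y.ncard ≤ 2 := by
  by_contra hc
  push Not at hc
  have hf : Y.Finite := M.ground_finite.subset h.1
  rw [two_lt_ncard_iff hf] at hc
  obtain ⟨y₁, y₂, y₃, h1, h2, h3, h12, h13, h23⟩ := hc
  have hpm := h.2.2.2.1
  have key : ∀ y y', y ∈ Y → y' ∈ Y → y ≠ y' →
      W y a * W y b ≠ W y' a * W y' b := by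
    intro y y' hy hy' hyy heq
    refine rows h hcs hy hy' hyy ((W y a * W y' a : ℤ) : ℚ) fun x hx => ?_
    have e1 := hpm.entry y hy a ha
    have e2 := hpm.entry y' hy' a ha
    have e3 := hpm.entry y hy b hb
    have e4 := hpm.entry y' hy' b hb
    rcases hX hx with rfl | hxb
    · rcases e1 with e1 | e1 <;> rcases e2 with e2 | e2 <;> rw [e1, e2] <;> norm_num
    · rw [mem_singleton_iff] at hxb
      subst hxb
      rcases e1 with e1 | e1 <;> rcases e2 with e2 | e2 <;> rcases e3 with e3 | e3 <;>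
        rcases e4 with e4 | e4 <;> rw [e1, e2, e3, e4] at heq <;>
        first | (exfalso; norm_num at heq; done) | (rw [e1, e2, e3, e4]; norm_num)
  have k1 := key y₁ y₂ h1 h2 h12
  have k2 := key y₁ y₃ h1 h3 h13
  have k3 := key y₂ y₃ h2 h3 h23
  have p1 := MINOR.pm_mul (hpm.entry y₁ h1 a ha) (hpm.entry y₁ h1 b hb)
  have p2 := MINOR.pm_mul (hpm.entry y₂ h2 a ha) (hpm.entry y₂ h2 b hb)
  have p3 := MINOR.pm_mul (hpm.entry y₃ h3 a ha) (hpm.entry y₃ h3 b hb)
  omega

/-- `X` has at least two elements. -/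
theorem two_X (h : IsPMMatroid M Y W) (hcs : IsSimple M✶) : ¬ (M.E \ Y).Subsingleton := by
  intro hs
  obtain ⟨y, hy⟩ := h.2.1
  obtain ⟨x, hx⟩ := h.2.2.1
  have hb : M✶.IsBase (M.E \ Y) := (isBase_Y h).compl_isBase_dual
  have hi : M✶.Indep {x, y} := hcs x hx.1 y (h.1 hy)
  have he := hb.eq_of_subset_indep hi (by
    rw [hs.eq_singleton_of_mem hx]
    exact singleton_subset_iff.2 (mem_insert _ _))
  have : y ∈ M.E \ Y := by rw [he]; exact mem_insert_of_mem _ rfl
  exact this.2 hy

/-- `Y` has at least two elements. -/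
theorem two_Y (h : IsPMMatroid M Y W) (hsi : IsSimple M) : ¬ Y.Subsingleton := by
  intro hs
  obtain ⟨y, hy⟩ := h.2.1
  obtain ⟨x, hx⟩ := h.2.2.1
  have hi : M.Indep {y, x} := hsi y (h.1 hy) x hx.1
  have he := (isBase_Y h).eq_of_subset_indep hi (by
    rw [hs.eq_singleton_of_mem hy]
    exact singleton_subset_iff.2 (mem_insert _ _))
  have : x ∈ Y := by rw [he]; exact mem_insert_of_mem _ rfl
  exact hx.2 this

/-- `M` is not binary. -/
theorem not_binary (h : IsPMMatroid M Y W) (hsi : IsSimple M) (hcs : IsSimple M✶) :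
    ¬ Representable F2 M := by
  intro hb
  obtain ⟨n, v, hv, hs⟩ := hb.exists_spanning
  refine two_X h hcs fun x hx x' hx' => ?_
  by_contra hne
  exact not_indep_pair hv hne
    (vec_eq hv hs (isBase_Y h) hx hx' (fun b hb => PM.pm_exchange h hb hx)
      (fun b hb => PM.pm_exchange h hb hx')) (hsi x hx.1 x' hx'.1)

/-- If `M \ x` is binary, `X` has at most one more element. -/
theorem delete_x (h : IsPMMatroid M Y W) (hsi : IsSimple M) {x : α} (hx : x ∈ M.E \ Y)
    (hb : Representable F2 (M.delete {x})) : ((M.E \ Y) \ {x}).Subsingleton := by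
  obtain ⟨n, v, hv, hs⟩ := hb.exists_spanning
  have hbase : ∀ B, M.IsBase B → x ∉ B → (M.delete {x}).IsBase B := by
    intro B hB hxB
    rw [Matroid.delete_isBase_iff]
    exact hB.isBasis_ground.isBasis_subset
      (fun e he => ⟨hB.subset_ground he, fun hc => hxB (by rw [← mem_singleton_iff.1 hc]; exact he)⟩)
      sdiff_subset
  intro a ha b hb'
  by_contra hne
  have hxa : x ≠ a := fun hc => ha.2 hc.symm
  have hxb : x ≠ b := fun hc => hb'.2 hc.symm
  refine not_indep_pair hv hne (vec_eq hv hs (hbase Y (isBase_Y h) hx.2) ?_ ?_ ?_ ?_) ?_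
  · exact ⟨⟨ha.1.1, ha.2⟩, ha.1.2⟩
  · exact ⟨⟨hb'.1.1, hb'.2⟩, hb'.1.2⟩
  · intro y hy
    refine hbase _ (PM.pm_exchange h hy ha.1) ?_
    rintro (hc | hc)
    · exact hxa hc
    · exact hx.2 hc.1
  · intro y hy
    refine hbase _ (PM.pm_exchange h hy hb'.1) ?_
    rintro (hc | hc)
    · exact hxb hc
    · exact hx.2 hc.1
  · rw [Matroid.deleteElem_indep_iff]
    refine ⟨hsi a ha.1.1 b hb'.1.1, ?_⟩
    rintro (hc | hc)
    · exact hxa hc
    · exact hxb hc

/-- If `M / y` is binary, `Y` has at most one more element. -/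
theorem contract_y (h : IsPMMatroid M Y W) (hcs : IsSimple M✶) {y : α} (hy : y ∈ Y)
    (hb : Representable F2 (M.contract {y})) : (Y \ {y}).Subsingleton := by
  classical
  obtain ⟨n, v, hv, hs⟩ := hb.exists_spanning
  have hYf : Y.Finite := M.ground_finite.subset h.1
  have hyi : M.Indep {y} := (isBase_Y h).indep.subset (singleton_subset_iff.2 hy)
  have hbase : ∀ B, M.IsBase B → y ∈ B → (M.contract {y}).IsBase (B \ {y}) := by
    intro B hB hyB
    rw [hyi.contract_isBase_iff]
    refine ⟨?_, disjoint_sdiff_left⟩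
    rw [sdiff_union_self, union_eq_left.2 (singleton_subset_iff.2 hyB)]
    exact hB
  have hset : ∀ x ∈ M.E \ Y, ∀ b ∈ Y \ {y},
      insert x ((Y \ {y}) \ {b}) = (insert x (Y \ {b})) \ {y} := by
    intro x hx b hb
    have hxy : x ≠ y := fun hc => hx.2 (hc ▸ hy)
    ext a
    simp only [mem_insert_iff, mem_sdiff, mem_singleton_iff]
    constructor
    · rintro (rfl | ⟨⟨h1, h2⟩, h3⟩)
      · exact ⟨Or.inl rfl, hxy⟩
      · exact ⟨Or.inr ⟨h1, h3⟩, h2⟩
    · rintro ⟨rfl | ⟨h1, h3⟩, h2⟩
      · exact Or.inl rfl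
      · exact Or.inr ⟨⟨h1, h2⟩, h3⟩
  have hvx : ∀ x ∈ M.E \ Y, ∀ x' ∈ M.E \ Y, v x = v x' := by
    intro x hx x' hx'
    refine vec_eq hv hs (hbase Y (isBase_Y h) hy) ?_ ?_ ?_ ?_
    · exact ⟨⟨hx.1, fun hc => hx.2 (by rw [mem_singleton_iff.1 hc]; exact hy)⟩, fun hc => hx.2 hc.1⟩
    · exact ⟨⟨hx'.1, fun hc => hx'.2 (by rw [mem_singleton_iff.1 hc]; exact hy)⟩,
        fun hc => hx'.2 hc.1⟩
    · intro b hb
      rw [hset x hx b hb]
      exact hbase _ (PM.pm_exchange h hb.1 hx) (Or.inr ⟨hy, fun hc => hb.2 hc.symm⟩)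
    · intro b hb
      rw [hset x' hx' b hb]
      exact hbase _ (PM.pm_exchange h hb.1 hx') (Or.inr ⟨hy, fun hc => hb.2 hc.symm⟩)
  intro y₁ h1 y₂ h2
  by_contra hne
  have hpm := h.2.2.2.1
  -- all the two by two minors of the rows `y₁`, `y₂` vanish
  have hdet : ∀ x ∈ M.E \ Y, ∀ x' ∈ M.E \ Y,
      W y₁ x * W y₂ x' - W y₁ x' * W y₂ x = 0 := by
    intro x hx x' hx'
    by_contra hd
    have hxx : x ≠ x' := by
      rintro rfl
      exact hd (sub_self _)
    have hf : Function.Injective ![y₁, y₂] := by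
      intro i j hij
      fin_cases i <;> fin_cases j <;> simp_all
    have hg : Function.Injective ![x, x'] := by
      intro i j hij
      fin_cases i <;> fin_cases j <;> simp_all
    have hk := (PM.pmv_minor (F := ℚ) hYf W hf hg (by
      intro i
      fin_cases i
      · exact h1.1
      · exact h2.1) (by
      intro i
      fin_cases i
      · exact hx.2
      · exact hx'.2)).2 (by
        rw [Matrix.det_fin_two]
        simp only [Matrix.of_apply, Matrix.cons_val_zero, Matrix.cons_val_one]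
        exact_mod_cast hd)
    have hsubE : (Y \ range ![y₁, y₂]) ∪ range ![x, x'] ⊆ M.E := by
      rintro e (he | ⟨i, rfl⟩)
      · exact h.1 he.1
      · fin_cases i
        · exact hx.1
        · exact hx'.1
    have hi : M.Indep ((Y \ range ![y₁, y₂]) ∪ range ![x, x']) := (h.2.2.2.2 _ hsubE).2 hk
    have hi2 : (M.contract {y}).Indep {x, x'} := by
      rw [hyi.contract_indep_iff]
      constructor
      · rw [Set.disjoint_singleton_right]
        rintro (hc | hc)
        · exact hx.2 (hc ▸ hy)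
        · exact hx'.2 (by rw [← mem_singleton_iff.1 hc]; exact hy)
      · refine hi.subset ?_
        rintro e ((rfl | he) | he)
        · exact Or.inr ⟨0, rfl⟩
        · rw [mem_singleton_iff] at he
          subst he
          exact Or.inr ⟨1, rfl⟩
        · rw [mem_singleton_iff] at he
          subst he
          refine Or.inl ⟨hy, ?_⟩
          rintro ⟨i, hi⟩
          fin_cases i
          · exact h1.2 hi
          · exact h2.2 hi
    exact not_indep_pair hv hxx (hvx x hx x' hx') hi2
  obtain ⟨x₀, hx₀⟩ := h.2.2.1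
  refine rows h hcs h1.1 h2.1 hne ((W y₁ x₀ * W y₂ x₀ : ℤ) : ℚ) fun x hx => ?_
  have hd := hdet x hx x₀ hx₀
  have e1 := hpm.entry y₁ h1.1 x hx
  have e2 := hpm.entry y₂ h2.1 x hx
  have e3 := hpm.entry y₁ h1.1 x₀ hx₀
  have e4 := hpm.entry y₂ h2.1 x₀ hx₀
  rcases e1 with e1 | e1 <;> rcases e2 with e2 | e2 <;> rcases e3 with e3 | e3 <;>
    rcases e4 with e4 | e4 <;> rw [e1, e2, e3, e4] at hd <;>
    first | (exfalso; norm_num at hd; done) | (rw [e1, e2, e3, e4]; norm_num)

/-- The sizes. -/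
theorem card_add (h : IsPMMatroid M Y W) : Y.ncard + (M.E \ Y).ncard = M.E.ncard := by
  rw [add_comm]
  exact ncard_sdiff_add_ncard_of_subset h.1 M.ground_finite

theorem exists_pair {S : Set α} {a : α} (ha : a ∈ S) (h : (S \ {a}).Subsingleton) :
    ∃ b ∈ S, S ⊆ {a, b} := by
  rcases h.eq_empty_or_singleton with h | ⟨b, h⟩
  · refine ⟨a, ha, fun e he => ?_⟩
    by_contra hc
    have : e ∈ S \ {a} := ⟨he, fun h' => hc (Or.inl h')⟩
    rw [h] at this
    exact this
  · have hb : b ∈ S \ {a} := by rw [h]; exact rfl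
    refine ⟨b, hb.1, fun e he => ?_⟩
    by_cases hea : e = a
    · exact Or.inl hea
    · have : e ∈ S \ {a} := ⟨he, hea⟩
      rw [h] at this
      exact Or.inr this

theorem ncard_le_two {S : Set α} {a b : α} (h : S ⊆ {a, b}) : S.ncard ≤ 2 :=
  (ncard_le_ncard h (toFinite _)).trans ((ncard_insert_le a {b}).trans (by rw [ncard_singleton]))

end

end PMNONBIN

open PMNONBIN in
/-- PMNONBIN. -/
theorem specPMNonBin (hR : SpecRelax.{u}) : SpecPMNonBin.{u} := by
  intro α M _ Y W h hsi hcs
  have hYf : Y.Finite := M.ground_finite.subset h.1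
  have hXf : (M.E \ Y).Finite := M.ground_finite.subset sdiff_subset
  refine ⟨not_binary h hsi hcs, ?_⟩
  -- the binary partner
  obtain ⟨M', N, hE', hM', hrel, hNY⟩ := specPMExists α Y (M.E \ Y) W hYf hXf disjoint_sdiff_right
    h.2.1 h.2.2.1 h.2.2.2.1
  have hEE : Y ∪ (M.E \ Y) = M.E := union_sdiff_cancel h.1
  have hMM : M' = M := by
    refine Matroid.ext_indep (by rw [hE', hEE]) fun I hI => ?_
    rw [hM'.2.2.2.2 I hI, h.2.2.2.2 I (by rw [← hEE, ← hE']; exact hI)]
  subst hMM
  have hNE : M'.E = N.E := hrel.1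
  have hNfin : N.Finite := ⟨by rw [← hNE]; exact M'.ground_finite⟩
  obtain ⟨hN2, hCH, hM3⟩ := specPMB α N M' Y W h hrel hNY
  obtain ⟨hdel, hcon⟩ := hR α N M' Y hN2 hCH hrel hM3
  have hcard := card_add h
  have hen : (5 ≤ M'.E.encard) ↔ 5 ≤ M'.E.ncard := by
    rw [← M'.ground_finite.cast_ncard_eq]
    exact_mod_cast Iff.rfl
  rw [hen]
  constructor
  · intro heor
    by_contra hlt
    push Not at hlt
    have h1 : 2 ≤ (M'.E \ Y).ncard := by
      by_contra hc
      push Not at hc
      have := hXf.to_subtype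
      exact two_X h hcs ((ncard_le_one_iff_subsingleton (s := M'.E \ Y)).1 (by omega))
    have h2 : Y.ncard = 2 := by
      have : 2 ≤ Y.ncard := by
        by_contra hc
        push Not at hc
        have := hYf.to_subtype
        exact two_Y h hsi ((ncard_le_one_iff_subsingleton (s := Y)).1 (by omega))
      omega
    rw [ncard_eq_two] at h2
    obtain ⟨a, b, hab, hYab⟩ := h2
    have haY : a ∈ Y := by rw [hYab]; exact mem_insert _ _
    have hbase : (M'.contract {a}).IsBase {b} := by
      have hai : M'.Indep {a} := (isBase_Y h).indep.subset (singleton_subset_iff.2 haY)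
      rw [hai.contract_isBase_iff]
      refine ⟨?_, by simpa using hab.symm⟩
      have : ({b} ∪ {a} : Set α) = Y := by rw [hYab, union_comm]; rfl
      rw [this]
      exact isBase_Y h
    have hr1 := isRegular_of_rank_one hbase
    have hr2 := (hdel a haY).2
    rcases heor.2 a (h.1 haY) with ⟨_, hn⟩ | ⟨_, hn⟩
    · exact hn hr1
    · exact hn hr2
  · intro h5
    refine ⟨fun hreg => not_binary h hsi hcs (hreg F2), fun e he => ?_⟩
    by_cases heY : e ∈ Y
    · refine Or.inl ⟨(hdel e heY).2, fun hreg => ?_⟩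
      obtain ⟨b, hb, hsub⟩ := exists_pair heY (contract_y h hcs heY (hreg F2))
      have h1 := small_Y h hsi heY hb hsub
      have h2 := ncard_le_two hsub
      omega
    · have heX : e ∈ M'.E \ Y := ⟨he, heY⟩
      refine Or.inr ⟨(hcon e (by rw [← hNE]; exact heX)).2, fun hreg => ?_⟩
      obtain ⟨b, hb, hsub⟩ := exists_pair heX (delete_x h hsi heX (hreg F2))
      have h1 := small_X h hcs heX hb hsub
      have h2 := ncard_le_two hsub
      omega

end MP948082
end

section
/-!
# MP_948082_co : module PMREMOVE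
-/
open Set Submodule

namespace MP948082

universe u

namespace PMREMOVE

variable {α : Type u}

theorem isPM_mono {Y X Y' X' : Set α} {W : α → α → ℤ} (h : IsPM Y X W) (hY : Y' ⊆ Y)
    (hX : X' ⊆ X) : IsPM Y' X' W where
  entry := fun y hy x hx => h.entry y (hY hy) x (hX hx)
  minor := fun k f g hf hg => h.minor k f g (fun i => hY (hf i)) (fun i => hX (hg i))

theorem not_hasFano_left {X : Set α} {W : α → α → ℤ} : ¬ HasFano (∅ : Set α) X W := by
  rintro (⟨f, g, hf, -⟩ | ⟨f, g, hf, -⟩)
  · exact hf 0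
  · exact hf 0

theorem not_hasFano_right {Y : Set α} {W : α → α → ℤ} : ¬ HasFano Y (∅ : Set α) W := by
  rintro (⟨f, g, -, hg, -⟩ | ⟨f, g, -, hg, -⟩)
  · exact hg 0
  · exact hg 0

/-- The restriction of coordinates. -/
def res (Y : Set α) (y : α) : (Y → ℚ) →ₗ[ℚ] ((Y \ {y} : Set α) → ℚ) :=
  LinearMap.funLeft ℚ ℚ (fun e : (Y \ {y} : Set α) => (⟨e.1, e.2.1⟩ : Y))

theorem res_apply (Y : Set α) (y : α) (c : Y → ℚ) (e : (Y \ {y} : Set α)) :
    res Y y c e = c ⟨e.1, e.2.1⟩ := rfl

theorem pmVec_pos {Y : Set α} {W : α → α → ℤ} {y : α} (hy : y ∈ Y) {e : Y} (h : y = (e : α)) :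
    pmVec Y W y e = 1 := by
  simp [pmVec, h]

theorem pmVec_neg {Y : Set α} {W : α → α → ℤ} {y : α} (hy : y ∈ Y) {e : Y} (h : y ≠ (e : α)) :
    pmVec Y W y e = 0 := by
  simp [pmVec, h, hy]

theorem res_ker {Y : Set α} {W : α → α → ℤ} {y : α} (hy : y ∈ Y) :
    LinearMap.ker (res Y y) = span ℚ (pmVec Y W '' {y}) := by
  rw [image_singleton]
  apply le_antisymm
  · intro c hc
    rw [LinearMap.mem_ker] at hc
    rw [mem_span_singleton]
    refine ⟨c ⟨y, hy⟩, ?_⟩
    funext e
    rw [Pi.smul_apply, smul_eq_mul]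
    by_cases he : y = (e : α)
    · rw [pmVec_pos hy he, mul_one]
      exact congrArg c (Subtype.ext he)
    · rw [pmVec_neg hy he, mul_zero]
      have h1 := congrFun hc ⟨e.1, e.2, fun h => he (mem_singleton_iff.1 h).symm⟩
      rw [res_apply] at h1
      exact h1.symm
  · rw [span_singleton_le_iff_mem, LinearMap.mem_ker]
    funext e
    rw [res_apply, Pi.zero_apply]
    exact pmVec_neg hy fun h => e.2.2 (mem_singleton_iff.2 h.symm)

theorem isRep_contract {M : Matroid α} {Y : Set α} {W : α → α → ℤ} (h : IsRep ℚ M (pmVec Y W))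
    {y : α} (hy : y ∈ Y) (hYM : Y ⊆ M.E) :
    IsRep ℚ (M.contract {y}) (pmVec (Y \ {y}) W) := by
  intro I hI
  rw [Matroid.contract_ground] at hI
  have hyM : y ∈ M.E := hYM hy
  have hli : LinearIndepOn ℚ (pmVec Y W) {y} := by
    rw [linearIndepOn_singleton_iff]
    intro hc
    have h1 := congrFun hc ⟨y, hy⟩
    rw [pmVec_pos hy rfl, Pi.zero_apply] at h1
    exact one_ne_zero h1
  have hnl : M.Indep {y} := (h {y} (singleton_subset_iff.2 hyM)).2 hli
  have hdisj : Disjoint ({y} : Set α) I := by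
    rw [disjoint_singleton_left]
    intro hc
    exact (hI hc).2 rfl
  rw [hnl.contract_indep_iff, union_comm I {y}, h _ (union_subset (singleton_subset_iff.2 hyM)
    (hI.trans sdiff_subset)), Graphic.indepOn_union_iff_of_ker hli hdisj (res Y y) (res_ker hy)]
  rw [and_iff_right hdisj.symm]
  apply linearIndepOn_congr
  intro e he
  funext c
  classical
  rw [Function.comp_apply, res_apply]
  have hey : e ≠ y := fun h => (hI he).2 (mem_singleton_iff.2 h)
  have hiff : e ∈ Y ↔ e ∈ Y \ {y} := ⟨fun h => ⟨h, hey⟩, fun h => h.1⟩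
  unfold pmVec
  by_cases heY : e ∈ Y
  · rw [if_pos heY, if_pos (hiff.1 heY)]
  · rw [if_neg heY, if_neg fun h => heY (hiff.2 h)]

theorem isTightened_contract {N M : Matroid α} {Y : Set α} {W : α → α → ℤ}
    (hM : IsPMMatroid M Y W) (hrel : IsRelaxation M N Y) (hnb : ¬ N.IsBase Y)
    (hC : N.IsCircuit Y) {y : α} (hy : y ∈ Y) (hne : (Y \ {y}).Nonempty) :
    IsTightened (N.contract {y}) (Y \ {y}) W := by
  obtain ⟨hYM, hYne, hXne, hpm, hrep⟩ := hM
  have hMi : M.Indep {y} := (((hrel.2 Y).2 (Or.inr rfl)).indep).subset (singleton_subset_iff.2 hy)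
  have hNi : N.Indep {y} := by
    apply hC.ssubset_indep
    rw [ssubset_iff_subset_ne]
    refine ⟨singleton_subset_iff.2 hy, ?_⟩
    rintro h
    obtain ⟨z, hz⟩ := hne
    rw [← h] at hz
    exact hz.2 hz.1
  have hE : (M.contract {y}).E \ (Y \ {y}) = M.E \ Y := by
    rw [Matroid.contract_ground]
    ext e
    simp only [mem_sdiff, mem_singleton_iff]
    constructor
    · rintro ⟨⟨h1, h2⟩, h3⟩
      exact ⟨h1, fun h => h3 ⟨h, h2⟩⟩
    · rintro ⟨h1, h2⟩
      refine ⟨⟨h1, fun h => h2 (h ▸ hy)⟩, fun h => h2 h.1⟩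
  refine ⟨M.contract {y}, ⟨?_, hne, ?_, ?_, isRep_contract hrep hy hYM⟩, ⟨?_, ?_⟩, ?_⟩
  · rw [Matroid.contract_ground]
    exact sdiff_subset_sdiff_left hYM
  · rw [hE]
    exact hXne
  · rw [hE]
    exact isPM_mono hpm sdiff_subset subset_rfl
  · rw [Matroid.contract_ground, Matroid.contract_ground, hrel.1]
  · intro B
    rw [hMi.contract_isBase_iff, hNi.contract_isBase_iff, hrel.2]
    constructor
    · rintro ⟨h1 | h1, h2⟩
      · exact Or.inl ⟨h1, h2⟩
      · right
        rw [← h1, union_sdiff_right]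
        exact (sdiff_eq_left.2 h2).symm
    · rintro (⟨h1, h2⟩ | h1)
      · exact ⟨Or.inl h1, h2⟩
      · subst h1
        refine ⟨Or.inr ?_, disjoint_sdiff_left⟩
        exact sdiff_union_of_subset (singleton_subset_iff.2 hy)
  · rw [hNi.contract_isBase_iff]
    rintro ⟨h1, -⟩
    rw [sdiff_union_of_subset (singleton_subset_iff.2 hy)] at h1
    exact hnb h1

theorem isTightened_delete {N M : Matroid α} {Y : Set α} {W : α → α → ℤ}
    (hM : IsPMMatroid M Y W) (hrel : IsRelaxation M N Y) (hnb : ¬ N.IsBase Y)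
    (hC : N.IsCocircuit (N.E \ Y)) {x : α} (hx : x ∈ N.E \ Y)
    (hne : ((N.E \ Y) \ {x}).Nonempty) :
    IsTightened (N.delete {x}) Y W := by
  obtain ⟨hYM, hYne, hXne, hpm, hrep⟩ := hM
  have hxM : x ∈ M.E := by
    rw [hrel.1]
    exact hx.1
  have hMi : M.Coindep {x} := by
    rw [Matroid.coindep_iff_exists (singleton_subset_iff.2 hxM)]
    exact ⟨Y, (hrel.2 Y).2 (Or.inr rfl), subset_sdiff_singleton hYM hx.2⟩
  have hNi : N.Coindep {x} := by
    rw [Matroid.coindep_def]
    apply Matroid.IsCircuit.ssubset_indep hC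
    rw [ssubset_iff_subset_ne]
    refine ⟨singleton_subset_iff.2 hx, ?_⟩
    rintro h
    obtain ⟨z, hz⟩ := hne
    rw [← h] at hz
    exact hz.2 hz.1
  have hE : (M.delete {x}).E \ Y = (M.E \ Y) \ {x} := by
    rw [Matroid.delete_ground]
    ext e
    simp only [mem_sdiff, mem_singleton_iff]
    tauto
  refine ⟨M.delete {x}, ⟨?_, hYne, ?_, ?_, hrep.delete _⟩, ⟨?_, ?_⟩, ?_⟩
  · rw [Matroid.delete_ground]
    exact subset_sdiff_singleton hYM hx.2
  · rw [hE, hrel.1]
    exact hne
  · rw [hE]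
    exact isPM_mono hpm subset_rfl sdiff_subset
  · rw [Matroid.delete_ground, Matroid.delete_ground, hrel.1]
  · intro B
    rw [hMi.delete_isBase_iff, hNi.delete_isBase_iff, hrel.2]
    constructor
    · rintro ⟨h1 | h1, h2⟩
      · exact Or.inl ⟨h1, h2⟩
      · exact Or.inr h1
    · rintro (⟨h1, h2⟩ | h1)
      · exact ⟨Or.inl h1, h2⟩
      · subst h1
        exact ⟨Or.inr rfl, disjoint_singleton_right.2 hx.2⟩
  · rw [hNi.delete_isBase_iff]
    rintro ⟨h1, -⟩
    exact hnb h1

end PMREMOVE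

open PMREMOVE in
/-- PMREMOVE. -/
theorem specPMRemove (hF : SpecFanoSub.{u}) (hB : SpecPMB.{u}) (hR : SpecRelax.{u}) :
    SpecPMRemove.{u} := by
  intro α N _ Y W hN
  obtain ⟨M, hM, hrel, hnb⟩ := hN
  obtain ⟨h2, hCH, h3⟩ := hB α N M Y W hM hrel hnb
  obtain ⟨hR1, hR2⟩ := hR α N M Y h2 hCH hrel h3
  refine ⟨fun y hy => ?_, fun x hx => ?_⟩
  · rcases (Y \ {y}).eq_empty_or_nonempty with he | hne
    · rw [he]
      refine iff_of_false ?_ not_hasFano_left
      rw [not_not]
      have hYy : Y = {y} := by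
        apply subset_antisymm
        · exact sdiff_eq_empty.1 he
        · exact singleton_subset_iff.2 hy
      have hloop : N.IsLoop y := by
        rw [← Matroid.singleton_isCircuit, ← hYy]
        exact hCH.1
      rw [Matroid.contract_eq_delete_of_subset_loops (singleton_subset_iff.2 hloop)]
      exact (hR1 y hy).1
    · have ht := isTightened_contract hM hrel hnb hCH.1 hy hne
      have h := hF α (N.contract {y}) (Y \ {y}) W ht
      have hE : (N.contract {y}).E \ (Y \ {y}) = N.E \ Y := by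
        rw [Matroid.contract_ground]
        ext e
        simp only [mem_sdiff, mem_singleton_iff]
        constructor
        · rintro ⟨⟨h1, h2⟩, h3⟩
          exact ⟨h1, fun h => h3 ⟨h, h2⟩⟩
        · rintro ⟨h1, h2⟩
          refine ⟨⟨h1, fun h => h2 (h ▸ hy)⟩, fun h => h2 h.1⟩
      rw [hE] at h
      exact h
  · rcases ((N.E \ Y) \ {x}).eq_empty_or_nonempty with he | hne
    · rw [he]
      refine iff_of_false ?_ not_hasFano_right
      rw [not_not]
      have hXx : N.E \ Y = {x} := by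
        apply subset_antisymm
        · exact sdiff_eq_empty.1 he
        · exact singleton_subset_iff.2 hx
      have hcoloop : N.IsColoop x := by
        rw [← Matroid.singleton_isCocircuit, ← hXx]
        exact hCH.2
      rw [← Matroid.contract_eq_delete_of_subset_coloops (singleton_subset_iff.2 hcoloop)]
      exact (hR2 x hx).1
    · have ht := isTightened_delete hM hrel hnb hCH.2 hx hne
      have h := hF α (N.delete {x}) Y W ht
      have hE : (N.delete {x}).E \ Y = (N.E \ Y) \ {x} := by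
        rw [Matroid.delete_ground]
        ext e
        simp only [mem_sdiff, mem_singleton_iff]
        tauto
      rw [hE] at h
      exact h

end MP948082
end
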