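import Pool.Agent.Lib.MP_948082_co.Defs

/-!
# MP_948082_co : specifications of the modules

Paper proof: `/team-store/MP_948082_co_PROOF.md`.  Each module is a theorem whose statement is one of
the `Spec...` propositions below (as `theorem specX : SpecX.{u} := ...`).
-/

open Set

namespace MP948082

universe u

/-- DUAL. Representability over a field passes to the dual. -/
def SpecDual : Prop :=
  ∀ (α : Type u) (F : Type) [Field F] (M : Matroid α) [M.Finite],
    Representable F M → Representable F M✶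

/-- DUALCFG. An `F7*`-configuration `(C, z)` of `M` with `C` independent gives an `F7`-configuration
of the dual, on the same seven elements; its contracted set is the set of deleted elements. -/
def SpecDualCfg : Prop :=
  ∀ (α : Type u) (M : Matroid α) [M.Finite] (n : ℕ) (v : α → (Fin n → F2)) (C : Set α) (z : P → α),
    IsRep F2 M v → F7dCfg v M.E C z → LinearIndepOn F2 v C →
    ∃ (n' : ℕ) (v' : α → (Fin n' → F2)),
      IsRep F2 M✶ v' ∧ F7Cfg v' M.E (M.E \ (C ∪ z '' {p | p ≠ 0})) z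

/-- NT. A matroid with an `F7`-configuration is not ternary. -/
def SpecNT : Prop :=
  ∀ (α : Type u) (M : Matroid α) [M.Finite] (n : ℕ) (v : α → (Fin n → F2)) (C : Set α) (z : P → α),
    IsRep F2 M v → F7Cfg v M.E C z → ¬ Representable F3 M

/-- TUTTE. A binary matroid which is not representable over some field `F` has an
`F7`-configuration, or its dual has one. -/
def SpecTutte : Prop :=
  ∀ (α : Type u) (M : Matroid α) [M.Finite] (F : Type) [Field F],
    Representable F2 M → ¬ Representable F M → HasF7 M ∨ HasF7 M✶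

/-- W. If `M` has an `F7`-configuration `(C, z)`, a line `{a, b, a + b}` such that
`Y = C ∪ z '' {a, b, a + b}` is a circuit-hyperplane, if `M \ y` is ternary for all `y ∈ C` and `M / x`
is ternary for all `x ∉ C ∪ Z`, then the relaxation of `M` at `Y` is ternary. -/
def SpecW : Prop :=
  ∀ (α : Type u) (M : Matroid α) [M.Finite] (n : ℕ) (v : α → (Fin n → F2)) (C : Set α) (z : P → α)
    (a b : P),
    IsRep F2 M v → F7Cfg v M.E C z → a ≠ 0 → b ≠ 0 → a ≠ b →
    IsCircuitHyperplane M (C ∪ {z a, z b, z (a + b)}) →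
    (∀ y ∈ C, Representable F3 (M.delete {y})) →
    (∀ x ∈ M.E, x ∉ C → (∀ p, p ≠ 0 → z p ≠ x) → Representable F3 (M.contract {x})) →
    ∃ N, IsRelaxation N M (C ∪ {z a, z b, z (a + b)}) ∧ Representable F3 N

/-- W1 (part of W). If `Y` is a circuit-hyperplane of the binary matroid `M` and all `M \ y`, `y ∈ Y`,
are ternary, then the relaxation of `M` at `Y` is ternary. -/
def SpecW1 : Prop :=
  ∀ (α : Type u) (M : Matroid α) [M.Finite] (Y : Set α), Representable F2 M →
    IsCircuitHyperplane M Y → (∀ y ∈ Y, Representable F3 (M.delete {y})) →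
    ∃ N, IsRelaxation N M Y ∧ Representable F3 N

/-- The rules of the T-case for a system of subsets `U x ⊆ Y`, `x ∈ X`. -/
def TRules {α : Type u} (Y X : Set α) (U : α → Set α) : Prop :=
  ∀ (y : Fin 3 → α) (xc : α) (x : Fin 3 → α),
    Function.Injective y → (∀ i, y i ∈ Y) → xc ∈ X → (∀ i, x i ∈ X) →
    (∀ i, y i ∉ U xc) → (∀ i j, y j ∈ U (x i) ↔ i = j) →
    (∀ w ∈ Y, (∀ i, w ≠ y i) →
      (∀ i j, w ∈ U (x i) → w ∈ U (x j) → i = j) ∧ (w ∈ U xc → ∃ i, w ∈ U (x i))) ∧
    (∀ w ∈ U xc, ∀ w' ∈ U xc, ∀ i j, w ∈ U (x i) → w' ∈ U (x j) → i = j) ∧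
    (∀ x' ∈ X, ∀ i j, y i ∈ U x' → y j ∈ U x' → i = j)

/-- T-COMB (pure set combinatorics). A system satisfying the T-rules, with at least one
configuration, without equal columns or equal rows, is a triple fan system. -/
def SpecTComb : Prop :=
  ∀ (α : Type u) (Y X : Set α) (U : α → Set α), Y.Finite → X.Finite → Disjoint Y X →
    (∀ x ∈ X, U x ⊆ Y) → TRules Y X U →
    (∀ x ∈ X, ∀ x' ∈ X, U x = U x' → x = x') →
    (∀ y ∈ Y, ∀ y' ∈ Y, (∀ x ∈ X, (y ∈ U x ↔ y' ∈ U x)) → y = y') →
    (∃ (y : Fin 3 → α) (xc : α) (x : Fin 3 → α),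
      Function.Injective y ∧ (∀ i, y i ∈ Y) ∧ xc ∈ X ∧ (∀ i, x i ∈ X) ∧
      (∀ i, y i ∉ U xc) ∧ (∀ i j, y j ∈ U (x i) ↔ i = j)) →
    ∃ (m : Fin 3 → ℕ) (ε δ : Bool) (φ : FanElt m ε δ → α), (∀ i, 1 ≤ m i) ∧
      Function.Injective φ ∧
      Y = {a | (∃ i j, φ (.y i j) = a) ∨ (∃ h, φ (.y0 h) = a)} ∧
      X = {a | (∃ i j, φ (.x i j) = a) ∨ (∃ h, φ (.x0 h) = a)} ∧
      (∀ i j, U (φ (.x i j)) = {a | ∃ j' : Fin (m i), (j' : ℕ) ≤ (j : ℕ) ∧ φ (.y i j') = a}) ∧
      (∀ h, U (φ (.x0 h)) = ∅)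

/-- FAN. Converse for triple fans: every element has a regular deletion or contraction. -/
def SpecFan : Prop :=
  ∀ (α : Type u) (M : Matroid α) [M.Finite], IsTripleFan 1 M →
    ∀ e ∈ M.E, IsRegular (M.delete {e}) ∨ IsRegular (M.contract {e})

/-- FANEOR. Triple fans with all arms of length at least two are exactly-one-regular. -/
def SpecFanEOR : Prop :=
  ∀ (α : Type u) (M : Matroid α) [M.Finite], IsTripleFan 2 M →
    IsSimple M ∧ IsSimple M✶ ∧ ExactlyOneRegular M

/-- FANDUAL. The dual of a triple fan is a triple fan. -/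
def SpecFanDual : Prop :=
  ∀ (α : Type u) (m : Fin 3 → ℕ) (ε δ : Bool) (M : Matroid α), IsFan m ε δ M → IsFan m δ ε M✶

/-- CORE. The main structure theorem (binary case). -/
def SpecCore : Prop :=
  ∀ (α : Type u) (M : Matroid α) [M.Finite], Representable F2 M → IsSimple M → IsSimple M✶ →
    AtLeastOneRegular M →
    (∃ Y N, IsCircuitHyperplane M Y ∧ IsRelaxation N M Y ∧ Representable F3 N) ∨ IsTripleFan 2 M

/-- RELAX. If `Y` is a circuit-hyperplane of the binary matroid `M` and the relaxation `N` of `M` at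
`Y` is ternary, then `M \ y = N \ y` for `y ∈ Y`, `M / x = N / x` for `x ∉ Y`, so these are regular. -/
def SpecRelax : Prop :=
  ∀ (α : Type u) (M N : Matroid α) [M.Finite] (Y : Set α), Representable F2 M →
    IsCircuitHyperplane M Y → IsRelaxation N M Y → Representable F3 N →
    (∀ y ∈ Y, IsRegular (M.delete {y}) ∧ IsRegular (N.delete {y})) ∧
    (∀ x ∈ M.E \ Y, IsRegular (M.contract {x}) ∧ IsRegular (N.contract {x}))

/-! ### Series-parallel reduction (all matroids) -/

/-- `M` is obtained from `M₀` by adding the elements of `D` parallel and the elements of `C` in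
series to elements of `M₀`: those of `D` parallel to elements `e` with `M₀ / e` regular, those of `C`
in series with elements `e` with `M₀ \ e` regular. -/
def IsRegularExtension {α : Type u} (M M₀ : Matroid α) (C D : Set α) : Prop :=
  C ⊆ M.E ∧ D ⊆ M.E ∧ Disjoint C D ∧ M₀ = (M.delete D).contract C ∧
    (∀ d ∈ D, ∃ e ∈ M₀.E, IsParallel M d e ∧ IsRegular (M₀.contract {e})) ∧
    (∀ c ∈ C, ∃ e ∈ M₀.E, IsSeries M c e ∧ IsRegular (M₀.delete {e}))

/-- SP. The reduction to simple cosimple matroids. -/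
def SpecSP : Prop :=
  ∀ (α : Type u) (M : Matroid α) [M.Finite],
    (AtLeastOneRegular M ↔ ∃ M₀ C D, IsRegularExtension M M₀ C D ∧
        IsSimple M₀ ∧ IsSimple M₀✶ ∧ AtLeastOneRegular M₀) ∧
    (ExactlyOneRegular M ↔ ∃ M₀ C D, IsRegularExtension M M₀ C D ∧
        IsSimple M₀ ∧ IsSimple M₀✶ ∧ AtLeastOneRegular M₀ ∧
        ∀ e ∈ M₀.E, IsRegular (M₀.delete {e}) → IsRegular (M₀.contract {e}) →
          (∃ d ∈ D, IsParallel M d e) ∨ (∃ c ∈ C, IsSeries M c e))

/-- `M` is the uniform matroid of rank two with at least five elements. -/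
def IsU2 {α : Type u} (M : Matroid α) : Prop :=
  5 ≤ M.E.encard ∧ ∀ I ⊆ M.E, (M.Indep I ↔ I.encard ≤ 2)

/-- NONBINARY. The non-binary members of the class. -/
def SpecNonBinary : Prop :=
  ∀ (α : Type u) (M : Matroid α) [M.Finite], ¬ Representable F2 M → IsSimple M → IsSimple M✶ →
    (AtLeastOneRegular M ↔
      IsU2 M ∨ IsU2 M✶ ∨
      ∃ Y N, IsCircuitHyperplane N Y ∧ IsRelaxation M N Y ∧ Representable F2 N ∧ Representable F3 M)

end MP948082
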