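import Pool.Agent.Lib.MP_948082_co.Spec

/-!
# MP_948082_co : module TCOMB (pure set combinatorics of triple fans)
-/

open Set

namespace MP948082

universe u

theorem inj_three {α : Type u} {a b c : α} (h1 : a ≠ b) (h2 : a ≠ c) (h3 : b ≠ c) :
    Function.Injective ![a, b, c] := by
  intro p q hpq
  fin_cases p <;> fin_cases q <;> simp_all

/-- Enumeration of a finite chain of nonempty sets without repeated rows. -/
theorem chain_enum {α : Type u} (X : Set α) (hX : X.Finite) (U : α → Set α)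
    (hUf : ∀ x ∈ X, (U x).Finite)
    (hne : ∀ x ∈ X, (U x).Nonempty)
    (hch : ∀ x ∈ X, ∀ x' ∈ X, U x ⊆ U x' ∨ U x' ⊆ U x)
    (hinj : ∀ x ∈ X, ∀ x' ∈ X, U x = U x' → x = x')
    (hrow : ∀ b b', (∃ x ∈ X, b ∈ U x) → (∃ x ∈ X, b' ∈ U x) →
      (∀ x ∈ X, (b ∈ U x ↔ b' ∈ U x)) → b = b') :
    ∃ (m : ℕ) (x y : Fin m → α), (∀ a, a ∈ X ↔ ∃ j, x j = a) ∧
      (∀ b, (∃ a ∈ X, b ∈ U a) ↔ ∃ j, y j = b) ∧ (∀ j j', y j' ∈ U (x j) ↔ j' ≤ j) := by
  classical
  set c : α → ℕ := fun x => (U x).ncard with hc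
  have hcinj : ∀ x ∈ X, ∀ x' ∈ X, c x = c x' → x = x' := by
    intro x hx x' hx' h
    rcases hch x hx x' hx' with h1 | h1
    · exact hinj _ hx _ hx' (Set.eq_of_subset_of_ncard_le h1 h.ge (hUf x' hx'))
    · exact hinj _ hx _ hx' (Set.eq_of_subset_of_ncard_le h1 h.le (hUf x hx)).symm
  set s : Finset ℕ := hX.toFinset.image c with hs
  set f := s.orderEmbOfFin rfl with hf
  have hfs : ∀ j, f j ∈ s := fun j => s.orderEmbOfFin_mem rfl j
  have hex : ∀ j, ∃ a ∈ X, c a = f j := by
    intro j
    have hj := hfs j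
    obtain ⟨a, ha, h⟩ := Finset.mem_image.1 hj
    exact ⟨a, hX.mem_toFinset.1 ha, h⟩
  choose x hxX hxc using hex
  have hmono : ∀ j j', j ≤ j' → U (x j) ⊆ U (x j') := by
    intro j j' h
    rcases hch _ (hxX j) _ (hxX j') with h1 | h1
    · exact h1
    · have h2 : c (x j) ≤ c (x j') := by
        rw [hxc, hxc]
        exact f.monotone h
      rw [Set.eq_of_subset_of_ncard_le h1 h2 (hUf _ (hxX j))]
  have hey : ∀ j, ∃ b ∈ U (x j), ∀ j' < j, b ∉ U (x j') := by
    rintro ⟨j, hj⟩
    rcases Nat.eq_zero_or_pos j with h0 | h0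
    · subst h0
      obtain ⟨b, hb⟩ := hne _ (hxX ⟨0, hj⟩)
      refine ⟨b, hb, fun j' hj' => ?_⟩
      exact absurd hj' (Nat.not_lt_zero _)
    · have hk : j - 1 < s.card := by omega
      have hlt : c (x ⟨j - 1, hk⟩) < c (x ⟨j, hj⟩) := by
        rw [hxc, hxc]
        apply f.strictMono
        rw [Fin.mk_lt_mk]
        omega
      have hns : ¬ U (x ⟨j, hj⟩) ⊆ U (x ⟨j - 1, hk⟩) := by
        intro hsub
        have := Set.ncard_le_ncard hsub (hUf _ (hxX _))
        exact absurd hlt (not_lt.2 this)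
      obtain ⟨b, hb, hb'⟩ := Set.not_subset.1 hns
      refine ⟨b, hb, fun j' hj' hbj' => hb' (hmono j' _ ?_ hbj')⟩
      rw [Fin.le_def]
      have : (j' : ℕ) < j := hj'
      simp only
      omega
  choose y hy hy' using hey
  have hyx : ∀ j j', y j' ∈ U (x j) ↔ j' ≤ j := by
    intro j j'
    constructor
    · intro h
      by_contra hcon
      exact hy' j' j (not_le.1 hcon) h
    · intro h
      exact hmono _ _ h (hy j')
  have hall : ∀ a, a ∈ X ↔ ∃ j, x j = a := by
    intro a
    constructor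
    · intro ha
      have : c a ∈ Set.range f := by
        rw [hf, Finset.range_orderEmbOfFin, hs]
        simp only [Finset.coe_image, Set.mem_image, Finset.mem_coe, Set.Finite.mem_toFinset]
        exact ⟨a, ha, rfl⟩
      obtain ⟨j, hj⟩ := this
      refine ⟨j, hcinj _ (hxX j) _ ha ?_⟩
      rw [hxc, hj]
    · rintro ⟨j, rfl⟩
      exact hxX j
  refine ⟨s.card, x, y, hall, ?_, hyx⟩
  intro b
  constructor
  · rintro ⟨a, ha, hb⟩
    obtain ⟨j₀, rfl⟩ := (hall a).1 ha
    have hne' : (Finset.univ.filter (fun j => b ∈ U (x j))).Nonempty :=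
      ⟨j₀, by simpa using hb⟩
    set j₁ := (Finset.univ.filter (fun j => b ∈ U (x j))).min' hne' with hj₁
    have h1 : b ∈ U (x j₁) := by
      have := Finset.min'_mem _ hne'
      rw [← hj₁] at this
      simpa using this
    have h2 : ∀ j, b ∈ U (x j) → j₁ ≤ j := by
      intro j hj
      exact Finset.min'_le _ _ (by simpa using hj)
    refine ⟨j₁, hrow _ _ ⟨x j₁, hxX j₁, hy j₁⟩ ⟨x j₁, hxX j₁, h1⟩ ?_⟩
    intro a' ha'
    obtain ⟨j, rfl⟩ := (hall a').1 ha'
    rw [hyx]
    exact ⟨fun h => hmono _ _ h h1, h2 j⟩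
  · rintro ⟨j, rfl⟩
    exact ⟨x j, hxX j, hy j⟩

theorem specTComb : SpecTComb.{u} := by
  classical
  intro α Y X U hYf hXf hYX hUY hT hcol hrow hconf
  obtain ⟨y, xc, x, hyinj, hyY, hxcX, hxX, hyc, hyx⟩ := hconf
  -- (iii)
  have h3 : ∀ x' ∈ X, ∀ i j, y i ∈ U x' → y j ∈ U x' → i = j :=
    (hT y xc x hyinj hyY hxcX hxX hyc hyx).2.2
  -- general configurations with the same `y`
  have hgen : ∀ (c : α) (a : Fin 3 → α), c ∈ X → (∀ i, a i ∈ X) → (∀ i, y i ∉ U c) →
      (∀ i, y i ∈ U (a i)) →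
      (∀ w ∈ Y, (∀ i, w ≠ y i) →
      (∀ i j, w ∈ U (a i) → w ∈ U (a j) → i = j) ∧ (w ∈ U c → ∃ i, w ∈ U (a i))) ∧
      (∀ w ∈ U c, ∀ w' ∈ U c, ∀ i j, w ∈ U (a i) → w' ∈ U (a j) → i = j) := by
    intro c a hc ha hyc' hya
    have := hT y c a hyinj hyY hc ha hyc' (by
      intro i j
      constructor
      · intro h
        exact h3 _ (ha i) _ _ (hya i) h
      · rintro rfl
        exact hya i)
    exact ⟨this.1, this.2.1⟩
  -- (A)
  have hA : ∀ i j, i ≠ j → ∀ a ∈ X, ∀ b ∈ X, y i ∈ U a → y j ∈ U b → ∀ w, w ∈ U a → w ∉ U b := by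
    intro i j hij a ha b hb hia hjb w hwa hwb
    by_cases hw : ∃ k, w = y k
    · obtain ⟨k, rfl⟩ := hw
      have e1 := h3 _ ha _ _ hia hwa
      have e2 := h3 _ hb _ _ hjb hwb
      exact hij (e1.trans e2.symm)
    · push Not at hw
      set a' : Fin 3 → α := Function.update (Function.update x i a) j b with ha'
      have h1 : a' j = b := by simp [ha']
      have h2 : a' i = a := by
        rw [ha', Function.update_of_ne hij]
        simp
      have h4 : ∀ k, a' k ∈ X ∧ y k ∈ U (a' k) := by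
        intro k
        by_cases hkj : k = j
        · subst hkj
          rw [h1]; exact ⟨hb, hjb⟩
        · by_cases hki : k = i
          · subst hki
            rw [h2]; exact ⟨ha, hia⟩
          · have : a' k = x k := by
              rw [ha', Function.update_of_ne hkj, Function.update_of_ne hki]
            rw [this]
            exact ⟨hxX k, (hyx k k).2 rfl⟩
      have := (hgen xc a' hxcX (fun k => (h4 k).1) hyc (fun k => (h4 k).2)).1 w
        (hUY _ ha hwa) hw
      exact hij (this.1 i j (by rw [h2]; exact hwa) (by rw [h1]; exact hwb))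
  -- (B)
  have hB : ∀ c ∈ X, (∀ k, y k ∉ U c) → (U c).Nonempty →
      ∃ i, ∀ a ∈ X, y i ∈ U a → U c ⊆ U a := by
    intro c hc hyc' ⟨w, hw⟩
    have hwY : ∀ w ∈ U c, ∀ k, w ≠ y k := by
      rintro w hw k rfl
      exact hyc' k hw
    have hg := hgen c x hc hxX hyc' (fun k => (hyx k k).2 rfl)
    obtain ⟨i, hi⟩ := (hg.1 w (hUY _ hc hw) (hwY w hw)).2 hw
    refine ⟨i, fun a ha hya w' hw' => ?_⟩
    set a' : Fin 3 → α := Function.update x i a with ha'
    have h4 : ∀ k, a' k ∈ X ∧ y k ∈ U (a' k) := by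
      intro k
      by_cases hki : k = i
      · subst hki
        have : a' k = a := by simp [ha']
        rw [this]; exact ⟨ha, hya⟩
      · have : a' k = x k := by
          rw [ha', Function.update_of_ne hki]
        rw [this]
        exact ⟨hxX k, (hyx k k).2 rfl⟩
    have hg' := hgen c a' hc (fun k => (h4 k).1) hyc' (fun k => (h4 k).2)
    obtain ⟨l, hl⟩ := (hg'.1 w' (hUY _ hc hw') (hwY w' hw')).2 hw'
    by_cases hli : l = i
    · subst hli
      have : a' l = a := by simp [ha']
      rwa [this] at hl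
    · exfalso
      have h5 : a' l = x l := by
        rw [ha', Function.update_of_ne hli]
      rw [h5] at hl
      exact hli (hg.2 w' hw' w hw l i hl hi)
  -- arms
  set arm : Fin 3 → Set α := fun i => {a | a ∈ X ∧ (U a ∩ U (x i)).Nonempty} with harm
  have hyxi : ∀ i, y i ∈ U (x i) := fun i => (hyx i i).2 rfl
  have hcase : ∀ i, ∀ a ∈ arm i, (y i ∈ U a) ∨ ((∀ k, y k ∉ U a) ∧ (U a).Nonempty ∧
      ∀ b ∈ X, y i ∈ U b → U a ⊆ U b) := by
    rintro i a ⟨haX, w, hwa, hwi⟩
    by_cases hk : ∃ k, y k ∈ U a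
    · obtain ⟨k, hk⟩ := hk
      left
      by_cases hki : k = i
      · subst hki; exact hk
      · exact absurd hwi (hA k i hki a haX (x i) (hxX i) hk (hyxi i) w hwa)
    · push Not at hk
      right
      refine ⟨hk, ⟨w, hwa⟩, ?_⟩
      obtain ⟨l, hl⟩ := hB a haX hk ⟨w, hwa⟩
      have : l = i := by
        by_contra hli
        exact hA l i hli (x l) (hxX l) (x i) (hxX i) (hyxi l) (hyxi i) w
          (hl (x l) (hxX l) (hyxi l) hwa) hwi
      subst this
      exact hl
  have hcover : ∀ i, ∀ a ∈ arm i, ∃ b ∈ X, y i ∈ U b ∧ U a ⊆ U b := by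
    intro i a ha
    rcases hcase i a ha with h | ⟨-, -, h⟩
    · exact ⟨a, ha.1, h, Subset.rfl⟩
    · exact ⟨x i, hxX i, hyxi i, h _ (hxX i) (hyxi i)⟩
  have hE : ∀ i j, i ≠ j → ∀ a ∈ arm i, ∀ b ∈ arm j, ∀ w, w ∈ U a → w ∉ U b := by
    intro i j hij a ha b hb w hwa hwb
    obtain ⟨a', ha', hya', hsa⟩ := hcover i a ha
    obtain ⟨b', hb', hyb', hsb⟩ := hcover j b hb
    exact hA i j hij a' ha' b' hb' hya' hyb' w (hsa hwa) (hsb hwb)
  have hD : ∀ a ∈ X, (U a).Nonempty → ∃ i, a ∈ arm i := by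
    intro a ha hne
    by_cases hk : ∃ k, y k ∈ U a
    · obtain ⟨k, hk⟩ := hk
      exact ⟨k, ha, y k, hk, hyxi k⟩
    · push Not at hk
      obtain ⟨l, hl⟩ := hB a ha hk hne
      obtain ⟨w, hw⟩ := hne
      exact ⟨l, ha, w, hw, hl _ (hxX l) (hyxi l) hw⟩
  -- the two other indices
  have hother : ∀ i : Fin 3, ∃ j k : Fin 3, j ≠ i ∧ k ≠ i ∧ j ≠ k := by decide
  -- (C) nestedness
  have hC : ∀ i, ∀ a ∈ arm i, ∀ b ∈ arm i, U a ⊆ U b ∨ U b ⊆ U a := by
    intro i a ha b hb
    by_contra hcon
    push Not at hcon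
    obtain ⟨ya, hya, hya'⟩ := Set.not_subset.1 hcon.1
    obtain ⟨yb, hyb, hyb'⟩ := Set.not_subset.1 hcon.2
    obtain ⟨j, k, hji, hki, hjk⟩ := hother i
    have harmj : x j ∈ arm j := ⟨hxX j, y j, hyxi j, hyxi j⟩
    have harmk : x k ∈ arm k := ⟨hxX k, y k, hyxi k, hyxi k⟩
    have hyaj : ya ∉ U (x j) := hE i j (Ne.symm hji) a ha _ harmj ya hya
    have hybj : yb ∉ U (x j) := hE i j (Ne.symm hji) b hb _ harmj yb hyb
    have hyak : ya ∉ U (x k) := hE i k (Ne.symm hki) a ha _ harmk ya hya
    have hybk : yb ∉ U (x k) := hE i k (Ne.symm hki) b hb _ harmk yb hyb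
    have hyja : y j ∉ U a := fun h => hE i j (Ne.symm hji) a ha _ harmj _ h (hyxi j)
    have hyjb : y j ∉ U b := fun h => hE i j (Ne.symm hji) b hb _ harmj _ h (hyxi j)
    have hyjk : y j ∉ U (x k) := fun h => hjk ((hyx k j).1 h).symm
    have hne1 : ya ≠ yb := fun h => hyb' (h ▸ hya)
    have hne2 : ya ≠ y j := fun h => hyaj (h ▸ hyxi j)
    have hne3 : yb ≠ y j := fun h => hybj (h ▸ hyxi j)
    have hconf := hT ![ya, yb, y j] (x k) ![a, b, x j]
      (inj_three hne1 hne2 hne3)
      (by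
        intro p
        fin_cases p
        · exact hUY _ ha.1 hya
        · exact hUY _ hb.1 hyb
        · exact hyY j)
      (hxX k)
      (by
        intro p
        fin_cases p
        · exact ha.1
        · exact hb.1
        · exact hxX j)
      (by
        intro p
        fin_cases p
        · exact hyak
        · exact hybk
        · exact hyjk)
      (by
        intro p q
        fin_cases p <;> fin_cases q
        · exact iff_of_true hya rfl
        · exact iff_of_false hyb' (by decide)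
        · exact iff_of_false hyja (by decide)
        · exact iff_of_false hya' (by decide)
        · exact iff_of_true hyb rfl
        · exact iff_of_false hyjb (by decide)
        · exact iff_of_false hyaj (by decide)
        · exact iff_of_false hybj (by decide)
        · exact iff_of_true (hyxi j) rfl)
    rcases hcase i a ha with hia | ⟨hia, -, hia'⟩
    · rcases hcase i b hb with hib | ⟨hib, -, hib'⟩
      · have := (hconf.1 (y i) (hyY i) (by
          intro p
          fin_cases p
          · rintro rfl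
            exact hya' hib
          · rintro rfl
            exact hyb' hia
          · intro h
            exact hji (hyinj h).symm)).1 0 1 hia hib
        exact absurd this (by decide)
      · exact hyb' (hib' a ha.1 hia hyb)
    · rcases hcase i b hb with hib | ⟨hib, -, hib'⟩
      · exact hya' (hia' b hb.1 hib hya)
      · have := hconf.2.2 (x i) (hxX i) 0 1 (hia' _ (hxX i) (hyxi i) hya)
          (hib' _ (hxX i) (hyxi i) hyb)
        exact absurd this (by decide)
  -- enumeration of the arms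
  have henum : ∀ i, ∃ (m : ℕ) (xs ys : Fin m → α), (∀ a, a ∈ arm i ↔ ∃ j, xs j = a) ∧
      (∀ b, (∃ a ∈ arm i, b ∈ U a) ↔ ∃ j, ys j = b) ∧ (∀ j j', ys j' ∈ U (xs j) ↔ j' ≤ j) := by
    intro i
    apply chain_enum (arm i) (hXf.subset fun a ha => ha.1) U
    · intro a ha
      exact hYf.subset (hUY a ha.1)
    · rintro a ⟨-, w, hw, -⟩
      exact ⟨w, hw⟩
    · exact hC i
    · intro a ha b hb h
      exact hcol a ha.1 b hb.1 h
    · rintro b b' ⟨a, ha, hba⟩ ⟨a', ha', hb'a'⟩ h
      apply hrow b (hUY _ ha.1 hba) b' (hUY _ ha'.1 hb'a')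
      intro z hz
      by_cases hzi : z ∈ arm i
      · exact h z hzi
      · refine iff_of_false ?_ ?_
        · intro hbz
          obtain ⟨j, hj⟩ := hD z hz ⟨b, hbz⟩
          have hji : i ≠ j := by
            rintro rfl
            exact hzi hj
          exact hE i j hji a ha z hj b hba hbz
        · intro hbz
          obtain ⟨j, hj⟩ := hD z hz ⟨b', hbz⟩
          have hji : i ≠ j := by
            rintro rfl
            exact hzi hj
          exact hE i j hji a' ha' z hj b' hb'a' hbz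
  choose m xs ys hxs hys hxy using henum
  -- extra elements
  set ε : Bool := decide (∃ a ∈ X, U a = ∅) with hε
  set δ : Bool := decide (∃ b ∈ Y, ∀ a ∈ X, b ∉ U a) with hδ
  have hεx : ∀ h : ε = true, ∃ a ∈ X, U a = ∅ := fun h => of_decide_eq_true h
  have hδy : ∀ h : δ = true, ∃ b ∈ Y, ∀ a ∈ X, b ∉ U a := fun h => of_decide_eq_true h
  let φ : FanElt m ε δ → α := fun z => match z with
    | .y i j => ys i j
    | .x i j => xs i j
    | .x0 h => (hεx h).choose
    | .y0 h => (hδy h).choose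
  have hφx0 : ∀ h, φ (.x0 h) ∈ X ∧ U (φ (.x0 h)) = ∅ := fun h => (hεx h).choose_spec
  have hφy0 : ∀ h, φ (.y0 h) ∈ Y ∧ ∀ a ∈ X, φ (.y0 h) ∉ U a := fun h => (hδy h).choose_spec
  have hxsX : ∀ i j, xs i j ∈ arm i := fun i j => (hxs i _).2 ⟨j, rfl⟩
  have hysU : ∀ i j, ys i j ∈ U (xs i j) := fun i j => (hxy i j j).2 le_rfl
  have hysY : ∀ i j, ys i j ∈ Y := fun i j => hUY _ (hxsX i j).1 (hysU i j)
  have hYX' : ∀ a, a ∈ Y → a ∈ X → False := fun a h1 h2 => Set.disjoint_left.1 hYX h1 h2
  refine ⟨m, ε, δ, φ, ?_, ?_, ?_, ?_, ?_, fun h => (hφx0 h).2⟩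
  · intro i
    obtain ⟨j, -⟩ := (hxs i (x i)).1 ⟨hxX i, y i, hyxi i, hyxi i⟩
    exact lt_of_le_of_lt (Nat.zero_le _) j.2
  · -- injectivity
    have hxx : ∀ i j i' j', xs i j = xs i' j' → (FanElt.x i j : FanElt m ε δ) = .x i' j' := by
      intro i j i' j' h
      by_cases hii : i = i'
      · subst hii
        have e1 : j ≤ j' := (hxy i j' j).1 (h ▸ hysU i j)
        have e2 : j' ≤ j := (hxy i j j').1 (h.symm ▸ hysU i j')
        rw [le_antisymm e1 e2]
      · exact absurd (h ▸ hysU i j) (hE i i' hii _ (hxsX i j) _ (hxsX i' j') _ (hysU i j))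
    have hyy : ∀ i j i' j', ys i j = ys i' j' → (FanElt.y i j : FanElt m ε δ) = .y i' j' := by
      intro i j i' j' h
      by_cases hii : i = i'
      · subst hii
        have e1 : j ≤ j' := (hxy i j' j).1 (h.symm ▸ hysU i j')
        have e2 : j' ≤ j := (hxy i j j').1 (h ▸ hysU i j)
        rw [le_antisymm e1 e2]
      · exact absurd (h.symm ▸ hysU i' j') (hE i i' hii _ (hxsX i j) _ (hxsX i' j') _ (hysU i j))
    intro z z' hzz
    cases z with
    | y i j =>
      cases z' with
      | y i' j' => exact hyy i j i' j' hzz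
      | x i' j' =>
        exact (hYX' _ (hysY i j) (by
          have : ys i j = xs i' j' := hzz
          rw [this]; exact (hxsX i' j').1)).elim
      | x0 h =>
        exact (hYX' _ (hysY i j) (by
          have : ys i j = φ (.x0 h) := hzz
          rw [this]; exact (hφx0 h).1)).elim
      | y0 h =>
        exfalso
        apply (hφy0 h).2 _ (hxsX i j).1
        have : ys i j = φ (.y0 h) := hzz
        rw [← this]
        exact hysU i j
    | x i j =>
      cases z' with
      | y i' j' =>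
        exact (hYX' _ (hysY i' j') (by
          have : xs i j = ys i' j' := hzz
          rw [← this]; exact (hxsX i j).1)).elim
      | x i' j' => exact hxx i j i' j' hzz
      | x0 h =>
        exfalso
        have e : xs i j = φ (.x0 h) := hzz
        have : ys i j ∈ U (φ (.x0 h)) := by
          rw [← e]; exact hysU i j
        rw [(hφx0 h).2] at this
        exact this
      | y0 h =>
        exact (hYX' _ (hφy0 h).1 (by
          have : xs i j = φ (.y0 h) := hzz
          rw [← this]; exact (hxsX i j).1)).elim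
    | x0 h =>
      cases z' with
      | y i' j' =>
        exact (hYX' _ (hysY i' j') (by
          have : φ (.x0 h) = ys i' j' := hzz
          rw [← this]; exact (hφx0 h).1)).elim
      | x i' j' =>
        exfalso
        have e : φ (.x0 h) = xs i' j' := hzz
        have : ys i' j' ∈ U (φ (.x0 h)) := by
          rw [e]; exact hysU i' j'
        rw [(hφx0 h).2] at this
        exact this
      | x0 h' => rfl
      | y0 h' =>
        exact (hYX' _ (hφy0 h').1 (by
          rw [← hzz]; exact (hφx0 h).1)).elim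
    | y0 h =>
      cases z' with
      | y i' j' =>
        exfalso
        apply (hφy0 h).2 _ (hxsX i' j').1
        have : φ (.y0 h) = ys i' j' := hzz
        rw [this]
        exact hysU i' j'
      | x i' j' =>
        exact (hYX' _ (hφy0 h).1 (by
          have : φ (.y0 h) = xs i' j' := hzz
          rw [this]; exact (hxsX i' j').1)).elim
      | x0 h' =>
        exact (hYX' _ (hφy0 h).1 (by
          rw [hzz]; exact (hφx0 h').1)).elim
      | y0 h' => rfl
  · -- Y
    ext b
    simp only [Set.mem_ofPred_eq]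
    constructor
    · intro hb
      by_cases hex : ∃ a ∈ X, b ∈ U a
      · obtain ⟨a, ha, hba⟩ := hex
        obtain ⟨i, hi⟩ := hD a ha ⟨b, hba⟩
        obtain ⟨j, hj⟩ := (hys i b).1 ⟨a, hi, hba⟩
        exact Or.inl ⟨i, j, hj⟩
      · push Not at hex
        have hδt : δ = true := decide_eq_true ⟨b, hb, hex⟩
        refine Or.inr ⟨hδt, ?_⟩
        apply hrow _ (hφy0 hδt).1 b hb
        intro a ha
        exact iff_of_false ((hφy0 hδt).2 a ha) (hex a ha)
    · rintro (⟨i, j, rfl⟩ | ⟨h, rfl⟩)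
      · exact hysY i j
      · exact (hφy0 h).1
  · -- X
    ext a
    simp only [Set.mem_ofPred_eq]
    constructor
    · intro ha
      rcases (U a).eq_empty_or_nonempty with h0 | h0
      · have hεt : ε = true := decide_eq_true ⟨a, ha, h0⟩
        refine Or.inr ⟨hεt, ?_⟩
        exact hcol _ (hφx0 hεt).1 _ ha ((hφx0 hεt).2.trans h0.symm)
      · obtain ⟨i, hi⟩ := hD a ha h0
        obtain ⟨j, hj⟩ := (hxs i a).1 hi
        exact Or.inl ⟨i, j, hj⟩
    · rintro (⟨i, j, rfl⟩ | ⟨h, rfl⟩)
      · exact (hxsX i j).1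
      · exact (hφx0 h).1
  · -- U of the x's
    intro i j
    ext b
    simp only [Set.mem_ofPred_eq]
    constructor
    · intro hb
      obtain ⟨j', hj'⟩ := (hys i b).1 ⟨xs i j, hxsX i j, hb⟩
      refine ⟨j', ?_, hj'⟩
      have : ys i j' ∈ U (xs i j) := by rw [hj']; exact hb
      exact (hxy i j j').1 this
    · rintro ⟨j', hj', rfl⟩
      exact (hxy i j j').2 hj'

end MP948082
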