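import Pool.Agent.Lib.MP_948082_co.W

/-!
# MP_948082_co : module W1 (SpecW1), the special case of W without configuration
-/

set_option linter.all false

open Set Submodule

namespace MP948082

universe u

open W in
/-- Module W1. -/
theorem specW1 : SpecW1.{u} := by
  classical
  intro α M _ Y' hrep hCH hdel
  obtain ⟨n, v, hv⟩ := hrep
  obtain ⟨hcirc, hcoc⟩ := hCH
  have hfin : Y'.Finite := M.ground_finite.subset hcirc.subset_ground
  obtain ⟨Y, hYeq⟩ : ∃ Y : Finset α, (Y : Set α) = Y' := ⟨hfin.toFinset, hfin.coe_toFinset⟩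
  subst hYeq
  have hYE : (Y : Set α) ⊆ M.E := hcirc.subset_ground
  obtain ⟨x₀, hx₀E, hx₀Y'⟩ := hcoc.nonempty
  have hx₀Y : x₀ ∉ Y := hx₀Y'
  obtain ⟨a₀, haY'⟩ := hcirc.nonempty
  have haY : a₀ ∈ Y := haY'
  -- the sum over the circuit
  have hsum : ∑ y ∈ Y, v y = 0 := by
    obtain ⟨c, hc0, hc⟩ := exists_coeff hv hcirc
    rw [← hc]
    exact Finset.sum_congr rfl fun y hy => by rw [f2_one (hc0 y hy), one_smul]
  -- independence
  have hind : ∀ y ∈ Y, ∀ x ∈ M.E, x ∉ Y → M.Indep (insert x ((Y : Set α) \ {y})) := by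
    intro y hy x hx hxY
    have h1 : M.Indep ((Y : Set α) \ {y}) := hcirc.sdiff_singleton_indep hy
    by_contra hni
    have hdep : M.Dep (insert x ((Y : Set α) \ {y})) :=
      ⟨hni, insert_subset hx (sdiff_subset.trans hYE)⟩
    obtain ⟨C', hC', hcC'⟩ := hdep.exists_isCircuit_subset
    apply hcC'.inter_isCocircuit_ne_singleton hcoc (e := x)
    have hxC' : x ∈ C' := by
      by_contra hx'
      apply hcC'.not_indep
      apply h1.subset
      intro e he
      rcases hC' he with h | h
      · exact absurd (h ▸ he) hx'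
      · exact h
    ext e
    constructor
    · rintro ⟨he, he2⟩
      rcases hC' he with h | h
      · exact h
      · exact absurd h.1 he2.2
    · rintro rfl
      exact ⟨hxC', hx, hxY⟩
  -- differences
  have hs1 : ∀ x ∈ M.E, x ∉ Y → ∃ c : α → F2, v x = v x₀ + ∑ y ∈ Y, c y • v y := by
    intro x hx hxY
    have hsp : M.Spanning (insert x₀ (Y : Set α)) := by
      rw [Matroid.isCocircuit_iff_minimal_compl_nonspanning] at hcoc
      have h2 := hcoc.not_prop_of_ssubset (t := (M.E \ Y) \ {x₀})
        (sdiff_singleton_ssubset.2 ⟨hx₀E, hx₀Y⟩)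
      rw [not_not] at h2
      have h3 : M.E \ ((M.E \ Y) \ {x₀}) = insert x₀ (Y : Set α) := by
        ext e
        simp only [mem_sdiff, mem_singleton_iff, mem_insert_iff, not_and, not_not]
        constructor
        · rintro ⟨he, h4⟩
          by_cases heY : e ∈ (Y : Set α)
          · exact Or.inr heY
          · exact Or.inl (h4 ⟨he, heY⟩)
        · rintro (rfl | h)
          · exact ⟨hx₀E, fun _ => rfl⟩
          · exact ⟨hYE h, fun h4 => absurd h h4.2⟩
      rwa [h3] at h2
    have hcl : x ∈ M.closure (insert x₀ (Y : Set α)) := by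
      rw [hsp.closure_eq]; exact hx
    rw [hv.mem_closure_iff (insert_subset hx₀E hYE) hx] at hcl
    rw [← Finset.coe_insert] at hcl
    obtain ⟨c, hc⟩ := mem_span_fin hcl
    rw [Finset.sum_insert hx₀Y] at hc
    have hc0 : c x₀ = 1 := by
      apply f2_one
      intro h0
      rw [h0, zero_smul, zero_add, shift_erase hsum _ haY] at hc
      have h5 := hv.linearIndepOn (hind _ haY x hx hxY)
      rw [← Finset.coe_erase, linearIndepOn_insert (by
        rw [Finset.coe_erase]; exact fun h => hxY h.1)] at h5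
      apply h5.2
      rw [← hc]
      exact Submodule.sum_mem _ fun b hb => Submodule.smul_mem _ _ (subset_span ⟨b, hb, rfl⟩)
    refine ⟨c, ?_⟩
    rw [← hc, hc0, one_smul]
  choose! s0 hs0 using hs1
  let s : α → α → F2 := fun x y => if x = x₀ then 0 else s0 x y
  have hs : ∀ x ∈ M.E, x ∉ Y → v x = v x₀ + ∑ y ∈ Y, s x y • v y := by
    intro x hx hxY
    by_cases h : x = x₀
    · subst h
      simp [s]
    · simp only [s, if_neg h]
      exact hs0 x hx hxY
  have hsx₀ : ∀ y, s x₀ y = 0 := fun y => by simp [s]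
  -- the relaxation
  let N := vecMatroid F3 (wv Y s) M.E M.ground_finite
  have hagree : ∀ T ⊆ M.E, T.ncard = Y.card → T ≠ Y → (M.Indep T ↔ N.Indep T) := by
    intro T hT hcard hTY
    have hNT : N.Indep T ↔ LinearIndepOn F3 (wv Y s) T := by
      rw [vecMatroid_indep_iff]; exact and_iff_right hT
    rw [hNT]
    have hTf : T.Finite := M.ground_finite.subset hT
    have h1 : ∃ y ∈ Y, y ∉ T := by
      by_contra hc
      push Not at hc
      apply hTY
      symm
      exact Set.eq_of_subset_of_ncard_le (fun y hy => hc y hy) (by rw [hcard, Set.ncard_coe_finset]) hTf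
    obtain ⟨y, hyY, hyT⟩ := h1
    exact del_case hv hYE hsum hind hx₀E hx₀Y hsx₀ hs hyY (hdel y hyY) hT hyT
  -- bases
  have hB₀i : M.Indep (insert x₀ ((Y : Set α) \ {a₀})) := hind _ haY x₀ hx₀E hx₀Y
  have hB₀ : M.IsBase (insert x₀ ((Y : Set α) \ {a₀})) := by
    rw [hB₀i.isBase_iff_ground_subset_closure]
    intro e he
    rw [hv.mem_closure_iff hB₀i.subset_ground he]
    have hYs : ∀ f : α → F2, ∑ y ∈ Y, f y • v y ∈
        span F2 (v '' insert x₀ ((Y : Set α) \ {a₀})) := by
      intro f
      rw [shift_erase hsum _ haY]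
      refine Submodule.sum_mem _ fun b hb => Submodule.smul_mem _ _ (subset_span ⟨b, ?_, rfl⟩)
      exact Or.inr ⟨Finset.mem_of_mem_erase hb, Finset.ne_of_mem_erase hb⟩
    by_cases heY : e ∈ Y
    · have := hYs (fun y => if y = e then 1 else 0)
      simpa [heY] using this
    · rw [hs e he heY]
      exact Submodule.add_mem _ (subset_span ⟨x₀, Or.inl rfl, rfl⟩) (hYs _)
  have hcB₀ : (insert x₀ ((Y : Set α) \ {a₀})).ncard = Y.card := by
    rw [← Finset.coe_erase, ← Finset.coe_insert, Set.ncard_coe_finset, Finset.card_insert_of_notMem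
      (fun h => hx₀Y (Finset.mem_of_mem_erase h)), Finset.card_erase_of_mem haY]
    have : 0 < Y.card := Finset.card_pos.2 ⟨_, haY⟩
    omega
  have hNY : N.IsBase (Y : Set α) := by
    have hNi : N.Indep (Y : Set α) := by
      rw [vecMatroid_indep_iff]; exact ⟨hYE, wv_indep_Y Y s⟩
    rw [hNi.isBase_iff_ground_subset_closure]
    intro e he
    rw [(vecMatroid_isRep (F := F3) (v := wv Y s) (hE := M.ground_finite)).mem_closure_iff hYE he]
    have : wv Y s e = ∑ y ∈ Y, wv Y s e y • wv Y s y := by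
      funext y
      rw [wv_sum (Finset.Subset.refl Y)]
      split_ifs with h
      · rfl
      · exact wv_zero h
    rw [this]
    exact Submodule.sum_mem _ fun b hb => Submodule.smul_mem _ _ (subset_span ⟨b, hb, rfl⟩)
  refine ⟨N, ⟨rfl, fun B => ?_⟩, vecMatroid_representable⟩
  have iM : M.IsBase B ↔ M.Indep B ∧ B.ncard = Y.card := by
    rw [isBase_iff_ncard hB₀, hcB₀]
  have iN : N.IsBase B ↔ N.Indep B ∧ B.ncard = Y.card := by
    rw [isBase_iff_ncard hNY, Set.ncard_coe_finset]
  by_cases hBY : B = Y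
  · rw [hBY]
    exact iff_of_true hNY (Or.inr rfl)
  · rw [iM, iN, or_iff_left hBY]
    constructor
    · rintro ⟨h1, h2⟩
      exact ⟨(hagree B h1.subset_ground h2 hBY).2 h1, h2⟩
    · rintro ⟨h1, h2⟩
      exact ⟨(hagree B h1.subset_ground h2 hBY).1 h1, h2⟩

end MP948082
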