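import Pool.Agent.Lib.MP_948082_co.SpecTutte
import Pool.Agent.Lib.MP_948082_co.Spec
import Pool.Agent.Lib.MP_948082_co.Dual
import Pool.Agent.Lib.MP_948082_co.DualCfg
import Pool.Agent.Lib.MP_948082_co.PMRemove
import Pool.Agent.Lib.MP_948082_co.Sum
import Pool.Agent.Lib.MP_948082_co.NonBinary
import Pool.Agent.Lib.MP_948082_co.TComb
import Pool.Agent.Lib.MP_948082_co.W
import Pool.Agent.Lib.MP_948082_co.W1
import Pool.Agent.Lib.MP_948082_co.SP

section
/-!
# MP_948082_co : module LEAVES (pure graph theory)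
-/
open Set

namespace MP948082

universe u

theorem exists_parent {V : Type u} (G : SimpleGraph V) (hG : G.Connected) (v : V) :
    ∀ w, w ≠ v → ∃ p, G.Adj w p ∧ G.dist v w = G.dist v p + 1 := by
  intro w hw
  obtain ⟨q, hq⟩ := (hG.preconnected w v).exists_walk_length_eq_dist
  cases q with
  | nil => exact absurd rfl hw
  | @cons _ p _ h q' =>
    refine ⟨p, h, ?_⟩
    rw [SimpleGraph.Walk.length_cons] at hq
    have h1 : G.dist v w = q'.length + 1 := by
      rw [SimpleGraph.dist_comm]; exact hq.symm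
    have h2 : G.dist p v ≤ q'.length := SimpleGraph.dist_le q'
    have h3 : G.dist w v ≤ G.dist p v + 1 := by
      obtain ⟨r, hr⟩ := (hG.preconnected p v).exists_walk_length_eq_dist
      have := SimpleGraph.dist_le (SimpleGraph.Walk.cons h r)
      rw [SimpleGraph.Walk.length_cons, hr] at this
      exact this
    rw [SimpleGraph.dist_comm (u := v) (v := w), SimpleGraph.dist_comm (u := v) (v := p)]
    omega

theorem specLeaves : SpecLeaves.{u} := by
  classical
  intro V _ G c hG hc ⟨v, a, b, d, hab, had, hbd, hva, hvb, hvd⟩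
  have hpar := exists_parent G hG v
  choose! p hp1 hp2 using hpar
  have hdist0 : ∀ w, G.dist v w = 0 → w = v := by
    intro w hw
    exact ((hG.preconnected v w).dist_eq_zero_iff.1 hw).symm
  -- the branch of `w`: iterate the parent map
  have hiter : ∀ n w, w ≠ v → G.dist v w = n + 1 → p^[n] w ≠ v ∧ G.dist v (p^[n] w) = 1 := by
    intro n
    induction n with
    | zero =>
      intro w hw h
      exact ⟨hw, h⟩
    | succ n ih =>
      intro w hw h
      rw [Function.iterate_succ_apply]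
      have h2 := hp2 w hw
      have h3 : G.dist v (p w) = n + 1 := by omega
      refine ih (p w) ?_ h3
      rintro h4
      rw [h4, SimpleGraph.dist_self] at h3
      omega
  set br : V → V := fun w => p^[G.dist v w - 1] w with hbr
  have hbrp : ∀ w, w ≠ v → p w ≠ v → br w = br (p w) := by
    intro w hw hpw
    have h2 := hp2 w hw
    have h3 : G.dist v (p w) ≠ 0 := fun h => hpw (hdist0 _ h)
    simp only [hbr]
    rw [← Function.iterate_succ_apply]
    congr 1
    have : G.dist v w - 1 = (G.dist v (p w) - 1) + 1 := by omega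
    rw [this]
  have hone : ∀ w, G.Adj v w → w ≠ v ∧ G.dist v w = 1 := by
    intro w hw
    exact ⟨hw.ne', SimpleGraph.dist_eq_one_iff_adj.2 hw⟩
  have hbr1 : ∀ w, G.Adj v w → br w = w := by
    intro w hw
    simp [hbr, (hone w hw).2]
  -- a leaf in each branch
  have hleaf : ∀ w, G.Adj v w → ∃ x, x ≠ v ∧ br x = w ∧ ∀ z, z ≠ v → p z ≠ x := by
    intro w hw
    have hne : (Finset.univ.filter (fun x => x ≠ v ∧ br x = w)).Nonempty :=
      ⟨w, by simp [(hone w hw).1, hbr1 w hw]⟩
    obtain ⟨x, hx, hmax⟩ := Finset.exists_max_image _ (fun x => G.dist v x) hne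
    simp only [Finset.mem_filter, Finset.mem_univ, true_and] at hx hmax
    refine ⟨x, hx.1, hx.2, fun z hz hpz => ?_⟩
    have h1 := hbrp z hz (hpz ▸ hx.1)
    have h2 := hmax z ⟨hz, by rw [h1, hpz, hx.2]⟩
    have h3 := hp2 z hz
    rw [hpz] at h3
    omega
  obtain ⟨xa, ha1, ha2, ha3⟩ := hleaf a hva
  obtain ⟨xb, hb1, hb2, hb3⟩ := hleaf b hvb
  obtain ⟨xd, hd1, hd2, hd3⟩ := hleaf d hvd
  have nab : xa ≠ xb := fun h => hab (by rw [← ha2, ← hb2, h])
  have nad : xa ≠ xd := fun h => had (by rw [← ha2, ← hd2, h])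
  have nbd : xb ≠ xd := fun h => hbd (by rw [← hb2, ← hd2, h])
  -- removing two leaves
  have key : ∀ x y, x ≠ v → y ≠ v → (∀ z, z ≠ v → p z ≠ x) → (∀ z, z ≠ v → p z ≠ y) →
      (G.induce {w | w ≠ x ∧ w ≠ y}).Preconnected := by
    intro x y hx hy hpx hpy
    have hreach : ∀ n, ∀ w (hw : w ≠ x ∧ w ≠ y), G.dist v w = n →
        (G.induce {w | w ≠ x ∧ w ≠ y}).Reachable ⟨w, hw⟩ ⟨v, hx.symm, hy.symm⟩ := by
      intro n
      induction n with
      | zero =>
        intro w hw h
        have := hdist0 w h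
        subst this
        exact SimpleGraph.Reachable.refl _
      | succ n ih =>
        intro w hw h
        have hwv : w ≠ v := by
          rintro rfl
          rw [SimpleGraph.dist_self] at h
          omega
        have h2 := hp2 w hwv
        have h3 : p w ≠ x ∧ p w ≠ y := ⟨hpx w hwv, hpy w hwv⟩
        refine SimpleGraph.Reachable.trans ?_ (ih (p w) h3 (by omega))
        apply SimpleGraph.Adj.reachable
        exact hp1 w hwv
    rintro ⟨s, hs⟩ ⟨t, ht⟩
    exact (hreach _ s hs rfl).trans (hreach _ t ht rfl).symm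
  by_cases h1 : c xa = c xb
  · exact ⟨xa, xb, nab, h1, key _ _ ha1 hb1 ha3 hb3⟩
  by_cases h2 : c xa = c xd
  · exact ⟨xa, xd, nad, h2, key _ _ ha1 hd1 ha3 hd3⟩
  · refine ⟨xb, xd, nbd, ?_, key _ _ hb1 hd1 hb3 hd3⟩
    revert h1 h2
    cases c xa <;> cases c xb <;> cases c xd <;> simp

end MP948082
end

section
/-!
# MP_948082_co : combining the modules

The structure theorem for exactly-one-regular matroids, in terms of relaxations of
circuit-hyperplanes.
-/
open Set

namespace MP948082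

universe u

theorem specTutte : SpecTutte.{u} :=
  specTutte_of specSum specLeaves specGraphic specPath specScale specDual

theorem specCore : SpecCore.{u} :=
  Core.specCore_of specTutte specNT specDual specDualCfg specW specTComb specFanDual

/-- A binary matroid is regular iff it is ternary. -/
theorem isRegular_iff_ternary {α : Type u} {M : Matroid α} [M.Finite] (h : Representable F2 M) :
    IsRegular M ↔ Representable F3 M :=
  ⟨fun h' => h' _, fun h' => isRegular_of_binary_of_ternary specTutte specNT specDual h h'⟩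

theorem specRelax' : SpecRelax.{u} := specRelax specTutte specNT specDual

theorem specNonBinary : SpecNonBinary.{u} := specNonBinary_of specRelax' specW1 specDual

theorem specPMA : SpecPMA.{u} := specPMA_of specRelax'

/-- `M` is binary, and relaxing some circuit-hyperplane makes it ternary. -/
def IsTightType {α : Type u} (M : Matroid α) : Prop :=
  Representable F2 M ∧ ∃ Y N, IsCircuitHyperplane M Y ∧ IsRelaxation N M Y ∧ Representable F3 N

/-- `M` is ternary, and a relaxation of a binary matroid at a circuit-hyperplane. -/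
def IsRelaxedType {α : Type u} (M : Matroid α) : Prop :=
  Representable F3 M ∧ ∃ Y N, IsCircuitHyperplane N Y ∧ IsRelaxation M N Y ∧ Representable F2 N

/-- The binary case: the structure theorem. -/
theorem binary_iff {α : Type u} (M : Matroid α) [M.Finite] (hM : Representable F2 M)
    (h1 : IsSimple M) (h2 : IsSimple M✶) :
    AtLeastOneRegular M ↔ (¬ IsRegular M ∧ IsTightType M) ∨ IsTripleFan 2 M := by
  constructor
  · intro h
    rcases specCore α M hM h1 h2 h with ⟨Y, N, hY, hN, h3⟩ | h'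
    · exact Or.inl ⟨h.1, hM, Y, N, hY, hN, h3⟩
    · exact Or.inr h'
  · rintro (⟨hr, -, Y, N, hY, hN, h3⟩ | h)
    · refine ⟨hr, fun e he => ?_⟩
      have hR := specRelax specTutte specNT specDual α M N Y hM hY hN h3
      by_cases heY : e ∈ Y
      · exact Or.inl (hR.1 e heY).1
      · exact Or.inr (hR.2 e ⟨he, heY⟩).1
    · have h3 := (specFanEOR α M h).2.2
      exact ⟨h3.1, fun e he => (h3.2 e he).or⟩

theorem triple_fan_binary {α : Type u} {M : Matroid α} [M.Finite] {k : ℕ} (h : IsTripleFan k M) :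
    Representable F2 M := by
  obtain ⟨m, ε, δ, -, φ, hφ, hr, hI⟩ := h
  obtain ⟨v, -, hv⟩ := FanEOR.exists_rep (M := M) φ hφ hr hI
  exact hv.representable

end MP948082
end

section
/-!
# MP_948082_co : module FANOSUB

Non-regularity of the binary matroid of a `±1` matrix in terms of its `3 × 4` and `4 × 3`
submatrices.
-/
open Set Submodule

namespace MP948082

universe u

namespace FANOSUB

variable {α : Type u} {M N : Matroid α} {Y : Set α}

/-- Exchanges at a circuit-hyperplane. -/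
theorem exchange (h : IsCircuitHyperplane N Y) {x y : α} (hy : y ∈ Y) (hx : x ∈ N.E)
    (hxY : x ∉ Y) : N.IsBase (insert x (Y \ {y})) := by
  obtain ⟨hcirc, hcoc⟩ := h
  have hYE : Y ⊆ N.E := hcirc.subset_ground
  have hind : N.Indep (insert x (Y \ {y})) := by
    have h1 : N.Indep (Y \ {y}) := hcirc.sdiff_singleton_indep hy
    by_contra hni
    have hdep : N.Dep (insert x (Y \ {y})) :=
      ⟨hni, insert_subset hx (sdiff_subset.trans hYE)⟩
    obtain ⟨C', hC', hcC'⟩ := hdep.exists_isCircuit_subset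
    apply hcC'.inter_isCocircuit_ne_singleton hcoc (e := x)
    have hxC' : x ∈ C' := by
      by_contra hx'
      apply hcC'.not_indep
      apply h1.subset
      intro e he
      rcases hC' he with h | h
      · exact absurd (h ▸ he) hx'
      · exact h
    ext e
    constructor
    · rintro ⟨he, he2⟩
      rcases hC' he with h | h
      · exact h
      · exact absurd h.1 he2.2
    · rintro rfl
      exact ⟨hxC', hx, hxY⟩
  have hsp : N.Spanning (insert x Y) := by
    rw [Matroid.isCocircuit_iff_minimal_compl_nonspanning] at hcoc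
    have h2 := hcoc.not_prop_of_ssubset (t := (N.E \ Y) \ {x})
      (sdiff_singleton_ssubset.2 ⟨hx, hxY⟩)
    rw [not_not] at h2
    have h3 : N.E \ ((N.E \ Y) \ {x}) = insert x Y := by
      ext e
      simp only [mem_sdiff, mem_singleton_iff, mem_insert_iff, not_and, not_not]
      constructor
      · rintro ⟨he, h4⟩
        by_cases heY : e ∈ Y
        · exact Or.inr heY
        · exact Or.inl (h4 ⟨he, heY⟩)
      · rintro (rfl | h)
        · exact ⟨hx, fun _ => rfl⟩
        · exact ⟨hYE h, fun h4 => absurd h h4.2⟩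
    rwa [h3] at h2
  apply hind.isBase_of_spanning
  rw [Matroid.spanning_iff_ground_subset_closure (insert_subset hx (sdiff_subset.trans hYE))]
  rw [← hsp.closure_eq]
  apply N.closure_subset_closure_of_subset_closure
  apply insert_subset
  · exact N.mem_closure_of_mem (mem_insert _ _) (insert_subset hx (sdiff_subset.trans hYE))
  · have h5 : Y ⊆ N.closure (Y \ {y}) := by
      rw [hcirc.closure_sdiff_singleton_eq]
      exact N.subset_closure Y hYE
    exact h5.trans (N.closure_subset_closure (subset_insert _ _))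

theorem ncard_exchange (hYf : Y.Finite) {x y : α} (hy : y ∈ Y) (hxY : x ∉ Y) :
    (insert x (Y \ {y})).ncard = Y.ncard := by
  rw [ncard_insert_of_notMem (fun h => hxY h.1) (hYf.subset sdiff_subset),
    ncard_sdiff_singleton_of_mem hy]
  have := (ncard_pos hYf).2 ⟨y, hy⟩
  omega

theorem isBase_iff_of_ch [N.Finite] (h : IsCircuitHyperplane N Y) {T : Set α} :
    N.IsBase T ↔ N.Indep T ∧ T.ncard = Y.ncard := by
  obtain ⟨y, hy⟩ := h.1.nonempty
  obtain ⟨x, hx⟩ := h.2.nonempty
  rw [isBase_iff_card (exchange h hy hx.1 hx.2),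
    ncard_exchange (N.ground_finite.subset h.1.subset_ground) hy hx.2]

/-- The closure of a circuit-hyperplane. -/
theorem mem_of_mem_closure (h : IsCircuitHyperplane N Y) {x : α} (hx : x ∈ N.closure Y) :
    x ∈ Y := by
  by_contra hxY
  have hxE : x ∈ N.E := N.closure_subset_ground Y hx
  obtain ⟨y, hy⟩ := h.1.nonempty
  have h1 := (exchange h hy hxE hxY).indep
  have h2 : x ∈ N.closure (Y \ {y}) := by
    rw [h.1.closure_sdiff_singleton_eq]; exact hx
  rw [(h1.subset (subset_insert _ _)).mem_closure_iff_of_notMem (fun h => hxY h.1)] at h2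
  exact h2.not_indep h1

theorem P_card : Fintype.card P = 8 := by decide

theorem finrank_P : Module.finrank F2 P = 3 := by
  rw [Module.finrank_fin_fun]

/-- Seven distinct nonzero vectors. -/
theorem surj_of_inj (u : Fin 3 ⊕ Fin 4 → P) (hu : Function.Injective u) (h0 : ∀ i, u i ≠ 0)
    (p : P) (hp : p ≠ 0) : ∃ i, u i = p := by
  classical
  have h1 : (Finset.univ.image u) = Finset.univ.erase (0 : P) := by
    apply Finset.eq_of_subset_of_card_le
    · intro x hx
      obtain ⟨i, -, rfl⟩ := Finset.mem_image.1 hx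
      exact Finset.mem_erase.2 ⟨h0 i, Finset.mem_univ _⟩
    · rw [Finset.card_image_of_injective _ hu, Finset.card_erase_of_mem (Finset.mem_univ _),
        Finset.card_univ, Finset.card_univ, P_card]
      simp
  have h2 : p ∈ Finset.univ.image u := by
    rw [h1]
    exact Finset.mem_erase.2 ⟨hp, Finset.mem_univ _⟩
  obtain ⟨i, -, hi⟩ := Finset.mem_image.1 h2
  exact ⟨i, hi⟩

theorem exists_third (i j : Fin 3) (hij : i ≠ j) : ∃ k, k ≠ i ∧ k ≠ j := by
  revert i j; decide

theorem exists_third4 (i j : Fin 4) (hij : i ≠ j) : ∃ k : Fin 4, ∃ a b : Fin 3,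
    k.succAbove a = i ∧ k.succAbove b = j := by
  revert i j; decide

/-- Four columns and three rows with all four exchanges give an `F7`-configuration. -/
theorem exists_cfg [N.Finite] {V : Type*} [AddCommGroup V] [Module F2 V] [Module.Finite F2 V]
    {v : α → V} (hv : IsRep F2 N v) (hvs : span F2 (v '' N.E) = ⊤)
    (hY : IsCircuitHyperplane N Y) (l : Fin 3 → α) (q : Fin 4 → α) (hl : ∀ i, l i ∈ Y)
    (hli : Function.Injective l) (hq : ∀ j, q j ∈ N.E \ Y) (hqi : Function.Injective q)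
    (hb : ∀ j : Fin 4, N.IsBase ((Y \ range l) ∪ range (q ∘ j.succAbove))) :
    ∃ z, F7Cfg v N.E (Y \ range l) z := by
  classical
  have hYE : Y ⊆ N.E := hY.1.subset_ground
  set R := Y \ range l with hR
  have hRl : ∀ i, l i ∉ R := fun i hi => hi.2 ⟨i, rfl⟩
  have hRY : R ⊆ Y := sdiff_subset
  have hRind : N.Indep R := (hb 0).indep.subset subset_union_left
  have hRfin : R.Finite := N.ground_finite.subset (hRY.trans hYE)
  have hRq : ∀ j, q j ∉ R := fun j hj => (hq j).2 (hRY hj)
  set S := span F2 (v '' R) with hS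
  -- dimension of the quotient
  have hVr : Module.finrank F2 V = R.ncard + 3 := by
    have hfin : ((Y \ range l) ∪ range (q ∘ (0 : Fin 4).succAbove)).Finite :=
      N.ground_finite.subset (hb 0).subset_ground
    have : Fintype ((Y \ range l) ∪ range (q ∘ (0 : Fin 4).succAbove) : Set α) := hfin.fintype
    rw [Module.finrank_eq_card_basis (hv.basis hvs (hb 0)), ← Set.toFinset_card,
      ← Set.ncard_eq_toFinset_card']
    rw [ncard_union_eq _ hRfin (finite_range _)]
    · congr 1
      rw [← Set.image_univ, Set.ncard_image_of_injective _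
        (hqi.comp Fin.succAbove_right_injective)]
      simp
    · rw [Set.disjoint_left]
      rintro _ h ⟨i, rfl⟩
      exact hRq _ h
  have hSr : Module.finrank F2 S = R.ncard := by
    have : Fintype R := hRfin.fintype
    have h1 := finrank_span_eq_card (hv.linearIndepOn hRind)
    rw [← image_eq_range] at h1
    rw [hS, h1, Set.ncard_eq_toFinset_card', Set.toFinset_card]
  have hQr : Module.finrank F2 (V ⧸ S) = Module.finrank F2 P := by
    have := Submodule.finrank_quotient_add_finrank S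
    rw [finrank_P]
    omega
  let e : (V ⧸ S) ≃ₗ[F2] P := LinearEquiv.ofFinrankEq _ _ hQr
  let π : V →ₗ[F2] P := e.toLinearMap ∘ₗ S.mkQ
  have hker : LinearMap.ker π = S := by
    ext x
    rw [LinearMap.mem_ker]
    change e (S.mkQ x) = 0 ↔ _
    rw [map_eq_zero_iff e e.injective, Submodule.mkQ_apply, Submodule.Quotient.mk_eq_zero]
  have hRli := hv.linearIndepOn hRind
  -- independence modulo R
  have key : ∀ t : Set α, Disjoint R t → N.Indep (R ∪ t) → LinearIndepOn F2 (π ∘ v) t := by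
    intro t ht hi
    exact (Graphic.indepOn_union_iff_of_ker hRli ht π hker).1 (hv.linearIndepOn hi)
  have pair : ∀ a b : α, a ≠ b → a ∉ R → b ∉ R → N.Indep (R ∪ {a, b}) →
      π (v a) ≠ 0 ∧ π (v a) ≠ π (v b) := by
    intro a b hab ha hb' hi
    have h1 := key {a, b} (by
      rw [Set.disjoint_right]
      rintro x (rfl | rfl)
      · exact ha
      · exact hb') hi
    constructor
    · exact h1.ne_zero (mem_insert a {b})
    · intro h2
      exact hab (h1.injOn (mem_insert a {b}) (mem_insert_of_mem a (mem_singleton b)) h2)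
  have hll : ∀ i j, i ≠ j → π (v (l i)) ≠ 0 ∧ π (v (l i)) ≠ π (v (l j)) := by
    intro i j hij
    obtain ⟨k, hki, hkj⟩ := exists_third i j hij
    apply pair (l i) (l j) (fun h => hij (hli h)) (hRl i) (hRl j)
    apply (hY.1.sdiff_singleton_indep (hl k)).subset
    rintro x (hx | rfl | rfl)
    · exact ⟨hRY hx, fun h => hRl k (h ▸ hx)⟩
    · exact ⟨hl i, fun h => hki (hli h).symm⟩
    · exact ⟨hl j, fun h => hkj (hli h).symm⟩
  have hqq : ∀ i j, i ≠ j → π (v (q i)) ≠ 0 ∧ π (v (q i)) ≠ π (v (q j)) := by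
    intro i j hij
    obtain ⟨k, a, b, ha, hb'⟩ := exists_third4 i j hij
    apply pair (q i) (q j) (fun h => hij (hqi h)) (hRq i) (hRq j)
    apply (hb k).indep.subset
    apply union_subset_union_right
    rintro x (rfl | rfl)
    · exact ⟨a, by rw [Function.comp_apply, ha]⟩
    · exact ⟨b, by rw [Function.comp_apply, hb']⟩
  have hlq : ∀ i j, π (v (l i)) ≠ π (v (q j)) := by
    intro i j h
    apply (hq j).2
    apply mem_of_mem_closure hY
    rw [hv.mem_closure_iff hYE (hq j).1]
    have h1 : v (q j) - v (l i) ∈ S := by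
      rw [← hker, LinearMap.mem_ker, map_sub, h, sub_self]
    have h2 : v (q j) - v (l i) ∈ span F2 (v '' Y) := span_mono (image_mono hRY) h1
    have h3 : v (l i) ∈ span F2 (v '' Y) := subset_span ⟨l i, hl i, rfl⟩
    have := add_mem h2 h3
    rwa [sub_add_cancel] at this
  let s : Fin 3 ⊕ Fin 4 → α := Sum.elim l q
  have hsurj := surj_of_inj (fun i => π (v (s i))) (by
    rintro (i | i) (j | j) h
    · by_contra hij
      exact (hll i j (fun h => hij (by rw [h]))).2 h
    · exact absurd h (hlq i j)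
    · exact absurd h.symm (hlq j i)
    · by_contra hij
      exact (hqq i j (fun h => hij (by rw [h]))).2 h) (by
    rintro (i | i)
    · obtain ⟨j, hj⟩ : ∃ j : Fin 3, i ≠ j := by revert i; decide
      exact (hll i j hj).1
    · obtain ⟨j, hj⟩ : ∃ j : Fin 4, i ≠ j := by revert i; decide
      exact (hqq i j hj).1)
  have hsE : ∀ i, s i ∈ N.E := by
    rintro (i | i)
    · exact hYE (hl i)
    · exact (hq i).1
  choose! t ht using hsurj
  refine ⟨fun p => s (t p), hRY.trans hYE, fun p _ => hsE _, π, hker, fun p hp => ht p hp⟩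

theorem enum_aux (f : P →ₗ[F2] F2) {x y d : P} (hx : x ≠ 0) (hy : y ≠ 0) (hxy : x ≠ y)
    (hdx : d ≠ x) (hdy : d ≠ y) (hdxy : d ≠ x + y) (hd : f d = 1) :
    ∃ a b : P, a ≠ 0 ∧ b ≠ 0 ∧ a ≠ b ∧ f a = 0 ∧ f b = 0 := by
  have h11 : (1 : F2) + 1 = 0 := by decide
  have hxd : x + d ≠ 0 := fun h => hdx (Core.f2_add_eq_zero.1 h).symm
  have hyd : y + d ≠ 0 := fun h => hdy (Core.f2_add_eq_zero.1 h).symm
  rcases Core.f2_cases (f x) with h1 | h1 <;> rcases Core.f2_cases (f y) with h2 | h2
  · exact ⟨x, y, hx, hy, hxy, h1, h2⟩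
  · refine ⟨x, y + d, hx, hyd, fun h => hdxy ?_, h1, by rw [map_add, h2, hd, h11]⟩
    rw [h, add_comm y d, add_assoc, Core.f2_add_self, add_zero]
  · refine ⟨x + d, y, hxd, hy, fun h => hdxy ?_, by rw [map_add, h1, hd, h11], h2⟩
    rw [← h, ← add_assoc, Core.f2_add_self, zero_add]
  · exact ⟨x + d, y + d, hxd, hyd, fun h => hxy (add_right_cancel h),
      by rw [map_add, h1, hd, h11], by rw [map_add, h2, hd, h11]⟩

/-- Enumeration of the Fano plane by a functional. -/
theorem enum (f : P →ₗ[F2] F2) (hf : f ≠ 0) :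
    ∃ a b d : P, a ≠ 0 ∧ b ≠ 0 ∧ a ≠ b ∧ f a = 0 ∧ f b = 0 ∧ f d = 1 ∧
      ∀ p, p ≠ 0 → f p = 0 → p = a ∨ p = b ∨ p = a + b := by
  obtain ⟨a, b, d, ha, hb, hab, fa, fb, fd⟩ : ∃ a b d : P, a ≠ 0 ∧ b ≠ 0 ∧ a ≠ b ∧ f a = 0 ∧
      f b = 0 ∧ f d = 1 := by
    have hex : f ![1, 0, 0] = 1 ∨ f ![0, 1, 0] = 1 ∨ f ![0, 0, 1] = 1 := by
      by_contra hcon
      push Not at hcon
      apply hf
      apply LinearMap.ext
      intro x
      have h0 := (Core.f2_cases (f ![1, 0, 0])).resolve_right hcon.1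
      have h1 := (Core.f2_cases (f ![0, 1, 0])).resolve_right hcon.2.1
      have h2 := (Core.f2_cases (f ![0, 0, 1])).resolve_right hcon.2.2
      have hx : x = x 0 • ![1, 0, 0] + x 1 • ![0, 1, 0] + x 2 • ![0, 0, 1] := by
        ext i; fin_cases i <;> simp
      rw [hx, map_add, map_add, map_smul, map_smul, map_smul, h0, h1, h2]
      simp
    rcases hex with h | h | h
    · obtain ⟨a, b, h1, h2, h3, h4, h5⟩ := enum_aux f (x := ![0, 1, 0]) (y := ![0, 0, 1])
        (by decide) (by decide) (by decide) (by decide) (by decide) (by decide) h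
      exact ⟨a, b, _, h1, h2, h3, h4, h5, h⟩
    · obtain ⟨a, b, h1, h2, h3, h4, h5⟩ := enum_aux f (x := ![1, 0, 0]) (y := ![0, 0, 1])
        (by decide) (by decide) (by decide) (by decide) (by decide) (by decide) h
      exact ⟨a, b, _, h1, h2, h3, h4, h5, h⟩
    · obtain ⟨a, b, h1, h2, h3, h4, h5⟩ := enum_aux f (x := ![1, 0, 0]) (y := ![0, 1, 0])
        (by decide) (by decide) (by decide) (by decide) (by decide) (by decide) h
      exact ⟨a, b, _, h1, h2, h3, h4, h5, h⟩
  refine ⟨a, b, d, ha, hb, hab, fa, fb, fd, fun p hp fp => ?_⟩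
  have hd0 : d ≠ 0 := by
    rintro rfl
    rw [map_zero] at fd
    exact zero_ne_one fd
  have hda : d ≠ a := by
    rintro rfl
    rw [fa] at fd
    exact zero_ne_one fd
  have hdb : d ≠ b := by
    rintro rfl
    rw [fb] at fd
    exact zero_ne_one fd
  have hdab : d ≠ a + b := by
    rintro rfl
    rw [map_add, fa, fb, add_zero] at fd
    exact zero_ne_one fd
  rcases Core.seven_fin a b d p ha hb hab hd0 hda hdb hdab hp with
    rfl | rfl | rfl | rfl | rfl | rfl | rfl
  · exact Or.inl rfl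
  · exact Or.inr (Or.inl rfl)
  · rw [fd] at fp
    exact absurd fp one_ne_zero
  · exact Or.inr (Or.inr rfl)
  · rw [map_add, fa, fd, zero_add] at fp
    exact absurd fp one_ne_zero
  · rw [map_add, fb, fd, zero_add] at fp
    exact absurd fp one_ne_zero
  · rw [map_add, map_add, fa, fb, fd, zero_add, zero_add] at fp
    exact absurd fp one_ne_zero

/-- Three distinct vectors off a hyperplane are independent. -/
theorem indep3 (f : P →ₗ[F2] F2) (w : Fin 3 → P) (hw : Function.Injective w)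
    (h : ∀ i, f (w i) = 1) : LinearIndependent F2 w := by
  rw [Fintype.linearIndependent_iff]
  intro g hg
  rw [Fin.sum_univ_three] at hg
  have h1 : g 0 + g 1 + g 2 = 0 := by
    have := congrArg f hg
    simpa [h] using this
  have h01 : w 0 ≠ w 1 := fun h => absurd (hw h) (by decide)
  have h02 : w 0 ≠ w 2 := fun h => absurd (hw h) (by decide)
  have h12 : w 1 ≠ w 2 := fun h => absurd (hw h) (by decide)
  have hall : g 0 = 0 ∧ g 1 = 0 ∧ g 2 = 0 := by
    rcases Core.f2_cases (g 0) with e0 | e0 <;> rcases Core.f2_cases (g 1) with e1 | e1 <;>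
      rcases Core.f2_cases (g 2) with e2 | e2 <;> rw [e0, e1, e2] at h1 hg
    · exact ⟨e0, e1, e2⟩
    · exact absurd h1 (by decide)
    · exact absurd h1 (by decide)
    · rw [zero_smul, one_smul, one_smul, zero_add] at hg
      exact absurd (Core.f2_add_eq_zero.1 hg) h12
    · exact absurd h1 (by decide)
    · rw [zero_smul, one_smul, one_smul, add_zero] at hg
      exact absurd (Core.f2_add_eq_zero.1 hg) h02
    · rw [zero_smul, one_smul, one_smul, add_zero] at hg
      exact absurd (Core.f2_add_eq_zero.1 hg) h01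
    · exact absurd h1 (by decide)
  intro i
  fin_cases i
  · exact hall.1
  · exact hall.2.1
  · exact hall.2.2

theorem lp_inj {a b : P} (ha : a ≠ 0) (hb : b ≠ 0) (hab : a ≠ b) :
    Function.Injective ![a, b, a + b] := by
  have h1 : a ≠ a + b := fun h => hb (by
    have : a + 0 = a + b := by rw [add_zero]; exact h
    exact (add_left_cancel this).symm)
  have h2 : b ≠ a + b := fun h => ha (by
    have : 0 + b = a + b := by rw [zero_add]; exact h
    exact (add_right_cancel this).symm)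
  intro i j h
  fin_cases i <;> fin_cases j <;> simp at h <;> first | rfl | skip
  all_goals first | exact absurd h hab | exact absurd h.symm hab | exact absurd h hb | exact absurd h ha

theorem qp_inj {a b d : P} (ha : a ≠ 0) (hb : b ≠ 0) (hab : a ≠ b) :
    Function.Injective ![d, d + a, d + b, d + (a + b)] := by
  have hab0 : a + b ≠ 0 := fun h => hab (Core.f2_add_eq_zero.1 h)
  intro i j h
  fin_cases i <;> fin_cases j <;> simp at h <;> first | rfl | skip
  all_goals first | exact absurd h hab | exact absurd h.symm hab | exact absurd h hb |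
    exact absurd h ha | exact absurd h hab0

/-- An `F7`-configuration of a matroid with a valid circuit-hyperplane gives three rows and four
columns. -/
theorem exists_rows [N.Finite] {V : Type*} [AddCommGroup V] [Module F2 V] [Module.Finite F2 V]
    {v : α → V} {C : Set α} {z : P → α} (ctx : Core.Ctx N v Y)
    (hY : IsCircuitHyperplane N Y) (hc : F7Cfg v N.E C z) :
    ∃ (l : Fin 3 → α) (q : Fin 4 → α), (∀ i, l i ∈ Y) ∧ Function.Injective l ∧
      (∀ j, q j ∈ N.E \ Y) ∧ Function.Injective q ∧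
      ∀ j : Fin 4, N.IsBase ((Y \ range l) ∪ range (q ∘ j.succAbove)) := by
  have hYE : Y ⊆ N.E := hY.1.subset_ground
  have hCY : C ⊆ Y := fun e he => ctx.cfgC specNT hc he
  have hrest : ∀ e ∈ Y, e ∉ C → ∃ p, p ≠ 0 ∧ z p = e := by
    intro e he heC
    by_contra hcon
    push Not at hcon
    exact ctx.cfgD specNT hc heC hcon he
  have hv := ctx.rep
  have hvs := ctx.spanning
  obtain ⟨hCE, hzE, π, hker, hπ⟩ := hc
  obtain ⟨x₀, hx₀E, hx₀Y⟩ := hY.2.nonempty
  obtain ⟨y₀, hy₀⟩ := hY.1.nonempty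
  -- the functional of the hyperplane
  have hx₀ : v x₀ ∉ span F2 (v '' Y) := by
    rw [← hv.mem_closure_iff hYE hx₀E]
    exact fun h => hx₀Y (mem_of_mem_closure hY h)
  obtain ⟨lam, hlam, hle⟩ := Submodule.exists_le_ker_of_notMem hx₀
  have hlamY : ∀ y ∈ Y, lam (v y) = 0 := fun y hy => hle (subset_span ⟨y, hy, rfl⟩)
  have hlamX : ∀ x ∈ N.E, x ∉ Y → lam (v x) = 1 := by
    intro x hx hxY
    apply Core.f2_ne_zero
    intro h0
    have hb := ((hv.isBase_iff hvs).1 (exchange hY hy₀ hx hxY)).2.2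
    apply hlam
    rw [Core.eq_zero_of_span_eq_top hb lam, LinearMap.zero_apply]
    rintro _ ⟨e, he, rfl⟩
    rcases he with rfl | he
    · exact h0
    · exact hlamY e he.1
  have hsurj : Function.Surjective π := by
    intro p
    by_cases hp : p = 0
    · exact ⟨0, by rw [hp, map_zero]⟩
    · exact ⟨v (z p), hπ p hp⟩
  obtain ⟨s, hs⟩ := LinearMap.exists_rightInverse_of_surjective π (LinearMap.range_eq_top.2 hsurj)
  set f : P →ₗ[F2] F2 := lam ∘ₗ s with hf
  have hfs : ∀ u, lam u = f (π u) := by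
    intro u
    have h1 : u - s (π u) ∈ LinearMap.ker π := by
      rw [LinearMap.mem_ker, map_sub]
      have := LinearMap.congr_fun hs (π u)
      rw [LinearMap.comp_apply, LinearMap.id_apply] at this
      rw [this, sub_self]
    rw [hker] at h1
    have h2 : u - s (π u) ∈ LinearMap.ker lam := hle (span_mono (image_mono hCY) h1)
    rw [LinearMap.mem_ker, map_sub, sub_eq_zero] at h2
    exact h2
  have hf0 : f ≠ 0 := by
    intro h
    apply hlam
    rw [hfs, h, LinearMap.zero_apply]
  have hfz : ∀ p, p ≠ 0 → lam (v (z p)) = f p := fun p hp => by rw [hfs, hπ p hp]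
  have hzY : ∀ p, p ≠ 0 → (z p ∈ Y ↔ f p = 0) := by
    intro p hp
    constructor
    · intro h
      rw [← hfz p hp, hlamY _ h]
    · intro h
      by_contra hn
      have := hlamX _ (hzE p hp) hn
      rw [hfz p hp, h] at this
      exact zero_ne_one this
  have hzi : ∀ p q, p ≠ 0 → q ≠ 0 → z p = z q → p = q := by
    intro p q hp hq h
    rw [← hπ p hp, ← hπ q hq, h]
  have hπC : ∀ c ∈ C, π (v c) = 0 := by
    intro c hc
    have : v c ∈ LinearMap.ker π := by rw [hker]; exact subset_span ⟨c, hc, rfl⟩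
    exact this
  have hzC : ∀ p, p ≠ 0 → z p ∉ C := by
    intro p hp hc
    exact hp ((hπ p hp).symm.trans (hπC _ hc))
  obtain ⟨a, b, d, ha, hb, hab, fa, fb, fd, hall⟩ := enum f hf0
  have hab0 : a + b ≠ 0 := fun h => hab (Core.f2_add_eq_zero.1 h)
  have hl0 : ∀ i, (![a, b, a + b] : Fin 3 → P) i ≠ 0 := by
    intro i; fin_cases i
    exacts [ha, hb, hab0]
  have hlf : ∀ i, f ((![a, b, a + b] : Fin 3 → P) i) = 0 := by
    intro i; fin_cases i
    exacts [fa, fb, by simp [fa, fb]]
  have hqf : ∀ i, f ((![d, d + a, d + b, d + (a + b)] : Fin 4 → P) i) = 1 := by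
    intro i; fin_cases i
    exacts [fd, by simp [fa, fd], by simp [fb, fd], by simp [fa, fb, fd]]
  have hq0 : ∀ i, (![d, d + a, d + b, d + (a + b)] : Fin 4 → P) i ≠ 0 := by
    intro i h
    have := hqf i
    rw [h, map_zero] at this
    exact zero_ne_one this
  have hlinj := lp_inj ha hb hab
  have hqinj := qp_inj (d := d) ha hb hab
  set lp : Fin 3 → P := ![a, b, a + b] with hlp
  set qp : Fin 4 → P := ![d, d + a, d + b, d + (a + b)] with hqp
  have hzl : Function.Injective (z ∘ lp) := fun i j h => hlinj (hzi _ _ (hl0 i) (hl0 j) h)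
  have hzq : Function.Injective (z ∘ qp) := fun i j h => hqinj (hzi _ _ (hq0 i) (hq0 j) h)
  have hCeq : Y \ range (z ∘ lp) = C := by
    ext e
    constructor
    · rintro ⟨he, hn⟩
      by_contra heC
      obtain ⟨p, hp, rfl⟩ := hrest e he heC
      apply hn
      rcases hall p hp ((hzY p hp).1 he) with rfl | rfl | rfl
      · exact ⟨0, rfl⟩
      · exact ⟨1, rfl⟩
      · exact ⟨2, rfl⟩
    · intro he
      refine ⟨hCY he, ?_⟩
      rintro ⟨i, rfl⟩
      exact hzC _ (hl0 i) he
  have hlY : ∀ i, (z ∘ lp) i ∈ Y := fun i => (hzY _ (hl0 i)).2 (hlf i)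
  have hqX : ∀ i, (z ∘ qp) i ∈ N.E \ Y := by
    intro i
    refine ⟨hzE _ (hq0 i), fun h => ?_⟩
    have := (hzY _ (hq0 i)).1 h
    rw [hqf i] at this
    exact one_ne_zero this
  have hCind : N.Indep C := by
    rw [← hCeq]
    apply (hY.1.sdiff_singleton_indep (hlY 0)).subset
    rintro x ⟨hx, hx2⟩
    exact ⟨hx, fun h => hx2 ⟨0, h.symm⟩⟩
  have hYf : Y.Finite := N.ground_finite.subset hYE
  have hCf : C.Finite := hYf.subset hCY
  refine ⟨z ∘ lp, z ∘ qp, hlY, hzl, hqX, hzq, fun j => ?_⟩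
  rw [hCeq, isBase_iff_of_ch hY]
  have hinj2 : Function.Injective ((z ∘ qp) ∘ j.succAbove) :=
    hzq.comp Fin.succAbove_right_injective
  have hdisj : Disjoint C (range ((z ∘ qp) ∘ j.succAbove)) := by
    rw [Set.disjoint_right]
    rintro _ ⟨i, rfl⟩
    exact hzC _ (hq0 _)
  constructor
  · rw [hv _ (union_subset hCE (by
      rintro _ ⟨i, rfl⟩
      exact (hqX _).1)),
      Graphic.indepOn_union_iff_of_ker (hv.linearIndepOn hCind) hdisj π hker]
    have h3 := indep3 f (qp ∘ j.succAbove) (hqinj.comp Fin.succAbove_right_injective)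
      (fun i => hqf _)
    have h4 : LinearIndependent F2 (fun i => (π ∘ v) (((z ∘ qp) ∘ j.succAbove) i)) := by
      rw [show (fun i => (π ∘ v) (((z ∘ qp) ∘ j.succAbove) i)) = qp ∘ j.succAbove from
        funext fun i => hπ _ (hq0 _)]
      exact h3
    exact (linearIndepOn_range_iff hinj2 _).2 h4
  · rw [ncard_union_eq hdisj hCf (finite_range _)]
    have h1 : Y.ncard = C.ncard + (range (z ∘ lp)).ncard := by
      rw [← ncard_union_eq _ hCf (finite_range _)]
      · congr 1
        rw [← hCeq, sdiff_union_self]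
        exact (union_eq_self_of_subset_right (by rintro _ ⟨i, rfl⟩; exact hlY i)).symm
      · rw [← hCeq]
        exact disjoint_sdiff_left
    rw [h1]
    congr 1
    rw [← Set.image_univ, Set.ncard_image_of_injective _ hinj2, ← Set.image_univ,
      Set.ncard_image_of_injective _ hzl]

/-! ### Minors of `W` and bases of `M` -/

open Classical in
theorem pmVec_self (W : α → α → ℤ) (y : Y) : pmVec Y W (y : α) = Pi.single y 1 := by
  funext y'
  simp only [pmVec, Subtype.coe_prop, if_true, Pi.single_apply]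
  by_cases h : y' = y
  · subst h; simp
  · rw [if_neg h, if_neg]
    intro h'
    exact h (Subtype.ext h'.symm)

theorem pmVec_out (W : α → α → ℤ) {x : α} (hx : x ∉ Y) (y : Y) : pmVec Y W x y = (W y x : ℚ) := by
  simp [pmVec, hx]

theorem pm_indep (hY : Y.Finite) (W : α → α → ℤ) : LinearIndepOn ℚ (pmVec Y W) Y := by
  classical
  have : Fintype Y := hY.fintype
  have h : (fun y : Y => pmVec Y W (y : α)) = ⇑(Pi.basisFun ℚ Y) := by
    funext y
    rw [pmVec_self, Pi.basisFun_apply]
  rw [LinearIndepOn, h]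
  exact (Pi.basisFun ℚ Y).linearIndependent

theorem pm_span (hY : Y.Finite) (W : α → α → ℤ) : span ℚ (pmVec Y W '' Y) = ⊤ := by
  classical
  have : Fintype Y := hY.fintype
  have h : (fun y : Y => pmVec Y W (y : α)) = ⇑(Pi.basisFun ℚ Y) := by
    funext y
    rw [pmVec_self, Pi.basisFun_apply]
  rw [image_eq_range, h]
  exact (Pi.basisFun ℚ Y).span_eq

theorem pm_isBase [M.Finite] {W : α → α → ℤ} (hM : IsPMMatroid M Y W) : M.IsBase Y := by
  have hYf : Y.Finite := M.ground_finite.subset hM.1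
  have hs : span ℚ (pmVec Y W '' M.E) = ⊤ := by
    rw [eq_top_iff, ← pm_span hYf W]
    exact span_mono (image_mono hM.1)
  rw [hM.2.2.2.2.isBase_iff hs]
  exact ⟨hM.1, pm_indep hYf W, pm_span hYf W⟩

/-- Exchanges and minors. -/
theorem isBase_iff_det [M.Finite] {W : α → α → ℤ} (hM : IsPMMatroid M Y W) {k : ℕ}
    (f g : Fin k → α) (hf : ∀ i, f i ∈ Y) (hg : ∀ j, g j ∈ M.E \ Y) (hfi : Function.Injective f)
    (hgi : Function.Injective g) :
    M.IsBase ((Y \ range f) ∪ range g) ↔ (Matrix.of fun a b => W (f a) (g b)).det ≠ 0 := by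
  classical
  have hYf : Y.Finite := M.ground_finite.subset hM.1
  have : Fintype Y := hYf.fintype
  have hv := hM.2.2.2.2
  have hYeq : (Y \ range f) ∪ range f = Y := by
    rw [sdiff_union_self]
    exact union_eq_self_of_subset_right (by rintro _ ⟨i, rfl⟩; exact hf i)
  have hd1 : Disjoint (Y \ range f) (range f) := disjoint_sdiff_left
  have hd2 : Disjoint (Y \ range f) (range g) := by
    rw [Set.disjoint_right]
    rintro _ ⟨i, rfl⟩ h
    exact (hg i).2 h.1
  have hRf : (Y \ range f).Finite := hYf.subset sdiff_subset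
  have hcard : ((Y \ range f) ∪ range g).ncard = Y.ncard := by
    rw [ncard_union_eq hd2 hRf (finite_range _)]
    conv_rhs => rw [← hYeq]
    rw [ncard_union_eq hd1 hRf (finite_range _)]
    congr 1
    rw [← Set.image_univ, Set.ncard_image_of_injective _ hgi, ← Set.image_univ,
      Set.ncard_image_of_injective _ hfi]
  rw [isBase_iff_card (pm_isBase hM), and_iff_left hcard, hv _ (union_subset
    (sdiff_subset.trans hM.1) (by rintro _ ⟨i, rfl⟩; exact (hg i).1))]
  have hkey := MINOR.vec_iff (v := pmVec Y W) (R := Y \ range f) hfi hgi hd1 hd2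
    (by rw [hYeq]; exact pm_indep hYf W) (Matrix.of fun a b => (W (f a) (g b) : ℚ)) (by
      intro j
      set x : Y → ℚ := pmVec Y W (g j) -
        ∑ i, (Matrix.of fun a b => (W (f a) (g b) : ℚ)) i j • pmVec Y W (f i) with hx
      have hxs : x = ∑ y : Y, x y • pmVec Y W (y : α) := by
        funext y
        rw [Finset.sum_apply, Finset.sum_eq_single y]
        · rw [Pi.smul_apply, pmVec_self, Pi.single_eq_same, smul_eq_mul, mul_one]
        · intro b _ hby
          rw [Pi.smul_apply, pmVec_self, Pi.single_eq_of_ne hby.symm, smul_zero]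
        · intro h
          exact absurd (Finset.mem_univ _) h
      have hx0 : ∀ y : Y, (y : α) ∈ range f → x y = 0 := by
        rintro ⟨y, hy⟩ ⟨i, rfl⟩
        rw [hx, Pi.sub_apply, pmVec_out W (hg j).2, Finset.sum_apply, Finset.sum_eq_single i]
        · rw [Pi.smul_apply, pmVec_self W ⟨f i, hy⟩, Pi.single_eq_same, smul_eq_mul, mul_one,
            Matrix.of_apply, sub_self]
        · intro b _ hbi
          rw [Pi.smul_apply, pmVec_self W ⟨f b, hf b⟩, Pi.single_eq_of_ne, smul_zero]
          intro h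
          exact hbi (hfi (congrArg Subtype.val h)).symm
        · intro h
          exact absurd (Finset.mem_univ _) h
      rw [hxs]
      refine Submodule.sum_mem _ fun y _ => ?_
      by_cases hy : (y : α) ∈ range f
      · rw [hx0 y hy, zero_smul]
        exact zero_mem _
      · exact smul_mem _ _ (subset_span ⟨y, ⟨y.2, hy⟩, rfl⟩))
  rw [hkey]
  have hdet : (Matrix.of fun a b => (W (f a) (g b) : ℚ)).det =
      (((Matrix.of fun a b => W (f a) (g b)).det : ℤ) : ℚ) := by
    have := (Int.castRingHom ℚ).map_det (Matrix.of fun a b => W (f a) (g b))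
    rw [eq_intCast] at this
    rw [this]
    rfl
  rw [hdet, Ne, Int.cast_eq_zero]

theorem compl_eq {E Y R S : Set α} (hY : Y ⊆ E) (hR : R ⊆ Y) (hS : S ⊆ E \ Y) :
    E \ (((E \ Y) \ S) ∪ R) = (Y \ R) ∪ S := by
  ext e
  simp only [mem_sdiff, mem_union, not_or, not_and, not_not]
  constructor
  · rintro ⟨he, h1, h2⟩
    by_cases heY : e ∈ Y
    · exact Or.inl ⟨heY, h2⟩
    · exact Or.inr (h1 ⟨he, heY⟩)
  · rintro (⟨h1, h2⟩ | h)
    · exact ⟨hY h1, fun h3 => absurd h1 h3.2, h2⟩
    · exact ⟨(hS h).1, fun _ => h, fun h3 => (hS h).2 (hR h3)⟩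

end FANOSUB

open FANOSUB in
/-- FANOSUB. -/
theorem specFanoSub (hPMB : SpecPMB.{u}) : SpecFanoSub.{u} := by
  intro α N _ Y W hT
  obtain ⟨M, hM, hrel, hnb⟩ := hT
  have hMf : M.Finite := ⟨by rw [hrel.1]; exact N.ground_finite⟩
  obtain ⟨hbin, hCH, htern⟩ := hPMB α N M Y W hM hrel hnb
  have hreg := specRelax specTutte specNT specDual α N M Y hbin hCH hrel htern
  have hYE : Y ⊆ N.E := hCH.1.subset_ground
  have hE : M.E = N.E := hrel.1
  obtain ⟨n, v, hv, hvs⟩ := hbin.exists_spanning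
  obtain ⟨n', v', hv', hvs'⟩ := (specDual α F2 N hbin).exists_spanning
  -- the dual circuit-hyperplane
  have hCH' : IsCircuitHyperplane N✶ (N.E \ Y) := by
    refine ⟨hCH.2, ?_⟩
    have h1 : N✶.E \ (N.E \ Y) = Y := by
      rw [Matroid.dual_ground, sdiff_sdiff_cancel_left hYE]
    rw [h1, Matroid.dual_isCocircuit_iff]
    exact hCH.1
  have hset : N.E \ (N.E \ Y) = Y := sdiff_sdiff_cancel_left hYE
  rw [isRegular_iff_ternary hbin]
  constructor
  · intro hnt
    rcases specTutte α N F3 hbin hnt with h | h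
    · left
      obtain ⟨C, z, hc⟩ := h.exists_cfg hv hvs
      obtain ⟨l, q, hl, hli, hq, hqi, hb⟩ := exists_rows (Y := Y) ⟨hv, hvs,
        fun y hy => (hreg.1 y hy).1 F3, fun x hx hxY => (hreg.2 x ⟨hx, hxY⟩).1 F3⟩ hCH hc
      refine ⟨l, q, hl, hq, fun j => ?_⟩
      have h1 := (hrel.2 _).2 (Or.inl (hb j))
      exact (isBase_iff_det hM l (q ∘ j.succAbove) hl (fun i => hE ▸ hq _) hli
        (hqi.comp Fin.succAbove_right_injective)).1 h1
    · right
      obtain ⟨C, z, hc⟩ := h.exists_cfg hv' hvs'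
      obtain ⟨l, q, hl, hli, hq, hqi, hb⟩ := exists_rows (N := N✶) (Y := N.E \ Y) ⟨hv', hvs',
        fun x hx => by
          rw [← Matroid.dual_contract]
          exact specDual α F3 _ ((hreg.2 x hx).1 F3),
        fun y hy hyY => by
          have hyY' : y ∈ Y := by
            by_contra hcon
            exact hyY ⟨hy, hcon⟩
          rw [← Matroid.dual_delete]
          exact specDual α F3 _ ((hreg.1 y hyY').1 F3)⟩ hCH' hc
      have hq' : ∀ j, q j ∈ Y := by
        intro j
        have h2 := (hq j).2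
        by_contra hcon
        exact h2 ⟨(hq j).1, hcon⟩
      refine ⟨q, l, hq', hl, fun j => ?_⟩
      have h1 := (hb j).compl_isBase_dual
      rw [Matroid.dual_dual, Matroid.dual_ground, compl_eq hYE (by
        rintro _ ⟨i, rfl⟩; exact hq' _) (by rintro _ ⟨i, rfl⟩; exact hl i)] at h1
      exact (isBase_iff_det hM (q ∘ j.succAbove) l (fun i => hq' _) (fun i => hE ▸ hl i)
        (hqi.comp Fin.succAbove_right_injective) hli).1 ((hrel.2 _).2 (Or.inl h1))
  · rintro (⟨f, g, hf, hg, hd⟩ | ⟨f, g, hf, hg, hd⟩) hrep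
    · have hfi : Function.Injective f := by
        intro i j hij
        by_contra hne
        exact hd 0 (Matrix.det_zero_of_row_eq hne (by funext b; simp [hij]))
      have hgi : Function.Injective g := by
        intro i j hij
        by_contra hne
        obtain ⟨k, a, b, ha, hb⟩ := exists_third4 i j hne
        have hab : a ≠ b := by rintro rfl; exact hne (ha.symm.trans hb)
        refine hd k (Matrix.det_zero_of_column_eq hab (fun c => ?_))
        simp only [Matrix.of_apply, ha, hb, hij]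
      obtain ⟨z, hz⟩ := exists_cfg hv hvs hCH f g hf hfi hg hgi (fun j => by
        have h1 := (isBase_iff_det hM f (g ∘ j.succAbove) hf (fun i => hE ▸ hg _) hfi
          (hgi.comp Fin.succAbove_right_injective)).2 (hd j)
        refine ((hrel.2 _).1 h1).resolve_right fun h2 => (hg (j.succAbove 0)).2 ?_
        rw [← h2]
        exact Or.inr ⟨0, rfl⟩)
      exact specNT α N n v _ z hv hz hrep
    · have hgi : Function.Injective g := by
        intro i j hij
        by_contra hne
        exact hd 0 (Matrix.det_zero_of_column_eq hne (by intro b; simp [hij]))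
      have hfi : Function.Injective f := by
        intro i j hij
        by_contra hne
        obtain ⟨k, a, b, ha, hb⟩ := exists_third4 i j hne
        have hab : a ≠ b := by rintro rfl; exact hne (ha.symm.trans hb)
        refine hd k (Matrix.det_zero_of_row_eq hab (by
          funext c
          simp only [Matrix.of_apply, ha, hb, hij]))
      obtain ⟨z, hz⟩ := exists_cfg (N := N✶) (Y := N.E \ Y) hv' hvs' hCH' g f hg hgi (fun j => by
        rw [Matroid.dual_ground, hset]; exact hf j) hfi (fun j => by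
        have h1 := (isBase_iff_det hM (f ∘ j.succAbove) g (fun i => hf _) (fun i => hE ▸ hg _)
          (hfi.comp Fin.succAbove_right_injective) hgi).2 (hd j)
        have h2 : N.IsBase ((Y \ range (f ∘ j.succAbove)) ∪ range g) := by
          refine ((hrel.2 _).1 h1).resolve_right fun h2 => (hg 0).2 ?_
          rw [← h2]
          exact Or.inr ⟨0, rfl⟩
        have h3 := h2.compl_isBase_dual
        have h4 := compl_eq (E := N.E) (Y := N.E \ Y) (R := range g) (S := range (f ∘ j.succAbove))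
          sdiff_subset (by rintro _ ⟨i, rfl⟩; exact hg i)
          (by rw [hset]; rintro _ ⟨i, rfl⟩; exact hf _)
        rw [hset] at h4
        rwa [h4] at h3)
      exact specNT α N✶ n' v' _ z hv' hz (specDual α F3 N hrep)

end MP948082
end

section
/-!
# MP_948082_co : the classification
-/
open Set

namespace MP948082

universe u

/-- The simple cosimple members of the class of all non-regular matroids such that every element has a
regular deletion or contraction. -/
def Basic {α : Type u} (M : Matroid α) : Prop :=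
  IsU2 M ∨ IsU2 M✶ ∨ IsTripleFan 2 M ∨ (∃ Y W, IsPMMatroid M Y W) ∨
    (∃ Y W, IsTightened M Y W ∧ HasFano Y (M.E \ Y) W)

/-- The list of the simple cosimple exactly-one-regular matroids. -/
def IsEORType {α : Type u} (M : Matroid α) : Prop :=
  IsU2 M ∨ IsU2 M✶ ∨ IsTripleFan 2 M ∨ (5 ≤ M.E.encard ∧ ∃ Y W, IsPMMatroid M Y W) ∨
    (∃ Y W, IsTightened M Y W ∧ (∀ y ∈ Y, HasFano (Y \ {y}) (M.E \ Y) W) ∧
      (∀ x ∈ M.E \ Y, HasFano Y ((M.E \ Y) \ {x}) W))

theorem u2_not_binary {α : Type u} {M : Matroid α} (h4 : 4 ≤ M.E.encard)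
    (h : ∀ I ⊆ M.E, (M.Indep I ↔ I.encard ≤ 2)) : ¬ Representable F2 M := by
  obtain ⟨Z, hZE, hZ⟩ := Set.exists_subset_encard_eq h4
  have hZn : Z.ncard = 4 := by
    rw [Set.ncard_def, hZ]
    rfl
  have hcfg : LCfg M ∅ Z := by
    refine ⟨hZn, empty_disjoint _, fun p hp q hq hpq => ?_, fun p hp q hq s hs h1 h2 h3 => ?_⟩
    · rw [empty_union, h _ (by rintro a (rfl | rfl); exacts [hZE hp, hZE hq]), encard_pair hpq]
    · rw [empty_union, h _ (by
        rintro a (rfl | rfl | rfl)
        exacts [hZE hp, hZE hq, hZE hs])]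
      intro hc
      have e1 : ({p, q, s} : Set α).encard = 3 := by
        rw [encard_insert_of_notMem (by simp [h1, h2]), encard_pair h3]
        rfl
      rw [e1] at hc
      exact absurd hc (by decide)
  exact hcfg.not_binary

/-- Matroids with two PM representations are equal. -/
theorem pm_unique {α : Type u} {M M' : Matroid α} {Y : Set α} {W : α → α → ℤ}
    (h : IsPMMatroid M Y W) (h' : IsPMMatroid M' Y W) (hE : M.E = M'.E) : M = M' := by
  refine Matroid.ext_indep hE fun I hI => ?_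
  rw [h.2.2.2.2 I hI, h'.2.2.2.2 I (hE ▸ hI)]

/-- The partner of a PM matroid. -/
theorem pm_partner {α : Type u} {M : Matroid α} [M.Finite] {Y : Set α} {W : α → α → ℤ}
    (h : IsPMMatroid M Y W) : ∃ N : Matroid α, N.Finite ∧ IsRelaxation M N Y ∧ ¬ N.IsBase Y ∧
      Representable F2 N ∧ IsCircuitHyperplane N Y ∧ Representable F3 M := by
  have hYf : Y.Finite := M.ground_finite.subset h.1
  obtain ⟨M', N, hE, hM', hr, hY⟩ := specPMExists α Y (M.E \ Y) W hYf
    (M.ground_finite.subset sdiff_subset) disjoint_sdiff_right h.2.1 h.2.2.1 h.2.2.2.1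
  rw [union_sdiff_cancel h.1] at hE
  have heq : M' = M := pm_unique hM' h hE
  subst heq
  have hNf : N.Finite := ⟨by rw [← hr.1]; exact M'.ground_finite⟩
  have := specPMB α N M' Y W h hr hY
  exact ⟨N, hNf, hr, hY, this.1, this.2.1, this.2.2⟩

theorem hFS : SpecFanoSub.{u} := specFanoSub specPMB

theorem hRem : SpecPMRemove.{u} := specPMRemove hFS specPMB specRelax'

theorem hNB : SpecPMNonBin.{u} := specPMNonBin specRelax'

theorem basic_iff {α : Type u} (M : Matroid α) [M.Finite] (h1 : IsSimple M) (h2 : IsSimple M✶) :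
    AtLeastOneRegular M ↔ Basic M := by
  constructor
  · intro hK
    by_cases hb : Representable F2 M
    · rcases (binary_iff M hb h1 h2).1 hK with ⟨hr, -, Y, N, hY, hN, h3⟩ | h
      · have hNf : N.Finite := ⟨by rw [hN.1]; exact M.ground_finite⟩
        obtain ⟨W, hW⟩ := specPMA α M N Y hb hY hN h3
        have ht : IsTightened M Y W :=
          ⟨N, hW, hN, fun hc => hY.1.not_indep hc.indep⟩
        exact Or.inr (Or.inr (Or.inr (Or.inr ⟨Y, W, ht, (hFS α M Y W ht).1 hr⟩)))
      · exact Or.inr (Or.inr (Or.inl h))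
    · rcases (specNonBinary α M hb h1 h2).1 hK with h | h | ⟨Y, N, hY, hr, hN2, hM3⟩
      · exact Or.inl h
      · exact Or.inr (Or.inl h)
      · have hNf : N.Finite := ⟨by rw [← hr.1]; exact M.ground_finite⟩
        obtain ⟨W, hW⟩ := specPMA α N M Y hN2 hY hr hM3
        exact Or.inr (Or.inr (Or.inr (Or.inl ⟨Y, W, hW⟩)))
  · rintro (h | h | h | ⟨Y, W, h⟩ | ⟨Y, W, h, hF⟩)
    · exact (specNonBinary α M (u2_not_binary (le_trans (by decide) h.1) h.2) h1 h2).2 (Or.inl h)
    · have hb : ¬ Representable F2 M := fun hc =>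
        u2_not_binary (le_trans (by decide) h.1) h.2 (specDual α F2 M hc)
      exact (specNonBinary α M hb h1 h2).2 (Or.inr (Or.inl h))
    · have h3 := (specFanEOR α M h).2.2
      exact ⟨h3.1, fun e he => (h3.2 e he).or⟩
    · obtain ⟨N, hNf, hr, hY, hN2, hCH, hM3⟩ := pm_partner h
      exact (specNonBinary α M (hNB α M Y W h h1 h2).1 h1 h2).2
        (Or.inr (Or.inr ⟨Y, N, hCH, hr, hN2, hM3⟩))
    · obtain ⟨M', hM', hr, hY⟩ := h
      have hb := specPMB α M M' Y W hM' hr hY
      refine (binary_iff M hb.1 h1 h2).2 (Or.inl ⟨?_, hb.1, Y, M', hb.2.1, hr, hb.2.2⟩)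
      exact (hFS α M Y W ⟨M', hM', hr, hY⟩).2 hF

theorem u2_eor {α : Type u} (M : Matroid α) [M.Finite] (h : IsU2 M) : ExactlyOneRegular M := by
  refine ⟨fun hc => u2_not_binary (le_trans (by decide) h.1) h.2 (hc F2), fun e he => ?_⟩
  refine Or.inr ⟨regular_contract_of_uniform2 h.2 he, fun hc => ?_⟩
  refine u2_not_binary (M := M.delete {e}) ?_ (fun I hI => ?_) (hc F2)
  · rw [Matroid.delete_ground, encard_sdiff_singleton_of_mem he]
    have : (4 : ℕ∞) = 5 - 1 := by decide
    rw [this]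
    exact tsub_le_tsub_right h.1 1
  · rw [Matroid.delete_ground] at hI
    rw [Matroid.delete_indep_iff, and_iff_left (disjoint_of_subset_left hI disjoint_sdiff_left)]
    exact h.2 I (hI.trans sdiff_subset)

theorem eor_of_dual {α : Type u} (M : Matroid α) [M.Finite] (h : ExactlyOneRegular M✶) :
    ExactlyOneRegular M := by
  refine ⟨fun hc => h.1 (regular_dual specDual hc), fun e he => ?_⟩
  have := h.2 e he
  rw [regular_delete_dual specDual, regular_contract_dual specDual] at this
  rw [_root_.xor_comm] at this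
  exact this

theorem eor_iff {α : Type u} (M : Matroid α) [M.Finite] (h1 : IsSimple M) (h2 : IsSimple M✶) :
    ExactlyOneRegular M ↔ IsEORType M := by
  constructor
  · intro h
    have hK : AtLeastOneRegular M := ⟨h.1, fun e he => (h.2 e he).or⟩
    rcases (basic_iff M h1 h2).1 hK with h' | h' | h' | ⟨Y, W, h'⟩ | ⟨Y, W, h', hF⟩
    · exact Or.inl h'
    · exact Or.inr (Or.inl h')
    · exact Or.inr (Or.inr (Or.inl h'))
    · exact Or.inr (Or.inr (Or.inr (Or.inl ⟨(hNB α M Y W h' h1 h2).2.1 h, Y, W, h'⟩)))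
    · refine Or.inr (Or.inr (Or.inr (Or.inr ⟨Y, W, h', fun y hy => ?_, fun x hx => ?_⟩)))
      · obtain ⟨M', hM', hr, hY⟩ := id h'
        have hb := specPMB α M M' Y W hM' hr hY
        have hreg := ((specRelax' α M M' Y hb.1 hb.2.1 hr hb.2.2).1 y hy).1
        rw [← (hRem α M Y W h').1 y hy]
        intro hc
        rcases h.2 y (hb.2.1.1.subset_ground hy) with ⟨-, h3⟩ | ⟨-, h3⟩
        · exact h3 hc
        · exact h3 hreg
      · obtain ⟨M', hM', hr, hY⟩ := id h'
        have hb := specPMB α M M' Y W hM' hr hY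
        have hreg := ((specRelax' α M M' Y hb.1 hb.2.1 hr hb.2.2).2 x hx).1
        rw [← (hRem α M Y W h').2 x hx]
        intro hc
        rcases h.2 x hx.1 with ⟨-, h3⟩ | ⟨-, h3⟩
        · exact h3 hreg
        · exact h3 hc
  · rintro (h | h | h | ⟨h5, Y, W, h⟩ | ⟨Y, W, h, hFy, hFx⟩)
    · exact u2_eor M h
    · exact eor_of_dual M (u2_eor M✶ h)
    · exact (specFanEOR α M h).2.2
    · exact (hNB α M Y W h h1 h2).2.2 h5
    · obtain ⟨M', hM', hr, hY⟩ := id h
      have hb := specPMB α M M' Y W hM' hr hY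
      have hreg := specRelax' α M M' Y hb.1 hb.2.1 hr hb.2.2
      have hnr : ¬ IsRegular M := by
        intro hc
        obtain ⟨y, hy⟩ := hb.2.1.1.nonempty
        exact (((hRem α M Y W h).1 y hy).2 (hFy y hy)) (hc.contract _)
      refine ⟨hnr, fun e he => ?_⟩
      by_cases heY : e ∈ Y
      · exact Or.inl ⟨(hreg.1 e heY).1, ((hRem α M Y W h).1 e heY).2 (hFy e heY)⟩
      · exact Or.inr ⟨(hreg.2 e ⟨he, heY⟩).1, ((hRem α M Y W h).2 e ⟨he, heY⟩).2 (hFx e ⟨he, heY⟩)⟩

theorem eor_extension {α : Type u} (M : Matroid α) [M.Finite] :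
    ExactlyOneRegular M ↔ ∃ M₀ C D, IsRegularExtension M M₀ C D ∧ IsSimple M₀ ∧ IsSimple M₀✶ ∧
      Basic M₀ ∧ ∀ e ∈ M₀.E, IsRegular (M₀.delete {e}) → IsRegular (M₀.contract {e}) →
        (∃ d ∈ D, IsParallel M d e) ∨ (∃ c ∈ C, IsSeries M c e) := by
  rw [((specSP specDual) α M).2]
  constructor
  · rintro ⟨M₀, C, D, h, h1, h2, hK, h3⟩
    have hf : M₀.Finite := h.finite
    exact ⟨M₀, C, D, h, h1, h2, (basic_iff M₀ h1 h2).1 hK, h3⟩
  · rintro ⟨M₀, C, D, h, h1, h2, hK, h3⟩
    have hf : M₀.Finite := h.finite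
    exact ⟨M₀, C, D, h, h1, h2, (basic_iff M₀ h1 h2).2 hK, h3⟩

end MP948082
end

section
/-!
# MP_948082_co : the classification with explicit labels
-/
open Set

namespace MP948082

universe u

/-- The labels: deletion and contraction regular. -/
def LabelsOK {α : Type u} (M : Matroid α) (A B : Set α) : Prop :=
  A ⊆ M.E ∧ B ⊆ M.E ∧ ∀ e ∈ M.E, (e ∈ A ↔ IsRegular (M.delete {e})) ∧
    (e ∈ B ↔ IsRegular (M.contract {e}))

theorem LabelsOK.dual {α : Type u} {M : Matroid α} [M.Finite] {A B : Set α}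
    (h : LabelsOK M✶ A B) : LabelsOK M B A := by
  refine ⟨h.2.1, h.1, fun e he => ?_⟩
  have := h.2.2 e he
  rw [regular_delete_dual specDual, regular_contract_dual specDual] at this
  exact ⟨this.2, this.1⟩

theorem labels_line {α : Type u} {M : Matroid α} [M.Finite] (h : IsLine M)
    (h5 : 5 ≤ M.E.encard) : LabelsOK M ∅ M.E := by
  refine ⟨empty_subset _, subset_rfl, fun e he => ⟨?_, ?_⟩⟩
  · refine iff_of_false (fun hc => hc) fun hc => ?_
    rcases (u2_eor M ⟨h5, h⟩).2 e he with ⟨-, h2⟩ | ⟨-, h2⟩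
    · exact h2 (regular_contract_of_uniform2 h he)
    · exact h2 hc
  · exact iff_of_true he (regular_contract_of_uniform2 h he)

/-- the dual of `U_{2,4}` -/
theorem line_dual {α : Type u} {M : Matroid α} [M.Finite] (h : IsLine M)
    (h4 : M.E.encard = 4) : IsLine M✶ := by
  have hf := M.ground_finite
  have hn : M.E.ncard = 4 := by
    rw [Set.ncard_def, h4]; rfl
  have key : ∀ I ⊆ M.E, I.encard + (M.E \ I).encard = 4 := by
    intro I hI
    rw [add_comm, ← h4, Set.encard_sdiff_add_encard_of_subset hI]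
  have hbase : ∀ B ⊆ M.E, (M.IsBase B ↔ B.encard = 2) := by
    obtain ⟨a, b, hab, hsub⟩ : ∃ a b, a ≠ b ∧ ({a, b} : Set α) ⊆ M.E := by
      obtain ⟨Z, hZ, hZ2⟩ := Set.exists_subset_encard_eq (s := M.E) (k := 2) (by rw [h4]; decide)
      obtain ⟨a, b, hab, rfl⟩ := Set.encard_eq_two.1 hZ2
      exact ⟨a, b, hab, hZ⟩
    have hI : M.Indep {a, b} := (h _ hsub).2 (by rw [encard_pair hab])
    obtain ⟨B₀, hB₀, hsubB⟩ := hI.exists_isBase_superset
    have hle : B₀.encard ≤ 2 := (h _ hB₀.subset_ground).1 hB₀.indep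
    have hge : 2 ≤ B₀.encard := by rw [← encard_pair hab]; exact encard_le_encard hsubB
    have h0 : B₀.encard = 2 := le_antisymm hle hge
    have h0n : B₀.ncard = 2 := by rw [Set.ncard_def, h0]; rfl
    intro B hB
    have hBf : B.Finite := hf.subset hB
    rw [isBase_iff_card hB₀, h _ hB, h0n, ← hBf.cast_ncard_eq]
    constructor
    · rintro ⟨-, h2⟩
      rw [h2]; rfl
    · intro h2
      have h3 : B.ncard = 2 := by exact_mod_cast h2
      exact ⟨h2.le, h3⟩
  intro I hI
  rw [Matroid.dual_ground] at hI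
  rw [Matroid.dual_indep_iff_exists hI]
  constructor
  · rintro ⟨B, hB, hd⟩
    have h1 : B ⊆ M.E \ I := subset_sdiff.2 ⟨hB.subset_ground, hd.symm⟩
    have h2 : 2 ≤ (M.E \ I).encard := by
      rw [← (hbase B hB.subset_ground).1 hB]; exact encard_le_encard h1
    have h3 := key I hI
    have hIf := hf.subset hI
    have hIf' := hf.subset (sdiff_subset : M.E \ I ⊆ M.E)
    rw [← hIf.cast_ncard_eq, ← hIf'.cast_ncard_eq] at h3
    rw [← hIf'.cast_ncard_eq] at h2
    rw [← hIf.cast_ncard_eq]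
    have h3' : I.ncard + (M.E \ I).ncard = 4 := by exact_mod_cast h3
    have h2' : 2 ≤ (M.E \ I).ncard := by exact_mod_cast h2
    have : I.ncard ≤ 2 := by omega
    exact_mod_cast this
  · intro hI2
    have h3 := key I hI
    have hIf := hf.subset hI
    have hIf' := hf.subset (sdiff_subset : M.E \ I ⊆ M.E)
    rw [← hIf.cast_ncard_eq, ← hIf'.cast_ncard_eq] at h3
    rw [← hIf.cast_ncard_eq] at hI2
    have h3' : I.ncard + (M.E \ I).ncard = 4 := by exact_mod_cast h3
    have h2' : I.ncard ≤ 2 := by exact_mod_cast hI2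
    have h5 : 2 ≤ (M.E \ I).encard := by
      rw [← hIf'.cast_ncard_eq]
      have : 2 ≤ (M.E \ I).ncard := by omega
      exact_mod_cast this
    obtain ⟨B, hB, hB2⟩ := Set.exists_subset_encard_eq h5
    refine ⟨B, (hbase B (hB.trans sdiff_subset)).2 hB2, ?_⟩
    exact (disjoint_of_subset_left hB disjoint_sdiff_left).symm

theorem labels_u24 {α : Type u} {M : Matroid α} [M.Finite] (h : IsLine M)
    (h4 : M.E.encard = 4) : LabelsOK M M.E M.E := by
  refine ⟨subset_rfl, subset_rfl, fun e he => ⟨iff_of_true he ?_, iff_of_true he ?_⟩⟩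
  · rw [← regular_contract_dual specDual]
    exact regular_contract_of_uniform2 (line_dual h h4) he
  · exact regular_contract_of_uniform2 h he

theorem labels_fan {α : Type u} {M : Matroid α} [M.Finite] {A : Set α} (h : IsFanWith M A) :
    LabelsOK M A (M.E \ A) := by
  obtain ⟨m, ε, δ, φ, hm, hφ, hr, hI, rfl⟩ := h
  have hsub : φ '' fanY m ε δ ⊆ M.E := by
    rw [← hr]; exact image_subset_range _ _
  refine ⟨hsub, sdiff_subset, fun e he => ?_⟩
  rw [← hr] at he
  obtain ⟨a, rfl⟩ := he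
  have hmem : φ a ∈ φ '' fanY m ε δ ↔ a ∈ fanY m ε δ := hφ.mem_set_image
  have haE : φ a ∈ M.E := by rw [← hr]; exact mem_range_self a
  have hmem' : φ a ∈ M.E \ φ '' fanY m ε δ ↔ a ∉ fanY m ε δ := by
    rw [mem_sdiff, hmem]
    exact and_iff_right haE
  rw [hmem, hmem']
  have basis : ∀ s : FanBasis m δ, IsRegular (M.delete {φ (FanEOR.elt s)}) ∧
      ¬ IsRegular (M.contract {φ (FanEOR.elt s)}) := fun s =>
    ⟨FanEOR.elt_del hm φ hφ hr hI s, FanEOR.contract_elt hm φ hφ hr hI s⟩
  have cobasis : ∀ s : FanBasis m ε, IsRegular (M.contract {φ (fanSwap m ε δ (FanEOR.elt s))}) ∧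
      ¬ IsRegular (M.delete {φ (fanSwap m ε δ (FanEOR.elt s))}) := fun s =>
    FanEOR.swap_elt hm φ hφ hr hI s
  cases a with
  | y i j =>
    have hy : (FanElt.y i j : FanElt m ε δ) ∈ fanY m ε δ := Or.inl ⟨i, j, rfl⟩
    have := basis (Sum.inl ⟨i, j⟩)
    exact ⟨iff_of_true hy this.1, iff_of_false (fun h => h hy) this.2⟩
  | y0 h =>
    have hy : (FanElt.y0 h : FanElt m ε δ) ∈ fanY m ε δ := Or.inr ⟨h, rfl⟩
    have := basis (Sum.inr ⟨(), h⟩)
    exact ⟨iff_of_true hy this.1, iff_of_false (fun h => h hy) this.2⟩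
  | x i j =>
    have hy : (FanElt.x i j : FanElt m ε δ) ∉ fanY m ε δ := by
      rintro (⟨i, j, h⟩ | ⟨h', h⟩) <;> cases h
    have h1 := cobasis (Sum.inl ⟨i, j.rev⟩)
    have h2 : IsRegular (M.contract {φ (FanElt.x i j)}) ∧
        ¬ IsRegular (M.delete {φ (FanElt.x i j)}) := by
      simpa [FanEOR.elt, fanSwap] using h1
    exact ⟨iff_of_false hy h2.2, iff_of_true hy h2.1⟩
  | x0 h =>
    have hy : (FanElt.x0 h : FanElt m ε δ) ∉ fanY m ε δ := by
      rintro (⟨i, j, h⟩ | ⟨h', h⟩) <;> cases h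
    have h2 := cobasis (Sum.inr ⟨(), h⟩)
    exact ⟨iff_of_false hy h2.2, iff_of_true hy h2.1⟩

theorem labels_pm {α : Type u} {M : Matroid α} [M.Finite] {Y : Set α} {W : α → α → ℤ}
    (h1 : IsSimple M) (h2 : IsSimple M✶) (h : IsPMMatroid M Y W) (h5 : 5 ≤ M.E.encard) :
    LabelsOK M Y (M.E \ Y) := by
  obtain ⟨N, hNf, hr, hY, hN2, hCH, hM3⟩ := pm_partner h
  have hreg := specRelax' α N M Y hN2 hCH hr hM3
  have heor := (hNB α M Y W h h1 h2).2.2 h5
  refine ⟨h.1, sdiff_subset, fun e he => ?_⟩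
  by_cases heY : e ∈ Y
  · have hd := (hreg.1 e heY).2
    refine ⟨iff_of_true heY hd, iff_of_false (fun hc => hc.2 heY) fun hc => ?_⟩
    rcases heor.2 e he with ⟨-, h3⟩ | ⟨-, h3⟩
    · exact h3 hc
    · exact h3 hd
  · have hc := (hreg.2 e ⟨by rw [← hr.1]; exact he, heY⟩).2
    refine ⟨iff_of_false heY fun hd => ?_, iff_of_true ⟨he, heY⟩ hc⟩
    rcases heor.2 e he with ⟨-, h3⟩ | ⟨-, h3⟩
    · exact h3 hc
    · exact h3 hd

theorem labels_tight {α : Type u} {M : Matroid α} [M.Finite] {Y : Set α} {W : α → α → ℤ}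
    (h : IsTightened M Y W) :
    LabelsOK M (Y ∪ {x ∈ M.E \ Y | ¬ HasFano Y ((M.E \ Y) \ {x}) W})
      ((M.E \ Y) ∪ {y ∈ Y | ¬ HasFano (Y \ {y}) (M.E \ Y) W}) := by
  obtain ⟨M', hM', hr, hY⟩ := id h
  have hb := specPMB α M M' Y W hM' hr hY
  have hreg := specRelax' α M M' Y hb.1 hb.2.1 hr hb.2.2
  have hYE : Y ⊆ M.E := hb.2.1.1.subset_ground
  refine ⟨union_subset hYE ((sep_subset _ _).trans sdiff_subset),
    union_subset sdiff_subset ((sep_subset _ _).trans hYE), fun e he => ?_⟩
  by_cases heY : e ∈ Y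
  · refine ⟨iff_of_true (Or.inl heY) (hreg.1 e heY).1, ?_⟩
    have h3 := (hRem α M Y W h).1 e heY
    constructor
    · rintro (hc | hc)
      · exact absurd heY hc.2
      · by_contra h4
        exact hc.2 (h3.1 h4)
    · intro h4
      exact Or.inr ⟨heY, fun h5 => h3.2 h5 h4⟩
  · refine ⟨?_, iff_of_true (Or.inl ⟨he, heY⟩) (hreg.2 e ⟨he, heY⟩).1⟩
    have h3 := (hRem α M Y W h).2 e ⟨he, heY⟩
    constructor
    · rintro (hc | hc)
      · exact absurd hc heY
      · by_contra h4
        exact hc.2 (h3.1 h4)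
    · intro h4
      exact Or.inr ⟨⟨he, heY⟩, fun h5 => h3.2 h5 h4⟩

theorem listed_labels {α : Type u} {M : Matroid α} [M.Finite] {A B : Set α}
    (h1 : IsSimple M) (h2 : IsSimple M✶) (h : Listed M A B) : LabelsOK M A B := by
  rcases h with ⟨h, h5, rfl, rfl⟩ | ⟨h, h5, rfl, rfl⟩ | ⟨h, h4, rfl, rfl⟩ | ⟨h, rfl⟩ |
    ⟨Y, W, h, h5, rfl, rfl⟩ | ⟨Y, W, h, -, rfl, rfl⟩
  · exact labels_line h h5
  · exact (labels_line (M := M✶) h h5).dual
  · exact labels_u24 h h4
  · exact labels_fan h
  · exact labels_pm h1 h2 h h5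
  · exact labels_tight h

/-- a small matroid of a `±1` matrix is `U_{2,4}` -/
theorem pm_small {α : Type u} {M : Matroid α} [M.Finite] {Y : Set α} {W : α → α → ℤ}
    (h1 : IsSimple M) (h2 : IsSimple M✶) (h : IsPMMatroid M Y W) (h5 : ¬ 5 ≤ M.E.encard) :
    IsLine M ∧ M.E.encard = 4 := by
  have hYf : Y.Finite := M.ground_finite.subset h.1
  have hXf : (M.E \ Y).Finite := M.ground_finite.subset sdiff_subset
  have hcard := PMNONBIN.card_add h
  have hen : (5 ≤ M.E.encard) ↔ 5 ≤ M.E.ncard := by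
    rw [← M.ground_finite.cast_ncard_eq]
    exact_mod_cast Iff.rfl
  rw [hen] at h5
  have hX2 : 2 ≤ (M.E \ Y).ncard := by
    by_contra hc
    push Not at hc
    have := hXf.to_subtype
    exact PMNONBIN.two_X h h2 ((ncard_le_one_iff_subsingleton (s := M.E \ Y)).1 (by omega))
  have hY2 : 2 ≤ Y.ncard := by
    by_contra hc
    push Not at hc
    have := hYf.to_subtype
    exact PMNONBIN.two_Y h h1 ((ncard_le_one_iff_subsingleton (s := Y)).1 (by omega))
  refine ⟨uniform2_of h1 (PMNONBIN.isBase_Y h) (by omega), ?_⟩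
  rw [← M.ground_finite.cast_ncard_eq]
  have : M.E.ncard = 4 := by omega
  rw [this]; rfl

theorem listed_iff {α : Type u} (M : Matroid α) [M.Finite] (h1 : IsSimple M) (h2 : IsSimple M✶) :
    (∃ A B, Listed M A B) ↔ AtLeastOneRegular M := by
  constructor
  · rintro ⟨A, B, h⟩
    rcases h with ⟨h, h5, rfl, rfl⟩ | ⟨h, h5, rfl, rfl⟩ | ⟨h, h4, rfl, rfl⟩ | ⟨h, rfl⟩ |
      ⟨Y, W, h, h5, rfl, rfl⟩ | ⟨Y, W, h, hF, rfl, rfl⟩
    · exact (basic_iff M h1 h2).2 (Or.inl ⟨h5, h⟩)
    · exact (basic_iff M h1 h2).2 (Or.inr (Or.inl ⟨h5, h⟩))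
    · refine ⟨fun hc => u2_not_binary h4.ge h (hc F2), fun e he => ?_⟩
      exact Or.inr (regular_contract_of_uniform2 h he)
    · obtain ⟨m, ε, δ, φ, hm, hφ, hr, hI, rfl⟩ := h
      exact (basic_iff M h1 h2).2 (Or.inr (Or.inr (Or.inl ⟨m, ε, δ, hm, φ, hφ, hr, hI⟩)))
    · exact (basic_iff M h1 h2).2 (Or.inr (Or.inr (Or.inr (Or.inl ⟨_, _, h⟩))))
    · exact (basic_iff M h1 h2).2 (Or.inr (Or.inr (Or.inr (Or.inr ⟨Y, W, h, hF⟩))))
  · intro hK
    rcases (basic_iff M h1 h2).1 hK with h | h | h | ⟨Y, W, h⟩ | ⟨Y, W, h, hF⟩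
    · exact ⟨_, _, Or.inl ⟨h.2, h.1, rfl, rfl⟩⟩
    · exact ⟨_, _, Or.inr (Or.inl ⟨h.2, h.1, rfl, rfl⟩)⟩
    · obtain ⟨m, ε, δ, hm, φ, hφ, hr, hI⟩ := h
      exact ⟨_, _, Or.inr (Or.inr (Or.inr (Or.inl
        ⟨⟨m, ε, δ, φ, hm, hφ, hr, hI, rfl⟩, rfl⟩)))⟩
    · by_cases h5 : 5 ≤ M.E.encard
      · exact ⟨_, _, Or.inr (Or.inr (Or.inr (Or.inr (Or.inl ⟨Y, W, h, h5, rfl, rfl⟩))))⟩
      · have := pm_small h1 h2 h h5
        exact ⟨_, _, Or.inr (Or.inr (Or.inl ⟨this.1, this.2, rfl, rfl⟩))⟩
    · exact ⟨_, _, Or.inr (Or.inr (Or.inr (Or.inr (Or.inr ⟨Y, W, h, hF, rfl, rfl⟩))))⟩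

/-- The classification of all exactly-one-regular matroids. -/
theorem eor_classification {α : Type u} (M : Matroid α) [M.Finite] :
    ExactlyOneRegular M ↔ ∃ (M₀ : Matroid α) (A B C D : Set α), Listed M₀ A B ∧ IsSimple M₀ ∧
      IsSimple M₀✶ ∧ IsExtension M M₀ A B C D := by
  rw [((specSP specDual) α M).2]
  constructor
  · rintro ⟨M₀, C, D, h, h1, h2, hK, h3⟩
    have hf : M₀.Finite := h.finite
    obtain ⟨A, B, hL⟩ := (listed_iff M₀ h1 h2).2 hK
    have hl := listed_labels h1 h2 hL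
    obtain ⟨hC, hD, hCD, hM, hd, hc⟩ := h
    refine ⟨M₀, A, B, C, D, hL, h1, h2, hC, hD, hCD, hM, fun d hd' => ?_, fun c hc' => ?_,
      fun e he => ?_⟩
    · obtain ⟨e, he, hp, hr⟩ := hd d hd'
      exact ⟨e, (hl.2.2 e he).2.2 hr, hp⟩
    · obtain ⟨e, he, hp, hr⟩ := hc c hc'
      exact ⟨e, (hl.2.2 e he).1.2 hr, hp⟩
    · have heE := hl.1 he.1
      exact h3 e heE ((hl.2.2 e heE).1.1 he.1) ((hl.2.2 e heE).2.1 he.2)
  · rintro ⟨M₀, A, B, C, D, hL, h1, h2, hC, hD, hCD, hM, hd, hc, h3⟩
    have hf : M₀.Finite := by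
      rw [hM]
      exact ⟨M.ground_finite.subset (sdiff_subset.trans sdiff_subset)⟩
    have hl := listed_labels h1 h2 hL
    refine ⟨M₀, C, D, ⟨hC, hD, hCD, hM, fun d hd' => ?_, fun c hc' => ?_⟩, h1, h2,
      (listed_iff M₀ h1 h2).1 ⟨A, B, hL⟩, fun e he hr1 hr2 => ?_⟩
    · obtain ⟨e, he, hp⟩ := hd d hd'
      exact ⟨e, hl.2.1 he, hp, (hl.2.2 e (hl.2.1 he)).2.1 he⟩
    · obtain ⟨e, he, hp⟩ := hc c hc'
      exact ⟨e, hl.1 he, hp, (hl.2.2 e (hl.1 he)).1.1 he⟩
    · exact h3 e ⟨(hl.2.2 e he).1.2 hr1, (hl.2.2 e he).2.2 hr2⟩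

/-- The simple cosimple exactly-one-regular matroids. -/
theorem eor_simple {α : Type u} (M : Matroid α) [M.Finite] (h1 : IsSimple M) (h2 : IsSimple M✶) :
    ExactlyOneRegular M ↔ ∃ A B, Listed M A B ∧ Disjoint A B := by
  constructor
  · intro h
    obtain ⟨A, B, hL⟩ := (listed_iff M h1 h2).2 ⟨h.1, fun e he => (h.2 e he).or⟩
    have hl := listed_labels h1 h2 hL
    refine ⟨A, B, hL, Set.disjoint_left.2 fun e heA heB => ?_⟩
    have heE := hl.1 heA
    rcases h.2 e heE with ⟨-, h3⟩ | ⟨-, h3⟩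
    · exact h3 ((hl.2.2 e heE).2.1 heB)
    · exact h3 ((hl.2.2 e heE).1.1 heA)
  · rintro ⟨A, B, hL, hd⟩
    have hl := listed_labels h1 h2 hL
    have hK := (listed_iff M h1 h2).1 ⟨A, B, hL⟩
    refine ⟨hK.1, fun e he => ?_⟩
    have hle := hl.2.2 e he
    rcases hK.2 e he with h3 | h3
    · exact Or.inl ⟨h3, fun h4 => Set.disjoint_left.1 hd (hle.1.2 h3) (hle.2.2 h4)⟩
    · exact Or.inr ⟨h3, fun h4 => Set.disjoint_left.1 hd (hle.1.2 h4) (hle.2.2 h3)⟩

end MP948082
end
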